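import Pool.Agent.Lib.MP_fceebd_gt.Tri

/-! # Row A1: algebra of `app`, `flipF`, `permM` -/

set_option autoImplicit false
set_option linter.unusedSectionVars false

namespace Pool.Veech

variable {D : Type} [Fintype D] [DecidableEq D] {M M' : Type*} [AddCommGroup M] [AddCommGroup M']

theorem app_one (f : D → M) : app (1 : Matrix D D ℤ) f = f := by
  funext d
  simp only [app, Matrix.one_apply, ite_smul, one_smul, zero_smul]
  simp

theorem app_mul (m m' : Matrix D D ℤ) (f : D → M) : app (m * m') f = app m (app m' f) := by
  funext d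
  simp only [app, Matrix.mul_apply, Finset.sum_smul, Finset.smul_sum, mul_smul]
  rw [Finset.sum_comm]

theorem app_add (m : Matrix D D ℤ) (f g : D → M) : app m (f + g) = app m f + app m g := by
  funext d
  simp only [app, Pi.add_apply, smul_add, Finset.sum_add_distrib]

theorem app_sub (m : Matrix D D ℤ) (f g : D → M) : app m (f - g) = app m f - app m g := by
  funext d
  simp only [app, Pi.sub_apply, smul_sub, Finset.sum_sub_distrib]

theorem app_neg (m : Matrix D D ℤ) (f : D → M) : app m (-f) = -app m f := by
  funext d
  simp only [app, Pi.neg_apply, smul_neg, Finset.sum_neg_distrib]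

theorem app_zero (m : Matrix D D ℤ) : app m (0 : D → M) = 0 := by
  funext d
  simp only [app, Pi.zero_apply, smul_zero, Finset.sum_const_zero]

theorem app_smul {R : Type*} [Ring R] [Module R M] (m : Matrix D D ℤ) (r : R) (f : D → M) :
    app m (r • f) = r • app m f := by
  funext d
  simp only [app, Pi.smul_apply, Finset.smul_sum]
  exact Finset.sum_congr rfl fun e _ => (smul_comm _ _ _)

theorem app_sum {ι : Type*} (s : Finset ι) (m : Matrix D D ℤ) (f : ι → D → M) :
    app m (∑ i ∈ s, f i) = ∑ i ∈ s, app m (f i) := by
  funext d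
  simp only [app, Finset.sum_apply, Finset.smul_sum]
  rw [Finset.sum_comm]

/-- naturality -/
theorem app_map (m : Matrix D D ℤ) (f : D → M) (g : M →+ M') (d : D) :
    app m (fun e => g (f e)) d = g (app m f d) := by
  simp only [app, map_sum, map_zsmul]

theorem app_intCast {R : Type*} [CommRing R] (m : Matrix D D ℤ) (f : D → ℤ) (d : D) :
    app m (fun e => (f e : R)) d = ((app m f d : ℤ) : R) := by
  simp only [app, zsmul_eq_mul, Int.cast_sum, Int.cast_mul, smul_eq_mul]

theorem app_coord {ι : Type*} {R : Type*} [CommRing R] (m : Matrix D D ℤ) (z : D → ι → R) (d : D)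
    (i : ι) : app m (fun e => z e i) d = app m z d i := by
  simp only [app, Finset.sum_apply, Pi.smul_apply]

theorem app_lin (m : Matrix D D ℤ) (A : Matrix (Fin 2) (Fin 2) ℝ) (z : D → Vec) :
    app m (lin A z) = lin A (app m z) := by
  funext d
  simp only [app, lin]
  rw [← Matrix.mulVecLin_apply, map_sum]
  refine Finset.sum_congr rfl fun e _ => ?_
  rw [map_zsmul, Matrix.mulVecLin_apply]

/-- `app m` is multiplication of a vector by the matrix `m` over a commutative ring -/
theorem app_mulVec {R : Type*} [CommRing R] (m : Matrix D D ℤ) (f : D → R) :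
    app m f = (m.map (Int.cast : ℤ → R)).mulVec f := by
  funext d
  simp only [app, Matrix.mulVec, dotProduct, Matrix.map_apply, zsmul_eq_mul]

theorem app_flipM (T : Tri D) (a : D) (f : D → M) : app (T.flipM a) f = T.flipF a f := by
  funext d
  simp only [app, Tri.flipM, Tri.flipF]
  by_cases h : T.Diag a d
  · simp only [if_pos h, sub_smul, neg_smul, ite_smul, one_smul, zero_smul]
    rw [Finset.sum_sub_distrib, Finset.sum_neg_distrib]
    simp
  · simp only [if_neg h, ite_smul, one_smul, zero_smul]
    simp

theorem app_permM (e : Equiv.Perm D) (f : D → M) : app (permM e) f = fun d => f (e.symm d) := by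
  funext d
  simp only [app, permM, ite_smul, one_smul, zero_smul]
  simp

theorem permM_mul (e e' : Equiv.Perm D) : permM e * permM e' = permM (e'.trans e) := by
  ext d d'
  simp only [Matrix.mul_apply, permM, ite_mul, one_mul, zero_mul]
  simp
  all_goals rfl

theorem permM_refl : permM (Equiv.refl D) = 1 := by
  ext d d'
  simp only [permM, Matrix.one_apply, Equiv.refl_symm, Equiv.refl_apply]
  refine if_congr ?_ rfl rfl
  exact eq_comm

theorem lin_lin (A B : Matrix (Fin 2) (Fin 2) ℝ) (z : D → Vec) :
    lin A (lin B z) = lin (A * B) z := by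
  funext d
  simp only [lin, Matrix.mulVec_mulVec]

theorem lin_one (z : D → Vec) : lin 1 z = z := by
  funext d
  simp only [lin, Matrix.one_mulVec]

theorem cr_mulVec (A : Matrix (Fin 2) (Fin 2) ℝ) (u v : Vec) :
    cr (A.mulVec u) (A.mulVec v) = A.det * cr u v := by
  simp only [cr, Matrix.mulVec, dotProduct, Fin.sum_univ_two, Matrix.det_fin_two]
  ring

end Pool.Veech
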