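import Pool.Agent.Lib.MP_fceebd_gt.A1

/-! # Row A2: distinctness of the twelve darts, cocycles and flips -/

set_option autoImplicit false

namespace Pool.Veech

variable {D : Type} {M : Type*} [AddCommGroup M]

/-- cross products of consecutive edges of a triangle are equal -/
theorem Geo.cr_nxt {T : Tri D} {z : D → Vec} (h : Geo T z) (d : D) :
    cr (z (T.nxt d)) (z (T.nxt (T.nxt d))) = cr (z d) (z (T.nxt d)) := by
  have h1 := h.coc.closed d
  have h2 : z (T.nxt (T.nxt d)) = -z d - z (T.nxt d) := by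
    rw [← sub_eq_zero, ← h1]
    abel
  rw [h2]
  simp only [cr, Pi.sub_apply, Pi.neg_apply]
  ring

/-- the four darts of the diagonals -/
def Tri.dg (T : Tri D) (a : D) (j : Fin 4) : D := ![a, T.opp a, T.tau a, T.tau (T.opp a)] j

/-- the darts of the four triangles -/
def Tri.nr (T : Tri D) (a : D) (p : Fin 4 × Fin 3) : D := (T.nxt)^[p.2.1] (T.dg a p.1)

theorem Tri.diag_iff (T : Tri D) (a d : D) : T.Diag a d ↔ ∃ j, T.dg a j = d := by
  constructor
  · rintro (h | h | h | h)
    · exact ⟨0, h.symm⟩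
    · exact ⟨1, h.symm⟩
    · exact ⟨2, h.symm⟩
    · exact ⟨3, h.symm⟩
  · rintro ⟨j, rfl⟩
    fin_cases j
    · exact Or.inl rfl
    · exact Or.inr (Or.inl rfl)
    · exact Or.inr (Or.inr (Or.inl rfl))
    · exact Or.inr (Or.inr (Or.inr rfl))

theorem Tri.near_iff (T : Tri D) (a d : D) : T.Near a d ↔ ∃ p, T.nr a p = d := by
  constructor
  · rintro ⟨b, hb, h⟩
    have hb' : T.Diag a b := by
      rcases hb with h1 | h1 | h1 | h1
      · exact Or.inl h1
      · exact Or.inr (Or.inl h1)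
      · exact Or.inr (Or.inr (Or.inl h1))
      · exact Or.inr (Or.inr (Or.inr h1))
    obtain ⟨j, rfl⟩ := (T.diag_iff a b).1 hb'
    rcases h with h | h | h
    · exact ⟨(j, 0), h.symm⟩
    · exact ⟨(j, 1), h.symm⟩
    · exact ⟨(j, 2), h.symm⟩
  · rintro ⟨⟨j, i⟩, rfl⟩
    refine ⟨T.dg a j, ?_, ?_⟩
    · fin_cases j
      · exact Or.inl rfl
      · exact Or.inr (Or.inl rfl)
      · exact Or.inr (Or.inr (Or.inl rfl))
      · exact Or.inr (Or.inr (Or.inr rfl))
    · fin_cases i
      · exact Or.inl rfl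
      · exact Or.inr (Or.inl rfl)
      · exact Or.inr (Or.inr rfl)

private theorem A2a_dg {T : Tri D} {z : D → Vec} (h : Geo T z) (a : D) (j : Fin 4) :
    ∃ r : ℝ, z (T.dg a j) = r • z a := by
  fin_cases j
  · exact ⟨1, (one_smul _ _).symm⟩
  · refine ⟨-1, ?_⟩
    change z (T.opp a) = _
    rw [h.coc.glue, neg_smul, one_smul]
  · refine ⟨-1, ?_⟩
    change z (T.tau a) = _
    rw [h.anti, neg_smul, one_smul]
  · refine ⟨1, ?_⟩
    change z (T.tau (T.opp a)) = _
    rw [h.anti, h.coc.glue, neg_neg, one_smul]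

private theorem A2a_ne {T : Tri D} {z : D → Vec} (h : Geo T z) (a : D) (j k : Fin 4) :
    T.nxt (T.dg a j) ≠ T.dg a k := by
  intro h1
  have h2 := h.pos (T.dg a j)
  rw [h1] at h2
  obtain ⟨r, hr⟩ := A2a_dg h a j
  obtain ⟨s, hs⟩ := A2a_dg h a k
  rw [hr, hs] at h2
  simp only [cr, Pi.smul_apply, smul_eq_mul] at h2
  have h3 : r * z a 0 * (s * z a 1) - r * z a 1 * (s * z a 0) = 0 := by ring
  rw [h3] at h2
  exact lt_irrefl _ h2

private theorem A2a_ne_neg {T : Tri D} {z : D → Vec} (h : Geo T z) {b c : D} (hc : z c = -z b) :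
    b ≠ c := by
  rintro rfl
  have h2 := h.pos b
  have h3 : z b = 0 := by
    have h4 : (2 : ℝ) • z b = 0 := by
      rw [two_smul]
      nth_rewrite 1 [hc]
      exact neg_add_cancel _
    exact (smul_eq_zero.1 h4).resolve_left (by norm_num)
  rw [h3] at h2
  simp [cr] at h2

private theorem A2a_dg_inj {T : Tri D} {z : D → Vec} (h : Geo T z) (a : D) :
    Function.Injective (T.dg a) := by
  have h01 : a ≠ T.opp a := A2a_ne_neg h (h.coc.glue a)
  have h02 : a ≠ T.tau a := A2a_ne_neg h (h.anti a)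
  have h03 : a ≠ T.tau (T.opp a) := by
    intro h1
    have h2 := T.tau2 (T.opp a)
    rw [← h1] at h2
    exact T.opp_ne a h2.symm
  have h12 : T.opp a ≠ T.tau a := T.opp_ne a
  have h13 : T.opp a ≠ T.tau (T.opp a) := A2a_ne_neg h (h.anti _)
  have h23 : T.tau a ≠ T.tau (T.opp a) := fun h1 => h01 (T.tau.injective h1)
  intro j k hjk
  fin_cases j <;> fin_cases k
  · rfl
  · exact absurd hjk h01
  · exact absurd hjk h02
  · exact absurd hjk h03
  · exact absurd hjk.symm h01
  · rfl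
  · exact absurd hjk h12
  · exact absurd hjk h13
  · exact absurd hjk.symm h02
  · exact absurd hjk.symm h12
  · rfl
  · exact absurd hjk h23
  · exact absurd hjk.symm h03
  · exact absurd hjk.symm h13
  · exact absurd hjk.symm h23
  · rfl

/-- The twelve darts are different. (For instance `nxt a = opp a` is impossible since then
`cr (z a) (z (nxt a)) = cr (z a) (- z a) = 0`; `nxt a = tau (opp a)` is impossible since
then `z (nxt a) = z a`; `opp a = tau a` is excluded by `opp_ne`.) -/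
theorem Geo.nr_injective {T : Tri D} {z : D → Vec} (h : Geo T z) (a : D) :
    Function.Injective (T.nr a) := by
  rintro ⟨j, i⟩ ⟨k, l⟩ hjk
  have key : ∀ (j k : Fin 4), T.nxt (T.dg a j) ≠ T.dg a k := A2a_ne h a
  have key2 : ∀ (j k : Fin 4), T.nxt (T.nxt (T.dg a j)) ≠ T.dg a k := by
    intro j k h1
    apply key k j
    rw [← h1, T.nxt3]
  fin_cases i <;> fin_cases l
  · exact Prod.ext (A2a_dg_inj h a hjk) rfl
  · exact absurd hjk.symm (key k j)
  · exact absurd hjk.symm (key2 k j)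
  · exact absurd hjk (key j k)
  · exact Prod.ext (A2a_dg_inj h a (T.nxt.injective hjk)) rfl
  · exact absurd (T.nxt.injective hjk).symm (key k j)
  · exact absurd hjk (key2 j k)
  · exact absurd (T.nxt.injective hjk) (key j k)
  · exact Prod.ext (A2a_dg_inj h a (T.nxt.injective (T.nxt.injective hjk))) rfl

theorem Geo.not_diag_nxt {T : Tri D} {z : D → Vec} (h : Geo T z) {a b : D} (hb : T.Diag a b) :
    ¬ T.Diag a (T.nxt b) ∧ ¬ T.Diag a (T.nxt (T.nxt b)) := by
  obtain ⟨j, rfl⟩ := (T.diag_iff a b).1 hb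
  refine ⟨fun h1 => ?_, fun h1 => ?_⟩
  · obtain ⟨k, hk⟩ := (T.diag_iff a _).1 h1
    exact A2a_ne h a j k hk.symm
  · obtain ⟨k, hk⟩ := (T.diag_iff a _).1 h1
    apply A2a_ne h a k j
    rw [hk, T.nxt3]

end Pool.Veech
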