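import Pool.Agent.Lib.MP_fceebd_gt.A2a

/-! # Row A2: distinctness of the twelve darts, cocycles and flips -/

set_option autoImplicit false

namespace Pool.Veech

variable {D : Type} {M : Type*} [AddCommGroup M]

private theorem A2b_diag_opp (T : Tri D) {a b : D} (hb : T.Diag a b) : T.Diag a (T.opp b) := by
  rcases hb with rfl | rfl | rfl | rfl
  · exact Or.inr (Or.inl rfl)
  · exact Or.inl (T.opp2 a)
  · exact Or.inr (Or.inr (Or.inr (T.tau_opp a).symm))
  · refine Or.inr (Or.inr (Or.inl ?_))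
    rw [T.tau_opp, T.opp2]

private theorem A2b_diag_opp_iff (T : Tri D) {a b : D} : T.Diag a (T.opp b) ↔ T.Diag a b := by
  refine ⟨fun h => ?_, A2b_diag_opp T⟩
  have := A2b_diag_opp T h
  rwa [T.opp2] at this

private theorem A2b_diag_tau (T : Tri D) {a b : D} (hb : T.Diag a b) : T.Diag a (T.tau b) := by
  rcases hb with rfl | rfl | rfl | rfl
  · exact Or.inr (Or.inr (Or.inl rfl))
  · exact Or.inr (Or.inr (Or.inr rfl))
  · exact Or.inl (T.tau2 a)
  · exact Or.inr (Or.inl (T.tau2 _))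

private theorem A2b_diag_tau_iff (T : Tri D) {a b : D} : T.Diag a (T.tau b) ↔ T.Diag a b := by
  refine ⟨fun h => ?_, A2b_diag_tau T⟩
  have := A2b_diag_tau T h
  rwa [T.tau2] at this

private theorem A2b_near_iff (T : Tri D) {a d : D} :
    T.Near a d ↔ ∃ b, T.Diag a b ∧ (d = b ∨ d = T.nxt b ∨ d = T.nxt (T.nxt b)) := Iff.rfl

private theorem A2b_near_nxt (T : Tri D) {a d : D} (h : T.Near a (T.nxt d)) : T.Near a d := by
  obtain ⟨b, hb, h1 | h1 | h1⟩ := h
  · refine ⟨b, hb, Or.inr (Or.inr ?_)⟩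
    rw [← h1, T.nxt3]
  · exact ⟨b, hb, Or.inl (T.nxt.injective h1)⟩
  · exact ⟨b, hb, Or.inr (Or.inl (T.nxt.injective h1))⟩

private theorem A2b_near_diag (T : Tri D) {a d : D} (h : T.Diag a d) : T.Near a d :=
  ⟨d, h, Or.inl rfl⟩

private theorem A2b_pos [DecidableEq D] (T : Tri D) {a d : D} (f : D → M) (h : T.Diag a d) :
    T.flipF a f d = -f (T.nxt (T.nxt d)) - f (T.nxt (T.opp d)) := if_pos h

private theorem A2b_neg [DecidableEq D] (T : Tri D) {a d : D} (f : D → M) (h : ¬ T.Diag a d) :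
    T.flipF a f d = f d := if_neg h

theorem Geo.flip_coc [DecidableEq D] {T T' : Tri D} {z : D → Vec} {a : D} (h : Geo T z)
    (hf : T.IsFlip T' a) {f : D → M} (hc : IsCoc T f) : IsCoc T' (T.flipF a f) := by
  have key : ∀ b, T.Diag a b → T.flipF a f b = -f (T.nxt (T.nxt b)) - f (T.nxt (T.opp b)) ∧
      T.flipF a f (T.nxt b) = f (T.nxt b) ∧
      T.flipF a f (T.nxt (T.nxt b)) = f (T.nxt (T.nxt b)) := fun b hb =>
    ⟨A2b_pos T f hb, A2b_neg T f (h.not_diag_nxt hb).1, A2b_neg T f (h.not_diag_nxt hb).2⟩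
  refine ⟨fun d => ?_, fun d => ?_⟩
  · by_cases hn : T.Near a d
    · obtain ⟨b, hb, hd⟩ := hn
      have hb' : T.Diag a (T.opp b) := A2b_diag_opp T hb
      obtain ⟨k1, k2, k3⟩ := key b hb
      obtain ⟨l1, l2, l3⟩ := key _ hb'
      rw [T.opp2] at l1
      have e1 := hf.nxt1 b hb
      have e2 := hf.nxt2 b hb
      have e3 := hf.nxt3 b hb
      have e4 := hf.nxt1 _ hb'
      have e5 := hf.nxt3 _ hb'
      rw [T.opp2] at e5
      rcases hd with rfl | rfl | rfl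
      · rw [e1, e2, k1, k3, l2]
        abel
      · rw [e3, e4, k2, l1, l3]
        abel
      · rw [e2, e5, k1, k3, l2]
        abel
    · have hn1 : ¬ T.Near a (T.nxt d) := fun h1 => hn (A2b_near_nxt T h1)
      have hn2 : ¬ T.Near a (T.nxt (T.nxt d)) := fun h1 => hn1 (A2b_near_nxt T h1)
      rw [hf.rest d hn, hf.rest _ hn1, A2b_neg T f fun h1 => hn (A2b_near_diag T h1),
        A2b_neg T f fun h1 => hn1 (A2b_near_diag T h1),
        A2b_neg T f fun h1 => hn2 (A2b_near_diag T h1)]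
      exact hc.closed d
  · rw [hf.opp]
    by_cases hd : T.Diag a d
    · rw [A2b_pos T f (A2b_diag_opp T hd), A2b_pos T f hd, T.opp2]
      have h1 := hc.closed d
      have h2 := hc.closed (T.opp d)
      have h3 := hc.glue d
      rw [h3] at h2
      rw [← sub_eq_zero]
      have h4 : -f (T.nxt (T.nxt (T.opp d))) - f (T.nxt d) -
          -(-f (T.nxt (T.nxt d)) - f (T.nxt (T.opp d))) =
          -(f d + f (T.nxt d) + f (T.nxt (T.nxt d))) -
          (-f d + f (T.nxt (T.opp d)) + f (T.nxt (T.nxt (T.opp d)))) := by abel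
      rw [h4, h1, h2]
      simp
    · rw [A2b_neg T f fun h1 => hd ((A2b_diag_opp_iff T).1 h1), A2b_neg T f hd]
      exact hc.glue d

theorem Geo.flip_anti [DecidableEq D] {T T' : Tri D} {z : D → Vec} {a : D} (h : Geo T z)
    (hf : T.IsFlip T' a) {f : D → M} (hc : IsAnti T f) : IsAnti T' (T.flipF a f) := by
  intro d
  rw [hf.tau]
  by_cases hd : T.Diag a d
  · rw [A2b_pos T f (A2b_diag_tau T hd), A2b_pos T f hd, ← T.tau_nxt, ← T.tau_nxt, ← T.tau_opp,
      ← T.tau_nxt, hc, hc]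
    abel
  · rw [A2b_neg T f fun h1 => hd ((A2b_diag_tau_iff T).1 h1), A2b_neg T f hd]
    exact hc d

/-- comparison of sums over all darts before and after a flip -/
theorem Geo.flip_sum [Fintype D] {T T' : Tri D} {z : D → Vec} {a : D} (h : Geo T z)
    (F F' : D → M) (hF : ∀ d, ¬ T.Near a d → F' d = F d) :
    ∑ d, F' d - ∑ d, F d = ∑ p : Fin 4 × Fin 3, (F' (T.nr a p) - F (T.nr a p)) := by
  rw [← Finset.sum_sub_distrib]
  symm
  refine Finset.sum_of_injOn (T.nr a) (h.nr_injective a).injOn (fun _ _ => Finset.mem_univ _)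
    (fun d _ hd => ?_) (fun _ _ => rfl)
  rw [hF d, sub_self]
  intro hn
  obtain ⟨p, hp⟩ := (T.near_iff a d).1 hn
  exact hd ⟨p, Finset.mem_coe.2 (Finset.mem_univ p), hp⟩

private theorem A2b_pair [DecidableEq D] {R : Type*} [CommRing R] {T T' : Tri D}
    {z : D → Vec} {a : D} (h : Geo T z) (hf : T.IsFlip T' a) {f g : D → R} (hc : IsCoc T f)
    (hg : IsCoc T g) {b : D} (hb : T.Diag a b) :
    (∑ i : Fin 3, ((T.flipF a f (T.nxt^[i.1] b) * T.flipF a g (T'.nxt (T.nxt^[i.1] b)) -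
        T.flipF a g (T.nxt^[i.1] b) * T.flipF a f (T'.nxt (T.nxt^[i.1] b))) -
        (f (T.nxt^[i.1] b) * g (T.nxt (T.nxt^[i.1] b)) -
          g (T.nxt^[i.1] b) * f (T.nxt (T.nxt^[i.1] b))))) +
    (∑ i : Fin 3, ((T.flipF a f (T.nxt^[i.1] (T.opp b)) *
        T.flipF a g (T'.nxt (T.nxt^[i.1] (T.opp b))) -
        T.flipF a g (T.nxt^[i.1] (T.opp b)) * T.flipF a f (T'.nxt (T.nxt^[i.1] (T.opp b)))) -
        (f (T.nxt^[i.1] (T.opp b)) * g (T.nxt (T.nxt^[i.1] (T.opp b))) -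
          g (T.nxt^[i.1] (T.opp b)) * f (T.nxt (T.nxt^[i.1] (T.opp b)))))) = 0 := by
  have key : ∀ (f : D → R) b, T.Diag a b →
      T.flipF a f b = -f (T.nxt (T.nxt b)) - f (T.nxt (T.opp b)) ∧
      T.flipF a f (T.nxt b) = f (T.nxt b) ∧
      T.flipF a f (T.nxt (T.nxt b)) = f (T.nxt (T.nxt b)) := fun f b hb =>
    ⟨A2b_pos T f hb, A2b_neg T f (h.not_diag_nxt hb).1, A2b_neg T f (h.not_diag_nxt hb).2⟩
  have hb' : T.Diag a (T.opp b) := A2b_diag_opp T hb
  rw [Fin.sum_univ_three, Fin.sum_univ_three]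
  change (((T.flipF a f b * T.flipF a g (T'.nxt b) - T.flipF a g b * T.flipF a f (T'.nxt b)) -
      (f b * g (T.nxt b) - g b * f (T.nxt b))) +
    ((T.flipF a f (T.nxt b) * T.flipF a g (T'.nxt (T.nxt b)) -
      T.flipF a g (T.nxt b) * T.flipF a f (T'.nxt (T.nxt b))) -
      (f (T.nxt b) * g (T.nxt (T.nxt b)) - g (T.nxt b) * f (T.nxt (T.nxt b)))) +
    ((T.flipF a f (T.nxt (T.nxt b)) * T.flipF a g (T'.nxt (T.nxt (T.nxt b))) -
      T.flipF a g (T.nxt (T.nxt b)) * T.flipF a f (T'.nxt (T.nxt (T.nxt b)))) -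
      (f (T.nxt (T.nxt b)) * g (T.nxt (T.nxt (T.nxt b))) -
        g (T.nxt (T.nxt b)) * f (T.nxt (T.nxt (T.nxt b)))))) +
    (((T.flipF a f (T.opp b) * T.flipF a g (T'.nxt (T.opp b)) -
      T.flipF a g (T.opp b) * T.flipF a f (T'.nxt (T.opp b))) -
      (f (T.opp b) * g (T.nxt (T.opp b)) - g (T.opp b) * f (T.nxt (T.opp b)))) +
    ((T.flipF a f (T.nxt (T.opp b)) * T.flipF a g (T'.nxt (T.nxt (T.opp b))) -
      T.flipF a g (T.nxt (T.opp b)) * T.flipF a f (T'.nxt (T.nxt (T.opp b)))) -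
      (f (T.nxt (T.opp b)) * g (T.nxt (T.nxt (T.opp b))) -
        g (T.nxt (T.opp b)) * f (T.nxt (T.nxt (T.opp b))))) +
    ((T.flipF a f (T.nxt (T.nxt (T.opp b))) * T.flipF a g (T'.nxt (T.nxt (T.nxt (T.opp b)))) -
      T.flipF a g (T.nxt (T.nxt (T.opp b))) * T.flipF a f (T'.nxt (T.nxt (T.nxt (T.opp b))))) -
      (f (T.nxt (T.nxt (T.opp b))) * g (T.nxt (T.nxt (T.nxt (T.opp b)))) -
        g (T.nxt (T.nxt (T.opp b))) * f (T.nxt (T.nxt (T.nxt (T.opp b))))))) = 0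
  have e1 := hf.nxt1 b hb
  have e2 := hf.nxt2 b hb
  have e3 := hf.nxt3 b hb
  have e4 := hf.nxt1 _ hb'
  have e5 := hf.nxt2 _ hb'
  have e6 := hf.nxt3 _ hb'
  rw [T.opp2] at e5 e6
  rw [e1, e2, e3, e4, e5, e6, T.nxt3, T.nxt3]
  obtain ⟨k1, k2, k3⟩ := key f b hb
  obtain ⟨l1, l2, l3⟩ := key f _ hb'
  obtain ⟨m1, m2, m3⟩ := key g b hb
  obtain ⟨n1, n2, n3⟩ := key g _ hb'
  rw [T.opp2] at l1 n1
  rw [k1, k2, k3, l1, l2, l3, m1, m2, m3, n1, n2, n3]
  have c1 : f (T.nxt (T.nxt b)) = -f b - f (T.nxt b) := by linear_combination hc.closed b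
  have c2 : g (T.nxt (T.nxt b)) = -g b - g (T.nxt b) := by linear_combination hg.closed b
  have c3 : f (T.nxt (T.nxt (T.opp b))) = f b - f (T.nxt (T.opp b)) := by
    linear_combination hc.closed (T.opp b) - hc.glue b
  have c4 : g (T.nxt (T.nxt (T.opp b))) = g b - g (T.nxt (T.opp b)) := by
    linear_combination hg.closed (T.opp b) - hg.glue b
  rw [c1, c2, c3, c4, hc.glue b, hg.glue b]
  ring

/-- the bilinear form is invariant -/
theorem Geo.flip_form [Fintype D] [DecidableEq D] {R : Type*} [CommRing R] {T T' : Tri D}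
    {z : D → Vec} {a : D} (h : Geo T z) (hf : T.IsFlip T' a) {f g : D → R} (hc : IsCoc T f)
    (hg : IsCoc T g) : form T' (T.flipF a f) (T.flipF a g) = form T f g := by
  have h1 := h.flip_sum (T' := T') (a := a) (fun d => f d * g (T.nxt d) - g d * f (T.nxt d))
    (fun d => T.flipF a f d * T.flipF a g (T'.nxt d) - T.flipF a g d * T.flipF a f (T'.nxt d))
    (fun d hn => by
      have hn1 : ¬ T.Near a (T.nxt d) := fun h1 => hn (A2b_near_nxt T h1)
      have hd : ¬ T.Diag a d := fun h1 => hn (A2b_near_diag T h1)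
      have hd1 : ¬ T.Diag a (T.nxt d) := fun h1 => hn1 (A2b_near_diag T h1)
      simp only [hf.rest d hn, A2b_neg T _ hd, A2b_neg T _ hd1])
  rw [← sub_eq_zero]
  refine h1.trans ?_
  rw [Fintype.sum_prod_type, Fin.sum_univ_four]
  have h2 := A2b_pair h hf hc hg (b := a) (Or.inl rfl)
  have h3 := A2b_pair h hf hc hg (b := T.tau a) (Or.inr (Or.inr (Or.inl rfl)))
  rw [← T.tau_opp] at h3
  rw [add_assoc, add_assoc, ← add_assoc, ← add_zero (0 : R)]
  exact congrArg₂ (· + ·) h2 h3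

end Pool.Veech
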