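import Pool.Agent.Lib.MP_fceebd_gt.A2b

/-! # Row A2: distinctness of the twelve darts, cocycles and flips -/

set_option autoImplicit false

namespace Pool.Veech

variable {D : Type} {M : Type*} [AddCommGroup M]

private theorem A2c_diag_opp (T : Tri D) {a b : D} (hb : T.Diag a b) : T.Diag a (T.opp b) := by
  rcases hb with rfl | rfl | rfl | rfl
  · exact Or.inr (Or.inl rfl)
  · exact Or.inl (T.opp2 a)
  · exact Or.inr (Or.inr (Or.inr (T.tau_opp a).symm))
  · refine Or.inr (Or.inr (Or.inl ?_))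
    rw [T.tau_opp, T.opp2]

private theorem A2c_diag_opp_iff (T : Tri D) {a b : D} : T.Diag a (T.opp b) ↔ T.Diag a b := by
  refine ⟨fun h => ?_, A2c_diag_opp T⟩
  have := A2c_diag_opp T h
  rwa [T.opp2] at this

private theorem A2c_diag_tau (T : Tri D) {a b : D} (hb : T.Diag a b) : T.Diag a (T.tau b) := by
  rcases hb with rfl | rfl | rfl | rfl
  · exact Or.inr (Or.inr (Or.inl rfl))
  · exact Or.inr (Or.inr (Or.inr rfl))
  · exact Or.inl (T.tau2 a)
  · exact Or.inr (Or.inl (T.tau2 _))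

private theorem A2c_diag_tau_iff (T : Tri D) {a b : D} : T.Diag a (T.tau b) ↔ T.Diag a b := by
  refine ⟨fun h => ?_, A2c_diag_tau T⟩
  have := A2c_diag_tau T h
  rwa [T.tau2] at this

private theorem A2c_near_nxt (T : Tri D) {a d : D} (h : T.Near a (T.nxt d)) : T.Near a d := by
  obtain ⟨b, hb, h1 | h1 | h1⟩ := h
  · refine ⟨b, hb, Or.inr (Or.inr ?_)⟩
    rw [← h1, T.nxt3]
  · exact ⟨b, hb, Or.inl (T.nxt.injective h1)⟩
  · exact ⟨b, hb, Or.inr (Or.inl (T.nxt.injective h1))⟩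

private theorem A2c_near_diag (T : Tri D) {a d : D} (h : T.Diag a d) : T.Near a d :=
  ⟨d, h, Or.inl rfl⟩

private theorem A2c_pos [DecidableEq D] (T : Tri D) {a d : D} (f : D → M) (h : T.Diag a d) :
    T.flipF a f d = -f (T.nxt (T.nxt d)) - f (T.nxt (T.opp d)) := if_pos h

private theorem A2c_neg [DecidableEq D] (T : Tri D) {a d : D} (f : D → M) (h : ¬ T.Diag a d) :
    T.flipF a f d = f d := if_neg h

private theorem A2c_diag_iff {T T' : Tri D} {a : D} (h1 : T'.opp = T.opp) (h2 : T'.tau = T.tau)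
    (d : D) : T'.Diag a d ↔ T.Diag a d := by
  unfold Tri.Diag
  rw [h1, h2]

/-- the swap of the two sides of the diagonals -/
private def A2c_e [DecidableEq D] (T : Tri D) (a : D) : Equiv.Perm D where
  toFun d := if T.Diag a d then T.opp d else d
  invFun d := if T.Diag a d then T.opp d else d
  left_inv d := by
    by_cases h : T.Diag a d
    · simp only [if_pos h, if_pos (A2c_diag_opp T h), T.opp2]
    · simp only [if_neg h]
  right_inv d := by
    by_cases h : T.Diag a d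
    · simp only [if_pos h, if_pos (A2c_diag_opp T h), T.opp2]
    · simp only [if_neg h]

private theorem A2c_e_pos [DecidableEq D] (T : Tri D) {a d : D} (h : T.Diag a d) :
    A2c_e T a d = T.opp d := if_pos h

private theorem A2c_e_neg [DecidableEq D] (T : Tri D) {a d : D} (h : ¬ T.Diag a d) :
    A2c_e T a d = d := if_neg h

private theorem A2c_e_symm_pos [DecidableEq D] (T : Tri D) {a d : D} (h : T.Diag a d) :
    (A2c_e T a).symm d = T.opp d := if_pos h

private theorem A2c_e_symm_neg [DecidableEq D] (T : Tri D) {a d : D} (h : ¬ T.Diag a d) :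
    (A2c_e T a).symm d = d := if_neg h

private theorem A2c_relab_nxt (T : Tri D) (e : Equiv.Perm D) (d : D) :
    (T.relab e).nxt d = e (T.nxt (e.symm d)) := rfl

private theorem A2c_relab_opp (T : Tri D) (e : Equiv.Perm D) (d : D) :
    (T.relab e).opp d = e (T.opp (e.symm d)) := rfl

private theorem A2c_relab_tau (T : Tri D) (e : Equiv.Perm D) (d : D) :
    (T.relab e).tau d = e (T.tau (e.symm d)) := rfl

/-- Flipping twice is a relabelling. -/
theorem Geo.flip_flip [DecidableEq D] {T T' : Tri D} {z : D → Vec} {a : D} (h : Geo T z)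
    (hf : T.IsFlip T' a) :
    ∃ e : Equiv.Perm D, T'.IsFlip (T.relab e) a ∧
      ∀ (M : Type) [AddCommGroup M] (f : D → M), IsCoc T f →
        T'.flipF a (T.flipF a f) = fun d => f (e.symm d) := by
  have hD : ∀ d, T'.Diag a d ↔ T.Diag a d := A2c_diag_iff hf.opp hf.tau
  have hO : ∀ {b}, T.Diag a b → T.Diag a (T.opp b) := A2c_diag_opp T
  have hn1 : ∀ {b}, T.Diag a b → ¬ T.Diag a (T.nxt b) := fun hb => (h.not_diag_nxt hb).1
  have hn2 : ∀ {b}, T.Diag a b → ¬ T.Diag a (T.nxt (T.nxt b)) := fun hb => (h.not_diag_nxt hb).2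
  have f1 := hf.nxt1
  have f2 := hf.nxt2
  have f3 := hf.nxt3
  -- the triangle of `b` in `T'`
  have g1 : ∀ b, T.Diag a b → T'.nxt (T'.nxt b) = T.nxt (T.opp b) := fun b hb => by
    rw [f1 b hb, f2 b hb]
  have hnear : ∀ d, T'.Near a d → T.Near a d := by
    rintro d ⟨b, hb, hd⟩
    have hb' : T.Diag a b := (hD b).1 hb
    rcases hd with rfl | rfl | rfl
    · exact ⟨d, hb', Or.inl rfl⟩
    · exact ⟨b, hb', Or.inr (Or.inr (f1 b hb'))⟩
    · exact ⟨T.opp b, hO hb', Or.inr (Or.inl (g1 b hb'))⟩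
  have hnear' : ∀ d, T.Near a d → T'.Near a d := by
    rintro d ⟨b, hb, hd⟩
    have hb' : T.Diag a b := hb
    rcases hd with rfl | rfl | rfl
    · exact ⟨d, (hD d).2 hb', Or.inl rfl⟩
    · refine ⟨T.opp b, (hD _).2 (hO hb'), Or.inr (Or.inr ?_)⟩
      rw [g1 _ (hO hb'), T.opp2]
    · exact ⟨b, (hD b).2 hb', Or.inr (Or.inl (f1 b hb').symm)⟩
  refine ⟨A2c_e T a, ⟨?_, ?_, fun b hb => ?_, fun b hb => ?_, fun b hb => ?_, fun d hd => ?_⟩,
    fun M _ f hc => ?_⟩
  · ext d
    rw [A2c_relab_opp, hf.opp]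
    by_cases h1 : T.Diag a d
    · rw [A2c_e_symm_pos T h1, T.opp2, A2c_e_pos T h1]
    · rw [A2c_e_symm_neg T h1, A2c_e_neg T fun h2 => h1 ((A2c_diag_opp_iff T).1 h2)]
  · ext d
    rw [A2c_relab_tau, hf.tau]
    by_cases h1 : T.Diag a d
    · rw [A2c_e_symm_pos T h1, A2c_e_pos T (A2c_diag_tau T (hO h1)), ← T.tau_opp, T.opp2]
    · rw [A2c_e_symm_neg T h1, A2c_e_neg T fun h2 => h1 ((A2c_diag_tau_iff T).1 h2)]
  · have hb' := (hD b).1 hb
    rw [g1 b hb', A2c_relab_nxt, A2c_e_symm_pos T hb', A2c_e_neg T (hn1 (hO hb'))]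
  · have hb' := (hD b).1 hb
    rw [g1 b hb', A2c_relab_nxt, A2c_e_symm_neg T (hn1 (hO hb')), A2c_e_neg T (hn2 (hO hb')),
      hf.opp, f1 _ (hO hb')]
  · have hb' := (hD b).1 hb
    rw [f1 b hb', A2c_relab_nxt, A2c_e_symm_neg T (hn2 hb'), T.nxt3, A2c_e_pos T hb', hf.opp]
  · have hd' : ¬ T.Near a d := fun h1 => hd (hnear' d h1)
    have hd1 : ¬ T.Near a (T.nxt d) := fun h1 => hd' (A2c_near_nxt T h1)
    rw [A2c_relab_nxt, A2c_e_symm_neg T fun h1 => hd' (A2c_near_diag T h1),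
      A2c_e_neg T fun h1 => hd1 (A2c_near_diag T h1), hf.rest d hd']
  · funext d
    by_cases h1 : T.Diag a d
    · rw [A2c_pos T' _ ((hD d).2 h1), g1 d h1, hf.opp, f1 _ (hO h1), A2c_neg T _ (hn1 (hO h1)),
        A2c_neg T _ (hn2 (hO h1)), A2c_e_symm_pos T h1]
      have h2 := hc.closed (T.opp d)
      rw [← sub_eq_zero]
      have h3 : -f (T.nxt (T.opp d)) - f (T.nxt (T.nxt (T.opp d))) - f (T.opp d) =
        -(f (T.opp d) + f (T.nxt (T.opp d)) + f (T.nxt (T.nxt (T.opp d)))) := by abel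
      rw [h3, h2, neg_zero]
    · rw [A2c_neg T' _ fun h2 => h1 ((hD d).1 h2), A2c_neg T _ h1, A2c_e_symm_neg T h1]

/-- the new successor -/
private def A2c_n [DecidableEq D] (T : Tri D) (a d : D) : D :=
  if T.Diag a d then T.nxt (T.nxt d)
  else if T.Diag a (T.nxt d) then T.nxt (T.opp (T.nxt d))
  else if T.Diag a (T.nxt (T.nxt d)) then T.opp (T.nxt (T.nxt d))
  else T.nxt d

/-- Existence of flips of strictly convex quadrilaterals. -/
theorem Geo.exists_flip [DecidableEq D] {T : Tri D} {z : D → Vec} {a : D} (h : Geo T z)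
    (h1 : 0 < cr (z (T.nxt (T.nxt a))) (z (T.nxt (T.opp a))))
    (h2 : 0 < cr (z (T.nxt (T.nxt (T.opp a)))) (z (T.nxt a))) :
    ∃ T', T.IsFlip T' a := by
  have hO : ∀ {b}, T.Diag a b → T.Diag a (T.opp b) := A2c_diag_opp T
  have hn1 : ∀ {b}, T.Diag a b → ¬ T.Diag a (T.nxt b) := fun hb => (h.not_diag_nxt hb).1
  have hn2 : ∀ {b}, T.Diag a b → ¬ T.Diag a (T.nxt (T.nxt b)) := fun hb => (h.not_diag_nxt hb).2
  have n1 : ∀ b, T.Diag a b → A2c_n T a b = T.nxt (T.nxt b) := fun b hb => if_pos hb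
  have n2 : ∀ b, T.Diag a b → A2c_n T a (T.nxt (T.nxt b)) = T.nxt (T.opp b) := fun b hb => by
    unfold A2c_n
    rw [if_neg (hn2 hb), T.nxt3, if_pos hb]
  have n3 : ∀ b, T.Diag a b → A2c_n T a (T.nxt b) = T.opp b := fun b hb => by
    unfold A2c_n
    rw [if_neg (hn1 hb), if_neg (hn2 hb), T.nxt3, if_pos hb]
  have n4 : ∀ d, ¬ T.Near a d → A2c_n T a d = T.nxt d := fun d hd => by
    have hd1 : ¬ T.Near a (T.nxt d) := fun h1 => hd (A2c_near_nxt T h1)
    have hd2 : ¬ T.Near a (T.nxt (T.nxt d)) := fun h1 => hd1 (A2c_near_nxt T h1)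
    unfold A2c_n
    rw [if_neg fun h1 => hd (A2c_near_diag T h1), if_neg fun h1 => hd1 (A2c_near_diag T h1),
      if_neg fun h1 => hd2 (A2c_near_diag T h1)]
  have k3 : ∀ d, A2c_n T a (A2c_n T a (A2c_n T a d)) = d := by
    intro d
    by_cases hd : T.Near a d
    · obtain ⟨b, hb, hd⟩ := hd
      have hb0 : T.Diag a b := hb
      have hb' := hO hb0
      have m3 := n3 _ hb'
      rw [T.opp2] at m3
      have m2 := n2 _ hb'
      rw [T.opp2] at m2
      rcases hd with rfl | rfl | rfl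
      · rw [n1 _ hb0, n2 _ hb0, m3]
      · rw [n3 _ hb0, n1 _ hb', m2]
      · rw [n2 _ hb0, m3, n1 _ hb0]
    · have hd1 : ¬ T.Near a (T.nxt d) := fun h1 => hd (A2c_near_nxt T h1)
      have hd2 : ¬ T.Near a (T.nxt (T.nxt d)) := fun h1 => hd1 (A2c_near_nxt T h1)
      rw [n4 _ hd, n4 _ hd1, n4 _ hd2, T.nxt3]
  have kt : ∀ d, T.tau (A2c_n T a d) = A2c_n T a (T.tau d) := by
    intro d
    have e1 : ∀ x, T.Diag a (T.tau x) ↔ T.Diag a x := fun x => A2c_diag_tau_iff T
    unfold A2c_n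
    rw [← T.tau_nxt, ← T.tau_nxt]
    simp only [e1]
    split_ifs with c1 c2 c3
    · rw [T.tau_nxt, T.tau_nxt]
    · rw [T.tau_nxt, T.tau_opp]
    · rw [T.tau_opp]
    · rfl
  let e : Equiv.Perm D :=
    { toFun := A2c_n T a
      invFun := fun d => A2c_n T a (A2c_n T a d)
      left_inv := k3
      right_inv := k3 }
  exact ⟨⟨e, T.opp, T.tau, k3, T.opp2, T.tau2, kt, T.tau_opp, T.opp_ne⟩,
    rfl, rfl, n1, n2, n3, n4⟩

/-- A flip is geometric if and only if the quadrilateral is strictly convex. -/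
theorem Geo.flip_geo [DecidableEq D] {T T' : Tri D} {z : D → Vec} {a : D} (h : Geo T z)
    (hf : T.IsFlip T' a) (h1 : 0 < cr (z (T.nxt (T.nxt a))) (z (T.nxt (T.opp a))))
    (h2 : 0 < cr (z (T.nxt (T.nxt (T.opp a)))) (z (T.nxt a))) :
    Geo T' (T.flipF a z) := by
  have hO : ∀ {b}, T.Diag a b → T.Diag a (T.opp b) := A2c_diag_opp T
  have hn1 : ∀ {b}, T.Diag a b → ¬ T.Diag a (T.nxt b) := fun hb => (h.not_diag_nxt hb).1
  have hn2 : ∀ {b}, T.Diag a b → ¬ T.Diag a (T.nxt (T.nxt b)) := fun hb => (h.not_diag_nxt hb).2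
  have hcoc := h.flip_coc hf h.coc
  -- convexity at all four darts
  have hcv : ∀ b, T.Diag a b → 0 < cr (z (T.nxt (T.nxt b))) (z (T.nxt (T.opp b))) := by
    have hneg : ∀ u v : Vec, cr (-u) (-v) = cr u v := by
      intro u v
      simp only [cr, Pi.neg_apply]
      ring
    have ht : ∀ b, 0 < cr (z (T.nxt (T.nxt b))) (z (T.nxt (T.opp b))) →
        0 < cr (z (T.nxt (T.nxt (T.tau b)))) (z (T.nxt (T.opp (T.tau b)))) := by
      intro b hb
      rw [← T.tau_nxt, ← T.tau_nxt, ← T.tau_opp, ← T.tau_nxt, h.anti, h.anti, hneg]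
      exact hb
    have h2' : 0 < cr (z (T.nxt (T.nxt (T.opp a)))) (z (T.nxt (T.opp (T.opp a)))) := by
      rw [T.opp2]
      exact h2
    rintro b (rfl | rfl | rfl | rfl)
    · exact h1
    · exact h2'
    · exact ht _ h1
    · exact ht _ h2'
  -- positivity is invariant under the new successor
  have hstep : ∀ d, cr (T.flipF a z (T'.nxt d)) (T.flipF a z (T'.nxt (T'.nxt d))) =
      cr (T.flipF a z d) (T.flipF a z (T'.nxt d)) := by
    intro d
    have h3 := hcoc.closed d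
    have h4 : T.flipF a z (T'.nxt (T'.nxt d)) = -T.flipF a z d - T.flipF a z (T'.nxt d) := by
      rw [← sub_eq_zero, ← h3]
      abel
    rw [h4]
    simp only [cr, Pi.sub_apply, Pi.neg_apply]
    ring
  have hb0 : ∀ b, T.Diag a b → 0 < cr (T.flipF a z b) (T.flipF a z (T'.nxt b)) := by
    intro b hb
    rw [hf.nxt1 b hb, A2c_pos T _ hb, A2c_neg T _ (hn2 hb)]
    have h3 := hcv b hb
    have h4 : cr (-z (T.nxt (T.nxt b)) - z (T.nxt (T.opp b))) (z (T.nxt (T.nxt b))) =
        cr (z (T.nxt (T.nxt b))) (z (T.nxt (T.opp b))) := by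
      simp only [cr, Pi.sub_apply, Pi.neg_apply]
      ring
    rw [h4]
    exact h3
  refine ⟨hcoc, h.flip_anti hf h.anti, fun d => ?_⟩
  by_cases hd : T.Near a d
  · obtain ⟨b, hb, hd⟩ := hd
    have hb1 : T.Diag a b := hb
    rcases hd with rfl | rfl | rfl
    · exact hb0 _ hb1
    · have h3 := hb0 _ (hO hb1)
      rw [← hstep, ← hstep] at h3
      have h4 : T'.nxt (T'.nxt (T.opp b)) = T.nxt b := by
        rw [hf.nxt1 _ (hO hb1), hf.nxt2 _ (hO hb1), T.opp2]
      rw [h4] at h3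
      exact h3
    · have h3 := hb0 _ hb1
      rw [← hstep, hf.nxt1 _ hb1] at h3
      exact h3
  · have hd1 : ¬ T.Near a (T.nxt d) := fun h1 => hd (A2c_near_nxt T h1)
    rw [hf.rest d hd, A2c_neg T _ fun h1 => hd (A2c_near_diag T h1),
      A2c_neg T _ fun h1 => hd1 (A2c_near_diag T h1)]
    exact h.pos d

theorem IsCoc.relab {T : Tri D} {f : D → M} (h : IsCoc T f) (e : Equiv.Perm D) :
    IsCoc (T.relab e) (fun d => f (e.symm d)) := by
  refine ⟨fun d => ?_, fun d => ?_⟩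
  · simp only [A2c_relab_nxt, Equiv.symm_apply_apply]
    exact h.closed _
  · simp only [A2c_relab_opp, Equiv.symm_apply_apply]
    exact h.glue _

theorem IsAnti.relab {T : Tri D} {f : D → M} (h : IsAnti T f) (e : Equiv.Perm D) :
    IsAnti (T.relab e) (fun d => f (e.symm d)) := by
  intro d
  simp only [A2c_relab_tau, Equiv.symm_apply_apply]
  exact h _

theorem Geo.relab {T : Tri D} {z : D → Vec} (h : Geo T z) (e : Equiv.Perm D) :
    Geo (T.relab e) (fun d => z (e.symm d)) := by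
  refine ⟨h.coc.relab e, h.anti.relab e, fun d => ?_⟩
  simp only [A2c_relab_nxt, Equiv.symm_apply_apply]
  exact h.pos _

theorem form_relab [Fintype D] {R : Type*} [CommRing R] (T : Tri D) (f g : D → R)
    (e : Equiv.Perm D) :
    form (T.relab e) (fun d => f (e.symm d)) (fun d => g (e.symm d)) = form T f g := by
  simp only [form, A2c_relab_nxt, Equiv.symm_apply_apply]
  exact Equiv.sum_comp e.symm fun d => f d * g (T.nxt d) - g d * f (T.nxt d)

theorem area_eq_form [Fintype D] (T : Tri D) (z : D → Vec) :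
    area T z = form T (fun d => z d 0) (fun d => z d 1) := by
  simp only [area, form, cr]

theorem Geo.lin {T : Tri D} {z : D → Vec} (h : Geo T z) (A : Matrix (Fin 2) (Fin 2) ℝ)
    (hA : 0 < A.det) : Geo T (lin A z) := by
  refine ⟨⟨fun d => ?_, fun d => ?_⟩, fun d => ?_, fun d => ?_⟩
  · simp only [Veech.lin]
    rw [← Matrix.mulVec_add, ← Matrix.mulVec_add, h.coc.closed, Matrix.mulVec_zero]
  · simp only [Veech.lin]
    rw [h.coc.glue, Matrix.mulVec_neg]
  · simp only [Veech.lin]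
    rw [h.anti, Matrix.mulVec_neg]
  · simp only [Veech.lin]
    rw [cr_mulVec]
    exact mul_pos hA (h.pos d)

theorem Geo.area_pos [Fintype D] [Nonempty D] {T : Tri D} {z : D → Vec} (h : Geo T z) :
    0 < area T z :=
  Finset.sum_pos (fun d _ => h.pos d) Finset.univ_nonempty

theorem area_lin [Fintype D] (T : Tri D) (z : D → Vec) (A : Matrix (Fin 2) (Fin 2) ℝ) :
    area T (Veech.lin A z) = A.det * area T z := by
  simp only [area, Veech.lin, cr_mulVec, Finset.mul_sum]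

instance Tri.instFinite [Finite D] : Finite (Tri D) := by
  refine Finite.of_injective (fun T : Tri D => (T.nxt, T.opp, T.tau)) ?_
  intro T T' h
  simp only [Prod.mk.injEq] at h
  exact Tri.ext h.1 h.2.1 h.2.2

end Pool.Veech
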