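import Pool.Agent.Lib.MP_fceebd_gt.A2c

/-! # Row A3: flip paths -/

set_option autoImplicit false

open scoped MatrixGroups

namespace Pool.Veech

variable {D : Type} [Fintype D] [DecidableEq D] {M : Type*} [AddCommGroup M]

theorem GPath.geo {T T' : Tri D} {z : D → Vec} {m : Matrix D D ℤ} (h : GPath T z T' m) :
    Geo T' (app m z) := by
  induction h with
  | refl h => rw [app_one]; exact h
  | flip h hf hg ih => rw [app_mul, app_flipM]; exact hg
  | relabel e h ih => rw [app_mul, app_permM]; exact ih.relab e

theorem GPath.geo_left {T T' : Tri D} {z : D → Vec} {m : Matrix D D ℤ} (h : GPath T z T' m) :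
    Geo T z := by
  induction h with
  | refl h => exact h
  | flip h hf hg ih => exact ih
  | relabel e h ih => exact ih

theorem GPath.coc {T T' : Tri D} {z : D → Vec} {m : Matrix D D ℤ} (h : GPath T z T' m)
    {f : D → M} (hf : IsCoc T f) : IsCoc T' (app m f) := by
  induction h with
  | refl h => rw [app_one]; exact hf
  | flip h hfl hg ih => rw [app_mul, app_flipM]; exact h.geo.flip_coc hfl ih
  | relabel e h ih => rw [app_mul, app_permM]; exact ih.relab e

theorem GPath.anti {T T' : Tri D} {z : D → Vec} {m : Matrix D D ℤ} (h : GPath T z T' m)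
    {f : D → M} (hf : IsAnti T f) : IsAnti T' (app m f) := by
  induction h with
  | refl h => rw [app_one]; exact hf
  | flip h hfl hg ih => rw [app_mul, app_flipM]; exact h.geo.flip_anti hfl ih
  | relabel e h ih => rw [app_mul, app_permM]; exact ih.relab e

theorem GPath.form {R : Type*} [CommRing R] {T T' : Tri D} {z : D → Vec} {m : Matrix D D ℤ}
    (h : GPath T z T' m) {f g : D → R} (hf : IsCoc T f) (hg : IsCoc T g) :
    Veech.form T' (app m f) (app m g) = Veech.form T f g := by
  induction h with
  | refl h => rw [app_one, app_one]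
  | flip h hfl hge ih =>
    rw [app_mul, app_flipM, app_mul, app_flipM, ← ih]
    exact h.geo.flip_form hfl (h.coc hf) (h.coc hg)
  | relabel e h ih =>
    rw [app_mul, app_permM, app_mul, app_permM, ← ih]
    exact form_relab _ _ _ e

private theorem A3a_coc_coord {T : Tri D} {z : D → Vec} (h : IsCoc T z) (i : Fin 2) :
    IsCoc T (fun d => z d i) where
  closed d := by
    have := congrFun (h.closed d) i
    simpa using this
  glue d := by
    have := congrFun (h.glue d) i
    simpa using this

theorem GPath.area {T T' : Tri D} {z : D → Vec} {m : Matrix D D ℤ} (h : GPath T z T' m) :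
    Veech.area T' (app m z) = Veech.area T z := by
  rw [area_eq_form, area_eq_form]
  have h0 : (fun d => app m z d 0) = app m (fun e => z e 0) := by
    funext d
    exact (app_coord m z d 0).symm
  have h1 : (fun d => app m z d 1) = app m (fun e => z e 1) := by
    funext d
    exact (app_coord m z d 1).symm
  rw [h0, h1]
  exact h.form (A3a_coc_coord h.geo_left.coc 0) (A3a_coc_coord h.geo_left.coc 1)

theorem GPath.trans {T T' T'' : Tri D} {z : D → Vec} {m m' : Matrix D D ℤ}
    (h : GPath T z T' m) (h' : GPath T' (app m z) T'' m') : GPath T z T'' (m' * m) := by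
  induction h' with
  | refl h1 => rw [Matrix.one_mul]; exact h
  | flip h1 hf hg ih =>
    rw [Matrix.mul_assoc]
    refine GPath.flip ih hf ?_
    rw [app_mul]
    exact hg
  | relabel e h1 ih =>
    rw [Matrix.mul_assoc]
    exact GPath.relabel e ih

private theorem A3a_relab_symm (T : Tri D) (e : Equiv.Perm D) : (T.relab e).relab e.symm = T := by
  ext d <;> simp [Tri.relab]

private theorem A3a_app_permM_symm {M : Type} [AddCommGroup M] (e : Equiv.Perm D) (f : D → M) :
    app (permM e.symm) (fun d => f (e.symm d)) = f := by
  rw [app_permM]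
  funext d
  simp

theorem GPath.symm {T T' : Tri D} {z : D → Vec} {m : Matrix D D ℤ} (h : GPath T z T' m) :
    ∃ m', GPath T' (app m z) T m' ∧
      ∀ (M : Type) [AddCommGroup M] (f : D → M), IsCoc T f → app m' (app m f) = f := by
  induction h with
  | refl h1 =>
    refine ⟨1, ?_, ?_⟩
    · rw [app_one]
      exact .refl h1
    · intro M _ f _
      rw [app_one, app_one]
  | @flip T' T'' m a h1 hf hg ih =>
    obtain ⟨m1, hm1, hm1'⟩ := ih
    obtain ⟨e, he, he'⟩ := h1.geo.flip_flip hf
    -- the path from the flipped surface back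
    have hz : T''.flipF a (T'.flipF a (app m z)) = fun d => app m z (e.symm d) :=
      he' Vec (app m z) h1.geo.coc
    have p1 : GPath T'' (app (T'.flipM a * m) z) T'' 1 := by
      refine .refl ?_
      rw [app_mul, app_flipM]
      exact hg
    have p2 : GPath T'' (app (T'.flipM a * m) z) (T'.relab e) (T''.flipM a * 1) := by
      refine GPath.flip p1 he ?_
      rw [app_one, app_mul, app_flipM, hz]
      exact h1.geo.relab e
    have p3 : GPath T'' (app (T'.flipM a * m) z) T' (permM e.symm * (T''.flipM a * 1)) := by
      have := GPath.relabel e.symm p2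
      rwa [A3a_relab_symm] at this
    have key : ∀ (M : Type) [AddCommGroup M] (f : D → M), IsCoc T f →
        app (permM e.symm * (T''.flipM a * 1)) (app (T'.flipM a * m) f) = app m f := by
      intro M _ f hfc
      rw [Matrix.mul_one, app_mul, app_flipM, app_mul, app_flipM, he' M (app m f) (h1.coc hfc)]
      exact A3a_app_permM_symm e _
    refine ⟨m1 * (permM e.symm * (T''.flipM a * 1)), ?_, ?_⟩
    · refine p3.trans ?_
      rw [key Vec z h1.geo_left.coc]
      exact hm1
    · intro M _ f hfc
      rw [app_mul, key M f hfc]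
      exact hm1' M f hfc
  | @relabel T' m e h1 ih =>
    obtain ⟨m1, hm1, hm1'⟩ := ih
    have p1 : GPath (T'.relab e) (app (permM e * m) z) (T'.relab e) 1 := by
      refine .refl ?_
      rw [app_mul, app_permM]
      exact h1.geo.relab e
    have p2 : GPath (T'.relab e) (app (permM e * m) z) T' (permM e.symm * 1) := by
      have := GPath.relabel e.symm p1
      rwa [A3a_relab_symm] at this
    have key : ∀ (M : Type) [AddCommGroup M] (f : D → M),
        app (permM e.symm * 1) (app (permM e * m) f) = app m f := by
      intro M _ f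
      rw [Matrix.mul_one, app_mul, app_permM e]
      exact A3a_app_permM_symm e _
    refine ⟨m1 * (permM e.symm * 1), ?_, ?_⟩
    · refine p2.trans ?_
      rw [key Vec z]
      exact hm1
    · intro M _ f hfc
      rw [app_mul, key M f]
      exact hm1' M f hfc

/-- the inverse path is also a right inverse -/
theorem GPath.symm' {T T' : Tri D} {z : D → Vec} {m : Matrix D D ℤ} (h : GPath T z T' m) :
    ∃ m', GPath T' (app m z) T m' ∧
      (∀ (M : Type) [AddCommGroup M] (f : D → M), IsCoc T f → app m' (app m f) = f) ∧
      (∀ (M : Type) [AddCommGroup M] (f : D → M), IsCoc T' f → app m (app m' f) = f) := by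
  obtain ⟨m', h', h1⟩ := h.symm
  obtain ⟨m'', -, h2⟩ := h'.symm
  refine ⟨m', h', h1, fun M _ f hf => ?_⟩
  have hg : IsCoc T (app m' f) := h'.coc hf
  have h3 : app m'' (app m' (app m (app m' f))) = app m (app m' f) := h2 M _ (h.coc hg)
  rw [h1 M _ hg, h2 M _ hf] at h3
  exact h3.symm

theorem GPath.lin {T T' : Tri D} {z : D → Vec} {m : Matrix D D ℤ} (h : GPath T z T' m)
    (A : Matrix (Fin 2) (Fin 2) ℝ) (hA : 0 < A.det) : GPath T (lin A z) T' m := by
  induction h with
  | refl h1 => exact .refl (h1.lin A hA)
  | @flip T' T'' m a h1 hf hg ih =>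
    refine GPath.flip ih hf ?_
    rw [← app_flipM, app_lin, app_lin, app_flipM]
    exact hg.lin A hA
  | relabel e h1 ih => exact GPath.relabel e ih

end Pool.Veech
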