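import Pool.Agent.Lib.MP_fceebd_gt.A3a

/-! # Row A3: flip paths -/

set_option autoImplicit false

open scoped MatrixGroups

namespace Pool.Veech

variable {D : Type} [Fintype D] [DecidableEq D] {M : Type*} [AddCommGroup M]

private theorem A3b_cont (m : Matrix D D ℤ) : Continuous (fun z : D → Vec => app m z) := by
  unfold app
  refine continuous_pi fun d => ?_
  refine continuous_finset_sum _ fun e _ => ?_
  exact (continuous_apply (A := fun _ : D => Vec) e).const_smul (m d e)

private theorem A3b_pos (T : Tri D) (m : Matrix D D ℤ) (z : D → Vec)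
    (h : ∀ d, 0 < cr (app m z d) (app m z (T.nxt d))) :
    ∀ᶠ z' in nhds z, ∀ d, 0 < cr (app m z' d) (app m z' (T.nxt d)) := by
  rw [Filter.eventually_all]
  intro d
  have hc : Continuous (fun z' : D → Vec => cr (app m z' d) (app m z' (T.nxt d))) := by
    have h1 : ∀ e, Continuous (fun z' : D → Vec => app m z' e) := fun e =>
      (continuous_apply e).comp (A3b_cont m)
    have h2 : ∀ e (i : Fin 2), Continuous (fun z' : D → Vec => app m z' e i) := fun e i =>
      (continuous_apply i).comp (h1 e)
    unfold cr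
    exact ((h2 d 0).mul (h2 _ 1)).sub ((h2 d 1).mul (h2 _ 0))
  exact hc.continuousAt.eventually_const_lt (h d)

private theorem A3b_ev {T T' : Tri D} {z : D → Vec} {m : Matrix D D ℤ} (h : GPath T z T' m) :
    ∀ᶠ z' in nhds z, IsCoc T z' → IsAnti T z' → GPath T z' T' m := by
  induction h with
  | refl h1 =>
    have h2 := A3b_pos T 1 z (by rw [app_one]; exact h1.pos)
    filter_upwards [h2] with z' h3 hc ha
    rw [app_one] at h3
    exact .refl ⟨hc, ha, h3⟩
  | @flip T' T'' m a h1 hf hg ih =>
    have h2 := A3b_pos T'' (T'.flipM a * m) z (by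
      rw [app_mul, app_flipM]
      exact hg.pos)
    filter_upwards [ih, h2] with z' h3 h4 hc ha
    have h5 := h3 hc ha
    rw [app_mul, app_flipM] at h4
    exact GPath.flip h5 hf ⟨h5.geo.flip_coc hf (h5.coc hc), h5.geo.flip_anti hf (h5.anti ha), h4⟩
  | relabel e h1 ih =>
    filter_upwards [ih] with z' h3 hc ha
    exact GPath.relabel e (h3 hc ha)

/-- paths are stable under small changes of the holonomies -/
theorem GPath.stable {T T' : Tri D} {z : D → Vec} {m : Matrix D D ℤ} (h : GPath T z T' m) :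
    ∃ δ : ℝ, 0 < δ ∧ ∀ z' : D → Vec, IsCoc T z' → IsAnti T z' →
      (∀ d i, |z' d i - z d i| < δ) → GPath T z' T' m := by
  obtain ⟨δ, hδ, h1⟩ := Metric.eventually_nhds_iff.1 (A3b_ev h)
  refine ⟨δ, hδ, fun z' hc ha hz => h1 ?_ hc ha⟩
  rw [dist_pi_lt_iff hδ]
  intro d
  rw [dist_pi_lt_iff hδ]
  intro i
  rw [Real.dist_eq]
  exact hz d i

end Pool.Veech
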