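import Pool.Agent.Lib.MP_fceebd_gt.A3a

/-! # Row A3: flip paths -/

set_option autoImplicit false

open scoped MatrixGroups

namespace Pool.Veech

variable {D : Type} [Fintype D] [DecidableEq D] {M : Type*} [AddCommGroup M]

theorem edges_trans {T T' : Tri D} {z : D → Vec} {m : Matrix D D ℤ} (h : GPath T z T' m) :
    edges T' (app m z) = edges T z := by
  ext v
  constructor
  · rintro ⟨T2, m2, d, h2, rfl⟩
    exact ⟨T2, m2 * m, d, h.trans h2, by rw [app_mul]⟩
  · rintro ⟨T2, m2, d, h2, rfl⟩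
    obtain ⟨m', h', h1⟩ := h.symm
    have h3 : app m' (app m z) = z := h1 Vec z h.geo_left.coc
    refine ⟨T2, m2 * m', d, h'.trans ?_, ?_⟩
    · rw [h3]
      exact h2
    · rw [app_mul, h3]

private theorem A3c_inv_lin (A : Matrix (Fin 2) (Fin 2) ℝ) (hA : 0 < A.det) (z : D → Vec) :
    Veech.lin A⁻¹ (Veech.lin A z) = z := by
  rw [lin_lin, Matrix.nonsing_inv_mul A (isUnit_iff_ne_zero.2 hA.ne'), lin_one]

private theorem A3c_inv_det (A : Matrix (Fin 2) (Fin 2) ℝ) (hA : 0 < A.det) : 0 < A⁻¹.det := by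
  rw [Matrix.det_nonsing_inv, Ring.inverse_eq_inv']
  exact inv_pos.2 hA

theorem edges_lin (T : Tri D) (z : D → Vec) (A : Matrix (Fin 2) (Fin 2) ℝ) (hA : 0 < A.det) :
    edges T (Veech.lin A z) = A.mulVec '' edges T z := by
  ext v
  constructor
  · rintro ⟨T2, m2, d, h2, rfl⟩
    have h3 := h2.lin A⁻¹ (A3c_inv_det A hA)
    rw [A3c_inv_lin A hA] at h3
    exact ⟨app m2 z d, ⟨T2, m2, d, h3, rfl⟩, by rw [app_lin]; rfl⟩
  · rintro ⟨_, ⟨T2, m2, d, h2, rfl⟩, rfl⟩
    exact ⟨T2, m2, d, h2.lin A hA, by rw [app_lin]; rfl⟩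

theorem edges_ne_zero {T : Tri D} {z : D → Vec} {v : Vec} (hv : v ∈ edges T z) : v ≠ 0 := by
  obtain ⟨T2, m2, d, h2, rfl⟩ := hv
  intro h0
  have h3 := h2.geo.pos d
  rw [h0] at h3
  simp [cr] at h3

theorem mem_edges {T : Tri D} {z : D → Vec} (h : Geo T z) (d : D) : z d ∈ edges T z :=
  ⟨T, 1, d, .refl h, by rw [app_one]⟩

private def A3cMem (T : Tri D) (z : D → Vec) (A : SL(2, ℝ)) : Prop :=
  ∃ m, GPath T z T m ∧ app m z = Veech.lin A.1 z

private theorem A3c_one {T : Tri D} {z : D → Vec} (h : Geo T z) : A3cMem T z 1 :=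
  ⟨1, .refl h, by rw [app_one, Matrix.SpecialLinearGroup.coe_one, lin_one]⟩

private theorem A3c_mul {T : Tri D} {z : D → Vec} {A B : SL(2, ℝ)} (hA : A3cMem T z A)
    (hB : A3cMem T z B) : A3cMem T z (A * B) := by
  obtain ⟨m, h, e⟩ := hA
  obtain ⟨m', h', e'⟩ := hB
  refine ⟨m' * m, h.trans ?_, ?_⟩
  · rw [e]
    exact h'.lin A.1 (det_pos A)
  · rw [app_mul, e, app_lin, e', lin_lin, Matrix.SpecialLinearGroup.coe_mul]

private theorem A3c_inv {T : Tri D} {z : D → Vec} {A : SL(2, ℝ)} (hA : A3cMem T z A) :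
    A3cMem T z A⁻¹ := by
  obtain ⟨m, h, e⟩ := hA
  obtain ⟨m', h', h1⟩ := h.symm
  have h3 : app m' (app m z) = z := h1 Vec z h.geo_left.coc
  have h5 : Veech.lin A⁻¹.1 (Veech.lin A.1 z) = z := by
    rw [lin_lin, ← Matrix.SpecialLinearGroup.coe_mul, inv_mul_cancel,
      Matrix.SpecialLinearGroup.coe_one, lin_one]
  have h6 := h'.lin A⁻¹.1 (det_pos A⁻¹)
  rw [e, h5] at h6
  refine ⟨m', h6, ?_⟩
  have h7 : app m' (Veech.lin A.1 z) = z := by
    rw [← e]
    exact h3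
  have h8 : app m' (Veech.lin A⁻¹.1 (Veech.lin A.1 z)) = Veech.lin A⁻¹.1 z := by
    rw [app_lin, h7]
  rw [h5] at h8
  exact h8

/-- The derivatives of the affine self-maps. -/
def aff (T : Tri D) (z : D → Vec) (h : Geo T z) : Subgroup SL(2, ℝ) where
  carrier := {A | ∃ m, GPath T z T m ∧ app m z = lin A.1 z}
  one_mem' := by exact A3c_one h
  mul_mem' := by
    intro A B hA hB
    exact A3c_mul hA hB
  inv_mem' := by
    intro A hA
    exact A3c_inv hA

theorem mem_aff {T : Tri D} {z : D → Vec} (h : Geo T z) (A : SL(2, ℝ)) :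
    A ∈ aff T z h ↔ ∃ m, GPath T z T m ∧ app m z = lin A.1 z := Iff.rfl

/-- `aff` acts on the set of edge vectors -/
theorem aff_edges {T : Tri D} {z : D → Vec} (h : Geo T z) {A : SL(2, ℝ)} (hA : A ∈ aff T z h)
    {v : Vec} (hv : v ∈ edges T z) : A.1.mulVec v ∈ edges T z := by
  obtain ⟨m, h1, e⟩ := hA
  have h2 : A.1.mulVec v ∈ A.1.mulVec '' edges T z := ⟨v, hv, rfl⟩
  rw [← edges_lin T z A.1 (det_pos A), ← e, edges_trans h1] at h2
  exact h2

private theorem A3c_trans {T T' : Tri D} {z : D → Vec} {m : Matrix D D ℤ} (h : GPath T z T' m)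
    (A : SL(2, ℝ)) (hA : A3cMem T z A) : A3cMem T' (app m z) A := by
  obtain ⟨mA, h1, e⟩ := hA
  obtain ⟨m', h', h2⟩ := h.symm
  have h3 : app m' (app m z) = z := h2 Vec z h.geo_left.coc
  refine ⟨m * (mA * m'), ?_, ?_⟩
  · refine GPath.trans (T' := T) (GPath.trans h' (by rw [h3]; exact h1)) ?_
    rw [app_mul, h3, e]
    exact h.lin A.1 (det_pos A)
  · rw [app_mul, app_mul, h3, e, app_lin]

/-- the group does not depend on the triangulation -/
theorem aff_trans {T T' : Tri D} {z : D → Vec} {m : Matrix D D ℤ} (h : GPath T z T' m)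
    (A : SL(2, ℝ)) : A ∈ aff T z h.geo_left ↔ A ∈ aff T' (app m z) h.geo := by
  constructor
  · intro hA
    exact A3c_trans h A hA
  · intro hA
    obtain ⟨m', h', h2⟩ := h.symm
    have h3 : app m' (app m z) = z := h2 Vec z h.geo_left.coc
    have h4 := A3c_trans h' A hA
    rw [h3] at h4
    exact h4

theorem aff_lin {T : Tri D} {z : D → Vec} (h : Geo T z) (B : SL(2, ℝ)) (hB : Geo T (lin B.1 z))
    (A : SL(2, ℝ)) : A ∈ aff T (Veech.lin B.1 z) hB ↔ B⁻¹ * A * B ∈ aff T z h := by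
  have hinv : ∀ w : D → Vec, Veech.lin B⁻¹.1 (Veech.lin B.1 w) = w := by
    intro w
    rw [lin_lin, ← Matrix.SpecialLinearGroup.coe_mul, inv_mul_cancel,
      Matrix.SpecialLinearGroup.coe_one, lin_one]
  constructor
  · rintro ⟨m, h1, e⟩
    have h2 := h1.lin B⁻¹.1 (det_pos B⁻¹)
    rw [hinv] at h2
    refine ⟨m, h2, ?_⟩
    rw [app_lin] at e
    have h3 := congrArg (Veech.lin B⁻¹.1) e
    rw [hinv, lin_lin, lin_lin] at h3
    rw [h3]
    simp only [Matrix.SpecialLinearGroup.coe_mul, Matrix.mul_assoc]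
  · rintro ⟨m, h1, e⟩
    refine ⟨m, h1.lin B.1 (det_pos B), ?_⟩
    rw [app_lin, e, lin_lin, lin_lin, ← Matrix.SpecialLinearGroup.coe_mul,
      ← Matrix.SpecialLinearGroup.coe_mul, mul_assoc, mul_inv_cancel_left]

theorem aff_countable [Nonempty D] {T : Tri D} {z : D → Vec} (h : Geo T z) :
    Countable (aff T z h) := by
  have hc : Countable (Matrix D D ℤ) := inferInstanceAs (Countable (D → D → ℤ))
  have h1 : ∀ A : aff T z h, ∃ m : Matrix D D ℤ, app m z = Veech.lin A.1.1 z := fun A => by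
    obtain ⟨m, -, e⟩ := A.2
    exact ⟨m, e⟩
  choose f hf using h1
  refine Function.Injective.countable (f := f) fun A B hAB => ?_
  have h2 : Veech.lin A.1.1 z = Veech.lin B.1.1 z := by rw [← hf A, ← hf B, hAB]
  obtain ⟨d⟩ := ‹Nonempty D›
  have hp := h.pos d
  have e1 : ∀ e i, A.1.1 i 0 * z e 0 + A.1.1 i 1 * z e 1 =
      B.1.1 i 0 * z e 0 + B.1.1 i 1 * z e 1 := by
    intro e i
    have := congrFun (congrFun h2 e) i
    simpa [Veech.lin, Matrix.mulVec, dotProduct, Fin.sum_univ_two] using this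
  refine Subtype.ext (Matrix.SpecialLinearGroup.ext _ _ fun i j => ?_)
  have ha := e1 d i
  have hb := e1 (T.nxt d) i
  unfold cr at hp
  have hj : j = 0 ∨ j = 1 := by
    fin_cases j
    · exact Or.inl rfl
    · exact Or.inr rfl
  rcases hj with rfl | rfl
  · have h3 : (A.1.1 i 0 - B.1.1 i 0) *
        (z d 0 * z (T.nxt d) 1 - z d 1 * z (T.nxt d) 0) = 0 := by
      linear_combination z (T.nxt d) 1 * ha - z d 1 * hb
    rcases mul_eq_zero.1 h3 with h4 | h4
    · linarith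
    · exact absurd h4 hp.ne'
  · have h3 : (A.1.1 i 1 - B.1.1 i 1) *
        (z d 0 * z (T.nxt d) 1 - z d 1 * z (T.nxt d) 0) = 0 := by
      linear_combination z d 0 * hb - z (T.nxt d) 0 * ha
    rcases mul_eq_zero.1 h3 with h4 | h4
    · linarith
    · exact absurd h4 hp.ne'

end Pool.Veech
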