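import Pool.Agent.Lib.MP_fceebd_gt.A3c

/-! # Definitions for the Delaunay part -/

set_option autoImplicit false

namespace Pool.Veech

variable {D : Type}

/-- The cotangent of the angle which is opposite to the dart `d` in its triangle. -/
noncomputable def ct (T : Tri D) (z : D → Vec) (d : D) : ℝ :=
  -ip (z (T.nxt d)) (z (T.nxt (T.nxt d))) / cr (z d) (z (T.nxt d))

/-- The weight of an edge. -/
noncomputable def wt (T : Tri D) (z : D → Vec) (d : D) : ℝ := ct T z d + ct T z (T.opp d)

/-- The sum of all cotangents. -/
noncomputable def cotsum [Fintype D] (T : Tri D) (z : D → Vec) : ℝ := ∑ d, ct T z d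

/-- Flips of edges of weight less than `-η`. -/
inductive Desc [Fintype D] [DecidableEq D] (η : ℝ) (T : Tri D) (z : D → Vec) :
    Tri D → Matrix D D ℤ → Prop
  | refl (h : Geo T z) : Desc η T z T 1
  | flip {T' T'' : Tri D} {m : Matrix D D ℤ} {a : D} (h : Desc η T z T' m)
      (hw : wt T' (app m z) a < -η) (hf : T'.IsFlip T'' a) : Desc η T z T'' (T'.flipM a * m)

/-- Almost Delaunay triangulations: the weights of long edges are small. -/
structure NearD [Fintype D] (T : Tri D) (z : D → Vec) : Prop where
  geo : Geo T z
  wt_nq : ∀ d, wt T z d * nq (z d) ≤ area T z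

end Pool.Veech
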