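import Pool.Agent.Lib.MP_fceebd_gt.B0

/-! # Row B1: identities for cotangents.
In these statements `q = cr (z d) (z (nxt d))` is two times the area of the triangle; it is the same
for the three darts of the triangle (`Geo.cr_nxt`). -/

set_option autoImplicit false

namespace Pool.Veech

variable {D : Type} {T : Tri D} {z : D → Vec}

private theorem B1_closed (h : Geo T z) (d : D) (i : Fin 2) :
    z (T.nxt (T.nxt d)) i = -z d i - z (T.nxt d) i := by
  have h1 := congrFun (h.coc.closed d) i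
  simp only [Pi.add_apply, Pi.zero_apply] at h1
  linarith

private theorem B1_cr2 (h : Geo T z) (d : D) :
    cr (z (T.nxt (T.nxt d))) (z d) = cr (z d) (z (T.nxt d)) := by
  have h1 := h.cr_nxt (T.nxt d)
  rw [T.nxt3] at h1
  rw [h1, h.cr_nxt]

private theorem B1_lagrange (u v : Vec) : nq u * nq v = cr u v ^ 2 + ip u v ^ 2 := by
  simp only [nq, ip, cr]
  ring

theorem Geo.ct_nxt (h : Geo T z) (d : D) :
    ct T z (T.nxt d) = -ip (z (T.nxt (T.nxt d))) (z d) / cr (z d) (z (T.nxt d)) := by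
  unfold ct
  rw [T.nxt3, h.cr_nxt]

theorem Geo.ct_nxt2 (h : Geo T z) (d : D) :
    ct T z (T.nxt (T.nxt d)) = -ip (z d) (z (T.nxt d)) / cr (z d) (z (T.nxt d)) := by
  unfold ct
  rw [T.nxt3, B1_cr2 h]

theorem Geo.nq_eq (h : Geo T z) (d : D) :
    nq (z d) = cr (z d) (z (T.nxt d)) * (ct T z (T.nxt d) + ct T z (T.nxt (T.nxt d))) := by
  have hq := (h.pos d).ne'
  rw [h.ct_nxt, h.ct_nxt2, ← add_div, mul_div_cancel₀ _ hq]
  simp only [nq, ip]
  rw [B1_closed h d 0, B1_closed h d 1]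
  ring

theorem Geo.ct_mul (h : Geo T z) (d : D) :
    ct T z d * ct T z (T.nxt d) + ct T z (T.nxt d) * ct T z (T.nxt (T.nxt d)) +
      ct T z (T.nxt (T.nxt d)) * ct T z d = 1 := by
  have hq := (h.pos d).ne'
  rw [h.ct_nxt, h.ct_nxt2]
  unfold ct
  rw [div_mul_div_comm, div_mul_div_comm, div_mul_div_comm, ← add_div, ← add_div,
    div_eq_one_iff_eq (mul_ne_zero hq hq)]
  simp only [ip, cr]
  rw [B1_closed h d 0, B1_closed h d 1]
  ring

private theorem B1_sq {a b c : ℝ} (h : a * b + b * c + c * a = 1) : 3 ≤ (a + b + c) ^ 2 := by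
  nlinarith [sq_nonneg (a - b), sq_nonneg (b - c), sq_nonneg (c - a)]

theorem Geo.nq_sum (h : Geo T z) (d : D) :
    nq (z d) + nq (z (T.nxt d)) + nq (z (T.nxt (T.nxt d))) =
      2 * cr (z d) (z (T.nxt d)) *
        (ct T z d + ct T z (T.nxt d) + ct T z (T.nxt (T.nxt d))) := by
  have h1 := h.nq_eq d
  have h2 := h.nq_eq (T.nxt d)
  have h3 := h.nq_eq (T.nxt (T.nxt d))
  rw [T.nxt3, h.cr_nxt] at h2
  rw [T.nxt3, B1_cr2 h] at h3
  rw [h1, h2, h3]
  ring

private theorem B1_nq_pos (h : Geo T z) (d : D) : 0 < nq (z d) := by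
  have h1 := h.pos d
  have h2 : 0 ≤ nq (z d) := by
    simp only [nq, ip]
    nlinarith [mul_self_nonneg (z d 0), mul_self_nonneg (z d 1)]
  rcases h2.lt_or_eq with h3 | h3
  · exact h3
  · exfalso
    have h4 : z d 0 = 0 := by
      simp only [nq, ip] at h3
      nlinarith [mul_self_nonneg (z d 0), mul_self_nonneg (z d 1)]
    have h5 : z d 1 = 0 := by
      simp only [nq, ip] at h3
      nlinarith [mul_self_nonneg (z d 0), mul_self_nonneg (z d 1)]
    simp only [cr, h4, h5] at h1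
    linarith

theorem Geo.ct_sum_pos (h : Geo T z) (d : D) :
    1 ≤ ct T z d + ct T z (T.nxt d) + ct T z (T.nxt (T.nxt d)) := by
  have h1 := B1_sq (h.ct_mul d)
  have h2 := h.nq_sum d
  have h3 := h.pos d
  have h4 := B1_nq_pos h d
  have h5 := B1_nq_pos h (T.nxt d)
  have h6 := B1_nq_pos h (T.nxt (T.nxt d))
  have h7 : 0 < ct T z d + ct T z (T.nxt d) + ct T z (T.nxt (T.nxt d)) := by
    by_contra hcon
    have h8 : 2 * cr (z d) (z (T.nxt d)) *
        (ct T z d + ct T z (T.nxt d) + ct T z (T.nxt (T.nxt d))) ≤ 0 :=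
      mul_nonpos_of_nonneg_of_nonpos (by linarith) (not_lt.1 hcon)
    linarith
  nlinarith

private theorem B1_cr_neg (u v : Vec) : cr (-u) (-v) = cr u v := by
  simp only [cr, Pi.neg_apply]
  ring

private theorem B1_ip_neg (u v : Vec) : ip (-u) (-v) = ip u v := by
  simp only [ip, Pi.neg_apply]
  ring

theorem Geo.ct_tau (h : Geo T z) (d : D) : ct T z (T.tau d) = ct T z d := by
  unfold ct
  rw [← T.tau_nxt, ← T.tau_nxt, h.anti, h.anti, h.anti, B1_cr_neg, B1_ip_neg]

theorem Geo.wt_tau (h : Geo T z) (d : D) : wt T z (T.tau d) = wt T z d := by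
  unfold wt
  rw [← T.tau_opp, h.ct_tau, h.ct_tau]

theorem wt_opp (T : Tri D) (z : D → Vec) (d : D) : wt T z (T.opp d) = wt T z d := by
  unfold wt
  rw [T.opp2, add_comm]

/-- an obtuse angle is opposite to the longest side; the sides are comparable -/
theorem Geo.nq_lt_of_ct_neg (h : Geo T z) {d : D} (hd : ct T z d < 0) :
    nq (z (T.nxt d)) < nq (z d) ∧ nq (z (T.nxt (T.nxt d))) < nq (z d) := by
  have hq := h.pos d
  have h1 := h.nq_eq d
  have h2 := h.nq_eq (T.nxt d)
  have h3 := h.nq_eq (T.nxt (T.nxt d))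
  rw [T.nxt3, h.cr_nxt] at h2
  rw [T.nxt3, B1_cr2 h] at h3
  have h5 := B1_nq_pos h (T.nxt d)
  have h6 := B1_nq_pos h (T.nxt (T.nxt d))
  rw [h2] at h5
  rw [h3] at h6
  have h7 : 0 < ct T z (T.nxt (T.nxt d)) + ct T z d := (pos_iff_pos_of_mul_pos h5).1 hq
  have h8 : 0 < ct T z d + ct T z (T.nxt d) := (pos_iff_pos_of_mul_pos h6).1 hq
  rw [h1, h2, h3]
  exact ⟨mul_lt_mul_of_pos_left (by linarith) hq, mul_lt_mul_of_pos_left (by linarith) hq⟩

/-- triangle inequality: one of the other two sides has at least half the length -/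
theorem Geo.nq_le_four (h : Geo T z) (d : D) :
    nq (z d) ≤ 4 * nq (z (T.nxt d)) ∨ nq (z d) ≤ 4 * nq (z (T.nxt (T.nxt d))) := by
  have h1 : nq (z d) ≤ 2 * nq (z (T.nxt d)) + 2 * nq (z (T.nxt (T.nxt d))) := by
    simp only [nq, ip]
    rw [B1_closed h d 0, B1_closed h d 1]
    nlinarith [sq_nonneg (z d 0 + 2 * z (T.nxt d) 0), sq_nonneg (z d 1 + 2 * z (T.nxt d) 1)]
  by_contra hcon
  push Not at hcon
  linarith [hcon.1, hcon.2]

variable [Fintype D]

private theorem B1_sum_nxt (T : Tri D) (F : D → ℝ) : ∑ d, F (T.nxt d) = ∑ d, F d :=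
  Equiv.sum_comp T.nxt F

theorem Geo.sum_ct_nq (h : Geo T z) : ∑ d, ct T z d * nq (z d) = 2 / 3 * area T z := by
  have e1 : ∀ d, ct T z d * nq (z d) + ct T z (T.nxt d) * nq (z (T.nxt d)) +
      ct T z (T.nxt (T.nxt d)) * nq (z (T.nxt (T.nxt d))) = 2 * cr (z d) (z (T.nxt d)) := by
    intro d
    have h0 := h.ct_mul d
    have h1 := h.nq_eq d
    have h2 := h.nq_eq (T.nxt d)
    have h3 := h.nq_eq (T.nxt (T.nxt d))
    rw [T.nxt3, h.cr_nxt] at h2
    rw [T.nxt3, B1_cr2 h] at h3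
    rw [h1, h2, h3]
    linear_combination (2 * cr (z d) (z (T.nxt d))) * h0
  have e2 : 3 * ∑ d, ct T z d * nq (z d) = ∑ d, (ct T z d * nq (z d) +
      ct T z (T.nxt d) * nq (z (T.nxt d)) +
      ct T z (T.nxt (T.nxt d)) * nq (z (T.nxt (T.nxt d)))) := by
    rw [Finset.sum_add_distrib, Finset.sum_add_distrib,
      B1_sum_nxt T (fun d => ct T z d * nq (z d)),
      B1_sum_nxt T (fun d => ct T z (T.nxt d) * nq (z (T.nxt d))),
      B1_sum_nxt T (fun d => ct T z d * nq (z d))]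
    ring
  rw [Finset.sum_congr rfl (fun d _ => e1 d), ← Finset.mul_sum] at e2
  unfold area
  linarith

private theorem B1_three_cot (T : Tri D) (z : D → Vec) : 3 * cotsum T z =
    ∑ d, (ct T z d + ct T z (T.nxt d) + ct T z (T.nxt (T.nxt d))) := by
  unfold cotsum
  rw [Finset.sum_add_distrib, Finset.sum_add_distrib, B1_sum_nxt T (fun d => ct T z d),
    B1_sum_nxt T (fun d => ct T z (T.nxt d)), B1_sum_nxt T (fun d => ct T z d)]
  ring

theorem Geo.cotsum_nonneg (h : Geo T z) : 0 ≤ cotsum T z := by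
  have h1 := B1_three_cot T z
  have h2 : 0 ≤ ∑ d, (ct T z d + ct T z (T.nxt d) + ct T z (T.nxt (T.nxt d))) :=
    Finset.sum_nonneg fun d _ => by linarith [h.ct_sum_pos d]
  linarith

private theorem B1_three {F : D → ℝ} (hF : ∀ d, 0 ≤ F d) {a b c : D} (hab : a ≠ b) (hac : a ≠ c)
    (hbc : b ≠ c) : F a + F b + F c ≤ ∑ d, F d := by
  classical
  have h1 : ∑ d ∈ ({a, b, c} : Finset D), F d = F a + F b + F c := by
    rw [Finset.sum_insert (by simp [hab, hac]), Finset.sum_insert (by simp [hbc]),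
      Finset.sum_singleton]
    ring
  rw [← h1]
  exact Finset.sum_le_sum_of_subset_of_nonneg (Finset.subset_univ _) fun d _ _ => hF d

private theorem B1_nxt_ne (h : Geo T z) (e : D) : e ≠ T.nxt e := by
  intro he
  have h1 := h.pos e
  rw [← he] at h1
  simp only [cr] at h1
  linarith

private theorem B1_nxt2_ne (h : Geo T z) (e : D) : e ≠ T.nxt (T.nxt e) := by
  intro he
  have h1 := congrArg T.nxt he
  rw [T.nxt3] at h1
  exact B1_nxt_ne h e h1.symm

/-- three times the value at one triangle -/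
private theorem B1_three_tri (h : Geo T z) {F : D → ℝ} (hF : ∀ d, 0 ≤ F d) (d : D) :
    F d + F (T.nxt d) + F (T.nxt (T.nxt d)) ≤ ∑ d, F d :=
  B1_three hF (B1_nxt_ne h d) (B1_nxt2_ne h d) (B1_nxt_ne h (T.nxt d))

theorem Geo.cr_le_area (h : Geo T z) (d : D) : 3 * cr (z d) (z (T.nxt d)) ≤ area T z := by
  have h1 := B1_three_tri h (F := fun d => cr (z d) (z (T.nxt d))) (fun d => (h.pos d).le) d
  rw [h.cr_nxt (T.nxt d), h.cr_nxt d] at h1
  unfold area
  linarith

/-- all lengths are bounded in terms of the sum of the cotangents -/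
theorem Geo.nq_le_cotsum (h : Geo T z) (d : D) : nq (z d) ≤ 2 * area T z * cotsum T z := by
  have h1 := h.nq_sum d
  have h2 := B1_nq_pos h (T.nxt d)
  have h3 := B1_nq_pos h (T.nxt (T.nxt d))
  have h4 := h.cr_le_area d
  have hq := h.pos d
  have h5 : 0 ≤ ct T z d + ct T z (T.nxt d) + ct T z (T.nxt (T.nxt d)) := by
    linarith [h.ct_sum_pos d]
  have h6 : ct T z d + ct T z (T.nxt d) + ct T z (T.nxt (T.nxt d)) ≤ cotsum T z := by
    have h7 := B1_three_cot T z
    have h8 := B1_three_tri h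
      (F := fun d => ct T z d + ct T z (T.nxt d) + ct T z (T.nxt (T.nxt d)))
      (fun d => by linarith [h.ct_sum_pos d]) d
    simp only [T.nxt3] at h8
    linarith
  have h9 : 2 * cr (z d) (z (T.nxt d)) *
      (ct T z d + ct T z (T.nxt d) + ct T z (T.nxt (T.nxt d))) ≤ 2 * area T z * cotsum T z := by
    refine mul_le_mul (by linarith) h6 h5 ?_
    have h10 := h.cr_le_area d
    linarith
  linarith

/-- rotations and other maps of the plane which preserve the inner product up to a factor -/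
theorem ct_lin_rot (T : Tri D) (z : D → Vec) (a b : ℝ) (hab : 0 < a ^ 2 + b ^ 2) (d : D) :
    ct T (lin !![a, -b; b, a] z) d = ct T z d := by
  have e1 : ∀ u v : Vec, ip (Matrix.mulVec !![a, -b; b, a] u) (Matrix.mulVec !![a, -b; b, a] v) =
      (a ^ 2 + b ^ 2) * ip u v := by
    intro u v
    simp [ip, Matrix.mulVec, dotProduct, Fin.sum_univ_two]
    ring
  have e2 : ∀ u v : Vec, cr (Matrix.mulVec !![a, -b; b, a] u) (Matrix.mulVec !![a, -b; b, a] v) =
      (a ^ 2 + b ^ 2) * cr u v := by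
    intro u v
    simp [cr, Matrix.mulVec, dotProduct, Fin.sum_univ_two]
    ring
  unfold ct lin
  rw [e1, e2, ← mul_neg, mul_div_mul_left _ _ hab.ne']

end Pool.Veech
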