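import Pool.Agent.Lib.MP_fceebd_gt.B1

/-! # Row B2: flips of edges of negative weight.
Plane identities: let `a` be an edge, `q1`, `q2` the cross products of the two triangles at `a` and
`opp a`, `q3`, `q4` those of the two triangles after the flip, `q1 + q2 = q3 + q4`,
`q3 = cr (z (nxt (nxt a))) (z (nxt (opp a)))`, `q4 = cr (z (nxt (nxt (opp a)))) (z (nxt a))`. Then
`w q1 q2 = nq (z (nxt (nxt a))) q2 + nq (z (nxt (opp a))) q1 - nq (z a) q3`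
`        = nq (z (nxt a)) q2 + nq (z (nxt (nxt (opp a)))) q1 - nq (z a) q4`, and
`(sum of the 6 old cotangents) - (sum of the 6 new cotangents)`
`        = - w (q1^2 + q2^2 + q3^2 + q4^2) / (2 q3 q4)` (checked by computer). -/

set_option autoImplicit false

namespace Pool.Veech

variable {D : Type} {T T' : Tri D} {z : D → Vec} {a : D}

private theorem B2_z (h : Geo T z) (d : D) (i : Fin 2) :
    z (T.nxt d) i = -z d i - z (T.nxt (T.nxt d)) i := by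
  have := congrFun (h.coc.closed d) i
  simp only [Pi.add_apply, Pi.zero_apply] at this
  linarith

private theorem B2_z' (h : Geo T z) (d : D) (i : Fin 2) : z (T.opp d) i = -z d i := by
  have := congrFun (h.coc.glue d) i
  simpa using this

private theorem B2_z'' (h : Geo T z) (d : D) (i : Fin 2) :
    z (T.nxt (T.nxt (T.opp d))) i = z d i - z (T.nxt (T.opp d)) i := by
  have h1 := congrFun (h.coc.closed (T.opp d)) i
  have h2 := B2_z' h d i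
  simp only [Pi.add_apply, Pi.zero_apply] at h1
  linarith

private theorem B2_id1 (u0 u1 w0 w1 x0 x1 : ℝ) :
    -((-u0 - w0) * w0 + (-u1 - w1) * w1) * (-u0 * x1 - -u1 * x0) +
      -(x0 * (u0 - x0) + x1 * (u1 - x1)) * (u0 * (-u1 - w1) - u1 * (-u0 - w0)) =
    (w0 * w0 + w1 * w1) * (-u0 * x1 - -u1 * x0) +
      (x0 * x0 + x1 * x1) * (u0 * (-u1 - w1) - u1 * (-u0 - w0)) -
      (u0 * u0 + u1 * u1) * (w0 * x1 - w1 * x0) := by
  ring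

private theorem B2_id2 (u0 u1 w0 w1 x0 x1 : ℝ) :
    -((-u0 - w0) * w0 + (-u1 - w1) * w1) * (-u0 * x1 - -u1 * x0) +
      -(x0 * (u0 - x0) + x1 * (u1 - x1)) * (u0 * (-u1 - w1) - u1 * (-u0 - w0)) =
    ((-u0 - w0) * (-u0 - w0) + (-u1 - w1) * (-u1 - w1)) * (-u0 * x1 - -u1 * x0) +
      ((u0 - x0) * (u0 - x0) + (u1 - x1) * (u1 - x1)) * (u0 * (-u1 - w1) - u1 * (-u0 - w0)) -
      (u0 * u0 + u1 * u1) * ((u0 - x0) * (-u1 - w1) - (u1 - x1) * (-u0 - w0)) := by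
  ring

private theorem B2_id3 (u0 u1 w0 w1 x0 x1 q1 q2 q3 q4 : ℝ)
    (hq1 : q1 = u0 * (-u1 - w1) - u1 * (-u0 - w0)) (hq2 : q2 = -u0 * x1 - -u1 * x0)
    (hq3 : q3 = w0 * x1 - w1 * x0)
    (hq4 : q4 = (u0 - x0) * (-u1 - w1) - (u1 - x1) * (-u0 - w0)) :
    ((u0 * u0 + u1 * u1) + ((-u0 - w0) * (-u0 - w0) + (-u1 - w1) * (-u1 - w1)) +
      (w0 * w0 + w1 * w1)) * (q2 * q3 * q4) +
    ((u0 * u0 + u1 * u1) + (x0 * x0 + x1 * x1) +
      ((u0 - x0) * (u0 - x0) + (u1 - x1) * (u1 - x1))) * (q1 * q3 * q4) -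
    (((w0 + x0) * (w0 + x0) + (w1 + x1) * (w1 + x1)) + (w0 * w0 + w1 * w1) +
      (x0 * x0 + x1 * x1)) * (q1 * q2 * q4) -
    (((w0 + x0) * (w0 + x0) + (w1 + x1) * (w1 + x1)) +
      ((u0 - x0) * (u0 - x0) + (u1 - x1) * (u1 - x1)) +
      ((-u0 - w0) * (-u0 - w0) + (-u1 - w1) * (-u1 - w1))) * (q1 * q2 * q3) =
    -(-((-u0 - w0) * w0 + (-u1 - w1) * w1) * q2 +
      -(x0 * (u0 - x0) + x1 * (u1 - x1)) * q1) * (q1 ^ 2 + q2 ^ 2 + q3 ^ 2 + q4 ^ 2) := by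
  subst hq1 hq2 hq3 hq4
  ring

/-- The data of the two triangles in coordinates. -/
private theorem B2_q (h : Geo T z) (a : D) (u0 u1 w0 w1 x0 x1 : ℝ)
    (hu0 : z a 0 = u0) (hu1 : z a 1 = u1) (hw0 : z (T.nxt (T.nxt a)) 0 = w0)
    (hw1 : z (T.nxt (T.nxt a)) 1 = w1) (hx0 : z (T.nxt (T.opp a)) 0 = x0)
    (hx1 : z (T.nxt (T.opp a)) 1 = x1) :
    cr (z a) (z (T.nxt a)) = u0 * (-u1 - w1) - u1 * (-u0 - w0) ∧
    cr (z (T.opp a)) (z (T.nxt (T.opp a))) = -u0 * x1 - -u1 * x0 ∧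
    cr (z (T.nxt (T.nxt a))) (z (T.nxt (T.opp a))) = w0 * x1 - w1 * x0 ∧
    cr (z (T.nxt (T.nxt (T.opp a)))) (z (T.nxt a)) =
      (u0 - x0) * (-u1 - w1) - (u1 - x1) * (-u0 - w0) ∧
    wt T z a = -((-u0 - w0) * w0 + (-u1 - w1) * w1) / (u0 * (-u1 - w1) - u1 * (-u0 - w0)) +
      -(x0 * (u0 - x0) + x1 * (u1 - x1)) / (-u0 * x1 - -u1 * x0) := by
  have v0 := B2_z h a 0
  have v1 := B2_z h a 1
  have o0 := B2_z' h a 0
  have o1 := B2_z' h a 1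
  have y0 := B2_z'' h a 0
  have y1 := B2_z'' h a 1
  rw [hu0, hw0] at v0
  rw [hu1, hw1] at v1
  rw [hu0] at o0
  rw [hu1] at o1
  rw [hu0, hx0] at y0
  rw [hu1, hx1] at y1
  refine ⟨?_, ?_, ?_, ?_, ?_⟩
  · unfold cr
    rw [hu0, hu1, v0, v1]
  · unfold cr
    rw [hx0, hx1, o0, o1]
  · unfold cr
    rw [hw0, hw1, hx0, hx1]
  · unfold cr
    rw [y0, y1, v0, v1]
  · unfold wt ct cr ip
    rw [y0, y1, v0, v1, o0, o1, hx0, hx1, hw0, hw1, hu0, hu1]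

/-- edges of negative weight can be flipped -/
theorem Geo.convex_of_wt_neg (h : Geo T z) (hw : wt T z a < 0) :
    0 < cr (z (T.nxt (T.nxt a))) (z (T.nxt (T.opp a))) ∧
      0 < cr (z (T.nxt (T.nxt (T.opp a)))) (z (T.nxt a)) := by
  obtain ⟨u0, hu0⟩ : ∃ u0, z a 0 = u0 := ⟨_, rfl⟩
  obtain ⟨u1, hu1⟩ : ∃ u1, z a 1 = u1 := ⟨_, rfl⟩
  obtain ⟨w0, hw0⟩ : ∃ w0, z (T.nxt (T.nxt a)) 0 = w0 := ⟨_, rfl⟩
  obtain ⟨w1, hw1⟩ : ∃ w1, z (T.nxt (T.nxt a)) 1 = w1 := ⟨_, rfl⟩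
  obtain ⟨x0, hx0⟩ : ∃ x0, z (T.nxt (T.opp a)) 0 = x0 := ⟨_, rfl⟩
  obtain ⟨x1, hx1⟩ : ∃ x1, z (T.nxt (T.opp a)) 1 = x1 := ⟨_, rfl⟩
  obtain ⟨e1, e2, e3, e4, e5⟩ := B2_q h a u0 u1 w0 w1 x0 x1 hu0 hu1 hw0 hw1 hx0 hx1
  have i1 := B2_id1 u0 u1 w0 w1 x0 x1
  have i2 := B2_id2 u0 u1 w0 w1 x0 x1
  have p1 := h.pos a
  have p2 := h.pos (T.opp a)
  rw [e3, e4]
  rw [e1] at p1
  rw [e2] at p2
  rw [e5] at hw
  obtain ⟨q1, hq1⟩ : ∃ q1, q1 = u0 * (-u1 - w1) - u1 * (-u0 - w0) := ⟨_, rfl⟩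
  obtain ⟨q2, hq2⟩ : ∃ q2, q2 = -u0 * x1 - -u1 * x0 := ⟨_, rfl⟩
  obtain ⟨q3, hq3⟩ : ∃ q3, q3 = w0 * x1 - w1 * x0 := ⟨_, rfl⟩
  obtain ⟨q4, hq4⟩ : ∃ q4, q4 = (u0 - x0) * (-u1 - w1) - (u1 - x1) * (-u0 - w0) := ⟨_, rfl⟩
  rw [← hq1] at p1 i1 i2 hw
  rw [← hq2] at p2 i1 i2 hw
  rw [← hq3] at i1 ⊢
  rw [← hq4] at i2 ⊢
  have hW : -((-u0 - w0) * w0 + (-u1 - w1) * w1) * q2 + -(x0 * (u0 - x0) + x1 * (u1 - x1)) * q1 < 0 := by
    have h1 := mul_neg_of_neg_of_pos hw (mul_pos p1 p2)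
    have h2 : (-((-u0 - w0) * w0 + (-u1 - w1) * w1) / q1 + -(x0 * (u0 - x0) + x1 * (u1 - x1)) / q2) *
        (q1 * q2) = -((-u0 - w0) * w0 + (-u1 - w1) * w1) * q2 +
          -(x0 * (u0 - x0) + x1 * (u1 - x1)) * q1 := by
      field_simp
    rw [h2] at h1
    exact h1
  rw [i1] at hW
  rw [← i1, i2] at hW
  have hu : 0 ≤ u0 * u0 + u1 * u1 := add_nonneg (mul_self_nonneg _) (mul_self_nonneg _)
  constructor
  · rw [← i2, i1] at hW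
    have h3 : 0 < (u0 * u0 + u1 * u1) * q3 := by
      have k1 : 0 ≤ (w0 * w0 + w1 * w1) * q2 :=
        mul_nonneg (add_nonneg (mul_self_nonneg _) (mul_self_nonneg _)) p2.le
      have k2 : 0 ≤ (x0 * x0 + x1 * x1) * q1 :=
        mul_nonneg (add_nonneg (mul_self_nonneg _) (mul_self_nonneg _)) p1.le
      linarith
    by_contra hc
    have := mul_nonpos_of_nonneg_of_nonpos hu (not_lt.1 hc)
    linarith
  · have h3 : 0 < (u0 * u0 + u1 * u1) * q4 := by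
      have k1 : 0 ≤ ((-u0 - w0) * (-u0 - w0) + (-u1 - w1) * (-u1 - w1)) * q2 :=
        mul_nonneg (add_nonneg (mul_self_nonneg _) (mul_self_nonneg _)) p2.le
      have k2 : 0 ≤ ((u0 - x0) * (u0 - x0) + (u1 - x1) * (u1 - x1)) * q1 :=
        mul_nonneg (add_nonneg (mul_self_nonneg _) (mul_self_nonneg _)) p1.le
      linarith
    by_contra hc
    have := mul_nonpos_of_nonneg_of_nonpos hu (not_lt.1 hc)
    linarith

/-- the sum of the cotangents decreases -/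
theorem Geo.cotsum_flip [Fintype D] [DecidableEq D] (h : Geo T z) (hw : wt T z a < 0)
    (hf : T.IsFlip T' a) : cotsum T' (T.flipF a z) ≤ cotsum T z + 2 * wt T z a := by
  obtain ⟨c1, c2⟩ := h.convex_of_wt_neg hw
  have h' : Geo T' (T.flipF a z) := h.flip_geo hf c1 c2
  obtain ⟨z', hz'⟩ : ∃ z', z' = T.flipF a z := ⟨_, rfl⟩
  rw [← hz'] at h' ⊢
  have hsum := h.flip_sum (T' := T') (a := a) (ct T z) (ct T' z') (by
    intro d hd
    have hd1 : ¬ T.Near a (T.nxt d) := by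
      rintro ⟨b, hb, hb'⟩
      refine hd ⟨b, hb, ?_⟩
      rcases hb' with hb' | hb' | hb'
      · right; right
        rw [← hb', T.nxt3]
      · left
        exact T.nxt.injective hb'
      · right; left
        exact T.nxt.injective hb'
    have hd2 : ¬ T.Near a (T.nxt (T.nxt d)) := by
      rintro ⟨b, hb, hb'⟩
      refine hd ⟨b, hb, ?_⟩
      rcases hb' with hb' | hb' | hb'
      · right; left
        rw [← hb', T.nxt3]
      · right; right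
        rw [← T.nxt.injective hb', T.nxt3]
      · left
        exact T.nxt.injective (T.nxt.injective hb')
    have hz : ∀ x, ¬ T.Near a x → z' x = z x := by
      intro x hx
      rw [hz']
      unfold Tri.flipF
      rw [if_neg]
      intro hx'
      apply hx
      rcases hx' with hx' | hx' | hx' | hx'
      · exact ⟨a, by simp, Or.inl hx'⟩
      · exact ⟨T.opp a, by simp, Or.inl hx'⟩
      · exact ⟨T.tau a, by simp, Or.inl hx'⟩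
      · exact ⟨T.tau (T.opp a), by simp, Or.inl hx'⟩
    unfold ct
    rw [hf.rest d hd, hf.rest _ hd1, hz _ hd, hz _ hd1, hz _ hd2])
  -- the values of the new cocycle
  have da : T.Diag a a := Or.inl rfl
  have do' : T.Diag a (T.opp a) := Or.inr (Or.inl rfl)
  have za : z' a = -z (T.nxt (T.nxt a)) - z (T.nxt (T.opp a)) := by
    rw [hz']
    unfold Tri.flipF
    rw [if_pos da]
  have zo : z' (T.opp a) = -z (T.nxt (T.nxt (T.opp a))) - z (T.nxt a) := by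
    rw [hz']
    unfold Tri.flipF
    rw [if_pos do', T.opp2]
  have znd : ∀ x, ¬ T.Diag a x → z' x = z x := by
    intro x hx
    rw [hz']
    unfold Tri.flipF
    rw [if_neg hx]
  have zb := znd _ (h.not_diag_nxt da).1
  have zc := znd _ (h.not_diag_nxt da).2
  have zb' := znd _ (h.not_diag_nxt do').1
  have zc' := znd _ (h.not_diag_nxt do').2
  -- the new triangles
  have n1 : T'.nxt a = T.nxt (T.nxt a) := hf.nxt1 a da
  have n2 : T'.nxt (T.nxt (T.nxt a)) = T.nxt (T.opp a) := hf.nxt2 a da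
  have n3 : T'.nxt (T.opp a) = T.nxt (T.nxt (T.opp a)) := hf.nxt1 _ do'
  have n4 : T'.nxt (T.nxt (T.nxt (T.opp a))) = T.nxt a := by
    rw [hf.nxt2 _ do', T.opp2]
  have s1 := h'.nq_sum a
  have s2 := h'.nq_sum (T.opp a)
  rw [n1, n2, za, zc, zb'] at s1
  rw [n3, n4, zo, zc', zb] at s2
  have s3 := h.nq_sum a
  have s4 := h.nq_sum (T.opp a)
  -- the sum over the twelve darts
  have ht1 : ∀ d, ct T' z' (T.tau d) = ct T' z' d := by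
    intro d
    have := h'.ct_tau d
    rw [hf.tau] at this
    exact this
  have ht2 : ∀ d, ct T z (T.tau d) = ct T z d := h.ct_tau
  have h12 : ∑ p : Fin 4 × Fin 3, (ct T' z' (T.nr a p) - ct T z (T.nr a p)) =
      2 * ((ct T' z' a + ct T' z' (T.nxt (T.nxt a)) + ct T' z' (T.nxt (T.opp a))) +
        (ct T' z' (T.opp a) + ct T' z' (T.nxt (T.nxt (T.opp a))) + ct T' z' (T.nxt a)) -
        (ct T z a + ct T z (T.nxt a) + ct T z (T.nxt (T.nxt a))) -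
        (ct T z (T.opp a) + ct T z (T.nxt (T.opp a)) + ct T z (T.nxt (T.nxt (T.opp a))))) := by
    rw [Fintype.sum_prod_type]
    simp only [Fin.sum_univ_four, Fin.sum_univ_three]
    have r : ∀ j : Fin 4, T.nr a (j, 0) = T.dg a j ∧ T.nr a (j, 1) = T.nxt (T.dg a j) ∧
        T.nr a (j, 2) = T.nxt (T.nxt (T.dg a j)) := fun j => ⟨rfl, rfl, rfl⟩
    have g0 : T.dg a 0 = a := rfl
    have g1 : T.dg a 1 = T.opp a := rfl
    have g2 : T.dg a 2 = T.tau a := rfl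
    have g3 : T.dg a 3 = T.tau (T.opp a) := rfl
    simp only [(r _).1, (r _).2.1, (r _).2.2, g0, g1, g2, g3]
    simp only [← T.tau_nxt, ht1, ht2]
    ring
  obtain ⟨u0, hu0⟩ : ∃ u0, z a 0 = u0 := ⟨_, rfl⟩
  obtain ⟨u1, hu1⟩ : ∃ u1, z a 1 = u1 := ⟨_, rfl⟩
  obtain ⟨w0, hw0⟩ : ∃ w0, z (T.nxt (T.nxt a)) 0 = w0 := ⟨_, rfl⟩
  obtain ⟨w1, hw1⟩ : ∃ w1, z (T.nxt (T.nxt a)) 1 = w1 := ⟨_, rfl⟩
  obtain ⟨x0, hx0⟩ : ∃ x0, z (T.nxt (T.opp a)) 0 = x0 := ⟨_, rfl⟩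
  obtain ⟨x1, hx1⟩ : ∃ x1, z (T.nxt (T.opp a)) 1 = x1 := ⟨_, rfl⟩
  obtain ⟨e1, e2, e3, e4, e5⟩ := B2_q h a u0 u1 w0 w1 x0 x1 hu0 hu1 hw0 hw1 hx0 hx1
  have v0 := B2_z h a 0
  have v1 := B2_z h a 1
  have o0 := B2_z' h a 0
  have o1 := B2_z' h a 1
  have y0 := B2_z'' h a 0
  have y1 := B2_z'' h a 1
  rw [hu0, hw0] at v0
  rw [hu1, hw1] at v1
  rw [hu0] at o0
  rw [hu1] at o1
  rw [hu0, hx0] at y0
  rw [hu1, hx1] at y1
  have p1 := h.pos a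
  have p2 := h.pos (T.opp a)
  rw [e1] at p1
  rw [e2] at p2
  rw [e3] at c1
  rw [e4] at c2
  -- the sum relations in coordinates
  obtain ⟨A1, hA1⟩ : ∃ A, A = ct T' z' a + ct T' z' (T.nxt (T.nxt a)) +
    ct T' z' (T.nxt (T.opp a)) := ⟨_, rfl⟩
  obtain ⟨A2, hA2⟩ : ∃ A, A = ct T' z' (T.opp a) + ct T' z' (T.nxt (T.nxt (T.opp a))) +
    ct T' z' (T.nxt a) := ⟨_, rfl⟩
  obtain ⟨A3, hA3⟩ : ∃ A, A = ct T z a + ct T z (T.nxt a) + ct T z (T.nxt (T.nxt a)) := ⟨_, rfl⟩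
  obtain ⟨A4, hA4⟩ : ∃ A, A = ct T z (T.opp a) + ct T z (T.nxt (T.opp a)) +
    ct T z (T.nxt (T.nxt (T.opp a))) := ⟨_, rfl⟩
  rw [← hA1] at s1
  rw [← hA2] at s2
  rw [← hA3] at s3
  rw [← hA4] at s4
  rw [← hA1, ← hA2, ← hA3, ← hA4] at h12
  rw [e1] at s3
  rw [e2] at s4
  unfold nq ip at s1 s2 s3 s4
  unfold cr at s1 s2
  simp only [Pi.sub_apply, Pi.neg_apply] at s1 s2
  rw [hw0, hw1, hx0, hx1] at s1
  rw [y0, y1, v0, v1] at s2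
  rw [hu0, hu1, v0, v1, hw0, hw1] at s3
  rw [o0, o1, hx0, hx1, y0, y1] at s4
  have i3 := B2_id3 u0 u1 w0 w1 x0 x1 _ _ _ _ rfl rfl rfl rfl
  have i0 : (w0 * x1 - w1 * x0) + ((u0 - x0) * (-u1 - w1) - (u1 - x1) * (-u0 - w0)) =
    (u0 * (-u1 - w1) - u1 * (-u0 - w0)) + (-u0 * x1 - -u1 * x0) := by ring
  obtain ⟨q1, hq1⟩ : ∃ q1, q1 = u0 * (-u1 - w1) - u1 * (-u0 - w0) := ⟨_, rfl⟩
  obtain ⟨q2, hq2⟩ : ∃ q2, q2 = -u0 * x1 - -u1 * x0 := ⟨_, rfl⟩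
  obtain ⟨q3, hq3⟩ : ∃ q3, q3 = w0 * x1 - w1 * x0 := ⟨_, rfl⟩
  obtain ⟨q4, hq4⟩ : ∃ q4, q4 = (u0 - x0) * (-u1 - w1) - (u1 - x1) * (-u0 - w0) := ⟨_, rfl⟩
  have s1' : ((w0 + x0) * (w0 + x0) + (w1 + x1) * (w1 + x1)) + (w0 * w0 + w1 * w1) +
      (x0 * x0 + x1 * x1) = 2 * q3 * A1 := by
    rw [hq3]
    linear_combination s1
  have s2' : ((w0 + x0) * (w0 + x0) + (w1 + x1) * (w1 + x1)) +
      ((u0 - x0) * (u0 - x0) + (u1 - x1) * (u1 - x1)) +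
      ((-u0 - w0) * (-u0 - w0) + (-u1 - w1) * (-u1 - w1)) = 2 * q4 * A2 := by
    rw [hq4]
    linear_combination s2
  have s3' : (u0 * u0 + u1 * u1) + ((-u0 - w0) * (-u0 - w0) + (-u1 - w1) * (-u1 - w1)) +
      (w0 * w0 + w1 * w1) = 2 * q1 * A3 := by
    rw [hq1]
    linear_combination s3
  have s4' : (u0 * u0 + u1 * u1) + (x0 * x0 + x1 * x1) +
      ((u0 - x0) * (u0 - x0) + (u1 - x1) * (u1 - x1)) = 2 * q2 * A4 := by
    rw [hq2]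
    linear_combination s4
  rw [← hq1, ← hq2, ← hq3, ← hq4, s1', s2', s3', s4'] at i3
  rw [← hq1] at p1 e5
  rw [← hq2] at p2 e5
  rw [← hq3] at c1
  rw [← hq4] at c2
  have hW : -((-u0 - w0) * w0 + (-u1 - w1) * w1) * q2 + -(x0 * (u0 - x0) + x1 * (u1 - x1)) * q1 =
      wt T z a * (q1 * q2) := by
    rw [e5]
    field_simp
  rw [hW] at i3
  -- divide by q1 q2
  have i4 : 2 * (q3 * q4) * (A3 + A4 - A1 - A2) =
      -wt T z a * (q1 ^ 2 + q2 ^ 2 + q3 ^ 2 + q4 ^ 2) := by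
    have hne : q1 * q2 ≠ 0 := (mul_pos p1 p2).ne'
    apply mul_left_cancel₀ hne
    linear_combination i3
  have i5 : wt T z a * (q1 ^ 2 + q2 ^ 2 + q3 ^ 2 + q4 ^ 2) ≤ wt T z a * (2 * (q3 * q4)) := by
    refine mul_le_mul_of_nonpos_left ?_ hw.le
    have e : q1 ^ 2 + q2 ^ 2 + q3 ^ 2 + q4 ^ 2 - 2 * (q3 * q4) =
      (q3 - q4) ^ 2 + q1 ^ 2 + q2 ^ 2 := by ring
    have e' : 0 ≤ (q3 - q4) ^ 2 + q1 ^ 2 + q2 ^ 2 := by positivity
    linarith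
  have i6 : (A1 + A2 - A3 - A4) ≤ wt T z a := by
    have h34 : 0 < 2 * (q3 * q4) := by positivity
    have : 2 * (q3 * q4) * (A1 + A2 - A3 - A4) ≤ 2 * (q3 * q4) * wt T z a := by
      have e : 2 * (q3 * q4) * (A1 + A2 - A3 - A4) =
          wt T z a * (q1 ^ 2 + q2 ^ 2 + q3 ^ 2 + q4 ^ 2) := by
        linear_combination (-1 : ℝ) * i4
      rw [e, mul_comm (2 * (q3 * q4))]
      exact i5
    exact le_of_mul_le_mul_left this h34
  unfold cotsum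
  rw [h12] at hsum
  linarith

end Pool.Veech
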