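import Pool.Agent.Lib.MP_fceebd_gt.B2

/-! # Row B3: existence of almost Delaunay triangulations -/

set_option autoImplicit false

namespace Pool.Veech

variable {D : Type} [Fintype D] [DecidableEq D] {T T' : Tri D} {z : D → Vec} {m : Matrix D D ℤ}

theorem Desc.gpath {η : ℝ} (hη : 0 ≤ η) (h : Desc η T z T' m) : GPath T z T' m := by
  induction h with
  | refl h => exact GPath.refl h
  | flip _ hw hf ih =>
    have hg := ih.geo
    obtain ⟨h1, h2⟩ := hg.convex_of_wt_neg (by linarith)
    exact GPath.flip ih hf (hg.flip_geo hf h1 h2)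

theorem Desc.mono {η η' : ℝ} (hη : η ≤ η') (h : Desc η' T z T' m) : Desc η T z T' m := by
  induction h with
  | refl h => exact Desc.refl h
  | flip _ hw hf ih => exact Desc.flip ih (by linarith) hf

theorem Desc.cotsum_le {η : ℝ} (hη : 0 ≤ η) (h : Desc η T z T' m) :
    cotsum T' (app m z) ≤ cotsum T z := by
  induction h with
  | refl h => rw [app_one]
  | flip h1 hw hf ih =>
    have hg := (h1.gpath hη).geo
    rw [app_mul, app_flipM]
    have := hg.cotsum_flip (by linarith) hf
    linarith

theorem Desc.opp {η : ℝ} (h : Desc η T z T' m) : T'.opp = T.opp ∧ T'.tau = T.tau := by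
  induction h with
  | refl h => exact ⟨rfl, rfl⟩
  | flip h1 hw hf ih => exact ⟨hf.opp.trans ih.1, hf.tau.trans ih.2⟩

/-- the process stops, since each flip decreases `cotsum ≥ 0` by at least `2 η` -/
theorem exists_desc (h : Geo T z) {η : ℝ} (hη : 0 < η) :
    ∃ T' m, Desc η T z T' m ∧ ∀ d, -η ≤ wt T' (app m z) d := by
  by_contra hcon
  push Not at hcon
  have key : ∀ N : ℕ, ∃ T' m, Desc η T z T' m ∧
      cotsum T' (app m z) ≤ cotsum T z - 2 * η * N := by
    intro N
    induction N with
    | zero =>
      refine ⟨T, 1, Desc.refl h, ?_⟩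
      rw [app_one]
      simp
    | succ N ih =>
      obtain ⟨T', m, hd, hc⟩ := ih
      obtain ⟨d, hw⟩ := hcon T' m hd
      have hg := (hd.gpath hη.le).geo
      obtain ⟨h1, h2⟩ := hg.convex_of_wt_neg (a := d) (by linarith)
      obtain ⟨T'', hf⟩ := hg.exists_flip h1 h2
      refine ⟨T'', _, Desc.flip hd hw hf, ?_⟩
      rw [app_mul, app_flipM]
      have := hg.cotsum_flip (by linarith) hf
      push_cast
      linarith
  obtain ⟨N, hN⟩ := exists_nat_gt (cotsum T z / (2 * η))
  obtain ⟨T', m, hd, hc⟩ := key N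
  have hg := (hd.gpath hη.le).geo
  have h0 := hg.cotsum_nonneg
  rw [div_lt_iff₀ (by linarith)] at hN
  linarith

private theorem B3_nq_neg (u : Vec) : nq (-u) = nq u := by
  simp [nq, ip]

private theorem B3_nq_nonneg (u : Vec) : 0 ≤ nq u := by
  have h1 := mul_self_nonneg (u 0)
  have h2 := mul_self_nonneg (u 1)
  simp only [nq, ip]
  linarith

/-- Apply `exists_desc` with a small `η`. -/
theorem exists_nearD (h : Geo T z) : ∃ T' m, Desc 0 T z T' m ∧ NearD T' (app m z) := by
  rcases isEmpty_or_nonempty D with hE | hE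
  · refine ⟨T, 1, Desc.refl h, ?_⟩
    rw [app_one]
    exact ⟨h, fun d => (hE.false d).elim⟩
  have hA := h.area_pos
  have hS := h.cotsum_nonneg
  set A := area T z with hAdef
  set S := cotsum T z with hSdef
  obtain ⟨c, hc⟩ : ∃ c : ℝ, c = (Fintype.card D : ℝ) := ⟨_, rfl⟩
  have hc0 : 0 ≤ c := by rw [hc]; exact Nat.cast_nonneg _
  have hden : 0 < 2 * (c + 1) * (S + 1) := by positivity
  obtain ⟨η, hηdef⟩ : ∃ η : ℝ, η = 1 / (2 * (c + 1) * (S + 1)) := ⟨_, rfl⟩
  have hη : 0 < η := by rw [hηdef]; positivity
  obtain ⟨T', m, hd, hw⟩ := exists_desc h hη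
  refine ⟨T', m, hd.mono hη.le, ?_⟩
  have hgp := hd.gpath hη.le
  have hg := hgp.geo
  have hA' : area T' (app m z) = A := hgp.area
  have hS' : cotsum T' (app m z) ≤ S := hd.cotsum_le hη.le
  set z' := app m z with hz'
  refine ⟨hg, ?_⟩
  intro d
  rw [hA']
  have hopp : ∀ e, nq (z' (T'.opp e)) = nq (z' e) := by
    intro e
    rw [hg.coc.glue, B3_nq_neg]
  have htau : ∀ e, nq (z' (T'.tau e)) = nq (z' e) := by
    intro e
    rw [hg.anti, B3_nq_neg]
  let F : D → ℝ := fun e => wt T' z' e * nq (z' e)
  have hsum : ∑ e, F e = 4 / 3 * A := by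
    have h1 := hg.sum_ct_nq
    have h2 : ∑ e, ct T' z' (T'.opp e) * nq (z' e) = ∑ e, ct T' z' e * nq (z' e) := by
      rw [← Equiv.sum_comp T'.opp (fun e => ct T' z' e * nq (z' e))]
      apply Finset.sum_congr rfl
      intro e _
      rw [hopp]
    have h3 : ∑ e, F e = ∑ e, ct T' z' e * nq (z' e) + ∑ e, ct T' z' (T'.opp e) * nq (z' e) := by
      rw [← Finset.sum_add_distrib]
      apply Finset.sum_congr rfl
      intro e _
      simp only [F, wt]
      ring
    rw [h3, h2, h1, hA']
    ring
  have hinj : Function.Injective (T'.dg d) := by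
    intro j k hjk
    have := hg.nr_injective d (a₁ := (j, 0)) (a₂ := (k, 0)) (by
      simpa [Tri.nr] using hjk)
    exact (Prod.mk.inj this).1
  have hF4 : ∑ e ∈ Finset.univ.image (T'.dg d), F e = 4 * F d := by
    rw [Finset.sum_image (fun j _ k _ hjk => hinj hjk), Fin.sum_univ_four]
    have e1 : F (T'.opp d) = F d := by
      simp only [F]
      rw [wt_opp, hopp]
    have e2 : ∀ e, F (T'.tau e) = F e := by
      intro e
      simp only [F]
      rw [hg.wt_tau, htau]
    simp only [Tri.dg, Matrix.cons_val_zero, Matrix.cons_val_one, Matrix.cons_val]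
    rw [e2, e2, e1]
    ring
  have hlow : ∀ e, -(η * (2 * A * S)) ≤ F e := by
    intro e
    have h1 := hg.nq_le_cotsum e
    rw [hA'] at h1
    have h2 : nq (z' e) ≤ 2 * A * S := by
      refine h1.trans ?_
      apply mul_le_mul_of_nonneg_left hS'
      linarith
    have h3 := B3_nq_nonneg (z' e)
    have h4 := hw e
    have h5 : -η * nq (z' e) ≤ wt T' z' e * nq (z' e) := mul_le_mul_of_nonneg_right h4 h3
    have h6 : η * nq (z' e) ≤ η * (2 * A * S) := mul_le_mul_of_nonneg_left h2 hη.le
    simp only [F]
    linarith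
  have hrest : -(c * (η * (2 * A * S))) ≤ ∑ e ∈ (Finset.univ.image (T'.dg d))ᶜ, F e := by
    have h1 : (Finset.univ.image (T'.dg d))ᶜ.card • (-(η * (2 * A * S))) ≤
        ∑ e ∈ (Finset.univ.image (T'.dg d))ᶜ, F e :=
      Finset.card_nsmul_le_sum _ _ _ (fun e _ => hlow e)
    refine le_trans ?_ h1
    rw [nsmul_eq_mul, mul_neg, neg_le_neg_iff]
    apply mul_le_mul_of_nonneg_right
    · rw [hc]
      exact_mod_cast Finset.card_le_univ _
    · positivity
  have hsplit := Finset.sum_add_sum_compl (Finset.univ.image (T'.dg d)) F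
  have hsmall : c * (η * (2 * A * S)) ≤ A := by
    have h1 : c * (η * (2 * A * S)) = A * (2 * c * S / (2 * (c + 1) * (S + 1))) := by
      rw [hηdef]
      ring
    rw [h1]
    have h2 : 2 * c * S / (2 * (c + 1) * (S + 1)) ≤ 1 := by
      rw [div_le_one hden]
      nlinarith
    calc A * (2 * c * S / (2 * (c + 1) * (S + 1))) ≤ A * 1 :=
          mul_le_mul_of_nonneg_left h2 hA.le
      _ = A := mul_one A
  have hFd : F d = wt T' z' d * nq (z' d) := rfl
  rw [← hFd]
  linarith

/-- Lemma M: a cocycle which vanishes on the short darts of the end of a descending sequence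
vanishes on the short darts of the start. (At a flip of `a` with `wt a < 0` one of the two angles
opposite to `a` is obtuse, so `z a` is the sum of two darts which are shorter and not changed.) -/
theorem Desc.vanish {M : Type*} [AddCommGroup M] (h : Desc 0 T z T' m) {f : D → M}
    (hf : IsCoc T f) {ε : ℝ} (h0 : ∀ d, nq (app m z d) ≤ ε → app m f d = 0) :
    ∀ d, nq (z d) ≤ ε → f d = 0 := by
  induction h with
  | refl h =>
    intro d hd
    have := h0 d (by rw [app_one]; exact hd)
    rwa [app_one] at this
  | @flip T' T'' m a h1 hw hfl ih =>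
    apply ih
    have hgp := h1.gpath le_rfl
    have hg := hgp.geo
    have hc := hgp.coc hf
    have h0' : ∀ d, nq (T'.flipF a (app m z) d) ≤ ε → T'.flipF a (app m f) d = 0 := by
      intro d hd
      have := h0 d
      rw [app_mul, app_flipM, app_mul, app_flipM] at this
      exact this hd
    have hnd : ∀ d, ¬ T'.Diag a d → nq (app m z d) ≤ ε → app m f d = 0 := by
      intro d hd hq
      have := h0' d
      rw [Tri.flipF, if_neg hd, Tri.flipF, if_neg hd] at this
      exact this hq
    -- darts opposite to an obtuse angle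
    have hob : ∀ b, T'.Diag a b → ct T' (app m z) b < 0 → nq (app m z b) ≤ ε →
        app m f b = 0 := by
      intro b hb hcb hq
      obtain ⟨n1, n2⟩ := hg.not_diag_nxt hb
      obtain ⟨l1, l2⟩ := hg.nq_lt_of_ct_neg hcb
      have f1 := hnd _ n1 (by linarith)
      have f2 := hnd _ n2 (by linarith)
      have := hc.closed b
      rw [f1, f2, add_zero, add_zero] at this
      exact this
    intro d hq
    by_cases hd : T'.Diag a d
    · have hwd : wt T' (app m z) d < 0 := by
        have h2 : wt T' (app m z) a < 0 := by linarith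
        rcases hd with rfl | rfl | rfl | rfl
        · exact h2
        · rw [wt_opp]
          exact h2
        · rw [hg.wt_tau]
          exact h2
        · rw [hg.wt_tau, wt_opp]
          exact h2
      have hdo : T'.Diag a (T'.opp d) := by
        rcases hd with rfl | rfl | rfl | rfl
        · exact Or.inr (Or.inl rfl)
        · exact Or.inl (T'.opp2 _)
        · exact Or.inr (Or.inr (Or.inr (T'.tau_opp _).symm))
        · refine Or.inr (Or.inr (Or.inl ?_))
          rw [← T'.tau_opp, T'.opp2]
      have hqo : nq (app m z (T'.opp d)) ≤ ε := by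
        rw [hg.coc.glue, B3_nq_neg]
        exact hq
      rw [wt] at hwd
      rcases lt_or_ge (ct T' (app m z) d) 0 with h3 | h3
      · exact hob d hd h3 hq
      · have h4 := hob (T'.opp d) hdo (by linarith) hqo
        rw [hc.glue, neg_eq_zero] at h4
        exact h4
    · exact hnd d hd hq

end Pool.Veech
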