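import Pool.Agent.Lib.MP_fceebd_gt.B3

/-! # Row C1: long edges of almost Delaunay triangulations are in thin triangles.
Let `n` be the number of darts. -/

set_option autoImplicit false

namespace Pool.Veech

variable {D : Type} [Fintype D] [DecidableEq D] {T : Tri D} {z : D → Vec}

/-- the constant for `NearD.abs_ct_le` -/
def Lc0 (n : ℕ) : ℕ := 1000 * 4 ^ (n + 2)

/-- the constant of long edges -/
def Lc (n : ℕ) : ℕ := Lc0 n + n + 1

private theorem C1_nq_opp (h : Geo T z) (d : D) : nq (z (T.opp d)) = nq (z d) := by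
  rw [h.coc.glue]
  unfold nq ip
  simp only [Pi.neg_apply]
  ring

/-- the squares of the lengths in terms of the cotangents -/
private theorem C1_nq (h : Geo T z) (d : D) :
    nq (z d) = cr (z d) (z (T.nxt d)) * (ct T z (T.nxt d) + ct T z (T.nxt (T.nxt d))) ∧
    nq (z (T.nxt d)) = cr (z d) (z (T.nxt d)) * (ct T z (T.nxt (T.nxt d)) + ct T z d) ∧
    nq (z (T.nxt (T.nxt d))) = cr (z d) (z (T.nxt d)) * (ct T z d + ct T z (T.nxt d)) := by
  refine ⟨h.nq_eq d, ?_, ?_⟩
  · have := h.nq_eq (T.nxt d)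
    rw [h.cr_nxt, T.nxt3] at this
    exact this
  · have := h.nq_eq (T.nxt (T.nxt d))
    rw [h.cr_nxt, h.cr_nxt, T.nxt3] at this
    exact this

private theorem C1_nq_pos (h : Geo T z) (d : D) : 0 < nq (z d) := by
  have hp := h.pos d
  have h0 : 0 ≤ nq (z d) := by
    unfold nq ip
    exact add_nonneg (mul_self_nonneg _) (mul_self_nonneg _)
  rcases h0.lt_or_eq with h1 | h1
  · exact h1
  · exfalso
    unfold nq ip at h1
    have e0 : z d 0 = 0 := by
      have a1 := mul_self_nonneg (z d 0)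
      have a2 := mul_self_nonneg (z d 1)
      exact mul_self_eq_zero.1 (by linarith)
    have e1 : z d 1 = 0 := by
      have a1 := mul_self_nonneg (z d 0)
      have a2 := mul_self_nonneg (z d 1)
      exact mul_self_eq_zero.1 (by linarith)
    unfold cr at hp
    rw [e0, e1] at hp
    simp at hp

/-- one step of the descent -/
private theorem C1_step (h : NearD T z) {x : D} (hx : ct T z x < 0) :
    ∃ y, nq (z x) ≤ 4 * nq (z y) ∧ nq (z y) < nq (z x) ∧
      ct T z y * nq (z y) ≤ ct T z x * nq (z y) + area T z := by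
  have hg := h.geo
  obtain ⟨n1, n2, n3⟩ := C1_nq hg x
  have hp := hg.pos x
  have l := hg.nq_lt_of_ct_neg hx
  have key : ∀ e, nq (z x) ≤ 4 * nq (z e) → nq (z e) < nq (z x) → -ct T z x ≤ ct T z e →
      ∃ y, nq (z x) ≤ 4 * nq (z y) ∧ nq (z y) < nq (z x) ∧
      ct T z y * nq (z y) ≤ ct T z x * nq (z y) + area T z := by
    intro e e1 e2 e3
    refine ⟨T.opp e, ?_, ?_, ?_⟩
    · rw [C1_nq_opp hg]
      exact e1
    · rw [C1_nq_opp hg]
      exact e2
    · rw [C1_nq_opp hg]
      have hw := h.wt_nq e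
      unfold wt at hw
      have hn := (C1_nq_pos hg e).le
      have := mul_le_mul_of_nonneg_right e3 hn
      linarith
  have m2 : 0 < ct T z (T.nxt (T.nxt x)) + ct T z x := by
    have := C1_nq_pos hg (T.nxt x)
    rw [n2] at this
    exact (pos_iff_pos_of_mul_pos this).1 hp
  have m3 : 0 < ct T z x + ct T z (T.nxt x) := by
    have := C1_nq_pos hg (T.nxt (T.nxt x))
    rw [n3] at this
    exact (pos_iff_pos_of_mul_pos this).1 hp
  rcases hg.nq_le_four x with h4 | h4
  · exact key _ h4 l.1 (by linarith)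
  · exact key _ h4 l.2 (by linarith)

/-- the number of shorter darts -/
private theorem C1_count [Nonempty D] (h : NearD T z) (k : ℕ) : ∀ x : D,
    16000 * 4 ^ k * area T z ≤ nq (z x) → ct T z x < -(1 / 12000) * (1 - (1 / 4) ^ k) →
    k ≤ (Finset.univ.filter fun y => nq (z y) < nq (z x)).card := by
  induction k with
  | zero => intro x _ _; exact Nat.zero_le _
  | succ k ih =>
    intro x h1 h2
    have hA : 0 < area T z := h.geo.area_pos
    have hk : (1 / 4 : ℝ) ^ (k + 1) ≤ 1 := pow_le_one₀ (by norm_num) (by norm_num)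
    have hx : ct T z x < 0 := by linarith
    obtain ⟨y, e1, e2, e3⟩ := C1_step h hx
    have hy : 0 < nq (z y) := C1_nq_pos h.geo y
    have g1 : 16000 * 4 ^ k * area T z ≤ nq (z y) := by
      have : (4 : ℝ) ^ (k + 1) = 4 * 4 ^ k := by rw [pow_succ]; ring
      rw [this] at h1
      nlinarith
    have g2 : ct T z y < -(1 / 12000) * (1 - (1 / 4) ^ k) := by
      have h4 : (0 : ℝ) < 4 ^ k := by positivity
      have e4 : area T z ≤ nq (z y) * ((1 / 16000) * (1 / 4) ^ k) := by
        have : (1 / 4 : ℝ) ^ k * 4 ^ k = 1 := by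
          rw [← mul_pow]
          norm_num
        calc area T z = (16000 * 4 ^ k * area T z) * ((1 / 16000) * (1 / 4) ^ k) := by
              linear_combination (-area T z) * this
          _ ≤ _ := mul_le_mul_of_nonneg_right g1 (by positivity)
      have e5 : ct T z y * nq (z y) ≤ (ct T z x + (1 / 16000) * (1 / 4) ^ k) * nq (z y) := by
        linarith
      have e6 := le_of_mul_le_mul_right e5 hy
      have e7 : (1 / 4 : ℝ) ^ (k + 1) = (1 / 4) ^ k * (1 / 4) := pow_succ _ _
      rw [e7] at h2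
      linarith
    have := ih y g1 g2
    have hsub : insert y (Finset.univ.filter fun w => nq (z w) < nq (z y)) ⊆
        Finset.univ.filter fun w => nq (z w) < nq (z x) := by
      intro w hw
      rw [Finset.mem_insert, Finset.mem_filter] at hw
      rw [Finset.mem_filter]
      refine ⟨Finset.mem_univ _, ?_⟩
      rcases hw with rfl | hw
      · exact e2
      · exact hw.2.trans e2
    have hcard := Finset.card_le_card hsub
    rw [Finset.card_insert_of_notMem (by simp)] at hcard
    omega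

private theorem C1_lower (h : NearD T z) {d : D}
    (hd : (Lc0 (Fintype.card D) : ℝ) * area T z ≤ nq (z d)) : -(1 / 12000) ≤ ct T z d := by
  have : Nonempty D := ⟨d⟩
  by_contra hc
  have hc' := not_le.1 hc
  have h1 := C1_count h (Fintype.card D) d (by
    have : (Lc0 (Fintype.card D) : ℝ) = 16000 * 4 ^ Fintype.card D := by
      unfold Lc0
      push_cast
      rw [pow_add]
      ring
    rw [← this]
    exact hd) (by
    have : (0 : ℝ) ≤ (1 / 4) ^ Fintype.card D := by positivity
    linarith)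
  have h2 : (Finset.univ.filter fun y => nq (z y) < nq (z d)).card < Fintype.card D := by
    rw [← Finset.card_univ]
    refine Finset.card_lt_card ?_
    rw [Finset.ssubset_iff_of_subset (Finset.filter_subset _ _)]
    exact ⟨d, Finset.mem_univ _, by simp⟩
  omega

/-- Proof. Suppose `ct d ≤ - δ`, `δ > 0`. The side `e` which is the longer one of the two other sides
of the triangle of `d` has `ct e ≥ δ` (if `c1 = ct d = - δ`, `c2 ≥ c3`, then `c3 = ct e` and
`c2 c3 = 1 + δ (c2 + c3)`), and `nq e ≥ nq d / 4`, `nq e < nq d`. So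
`ct (opp e) ≤ - δ + area / nq e`. Iterating `d ↦ opp e` from a dart with `nq ≥ Lc0 area` and
`ct < - 1 / 20` gives `n + 1` different darts, since the lengths decrease and since
`∑ area / nq < 1 / 40`. So `ct d ≥ - 1 / 20` for all long `d`, and
`ct d = wt d - ct (opp d) ≤ 1 / 1000 + 1 / 20`. -/
theorem NearD.abs_ct_le (h : NearD T z) {d : D}
    (hd : (Lc0 (Fintype.card D) : ℝ) * area T z ≤ nq (z d)) : |ct T z d| ≤ 1 / 10 := by
  have : Nonempty D := ⟨d⟩
  have hA : 0 < area T z := h.geo.area_pos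
  have h1 := C1_lower h hd
  have h2 := C1_lower h (d := T.opp d) (by rw [C1_nq_opp h.geo]; exact hd)
  have h3 := h.wt_nq d
  have hL : (1000 : ℝ) ≤ Lc0 (Fintype.card D) := by
    have : 1000 ≤ Lc0 (Fintype.card D) := by
      unfold Lc0
      exact Nat.le_mul_of_pos_right _ (by positivity)
    exact_mod_cast this
  have h4 : 1000 * area T z ≤ nq (z d) := (mul_le_mul_of_nonneg_right hL hA.le).trans hd
  have h5 : wt T z d ≤ 1 / 1000 := by
    by_contra hc
    have hc' := not_le.1 hc
    have hn := C1_nq_pos h.geo d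
    have : 1 / 1000 * nq (z d) < wt T z d * nq (z d) := mul_lt_mul_of_pos_right hc' hn
    linarith
  unfold wt at h5
  rw [abs_le]
  constructor <;> linarith

/-- The dart `s` is the short side of the triangle of the long dart `d` (`e` is the third
side). -/
def Short (T : Tri D) (z : D → Vec) (d s e : D) : Prop :=
  nq (z d) * nq (z s) ≤ 1.04 * cr (z d) (z (T.nxt d)) ^ 2 ∧
    nq (z d) - 0.4 * cr (z d) (z (T.nxt d)) ≤ nq (z e)

/-- the bound for the small cotangent -/
private theorem C1_small {c1 c2 c3 : ℝ} (h1 : |c1| ≤ 1 / 10) (h2 : 20000 ≤ c2)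
    (hm : c1 * c2 + c2 * c3 + c3 * c1 = 1) : |c3| ≤ 0.2 := by
  obtain ⟨a1, a2⟩ := abs_le.1 h1
  have hpos : 0 < c1 + c2 := by linarith
  have he : c3 = (1 - c1 * c2) / (c1 + c2) := by
    rw [eq_div_iff hpos.ne']
    linarith
  have b1 : c1 * c2 ≤ 1 / 10 * c2 := mul_le_mul_of_nonneg_right a2 (by linarith)
  have b2 : -(1 / 10) * c2 ≤ c1 * c2 := mul_le_mul_of_nonneg_right a1 (by linarith)
  rw [he, abs_le]
  constructor
  · rw [le_div_iff₀ hpos]
    linarith
  · rw [div_le_iff₀ hpos]
    linarith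

/-- Let `c1 = ct d`, `c2 = ct (nxt d)`, `c3 = ct (nxt (nxt d))`, `q` the cross product. Then
`nq d = q (c2 + c3)`, so `c2 + c3` is at least `3 Lc0`, `c2 c3 = 1 - c1 (c2 + c3)`. If `c2 ≥ c3` then
`|c3| ≤ 0.21`, `nq (nxt d) = q (c1 + c3) = q (1 - c1 c3) / c2`, and
`nq (nxt (nxt d)) = nq d + q (c1 - c3)`. -/
theorem NearD.short_or (h : NearD T z) {d : D}
    (hd : (Lc0 (Fintype.card D) : ℝ) * area T z ≤ nq (z d)) :
    Short T z d (T.nxt d) (T.nxt (T.nxt d)) ∨ Short T z d (T.nxt (T.nxt d)) (T.nxt d) := by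
  have : Nonempty D := ⟨d⟩
  have hA : 0 < area T z := h.geo.area_pos
  obtain ⟨n1, n2, n3⟩ := C1_nq h.geo d
  have hm := h.geo.ct_mul d
  have hc := h.abs_ct_le hd
  have hq := h.geo.pos d
  have hqa := h.geo.cr_le_area d
  obtain ⟨q, hq'⟩ : ∃ q, q = cr (z d) (z (T.nxt d)) := ⟨_, rfl⟩
  obtain ⟨c1, hc1⟩ : ∃ x, x = ct T z d := ⟨_, rfl⟩
  obtain ⟨c2, hc2⟩ : ∃ x, x = ct T z (T.nxt d) := ⟨_, rfl⟩
  obtain ⟨c3, hc3⟩ : ∃ x, x = ct T z (T.nxt (T.nxt d)) := ⟨_, rfl⟩
  rw [← hq', ← hc2, ← hc3] at n1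
  rw [← hq', ← hc1, ← hc3] at n2
  rw [← hq', ← hc1, ← hc2] at n3
  rw [← hc1, ← hc2, ← hc3] at hm
  rw [← hc1] at hc
  rw [← hq'] at hq hqa
  have hL : (16000 : ℝ) ≤ Lc0 (Fintype.card D) := by
    have : 16000 ≤ Lc0 (Fintype.card D) := by
      unfold Lc0
      have h4 : 1 ≤ 4 ^ Fintype.card D := Nat.one_le_pow _ _ (by norm_num)
      rw [pow_add]
      omega
    exact_mod_cast this
  have hsum : 48000 ≤ c2 + c3 := by
    have e1 : 16000 * area T z ≤ nq (z d) := (mul_le_mul_of_nonneg_right hL hA.le).trans hd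
    have e2 : q * 48000 ≤ q * (c2 + c3) := by
      rw [← n1]
      linarith
    exact le_of_mul_le_mul_left e2 hq
  obtain ⟨a1, a2⟩ := abs_le.1 hc
  unfold Short
  rw [← hq', n1, n2, n3]
  rcases le_total c3 c2 with h23 | h23
  · left
    have h3 := C1_small hc (by linarith : 20000 ≤ c2) hm
    obtain ⟨b1, b2⟩ := abs_le.1 h3
    constructor
    · have e1 : q * (c2 + c3) * (q * (c3 + c1)) = q ^ 2 * (1 + c3 ^ 2) := by
        linear_combination q ^ 2 * hm
      rw [e1]
      have e2 : c3 ^ 2 ≤ 0.2 ^ 2 := sq_le_sq' b1 b2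
      have e3 : 0 ≤ q ^ 2 := by positivity
      nlinarith
    · have : q * (c3 - c1) ≤ q * 0.4 := mul_le_mul_of_nonneg_left (by linarith) hq.le
      linarith
  · right
    have hm' : c1 * c3 + c3 * c2 + c2 * c1 = 1 := by linarith
    have h3 := C1_small hc (by linarith : 20000 ≤ c3) hm'
    obtain ⟨b1, b2⟩ := abs_le.1 h3
    constructor
    · have e1 : q * (c2 + c3) * (q * (c1 + c2)) = q ^ 2 * (1 + c2 ^ 2) := by
        linear_combination q ^ 2 * hm
      rw [e1]
      have e2 : c2 ^ 2 ≤ 0.2 ^ 2 := sq_le_sq' b1 b2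
      have e3 : 0 ≤ q ^ 2 := by positivity
      nlinarith
    · have : q * (c2 - c1) ≤ q * 0.4 := mul_le_mul_of_nonneg_left (by linarith) hq.le
      linarith

end Pool.Veech
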