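import Pool.Agent.Lib.MP_fceebd_gt.C1

/-! # Row C2: closed strips -/

set_option autoImplicit false

namespace Pool.Veech

variable {D : Type} [Fintype D] [DecidableEq D] {T : Tri D} {z : D → Vec}

/-- a short side is not long -/
private theorem C2_short (h : NearD T z) {d s e : D} (hs : Short T z d s e)
    (hd : (Lc0 (Fintype.card D) : ℝ) * area T z ≤ nq (z d))
    (hl : (Lc0 (Fintype.card D) : ℝ) * area T z ≤ nq (z s)) : False := by
  have hq := h.geo.pos d
  have hqa := h.geo.cr_le_area d
  have hL : (1000 : ℝ) ≤ (Lc0 (Fintype.card D) : ℝ) := by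
    have : 1000 ≤ Lc0 (Fintype.card D) := by
      unfold Lc0
      have : 0 < 4 ^ (Fintype.card D + 2) := by positivity
      nlinarith
    exact_mod_cast this
  set q := cr (z d) (z (T.nxt d)) with hqd
  have h1 : 3000 * q ≤ nq (z d) := by nlinarith
  have h2 : 3000 * q ≤ nq (z s) := by nlinarith
  have h3 := hs.1
  have h4 : (3000 * q) * (3000 * q) ≤ nq (z d) * nq (z s) :=
    mul_le_mul h1 h2 (by positivity) (by linarith)
  nlinarith [mul_pos hq hq]

private theorem C2_nq_opp (h : NearD T z) (d : D) : nq (z (T.opp d)) = nq (z d) := by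
  have h1 := h.geo.coc.glue d
  rw [h1]
  simp [nq, ip]

open Classical in
/-- the step -/
private noncomputable def C2_step (T : Tri D) (z : D → Vec) (d : D) : D :=
  if Short T z d (T.nxt d) (T.nxt (T.nxt d)) then T.opp (T.nxt (T.nxt d)) else T.opp (T.nxt d)

private theorem C2_step_spec (h : NearD T z) {d : D}
    (hd : (Lc0 (Fintype.card D) : ℝ) * area T z ≤ nq (z d)) :
    (C2_step T z d = T.opp (T.nxt (T.nxt d)) ∧ Short T z d (T.nxt d) (T.nxt (T.nxt d))) ∨
      (C2_step T z d = T.opp (T.nxt d) ∧ Short T z d (T.nxt (T.nxt d)) (T.nxt d)) := by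
  unfold C2_step
  split_ifs with h1
  · exact Or.inl ⟨rfl, h1⟩
  · exact Or.inr ⟨rfl, (h.short_or hd).resolve_left h1⟩

private theorem C2_step_nq (h : NearD T z) {d : D}
    (hd : (Lc0 (Fintype.card D) : ℝ) * area T z ≤ nq (z d)) :
    nq (z d) - area T z ≤ nq (z (C2_step T z d)) := by
  have hq := h.geo.pos d
  have hqa := h.geo.cr_le_area d
  rcases C2_step_spec h hd with ⟨h1, h2⟩ | ⟨h1, h2⟩
  · rw [h1, C2_nq_opp h]
    have := h2.2
    linarith
  · rw [h1, C2_nq_opp h]
    have := h2.2
    linarith

private theorem C2_step_inj (h : NearD T z) {d d' : D}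
    (hd : (Lc0 (Fintype.card D) : ℝ) * area T z ≤ nq (z d))
    (hd' : (Lc0 (Fintype.card D) : ℝ) * area T z ≤ nq (z d'))
    (he : C2_step T z d = C2_step T z d') : d = d' := by
  rcases C2_step_spec h hd with ⟨h1, h2⟩ | ⟨h1, h2⟩ <;>
    rcases C2_step_spec h hd' with ⟨h3, h4⟩ | ⟨h3, h4⟩
  · rw [h1, h3] at he
    exact T.nxt.injective (T.nxt.injective (T.opp.injective he))
  · rw [h1, h3] at he
    have h5 : T.nxt d = d' := T.nxt.injective (T.opp.injective he)
    rw [h5] at h2
    exact (C2_short h h2 hd hd').elim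
  · rw [h1, h3] at he
    have h5 : d = T.nxt d' := T.nxt.injective (T.opp.injective he)
    rw [← h5] at h4
    exact (C2_short h h4 hd' hd).elim
  · rw [h1, h3] at he
    exact T.nxt.injective (T.opp.injective he)

/-- From a long dart `d` step to `opp e` where `e` is the other long side of the triangle of `d`. The
length of `e` is at least the length of `d` minus `0.4 q`, so that the step maps the darts with
`nq ≥ (Lc0 + j + 1) area` to those with `nq ≥ (Lc0 + j) area`. It is injective on the darts with
`nq ≥ Lc0 area`: the dart `e` determines `d` (the other long side of its triangle). For some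
`j ≤ card D` the two sets agree, so that the step is a permutation of this set. -/
theorem NearD.exists_strip (h : NearD T z) {d₀ : D}
    (hd : (Lc (Fintype.card D) : ℝ) * area T z ≤ nq (z d₀)) :
    ∃ (n : ℕ) (d : ℕ → D), 0 < n ∧ (∀ k, d (k + n) = d k) ∧
      (∀ j k, j < n → k < n → d j = d k → j = k) ∧
      (∀ k, (Lc0 (Fintype.card D) : ℝ) * area T z ≤ nq (z (d k))) ∧
      ∀ k, (d (k + 1) = T.opp (T.nxt (T.nxt (d k))) ∧
          Short T z (d k) (T.nxt (d k)) (T.nxt (T.nxt (d k)))) ∨
        (d (k + 1) = T.opp (T.nxt (d k)) ∧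
          Short T z (d k) (T.nxt (T.nxt (d k))) (T.nxt (d k))) := by
  classical
  have hA : 0 ≤ area T z := by
    have h1 := h.geo.cr_le_area d₀
    have h2 := h.geo.pos d₀
    linarith
  set N := Fintype.card D with hN
  let S : ℕ → Finset D := fun j =>
    Finset.univ.filter fun d => ((Lc0 N + j : ℕ) : ℝ) * area T z ≤ nq (z d)
  have hS : ∀ j d, d ∈ S j ↔ ((Lc0 N + j : ℕ) : ℝ) * area T z ≤ nq (z d) := fun j d => by
    simp only [S, Finset.mem_filter, Finset.mem_univ, true_and]
  have hanti : ∀ i j, i ≤ j → S j ⊆ S i := by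
    intro i j hij d hd
    rw [hS] at hd ⊢
    refine le_trans ?_ hd
    refine mul_le_mul_of_nonneg_right ?_ hA
    exact_mod_cast (by omega : Lc0 N + i ≤ Lc0 N + j)
  have hd₀ : d₀ ∈ S (N + 1) := by
    rw [hS]
    exact hd
  -- two consecutive sets agree
  obtain ⟨j, hj, hSj⟩ : ∃ j ≤ N, S j = S (j + 1) := by
    by_contra hcon
    push Not at hcon
    have h1 : ∀ j ≤ N + 1, (S j).card + j ≤ N := by
      intro j
      induction j with
      | zero =>
        intro _
        exact Finset.card_le_univ _
      | succ j ih =>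
        intro hj
        have h2 := ih (by omega)
        have h3 : S (j + 1) ⊂ S j :=
          lt_of_le_of_ne (hanti j (j + 1) (by omega)) (fun h => hcon j (by omega) h.symm)
        have h4 := Finset.card_lt_card h3
        omega
    have h2 := h1 (N + 1) le_rfl
    omega
  have hlong : ∀ d ∈ S j, (Lc0 N : ℝ) * area T z ≤ nq (z d) := by
    intro d hd
    have := hanti 0 j (Nat.zero_le _) hd
    rw [hS] at this
    simpa using this
  have hmap : ∀ d ∈ S j, C2_step T z d ∈ S j := by
    intro d hd
    have h1 := C2_step_nq h (hlong d hd)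
    rw [hSj, hS] at hd
    rw [hS]
    push_cast at hd ⊢
    linarith
  have hd₀j : d₀ ∈ S j := hanti j (N + 1) (by omega) hd₀
  have hit : ∀ k, (C2_step T z)^[k] d₀ ∈ S j := by
    intro k
    induction k with
    | zero => exact hd₀j
    | succ k ih =>
      rw [Function.iterate_succ_apply']
      exact hmap _ ih
  have hcancel : ∀ a b, (C2_step T z)^[a] d₀ = (C2_step T z)^[a + b] d₀ →
      (C2_step T z)^[b] d₀ = d₀ := by
    intro a
    induction a with
    | zero =>
      intro b hb
      rw [Nat.zero_add] at hb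
      exact hb.symm
    | succ a ih =>
      intro b hb
      refine ih b ?_
      have h1 : a + 1 + b = (a + b) + 1 := by omega
      rw [h1, Function.iterate_succ_apply', Function.iterate_succ_apply'] at hb
      exact C2_step_inj h (hlong _ (hit a)) (hlong _ (hit (a + b))) hb
  have hper : d₀ ∈ Function.periodicPts (C2_step T z) := by
    obtain ⟨a, b, hab, he⟩ := Finite.exists_ne_map_eq_of_infinite
      (fun k : ℕ => (C2_step T z)^[k] d₀)
    rcases lt_or_gt_of_ne hab with h1 | h1
    · refine ⟨b - a, by omega, hcancel a (b - a) ?_⟩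
      rw [show a + (b - a) = b by omega]
      exact he
    · refine ⟨a - b, by omega, hcancel b (a - b) ?_⟩
      rw [show b + (a - b) = a by omega]
      exact he.symm
  refine ⟨Function.minimalPeriod (C2_step T z) d₀, fun k => (C2_step T z)^[k] d₀,
    Function.minimalPeriod_pos_of_mem_periodicPts hper, ?_, ?_, ?_, ?_⟩
  · intro k
    show (C2_step T z)^[k + _] d₀ = _
    rw [Function.iterate_add_apply, Function.iterate_minimalPeriod]
  · intro a b ha hb he
    exact Function.iterate_injOn_Iio_minimalPeriod ha hb he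
  · intro k
    exact hlong _ (hit k)
  · intro k
    have h1 := C2_step_spec h (hlong _ (hit k))
    show ((C2_step T z)^[k + 1] d₀ = _ ∧ _) ∨ ((C2_step T z)^[k + 1] d₀ = _ ∧ _)
    rw [Function.iterate_succ_apply']
    exact h1

end Pool.Veech
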