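import Pool.Agent.Lib.MP_fceebd_gt.A3a

/-! # Definitions: cylinders -/

set_option autoImplicit false

namespace Pool.Veech

variable {D : Type}

/-- `top k`: the short side of the triangle between `d k` and `d (k + 1)` is at the top. -/
def Top (T : Tri D) (d : ℕ → D) (k : ℕ) : Prop := d (k + 1) = T.opp (T.nxt (T.nxt (d k)))

open Classical in
/-- The height of the origin of `d k` (in direction `c`), where the origin of `d 0` has
height `0`. -/
noncomputable def bot (T : Tri D) (z : D → Vec) (d : ℕ → D) (c : Vec) : ℕ → ℝ
  | 0 => 0
  | k + 1 => if Top T d k then bot T z d c k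
      else bot T z d c k - cr (z (T.nxt (T.nxt (d k)))) c

open Classical in
/-- A closed strip of triangles with upward darts `d 0, ..., d (n - 1)`, core vector `c` (to the
left), which contains a cylinder of height `α` (measured by `cr _ c`). The triangle of `d k` is
left of `d k`. -/
structure Strip (T : Tri D) (z : D → Vec) (n : ℕ) (d : ℕ → D) (c : Vec) (α : ℝ) : Prop where
  pos : 0 < n
  per : ∀ k, d (k + n) = d k
  inj : ∀ j k, j < n → k < n → d j = d k → j = k
  step : ∀ k, d (k + 1) = T.opp (T.nxt (T.nxt (d k))) ∨ d (k + 1) = T.opp (T.nxt (d k))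
  core : c = ∑ k ∈ Finset.range n, if Top T d k then z (T.nxt (d k)) else 0
  up : ∀ k, 0 < cr (z (d k)) c
  apos : 0 < α
  gap : ∀ j k, bot T z d c j + α ≤ bot T z d c k + cr (z (d k)) c

open Classical in
/-- The crossing number with the core curve of a strip. -/
noncomputable def crs (T : Tri D) (n : ℕ) (d : ℕ → D) (e : D) : ℤ :=
  ∑ k ∈ Finset.range n, ((if e = d k then 1 else 0) - if T.opp e = d k then 1 else 0)

/-- `i` is the cocycle of the crossing numbers with the core curve of a cylinder with core vector `c`
and with area `α`. The bound says that each edge vector of each triangulation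
which crosses the cylinder `k` times has height at least `k` times the height of the cylinder. -/
structure IsCyl [Fintype D] [DecidableEq D] (T : Tri D) (z : D → Vec) (i : D → ℤ) (c : Vec)
    (α : ℝ) : Prop where
  coc : IsCoc T i
  form_eq : ∀ j, form T (fun e => (i e : ℝ)) (fun e => z e j) = 6 * c j
  cne : c ≠ 0
  apos : 0 < α
  bound : ∀ T' m, GPath T z T' m → ∀ e,
    0 ≤ ((app m i e : ℤ) : ℝ) * cr (app m z e) c ∧
      α * |((app m i e : ℤ) : ℝ)| ≤ |cr (app m z e) c|

/-- Height functions which are invariant in a direction. `y` are the heights of the darts,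
`G d h` is the measure of the part below the height `h` of the triangle of `d` (heights are
relative to the origin of `d`). -/
structure HtData (T : Tri D) (y : D → ℝ) (G : D → ℝ → ℝ) : Prop where
  zero : ∀ d, G d 0 = 0
  mono : ∀ d s t, s ≤ t → 0 ≤ G d t - G d s ∧ G d t - G d s ≤ t - s
  nxt : ∀ d s, G (T.nxt d) s = G d (y d + s) - G d (y d)
  opp : ∀ d s, min 0 (y d) ≤ s → s ≤ max 0 (y d) → G (T.opp d) (s - y d) = G d s - G d (y d)

end Pool.Veech
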