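import Pool.Agent.Lib.MP_fceebd_gt.D0

/-! # Row D1: height functions are transported by flips.
Let the flip be at `a`, from `p` to `q`, let `r` and `s` be the other vertices of the triangles of `a`
and of `opp a`. Heights are relative to `p`. `G a` (relative to `p`, on the range of the heights of
the triangle `p q r`) and `G (nxt (opp a))` (relative to `p`, on the range of the triangle `q p s`)
agree on the range of `a`, and the intersection of the two (closed) ranges is the range of `a` by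
convexity: `q3 y(q) = q1 y(s) + q2 y(r)`, `q3 < q1 + q2`. So they define a function on the range of
the quadrilateral; extend it to `ℝ` by constants (clamp the argument). This is the new `G` for
the two new triangles. -/

set_option autoImplicit false
set_option linter.unusedSectionVars false

namespace Pool.Veech

variable {D : Type} [Fintype D] [DecidableEq D]

/-- nondecreasing and 1-Lipschitz -/
private def ML (f : ℝ → ℝ) : Prop := ∀ s t, s ≤ t → 0 ≤ f t - f s ∧ f t - f s ≤ t - s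

private lemma ML.shift {f : ℝ → ℝ} (h : ML f) (x : ℝ) : ML (fun t => f (x + t) - f x) := by
  intro s t hst
  have h1 := h (x + s) (x + t) (by linarith)
  exact ⟨by linarith [h1.1], by linarith [h1.2]⟩

private lemma ML.glueT {f g : ℝ → ℝ} (hf : ML f) (hg : ML g) (u : ℝ) (h : f u = g u) :
    ML (fun t => if u < t then g t else f t) := by
  intro s t hst
  dsimp only
  split_ifs with h1 h2 h2
  · exact hg s t hst
  · have h3 := hg u t h1.le
    have h4 := hf s u (not_lt.1 h2)
    exact ⟨by linarith [h3.1, h4.1], by linarith [h3.2, h4.2]⟩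
  · exact absurd (h2.trans_le hst) h1
  · exact hf s t hst

private lemma ML.glueB {f g : ℝ → ℝ} (hf : ML f) (hg : ML g) (l : ℝ) (h : f l = g l) :
    ML (fun t => if t < l then g t else f t) := by
  intro s t hst
  dsimp only
  split_ifs with h1 h2 h2
  · exact hg s t hst
  · exact absurd (hst.trans_lt h1) h2
  · have h3 := hg s l h2.le
    have h4 := hf l t (not_lt.1 h1)
    exact ⟨by linarith [h3.1, h4.1], by linarith [h3.2, h4.2]⟩
  · exact hf s t hst

/-- Two functions which agree on `[l, u]` are glued. -/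
private lemma exists_glue {g1 g2 : ℝ → ℝ} (h1 : ML g1) (h2 : ML g2) {l u r s : ℝ} (hlu : l ≤ u)
    (heq : ∀ t, l ≤ t → t ≤ u → g1 t = g2 t) (hT : u < r → s ≤ u) (hB : r < l → l ≤ s) :
    ∃ g, ML g ∧ (∀ t, min l r ≤ t → t ≤ max u r → g t = g1 t) ∧
      (∀ t, min l s ≤ t → t ≤ max u s → g t = g2 t) := by
  classical
  -- the top
  obtain ⟨f, hf, hfm, hf1, hf2⟩ : ∃ f, ML f ∧ (∀ t, t ≤ u → f t = g1 t) ∧
      (∀ t, t ≤ max u r → f t = g1 t) ∧ (∀ t, l ≤ t → t ≤ max u s → f t = g2 t) := by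
    by_cases hur : u < r
    · refine ⟨g1, h1, fun t _ => rfl, fun t _ => rfl, fun t ht ht' => ?_⟩
      rw [max_eq_left (hT hur)] at ht'
      exact heq t ht ht'
    · refine ⟨fun t => if u < t then g2 t else g1 t, h1.glueT h2 u (heq u hlu le_rfl),
        fun t ht => if_neg (not_lt.2 ht), fun t ht => if_neg (not_lt.2 ?_), fun t ht ht' => ?_⟩
      · rwa [max_eq_left (not_lt.1 hur)] at ht
      · dsimp only
        split_ifs with h3
        · rfl
        · exact heq t ht (not_lt.1 h3)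
  by_cases hrl : r < l
  · refine ⟨f, hf, fun t _ ht => hf1 t ht, fun t ht ht' => hf2 t ?_ ht'⟩
    rwa [min_eq_left (hB hrl)] at ht
  · refine ⟨fun t => if t < l then g2 t else f t, hf.glueB h2 l (hf2 l le_rfl
      (hlu.trans (le_max_left _ _))), fun t ht ht' => ?_, fun t ht ht' => ?_⟩
    · rw [min_eq_left (not_lt.1 hrl)] at ht
      dsimp only
      rw [if_neg (not_lt.2 ht)]
      exact hf1 t ht'
    · dsimp only
      split_ifs with h3
      · rfl
      · exact hf2 t (not_lt.1 h3) ht'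

/-- the height of the third vertex -/
private lemma ht_r {T : Tri D} {y : D → ℝ} {G : D → ℝ → ℝ} (hy : IsCoc T y) (hG : HtData T y G)
    (b : D) (s : ℝ) : G (T.nxt (T.nxt b)) s =
      G b (-y (T.nxt (T.nxt b)) + s) - G b (-y (T.nxt (T.nxt b))) := by
  have h1 := hy.closed b
  rw [hG.nxt (T.nxt b) s, hG.nxt b, hG.nxt b]
  have e1 : y b + (y (T.nxt b) + s) = -y (T.nxt (T.nxt b)) + s := by linarith
  have e2 : y b + y (T.nxt b) = -y (T.nxt (T.nxt b)) := by linarith
  rw [e1, e2]
  ring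

/-- the height function of the second triangle relative to the origin of `b` -/
private lemma ht_s {T : Tri D} {y : D → ℝ} {G : D → ℝ → ℝ} (hy : IsCoc T y) (hG : HtData T y G)
    (b : D) (s : ℝ) : G (T.nxt (T.opp b)) s = G (T.opp b) (s - y b) - G (T.opp b) (-y b) := by
  rw [hG.nxt (T.opp b) s, hy.glue b]
  congr 2
  ring

private lemma ht_eq {T : Tri D} {y : D → ℝ} {G : D → ℝ → ℝ} (hy : IsCoc T y) (hG : HtData T y G)
    (b : D) (t : ℝ) (h1 : min 0 (y b) ≤ t) (h2 : t ≤ max 0 (y b)) :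
    G b t = G (T.nxt (T.opp b)) t := by
  rw [ht_s hy hG, hG.opp b t h1 h2]
  have h3 := hG.opp b 0 (min_le_left _ _) (le_max_left _ _)
  rw [zero_sub, hG.zero] at h3
  rw [h3]
  ring

/-- convexity -/
private lemma convex_ht {T T' : Tri D} {z : D → Vec} {a : D} (c : Vec) (h : Geo T z)
    (hf : T.IsFlip T' a) (h' : Geo T' (T.flipF a z)) {b : D} (hb : T.Diag a b) :
    ∃ A B C : ℝ, 0 < A ∧ 0 < B ∧ 0 < C ∧ C < A + B ∧
      C * cr (z b) c = A * cr (z (T.nxt (T.opp b))) c +
        B * (-cr (z (T.nxt (T.nxt b))) c) := by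
  have hob : T.Diag a (T.opp b) := by
    rcases hb with rfl | rfl | rfl | rfl
    · exact Or.inr (Or.inl rfl)
    · exact Or.inl (T.opp2 _)
    · exact Or.inr (Or.inr (Or.inr (T.tau_opp _).symm))
    · refine Or.inr (Or.inr (Or.inl ?_))
      rw [← T.tau_opp, T.opp2]
  have n1 := h.not_diag_nxt hb
  have n2 := h.not_diag_nxt hob
  have hflip : ∀ d, ¬ T.Diag a d → T.flipF a z d = z d := fun d hd => if_neg hd
  have p1 := h'.pos (T.nxt (T.nxt b))
  rw [hf.nxt2 b hb, hflip _ n1.2, hflip _ n2.1] at p1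
  have p2 := h'.pos (T.nxt (T.nxt (T.opp b)))
  rw [hf.nxt2 _ hob, T.opp2, hflip _ n2.2, hflip _ n1.1] at p2
  have p3 := h.pos b
  have p4 := h.pos (T.opp b)
  have c1 := h.coc.closed b
  have c2 := h.coc.closed (T.opp b)
  have c3 := h.coc.glue b
  have c1x := congrFun c1 0
  have c1y := congrFun c1 1
  have c2x := congrFun c2 0
  have c2y := congrFun c2 1
  have c3x := congrFun c3 0
  have c3y := congrFun c3 1
  simp only [Pi.add_apply, Pi.zero_apply, Pi.neg_apply] at c1x c1y c2x c2y c3x c3y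
  have e1 : z (T.nxt b) 0 = -z b 0 - z (T.nxt (T.nxt b)) 0 := by linarith
  have e2 : z (T.nxt b) 1 = -z b 1 - z (T.nxt (T.nxt b)) 1 := by linarith
  have e3 : z (T.nxt (T.nxt (T.opp b))) 0 = z b 0 - z (T.nxt (T.opp b)) 0 := by linarith
  have e4 : z (T.nxt (T.nxt (T.opp b))) 1 = z b 1 - z (T.nxt (T.opp b)) 1 := by linarith
  simp only [cr] at p1 p2 p3 p4 ⊢
  rw [e1, e2] at p3
  rw [e1, e2, e3, e4] at p2
  rw [c3x, c3y] at p4
  refine ⟨z b 0 * (-z (T.nxt (T.nxt b)) 1) - z b 1 * (-z (T.nxt (T.nxt b)) 0),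
    z (T.nxt (T.opp b)) 0 * z b 1 - z (T.nxt (T.opp b)) 1 * z b 0,
    z (T.nxt (T.opp b)) 0 * (-z (T.nxt (T.nxt b)) 1) -
      z (T.nxt (T.opp b)) 1 * (-z (T.nxt (T.nxt b)) 0), ?_, ?_, ?_, ?_, ?_⟩
  · nlinarith
  · nlinarith
  · nlinarith
  · nlinarith
  · ring

private lemma cr_coc {T : Tri D} {z : D → Vec} (h : IsCoc T z) (c : Vec) :
    IsCoc T (fun e => cr (z e) c) := by
  refine ⟨fun d => ?_, fun d => ?_⟩
  · have h0 := congrFun (h.closed d) 0
    have h1 := congrFun (h.closed d) 1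
    simp only [Pi.add_apply, Pi.zero_apply] at h0 h1
    simp only [cr]
    have e0 : z (T.nxt (T.nxt d)) 0 = -z d 0 - z (T.nxt d) 0 := by linarith
    have e1 : z (T.nxt (T.nxt d)) 1 = -z d 1 - z (T.nxt d) 1 := by linarith
    rw [e0, e1]
    ring
  · have h0 := congrFun (h.glue d) 0
    have h1 := congrFun (h.glue d) 1
    simp only [Pi.neg_apply] at h0 h1
    simp only [cr]
    rw [h0, h1]
    ring

private def oj : Fin 4 → Fin 4 := ![1, 0, 3, 2]

private lemma oj_oj (j : Fin 4) : oj (oj j) = j := by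
  fin_cases j <;> rfl

private lemma dg_opp (T : Tri D) (a : D) (j : Fin 4) : T.dg a (oj j) = T.opp (T.dg a j) := by
  fin_cases j
  · rfl
  · exact (T.opp2 a).symm
  · exact T.tau_opp a
  · show T.tau a = T.opp (T.tau (T.opp a))
    rw [← T.tau_opp, T.opp2]

private lemma near_nxt {T : Tri D} {a d : D} (h : T.Near a d) : T.Near a (T.nxt d) := by
  obtain ⟨b, hb, h1⟩ := h
  refine ⟨b, hb, ?_⟩
  rcases h1 with rfl | rfl | rfl
  · exact Or.inr (Or.inl rfl)
  · exact Or.inr (Or.inr rfl)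
  · exact Or.inl (T.nxt3 b)

private lemma diag_near {T : Tri D} {a d : D} (h : T.Diag a d) : T.Near a d :=
  ⟨d, by simpa [Tri.Diag] using h, Or.inl rfl⟩

private lemma diag_opp {T : Tri D} {a b : D} (hb : T.Diag a b) : T.Diag a (T.opp b) := by
  rcases hb with rfl | rfl | rfl | rfl
  · exact Or.inr (Or.inl rfl)
  · exact Or.inl (T.opp2 _)
  · exact Or.inr (Or.inr (Or.inr (T.tau_opp _).symm))
  · refine Or.inr (Or.inr (Or.inl ?_))
    rw [← T.tau_opp, T.opp2]

theorem HtData.flip {T T' : Tri D} {z : D → Vec} {a : D} {c : Vec} {G : D → ℝ → ℝ}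
    (h : Geo T z) (hf : T.IsFlip T' a) (h' : Geo T' (T.flipF a z))
    (hG : HtData T (fun e => cr (z e) c) G) :
    ∃ G', HtData T' (fun e => cr (T.flipF a z e) c) G' ∧
      (fun e => G' e (cr (T.flipF a z e) c)) = T.flipF a (fun e => G e (cr (z e) c)) := by
  classical
  have hconv : ∀ b, T.Diag a b → _ := fun b hb => convex_ht c h hf h' hb
  have hyc := cr_coc h.coc c
  have hy' : (fun e => cr (T.flipF a z e) c) = T.flipF a (fun e => cr (z e) c) := by
    funext e
    unfold Tri.flipF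
    by_cases hd : T.Diag a e
    · simp only [if_pos hd, cr, Pi.sub_apply, Pi.neg_apply]
      ring
    · simp only [if_neg hd]
  have hy'' : (fun G' : D → ℝ → ℝ => fun e => G' e (cr (T.flipF a z e) c)) =
      fun G' e => G' e (T.flipF a (fun e => cr (z e) c) e) := by
    funext G' e
    rw [← hy']
  suffices hmain : ∃ G', HtData T' (T.flipF a (fun e => cr (z e) c)) G' ∧
      (fun e => G' e (T.flipF a (fun e => cr (z e) c) e)) =
        T.flipF a (fun e => G e (cr (z e) c)) by
    obtain ⟨G', h1, h2⟩ := hmain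
    refine ⟨G', ?_, ?_⟩
    · rw [hy']
      exact h1
    · rw [← h2]
      exact congrFun hy'' G'
  obtain ⟨y, hydef⟩ : ∃ y : D → ℝ, y = fun e => cr (z e) c := ⟨_, rfl⟩
  have hyv : ∀ e, cr (z e) c = y e := fun e => by rw [hydef]
  rw [← hydef] at hG hyc ⊢
  simp only [hyv] at hconv ⊢
  have hndg : ∀ j, T.Diag a (T.dg a j) := fun j => (T.diag_iff a _).2 ⟨j, rfl⟩
  have hnr : ∀ j, T.nr a (j, 0) = T.dg a j ∧ T.nr a (j, 1) = T.nxt (T.dg a j) ∧
      T.nr a (j, 2) = T.nxt (T.nxt (T.dg a j)) := fun j => ⟨rfl, rfl, rfl⟩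
  -- the glued functions
  have hg : ∀ j : Fin 4, ∃ g, ML g ∧
      (∀ t, min (min 0 (y (T.dg a j))) (-y (T.nxt (T.nxt (T.dg a j)))) ≤ t →
        t ≤ max (max 0 (y (T.dg a j))) (-y (T.nxt (T.nxt (T.dg a j)))) →
          g t = G (T.dg a j) t) ∧
      (∀ t, min (min 0 (y (T.dg a j))) (y (T.nxt (T.opp (T.dg a j)))) ≤ t →
        t ≤ max (max 0 (y (T.dg a j))) (y (T.nxt (T.opp (T.dg a j)))) →
          g t = G (T.nxt (T.opp (T.dg a j))) t) := by
    intro j
    obtain ⟨A, B, C, hA, hB, hC, hlt, heq⟩ := hconv _ (hndg j)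
    refine exists_glue (hG.mono _) (hG.mono _) (le_trans (min_le_left _ _) (le_max_left _ _))
      (fun t h1 h2 => ht_eq hyc hG _ t h1 h2) ?_ ?_
    · intro h1
      by_contra h2
      rw [not_le] at h2
      have h3 := le_max_left 0 (y (T.dg a j))
      have h4 := le_max_right 0 (y (T.dg a j))
      nlinarith [mul_lt_mul_of_pos_left h1 hB, mul_lt_mul_of_pos_left h2 hA,
        mul_le_mul_of_nonneg_left h4 hC.le, mul_nonneg (sub_nonneg.2 hlt.le) h3]
    · intro h1
      by_contra h2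
      rw [not_le] at h2
      have h3 := min_le_left 0 (y (T.dg a j))
      have h4 := min_le_right 0 (y (T.dg a j))
      nlinarith [mul_lt_mul_of_pos_left h1 hB, mul_lt_mul_of_pos_left h2 hA,
        mul_le_mul_of_nonneg_left h4 hC.le, mul_nonneg (sub_nonneg.2 hlt.le) (neg_nonneg.2 h3)]
  choose g hgM hg1 hg2 using hg
  obtain ⟨F, hF0, hF1, hF2⟩ : ∃ F : Fin 4 × Fin 3 → ℝ → ℝ,
      (∀ j, F (j, 0) = fun t => g j (y (T.nxt (T.opp (T.dg a j))) + t) -
        g j (y (T.nxt (T.opp (T.dg a j))))) ∧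
      (∀ j, F (j, 1) = g (oj j)) ∧
      (∀ j, F (j, 2) = fun t => g j (-y (T.nxt (T.nxt (T.dg a j))) + t) -
        g j (-y (T.nxt (T.nxt (T.dg a j))))) :=
    ⟨fun p => ![fun t => g p.1 (y (T.nxt (T.opp (T.dg a p.1))) + t) -
        g p.1 (y (T.nxt (T.opp (T.dg a p.1)))), g (oj p.1),
        fun t => g p.1 (-y (T.nxt (T.nxt (T.dg a p.1))) + t) -
        g p.1 (-y (T.nxt (T.nxt (T.dg a p.1))))] p.2, fun _ => rfl, fun _ => rfl, fun _ => rfl⟩
  obtain ⟨G', hG'⟩ : ∃ G' : D → ℝ → ℝ, G' = Function.extend (T.nr a) F G := ⟨_, rfl⟩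
  have hinj := h.nr_injective a
  have hG0 : ∀ j, G' (T.dg a j) = F (j, 0) := fun j => by
    rw [hG', ← (hnr j).1, hinj.extend_apply]
  have hG1 : ∀ j, G' (T.nxt (T.dg a j)) = F (j, 1) := fun j => by
    rw [hG', ← (hnr j).2.1, hinj.extend_apply]
  have hG2 : ∀ j, G' (T.nxt (T.nxt (T.dg a j))) = F (j, 2) := fun j => by
    rw [hG', ← (hnr j).2.2, hinj.extend_apply]
  have hGn : ∀ d, ¬ T.Near a d → G' d = G d := fun d hd => by
    rw [hG', Function.extend_apply']
    intro h1
    exact hd ((T.near_iff a d).2 h1)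
  -- cases
  have hcase : ∀ d, ¬ T.Near a d ∨ (∃ j, d = T.dg a j) ∨ (∃ j, d = T.nxt (T.dg a j)) ∨
      ∃ j, d = T.nxt (T.nxt (T.dg a j)) := by
    intro d
    by_cases hd : T.Near a d
    · obtain ⟨⟨j, k⟩, hjk⟩ := (T.near_iff a d).1 hd
      right
      fin_cases k
      · exact Or.inl ⟨j, hjk.symm⟩
      · exact Or.inr (Or.inl ⟨j, hjk.symm⟩)
      · exact Or.inr (Or.inr ⟨j, hjk.symm⟩)
    · exact Or.inl hd
  have hfd : ∀ j, T.flipF a y (T.dg a j) = -y (T.nxt (T.nxt (T.dg a j))) -
      y (T.nxt (T.opp (T.dg a j))) := fun j => if_pos (hndg j)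
  have hfn : ∀ d, ¬ T.Diag a d → T.flipF a y d = y d := fun d hd => if_neg hd
  have hn1 : ∀ j, ¬ T.Diag a (T.nxt (T.dg a j)) := fun j => (h.not_diag_nxt (hndg j)).1
  have hn2 : ∀ j, ¬ T.Diag a (T.nxt (T.nxt (T.dg a j))) := fun j => (h.not_diag_nxt (hndg j)).2
  have hsum : ∀ b, y (T.nxt b) = -y (T.nxt (T.nxt b)) - y b := fun b => by
    have h1 := hyc.closed b
    linarith
  have hg0 : ∀ j, g j 0 = 0 := fun j => by
    rw [hg1 j 0 (le_trans (min_le_left _ _) (min_le_left _ _))
      (le_trans (le_max_left _ _) (le_max_left _ _)), hG.zero]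
  -- the values on the other darts do not change
  have hkey : ∀ d, ¬ T.Diag a d → ∀ t, min 0 (y d) ≤ t → t ≤ max 0 (y d) → G' d t = G d t := by
    intro d hd t ht1 ht2
    rcases hcase d with h1 | ⟨j, rfl⟩ | ⟨j, rfl⟩ | ⟨j, rfl⟩
    · rw [hGn d h1]
    · exact absurd (hndg j) hd
    · have e1 : T.nxt (T.opp (T.dg a (oj j))) = T.nxt (T.dg a j) := by
        rw [dg_opp, T.opp2]
      have h2 := hg2 (oj j) t
      rw [e1] at h2
      rw [hG1, hF1]
      refine h2 ?_ ?_
      · refine le_trans (le_min ?_ ?_) ht1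
        · exact le_trans (min_le_left _ _) (min_le_left _ _)
        · exact min_le_right _ _
      · refine le_trans ht2 (max_le ?_ ?_)
        · exact le_trans (le_max_left _ _) (le_max_left _ _)
        · exact le_max_right _ _
    · rw [hG2, hF2, ht_r hyc hG]
      have h3 : min 0 (-y (T.nxt (T.nxt (T.dg a j)))) ≤ -y (T.nxt (T.nxt (T.dg a j))) + t := by
        rcases le_total 0 (y (T.nxt (T.nxt (T.dg a j)))) with h0 | h0
        · rw [min_eq_left h0] at ht1
          exact le_trans (min_le_right _ _) (by linarith)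
        · rw [min_eq_right h0] at ht1
          exact le_trans (min_le_left _ _) (by linarith)
      have h4 : -y (T.nxt (T.nxt (T.dg a j))) + t ≤ max 0 (-y (T.nxt (T.nxt (T.dg a j)))) := by
        rcases le_total 0 (y (T.nxt (T.nxt (T.dg a j)))) with h0 | h0
        · rw [max_eq_right h0] at ht2
          exact le_trans (by linarith) (le_max_left _ _)
        · rw [max_eq_left h0] at ht2
          exact le_trans (by linarith) (le_max_right _ _)
      dsimp only
      rw [hg1 j _ (le_trans (le_min (le_trans (min_le_left _ _) (min_le_left _ _))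
          (min_le_right _ _)) h3) (le_trans h4 (max_le (le_trans (le_max_left _ _)
          (le_max_left _ _)) (le_max_right _ _))), hg1 j _ (min_le_right _ _) (le_max_right _ _)]
  -- the functions at `b` and at `opp b`
  have hshift : ∀ j x, min (-y (T.nxt (T.nxt (T.dg a j)))) (y (T.nxt (T.opp (T.dg a j)))) ≤ x →
      x ≤ max (-y (T.nxt (T.nxt (T.dg a j)))) (y (T.nxt (T.opp (T.dg a j)))) →
      g (oj j) (x - y (T.dg a j)) = g j x - g j (y (T.dg a j)) := by
    intro j x hx1 hx2
    have e0 : T.dg a (oj j) = T.opp (T.dg a j) := dg_opp T a j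
    have e1 : T.opp (T.dg a (oj j)) = T.dg a j := by rw [e0, T.opp2]
    have e2 : y (T.dg a (oj j)) = -y (T.dg a j) := by rw [e0, hyc.glue]
    have e3 := hsum (T.dg a j)
    have e4 : -y (T.nxt (T.nxt (T.dg a (oj j)))) =
        y (T.nxt (T.opp (T.dg a j))) - y (T.dg a j) := by
      have h1 := hsum (T.dg a (oj j))
      rw [e2, e0] at h1
      rw [e0]
      linarith
    have a1 := hg1 (oj j) (x - y (T.dg a j))
    have a2 := hg2 (oj j) (x - y (T.dg a j))
    rw [e2, e4] at a1
    rw [e2, e1, e3] at a2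
    obtain ⟨l, hl⟩ : ∃ l, l = min 0 (y (T.dg a j)) := ⟨_, rfl⟩
    obtain ⟨u, hu⟩ : ∃ u, u = max 0 (y (T.dg a j)) := ⟨_, rfl⟩
    have hl' : min 0 (-y (T.dg a j)) = l - y (T.dg a j) := by
      rw [hl, ← min_sub_sub_right, sub_self, zero_sub, min_comm]
    have hu' : max 0 (-y (T.dg a j)) = u - y (T.dg a j) := by
      rw [hu, ← max_sub_sub_right, sub_self, zero_sub, max_comm]
    rw [hl', hu', min_sub_sub_right, max_sub_sub_right] at a1 a2
    have hly : l ≤ y (T.dg a j) := by rw [hl]; exact min_le_right _ _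
    have hyu : y (T.dg a j) ≤ u := by rw [hu]; exact le_max_right _ _
    by_cases hx : min l (-y (T.nxt (T.nxt (T.dg a j)))) ≤ x ∧
        x ≤ max u (-y (T.nxt (T.nxt (T.dg a j))))
    · rw [a2 (by linarith [hx.1]) (by linarith [hx.2])]
      have b1 := hg1 j x
      have b2 := hg1 j (y (T.dg a j))
      rw [← hl, ← hu] at b1 b2
      rw [b1 hx.1 hx.2, b2 ((min_le_left _ _).trans hly) (hyu.trans (le_max_left _ _)),
        hG.nxt]
      congr 2
      ring
    · have hx' : min l (y (T.nxt (T.opp (T.dg a j)))) ≤ x ∧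
          x ≤ max u (y (T.nxt (T.opp (T.dg a j)))) := by
        rw [not_and_or, not_le, not_le] at hx
        rcases hx with hx | hx
        · have h5 := lt_min_iff.1 hx
          refine ⟨le_trans (min_le_right _ _) ?_, le_trans h5.1.le ((hly.trans hyu).trans
            (le_max_left _ _))⟩
          rcases min_le_iff.1 hx1 with h6 | h6
          · exact absurd h5.2 (not_lt.2 h6)
          · exact h6
        · have h5 := max_lt_iff.1 hx
          refine ⟨le_trans (min_le_left _ _) ((hly.trans hyu).trans h5.1.le),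
            le_trans ?_ (le_max_right _ _)⟩
          rcases le_max_iff.1 hx2 with h6 | h6
          · exact absurd h5.2 (not_lt.2 h6)
          · exact h6
      rw [a1 (by linarith [hx'.1]) (by linarith [hx'.2])]
      have b1 := hg2 j x
      have b2 := hg2 j (y (T.dg a j))
      rw [← hl, ← hu] at b1 b2
      rw [b1 hx'.1 hx'.2, b2 ((min_le_left _ _).trans hly) (hyu.trans (le_max_left _ _)),
        ht_s hyc hG, ht_s hyc hG, sub_self, hG.zero, e0]
      ring
  refine ⟨G', ⟨?_, ?_, ?_, ?_⟩, ?_⟩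
  · -- zero
    intro d
    rcases hcase d with h1 | ⟨j, rfl⟩ | ⟨j, rfl⟩ | ⟨j, rfl⟩
    · rw [hGn d h1, hG.zero]
    · rw [hG0, hF0]
      dsimp only
      rw [add_zero, sub_self]
    · rw [hG1, hF1, hg0]
    · rw [hG2, hF2]
      dsimp only
      rw [add_zero, sub_self]
  · -- mono
    intro d
    rcases hcase d with h1 | ⟨j, rfl⟩ | ⟨j, rfl⟩ | ⟨j, rfl⟩
    · rw [hGn d h1]
      exact hG.mono d
    · rw [hG0, hF0]
      exact (hgM j).shift _
    · rw [hG1, hF1]
      exact hgM _
    · rw [hG2, hF2]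
      exact (hgM j).shift _
  · -- nxt
    intro d s
    rcases hcase d with h1 | ⟨j, rfl⟩ | ⟨j, rfl⟩ | ⟨j, rfl⟩
    · have h2 : ¬ T.Near a (T.nxt d) := fun h3 => h1 (by
        have h4 := near_nxt (near_nxt h3)
        rwa [T.nxt3] at h4)
      rw [hf.rest d h1, hGn d h1, hGn _ h2, hfn d (fun h3 => h1 (diag_near h3)), hG.nxt]
    · rw [hf.nxt1 _ (hndg j), hG2, hG0, hF0, hF2, hfd]
      dsimp only
      have e1 : y (T.nxt (T.opp (T.dg a j))) + (-y (T.nxt (T.nxt (T.dg a j))) -
          y (T.nxt (T.opp (T.dg a j))) + s) = -y (T.nxt (T.nxt (T.dg a j))) + s := by ring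
      have e2 : y (T.nxt (T.opp (T.dg a j))) + (-y (T.nxt (T.nxt (T.dg a j))) -
          y (T.nxt (T.opp (T.dg a j)))) = -y (T.nxt (T.nxt (T.dg a j))) := by ring
      rw [e1, e2]
      ring
    · rw [hf.nxt3 _ (hndg j), ← dg_opp, hG0, hG1, hF0, hF1, hfn _ (hn1 j)]
      dsimp only
      rw [dg_opp, T.opp2]
    · rw [hf.nxt2 _ (hndg j), ← dg_opp, hG1, hG2, hF1, hF2, oj_oj, hfn _ (hn2 j)]
      dsimp only
      have e1 : -y (T.nxt (T.nxt (T.dg a j))) + (y (T.nxt (T.nxt (T.dg a j))) + s) = s := by ring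
      have e2 : -y (T.nxt (T.nxt (T.dg a j))) + y (T.nxt (T.nxt (T.dg a j))) = 0 := by ring
      rw [e1, e2, hg0]
      ring
  · -- opp
    intro d s hs1 hs2
    rw [hf.opp]
    by_cases hd : T.Diag a d
    · obtain ⟨j, rfl⟩ := (T.diag_iff a d).1 hd
      rw [hfd] at hs1 hs2 ⊢
      rw [← dg_opp, hG0, hG0, hF0, hF0]
      dsimp only
      rw [dg_opp, T.opp2, hsum (T.dg a j)]
      obtain ⟨R, hR⟩ : ∃ R, R = -y (T.nxt (T.nxt (T.dg a j))) := ⟨_, rfl⟩
      obtain ⟨S, hS⟩ : ∃ S, S = y (T.nxt (T.opp (T.dg a j))) := ⟨_, rfl⟩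
      have hsh := hshift j
      rw [← hR, ← hS] at hs1 hs2 hsh ⊢
      have e1 : R - y (T.dg a j) + (s - (R - S)) = (S + s) - y (T.dg a j) := by ring
      have e2 : S + (R - S) = R := by ring
      rw [e1, e2, hsh R (min_le_left _ _) (le_max_left _ _), hsh (S + s) ?_ ?_]
      · ring
      · rcases le_total 0 (R - S) with h0 | h0
        · rw [min_eq_left h0] at hs1
          exact le_trans (min_le_right _ _) (by linarith)
        · rw [min_eq_right h0] at hs1
          exact le_trans (min_le_left _ _) (by linarith)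
      · rcases le_total 0 (R - S) with h0 | h0
        · rw [max_eq_right h0] at hs2
          exact le_trans (by linarith) (le_max_left _ _)
        · rw [max_eq_left h0] at hs2
          exact le_trans (by linarith) (le_max_right _ _)
    · have hod : ¬ T.Diag a (T.opp d) := fun h1 => hd (by
        have h2 := diag_opp h1
        rwa [T.opp2] at h2)
      rw [hfn d hd] at hs1 hs2 ⊢
      have h3 : min 0 (y (T.opp d)) ≤ s - y d ∧ s - y d ≤ max 0 (y (T.opp d)) := by
        rw [hyc.glue]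
        rcases le_total 0 (y d) with h0 | h0
        · rw [min_eq_left h0] at hs1
          rw [max_eq_right h0] at hs2
          exact ⟨le_trans (min_le_right _ _) (by linarith), le_trans (by linarith)
            (le_max_left _ _)⟩
        · rw [min_eq_right h0] at hs1
          rw [max_eq_left h0] at hs2
          exact ⟨le_trans (min_le_left _ _) (by linarith), le_trans (by linarith)
            (le_max_right _ _)⟩
      rw [hkey _ hod _ h3.1 h3.2, hkey d hd s hs1 hs2,
        hkey d hd (y d) (min_le_right _ _) (le_max_right _ _), hG.opp d s hs1 hs2]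
  · -- the values
    funext e
    by_cases hd : T.Diag a e
    · obtain ⟨j, rfl⟩ := (T.diag_iff a e).1 hd
      rw [hfd, hG0, hF0]
      unfold Tri.flipF
      rw [if_pos hd]
      dsimp only
      have e2 : y (T.nxt (T.opp (T.dg a j))) + (-y (T.nxt (T.nxt (T.dg a j))) -
          y (T.nxt (T.opp (T.dg a j)))) = -y (T.nxt (T.nxt (T.dg a j))) := by ring
      rw [e2, hg1 j _ (min_le_right _ _) (le_max_right _ _),
        hg2 j _ (min_le_right _ _) (le_max_right _ _), ht_r hyc hG]
      have e3 : -y (T.nxt (T.nxt (T.dg a j))) + y (T.nxt (T.nxt (T.dg a j))) = 0 := by ring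
      rw [e3, hG.zero]
      ring
    · rw [hfn e hd, hkey e hd _ (min_le_right _ _) (le_max_right _ _)]
      unfold Tri.flipF
      rw [if_neg hd]

theorem HtData.relab {T : Tri D} {y : D → ℝ} {G : D → ℝ → ℝ} (hG : HtData T y G)
    (e : Equiv.Perm D) :
    HtData (T.relab e) (fun d => y (e.symm d)) (fun d => G (e.symm d)) := by
  refine ⟨fun d => hG.zero _, fun d => hG.mono _, fun d s => ?_, fun d s hs1 hs2 => ?_⟩
  · show G (e.symm (e (T.nxt (e.symm d)))) s = _
    rw [Equiv.symm_apply_apply]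
    exact hG.nxt _ s
  · show G (e.symm (e (T.opp (e.symm d)))) _ = _
    rw [Equiv.symm_apply_apply]
    exact hG.opp _ s hs1 hs2

theorem HtData.coc {T : Tri D} {y : D → ℝ} {G : D → ℝ → ℝ} (hy : IsCoc T y)
    (hG : HtData T y G) : IsCoc T (fun e => G e (y e)) := by
  refine ⟨fun d => ?_, fun d => ?_⟩
  · have h1 := hy.closed d
    rw [ht_r hy hG d, hG.nxt d]
    have e1 : -y (T.nxt (T.nxt d)) + y (T.nxt (T.nxt d)) = 0 := by ring
    have e2 : y d + y (T.nxt d) = -y (T.nxt (T.nxt d)) := by linarith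
    rw [e1, e2, hG.zero]
    ring
  · have h3 := hG.opp d 0 (min_le_left _ _) (le_max_left _ _)
    rw [zero_sub, hG.zero] at h3
    rw [hy.glue, h3]
    ring

/-- the result of transport along a path -/
theorem HtData.path {T T' : Tri D} {z : D → Vec} {m : Matrix D D ℤ} {c : Vec} {G : D → ℝ → ℝ}
    (h : GPath T z T' m) (hG : HtData T (fun e => cr (z e) c) G) :
    ∃ G', HtData T' (fun e => cr (app m z e) c) G' ∧
      (fun e => G' e (cr (app m z e) c)) = app m (fun e => G e (cr (z e) c)) := by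
  induction h with
  | refl h =>
    refine ⟨G, ?_, ?_⟩
    · rw [app_one]
      exact hG
    · rw [app_one, app_one]
  | flip h hf hg ih =>
    obtain ⟨G1, h1, h2⟩ := ih
    obtain ⟨G2, h3, h4⟩ := HtData.flip h.geo hf hg h1
    refine ⟨G2, ?_, ?_⟩
    · rw [app_mul, app_flipM]
      exact h3
    · rw [app_mul, app_flipM, app_mul, app_flipM, ← h2]
      exact h4
  | relabel e h ih =>
    obtain ⟨G1, h1, h2⟩ := ih
    refine ⟨fun d => G1 (e.symm d), ?_, ?_⟩
    · rw [app_mul, app_permM]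
      exact h1.relab e
    · rw [app_mul, app_permM, app_mul, app_permM, ← h2]

/-- the conclusion which we need -/
theorem HtData.bound {T T' : Tri D} {z : D → Vec} {m : Matrix D D ℤ} {c : Vec} {G : D → ℝ → ℝ}
    (h : GPath T z T' m) (hG : HtData T (fun e => cr (z e) c) G) (e : D) :
    0 ≤ app m (fun e => G e (cr (z e) c)) e * cr (app m z e) c ∧
      |app m (fun e => G e (cr (z e) c)) e| ≤ |cr (app m z e) c| := by
  obtain ⟨G', h1, h2⟩ := hG.path h
  rw [← h2]
  dsimp only
  rcases le_total 0 (cr (app m z e) c) with h0 | h0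
  · have h3 := h1.mono e 0 _ h0
    rw [h1.zero, sub_zero, sub_zero] at h3
    exact ⟨mul_nonneg h3.1 h0, by rw [abs_of_nonneg h3.1, abs_of_nonneg h0]; exact h3.2⟩
  · have h3 := h1.mono e _ 0 h0
    rw [h1.zero, zero_sub, zero_sub] at h3
    exact ⟨mul_nonneg_of_nonpos_of_nonpos (by linarith [h3.1]) h0, by
      rw [abs_of_nonpos (by linarith [h3.1]), abs_of_nonpos h0]
      exact h3.2⟩

end Pool.Veech
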