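import Pool.Agent.Lib.MP_fceebd_gt.D1

/-! # Row D2: a strip gives a cylinder.
The strip of heights `[lo, hi]`, `lo = max bot`, `hi = min (bot + height)`, `hi - lo ≥ α`. For a triangle
of the strip with the dart `d k` let
`G (d k) t = clamp (t + bot k) - clamp (bot k)`, where `clamp` is the projection to `[lo, lo + α]`,
and similarly for the other two darts of the triangle by the rule `HtData.nxt`; for the other
triangles `G = 0`. On the short sides `G` vanishes since both ends are on the same side of the
strip. Then `G e (y e) = α * crs e`. -/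

set_option autoImplicit false
set_option linter.unusedSectionVars false

namespace Pool.Veech

variable {D : Type} [Fintype D] [DecidableEq D] {T : Tri D} {z : D → Vec} {n : ℕ} {d : ℕ → D}
  {c : Vec} {α : ℝ}

private theorem D2a_cr_neg (u c : Vec) : cr (-u) c = -cr u c := by
  simp only [cr, Pi.neg_apply]
  ring

private theorem D2a_cr_self (u : Vec) : cr u u = 0 := by
  simp only [cr]
  ring

private theorem D2a_nxt_ne (h : Geo T z) (e : D) : T.nxt e ≠ e := by
  intro he
  have h1 := h.pos e
  rw [he, D2a_cr_self] at h1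
  exact lt_irrefl _ h1

private theorem D2a_opp_ne (h : Geo T z) (hS : Strip T z n d c α) (j k : ℕ) :
    d j ≠ T.opp (d k) := by
  intro he
  have h1 := hS.up j
  rw [he, h.coc.glue, D2a_cr_neg] at h1
  have h2 := hS.up k
  linarith

private theorem D2a_per (hS : Strip T z n d c α) (k m : ℕ) : d (k + m * n) = d k := by
  induction m with
  | zero => rw [zero_mul, add_zero]
  | succ m ih =>
    have e : k + (m + 1) * n = (k + m * n) + n := by ring
    rw [e, hS.per, ih]

private theorem D2a_mod (hS : Strip T z n d c α) (k : ℕ) : d (k % n) = d k := by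
  conv_rhs => rw [← Nat.mod_add_div k n, mul_comm n]
  rw [D2a_per hS]

/-- `d j = d k` implies `j ≡ k` -/
private theorem D2a_inj (hS : Strip T z n d c α) {j k : ℕ} (he : d j = d k) :
    j % n = k % n := by
  refine hS.inj _ _ (Nat.mod_lt _ hS.pos) (Nat.mod_lt _ hS.pos) ?_
  rw [D2a_mod hS, D2a_mod hS, he]

private theorem D2a_of_mod (hS : Strip T z n d c α) {j k : ℕ} (he : j % n = k % n) :
    d j = d k := by
  rw [← D2a_mod hS j, he, D2a_mod hS]

private theorem D2a_pred (hS : Strip T z n d c α) {j k : ℕ} (he : d (j + 1) = d (k + 1)) :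
    d j = d k := by
  refine D2a_of_mod hS ?_
  have h1 : j + 1 ≡ k + 1 [MOD n] := D2a_inj hS he
  exact Nat.ModEq.add_right_cancel' 1 h1

private theorem D2a_succ (hS : Strip T z n d c α) {j k : ℕ} (he : d j = d k) :
    d (j + 1) = d (k + 1) := by
  refine D2a_of_mod hS ?_
  have h1 : j ≡ k [MOD n] := D2a_inj hS he
  exact Nat.ModEq.add_right 1 h1

/-- every `d j` is some `d (i + 1)` -/
private theorem D2a_exists_pred (hS : Strip T z n d c α) (j : ℕ) : ∃ i, d (i + 1) = d j := by
  have hn := hS.pos
  refine ⟨j + (n - 1), ?_⟩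
  have e : j + (n - 1) + 1 = j + n := by omega
  rw [e, hS.per]

private theorem D2a_top (h : Geo T z) (hS : Strip T z n d c α) {k : ℕ}
    (hk : d (k + 1) = T.opp (T.nxt (T.nxt (d k)))) (j : ℕ) : T.nxt (d k) ≠ d j := by
  intro he
  have h1 : T.nxt (T.nxt (d j)) = d k := by rw [← he, T.nxt3]
  rcases hS.step j with h2 | h2
  · rw [h1] at h2
    exact D2a_opp_ne h hS _ _ h2
  · rw [← he, ← hk] at h2
    have h3 := D2a_pred hS h2
    rw [h3] at he
    exact D2a_nxt_ne h _ he

private theorem D2a_ntop (h : Geo T z) (hS : Strip T z n d c α) {k : ℕ}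
    (hk : d (k + 1) = T.opp (T.nxt (d k))) (j : ℕ) : T.nxt (T.nxt (d k)) ≠ d j := by
  intro he
  have h1 : T.nxt (d j) = d k := by rw [← he, T.nxt3]
  rcases hS.step j with h2 | h2
  · rw [h1, ← hk] at h2
    have h3 := D2a_pred hS h2
    rw [h3] at h1
    exact D2a_nxt_ne h _ h1
  · rw [h1] at h2
    exact D2a_opp_ne h hS _ _ h2

/-- The darts of the triangles of the strip: `d k`, the short side, and the exit, which
is `opp (d (k + 1))`. They are all different: the entries are upward (`cr _ c > 0`) and the exits are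
downward; each triangle is crossed only once: if two of its darts are entries, then the exit is in
both cases the third one, so `inj` gives a contradiction; so a short side is not an entry, and
it is not an exit (`s = opp (d j)` would be the exit of its triangle). So `crs` is `1` at `d k`, `- 1` at
`opp (d k)`, and `0` at all other darts, for instance at the short sides. -/
theorem Strip.crs_d (h : Geo T z) (hS : Strip T z n d c α) (k : ℕ) : crs T n d (d k) = 1 := by
  classical
  unfold crs
  rw [Finset.sum_eq_single (k % n)]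
  · rw [if_pos (D2a_mod hS k).symm, if_neg]
    · norm_num
    · intro he
      exact D2a_opp_ne h hS _ _ he.symm
  · intro j hj hjk
    rw [if_neg, if_neg]
    · norm_num
    · intro he
      exact D2a_opp_ne h hS _ _ he.symm
    · intro he
      apply hjk
      have h1 := D2a_inj hS he
      rw [Nat.mod_eq_of_lt (Finset.mem_range.1 hj)] at h1
      exact h1.symm
  · intro hj
    exact absurd (Finset.mem_range.2 (Nat.mod_lt _ hS.pos)) hj

theorem Strip.crs_opp (T : Tri D) (n : ℕ) (d : ℕ → D) (e : D) :
    crs T n d (T.opp e) = -crs T n d e := by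
  classical
  unfold crs
  rw [← Finset.sum_neg_distrib]
  refine Finset.sum_congr rfl fun k _ => ?_
  rw [T.opp2, neg_sub]

theorem Strip.crs_eq_zero (T : Tri D) (n : ℕ) (d : ℕ → D) (e : D) (h1 : ∀ k, e ≠ d k)
    (h2 : ∀ k, T.opp e ≠ d k) : crs T n d e = 0 := by
  classical
  unfold crs
  refine Finset.sum_eq_zero fun k _ => ?_
  rw [if_neg (h1 k), if_neg (h2 k), sub_zero]

theorem Strip.crs_short (h : Geo T z) (hS : Strip T z n d c α) (k : ℕ) :
    (Top T d k → crs T n d (T.nxt (d k)) = 0) ∧
      (¬ Top T d k → crs T n d (T.nxt (T.nxt (d k))) = 0) := by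
  constructor
  · intro hk
    have hk' : d (k + 1) = T.opp (T.nxt (T.nxt (d k))) := hk
    refine Strip.crs_eq_zero T n d _ (D2a_top h hS hk') fun j hj => ?_
    obtain ⟨i, hi⟩ := D2a_exists_pred hS j
    rw [← hi] at hj
    rcases hS.step i with h2 | h2
    · have h3 : T.nxt (d k) = T.nxt (T.nxt (d i)) := by
        rw [h2] at hj
        exact T.opp.injective hj
      have h4 := T.nxt.injective h3
      exact D2a_top h hS h2 k h4.symm
    · have h3 : T.nxt (d k) = T.nxt (d i) := by
        rw [h2] at hj
        exact T.opp.injective hj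
      have h4 := T.nxt.injective h3
      have h5 := D2a_succ hS h4
      rw [hk', h2, ← h4] at h5
      have h6 := T.opp.injective h5
      exact D2a_nxt_ne h _ h6
  · intro hk
    have hk' : d (k + 1) = T.opp (T.nxt (d k)) := by
      rcases hS.step k with h1 | h1
      · exact absurd h1 hk
      · exact h1
    refine Strip.crs_eq_zero T n d _ (D2a_ntop h hS hk') fun j hj => ?_
    obtain ⟨i, hi⟩ := D2a_exists_pred hS j
    rw [← hi] at hj
    rcases hS.step i with h2 | h2
    · have h3 : T.nxt (T.nxt (d k)) = T.nxt (T.nxt (d i)) := by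
        rw [h2] at hj
        exact T.opp.injective hj
      have h4 := T.nxt.injective (T.nxt.injective h3)
      have h5 := D2a_succ hS h4
      rw [h2, ← h4] at h5
      exact hk h5
    · have h3 : T.nxt (T.nxt (d k)) = T.nxt (d i) := by
        rw [h2] at hj
        exact T.opp.injective hj
      have h4 := T.nxt.injective h3
      refine D2a_ntop h hS h2 k ?_
      rw [← h4, T.nxt3]

private theorem D2a_sum (h : Geo T z) (hS : Strip T z n d c α) (k : ℕ) :
    crs T n d (d k) + crs T n d (T.nxt (d k)) + crs T n d (T.nxt (T.nxt (d k))) = 0 := by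
  have h1 := Strip.crs_d h hS k
  have h2 := Strip.crs_d h hS (k + 1)
  obtain ⟨h3, h4⟩ := Strip.crs_short h hS k
  by_cases hk : Top T d k
  · have hk' : d (k + 1) = T.opp (T.nxt (T.nxt (d k))) := hk
    rw [hk', Strip.crs_opp] at h2
    have h5 := h3 hk
    omega
  · have hk' : d (k + 1) = T.opp (T.nxt (d k)) := by
      rcases hS.step k with h1 | h1
      · exact absurd h1 hk
      · exact h1
    rw [hk', Strip.crs_opp] at h2
    have h5 := h4 hk
    omega

/-- a triangle which meets the strip in a dart `d k` or `opp (d k)` contains some `d i` -/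
private theorem D2a_tri (hS : Strip T z n d c α) {e : D} (he : ∃ k, e = d k ∨ T.opp e = d k) :
    ∃ i, e = d i ∨ e = T.nxt (d i) ∨ e = T.nxt (T.nxt (d i)) := by
  obtain ⟨k, hk | hk⟩ := he
  · exact ⟨k, Or.inl hk⟩
  · obtain ⟨i, hi⟩ := D2a_exists_pred hS k
    rw [← hi] at hk
    refine ⟨i, ?_⟩
    rcases hS.step i with h2 | h2
    · rw [h2] at hk
      exact Or.inr (Or.inr (T.opp.injective hk))
    · rw [h2] at hk
      exact Or.inr (Or.inl (T.opp.injective hk))

private theorem D2a_closed (h : Geo T z) (hS : Strip T z n d c α) {e : D}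
    (he : ∃ i, e = d i ∨ e = T.nxt (d i) ∨ e = T.nxt (T.nxt (d i))) :
    crs T n d e + crs T n d (T.nxt e) + crs T n d (T.nxt (T.nxt e)) = 0 := by
  obtain ⟨i, hi | hi | hi⟩ := he
  · rw [hi]
    exact D2a_sum h hS i
  · have h1 := D2a_sum h hS i
    rw [hi, T.nxt3]
    omega
  · have h1 := D2a_sum h hS i
    rw [hi, T.nxt3]
    omega

theorem Strip.crs_coc (h : Geo T z) (hS : Strip T z n d c α) : IsCoc T (crs T n d) := by
  refine ⟨fun e => ?_, Strip.crs_opp T n d⟩
  by_cases h0 : ∃ k, e = d k ∨ T.opp e = d k
  · exact D2a_closed h hS (D2a_tri hS h0)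
  by_cases h1 : ∃ k, T.nxt e = d k ∨ T.opp (T.nxt e) = d k
  · have h3 := D2a_closed h hS (D2a_tri hS h1)
    rw [T.nxt3] at h3
    omega
  by_cases h2 : ∃ k, T.nxt (T.nxt e) = d k ∨ T.opp (T.nxt (T.nxt e)) = d k
  · have h3 := D2a_closed h hS (D2a_tri hS h2)
    rw [T.nxt3] at h3
    omega
  push Not at h0 h1 h2
  rw [Strip.crs_eq_zero T n d e (fun k => (h0 k).1) (fun k => (h0 k).2),
    Strip.crs_eq_zero T n d _ (fun k => (h1 k).1) (fun k => (h1 k).2),
    Strip.crs_eq_zero T n d _ (fun k => (h2 k).1) (fun k => (h2 k).2)]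
  norm_num

private theorem D2a_top_per (hS : Strip T z n d c α) (k : ℕ) : Top T d (k + n) ↔ Top T d k := by
  have e : k + n + 1 = (k + 1) + n := by ring
  unfold Top
  rw [e, hS.per, hS.per]

open Classical in
private theorem D2a_diff (h : Geo T z) (hS : Strip T z n d c α) (k : ℕ) :
    z (d (k + 1)) - z (d k) = (if Top T d k then z (T.nxt (d k)) else 0) +
      (if Top T d k then 0 else z (T.nxt (T.nxt (d k)))) := by
  have h1 := h.coc.closed (d k)
  by_cases hk : Top T d k
  · have hk' : d (k + 1) = T.opp (T.nxt (T.nxt (d k))) := hk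
    rw [if_pos hk, if_pos hk, hk', h.coc.glue, add_zero, sub_eq_iff_eq_add, neg_eq_iff_add_eq_zero,
      ← h1]
    abel
  · have hk' : d (k + 1) = T.opp (T.nxt (d k)) := by
      rcases hS.step k with h1 | h1
      · exact absurd h1 hk
      · exact h1
    rw [if_neg hk, if_neg hk, hk', h.coc.glue, zero_add, sub_eq_iff_eq_add,
      neg_eq_iff_add_eq_zero, ← h1]
    abel

open Classical in
private theorem D2a_bot (T : Tri D) (z : D → Vec) (d : ℕ → D) (c : Vec) (k : ℕ) :
    bot T z d c k = -cr (∑ j ∈ Finset.range k, if Top T d j then 0 else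
      z (T.nxt (T.nxt (d j)))) c := by
  induction k with
  | zero =>
    rw [Finset.range_zero, Finset.sum_empty]
    simp [bot, cr]
  | succ k ih =>
    rw [Finset.sum_range_succ]
    show (if Top T d k then bot T z d c k
      else bot T z d c k - cr (z (T.nxt (T.nxt (d k)))) c) = _
    by_cases hk : Top T d k
    · rw [if_pos hk, if_pos hk, add_zero, ih]
    · rw [if_neg hk, if_neg hk, ih]
      simp only [cr, Pi.add_apply]
      ring

/-- The displacement of the bottom is also `c`. -/
theorem Strip.bot_per (h : Geo T z) (hS : Strip T z n d c α) (k : ℕ) :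
    bot T z d c (k + n) = bot T z d c k := by
  classical
  induction k with
  | zero =>
    rw [zero_add, D2a_bot]
    have h1 : ∑ j ∈ Finset.range n, (z (d (j + 1)) - z (d j)) = 0 := by
      rw [Finset.sum_range_sub (fun j => z (d j))]
      have h2 := hS.per 0
      rw [zero_add] at h2
      rw [h2, sub_self]
    rw [Finset.sum_congr rfl (fun j _ => D2a_diff h hS j), Finset.sum_add_distrib,
      ← hS.core] at h1
    have h3 : (∑ j ∈ Finset.range n, if Top T d j then 0 else z (T.nxt (T.nxt (d j)))) = -c := by
      rw [eq_neg_iff_add_eq_zero, add_comm]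
      exact h1
    rw [h3, D2a_cr_neg, D2a_cr_self]
    simp [bot]
  | succ k ih =>
    have e : k + 1 + n = (k + n) + 1 := by ring
    rw [e]
    show (if Top T d (k + n) then bot T z d c (k + n)
      else bot T z d c (k + n) - cr (z (T.nxt (T.nxt (d (k + n))))) c) =
      (if Top T d k then bot T z d c k
      else bot T z d c k - cr (z (T.nxt (T.nxt (d k)))) c)
    rw [ih, hS.per]
    by_cases hk : Top T d k
    · rw [if_pos hk, if_pos ((D2a_top_per hS k).2 hk)]
    · rw [if_neg hk, if_neg (fun h' => hk ((D2a_top_per hS k).1 h'))]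

end Pool.Veech
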