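import Pool.Agent.Lib.MP_fceebd_gt.D2a

/-! # Row D2: a strip gives a cylinder.
The strip of heights `[lo, hi]`, `lo = max bot`, `hi = min (bot + height)`, `hi - lo ≥ α`. For a triangle
of the strip with the dart `d k` let
`G (d k) t = clamp (t + bot k) - clamp (bot k)`, where `clamp` is the projection to `[lo, lo + α]`,
and similarly for the other two darts of the triangle by the rule `HtData.nxt`; for the other
triangles `G = 0`. On the short sides `G` vanishes since both ends are on the same side of the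
strip. Then `G e (y e) = α * crs e`. -/

set_option autoImplicit false
set_option linter.unusedSectionVars false

namespace Pool.Veech

variable {D : Type} [Fintype D] [DecidableEq D] {T : Tri D} {z : D → Vec} {n : ℕ} {d : ℕ → D}
  {c : Vec} {α : ℝ}

private theorem D2b_one (T : Tri D) (g : D → ℝ) (a : D) :
    ∑ e, ((if e = a then (1 : ℝ) else 0) * g (T.nxt e) - g e * (if T.nxt e = a then 1 else 0)) =
      g (T.nxt a) - g (T.nxt (T.nxt a)) := by
  have h1 : ∀ e, T.nxt e = a ↔ e = T.nxt (T.nxt a) := by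
    intro e
    constructor
    · intro h
      rw [← h, T.nxt3]
    · intro h
      rw [h, T.nxt3]
  rw [Finset.sum_sub_distrib]
  congr 1
  · simp
  · simp only [h1]
    simp

private theorem D2b_form (T : Tri D) (n : ℕ) (d : ℕ → D) (g : D → ℝ) :
    form T (fun e => (crs T n d e : ℝ)) g = ∑ k ∈ Finset.range n,
      ((g (T.nxt (d k)) - g (T.nxt (T.nxt (d k)))) -
        (g (T.nxt (T.opp (d k))) - g (T.nxt (T.nxt (T.opp (d k)))))) := by
  classical
  have h1 : ∀ e, (crs T n d e : ℝ) = ∑ k ∈ Finset.range n,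
      ((if e = d k then (1 : ℝ) else 0) - if e = T.opp (d k) then 1 else 0) := by
    intro e
    unfold crs
    rw [Int.cast_sum]
    refine Finset.sum_congr rfl fun k _ => ?_
    have h2 : T.opp e = d k ↔ e = T.opp (d k) := by
      constructor
      · intro h
        rw [← h, T.opp2]
      · intro h
        rw [h, T.opp2]
    simp only [h2]
    push_cast
    rfl
  unfold form
  have h3 : ∀ e, (crs T n d e : ℝ) * g (T.nxt e) - g e * (crs T n d (T.nxt e) : ℝ) =
      ∑ k ∈ Finset.range n,
        (((if e = d k then (1 : ℝ) else 0) * g (T.nxt e) -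
            g e * (if T.nxt e = d k then 1 else 0)) -
          ((if e = T.opp (d k) then (1 : ℝ) else 0) * g (T.nxt e) -
            g e * (if T.nxt e = T.opp (d k) then 1 else 0))) := by
    intro e
    rw [h1 e, h1 (T.nxt e), Finset.sum_mul, Finset.mul_sum, ← Finset.sum_sub_distrib]
    refine Finset.sum_congr rfl fun k _ => ?_
    ring
  rw [Finset.sum_congr rfl (fun e _ => h3 e), Finset.sum_comm]
  refine Finset.sum_congr rfl fun k _ => ?_
  rw [Finset.sum_sub_distrib, D2b_one, D2b_one]

private theorem D2b_shift (F : ℕ → ℝ) (n : ℕ) (hF : F n = F 0) :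
    ∑ k ∈ Finset.range n, F k = ∑ k ∈ Finset.range n, F (k + 1) := by
  have h1 := Finset.sum_range_succ F n
  have h2 := Finset.sum_range_succ' F n
  rw [h1] at h2
  linarith

open Classical in
private theorem D2b_diff (h : Geo T z) (hS : Strip T z n d c α) (k : ℕ) :
    z (d (k + 1)) - z (d k) = (if Top T d k then z (T.nxt (d k)) else 0) +
      (if Top T d k then 0 else z (T.nxt (T.nxt (d k)))) := by
  have h1 := h.coc.closed (d k)
  by_cases hk : Top T d k
  · have hk' : d (k + 1) = T.opp (T.nxt (T.nxt (d k))) := hk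
    rw [if_pos hk, if_pos hk, hk', h.coc.glue, add_zero, sub_eq_iff_eq_add, neg_eq_iff_add_eq_zero,
      ← h1]
    abel
  · have hk' : d (k + 1) = T.opp (T.nxt (d k)) := by
      rcases hS.step k with h1 | h1
      · exact absurd h1 hk
      · exact h1
    rw [if_neg hk, if_neg hk, hk', h.coc.glue, zero_add, sub_eq_iff_eq_add,
      neg_eq_iff_add_eq_zero, ← h1]
    abel

open Classical in
private theorem D2b_core (h : Geo T z) (hS : Strip T z n d c α) :
    (∑ j ∈ Finset.range n, if Top T d j then 0 else z (T.nxt (T.nxt (d j)))) = -c := by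
  have h1 : ∑ j ∈ Finset.range n, (z (d (j + 1)) - z (d j)) = 0 := by
    rw [Finset.sum_range_sub (fun j => z (d j))]
    have h2 := hS.per 0
    rw [zero_add] at h2
    rw [h2, sub_self]
  rw [Finset.sum_congr rfl (fun j _ => D2b_diff h hS j), Finset.sum_add_distrib,
    ← hS.core] at h1
  rw [eq_neg_iff_add_eq_zero, add_comm]
  exact h1

/-- Each triangle of the strip contributes `3` times the displacement of its short side (top or
bottom). -/
theorem Strip.form_eq (h : Geo T z) (hS : Strip T z n d c α) (j : Fin 2) :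
    form T (fun e => (crs T n d e : ℝ)) (fun e => z e j) = 6 * c j := by
  classical
  rw [D2b_form, Finset.sum_sub_distrib]
  rw [D2b_shift (fun k => z (T.nxt (T.opp (d k))) j - z (T.nxt (T.nxt (T.opp (d k)))) j) n (by
    have h2 := hS.per 0
    rw [zero_add] at h2
    simp only [h2])]
  rw [← Finset.sum_sub_distrib]
  have hc1 : c j = ∑ k ∈ Finset.range n, (if Top T d k then z (T.nxt (d k)) j else 0) := by
    conv_lhs => rw [hS.core]
    rw [Finset.sum_apply]
    refine Finset.sum_congr rfl fun k _ => ?_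
    split_ifs <;> rfl
  have hc2 : -c j = ∑ k ∈ Finset.range n,
      (if Top T d k then 0 else z (T.nxt (T.nxt (d k))) j) := by
    have h1 := congrFun (D2b_core h hS) j
    rw [Pi.neg_apply, Finset.sum_apply] at h1
    rw [← h1]
    refine Finset.sum_congr rfl fun k _ => ?_
    split_ifs <;> rfl
  have key : ∀ k ∈ Finset.range n, z (T.nxt (d k)) j - z (T.nxt (T.nxt (d k))) j -
      (z (T.nxt (T.opp (d (k + 1)))) j - z (T.nxt (T.nxt (T.opp (d (k + 1))))) j) =
      3 * (if Top T d k then z (T.nxt (d k)) j else 0) -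
        3 * (if Top T d k then 0 else z (T.nxt (T.nxt (d k))) j) := by
    intro k _
    have h1 := congrFun (h.coc.closed (d k)) j
    simp only [Pi.add_apply, Pi.zero_apply] at h1
    by_cases hk : Top T d k
    · have hk' : d (k + 1) = T.opp (T.nxt (T.nxt (d k))) := hk
      rw [if_pos hk, if_pos hk, hk', T.opp2, T.nxt3]
      linarith
    · have hk' : d (k + 1) = T.opp (T.nxt (d k)) := by
        rcases hS.step k with h1 | h1
        · exact absurd h1 hk
        · exact h1
      rw [if_neg hk, if_neg hk, hk', T.opp2, T.nxt3]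
      linarith
  rw [Finset.sum_congr rfl key, Finset.sum_sub_distrib, ← Finset.mul_sum, ← Finset.mul_sum, ← hc1,
    ← hc2]
  ring

private theorem D2b_yn (h : Geo T z) (c : Vec) (e : D) :
    cr (z (T.opp e)) c = -cr (z e) c := by
  rw [h.coc.glue]
  simp only [cr, Pi.neg_apply]
  ring

private theorem D2b_yc (h : Geo T z) (c : Vec) (e : D) :
    cr (z e) c + cr (z (T.nxt e)) c + cr (z (T.nxt (T.nxt e))) c = 0 := by
  have h0 := congrFun (h.coc.closed e) 0
  have h1 := congrFun (h.coc.closed e) 1
  simp only [Pi.add_apply, Pi.zero_apply] at h0 h1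
  simp only [cr]
  linear_combination c 1 * h0 - c 0 * h1

private theorem D2b_nxt_ne (h : Geo T z) (e : D) : T.nxt e ≠ e := by
  intro he
  have h1 := h.pos e
  rw [he] at h1
  simp only [cr] at h1
  linarith

private theorem D2b_opp_ne (h : Geo T z) (hS : Strip T z n d c α) (j k : ℕ) :
    d j ≠ T.opp (d k) := by
  intro he
  have h1 := hS.up j
  rw [he, D2b_yn h] at h1
  have h2 := hS.up k
  linarith

/-- the other darts of the triangle of `d k` are not entries -/
private theorem D2b_other (h : Geo T z) (hS : Strip T z n d c α) (k j : ℕ) :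
    T.nxt (d k) ≠ d j ∧ T.nxt (T.nxt (d k)) ≠ d j := by
  have key : ∀ e, crs T n d e = 0 → e ≠ d j := by
    intro e he he'
    rw [he', Strip.crs_d h hS] at he
    exact one_ne_zero he
  have key2 : ∀ e, T.opp e = d (k + 1) → e ≠ d j := by
    intro e he he'
    rw [he'] at he
    exact D2b_opp_ne h hS _ _ he.symm
  obtain ⟨h1, h2⟩ := Strip.crs_short h hS k
  by_cases hk : Top T d k
  · refine ⟨key _ (h1 hk), key2 _ ?_⟩
    have hk' : d (k + 1) = T.opp (T.nxt (T.nxt (d k))) := hk
    exact hk'.symm
  · refine ⟨key2 _ ?_, key _ (h2 hk)⟩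
    rcases hS.step k with h1 | h1
    · exact absurd h1 hk
    · exact h1.symm

/-- heights of the origins of the darts of the strip -/
private def D2b_R (T : Tri D) (z : D → Vec) (d : ℕ → D) (c : Vec) (e : D) (β : ℝ) : Prop :=
  ∃ k, (e = d k ∧ β = bot T z d c k) ∨
    (e = T.nxt (d k) ∧ β = bot T z d c k + cr (z (d k)) c) ∨
    (e = T.nxt (T.nxt (d k)) ∧
      β = bot T z d c k + cr (z (d k)) c + cr (z (T.nxt (d k))) c)

private theorem D2b_per (hS : Strip T z n d c α) (k m : ℕ) : d (k + m * n) = d k := by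
  induction m with
  | zero => rw [zero_mul, add_zero]
  | succ m ih =>
    have e : k + (m + 1) * n = (k + m * n) + n := by ring
    rw [e, hS.per, ih]

private theorem D2b_bper (h : Geo T z) (hS : Strip T z n d c α) (k m : ℕ) :
    bot T z d c (k + m * n) = bot T z d c k := by
  induction m with
  | zero => rw [zero_mul, add_zero]
  | succ m ih =>
    have e : k + (m + 1) * n = (k + m * n) + n := by ring
    rw [e, Strip.bot_per h hS, ih]

private theorem D2b_dmod (hS : Strip T z n d c α) (k : ℕ) : d (k % n) = d k := by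
  conv_rhs => rw [← Nat.mod_add_div k n, mul_comm n]
  rw [D2b_per hS]

private theorem D2b_bmod (h : Geo T z) (hS : Strip T z n d c α) (k : ℕ) :
    bot T z d c (k % n) = bot T z d c k := by
  conv_rhs => rw [← Nat.mod_add_div k n, mul_comm n]
  rw [D2b_bper h hS]

private theorem D2b_bot_eq (h : Geo T z) (hS : Strip T z n d c α) {j k : ℕ} (he : d j = d k) :
    bot T z d c j = bot T z d c k := by
  have h1 := hS.inj _ _ (Nat.mod_lt j hS.pos) (Nat.mod_lt k hS.pos) (by
    rw [D2b_dmod hS, D2b_dmod hS, he])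
  rw [← D2b_bmod h hS j, h1, D2b_bmod h hS]

private theorem D2b_uniq (h : Geo T z) (hS : Strip T z n d c α) {e : D} {β β' : ℝ}
    (h1 : D2b_R T z d c e β) (h2 : D2b_R T z d c e β') : β = β' := by
  obtain ⟨k, h1⟩ := h1
  obtain ⟨j, h2⟩ := h2
  have n3 : ∀ x y, T.nxt (T.nxt x) = T.nxt y → T.nxt x = y := fun x y hh => T.nxt.injective hh
  rcases h1 with ⟨a1, b1⟩ | ⟨a1, b1⟩ | ⟨a1, b1⟩ <;>
    rcases h2 with ⟨a2, b2⟩ | ⟨a2, b2⟩ | ⟨a2, b2⟩ <;> rw [a1] at a2
  · rw [b1, b2, D2b_bot_eq h hS a2]
  · exact absurd a2.symm (D2b_other h hS j k).1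
  · exact absurd a2.symm (D2b_other h hS j k).2
  · exact absurd a2 (D2b_other h hS k j).1
  · have a3 := T.nxt.injective a2
    rw [b1, b2, D2b_bot_eq h hS a3, a3]
  · have a3 := T.nxt.injective a2
    exact absurd a3.symm (D2b_other h hS j k).1
  · exact absurd a2 (D2b_other h hS k j).2
  · have a3 := T.nxt.injective a2
    exact absurd a3 (D2b_other h hS k j).1
  · have a3 := T.nxt.injective (T.nxt.injective a2)
    rw [b1, b2, D2b_bot_eq h hS a3, a3]

private theorem D2b_nxt (h : Geo T z) {e : D} {β : ℝ}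
    (h1 : D2b_R T z d c e β) : D2b_R T z d c (T.nxt e) (β + cr (z e) c) := by
  obtain ⟨k, ⟨a1, b1⟩ | ⟨a1, b1⟩ | ⟨a1, b1⟩⟩ := h1
  · exact ⟨k, Or.inr (Or.inl ⟨by rw [a1], by rw [a1, b1]⟩)⟩
  · exact ⟨k, Or.inr (Or.inr ⟨by rw [a1], by rw [a1, b1]⟩)⟩
  · refine ⟨k, Or.inl ⟨by rw [a1, T.nxt3], ?_⟩⟩
    rw [a1, b1]
    linarith [D2b_yc h c (d k)]

/-- an exit has the height of the other end of the entry -/
private theorem D2b_exit (h : Geo T z) (hS : Strip T z n d c α) (k : ℕ) :
    D2b_R T z d c (T.opp (d (k + 1))) (bot T z d c (k + 1) + cr (z (d (k + 1))) c) := by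
  classical
  have hb : bot T z d c (k + 1) = if Top T d k then bot T z d c k
      else bot T z d c k - cr (z (T.nxt (T.nxt (d k)))) c := rfl
  have hyc := D2b_yc h c (d k)
  by_cases hk : Top T d k
  · have hk' : d (k + 1) = T.opp (T.nxt (T.nxt (d k))) := hk
    rw [if_pos hk] at hb
    refine ⟨k, Or.inr (Or.inr ⟨by rw [hk', T.opp2], ?_⟩)⟩
    rw [hb, hk', D2b_yn h]
    linarith
  · have hk' : d (k + 1) = T.opp (T.nxt (d k)) := by
      rcases hS.step k with h1 | h1
      · exact absurd h1 hk
      · exact h1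
    rw [if_neg hk] at hb
    refine ⟨k, Or.inr (Or.inl ⟨by rw [hk', T.opp2], ?_⟩)⟩
    rw [hb, hk', D2b_yn h]
    linarith

private theorem D2b_exists_pred (hS : Strip T z n d c α) (j : ℕ) : ∃ i, d (i + 1) = d j := by
  have hn := hS.pos
  refine ⟨j + (n - 1), ?_⟩
  have e : j + (n - 1) + 1 = j + n := by omega
  rw [e, hS.per]

private theorem D2b_exit' (h : Geo T z) (hS : Strip T z n d c α) (k : ℕ) :
    D2b_R T z d c (T.opp (d k)) (bot T z d c k + cr (z (d k)) c) := by
  obtain ⟨i, hi⟩ := D2b_exists_pred hS k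
  have h1 := D2b_exit h hS i
  rw [D2b_bot_eq h hS hi, hi] at h1
  exact h1

private noncomputable def D2b_cl (lo α x : ℝ) : ℝ := max lo (min x (lo + α))

private theorem D2b_cl_mono (lo α : ℝ) {s t : ℝ} (hst : s ≤ t) :
    0 ≤ D2b_cl lo α t - D2b_cl lo α s ∧ D2b_cl lo α t - D2b_cl lo α s ≤ t - s := by
  unfold D2b_cl
  constructor
  · have h1 : max lo (min s (lo + α)) ≤ max lo (min t (lo + α)) :=
      max_le_max le_rfl (min_le_min hst le_rfl)
    linarith
  · rcases le_total t (lo + α) with h1 | h1 <;> rcases le_total s (lo + α) with h2 | h2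
    · rw [min_eq_left h1, min_eq_left h2]
      rcases le_total lo t with h3 | h3 <;> rcases le_total lo s with h4 | h4
      · rw [max_eq_right h3, max_eq_right h4]
      · rw [max_eq_right h3, max_eq_left h4]; linarith
      · rw [max_eq_left h3, max_eq_right h4]; linarith
      · rw [max_eq_left h3, max_eq_left h4]; linarith
    · rw [min_eq_left h1, min_eq_right h2]
      rcases le_total lo t with h3 | h3 <;> rcases le_total lo (lo + α) with h4 | h4
      · rw [max_eq_right h3, max_eq_right h4]; linarith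
      · rw [max_eq_right h3, max_eq_left h4]; linarith
      · rw [max_eq_left h3, max_eq_right h4]; linarith
      · rw [max_eq_left h3, max_eq_left h4]; linarith
    · rw [min_eq_right h1, min_eq_left h2]
      rcases le_total lo (lo + α) with h3 | h3 <;> rcases le_total lo s with h4 | h4
      · rw [max_eq_right h3, max_eq_right h4]; linarith
      · rw [max_eq_right h3, max_eq_left h4]; linarith
      · rw [max_eq_left h3, max_eq_right h4]; linarith
      · rw [max_eq_left h3, max_eq_left h4]; linarith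
    · rw [min_eq_right h1, min_eq_right h2]
      linarith

private theorem D2b_cl_lo {lo α x : ℝ} (h : x ≤ lo) : D2b_cl lo α x = lo := by
  unfold D2b_cl
  exact max_eq_left ((min_le_left _ _).trans h)

private theorem D2b_cl_hi {lo α x : ℝ} (hα : 0 < α) (h : lo + α ≤ x) :
    D2b_cl lo α x = lo + α := by
  unfold D2b_cl
  rw [min_eq_right h]
  exact max_eq_right (by linarith)

private theorem D2b_exists_lo (h : Geo T z) (hS : Strip T z n d c α) :
    ∃ lo, (∀ k, bot T z d c k ≤ lo) ∧ ∀ k, lo + α ≤ bot T z d c k + cr (z (d k)) c := by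
  obtain ⟨j, _, hj⟩ := Finset.exists_max_image (Finset.range n) (fun k => bot T z d c k)
    ⟨0, Finset.mem_range.2 hS.pos⟩
  refine ⟨bot T z d c j, fun k => ?_, fun k => hS.gap j k⟩
  rw [← D2b_bmod h hS k]
  exact hj _ (Finset.mem_range.2 (Nat.mod_lt _ hS.pos))

open Classical in
private noncomputable def D2b_G (T : Tri D) (z : D → Vec) (d : ℕ → D) (c : Vec) (lo α : ℝ)
    (e : D) (t : ℝ) : ℝ :=
  if h : ∃ β, D2b_R T z d c e β then D2b_cl lo α (t + h.choose) - D2b_cl lo α h.choose else 0

private theorem D2b_G_eq (h : Geo T z) (hS : Strip T z n d c α) (lo : ℝ) {e : D} {β : ℝ}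
    (hR : D2b_R T z d c e β) (t : ℝ) :
    D2b_G T z d c lo α e t = D2b_cl lo α (t + β) - D2b_cl lo α β := by
  classical
  have h1 : ∃ β, D2b_R T z d c e β := ⟨β, hR⟩
  unfold D2b_G
  rw [dif_pos h1, D2b_uniq h hS h1.choose_spec hR]

private theorem D2b_G_zero (lo : ℝ) {e : D} (hR : ¬ ∃ β, D2b_R T z d c e β) (t : ℝ) :
    D2b_G T z d c lo α e t = 0 := by
  classical
  unfold D2b_G
  rw [dif_neg hR]

/-- `G` vanishes on the range of a dart which does not cross the core -/
private theorem D2b_flat (h : Geo T z) (hS : Strip T z n d c α) {lo : ℝ}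
    (hlo : ∀ k, bot T z d c k ≤ lo) (hhi : ∀ k, lo + α ≤ bot T z d c k + cr (z (d k)) c) {e : D}
    (h1 : ∀ k, e ≠ d k) (h2 : ∀ k, T.opp e ≠ d k) {s : ℝ} (hs1 : min 0 (cr (z e) c) ≤ s)
    (hs2 : s ≤ max 0 (cr (z e) c)) : D2b_G T z d c lo α e s = 0 := by
  classical
  by_cases hR : ∃ β, D2b_R T z d c e β
  swap
  · exact D2b_G_zero lo hR s
  obtain ⟨β, hR⟩ := hR
  rw [D2b_G_eq h hS lo hR]
  obtain ⟨k, ⟨a1, b1⟩ | ⟨a1, b1⟩ | ⟨a1, b1⟩⟩ := hR
  · exact absurd a1 (h1 k)
  · -- must be a top side
    have hb : bot T z d c (k + 1) = if Top T d k then bot T z d c k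
      else bot T z d c k - cr (z (T.nxt (T.nxt (d k)))) c := rfl
    by_cases hk : Top T d k
    swap
    · exfalso
      rcases hS.step k with h3 | h3
      · exact hk h3
      · rw [← a1] at h3
        exact h2 _ h3.symm
    have hk' : d (k + 1) = T.opp (T.nxt (T.nxt (d k))) := hk
    rw [if_pos hk] at hb
    have e1 := hhi k
    have e2 := hhi (k + 1)
    rw [hb, hk', D2b_yn h] at e2
    have e3 := D2b_yc h c (d k)
    have e4 : lo + α ≤ β := by rw [b1]; exact e1
    have e5 : lo + α ≤ β + cr (z e) c := by rw [a1, b1]; linarith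
    have e6 : lo + α ≤ s + β := by
      rcases le_total 0 (cr (z e) c) with h3 | h3
      · rw [min_eq_left h3] at hs1
        linarith
      · rw [min_eq_right h3] at hs1
        linarith
    rw [D2b_cl_hi hS.apos e6, D2b_cl_hi hS.apos e4, sub_self]
  · -- must be a bottom side
    have hb : bot T z d c (k + 1) = if Top T d k then bot T z d c k
      else bot T z d c k - cr (z (T.nxt (T.nxt (d k)))) c := rfl
    by_cases hk : Top T d k
    · exfalso
      have hk' : d (k + 1) = T.opp (T.nxt (T.nxt (d k))) := hk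
      rw [← a1] at hk'
      exact h2 _ hk'.symm
    rw [if_neg hk] at hb
    have e1 := hlo k
    have e2 := hlo (k + 1)
    rw [hb] at e2
    have e3 := D2b_yc h c (d k)
    have e4 : β ≤ lo := by rw [b1]; linarith
    have e5 : β + cr (z e) c ≤ lo := by rw [a1, b1]; linarith
    have e6 : s + β ≤ lo := by
      rcases le_total 0 (cr (z e) c) with h3 | h3
      · rw [max_eq_right h3] at hs2
        linarith
      · rw [max_eq_left h3] at hs2
        linarith
    rw [D2b_cl_lo e6, D2b_cl_lo e4, sub_self]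

theorem Strip.htData (h : Geo T z) (hS : Strip T z n d c α) :
    ∃ G, HtData T (fun e => cr (z e) c) G ∧
      ∀ e, G e (cr (z e) c) = α * crs T n d e := by
  classical
  obtain ⟨lo, hlo, hhi⟩ := D2b_exists_lo h hS
  have hzero : ∀ e, D2b_G T z d c lo α e 0 = 0 := by
    intro e
    by_cases hR : ∃ β, D2b_R T z d c e β
    · obtain ⟨β, hR⟩ := hR
      rw [D2b_G_eq h hS lo hR, zero_add, sub_self]
    · exact D2b_G_zero lo hR 0
  -- darts which cross the core
  have hcross : ∀ k s, D2b_G T z d c lo α (T.opp (d k)) (s - cr (z (d k)) c) =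
      D2b_G T z d c lo α (d k) s - D2b_G T z d c lo α (d k) (cr (z (d k)) c) := by
    intro k s
    have hR : D2b_R T z d c (d k) (bot T z d c k) := ⟨k, Or.inl ⟨rfl, rfl⟩⟩
    rw [D2b_G_eq h hS lo hR, D2b_G_eq h hS lo hR, D2b_G_eq h hS lo (D2b_exit' h hS k)]
    have e1 : s - cr (z (d k)) c + (bot T z d c k + cr (z (d k)) c) = s + bot T z d c k := by ring
    rw [e1, add_comm (bot T z d c k) (cr (z (d k)) c)]
    ring
  have hopp : ∀ e s, min 0 (cr (z e) c) ≤ s → s ≤ max 0 (cr (z e) c) →
      D2b_G T z d c lo α (T.opp e) (s - cr (z e) c) =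
        D2b_G T z d c lo α e s - D2b_G T z d c lo α e (cr (z e) c) := by
    intro e s hs1 hs2
    by_cases h1 : ∃ k, e = d k
    · obtain ⟨k, rfl⟩ := h1
      exact hcross k s
    by_cases h2 : ∃ k, T.opp e = d k
    · obtain ⟨k, hk⟩ := h2
      have hk' : e = T.opp (d k) := by rw [← hk, T.opp2]
      have hy : cr (z e) c = -cr (z (d k)) c := by rw [hk', D2b_yn h]
      have e1 := hcross k (s + cr (z (d k)) c)
      have e2 := hcross k 0
      rw [hzero] at e2
      rw [hk, hk', D2b_yn h, sub_neg_eq_add]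
      have e3 : s + cr (z (d k)) c - cr (z (d k)) c = s := by ring
      rw [e3] at e1
      rw [zero_sub] at e2
      linarith
    · push Not at h1 h2
      have f1 := D2b_flat h hS hlo hhi h1 h2 hs1 hs2
      have f2 := D2b_flat h hS hlo hhi h1 h2 (s := cr (z e) c) (min_le_right _ _)
        (le_max_right _ _)
      have f3 : D2b_G T z d c lo α (T.opp e) (s - cr (z e) c) = 0 := by
        refine D2b_flat h hS hlo hhi h2 (fun k => by rw [T.opp2]; exact h1 k) ?_ ?_
        · rw [D2b_yn h]
          rcases le_total 0 (cr (z e) c) with h3 | h3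
          · rw [min_eq_right (by linarith)]
            rw [min_eq_left h3] at hs1
            linarith
          · rw [min_eq_left (by linarith)]
            rw [min_eq_right h3] at hs1
            linarith
        · rw [D2b_yn h]
          rcases le_total 0 (cr (z e) c) with h3 | h3
          · rw [max_eq_left (by linarith)]
            rw [max_eq_right h3] at hs2
            linarith
          · rw [max_eq_right (by linarith)]
            rw [max_eq_left h3] at hs2
            linarith
      rw [f1, f2, f3, sub_self]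
  refine ⟨D2b_G T z d c lo α, ⟨hzero, ?_, ?_, hopp⟩, ?_⟩
  · intro e s t hst
    by_cases hR : ∃ β, D2b_R T z d c e β
    · obtain ⟨β, hR⟩ := hR
      rw [D2b_G_eq h hS lo hR, D2b_G_eq h hS lo hR]
      have h1 := D2b_cl_mono lo α (s := s + β) (t := t + β) (by linarith)
      constructor
      · linarith [h1.1]
      · linarith [h1.2]
    · rw [D2b_G_zero lo hR, D2b_G_zero lo hR]
      constructor
      · linarith
      · linarith
  · intro e s
    by_cases hR : ∃ β, D2b_R T z d c e β
    · obtain ⟨β, hR⟩ := hR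
      rw [D2b_G_eq h hS lo (D2b_nxt h hR), D2b_G_eq h hS lo hR, D2b_G_eq h hS lo hR]
      have e1 : s + (β + cr (z e) c) = cr (z e) c + s + β := by ring
      rw [e1, add_comm β (cr (z e) c)]
      ring
    · have hR' : ¬ ∃ β, D2b_R T z d c (T.nxt e) β := by
        rintro ⟨β, h1⟩
        have h2 := D2b_nxt h (D2b_nxt h h1)
        rw [T.nxt3] at h2
        exact hR ⟨_, h2⟩
      rw [D2b_G_zero lo hR, D2b_G_zero lo hR, D2b_G_zero lo hR', sub_self]
  · have hd : ∀ k, D2b_G T z d c lo α (d k) (cr (z (d k)) c) = α := by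
      intro k
      have hR : D2b_R T z d c (d k) (bot T z d c k) := ⟨k, Or.inl ⟨rfl, rfl⟩⟩
      rw [D2b_G_eq h hS lo hR, D2b_cl_lo (hlo k), D2b_cl_hi hS.apos (by
        rw [add_comm (cr (z (d k)) c)]; exact hhi k)]
      ring
    intro e
    by_cases h1 : ∃ k, e = d k
    · obtain ⟨k, rfl⟩ := h1
      rw [hd k, Strip.crs_d h hS, Int.cast_one, mul_one]
    by_cases h2 : ∃ k, T.opp e = d k
    · obtain ⟨k, hk⟩ := h2
      have hk' : e = T.opp (d k) := by rw [← hk, T.opp2]
      have e2 := hcross k 0
      rw [hzero, hd k, zero_sub] at e2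
      rw [hk', D2b_yn h, e2, Strip.crs_opp, Strip.crs_d h hS]
      push_cast
      ring
    · push Not at h1 h2
      rw [D2b_flat h hS hlo hhi h1 h2 (s := cr (z e) c) (min_le_right _ _)
        (le_max_right _ _), Strip.crs_eq_zero T n d e h1 h2, Int.cast_zero, mul_zero]

theorem Strip.isCyl (h : Geo T z) (hS : Strip T z n d c α) : IsCyl T z (crs T n d) c α := by
  refine ⟨Strip.crs_coc h hS, Strip.form_eq h hS, ?_, hS.apos, ?_⟩
  · intro hc
    have h1 := hS.up 0
    rw [hc] at h1
    simp [cr] at h1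
  · intro T' m hm e
    obtain ⟨G, hG, hG2⟩ := Strip.htData h hS
    have h1 := HtData.bound hm hG e
    have h2 : (fun e => G e (cr (z e) c)) = α • fun e => (crs T n d e : ℝ) := by
      funext e
      rw [hG2 e]
      rfl
    rw [h2, app_smul, Pi.smul_apply, smul_eq_mul, app_intCast] at h1
    obtain ⟨h3, h4⟩ := h1
    rw [abs_mul, abs_of_pos hS.apos] at h4
    refine ⟨?_, h4⟩
    rw [mul_assoc] at h3
    exact nonneg_of_mul_nonneg_right h3 hS.apos

end Pool.Veech
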