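import Pool.Agent.Lib.MP_fceebd_gt.C2
import Pool.Agent.Lib.MP_fceebd_gt.D2b

/-! # Row D3: the strip of `NearD.exists_strip` contains a cylinder.
All `z (d k)` are close to each other: `z (d (k+1)) - z (d k)` is (plus or minus) the short side `s`,
`|s| ≤ 1.02 q / |z (d k)|` and the sum of the `q` over the strip is at most `area`. For every
short side, `cr (z (d k)) s ≥ 0.98 |z (d k)| |s|` where `s` is the displacement to the left, and the
same is true (with `0.9`) for `z (d 0)` in place of `z (d k)`. So `cr (z (d k)) c ≥ 0.9 |z (d k)| |c|`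
and the heights of the origins of the `d k` differ by at most `|c| * area * 1.02 / |z (d 0)|`. -/

set_option autoImplicit false

namespace Pool.Veech

variable {D : Type} [Fintype D] [DecidableEq D] {T : Tri D} {z : D → Vec}

/-- the length -/
private noncomputable def ln (u : Vec) : ℝ := Real.sqrt (nq u)

private theorem nq_nonneg' (u : Vec) : 0 ≤ nq u := by
  unfold nq ip
  nlinarith [mul_self_nonneg (u 0), mul_self_nonneg (u 1)]

private theorem ln_nonneg (u : Vec) : 0 ≤ ln u := Real.sqrt_nonneg _

private theorem ln_sq (u : Vec) : ln u * ln u = nq u := Real.mul_self_sqrt (nq_nonneg' u)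

private theorem abs_cr_le (u v : Vec) : |cr u v| ≤ ln u * ln v := by
  apply abs_le_of_sq_le_sq
  · have h : (ln u * ln v) ^ 2 = nq u * nq v := by
      rw [← ln_sq u, ← ln_sq v]
      ring
    rw [h]
    unfold cr nq ip
    nlinarith [mul_self_nonneg (u 0 * v 0 + u 1 * v 1)]
  · exact mul_nonneg (ln_nonneg u) (ln_nonneg v)

private theorem ip_le (u v : Vec) : ip u v ≤ ln u * ln v := by
  refine (le_abs_self _).trans (abs_le_of_sq_le_sq ?_ (mul_nonneg (ln_nonneg u) (ln_nonneg v)))
  have h : (ln u * ln v) ^ 2 = nq u * nq v := by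
    rw [← ln_sq u, ← ln_sq v]
    ring
  rw [h]
  unfold nq ip
  nlinarith [mul_self_nonneg (u 0 * v 1 - u 1 * v 0)]

private theorem ln_add (u v : Vec) : ln (u + v) ≤ ln u + ln v := by
  have h0 : 0 ≤ ln u + ln v := add_nonneg (ln_nonneg u) (ln_nonneg v)
  refine Real.sqrt_le_iff.2 ⟨h0, ?_⟩
  have h1 : nq (u + v) = nq u + 2 * ip u v + nq v := by
    unfold nq ip
    simp only [Pi.add_apply]
    ring
  rw [h1, ← ln_sq u, ← ln_sq v]
  nlinarith [ip_le u v]

private theorem ln_neg (u : Vec) : ln (-u) = ln u := by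
  unfold ln
  congr 1
  unfold nq ip
  simp only [Pi.neg_apply]
  ring

private theorem ln_zero : ln 0 = 0 := by
  unfold ln nq ip
  simp

private theorem ln_sum {ι : Type} (s : Finset ι) (f : ι → Vec) :
    ln (∑ i ∈ s, f i) ≤ ∑ i ∈ s, ln (f i) := by
  classical
  induction s using Finset.induction_on with
  | empty => rw [Finset.sum_empty, Finset.sum_empty, ln_zero]
  | insert a s ha ih =>
    rw [Finset.sum_insert ha, Finset.sum_insert ha]
    exact (ln_add _ _).trans (by linarith)

private theorem cr_add_right (u v w : Vec) : cr u (v + w) = cr u v + cr u w := by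
  unfold cr
  simp only [Pi.add_apply]
  ring

private theorem cr_add_left (u v w : Vec) : cr (u + v) w = cr u w + cr v w := by
  unfold cr
  simp only [Pi.add_apply]
  ring

private theorem cr_neg_right (u v : Vec) : cr u (-v) = -cr u v := by
  unfold cr
  simp only [Pi.neg_apply]
  ring

private theorem cr_neg_left (u v : Vec) : cr (-u) v = -cr u v := by
  unfold cr
  simp only [Pi.neg_apply]
  ring

private theorem cr_self' (u : Vec) : cr u u = 0 := by
  unfold cr
  ring

private theorem cr_zero_right (u : Vec) : cr u 0 = 0 := by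
  unfold cr
  simp

private theorem cr_zero_left (u : Vec) : cr 0 u = 0 := by
  unfold cr
  simp

private theorem cr_sum_right {ι : Type} (s : Finset ι) (u : Vec) (f : ι → Vec) :
    cr u (∑ i ∈ s, f i) = ∑ i ∈ s, cr u (f i) := by
  classical
  induction s using Finset.induction_on with
  | empty => rw [Finset.sum_empty, Finset.sum_empty, cr_zero_right]
  | insert a s ha ih => rw [Finset.sum_insert ha, Finset.sum_insert ha, cr_add_right, ih]

private theorem cr_sum_left {ι : Type} (s : Finset ι) (u : Vec) (f : ι → Vec) :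
    cr (∑ i ∈ s, f i) u = ∑ i ∈ s, cr (f i) u := by
  classical
  induction s using Finset.induction_on with
  | empty => rw [Finset.sum_empty, Finset.sum_empty, cr_zero_left]
  | insert a s ha ih => rw [Finset.sum_insert ha, Finset.sum_insert ha, cr_add_left, ih]

/-- The analytic part. -/
private theorem strip_core {n : ℕ} (hn : 0 < n) (v w : ℕ → Vec) (q : ℕ → ℝ) (top : ℕ → Prop)
    (hv : ∀ k, v (k + n) = v k) (hw : ∀ k, w (k + n) = w k) (ht : ∀ k, top (k + n) ↔ top k)
    (h1 : ∀ k, top k → v (k + 1) = v k + w k) (h2 : ∀ k, ¬ top k → v (k + 1) = v k - w k)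
    (hq : ∀ k, cr (v k) (w k) = q k) (hq0 : ∀ k, 0 < q k)
    (hs : ∀ k, nq (v k) * nq (w k) ≤ 1.04 * q k ^ 2) {A L : ℝ} (hA : 0 < A) (hL : 16000 ≤ L)
    (hR : ∀ k, L * A ≤ nq (v k)) (hsum : ∑ k ∈ Finset.range n, q k ≤ A)
    {c : Vec} [DecidablePred top]
    (hc : c = ∑ k ∈ Finset.range n, if top k then w k else 0) (bt : ℕ → ℝ) (hb0 : bt 0 = 0)
    (hb : ∀ k, bt (k + 1) = if top k then bt k else bt k + cr (w k) c) :
    (∀ k, 0 < cr (v k) c) ∧ (∃ α, 0 < α ∧ ∀ j k, bt j + α ≤ bt k + cr (v k) c) ∧ nq c ≤ A := by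
  obtain ⟨R, hRdef⟩ : ∃ R, R = Real.sqrt (L * A) := ⟨_, rfl⟩
  have hLA : 0 < L * A := by positivity
  have hR0 : 0 < R := by rw [hRdef]; exact Real.sqrt_pos.2 hLA
  have hRR : R * R = L * A := by rw [hRdef]; exact Real.mul_self_sqrt hLA.le
  have hlnv : ∀ k, R ≤ ln (v k) := by
    intro k
    rw [hRdef]
    exact Real.sqrt_le_sqrt (hR k)
  -- `|w| ≤ 1.02 q / R`
  have hlw : ∀ k, ln (v k) * ln (w k) ≤ 1.02 * q k := by
    intro k
    refine (sq_le_sq₀ (mul_nonneg (ln_nonneg _) (ln_nonneg _)) ?_).1 ?_
    · have := hq0 k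
      positivity
    · have h3 : (ln (v k) * ln (w k)) ^ 2 = nq (v k) * nq (w k) := by
        rw [← ln_sq, ← ln_sq]
        ring
      rw [h3]
      nlinarith [hs k, sq_nonneg (q k)]
  have hlw2 : ∀ k, R * ln (w k) ≤ 1.02 * q k := fun k =>
    (mul_le_mul_of_nonneg_right (hlnv k) (ln_nonneg _)).trans (hlw k)
  obtain ⟨S, hS⟩ : ∃ S, S = ∑ k ∈ Finset.range n, ln (w k) := ⟨_, rfl⟩
  have hS0 : 0 ≤ S := by
    rw [hS]
    exact Finset.sum_nonneg fun k _ => ln_nonneg _
  have hRS : R * S ≤ 1.02 * A := by
    rw [hS, Finset.mul_sum]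
    calc ∑ k ∈ Finset.range n, R * ln (w k) ≤ ∑ k ∈ Finset.range n, 1.02 * q k :=
          Finset.sum_le_sum fun k _ => hlw2 k
      _ = 1.02 * ∑ k ∈ Finset.range n, q k := by rw [Finset.mul_sum]
      _ ≤ 1.02 * A := by linarith
  have hSR : 10000 * S ≤ R := by
    have h3 : R * (10000 * S) ≤ R * R := by
      rw [hRR]
      have h4 : 16000 * A ≤ L * A := mul_le_mul_of_nonneg_right hL hA.le
      nlinarith
    exact le_of_mul_le_mul_left h3 hR0
  -- the differences
  have hdiff : ∀ k, ∀ j, k ≤ j → ln (v j - v k) ≤ ∑ i ∈ Finset.Ico k j, ln (w i) := by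
    intro k j hkj
    induction j, hkj using Nat.le_induction with
    | base =>
      rw [sub_self, ln_zero, Finset.Ico_self, Finset.sum_empty]
    | succ j hkj ih =>
      rw [Finset.sum_Ico_succ_top hkj]
      by_cases htj : top j
      · rw [h1 j htj, add_sub_right_comm]
        exact (ln_add _ _).trans (by linarith)
      · have h4 : v (j + 1) - v k = (v j - v k) + -w j := by
          rw [h2 j htj]
          abel
        rw [h4]
        refine (ln_add _ _).trans ?_
        rw [ln_neg]
        linarith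
  have hmod : ∀ k, v k = v (k % n) := fun k => (Function.Periodic.map_mod_nat hv k).symm
  have hIco : ∀ k j, j < n → ∑ i ∈ Finset.Ico k j, ln (w i) ≤ S := by
    intro k j hj
    rw [hS]
    refine Finset.sum_le_sum_of_subset_of_nonneg ?_ fun i _ _ => ln_nonneg _
    intro i hi
    rw [Finset.mem_Ico] at hi
    rw [Finset.mem_range]
    omega
  have hclose : ∀ j k, ln (v j - v k) ≤ S := by
    intro j k
    rw [hmod j, hmod k]
    have hj := Nat.mod_lt j hn
    have hk := Nat.mod_lt k hn
    rcases Nat.le_total (k % n) (j % n) with hkj | hkj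
    · exact (hdiff _ _ hkj).trans (hIco _ _ hj)
    · rw [← ln_neg, neg_sub]
      exact (hdiff _ _ hkj).trans (hIco _ _ hk)
  have hcrw : ∀ j k, 0.97 * (R * ln (w k)) ≤ cr (v j) (w k) := by
    intro j k
    have h3 : cr (v j) (w k) = cr (v k) (w k) + cr (v j - v k) (w k) := by
      rw [← cr_add_left]
      congr 1
      abel
    have h4 : -(S * ln (w k)) ≤ cr (v j - v k) (w k) := by
      have h5 := (abs_le.1 (abs_cr_le (v j - v k) (w k))).1
      have h6 : ln (v j - v k) * ln (w k) ≤ S * ln (w k) :=
        mul_le_mul_of_nonneg_right (hclose j k) (ln_nonneg _)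
      linarith
    have h5 : 10000 * (S * ln (w k)) ≤ R * ln (w k) := by
      have := mul_le_mul_of_nonneg_right hSR (ln_nonneg (w k))
      linarith
    have h6 := hlw2 k
    have h7 : 0 ≤ R * ln (w k) := mul_nonneg hR0.le (ln_nonneg _)
    rw [h3, hq]
    linarith
  have hwpos : ∀ k, 0 < ln (w k) := by
    intro k
    refine lt_of_le_of_ne (ln_nonneg _) fun h0 => ?_
    have h3 := (le_abs_self _).trans (abs_cr_le (v k) (w k))
    rw [hq, ← h0, mul_zero] at h3
    exact absurd (hq0 k) (not_lt.2 h3)
  have hSpos : 0 < S := by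
    rw [hS]
    exact Finset.sum_pos (fun k _ => hwpos k) ⟨0, Finset.mem_range.2 hn⟩
  -- the sum of the displacements
  have hvs : ∀ m, v m = v 0 + ∑ k ∈ Finset.range m, (if top k then w k else -w k) := by
    intro m
    induction m with
    | zero => simp
    | succ m ih =>
      rw [Finset.sum_range_succ, ← add_assoc, ← ih]
      by_cases htm : top m
      · rw [if_pos htm, h1 m htm]
      · rw [if_neg htm, h2 m htm, sub_eq_add_neg]
  obtain ⟨c', hc'⟩ : ∃ c' : Vec, c' = ∑ k ∈ Finset.range n, if top k then 0 else w k := ⟨_, rfl⟩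
  have hcc : c = c' := by
    have h3 := hvs n
    have h4 : v n = v 0 := by
      have := hv 0
      rwa [zero_add] at this
    rw [h4, left_eq_add] at h3
    have h5 : c - c' = ∑ k ∈ Finset.range n, (if top k then w k else -w k) := by
      rw [hc, hc', ← Finset.sum_sub_distrib]
      refine Finset.sum_congr rfl fun k _ => ?_
      by_cases htk : top k
      · rw [if_pos htk, if_pos htk, if_pos htk, sub_zero]
      · rw [if_neg htk, if_neg htk, if_neg htk, zero_sub]
    rw [h3, sub_eq_zero] at h5
    exact h5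
  have h2c : c + c = ∑ k ∈ Finset.range n, w k := by
    nth_rw 2 [hcc]
    rw [hc, hc', ← Finset.sum_add_distrib]
    refine Finset.sum_congr rfl fun k _ => ?_
    by_cases htk : top k
    · rw [if_pos htk, if_pos htk, add_zero]
    · rw [if_neg htk, if_neg htk, zero_add]
  have hlnc : 2 * ln c ≤ S := by
    have h3 : ln (c + c) = 2 * ln c := by
      unfold ln
      have h4 : nq (c + c) = 2 ^ 2 * nq c := by
        unfold nq ip
        simp only [Pi.add_apply]
        ring
      rw [h4, Real.sqrt_mul (by norm_num), Real.sqrt_sq (by norm_num)]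
    rw [← h3, h2c, hS]
    exact ln_sum _ _
  have hcrc : ∀ j, 0.48 * (R * S) ≤ cr (v j) c := by
    intro j
    have h3 : cr (v j) (c + c) = 2 * cr (v j) c := by
      rw [cr_add_right]
      ring
    have h4 : 0.97 * (R * S) ≤ cr (v j) (c + c) := by
      rw [h2c, cr_sum_right, hS, Finset.mul_sum, Finset.mul_sum]
      exact Finset.sum_le_sum fun k _ => hcrw j k
    have h5 : 0 < R * S := mul_pos hR0 hSpos
    rw [h3] at h4
    linarith
  -- the heights of the origins
  have hbt : ∀ k, bt (k + 1) = bt k + (if top k then 0 else cr (w k) c) := by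
    intro k
    rw [hb k]
    by_cases htk : top k
    · rw [if_pos htk, if_pos htk, add_zero]
    · rw [if_neg htk, if_neg htk]
  have hbs : ∀ m, bt m = ∑ k ∈ Finset.range m, (if top k then 0 else cr (w k) c) := by
    intro m
    induction m with
    | zero => simpa using hb0
    | succ m ih => rw [Finset.sum_range_succ, ← ih, hbt m]
  have hbn : bt n = 0 := by
    rw [hbs n]
    have h3 : ∑ k ∈ Finset.range n, (if top k then 0 else cr (w k) c) = cr c' c := by
      rw [hc', cr_sum_left]
      refine Finset.sum_congr rfl fun k _ => ?_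
      by_cases htk : top k
      · rw [if_pos htk, if_pos htk, cr_zero_left]
      · rw [if_neg htk, if_neg htk]
    rw [h3, ← hcc, cr_self']
  have hbper : ∀ k, bt (k + n) = bt k := by
    intro k
    induction k with
    | zero => rw [zero_add, hbn, hb0]
    | succ k ih =>
      have h3 : k + 1 + n = k + n + 1 := by omega
      rw [h3, hbt, hbt, ih, hw]
      congr 1
      by_cases htk : top k
      · rw [if_pos ((ht k).2 htk), if_pos htk]
      · rw [if_neg (fun h => htk ((ht k).1 h)), if_neg htk]
  have hbmod : ∀ k, bt k = bt (k % n) := fun k => (Function.Periodic.map_mod_nat hbper k).symm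
  have hbabs : ∀ k, |bt k| ≤ S * ln c := by
    intro k
    rw [hbmod k, hbs]
    refine (Finset.abs_sum_le_sum_abs _ _).trans ?_
    calc ∑ i ∈ Finset.range (k % n), |if top i then 0 else cr (w i) c|
        ≤ ∑ i ∈ Finset.range (k % n), ln (w i) * ln c := by
          refine Finset.sum_le_sum fun i _ => ?_
          by_cases hti : top i
          · rw [if_pos hti, abs_zero]
            exact mul_nonneg (ln_nonneg _) (ln_nonneg _)
          · rw [if_neg hti]
            exact abs_cr_le _ _
      _ ≤ ∑ i ∈ Finset.range n, ln (w i) * ln c := by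
          refine Finset.sum_le_sum_of_subset_of_nonneg ?_
            fun i _ _ => mul_nonneg (ln_nonneg _) (ln_nonneg _)
          intro i hi
          rw [Finset.mem_range] at hi ⊢
          have := Nat.mod_lt k hn
          omega
      _ = S * ln c := by rw [hS, Finset.sum_mul]
  have hRSpos : 0 < R * S := mul_pos hR0 hSpos
  refine ⟨fun k => ?_, ⟨0.4 * (R * S), by positivity, fun j k => ?_⟩, ?_⟩
  · have := hcrc k
    nlinarith
  · have h3 := (abs_le.1 (hbabs j)).2
    have h4 := (abs_le.1 (hbabs k)).1
    have h5 := hcrc k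
    have h6 : 20000 * (S * ln c) ≤ R * S := by
      have h7 : S * (10000 * (2 * ln c)) ≤ S * R := by
        refine mul_le_mul_of_nonneg_left ?_ hS0
        linarith
      linarith
    linarith
  · rw [← ln_sq]
    have h3 : ln c * ln c ≤ S * S := by
      have h4 : ln c ≤ S := by
        have := ln_nonneg c
        linarith
      exact mul_le_mul h4 h4 (ln_nonneg _) hS0
    have h5 : 10000 * (S * S) ≤ R * S := by
      have := mul_le_mul_of_nonneg_right hSR hS0
      linarith
    linarith

theorem NearD.exists_cyl (h : NearD T z) {d₀ : D}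
    (hd : (Lc (Fintype.card D) : ℝ) * area T z ≤ nq (z d₀)) :
    ∃ (n : ℕ) (d : ℕ → D) (c : Vec) (α : ℝ), Strip T z n d c α ∧ nq c ≤ area T z := by
  classical
  have hG := h.geo
  have hnn : ∀ x, T.nxt x ≠ x := by
    intro x hx
    have h1 := hG.pos x
    rw [hx, cr_self'] at h1
    exact lt_irrefl _ h1
  obtain ⟨n, d, hn, hper, hinj, hlong, hstep⟩ := h.exists_strip hd
  have hArea : 0 < area T z := by
    unfold area
    exact Finset.sum_pos (fun x _ => hG.pos x) ⟨d₀, Finset.mem_univ _⟩
  -- the two cases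
  have hcase : ∀ k, (Top T d k ∧ Short T z (d k) (T.nxt (d k)) (T.nxt (T.nxt (d k)))) ∨
      (¬ Top T d k ∧ d (k + 1) = T.opp (T.nxt (d k)) ∧
        Short T z (d k) (T.nxt (T.nxt (d k))) (T.nxt (d k))) := by
    intro k
    rcases hstep k with ⟨h1, h2⟩ | ⟨h1, h2⟩
    · exact Or.inl ⟨h1, h2⟩
    · refine Or.inr ⟨fun ht => ?_, h1, h2⟩
      unfold Top at ht
      rw [h1] at ht
      exact hnn _ (T.opp.injective ht).symm
  let w : ℕ → Vec := fun k => if Top T d k then z (T.nxt (d k)) else -z (T.nxt (T.nxt (d k)))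
  have hwt : ∀ k, Top T d k → w k = z (T.nxt (d k)) := fun k hk => if_pos hk
  have hwb : ∀ k, ¬ Top T d k → w k = -z (T.nxt (T.nxt (d k))) := fun k hk => if_neg hk
  have hclosed : ∀ x, z (T.nxt (T.nxt x)) = -z x - z (T.nxt x) := by
    intro x
    have h1 := hG.coc.closed x
    rw [eq_sub_iff_add_eq, eq_neg_iff_add_eq_zero, ← h1]
    abel
  have htop : ∀ k, Top T d (k + n) ↔ Top T d k := by
    intro k
    unfold Top
    rw [show k + n + 1 = (k + 1) + n by omega, hper, hper]
  obtain ⟨hup, ⟨α, hα, hgap⟩, hnq⟩ := strip_core hn (fun k => z (d k)) w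
    (fun k => cr (z (d k)) (z (T.nxt (d k)))) (Top T d) (fun k => by simp only [hper])
    (fun k => by
      by_cases hk : Top T d k
      · rw [hwt _ hk, hwt _ ((htop k).2 hk), hper]
      · rw [hwb _ hk, hwb _ (fun h => hk ((htop k).1 h)), hper])
    htop
    (fun k hk => by
      have h1 : d (k + 1) = T.opp (T.nxt (T.nxt (d k))) := hk
      simp only [h1, hwt k hk, hG.coc.glue, hclosed]
      abel)
    (fun k hk => by
      rcases hcase k with ⟨h1, _⟩ | ⟨_, h1, _⟩
      · exact absurd h1 hk
      · simp only [h1, hwb k hk, hG.coc.glue, hclosed]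
        abel)
    (fun k => by
      by_cases hk : Top T d k
      · simp only [hwt k hk]
      · simp only [hwb k hk, hclosed, cr_neg_right]
        rw [sub_eq_add_neg, cr_add_right, cr_neg_right, cr_neg_right, cr_self']
        ring)
    (fun k => hG.pos _)
    (fun k => by
      rcases hcase k with ⟨h1, h2⟩ | ⟨h1, _, h2⟩
      · rw [hwt k h1]
        exact h2.1
      · rw [hwb k h1]
        have h3 : nq (-z (T.nxt (T.nxt (d k)))) = nq (z (T.nxt (T.nxt (d k)))) := by
          unfold nq ip
          simp only [Pi.neg_apply]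
          ring
        rw [h3]
        exact h2.1)
    hArea (L := (Lc0 (Fintype.card D) : ℝ)) (by
      unfold Lc0
      have h1 : (1 : ℝ) ≤ 4 ^ (Fintype.card D) := one_le_pow₀ (by norm_num)
      push_cast
      rw [pow_add]
      linarith)
    hlong
    (by
      have h1 : ∑ k ∈ Finset.range n, cr (z (d k)) (z (T.nxt (d k))) =
          ∑ x ∈ (Finset.range n).image d, cr (z x) (z (T.nxt x)) := by
        rw [Finset.sum_image]
        intro j hj k hk hjk
        rw [Finset.mem_coe, Finset.mem_range] at hj hk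
        exact hinj j k hj hk hjk
      rw [h1]
      unfold area
      exact Finset.sum_le_sum_of_subset_of_nonneg (Finset.subset_univ _)
        fun x _ _ => (hG.pos x).le)
    (c := ∑ k ∈ Finset.range n, if Top T d k then w k else 0) rfl
    (bot T z d (∑ k ∈ Finset.range n, if Top T d k then w k else 0)) rfl
    (fun k => by
      show (if Top T d k then _ else _) = _
      by_cases hk : Top T d k
      · rw [if_pos hk, if_pos hk]
      · rw [if_neg hk, if_neg hk, hwb k hk, cr_neg_left]
        ring)
  refine ⟨n, d, _, α, ⟨hn, hper, hinj, fun k => ?_, ?_, hup, hα, hgap⟩, hnq⟩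
  · rcases hstep k with ⟨h1, _⟩ | ⟨h1, _⟩
    · exact Or.inl h1
    · exact Or.inr h1
  · refine Finset.sum_congr rfl fun k _ => ?_
    by_cases hk : Top T d k
    · rw [if_pos hk, if_pos hk, hwt k hk]
    · rw [if_neg hk, if_neg hk]

end Pool.Veech
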