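import Mathlib

/-!
# MP_fceebd_gt, Q2: definitions

* `SurfGroup g`: the fundamental group of the closed oriented surface of genus `g`. Mapping
  classes are given by automorphisms of it (Dehn-Nielsen-Baer), up to inner automorphisms.
* `Surf G D`: a triangulated half-translation surface `X` (a Riemann surface with a holomorphic
  quadratic differential `q`, not zero), with labels in a group `G`. It is given by its orientation
  double cover (on which `q` is the square of a 1-form `w`): `D` is the set of the darts
  (oriented edges of the triangles) of the cover, `nxt` is the next dart of the same triangle,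
  counterclockwise, `opp d` is the edge of `d` with the opposite orientation, as a dart of the
  adjacent triangle, `tau` is the deck transformation, `z d` is the integral of `w` along `d`. The
  triangles are flat, and `X` is the quotient by `tau`.
* `MS g`: connected surfaces whose vertices are the zeros of `q` (no regular vertices, no poles),
  whose labels define an isomorphism from the fundamental group to `SurfGroup g` which
  respects the orientations: these are the triangulated points of the Teichmueller space of
  quadratic differentials.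
  Every holomorphic quadratic differential `q`, not zero, on a closed surface of genus `g >= 2` has
  zeros, and there is a flat triangulation whose vertices are exactly the zeros.
* `SameSurf X X'`: there is an isometry from `X` to `X'` which respects the horizontal direction
  and the markings up to homotopy. Two triangulations of one flat surface by flat triangles with
  the same vertices are connected by flips (through Delaunay triangulations).
* `IsAxis f X`: `f X = g_s X` where `s > 0`, `g_s = diag (exp s, exp (-s))`; that is, `f`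
  translates the Teichmueller geodesic of `X` by `s`, and the dilatation is `exp s`.
* `IsPseudoAnosov f`: `f` translates a unique Teichmueller geodesic (its axis).
* `veechGroup X`: the derivatives of the affine self-maps of `X`.
* `OnVeechCurve f`: the quadratic differential of the axis of `f` has a Veech group which is a
  lattice, that is, its Teichmueller disk maps to a Teichmueller curve (Veech curve).
* `Statement`: a mapping class of genus `g` is given as a word in mapping classes, each of which is
  given by the images of the generators of the fundamental group (so a word in a fixed finite set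
  of generators of the mapping class group, such as Dehn twists, is a special case).
-/

set_option autoImplicit false

open MeasureTheory
open scoped UpperHalfPlane MatrixGroups

namespace Pool.Veech

/-! ### The surface group -/

/-- The product of the commutators `[a i, b i]`, `i = 0, ..., g - 1`; here `(i, false)` is `a i` and
`(i, true)` is `b i`. -/
def relator (g : ℕ) : FreeGroup (Fin g × Bool) :=
  (List.ofFn fun i : Fin g => FreeGroup.of (i, false) * FreeGroup.of (i, true) *
    (FreeGroup.of (i, false))⁻¹ * (FreeGroup.of (i, true))⁻¹).prod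

/-- The fundamental group of the closed oriented surface of genus `g`. -/
abbrev SurfGroup (g : ℕ) : Type := PresentedGroup ({relator g} : Set (FreeGroup (Fin g × Bool)))

/-- The generator `a i` (`b = false`) or `b i` (`b = true`). -/
def gen {g : ℕ} (i : Fin g) (b : Bool) : SurfGroup g := PresentedGroup.of (i, b)

/-! ### Plane vectors -/

/-- The plane. -/
abbrev Vec : Type := Fin 2 → ℝ

/-- The cross product. -/
def cr (u v : Vec) : ℝ := u 0 * v 1 - u 1 * v 0

/-! ### Triangulated surfaces with labels -/

/-- A triangulated half-translation surface, given by its orientation double cover, with labels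
in the group `G`: the label of a dart is the class of the path along it. -/
structure Surf (G : Type) [Group G] (D : Type) where
  /-- the next dart of the triangle -/
  nxt : Equiv.Perm D
  /-- the same edge with the opposite orientation -/
  opp : Equiv.Perm D
  /-- the deck transformation of the orientation double cover -/
  tau : Equiv.Perm D
  /-- the holonomy vectors -/
  z : D → Vec
  /-- the labels -/
  lab : D → G
  nxt3 : ∀ d, nxt (nxt (nxt d)) = d
  opp2 : ∀ d, opp (opp d) = d
  tau2 : ∀ d, tau (tau d) = d
  tau_nxt : ∀ d, tau (nxt d) = nxt (tau d)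
  tau_opp : ∀ d, tau (opp d) = opp (tau d)
  opp_ne : ∀ d, opp d ≠ tau d
  closed : ∀ d, z d + z (nxt d) + z (nxt (nxt d)) = 0
  glue : ∀ d, z (opp d) = -z d
  anti : ∀ d, z (tau d) = -z d
  pos : ∀ d, 0 < cr (z d) (z (nxt d))
  lab_closed : ∀ d, lab d * lab (nxt d) * lab (nxt (nxt d)) = 1
  lab_opp : ∀ d, lab (opp d) = (lab d)⁻¹
  lab_tau : ∀ d, lab (tau d) = lab d

namespace Surf

variable {G : Type} [Group G] {D : Type} (S : Surf G D)

/-- The next dart with the same origin, counterclockwise. -/
def turn (d : D) : D := S.opp (S.nxt (S.nxt d))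

/-- The origins of `d` and `d'` are the same point of the surface `X`. -/
def SameOrigin : D → D → Prop :=
  Relation.EqvGen fun d d' => d' = S.turn d ∨ d' = S.tau d

/-- The surface is connected. -/
def Connected : Prop :=
  ∀ d d', Relation.EqvGen (fun a b => b = S.nxt a ∨ b = S.opp a ∨ b = S.tau a) d d'

/-- The direction `u` is strictly inside the angular sector between `d` and the next dart with the
same origin. -/
def Faces (d : D) (u : Vec) : Prop := 0 < cr (S.z d) u ∧ 0 < cr u (S.z (S.turn d))

/-- All vertices are zeros of the quadratic differential: the cone angle of each vertex of the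
double cover is at least `4 π`, that is, there is a direction `u` which occurs at least twice at
each vertex. (A direction which is not the direction of a dart occurs exactly `k` times at a vertex
of cone angle `2 π k`.) -/
def Singular : Prop :=
  ∃ u : Vec, ∀ d, ∃ i j : ℕ, S.turn^[i] d ≠ S.turn^[j] d ∧
    S.Faces (S.turn^[i] d) u ∧ S.Faces (S.turn^[j] d) u

/-- `p` is an edge path of `X` from the origin of `a` to the origin of `b`. -/
inductive IsPath : D → List D → D → Prop
  | nil {a b : D} (h : S.SameOrigin a b) : IsPath a [] b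
  | cons {a b d : D} {p : List D} (h : S.SameOrigin a d) (hp : IsPath (S.nxt d) p b) :
      IsPath a (d :: p) b

/-- Elementary homotopies. -/
inductive Move : List D → List D → Prop
  | back (p q : List D) (d : D) : Move (p ++ q) (p ++ [d, S.opp d] ++ q)
  | tri (p q : List D) (d : D) : Move (p ++ q) (p ++ [d, S.nxt d, S.nxt (S.nxt d)] ++ q)
  | tau (p q : List D) (d : D) : Move (p ++ [d] ++ q) (p ++ [S.tau d] ++ q)

/-- Homotopy of edge paths from the origin of `a` to the origin of `b`. -/
def Homotopic (a b : D) : List D → List D → Prop :=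
  Relation.EqvGen fun p q => S.IsPath a p b ∧ S.IsPath a q b ∧ S.Move p q

/-- The labels define an isomorphism from the fundamental group of `X` to `G`. -/
def IsMarking : Prop :=
  ∀ a : D, (∀ x : G, ∃ p, S.IsPath a p a ∧ (p.map S.lab).prod = x) ∧
    ∀ p, S.IsPath a p a → (p.map S.lab).prod = 1 → S.Homotopic a a p []

/-- The image under a linear map. -/
def act (A : Matrix (Fin 2) (Fin 2) ℝ) (hA : 0 < A.det) : Surf G D where
  nxt := S.nxt
  opp := S.opp
  tau := S.tau
  z d := A.mulVec (S.z d)
  lab := S.lab
  nxt3 := S.nxt3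
  opp2 := S.opp2
  tau2 := S.tau2
  tau_nxt := S.tau_nxt
  tau_opp := S.tau_opp
  opp_ne := S.opp_ne
  closed d := by rw [← Matrix.mulVec_add, ← Matrix.mulVec_add, S.closed, Matrix.mulVec_zero]
  glue d := by rw [S.glue, Matrix.mulVec_neg]
  anti d := by rw [S.anti, Matrix.mulVec_neg]
  pos d := by
    have h : cr (A.mulVec (S.z d)) (A.mulVec (S.z (S.nxt d))) =
        A.det * cr (S.z d) (S.z (S.nxt d)) := by
      simp only [cr, Matrix.mulVec, dotProduct, Fin.sum_univ_two, Matrix.det_fin_two]
      ring
    rw [h]
    exact mul_pos hA (S.pos d)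
  lab_closed := S.lab_closed
  lab_opp := S.lab_opp
  lab_tau := S.lab_tau

/-- The change of the labels by an automorphism. -/
def relab (f : G ≃* G) : Surf G D where
  nxt := S.nxt
  opp := S.opp
  tau := S.tau
  z := S.z
  lab d := f (S.lab d)
  nxt3 := S.nxt3
  opp2 := S.opp2
  tau2 := S.tau2
  tau_nxt := S.tau_nxt
  tau_opp := S.tau_opp
  opp_ne := S.opp_ne
  closed := S.closed
  glue := S.glue
  anti := S.anti
  pos := S.pos
  lab_closed d := by rw [← map_mul, ← map_mul, S.lab_closed, map_one]
  lab_opp d := by rw [S.lab_opp, map_inv]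
  lab_tau d := by rw [S.lab_tau]

end Surf

variable {G : Type} [Group G]

/-- `S'` is `S` with other names for the darts. -/
structure IsRelabel {D D' : Type} (S : Surf G D) (S' : Surf G D') (e : D ≃ D') : Prop where
  nxt : ∀ d, S'.nxt (e d) = e (S.nxt d)
  opp : ∀ d, S'.opp (e d) = e (S.opp d)
  tau : ∀ d, S'.tau (e d) = e (S.tau d)
  z : ∀ d, S'.z (e d) = S.z d
  lab : ∀ d, S'.lab (e d) = S.lab d

/-- `S'` is obtained from `S` by flipping the edge `a`: in the quadrilateral of the two triangles
at `a`, the diagonal `a` is replaced by the other diagonal. The triangles of both surfaces are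
positively oriented, so that the quadrilateral is strictly convex. The same is done at the edge
`S.tau a` of the double cover. The vector and the label of the new diagonal are determined by
`Surf.closed` and `Surf.lab_closed`. -/
structure IsFlip {D : Type} (S S' : Surf G D) (a : D) : Prop where
  opp : S'.opp = S.opp
  tau : S'.tau = S.tau
  nxt1 : S'.nxt a = S.nxt (S.nxt a)
  nxt2 : S'.nxt (S.nxt (S.nxt a)) = S.nxt (S.opp a)
  nxt3 : S'.nxt (S.nxt (S.opp a)) = a
  nxt4 : S'.nxt (S.opp a) = S.nxt (S.nxt (S.opp a))
  nxt5 : S'.nxt (S.nxt (S.nxt (S.opp a))) = S.nxt a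
  nxt6 : S'.nxt (S.nxt a) = S.opp a
  rest : ∀ d, d ∉ ({a, S.nxt a, S.nxt (S.nxt a)} : Set D) →
    d ∉ ({S.opp a, S.nxt (S.opp a), S.nxt (S.nxt (S.opp a))} : Set D) →
    S.tau d ∉ ({a, S.nxt a, S.nxt (S.nxt a)} : Set D) →
    S.tau d ∉ ({S.opp a, S.nxt (S.opp a), S.nxt (S.nxt (S.opp a))} : Set D) →
    S'.nxt d = S.nxt d
  z : ∀ d, d ∉ ({a, S.opp a, S.tau a, S.tau (S.opp a)} : Set D) → S'.z d = S.z d
  lab : ∀ d, d ∉ ({a, S.opp a, S.tau a, S.tau (S.opp a)} : Set D) → S'.lab d = S.lab d

/-- `S'` is `S` with labels which are changed by paths `c` between base points. -/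
structure IsGauge {D : Type} (S S' : Surf G D) (c : D → G) : Prop where
  nxt : S'.nxt = S.nxt
  opp : S'.opp = S.opp
  tau : S'.tau = S.tau
  z : S'.z = S.z
  c_turn : ∀ d, c (S.turn d) = c d
  c_tau : ∀ d, c (S.tau d) = c d
  lab : ∀ d, S'.lab d = c d * S.lab d * (c (S.nxt d))⁻¹

/-- One step: relabelling, a flip, or a change of the base points. -/
inductive Step : (Σ n, Surf G (Fin n)) → (Σ n, Surf G (Fin n)) → Prop
  | relabel {n n' : ℕ} (S : Surf G (Fin n)) (S' : Surf G (Fin n')) (e : Fin n ≃ Fin n')
      (h : IsRelabel S S' e) : Step ⟨n, S⟩ ⟨n', S'⟩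
  | flip {n : ℕ} (S S' : Surf G (Fin n)) (a : Fin n) (h : IsFlip S S' a) : Step ⟨n, S⟩ ⟨n, S'⟩
  | gauge {n : ℕ} (S S' : Surf G (Fin n)) (c : Fin n → G) (h : IsGauge S S' c) :
      Step ⟨n, S⟩ ⟨n, S'⟩

/-! ### Marked surfaces of genus `g` -/

/-- The marking respects the orientations: for `u`, `v` in the first cohomology of the surface, the
integral of `u ∪ v` over `X` (one half of the sum over the triangles of `X`; each triangle of `X` is
counted `6` times in the sum over `D`) is `∑ i, (u (a i) v (b i) - u (b i) v (a i))`. -/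
def IsOriented {g n : ℕ} (S : Surf (SurfGroup g) (Fin n)) : Prop :=
  ∀ u v : SurfGroup g →* Multiplicative ℤ,
    ∑ d, ((u (S.lab d)).toAdd * (v (S.lab (S.nxt d))).toAdd -
      (u (S.lab (S.nxt d))).toAdd * (v (S.lab d)).toAdd) =
    12 * ∑ i, ((u (gen i false)).toAdd * (v (gen i true)).toAdd -
      (u (gen i true)).toAdd * (v (gen i false)).toAdd)

/-- Triangulated marked half-translation surfaces of genus `g`. -/
structure MS (g : ℕ) where
  /-- the number of darts -/
  n : ℕ
  /-- the surface -/
  S : Surf (SurfGroup g) (Fin n)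
  pos : 0 < n
  conn : S.Connected
  sing : S.Singular
  mark : S.IsMarking
  orient : IsOriented S

namespace MS

/-- The underlying labelled triangulated surface. -/
def toSigma {g : ℕ} (X : MS g) : Σ n, Surf (SurfGroup g) (Fin n) := ⟨X.n, X.S⟩

end MS

/-- The two surfaces are isometric, by an isometry which respects the horizontal direction and
the labels up to a change of base points. -/
def SameSurf : (Σ n, Surf G (Fin n)) → (Σ n, Surf G (Fin n)) → Prop := Relation.EqvGen Step

section lemmas

variable {D D' : Type}

theorem Surf.ext' {S S' : Surf G D} (h1 : S.nxt = S'.nxt) (h2 : S.opp = S'.opp)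
    (h3 : S.tau = S'.tau) (h4 : S.z = S'.z) (h5 : S.lab = S'.lab) : S = S' := by
  cases S; cases S'
  simp only at h1 h2 h3 h4 h5
  subst h1 h2 h3 h4 h5
  rfl

theorem IsRelabel.act {S : Surf G D} {S' : Surf G D'} {e : D ≃ D'} (h : IsRelabel S S' e)
    (A : Matrix (Fin 2) (Fin 2) ℝ) (hA : 0 < A.det) : IsRelabel (S.act A hA) (S'.act A hA) e :=
  ⟨h.nxt, h.opp, h.tau, fun d => by change A.mulVec _ = A.mulVec _; rw [h.z], h.lab⟩

theorem IsRelabel.relab {S : Surf G D} {S' : Surf G D'} {e : D ≃ D'} (h : IsRelabel S S' e)
    (f : G ≃* G) : IsRelabel (S.relab f) (S'.relab f) e :=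
  ⟨h.nxt, h.opp, h.tau, h.z, fun d => by change f _ = f _; rw [h.lab]⟩

theorem IsFlip.act {S S' : Surf G D} {a : D} (h : IsFlip S S' a)
    (A : Matrix (Fin 2) (Fin 2) ℝ) (hA : 0 < A.det) : IsFlip (S.act A hA) (S'.act A hA) a :=
  ⟨h.opp, h.tau, h.nxt1, h.nxt2, h.nxt3, h.nxt4, h.nxt5, h.nxt6, h.rest,
    fun d hd => by change A.mulVec _ = A.mulVec _; rw [h.z d hd], h.lab⟩

theorem IsFlip.relab {S S' : Surf G D} {a : D} (h : IsFlip S S' a) (f : G ≃* G) :
    IsFlip (S.relab f) (S'.relab f) a :=
  ⟨h.opp, h.tau, h.nxt1, h.nxt2, h.nxt3, h.nxt4, h.nxt5, h.nxt6, h.rest, h.z,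
    fun d hd => by change f _ = f _; rw [h.lab d hd]⟩

theorem IsGauge.act {S S' : Surf G D} {c : D → G} (h : IsGauge S S' c)
    (A : Matrix (Fin 2) (Fin 2) ℝ) (hA : 0 < A.det) : IsGauge (S.act A hA) (S'.act A hA) c :=
  ⟨h.nxt, h.opp, h.tau, by funext d; change A.mulVec _ = A.mulVec _; rw [h.z], h.c_turn, h.c_tau,
    h.lab⟩

theorem IsGauge.relab {S S' : Surf G D} {c : D → G} (h : IsGauge S S' c) (f : G ≃* G) :
    IsGauge (S.relab f) (S'.relab f) (fun d => f (c d)) :=
  ⟨h.nxt, h.opp, h.tau, h.z, fun d => congrArg f (h.c_turn d), fun d => congrArg f (h.c_tau d),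
    fun d => by
      change f (S'.lab d) = f (c d) * f (S.lab d) * (f (c (S.nxt d)))⁻¹
      rw [h.lab, map_mul, map_mul, map_inv]⟩

theorem SameSurf.act {X X' : Σ n, Surf G (Fin n)} (h : SameSurf X X')
    (A : Matrix (Fin 2) (Fin 2) ℝ) (hA : 0 < A.det) :
    SameSurf ⟨X.1, X.2.act A hA⟩ ⟨X'.1, X'.2.act A hA⟩ := by
  induction h with
  | rel _ _ h =>
    cases h with
    | relabel S S' e h => exact .rel _ _ (.relabel _ _ e (h.act A hA))
    | flip S S' a h => exact .rel _ _ (.flip _ _ a (h.act A hA))
    | gauge S S' c h => exact .rel _ _ (.gauge _ _ c (h.act A hA))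
  | refl _ => exact .refl _
  | symm _ _ _ ih => exact .symm _ _ ih
  | trans _ _ _ _ _ ih1 ih2 => exact .trans _ _ _ ih1 ih2

theorem SameSurf.relab {X X' : Σ n, Surf G (Fin n)} (h : SameSurf X X') (f : G ≃* G) :
    SameSurf ⟨X.1, X.2.relab f⟩ ⟨X'.1, X'.2.relab f⟩ := by
  induction h with
  | rel _ _ h =>
    cases h with
    | relabel S S' e h => exact .rel _ _ (.relabel _ _ e (h.relab f))
    | flip S S' a h => exact .rel _ _ (.flip _ _ a (h.relab f))
    | gauge S S' c h => exact .rel _ _ (.gauge _ _ _ (h.relab f))
  | refl _ => exact .refl _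
  | symm _ _ _ ih => exact .symm _ _ ih
  | trans _ _ _ _ _ ih1 ih2 => exact .trans _ _ _ ih1 ih2

theorem Surf.act_act (S : Surf G D) (A B : Matrix (Fin 2) (Fin 2) ℝ) (hA : 0 < A.det)
    (hB : 0 < B.det) (hBA : 0 < (B * A).det) : (S.act A hA).act B hB = S.act (B * A) hBA :=
  Surf.ext' rfl rfl rfl (by funext d; exact Matrix.mulVec_mulVec (S.z d) B A) rfl

theorem Surf.act_one (S : Surf G D) (h : 0 < (1 : Matrix (Fin 2) (Fin 2) ℝ).det) :
    S.act 1 h = S :=
  Surf.ext' rfl rfl rfl (by funext d; exact Matrix.one_mulVec (S.z d)) rfl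

end lemmas

theorem det_pos (A : SL(2, ℝ)) : 0 < A.1.det := by
  rw [A.2]
  exact one_pos

/-- The derivatives of the affine self-maps of `X`: those `A` for which `A X` is isometric to `f X`
for some mapping class `f`. -/
def veechGroup {g : ℕ} (X : MS g) : Subgroup SL(2, ℝ) where
  carrier := {A | ∃ f : SurfGroup g ≃* SurfGroup g,
    SameSurf ⟨X.n, X.S.relab f⟩ ⟨X.n, X.S.act A.1 (det_pos A)⟩}
  one_mem' := by
    refine ⟨MulEquiv.refl _, ?_⟩
    have h : X.S.relab (MulEquiv.refl _) = X.S.act (1 : SL(2, ℝ)).1 (det_pos 1) :=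
      Surf.ext' rfl rfl rfl (by funext d; exact (Matrix.one_mulVec _).symm) rfl
    rw [h]
    exact .refl _
  mul_mem' := by
    rintro A B ⟨f, hf⟩ ⟨f', hf'⟩
    refine ⟨f.trans f', ?_⟩
    have h1 : SameSurf ⟨X.n, X.S.relab (f.trans f')⟩ ⟨X.n, (X.S.act A.1 (det_pos A)).relab f'⟩ :=
      hf.relab f'
    have h2 : SameSurf ⟨X.n, (X.S.act A.1 (det_pos A)).relab f'⟩
        ⟨X.n, (X.S.act B.1 (det_pos B)).act A.1 (det_pos A)⟩ := SameSurf.act hf' A.1 (det_pos A)
    rw [Surf.act_act _ _ _ _ _ (det_pos (A * B))] at h2
    exact .trans _ _ _ h1 h2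
  inv_mem' := by
    rintro A ⟨f, hf⟩
    refine ⟨f.symm, .symm _ _ ?_⟩
    have h1 := SameSurf.act (hf.relab f.symm) A⁻¹.1 (det_pos A⁻¹)
    have h2 : ((X.S.relab f).relab f.symm).act A⁻¹.1 (det_pos A⁻¹) =
        X.S.act A⁻¹.1 (det_pos A⁻¹) :=
      Surf.ext' rfl rfl rfl rfl (by funext d; exact f.symm_apply_apply _)
    have h3 : ((X.S.act A.1 (det_pos A)).relab f.symm).act A⁻¹.1 (det_pos A⁻¹) =
        X.S.relab f.symm := by
      refine Surf.ext' rfl rfl rfl ?_ rfl
      funext d
      change A⁻¹.1.mulVec (A.1.mulVec (X.S.z d)) = X.S.z d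
      rw [Matrix.mulVec_mulVec, ← Matrix.SpecialLinearGroup.coe_mul, inv_mul_cancel,
        Matrix.SpecialLinearGroup.coe_one, Matrix.one_mulVec]
    simp only [h2, h3] at h1
    exact h1

/-- A lattice in `SL(2, ℝ)`: a discrete subgroup of finite covolume. -/
def IsLattice (Γ : Subgroup SL(2, ℝ)) : Prop :=
  (∃ ε : ℝ, 0 < ε ∧ ∀ A ∈ Γ, (∀ i j, |A.1 i j - (1 : Matrix (Fin 2) (Fin 2) ℝ) i j| < ε) →
    A = 1) ∧
    ∃ F : Set ℍ, MeasurableSet F ∧ volume F < ⊤ ∧ ∀ τ : ℍ, ∃ A ∈ Γ, A • τ ∈ F

/-! ### Pseudo-Anosov mapping classes -/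

/-- The Teichmueller flow. -/
noncomputable def flow (s : ℝ) : Matrix (Fin 2) (Fin 2) ℝ := !![Real.exp s, 0; 0, Real.exp (-s)]

theorem flow_det (s : ℝ) : 0 < (flow s).det := by
  rw [flow, Matrix.det_fin_two_of, mul_zero, sub_zero, ← Real.exp_add, add_neg_cancel,
    Real.exp_zero]
  exact one_pos

/-- The Teichmueller geodesic of `X` is an axis of the mapping class `f`: it is translated by
`s > 0`. -/
def IsAxis {g : ℕ} (f : SurfGroup g ≃* SurfGroup g) (X : MS g) : Prop :=
  ∃ s : ℝ, 0 < s ∧ SameSurf ⟨X.n, X.S.relab f⟩ ⟨X.n, X.S.act (flow s) (flow_det s)⟩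

/-- The mapping class `f` is pseudo-Anosov: it translates a unique Teichmueller geodesic, its axis
(two quadratic differentials on one geodesic differ by the flow and by a positive factor, that is,
by a diagonal matrix). By the theorem of Bers every pseudo-Anosov mapping class satisfies this, and
a mapping class which satisfies this is pseudo-Anosov. -/
def IsPseudoAnosov {g : ℕ} (f : SurfGroup g ≃* SurfGroup g) : Prop :=
  (∃ X : MS g, IsAxis f X) ∧ ∀ X X' : MS g, IsAxis f X → IsAxis f X' →
    ∃ (a b : ℝ) (ha : 0 < a) (hb : 0 < b), SameSurf ⟨X'.n, X'.S⟩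
      ⟨X.n, X.S.act !![a, 0; 0, b] (by rw [Matrix.det_fin_two_of]; simpa using mul_pos ha hb)⟩

/-- The closed Teichmueller geodesic of `f` lies on a Veech curve: the quadratic differential of
its axis generates a Veech curve, that is, its Veech group is a lattice. (If the closed geodesic is
contained in the image of some Teichmueller disk, then countably many translates of this disk
cover the axis, so that by the theorem of Baire one of them contains a segment of the axis, and so
it is the disk which is generated by the quadratic differential of the axis.) -/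
def OnVeechCurve {g : ℕ} (f : SurfGroup g ≃* SurfGroup g) : Prop :=
  ∃ X : MS g, IsAxis f X ∧ IsLattice (veechGroup X)

/-! ### The input of the algorithm -/

/-- A letter: `(k, s)` is the generator number `k` if `s = true`, and its inverse if `s = false`; the
generators number `2 i` and `2 i + 1` are `a i` and `b i`. -/
def letter (g : ℕ) (l : ℕ × Bool) : SurfGroup g :=
  if h : l.1 / 2 < g then
    if l.2 then gen ⟨l.1 / 2, h⟩ (l.1 % 2 = 1) else (gen ⟨l.1 / 2, h⟩ (l.1 % 2 = 1))⁻¹
  else 1

/-- The element of the surface group which is given by a word. -/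
def word (g : ℕ) (w : List (ℕ × Bool)) : SurfGroup g := (w.map (letter g)).prod

/-- The list of words `w` gives the automorphism `f`: the image of the `k`-th generator is given by
the `k`-th word. -/
def Represents (g : ℕ) (w : List (List (ℕ × Bool))) (f : SurfGroup g ≃* SurfGroup g) : Prop :=
  w.length = 2 * g ∧ ∀ k < 2 * g, f (letter g (k, true)) = word g (w.getD k [])

/-- The list `L` gives the automorphism `f` as a product: the members of `L` give automorphisms
`f 1`, ..., `f k`, and `f` is their product (composition) `f 1 * ... * f k`. -/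
inductive RepresentsList (g : ℕ) :
    List (List (List (ℕ × Bool))) → (SurfGroup g ≃* SurfGroup g) → Prop
  | nil : RepresentsList g [] (MulEquiv.refl _)
  | cons {w : List (List (ℕ × Bool))} {L : List (List (List (ℕ × Bool)))}
      {f h : SurfGroup g ≃* SurfGroup g} (hf : Represents g w f) (hL : RepresentsList g L h) :
      RepresentsList g (w :: L) (h.trans f)

/-- Q2: there is an algorithm which decides, given `g` and a pseudo-Anosov mapping class `f` of
genus `g`, whether its closed Teichmueller geodesic lies on a Veech curve. The algorithm is a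
partial recursive function `F`; it halts on each input which gives a pseudo-Anosov mapping
class. -/
def Statement : Prop :=
  ∃ F : ℕ × List (List (List (ℕ × Bool))) →. Bool, Partrec F ∧
    ∀ g : ℕ, 2 ≤ g → ∀ f : SurfGroup g ≃* SurfGroup g, IsPseudoAnosov f →
      ∀ L, RepresentsList g L f → ∃ b ∈ F (g, L), (b = true ↔ OnVeechCurve f)

end Pool.Veech
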