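import Pool.Agent.Lib.MP_fceebd_gt.D0
import Pool.Agent.Lib.MP_fceebd_gt.A3c

/-! # Row E1: orbits of core vectors are locally finite -/

set_option autoImplicit false

open scoped MatrixGroups

namespace Pool.Veech

variable {D : Type} [Fintype D] [DecidableEq D] {T T' : Tri D} {z : D → Vec} {m : Matrix D D ℤ}
  {i : D → ℤ} {c : Vec} {α : ℝ}

omit [Fintype D] [DecidableEq D] in
private theorem E1_cast (h : IsCoc T i) : IsCoc T (fun e => (i e : ℝ)) := by
  refine ⟨fun d => ?_, fun d => ?_⟩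
  · have := h.closed d
    exact_mod_cast this
  · rw [h.glue]
    push_cast
    rfl

omit [Fintype D] [DecidableEq D] in
private theorem E1_coord (h : IsCoc T z) (j : Fin 2) : IsCoc T (fun e => z e j) := by
  refine ⟨fun d => ?_, fun d => ?_⟩
  · have := congrFun (h.closed d) j
    simpa using this
  · rw [h.glue]
    rfl

theorem IsCyl.trans (h : IsCyl T z i c α) (hm : GPath T z T' m) :
    IsCyl T' (app m z) (app m i) c α := by
  refine ⟨hm.coc h.coc, ?_, h.cne, h.apos, ?_⟩
  · intro j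
    have h1 := hm.form (E1_cast h.coc) (E1_coord hm.geo_left.coc j)
    rw [h.form_eq j] at h1
    rw [← h1]
    congr 1
    · funext e
      exact (app_intCast m i e).symm
    · funext e
      exact (app_coord m z e j).symm
  · intro T'' m' h' e
    have := h.bound T'' (m' * m) (hm.trans h') e
    rw [app_mul, app_mul] at this
    exact this

private theorem E1_lininv (z : D → Vec) (A : SL(2, ℝ)) : lin (A⁻¹).1 (lin A.1 z) = z := by
  rw [lin_lin]
  have : (A⁻¹).1 * A.1 = 1 := congrArg Subtype.val (inv_mul_cancel A)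
  rw [this, lin_one]

private theorem E1_inv (v : Vec) (A : SL(2, ℝ)) : (A⁻¹).1.mulVec (A.1.mulVec v) = v := by
  rw [Matrix.mulVec_mulVec]
  have : (A⁻¹).1 * A.1 = 1 := congrArg Subtype.val (inv_mul_cancel A)
  rw [this, Matrix.one_mulVec]

private theorem E1_det (A : SL(2, ℝ)) : 0 < (A.1).det := by
  rw [A.2]
  exact one_pos

theorem IsCyl.linear (h : IsCyl T z i c α) (hz : Geo T z) (A : SL(2, ℝ)) :
    IsCyl T (lin A.1 z) i (A.1.mulVec c) α := by
  refine ⟨h.coc, ?_, ?_, h.apos, ?_⟩
  · intro j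
    have e0 := h.form_eq 0
    have e1 := h.form_eq 1
    have e2 : form T (fun e => (i e : ℝ)) (fun e => (lin A.1 z e) j) =
        A.1 j 0 * form T (fun e => (i e : ℝ)) (fun e => z e 0) +
        A.1 j 1 * form T (fun e => (i e : ℝ)) (fun e => z e 1) := by
      simp only [form, Finset.mul_sum, ← Finset.sum_add_distrib]
      apply Finset.sum_congr rfl
      intro d _
      simp only [lin, Matrix.mulVec, dotProduct, Fin.sum_univ_two]
      ring
    rw [e2, e0, e1]
    simp only [Matrix.mulVec, dotProduct, Fin.sum_univ_two]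
    ring
  · intro h0
    apply h.cne
    rw [← E1_inv c A, h0, Matrix.mulVec_zero]
  · intro T' m hm e
    have h1 : GPath T z T' m := by
      have := hm.lin (A⁻¹).1 (E1_det _)
      rwa [E1_lininv] at this
    have h2 := h.bound T' m h1 e
    rw [app_lin]
    simp only [lin]
    rw [cr_mulVec, A.2, one_mul]
    exact h2

/-- an affine map moves cylinders to cylinders -/
theorem IsCyl.move (h : IsCyl T z i c α) {A : SL(2, ℝ)} (hm : GPath T z T m)
    (hA : app m z = Veech.lin A.1 z) : IsCyl T z (app m i) (A⁻¹.1.mulVec c) α := by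
  have h1 := h.trans hm
  have hg := hm.geo
  rw [hA] at h1 hg
  have h2 := h1.linear hg A⁻¹
  rwa [E1_lininv] at h2

private theorem E1_cr (u v : Vec) : cr u v ^ 2 ≤ nq u * nq v := by
  simp only [cr, nq, ip]
  nlinarith [sq_nonneg (u 0 * v 0 + u 1 * v 1)]

private theorem E1_nq (u : Vec) : 0 ≤ nq u := by
  simp only [nq, ip]
  nlinarith [sq_nonneg (u 0), sq_nonneg (u 1)]

/-- The cocycle of `A c` is bounded by `|z d| |A c| / α`, it is integral, and it determines `A c`. -/
theorem IsCyl.orbit_finite (h : IsCyl T z i c α) (hz : Geo T z) (R : ℝ) :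
    {v : Vec | (∃ A ∈ aff T z hz, v = A.1.mulVec c) ∧ nq v ≤ R}.Finite := by
  obtain ⟨B, hB⟩ : ∃ B : D → ℤ, ∀ e, B e = ⌈Real.sqrt (nq (z e) * R) / α⌉ := ⟨_, fun _ => rfl⟩
  have hfin : (Set.pi Set.univ (fun e => Set.Icc (-(B e)) (B e))).Finite :=
    Set.Finite.pi (fun e => Set.finite_Icc _ _)
  refine (hfin.image (fun (k : D → ℤ) (j : Fin 2) =>
    form T (fun e => (k e : ℝ)) (fun e => z e j) / 6)).subset ?_
  rintro v ⟨⟨A, hA, rfl⟩, hR⟩
  have hA' : A⁻¹ ∈ aff T z hz := (aff T z hz).inv_mem hA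
  rw [mem_aff] at hA'
  obtain ⟨m, hm, hmA⟩ := hA'
  have h1 := h.move hm hmA
  rw [inv_inv] at h1
  refine ⟨app m i, ?_, ?_⟩
  · rw [Set.mem_pi]
    intro e _
    have h2 := (h1.bound T 1 (GPath.refl hz) e).2
    rw [app_one, app_one] at h2
    have h3 : |cr (z e) (A.1.mulVec c)| ≤ Real.sqrt (nq (z e) * R) := by
      apply Real.le_sqrt_of_sq_le
      rw [sq_abs]
      exact (E1_cr _ _).trans (mul_le_mul_of_nonneg_left hR (E1_nq _))
    have h4 : |((app m i e : ℤ) : ℝ)| ≤ Real.sqrt (nq (z e) * R) / α := by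
      rw [le_div_iff₀ h.apos]
      linarith
    have h5 : |((app m i e : ℤ) : ℝ)| ≤ ((B e : ℤ) : ℝ) := by
      rw [hB]
      exact h4.trans (Int.le_ceil _)
    rw [Set.mem_Icc, ← abs_le]
    exact_mod_cast h5
  · funext j
    have := h1.form_eq j
    show form T (fun e => ((app m i e : ℤ) : ℝ)) (fun e => z e j) / 6 = (A.1.mulVec c) j
    rw [this]
    ring

end Pool.Veech
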