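import Pool.Agent.Lib.MP_fceebd_gt.Tri

/-! # Row F1: a vector with a locally finite orbit under a group of finite covolume is fixed by a
nontrivial element.
Proof. Conjugate so that `c = (1, 0)`-direction. Let `N τ v = |v 0 + v 1 τ|^2 / im τ` (or the
appropriate form which is invariant: `N (A τ) (A v) = N τ v`). By local finiteness we may
replace `c` by a shortest vector of its orbit among those parallel to `c`. Let
`U = {τ | N τ c < N τ v for all v in the orbit of c, v ≠ ± c}`. If no element `≠ 1` fixes `c` then only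
`± 1` maps `c` to `± c` (`A c = - c` implies `A^2 c = c`, so `A^2 = 1`, `A = ± 1`), so the sets `A U`, `A` in
`Γ / ± 1`, are disjoint, and `volume U ≤ ∑ volume (U ∩ A⁻¹ F) ≤ volume F < ∞`. But `U` contains
`{x ≥ X₀, y ≥ x}` for large `X₀` (here `c` corresponds to the cusp at infinity), whose volume is
`∫ dx / x = ∞`: for `v = (a, b)` in the orbit with `b ≠ 0` and `(a + b x)^2 + b^2 y^2 ≤ 1` we get
`|b| x ≤ |b| y ≤ 1`, `|a| ≤ 2`, so `v` is in a finite set, and then `b^2 y^2 > 1` for large `y`.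
The measure on `ℍ` is invariant in Mathlib (`UpperHalfPlane` measure file). -/

set_option autoImplicit false

open MeasureTheory
open scoped UpperHalfPlane MatrixGroups

namespace Pool.Veech

/-! ### The measure -/

private theorem F1_mp (A : SL(2, ℝ)) : MeasurePreserving (fun τ : ℍ => A • τ) volume volume := by
  have h := measurePreserving_smul (Matrix.SpecialLinearGroup.mapGL ℝ A) (volume : Measure ℍ)
  exact h

private theorem F1_vol (A : SL(2, ℝ)) {S : Set ℍ} (hS : MeasurableSet S) :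
    volume ((fun τ : ℍ => A • τ) ⁻¹' S) = volume S :=
  (F1_mp A).measure_preimage hS.nullMeasurableSet

private theorem F1_box {a : ℝ} (ha : 0 < a) : ENNReal.ofReal (1 / 8) ≤
    volume {τ : ℍ | a ≤ τ.re ∧ τ.re < 2 * a ∧ 2 * a ≤ τ.im ∧ τ.im < 4 * a} := by
  rw [UpperHalfPlane.volume_eq_lintegral]
  obtain ⟨T, hT⟩ : ∃ T : Set ℂ, T = Complex.measurableEquivRealProd ⁻¹'
      (Set.Ico a (2 * a) ×ˢ Set.Ico (2 * a) (4 * a)) := ⟨_, rfl⟩
  have himg : UpperHalfPlane.coe '' {τ : ℍ | a ≤ τ.re ∧ τ.re < 2 * a ∧ 2 * a ≤ τ.im ∧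
      τ.im < 4 * a} = T := by
    rw [hT]
    ext z
    constructor
    · rintro ⟨τ, ⟨h1, h2, h3, h4⟩, rfl⟩
      exact ⟨⟨h1, h2⟩, h3, h4⟩
    · rintro ⟨⟨h1, h2⟩, h3, h4⟩
      rw [Complex.measurableEquivRealProd_apply] at h1 h2 h3 h4
      exact ⟨⟨z, by linarith⟩, ⟨h1, h2, h3, h4⟩, rfl⟩
  have hTm : MeasurableSet T := by
    rw [hT]
    exact Complex.measurableEquivRealProd.measurable (measurableSet_Ico.prod measurableSet_Ico)
  have hvT : volume T = ENNReal.ofReal a * ENNReal.ofReal (2 * a) := by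
    rw [hT, Complex.volume_preserving_equiv_real_prod.measure_preimage
      (measurableSet_Ico.prod measurableSet_Ico).nullMeasurableSet, Measure.volume_eq_prod,
      Measure.prod_prod, Real.volume_Ico, Real.volume_Ico]
    congr 2 <;> ring
  rw [himg]
  have h1 : ∀ z ∈ T, ENNReal.ofReal ((1 / (4 * a)) ^ 2) ≤
      (((1 / ‖z.im‖₊) ^ 2 : NNReal) : ENNReal) := by
    intro z hz
    rw [hT] at hz
    obtain ⟨-, h3, h4⟩ := hz
    rw [Complex.measurableEquivRealProd_apply] at h3 h4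
    dsimp only at h3 h4
    have h2 : 0 < z.im := by linarith
    rw [ENNReal.ofReal_le_coe]
    push_cast
    rw [Real.norm_eq_abs, abs_of_pos h2]
    gcongr
  calc ENNReal.ofReal (1 / 8) = ∫⁻ z in T, ENNReal.ofReal ((1 / (4 * a)) ^ 2) := by
        rw [setLIntegral_const, hvT, ← ENNReal.ofReal_mul (by positivity),
          ← ENNReal.ofReal_mul (by positivity)]
        congr 1
        field_simp
        norm_num
    _ ≤ _ := setLIntegral_mono' hTm h1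

/-! ### The invariant norm -/

/-- The invariant norm. -/
private noncomputable def F1_N (τ : ℍ) (v : Vec) : ℝ :=
  Complex.normSq ((v 0 : ℂ) - v 1 * τ) / τ.im

private theorem F1_den (A : SL(2, ℝ)) (τ : ℍ) : ((A 1 0 : ℝ) : ℂ) * τ + (A 1 1 : ℝ) ≠ 0 := by
  have h := UpperHalfPlane.denom_ne_zero (Matrix.SpecialLinearGroup.mapGL ℝ A) τ
  simpa [UpperHalfPlane.denom] using h

private theorem F1_im (A : SL(2, ℝ)) (τ : ℍ) :
    (A • τ).im = τ.im / Complex.normSq (((A 1 0 : ℝ) : ℂ) * τ + (A 1 1 : ℝ)) := by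
  have h := UpperHalfPlane.im_smul_eq_div_normSq (Matrix.SpecialLinearGroup.mapGL ℝ A) τ
  have h' : ((Matrix.SpecialLinearGroup.mapGL ℝ A) • τ).im =
      τ.im / Complex.normSq (((A 1 0 : ℝ) : ℂ) * τ + (A 1 1 : ℝ)) := by
    simpa [UpperHalfPlane.denom] using h
  exact h'

private theorem F1_inv (A : SL(2, ℝ)) (τ : ℍ) (v : Vec) :
    F1_N (A • τ) (A.1.mulVec v) = F1_N τ v := by
  have hD := F1_den A τ
  have hdet : ((A 0 0 : ℝ) : ℂ) * (A 1 1 : ℝ) - (A 0 1 : ℝ) * (A 1 0 : ℝ) = 1 := by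
    have := A.2
    rw [Matrix.det_fin_two] at this
    exact_mod_cast this
  have h1 : (((A.1.mulVec v) 0 : ℝ) : ℂ) - ((A.1.mulVec v) 1 : ℝ) * ((A • τ : ℍ) : ℂ) =
      ((v 0 : ℂ) - v 1 * τ) / (((A 1 0 : ℝ) : ℂ) * τ + (A 1 1 : ℝ)) := by
    rw [UpperHalfPlane.coe_specialLinearGroup_apply]
    simp only [Matrix.mulVec, dotProduct, Fin.sum_univ_two, Algebra.algebraMap_self,
      RingHom.id_apply]
    rw [eq_div_iff hD, sub_mul, mul_assoc, div_mul_cancel₀ _ hD]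
    push_cast
    linear_combination ((v 0 : ℂ) - v 1 * τ) * hdet
  rw [F1_N, F1_N, h1, Complex.normSq_div, F1_im]
  have h2 : Complex.normSq (((A 1 0 : ℝ) : ℂ) * τ + (A 1 1 : ℝ)) ≠ 0 := by
    rwa [Ne, Complex.normSq_eq_zero]
  have h3 := τ.im_ne_zero
  obtain ⟨D, hD'⟩ : ∃ D : ℝ, D = Complex.normSq (((A 1 0 : ℝ) : ℂ) * τ + (A 1 1 : ℝ)) := ⟨_, rfl⟩
  rw [← hD'] at h2 ⊢
  field_simp

private theorem F1_N_eq (τ : ℍ) (v : Vec) :
    F1_N τ v = ((v 0 - v 1 * τ.re) ^ 2 + (v 1 * τ.im) ^ 2) / τ.im := by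
  rw [F1_N, Complex.normSq_apply]
  simp
  ring

private theorem F1_N_cont (v : Vec) : Continuous fun τ : ℍ => F1_N τ v := by
  have h : (fun τ : ℍ => F1_N τ v) =
      fun τ : ℍ => ((v 0 - v 1 * τ.re) ^ 2 + (v 1 * τ.im) ^ 2) / τ.im := by
    funext τ
    exact F1_N_eq τ v
  rw [h]
  have h1 : Continuous fun τ : ℍ => τ.re := UpperHalfPlane.continuous_re
  have h2 : Continuous fun τ : ℍ => τ.im := UpperHalfPlane.continuous_im
  exact ((continuous_const.sub (continuous_const.mul h1)).pow 2 |>.add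
    ((continuous_const.mul h2).pow 2)).div h2 fun τ => τ.im_ne_zero

/-! ### The first basis vector -/

/-- The first basis vector. -/
private def F1_e : Vec := ![1, 0]

private theorem F1_mulVec_e (A : SL(2, ℝ)) : A.1.mulVec F1_e = ![A 0 0, A 1 0] := by
  funext i
  fin_cases i <;> simp [F1_e, Matrix.mulVec, dotProduct]

private theorem F1_pow {A : SL(2, ℝ)} (h : A 1 0 = 0) (k : ℕ) :
    (A ^ k) 0 0 = (A 0 0) ^ k ∧ (A ^ k) 1 0 = 0 := by
  induction k with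
  | zero => simp
  | succ k ih =>
    obtain ⟨h1, h2⟩ := ih
    rw [pow_succ]
    constructor
    · rw [Matrix.SpecialLinearGroup.coe_mul, Matrix.mul_apply, Fin.sum_univ_two, h1, h]
      ring
    · rw [Matrix.SpecialLinearGroup.coe_mul, Matrix.mul_apply, Fin.sum_univ_two, h2, h]
      ring

private theorem F1_det (A : SL(2, ℝ)) : A 0 0 * A 1 1 - A 0 1 * A 1 0 = 1 := by
  have := A.2
  rwa [Matrix.det_fin_two] at this

variable {Γ : Subgroup SL(2, ℝ)}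

private theorem F1_par (hfin : ∀ R : ℝ, {v : Vec | (∃ A ∈ Γ, v = A.1.mulVec F1_e) ∧ nq v ≤ R}.Finite)
    {A : SL(2, ℝ)} (hA : A ∈ Γ) (h : A 1 0 = 0) : 1 ≤ |A 0 0| := by
  by_contra hlt
  rw [not_le] at hlt
  have h0 : A 0 0 ≠ 0 := by
    intro h0
    have := F1_det A
    rw [h0, h] at this
    norm_num at this
  have hinj : Function.Injective fun k : ℕ => (![(A 0 0) ^ k, 0] : Vec) := by
    intro k l hkl
    have h1 : (A 0 0) ^ k = (A 0 0) ^ l := congrFun hkl 0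
    have h2 : |A 0 0| ^ k = |A 0 0| ^ l := by rw [← abs_pow, ← abs_pow, h1]
    exact pow_right_injective₀ (abs_pos.mpr h0) hlt.ne h2
  refine Set.infinite_range_of_injective hinj ((hfin 1).subset ?_)
  rintro _ ⟨k, rfl⟩
  obtain ⟨h1, h2⟩ := F1_pow h k
  refine ⟨⟨A ^ k, Γ.pow_mem hA k, ?_⟩, ?_⟩
  · rw [F1_mulVec_e, h1, h2]
  · have h3 : |A 0 0| ^ k ≤ 1 := pow_le_one₀ (abs_nonneg _) hlt.le
    have h4 : ((A 0 0) ^ k) * ((A 0 0) ^ k) ≤ 1 := by
      rw [← abs_mul_abs_self, abs_pow]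
      exact mul_le_one₀ h3 (by positivity) h3
    simpa [nq, ip] using h4

private theorem F1_pm (hfin : ∀ R : ℝ, {v : Vec | (∃ A ∈ Γ, v = A.1.mulVec F1_e) ∧ nq v ≤ R}.Finite)
    {A : SL(2, ℝ)} (hA : A ∈ Γ) (h : A 1 0 = 0) :
    A.1.mulVec F1_e = F1_e ∨ A.1.mulVec F1_e = -F1_e := by
  have h1 := F1_par hfin hA h
  have hi : (A⁻¹ : SL(2, ℝ)) 1 0 = 0 := by
    rw [Matrix.SpecialLinearGroup.coe_inv, Matrix.adjugate_fin_two]
    simp [h]
  have hi' : (A⁻¹ : SL(2, ℝ)) 0 0 = A 1 1 := by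
    rw [Matrix.SpecialLinearGroup.coe_inv, Matrix.adjugate_fin_two]
    simp
  have h2 := F1_par hfin (Γ.inv_mem hA) hi
  rw [hi'] at h2
  have h3 := F1_det A
  rw [h, mul_zero, sub_zero] at h3
  have h4 : |A 0 0| * |A 1 1| = 1 := by rw [← abs_mul, h3, abs_one]
  have h5 : |A 0 0| = 1 := by nlinarith [abs_nonneg (A 0 0), abs_nonneg (A 1 1)]
  rw [F1_mulVec_e, h]
  rcases abs_eq (zero_le_one) |>.mp h5 with h6 | h6
  · left
    rw [h6]
    rfl
  · right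
    rw [h6]
    funext i
    fin_cases i <;> simp [F1_e]

private theorem F1_triv (hno : ∀ A ∈ Γ, A.1.mulVec F1_e = F1_e → A = 1) {A : SL(2, ℝ)}
    (hA : A ∈ Γ) (h : A.1.mulVec F1_e = F1_e ∨ A.1.mulVec F1_e = -F1_e) (τ : ℍ) :
    A • τ = τ := by
  rcases h with h | h
  · rw [hno A hA h, one_smul]
  · have h1 : A * A = 1 := by
      apply hno _ (Γ.mul_mem hA hA)
      rw [Matrix.SpecialLinearGroup.coe_mul, ← Matrix.mulVec_mulVec, h, Matrix.mulVec_neg, h,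
        neg_neg]
    rw [F1_mulVec_e] at h
    have h2 : A 0 0 = -1 := by
      have := congrFun h 0
      simpa [F1_e] using this
    have h3 : A 1 0 = 0 := by
      have := congrFun h 1
      simpa [F1_e] using this
    have h4 := F1_det A
    rw [h2, h3] at h4
    have h5 : A 1 1 = -1 := by linarith
    have h6 : A 0 1 = 0 := by
      have h7 : (A * A) 0 1 = (1 : SL(2, ℝ)) 0 1 := by rw [h1]
      rw [Matrix.SpecialLinearGroup.coe_mul, Matrix.mul_apply, Fin.sum_univ_two, h2, h5] at h7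
      simp at h7
      linarith
    ext
    rw [UpperHalfPlane.coe_specialLinearGroup_apply, h2, h3, h5, h6]
    simp

/-- The region in which the norm of the first basis vector is the smallest one. -/
private def F1_U (Γ : Subgroup SL(2, ℝ)) : Set ℍ :=
  {τ | ∀ A ∈ Γ, A.1.mulVec F1_e ≠ F1_e → A.1.mulVec F1_e ≠ -F1_e →
    F1_N τ F1_e < F1_N τ (A.1.mulVec F1_e)}

private theorem F1_U_meas (hΓ : Countable Γ) : MeasurableSet (F1_U Γ) := by
  have h : F1_U Γ = ⋂ A : Γ, {τ | A.1.1.mulVec F1_e ≠ F1_e → A.1.1.mulVec F1_e ≠ -F1_e →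
      F1_N τ F1_e < F1_N τ (A.1.1.mulVec F1_e)} := by
    ext τ
    rw [Set.mem_iInter]
    exact ⟨fun h A => h A.1 A.2, fun h A hA => h ⟨A, hA⟩⟩
  rw [h]
  refine MeasurableSet.iInter fun A => ?_
  by_cases h1 : A.1.1.mulVec F1_e ≠ F1_e ∧ A.1.1.mulVec F1_e ≠ -F1_e
  · have h2 : {τ : ℍ | A.1.1.mulVec F1_e ≠ F1_e → A.1.1.mulVec F1_e ≠ -F1_e →
        F1_N τ F1_e < F1_N τ (A.1.1.mulVec F1_e)} =
        {τ : ℍ | F1_N τ F1_e < F1_N τ (A.1.1.mulVec F1_e)} := by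
      ext τ
      exact ⟨fun h3 => h3 h1.1 h1.2, fun h3 _ _ => h3⟩
    rw [h2]
    exact (isOpen_lt (F1_N_cont _) (F1_N_cont _)).measurableSet
  · have h2 : {τ : ℍ | A.1.1.mulVec F1_e ≠ F1_e → A.1.1.mulVec F1_e ≠ -F1_e →
        F1_N τ F1_e < F1_N τ (A.1.1.mulVec F1_e)} = Set.univ := by
      ext τ
      exact ⟨fun _ => trivial, fun _ h3 h4 => absurd ⟨h3, h4⟩ h1⟩
    rw [h2]
    exact MeasurableSet.univ

private theorem F1_U_disj (hno : ∀ A ∈ Γ, A.1.mulVec F1_e = F1_e → A = 1) {A : SL(2, ℝ)}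
    (hA : A ∈ Γ) {τ : ℍ} (h1 : τ ∈ F1_U Γ) (h2 : A • τ ∈ F1_U Γ) (σ : ℍ) : A • σ = σ := by
  by_cases h : A.1.mulVec F1_e = F1_e ∨ A.1.mulVec F1_e = -F1_e
  · exact F1_triv hno hA h σ
  · rw [not_or] at h
    exfalso
    have h3 := h2 A hA h.1 h.2
    rw [F1_inv] at h3
    have hi : A.1.mulVec ((A⁻¹ : SL(2, ℝ)).1.mulVec F1_e) = F1_e := by
      rw [Matrix.mulVec_mulVec, ← Matrix.SpecialLinearGroup.coe_mul, mul_inv_cancel,
        Matrix.SpecialLinearGroup.coe_one, Matrix.one_mulVec]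
    have h4 := h1 A⁻¹ (Γ.inv_mem hA) (fun h5 => h.1 (by rw [h5] at hi; exact hi)) (fun h5 => by
      rw [h5, Matrix.mulVec_neg] at hi
      exact h.2 (neg_eq_iff_eq_neg.mp hi))
    have h6 := F1_inv A τ ((A⁻¹ : SL(2, ℝ)).1.mulVec F1_e)
    rw [hi] at h6
    rw [← h6] at h4
    exact lt_asymm h3 h4

private theorem F1_U_vol (hΓ : Countable Γ) {F : Set ℍ} (hF : MeasurableSet F)
    (hcov : ∀ τ : ℍ, ∃ A ∈ Γ, A • τ ∈ F)
    (hno : ∀ A ∈ Γ, A.1.mulVec F1_e = F1_e → A = 1) : volume (F1_U Γ) ≤ volume F := by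
  obtain ⟨f, hf⟩ := exists_surjective_nat Γ
  have hsm : ∀ n, Measurable fun τ : ℍ => (f n).1 • τ := fun n => (F1_mp (f n).1).measurable
  obtain ⟨E, hE⟩ : ∃ E : ℕ → Set ℍ, E = fun n => {τ | τ ∈ F1_U Γ ∧ (f n).1 • τ ∈ F ∧
      ∀ m < n, (f m).1 • τ ∉ F} := ⟨_, rfl⟩
  have hEm : ∀ n, MeasurableSet (E n) := by
    intro n
    have h1 : E n = F1_U Γ ∩ ((fun τ : ℍ => (f n).1 • τ) ⁻¹' F ∩
        ⋂ m ∈ Set.Iio n, ((fun τ : ℍ => (f m).1 • τ) ⁻¹' F)ᶜ) := by
      rw [hE]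
      ext τ
      simp only [Set.mem_inter_iff, Set.mem_preimage, Set.mem_iInter, Set.mem_compl_iff,
        Set.mem_Iio]
      exact Iff.rfl
    rw [h1]
    refine (F1_U_meas hΓ).inter ((hsm n hF).inter ?_)
    exact MeasurableSet.biInter (Set.to_countable _) fun m _ => (hsm m hF).compl
  have hcovE : F1_U Γ ⊆ ⋃ n, E n := by
    intro τ hτ
    classical
    have h1 : ∃ n, (f n).1 • τ ∈ F := by
      obtain ⟨A, hA, h⟩ := hcov τ
      obtain ⟨n, hn⟩ := hf ⟨A, hA⟩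
      exact ⟨n, by rw [hn]; exact h⟩
    rw [Set.mem_iUnion]
    refine ⟨Nat.find h1, ?_⟩
    rw [hE]
    exact ⟨hτ, Nat.find_spec h1, fun m hm => Nat.find_min h1 hm⟩
  obtain ⟨G, hG⟩ : ∃ G : ℕ → Set ℍ, G = fun n => (fun τ : ℍ => (f n).1⁻¹ • τ) ⁻¹' (E n) :=
    ⟨_, rfl⟩
  have hGm : ∀ n, MeasurableSet (G n) := by
    intro n
    rw [hG]
    exact (F1_mp (f n).1⁻¹).measurable (hEm n)
  have hGE : ∀ n, volume (G n) = volume (E n) := by
    intro n
    rw [hG]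
    exact F1_vol _ (hEm n)
  have hGF : ∀ n, G n ⊆ F := by
    intro n τ hτ
    rw [hG, hE] at hτ
    obtain ⟨-, h2, -⟩ := hτ
    rwa [smul_inv_smul] at h2
  have hdis : Pairwise (Function.onFun Disjoint G) := by
    have key : ∀ m n, m < n → ∀ τ, τ ∈ G m → τ ∈ G n → False := by
      intro m n hmn τ h1 h2
      rw [hG, hE] at h1 h2
      obtain ⟨a1, a2, -⟩ := h1
      obtain ⟨b1, b2, b3⟩ := h2
      have h3 : ((f m).1⁻¹ * (f n).1) • ((f n).1⁻¹ • τ) ∈ F1_U Γ := by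
        rw [mul_smul, smul_inv_smul]
        exact a1
      have h4 := F1_U_disj hno (Γ.mul_mem (Γ.inv_mem (f m).2) (f n).2) b1 h3 ((f n).1⁻¹ • τ)
      rw [mul_smul, smul_inv_smul] at h4
      apply b3 m hmn
      show (f m).1 • ((f n).1⁻¹ • τ) ∈ F
      rw [← h4]
      exact a2
    intro m n hmn
    rw [Function.onFun, Set.disjoint_left]
    intro τ h1 h2
    rcases lt_or_gt_of_ne hmn with h | h
    · exact key m n h τ h1 h2
    · exact key n m h τ h2 h1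
  calc volume (F1_U Γ) ≤ volume (⋃ n, E n) := measure_mono hcovE
    _ ≤ ∑' n, volume (E n) := measure_iUnion_le E
    _ = ∑' n, volume (G n) := tsum_congr fun n => (hGE n).symm
    _ = volume (⋃ n, G n) := (measure_iUnion hdis hGm).symm
    _ ≤ volume F := measure_mono (Set.iUnion_subset hGF)

private theorem F1_U_top
    (hfin : ∀ R : ℝ, {v : Vec | (∃ A ∈ Γ, v = A.1.mulVec F1_e) ∧ nq v ≤ R}.Finite) :
    volume (F1_U Γ) = ⊤ := by
  obtain ⟨X1, hX1⟩ := ((hfin 5).image fun v : Vec => 1 / |v 1|).bddAbove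
  obtain ⟨X, hX⟩ : ∃ X : ℝ, X = max 1 (X1 + 1) := ⟨_, rfl⟩
  have hX0 : 1 ≤ X := by rw [hX]; exact le_max_left _ _
  have hXX : X1 + 1 ≤ X := by rw [hX]; exact le_max_right _ _
  have hsub : ∀ τ : ℍ, X ≤ τ.re → τ.re ≤ τ.im → τ ∈ F1_U Γ := by
    intro τ h1 h2 A hA h3 h4
    have hy : 0 < τ.im := τ.im_pos
    rw [F1_N_eq, F1_N_eq]
    obtain ⟨v, hv⟩ : ∃ v : Vec, v = A.1.mulVec F1_e := ⟨_, rfl⟩
    rw [← hv] at h3 h4 ⊢
    obtain ⟨x, hx⟩ : ∃ x : ℝ, x = τ.re := ⟨_, rfl⟩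
    obtain ⟨y, hy'⟩ : ∃ y : ℝ, y = τ.im := ⟨_, rfl⟩
    rw [← hx] at h1 h2 ⊢
    rw [← hy'] at h2 hy ⊢
    have he0 : F1_e 0 = 1 := rfl
    have he1 : F1_e 1 = 0 := rfl
    rw [he0, he1]
    apply div_lt_div_of_pos_right _ hy
    by_contra hcon
    rw [not_lt] at hcon
    have hcon' : (v 0 - v 1 * x) ^ 2 + (v 1 * y) ^ 2 ≤ 1 := by
      refine hcon.trans (le_of_eq ?_)
      ring
    have b1 : |v 1 * y| ≤ 1 := by
      rw [← sq_le_one_iff_abs_le_one]
      nlinarith [sq_nonneg (v 0 - v 1 * x)]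
    have b2 : |v 0 - v 1 * x| ≤ 1 := by
      rw [← sq_le_one_iff_abs_le_one]
      nlinarith [sq_nonneg (v 1 * y)]
    have b3 : |v 1 * x| ≤ 1 := by
      refine le_trans ?_ b1
      rw [abs_mul, abs_mul, abs_of_pos hy, abs_of_pos (by linarith : (0 : ℝ) < x)]
      exact mul_le_mul_of_nonneg_left h2 (abs_nonneg _)
    have b4 : |v 0| ≤ 2 := by
      calc |v 0| = |(v 0 - v 1 * x) + v 1 * x| := by rw [sub_add_cancel]
        _ ≤ |v 0 - v 1 * x| + |v 1 * x| := abs_add_le _ _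
        _ ≤ 2 := by linarith
    have b5 : |v 1| ≤ 1 := by
      refine le_trans ?_ b1
      rw [abs_mul, abs_of_pos hy]
      nlinarith [abs_nonneg (v 1)]
    have b6 : nq v ≤ 5 := by
      have c1 : v 0 * v 0 ≤ 4 := by
        rw [← abs_mul_abs_self]
        nlinarith [abs_nonneg (v 0)]
      have c2 : v 1 * v 1 ≤ 1 := by
        rw [← abs_mul_abs_self]
        nlinarith [abs_nonneg (v 1)]
      rw [nq, ip]
      linarith
    by_cases h0 : v 1 = 0
    · have c3 : A 1 0 = 0 := by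
        rw [hv, F1_mulVec_e] at h0
        exact h0
      rcases F1_pm hfin hA c3 with h | h
      · exact h3 (hv.trans h)
      · exact h4 (hv.trans h)
    · have c4 : 1 / |v 1| ≤ X1 := hX1 ⟨v, ⟨⟨A, hA, hv⟩, b6⟩, rfl⟩
      have c5 : 0 < |v 1| := abs_pos.mpr h0
      rw [div_le_iff₀ c5] at c4
      rw [abs_mul, abs_of_pos hy] at b1
      nlinarith
  -- the boxes
  obtain ⟨Bk, hBk⟩ : ∃ Bk : ℕ → Set ℍ, Bk = fun k => {τ : ℍ | 2 ^ k * X ≤ τ.re ∧
      τ.re < 2 * (2 ^ k * X) ∧ 2 * (2 ^ k * X) ≤ τ.im ∧ τ.im < 4 * (2 ^ k * X)} := ⟨_, rfl⟩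
  have hXp : 0 < X := by linarith
  have hBsub : ∀ k, Bk k ⊆ F1_U Γ := by
    intro k τ hτ
    rw [hBk] at hτ
    obtain ⟨a1, a2, a3, a4⟩ := hτ
    refine hsub τ (le_trans ?_ a1) (by linarith)
    have h5 : (1 : ℝ) ≤ 2 ^ k := one_le_pow₀ (by norm_num)
    nlinarith
  have hBm : ∀ k, MeasurableSet (Bk k) := by
    intro k
    rw [hBk]
    have h1 : Measurable fun τ : ℍ => τ.re := UpperHalfPlane.continuous_re.measurable
    have h2 : Measurable fun τ : ℍ => τ.im := UpperHalfPlane.continuous_im.measurable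
    exact (measurableSet_le measurable_const h1).inter ((measurableSet_lt h1 measurable_const).inter
      ((measurableSet_le measurable_const h2).inter (measurableSet_lt h2 measurable_const)))
  have hBd : Pairwise (Function.onFun Disjoint Bk) := by
    have key : ∀ m n, m < n → ∀ τ, τ ∈ Bk m → τ ∈ Bk n → False := by
      intro m n hmn τ h1 h2
      rw [hBk] at h1 h2
      obtain ⟨-, a2, -, -⟩ := h1
      obtain ⟨b1, -, -, -⟩ := h2
      have h5 : (2 : ℝ) ^ (m + 1) ≤ 2 ^ n := pow_le_pow_right₀ (by norm_num) hmn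
      rw [pow_succ] at h5
      nlinarith
    intro m n hmn
    rw [Function.onFun, Set.disjoint_left]
    intro τ h1 h2
    rcases lt_or_gt_of_ne hmn with h | h
    · exact key m n h τ h1 h2
    · exact key n m h τ h2 h1
  rw [eq_top_iff]
  calc (⊤ : ENNReal) = ∑' _ : ℕ, ENNReal.ofReal (1 / 8) := by
        rw [ENNReal.tsum_const_eq_top_of_ne_zero]
        simp
    _ ≤ ∑' k, volume (Bk k) := by
        refine ENNReal.tsum_le_tsum fun k => ?_
        rw [hBk]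
        exact F1_box (by positivity)
    _ = volume (⋃ k, Bk k) := (measure_iUnion hBd hBm).symm
    _ ≤ volume (F1_U Γ) := measure_mono (Set.iUnion_subset hBsub)

private theorem F1_first (Γ : Subgroup SL(2, ℝ)) (hΓ : Countable Γ) (F : Set ℍ)
    (hF : MeasurableSet F) (hvol : volume F < ⊤) (hcov : ∀ τ : ℍ, ∃ A ∈ Γ, A • τ ∈ F)
    (hfin : ∀ R : ℝ, {v : Vec | (∃ A ∈ Γ, v = A.1.mulVec F1_e) ∧ nq v ≤ R}.Finite) :
    ∃ A ∈ Γ, A ≠ 1 ∧ A.1.mulVec F1_e = F1_e := by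
  by_contra hcon
  push Not at hcon
  have hno : ∀ A ∈ Γ, A.1.mulVec F1_e = F1_e → A = 1 := by
    intro A hA h
    by_contra h1
    exact hcon A hA h1 h
  have h1 := F1_U_vol hΓ hF hcov hno
  rw [F1_U_top hfin, top_le_iff] at h1
  exact hvol.ne h1

theorem exists_fixing (Γ : Subgroup SL(2, ℝ)) (hΓ : Countable Γ) (F : Set ℍ)
    (hF : MeasurableSet F) (hvol : volume F < ⊤) (hcov : ∀ τ : ℍ, ∃ A ∈ Γ, A • τ ∈ F) {c : Vec}
    (hc : c ≠ 0) (hfin : ∀ R : ℝ, {v : Vec | (∃ A ∈ Γ, v = A.1.mulVec c) ∧ nq v ≤ R}.Finite) :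
    ∃ A ∈ Γ, A ≠ 1 ∧ A.1.mulVec c = c := by
  have hn : 0 < c 0 ^ 2 + c 1 ^ 2 := by
    by_contra h
    apply hc
    have h0 : c 0 = 0 := by nlinarith [sq_nonneg (c 0), sq_nonneg (c 1)]
    have h1 : c 1 = 0 := by nlinarith [sq_nonneg (c 0), sq_nonneg (c 1)]
    funext i
    fin_cases i
    · exact h0
    · exact h1
  obtain ⟨s, hs⟩ : ∃ s : ℝ, s = c 0 ^ 2 + c 1 ^ 2 := ⟨_, rfl⟩
  rw [← hs] at hn
  obtain ⟨B, hB⟩ : ∃ B : SL(2, ℝ), B = ⟨!![c 0, -(c 1 / s); c 1, c 0 / s], by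
    rw [Matrix.det_fin_two_of]
    field_simp
    rw [hs]
    ring⟩ := ⟨_, rfl⟩
  have hBe : B.1.mulVec F1_e = c := by
    rw [F1_mulVec_e, hB]
    funext i
    fin_cases i <;> simp
  have hBi : (B⁻¹ : SL(2, ℝ)).1.mulVec c = F1_e := by
    rw [← hBe, Matrix.mulVec_mulVec, ← Matrix.SpecialLinearGroup.coe_mul, inv_mul_cancel,
      Matrix.SpecialLinearGroup.coe_one, Matrix.one_mulVec]
  obtain ⟨Γ', hΓ'⟩ : ∃ Γ' : Subgroup SL(2, ℝ), Γ' = Γ.map (MulAut.conj B⁻¹).toMonoidHom :=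
    ⟨_, rfl⟩
  have hmem : ∀ A, A ∈ Γ' ↔ B * A * B⁻¹ ∈ Γ := by
    intro A
    rw [hΓ', Subgroup.mem_map]
    constructor
    · rintro ⟨A', hA', rfl⟩
      have : B * (MulAut.conj B⁻¹).toMonoidHom A' * B⁻¹ = A' := by
        simp [mul_assoc]
      rwa [this]
    · intro h
      refine ⟨_, h, ?_⟩
      simp [mul_assoc]
  have hco : Countable Γ' := by
    rw [hΓ']
    have h1 : Set.Countable (Γ : Set SL(2, ℝ)) := Set.countable_coe_iff.mp hΓ
    have h2 := h1.image (MulAut.conj B⁻¹).toMonoidHom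
    rw [← Subgroup.coe_map] at h2
    exact Set.countable_coe_iff.mpr h2
  obtain ⟨A, hA, hA1, hAe⟩ := F1_first Γ' hco ((fun τ : ℍ => B • τ) ⁻¹' F)
    ((F1_mp B).measurable hF) (by rw [F1_vol B hF]; exact hvol) (by
      intro τ
      obtain ⟨A, hA, h⟩ := hcov (B • τ)
      refine ⟨B⁻¹ * A * B, ?_, ?_⟩
      · rw [hmem]
        simpa [mul_assoc] using hA
      · rw [Set.mem_preimage, smul_smul, ← mul_assoc, ← mul_assoc, mul_inv_cancel, one_mul,
          ← smul_smul]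
        exact h) (by
      intro R
      obtain ⟨M, hM⟩ : ∃ M : ℝ, M = 2 * (c 0 ^ 2 + c 1 ^ 2 + (c 1 / s) ^ 2 + (c 0 / s) ^ 2) := ⟨_, rfl⟩
      have hM0 : 0 ≤ M := by rw [hM]; positivity
      refine ((hfin (M * R)).image fun v => (B⁻¹ : SL(2, ℝ)).1.mulVec v).subset ?_
      rintro v ⟨⟨A, hA, hv⟩, hR⟩
      refine ⟨B.1.mulVec v, ⟨⟨B * A * B⁻¹, (hmem A).mp hA, ?_⟩, ?_⟩, ?_⟩
      · rw [hv, Matrix.SpecialLinearGroup.coe_mul, Matrix.SpecialLinearGroup.coe_mul,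
          ← Matrix.mulVec_mulVec, ← Matrix.mulVec_mulVec, hBi]
      · have e0 : (B.1.mulVec v) 0 = c 0 * v 0 + -(c 1 / s) * v 1 := by
          rw [hB]
          simp [Matrix.mulVec, dotProduct]
        have e1 : (B.1.mulVec v) 1 = c 1 * v 0 + c 0 / s * v 1 := by
          rw [hB]
          simp [Matrix.mulVec, dotProduct]
        rw [nq, ip] at hR ⊢
        rw [e0, e1]
        have hR0 : v 0 * v 0 + v 1 * v 1 ≤ R := hR
        calc (c 0 * v 0 + -(c 1 / s) * v 1) * (c 0 * v 0 + -(c 1 / s) * v 1) +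
              (c 1 * v 0 + c 0 / s * v 1) * (c 1 * v 0 + c 0 / s * v 1)
            ≤ M * (v 0 * v 0 + v 1 * v 1) := by
              rw [hM]
              nlinarith [sq_nonneg (c 0 * v 0 + (c 1 / s) * v 1), sq_nonneg (c 1 * v 0 - c 0 / s * v 1),
                sq_nonneg (c 0 * v 1), sq_nonneg (c 1 * v 1), sq_nonneg (c 1 / s * v 0),
                sq_nonneg (c 0 / s * v 0)]
          _ ≤ M * R := mul_le_mul_of_nonneg_left hR0 hM0
      · show (B⁻¹ : SL(2, ℝ)).1.mulVec (B.1.mulVec v) = v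
        rw [Matrix.mulVec_mulVec, ← Matrix.SpecialLinearGroup.coe_mul, inv_mul_cancel,
          Matrix.SpecialLinearGroup.coe_one, Matrix.one_mulVec])
  refine ⟨B * A * B⁻¹, (hmem A).mp hA, ?_, ?_⟩
  · intro h
    apply hA1
    have h2 : A = B⁻¹ * (B * A * B⁻¹) * B := by simp [mul_assoc]
    rw [h2, h]
    simp
  · rw [Matrix.SpecialLinearGroup.coe_mul, Matrix.SpecialLinearGroup.coe_mul,
      ← Matrix.mulVec_mulVec, ← Matrix.mulVec_mulVec, hBi, hAe, hBe]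

end Pool.Veech
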