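import Pool.Agent.Lib.MP_fceebd_gt.C2
import Pool.Agent.Lib.MP_fceebd_gt.A3c

/-! # Row H1: horizontal triangulations -/

set_option autoImplicit false

open scoped MatrixGroups

namespace Pool.Veech

variable {D : Type} [Fintype D] [DecidableEq D] {T : Tri D} {z : D → Vec}

/-- Each triangle has an edge which is parallel to `c`. -/
structure Horiz (T : Tri D) (z : D → Vec) (c : Vec) : Prop where
  geo : Geo T z
  cne : c ≠ 0
  hor : ∀ d, cr (z d) c = 0 ∨ cr (z (T.nxt d)) c = 0 ∨ cr (z (T.nxt (T.nxt d))) c = 0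

namespace H1x

theorem nq_eq (u : Vec) : nq u = u 0 ^ 2 + u 1 ^ 2 := by simp only [nq, ip]; ring

theorem nq_nonneg (u : Vec) : 0 ≤ nq u := by rw [nq_eq]; positivity

theorem nq_pos {u : Vec} (hu : u ≠ 0) : 0 < nq u := by
  rcases (nq_nonneg u).lt_or_eq with h | h
  · exact h
  · exfalso
    apply hu
    rw [nq_eq] at h
    have h0 : u 0 = 0 := by nlinarith [sq_nonneg (u 0), sq_nonneg (u 1)]
    have h1 : u 1 = 0 := by nlinarith [sq_nonneg (u 0), sq_nonneg (u 1)]
    funext i
    fin_cases i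
    · simpa using h0
    · simpa using h1

/-- Cauchy-Schwarz -/
theorem cr_sq_le (u v : Vec) : cr u v ^ 2 ≤ nq u * nq v := by
  rw [nq_eq, nq_eq]
  simp only [cr]
  nlinarith [sq_nonneg (u 0 * v 0 + u 1 * v 1)]

/-- the matrix with eigenvector `c` of eigenvalue `t` and eigenvector `J c` of eigenvalue `1 / t` -/
noncomputable def sq (c : Vec) (t : ℝ) : Matrix (Fin 2) (Fin 2) ℝ :=
  !![(t * c 0 ^ 2 + t⁻¹ * c 1 ^ 2) / nq c, (t - t⁻¹) * c 0 * c 1 / nq c;
     (t - t⁻¹) * c 0 * c 1 / nq c, (t * c 1 ^ 2 + t⁻¹ * c 0 ^ 2) / nq c]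

theorem sq_det {c : Vec} (hc : c ≠ 0) {t : ℝ} (ht : 0 < t) : (sq c t).det = 1 := by
  have h := (nq_pos hc).ne'
  rw [nq_eq] at h
  have ht' := ht.ne'
  simp only [sq, Matrix.det_fin_two_of, nq_eq]
  field_simp
  ring

theorem sq_mulVec {c : Vec} (hc : c ≠ 0) {t : ℝ} (ht : 0 < t) :
    (sq c t).mulVec c = t • c := by
  have ht' := ht.ne'
  have h := (nq_pos hc).ne'
  rw [nq_eq] at h
  funext i
  fin_cases i
  · simp only [sq, Matrix.mulVec, dotProduct, Fin.sum_univ_two, nq_eq, Pi.smul_apply, smul_eq_mul]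
    simp
    field_simp
    ring
  · simp only [sq, Matrix.mulVec, dotProduct, Fin.sum_univ_two, nq_eq, Pi.smul_apply, smul_eq_mul]
    simp
    field_simp
    ring

theorem lagrange (u v : Vec) : nq u * nq v = ip u v ^ 2 + cr u v ^ 2 := by
  simp only [nq, ip, cr]
  ring

theorem cr_add_smul (u c : Vec) (s : ℝ) : cr (u + s • c) c = cr u c := by
  simp only [cr, Pi.add_apply, Pi.smul_apply, smul_eq_mul]
  ring

theorem ip_add_smul (u c : Vec) (s : ℝ) : ip (u + s • c) c = ip u c + s * nq c := by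
  simp only [nq, ip, Pi.add_apply, Pi.smul_apply, smul_eq_mul]
  ring

/-- a matrix of determinant `1` which fixes `c` -/
theorem parabolic {c : Vec} (hc : c ≠ 0) {A : SL(2, ℝ)} (hAc : A.1.mulVec c = c) :
    ∃ κ : ℝ, ∀ v : Vec, A.1.mulVec v = v + (κ * cr v c) • c := by
  have hn := (nq_pos hc).ne'
  have h0 := congrFun hAc 0
  have h1 := congrFun hAc 1
  have hd := A.2
  rw [Matrix.det_fin_two] at hd
  simp only [Matrix.mulVec, dotProduct, Fin.sum_univ_two] at h0 h1
  set a := A.1 0 0 with ha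
  set b := A.1 0 1 with hb
  set p := A.1 1 0 with hp
  set q := A.1 1 1 with hq
  rw [nq_eq] at hn
  -- trace
  have htr : q = 2 - a := by
    by_cases hc0 : c 0 = 0
    · have hc1 : c 1 ≠ 0 := by
        intro h
        apply hn
        rw [hc0, h]
        ring
      have e1 : q = 1 := by
        have : (q - 1) * c 1 = 0 := by rw [hc0] at h1; linarith
        rcases mul_eq_zero.mp this with h | h
        · linarith
        · exact absurd h hc1
      have e2 : b = 0 := by
        have : b * c 1 = 0 := by rw [hc0] at h0; linarith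
        rcases mul_eq_zero.mp this with h | h
        · exact h
        · exact absurd h hc1
      rw [e1, e2] at hd
      linarith
    · have e1 : (a - 1) * (q - 1) - b * p = 0 := by
        have : c 0 * ((a - 1) * (q - 1) - b * p) = 0 := by
          have e3 : (a - 1) * c 0 = -(b * c 1) := by linarith
          have e4 : p * c 0 = (1 - q) * c 1 := by linarith
          calc c 0 * ((a - 1) * (q - 1) - b * p)
              = ((a - 1) * c 0) * (q - 1) - b * (p * c 0) := by ring
            _ = 0 := by rw [e3, e4]; ring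
        rcases mul_eq_zero.mp this with h | h
        · exact absurd h hc0
        · exact h
      linarith
  have e3 : (a - 1) * c 0 = -(b * c 1) := by linarith
  have e4 : p * c 0 = (a - 1) * c 1 := by rw [htr] at h1; linarith
  refine ⟨(p - b) / (c 0 ^ 2 + c 1 ^ 2), fun v => ?_⟩
  have f1 : (p - b) * (c 0 * c 1) = (a - 1) * (c 0 ^ 2 + c 1 ^ 2) := by
    linear_combination c 1 * e4 - c 0 * e3
  have f2 : -(p - b) * c 0 ^ 2 = b * (c 0 ^ 2 + c 1 ^ 2) := by
    linear_combination (-c 0) * e4 + (-c 1) * e3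
  have f3 : (p - b) * c 1 ^ 2 = p * (c 0 ^ 2 + c 1 ^ 2) := by
    linear_combination (-c 0) * e4 - c 1 * e3
  funext i
  fin_cases i
  · simp only [Matrix.mulVec, dotProduct, Fin.sum_univ_two, cr, Pi.add_apply, Pi.smul_apply,
      smul_eq_mul]
    change a * v 0 + b * v 1 = v 0 + (p - b) / (c 0 ^ 2 + c 1 ^ 2) * (v 0 * c 1 - v 1 * c 0) * c 0
    field_simp
    linear_combination (-v 0) * f1 + (-v 1) * f2
  · simp only [Matrix.mulVec, dotProduct, Fin.sum_univ_two, cr, Pi.add_apply, Pi.smul_apply,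
      smul_eq_mul]
    change p * v 0 + q * v 1 = v 1 + (p - b) / (c 0 ^ 2 + c 1 ^ 2) * (v 0 * c 1 - v 1 * c 0) * c 1
    rw [htr]
    field_simp
    linear_combination (-v 0) * f3 + v 1 * f1

theorem parabolic_zpow {c : Vec} {A : SL(2, ℝ)} {κ : ℝ}
    (hA : ∀ v : Vec, A.1.mulVec v = v + (κ * cr v c) • c) (k : ℤ) (v : Vec) :
    (A ^ k).1.mulVec v = v + ((k : ℝ) * (κ * cr v c)) • c := by
  have hinv : ∀ v : Vec, (A⁻¹).1.mulVec v = v - (κ * cr v c) • c := by
    intro v
    have h1 : A.1.mulVec (v - (κ * cr v c) • c) = v := by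
      rw [hA]
      have : cr (v - (κ * cr v c) • c) c = cr v c := by
        rw [sub_eq_add_neg, ← neg_smul, cr_add_smul]
      rw [this]
      abel
    calc (A⁻¹).1.mulVec v = (A⁻¹).1.mulVec (A.1.mulVec (v - (κ * cr v c) • c)) := by rw [h1]
      _ = (A⁻¹ * A).1.mulVec (v - (κ * cr v c) • c) := by
          rw [Matrix.mulVec_mulVec, ← Matrix.SpecialLinearGroup.coe_mul]
      _ = v - (κ * cr v c) • c := by
          rw [inv_mul_cancel, Matrix.SpecialLinearGroup.coe_one, Matrix.one_mulVec]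
  induction k using Int.induction_on generalizing v with
  | zero => simp
  | succ n ih =>
    rw [zpow_add_one, Matrix.SpecialLinearGroup.coe_mul, ← Matrix.mulVec_mulVec, hA, ih,
      cr_add_smul, add_assoc, ← add_smul]
    congr 2
    push_cast
    ring
  | pred n ih =>
    rw [zpow_sub_one, Matrix.SpecialLinearGroup.coe_mul, ← Matrix.mulVec_mulVec, hinv, ih]
    have : cr (v - (κ * cr v c) • c) c = cr v c := by
      rw [sub_eq_add_neg, ← neg_smul, cr_add_smul]
    rw [this, sub_eq_add_neg, ← neg_smul, add_assoc, ← add_smul]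
    congr 2
    push_cast
    ring

theorem nq_smul (t : ℝ) (c : Vec) : nq (t • c) = t ^ 2 * nq c := by
  simp only [nq_eq, Pi.smul_apply, smul_eq_mul]
  ring

end H1x

open H1x

/-- Take `B` in `SL2` with `B c` very short. Take an almost Delaunay triangulation `T'` of `B z`
(`exists_nearD`). All its edge vectors which are not parallel to `B c` are long. A triangle with a
long side `d` has a short side (`NearD.short_or`: `nq s ≤ 1.04 q^2 / nq d` is small), which is therefore
parallel to `B c`; a triangle without long sides would have three parallel sides. -/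
theorem exists_horiz (h : Geo T z) {c : Vec} (hc : c ≠ 0) {ρ : ℝ} (hρ : 0 < ρ)
    (he : ∀ e ∈ edges T z, cr e c = 0 ∨ ρ ≤ |cr e c|) :
    ∃ T' m, GPath T z T' m ∧ Horiz T' (app m z) c := by
  classical
  set A := area T z with hA
  set L : ℝ := (Lc0 (Fintype.card D) : ℝ) with hL
  have hL0 : 0 ≤ L := Nat.cast_nonneg _
  set M : ℝ := (L + 1) * |A| + 1 with hM
  have hM0 : 0 < M := by positivity
  have hcp := nq_pos hc
  -- choice of t
  set t : ℝ := ρ / Real.sqrt (nq c * M) with ht
  have hs : 0 < Real.sqrt (nq c * M) := Real.sqrt_pos.mpr (mul_pos hcp hM0)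
  have ht0 : 0 < t := div_pos hρ hs
  have ht2 : t ^ 2 * nq c * M = ρ ^ 2 := by
    rw [ht, div_pow, Real.sq_sqrt (mul_pos hcp hM0).le]
    field_simp
  set B := sq c t with hB
  have hdet : B.det = 1 := sq_det hc ht0
  have hdet0 : 0 < B.det := by rw [hdet]; exact one_pos
  have hg' : Geo T (lin B z) := h.lin B hdet0
  obtain ⟨T', m, hdesc, hn⟩ := exists_nearD hg'
  have hp : GPath T (lin B z) T' m := hdesc.gpath le_rfl
  have hinv : B⁻¹ * B = 1 := Matrix.nonsing_inv_mul B (by rw [hdet]; exact isUnit_one)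
  have hdet' : 0 < (B⁻¹).det := by
    rw [Matrix.det_nonsing_inv, hdet]; simp
  have hp' : GPath T z T' m := by
    have := hp.lin B⁻¹ hdet'
    rwa [lin_lin, hinv, lin_one] at this
  refine ⟨T', m, hp', hp'.geo, hc, ?_⟩
  -- lengths
  have happ : app m (lin B z) = lin B (app m z) := app_lin m B z
  have hlong : ∀ d, cr (app m z d) c = 0 ∨ M ≤ nq (app m (lin B z) d) := by
    intro d
    rcases he (app m z d) ⟨T', m, d, hp', rfl⟩ with h0 | h1
    · exact Or.inl h0
    · right
      rw [happ]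
      have h2 : cr (B.mulVec (app m z d)) (B.mulVec c) = cr (app m z d) c := by
        rw [cr_mulVec, hdet, one_mul]
      have h3 := cr_sq_le (B.mulVec (app m z d)) (B.mulVec c)
      rw [h2, sq_mulVec hc ht0, nq_smul] at h3
      have h4 : ρ ^ 2 ≤ cr (app m z d) c ^ 2 := by
        rw [← sq_abs (cr (app m z d) c)]
        exact pow_le_pow_left₀ hρ.le h1 2
      have h5 : t ^ 2 * nq c * M ≤ nq (B.mulVec (app m z d)) * (t ^ 2 * nq c) := by
        rw [ht2]; exact h4.trans h3
      have h6 : 0 < t ^ 2 * nq c := by positivity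
      change M ≤ nq (B.mulVec (app m z d))
      nlinarith
  have harea : area T' (app m (lin B z)) = A := by
    rw [hp.area, area_lin, hdet, one_mul]
  have hA0 : ∀ d : D, 0 < area T' (app m (lin B z)) := fun d => by
    have : Nonempty D := ⟨d⟩
    exact hp.geo.area_pos
  intro d
  by_contra hcon
  push Not at hcon
  obtain ⟨c1, c2, c3⟩ := hcon
  have l1 := (hlong d).resolve_left c1
  have l2 := (hlong (T'.nxt d)).resolve_left c2
  have l3 := (hlong (T'.nxt (T'.nxt d))).resolve_left c3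
  have hAp : 0 < A := harea ▸ hA0 d
  have hMA : M = (L + 1) * A + 1 := by rw [hM, abs_of_pos hAp]
  have hLA : 0 ≤ L * A := by positivity
  have hcond : (Lc0 (Fintype.card D) : ℝ) * area T' (app m (lin B z)) ≤
      nq (app m (lin B z) d) := by
    rw [harea]
    nlinarith
  have hq := hp.geo.cr_le_area d
  have hq0 := hp.geo.pos d
  rw [harea] at hq
  set q := cr (app m (lin B z) d) (app m (lin B z) (T'.nxt d)) with hqdef
  have hMA' : A < M := by nlinarith
  have hkey : ∀ s, M ≤ nq (app m (lin B z) s) →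
      nq (app m (lin B z) d) * nq (app m (lin B z) s) ≤ 1.04 * q ^ 2 → False := by
    intro s hs1 hs2
    have h1 : M * M ≤ nq (app m (lin B z) d) * nq (app m (lin B z) s) :=
      mul_le_mul l1 hs1 hM0.le (hM0.le.trans l1)
    have h2 : q ^ 2 ≤ (A / 3) ^ 2 := pow_le_pow_left₀ hq0.le (by linarith) 2
    nlinarith
  rcases hn.short_or hcond with hs | hs
  · exact hkey _ l2 hs.1
  · exact hkey _ l3 hs.1

/-- If `A` is a nontrivial affine map which fixes `c` and the set of edge vectors is locally finite,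
then the heights of the edge vectors are bounded from below: apply a power of `A` to an edge
vector `e` in order to get `|A^k e| ≤ C |cr e c|`. -/
theorem exists_height (h : Geo T z) {c : Vec} (hc : c ≠ 0) {A : SL(2, ℝ)} (hA : A ∈ aff T z h)
    (hA1 : A ≠ 1) (hAc : A.1.mulVec c = c) (hfin : ∀ R : ℝ, {v ∈ edges T z | nq v ≤ R}.Finite) :
    ∃ ρ : ℝ, 0 < ρ ∧ ∀ e ∈ edges T z, cr e c = 0 ∨ ρ ≤ |cr e c| := by
  classical
  obtain ⟨κ, hκ⟩ := parabolic hc hAc
  have hn := nq_pos hc
  have hκ0 : κ ≠ 0 := by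
    intro h0
    apply hA1
    apply Subtype.ext
    rw [Matrix.SpecialLinearGroup.coe_one]
    apply Matrix.ext_of_mulVec_single
    intro i
    rw [hκ, h0, Matrix.one_mulVec]
    simp
  set R : ℝ := κ ^ 2 * nq c + 1 / nq c with hR
  have hF := hfin R
  -- a translate of each edge vector is short
  have key : ∀ e ∈ edges T z, cr e c ≠ 0 → ∃ v ∈ edges T z, cr v c = cr e c ∧
      nq v ≤ (cr e c) ^ 2 * R := by
    intro e he hs
    set s := cr e c with hs'
    have hks : κ * s ≠ 0 := mul_ne_zero hκ0 hs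
    set α := ip e c / nq c with hα
    set k : ℤ := -round (α / (κ * s)) with hk
    refine ⟨(A ^ k).1.mulVec e, aff_edges h (Subgroup.zpow_mem _ hA k) he, ?_, ?_⟩
    · rw [parabolic_zpow hκ, cr_add_smul]
    · rw [parabolic_zpow hκ, ← hs']
      set v := e + ((k : ℝ) * (κ * s)) • c with hv
      have h1 : ip v c = (α + (k : ℝ) * (κ * s)) * nq c := by
        rw [hv, ip_add_smul, hα]
        field_simp
      have h2 : cr v c = s := by rw [hv, cr_add_smul]
      have h3 := lagrange v c
      rw [h1, h2] at h3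
      have h4 : |α + (k : ℝ) * (κ * s)| ≤ |κ * s| := by
        have h5 := abs_sub_round (α / (κ * s))
        have h6 : α + (k : ℝ) * (κ * s) = (α / (κ * s) - round (α / (κ * s))) * (κ * s) := by
          rw [hk]
          push_cast
          field_simp
          ring
        rw [h6, abs_mul]
        nlinarith [abs_nonneg (κ * s)]
      have h7 : (α + (k : ℝ) * (κ * s)) ^ 2 ≤ (κ * s) ^ 2 := by
        rw [← sq_abs (α + (k : ℝ) * (κ * s)), ← sq_abs (κ * s)]
        exact pow_le_pow_left₀ (abs_nonneg _) h4 2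
      have h8 : nq v * nq c ≤ s ^ 2 * R * nq c := by
        rw [h3, hR]
        have h9 : s ^ 2 * (κ ^ 2 * nq c + 1 / nq c) * nq c = (κ * s) ^ 2 * nq c ^ 2 + s ^ 2 := by
          field_simp
        rw [h9, mul_pow]
        have : 0 ≤ nq c ^ 2 := sq_nonneg _
        nlinarith
      exact le_of_mul_le_mul_right h8 hn
  have hR0 : 0 < R := by positivity
  -- lower bound on the finite set
  have hF' : ({v ∈ edges T z | nq v ≤ R} ∩ {v | cr v c ≠ 0}).Finite := hF.inter_of_left _
  have hlow : ∃ ρ₀ : ℝ, 0 < ρ₀ ∧ ∀ v ∈ edges T z, nq v ≤ R → cr v c ≠ 0 → ρ₀ ≤ |cr v c| := by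
    rcases Set.eq_empty_or_nonempty ({v ∈ edges T z | nq v ≤ R} ∩ {v | cr v c ≠ 0}) with h0 | h0
    · refine ⟨1, one_pos, fun v h1 h2 h3 => ?_⟩
      have : v ∈ ({v ∈ edges T z | nq v ≤ R} ∩ {v | cr v c ≠ 0} : Set Vec) := ⟨⟨h1, h2⟩, h3⟩
      rw [h0] at this
      exact absurd this (Set.notMem_empty _)
    · obtain ⟨w, hw, hmin⟩ := Set.exists_min_image _ (fun v => |cr v c|) hF' h0
      exact ⟨|cr w c|, abs_pos.mpr hw.2, fun v h1 h2 h3 => hmin v ⟨⟨h1, h2⟩, h3⟩⟩
  obtain ⟨ρ₀, hρ₀, hlow⟩ := hlow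
  refine ⟨min 1 ρ₀, lt_min one_pos hρ₀, fun e he => ?_⟩
  by_cases hs : cr e c = 0
  · exact Or.inl hs
  right
  by_cases h1 : 1 ≤ |cr e c|
  · exact (min_le_left _ _).trans h1
  · push Not at h1
    obtain ⟨v, hv, hv1, hv2⟩ := key e he hs
    have h2 : (cr e c) ^ 2 ≤ 1 := by
      rw [← sq_abs]
      exact pow_le_one₀ (abs_nonneg _) h1.le
    have h3 : nq v ≤ R := by nlinarith
    rw [← hv1]
    exact (min_le_right _ _).trans (hlow v hv h3 (by rw [hv1]; exact hs))

end Pool.Veech
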