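import Mathlib

/-! # Row J1: number theory -/

set_option autoImplicit false

namespace Pool.Veech



/-- A nonzero algebraic integer all of whose conjugates have absolute value at most `N`. -/
theorem norm_bound {K : Type} [Field K] [NumberField K] (ι : K →+* ℝ) (a : K) (ha : a ≠ 0)
    (hint : IsIntegral ℤ a) {N : ℝ} (hN : 1 ≤ N) (hc : ∀ σ : K →+* ℂ, ‖σ a‖ ≤ N) :
    N ≤ N ^ Module.finrank ℚ K * |ι a| := by
  classical
  -- the norm is a nonzero integer
  have h1 : IsIntegral ℤ (Algebra.norm ℚ a) := Algebra.isIntegral_norm ℚ hint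
  obtain ⟨z, hz⟩ := IsIntegrallyClosed.isIntegral_iff.1 h1
  have hz' : ((z : ℤ) : ℚ) = Algebra.norm ℚ a := by simpa using hz
  have hn0 : Algebra.norm ℚ a ≠ 0 := Algebra.norm_ne_zero_iff.2 ha
  have hz0 : z ≠ 0 := by
    rintro rfl
    apply hn0
    rw [← hz']
    simp
  have h2 : (1 : ℝ) ≤ ‖(algebraMap ℚ ℂ (Algebra.norm ℚ a))‖ := by
    rw [← hz']
    have e : (algebraMap ℚ ℂ ((z : ℤ) : ℚ)) = ((z : ℤ) : ℂ) := by simp
    rw [e, Complex.norm_intCast]
    have := Int.one_le_abs hz0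
    exact_mod_cast this
  have h3 := Algebra.norm_eq_prod_embeddings ℚ ℂ a
  rw [h3, norm_prod] at h2
  -- the distinguished embedding
  let σ0 : K →ₐ[ℚ] ℂ := (Complex.ofRealHom.comp ι).toRatAlgHom
  have e0 : ‖σ0 a‖ = |ι a| := by
    show ‖((ι a : ℝ) : ℂ)‖ = |ι a|
    rw [Complex.norm_real, Real.norm_eq_abs]
  rw [← Finset.mul_prod_erase _ _ (Finset.mem_univ σ0), e0] at h2
  have h4 : ∏ σ ∈ Finset.univ.erase σ0, ‖σ a‖ ≤ N ^ (Module.finrank ℚ K - 1) := by
    have h5 : ∏ σ ∈ Finset.univ.erase σ0, ‖σ a‖ ≤ ∏ _σ ∈ Finset.univ.erase σ0, N :=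
      Finset.prod_le_prod (fun σ _ => norm_nonneg _) (fun σ _ => hc (σ : K →+* ℂ))
    refine h5.trans (le_of_eq ?_)
    rw [Finset.prod_const, Finset.card_erase_of_mem (Finset.mem_univ _), Finset.card_univ,
      AlgHom.card]
  have hpos : 0 < Module.finrank ℚ K := Module.finrank_pos
  have h6 : 1 ≤ |ι a| * N ^ (Module.finrank ℚ K - 1) :=
    h2.trans (mul_le_mul_of_nonneg_left h4 (abs_nonneg _))
  have hN0 : 0 ≤ N := by linarith
  calc N = N * 1 := (mul_one _).symm
    _ ≤ N * (|ι a| * N ^ (Module.finrank ℚ K - 1)) := mul_le_mul_of_nonneg_left h6 hN0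
    _ = N ^ (Module.finrank ℚ K - 1 + 1) * |ι a| := by ring
    _ = N ^ Module.finrank ℚ K * |ι a| := by rw [Nat.sub_add_cancel hpos]

/-- The conjugates of `w j h k / A`. -/
theorem arith_core {K : Type} [Field K] (ι : K →+* ℝ) {J : Type} [Fintype J]
    (w h : J → K) (hw : ∀ j, 0 < ι (w j)) (hh : ∀ j, 0 < ι (h j))
    (hcomm : ∀ j k, ∃ r : ℚ, h j * w k = r * (h k * w j))
    (horth : ∀ σ τ : K →+* ℂ, σ ≠ τ → ∑ j, σ (w j) * τ (h j) = 0) [CharZero K] :
    ∃ r : J → ℚ, ∀ j k, r k ≤ r j → ∀ σ : K →+* ℂ, ‖σ (w j * h k / ∑ l, w l * h l)‖ ≤ 1 := by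
  classical
  rcases isEmpty_or_nonempty J with hJ | ⟨⟨j0⟩⟩
  · exact ⟨fun _ => 1, fun j => (hJ.false j).elim⟩
  choose r hr using fun j => hcomm j j0
  have hw0 : ∀ j, w j ≠ 0 := fun j h0 => by
    have := hw j
    rw [h0, map_zero] at this
    exact lt_irrefl _ this
  have hh0 : ∀ j, h j ≠ 0 := fun j h0 => by
    have := hh j
    rw [h0, map_zero] at this
    exact lt_irrefl _ this
  have hrpos : ∀ j, 0 < r j := by
    intro j
    have h1 := congrArg ι (hr j)
    rw [map_mul, map_mul, map_mul, map_ratCast] at h1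
    have h2 : 0 < (r j : ℝ) * (ι (h j0) * ι (w j)) := by
      rw [← h1]
      exact mul_pos (hh j) (hw j0)
    have h3 : (0 : ℝ) < r j := (pos_iff_pos_of_mul_pos h2).2 (mul_pos (hh j0) (hw j))
    exact_mod_cast h3
  obtain ⟨μ, hμ⟩ : ∃ μ : K, μ = h j0 / w j0 := ⟨_, rfl⟩
  have hμ0 : μ ≠ 0 := by
    rw [hμ]
    exact div_ne_zero (hh0 j0) (hw0 j0)
  have hhj : ∀ j, h j = (r j : K) * μ * w j := by
    intro j
    rw [hμ]
    have := hr j
    field_simp [hw0 j0]
    linear_combination this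
  have hstep : ∀ σ τ : K →+* ℂ, σ ≠ τ → ∑ j, (r j : ℂ) * (σ (w j) * τ (w j)) = 0 := by
    intro σ τ hne
    have h1 := horth σ τ hne
    have h2 : ∑ j, σ (w j) * τ (h j) = τ μ * ∑ j, (r j : ℂ) * (σ (w j) * τ (w j)) := by
      rw [Finset.mul_sum]
      refine Finset.sum_congr rfl fun j _ => ?_
      rw [hhj j, map_mul, map_mul, map_ratCast]
      ring
    rw [h2] at h1
    exact (mul_eq_zero.1 h1).resolve_left ((map_ne_zero τ).2 hμ0)
  have hreal : ∀ (σ : K →+* ℂ) (x : K), (starRingEnd ℂ) (σ x) = σ x := by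
    intro σ x
    by_contra hx
    have hne : σ ≠ (starRingEnd ℂ).comp σ := by
      intro h1
      apply hx
      conv_rhs => rw [h1]
      rfl
    have h1 := hstep σ _ hne
    have h2 : ∑ j, (r j : ℂ) * (σ (w j) * ((starRingEnd ℂ).comp σ) (w j)) =
        ((∑ j, (r j : ℝ) * ‖σ (w j)‖ ^ 2 : ℝ) : ℂ) := by
      push_cast
      refine Finset.sum_congr rfl fun j _ => ?_
      rw [RingHom.comp_apply, Complex.mul_conj']
    rw [h2] at h1
    have h3 : ∑ j, (r j : ℝ) * ‖σ (w j)‖ ^ 2 = 0 := by exact_mod_cast h1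
    have h4 : 0 < ∑ j, (r j : ℝ) * ‖σ (w j)‖ ^ 2 := by
      refine Finset.sum_pos (fun j _ => ?_) ⟨j0, Finset.mem_univ _⟩
      have h5 : (0 : ℝ) < r j := by exact_mod_cast hrpos j
      have h6 : 0 < ‖σ (w j)‖ := norm_pos_iff.2 ((map_ne_zero σ).2 (hw0 j))
      positivity
    exact h4.ne' h3
  refine ⟨r, fun j k hjk σ => ?_⟩
  -- real values
  obtain ⟨s, hs⟩ : ∃ s : J → ℝ, ∀ l, σ (w l) = (s l : ℂ) :=
    ⟨fun l => (σ (w l)).re, fun l => (Complex.conj_eq_iff_re.1 (hreal σ (w l))).symm⟩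
  have hs0 : ∀ l, s l ≠ 0 := by
    intro l h0
    have h1 := hs l
    rw [h0, Complex.ofReal_zero] at h1
    exact (map_ne_zero σ).2 (hw0 l) h1
  obtain ⟨S, hS⟩ : ∃ S : ℝ, S = ∑ l, (r l : ℝ) * s l ^ 2 := ⟨_, rfl⟩
  have hterm : ∀ l, (r l : ℝ) * s l ^ 2 ≤ S := by
    intro l
    rw [hS]
    refine Finset.single_le_sum (f := fun l => (r l : ℝ) * s l ^ 2) (fun i _ => ?_)
      (Finset.mem_univ l)
    have h5 : (0 : ℝ) < r i := by exact_mod_cast hrpos i
    positivity
  have hSpos : 0 < S := by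
    refine lt_of_lt_of_le ?_ (hterm j0)
    have h5 : (0 : ℝ) < r j0 := by exact_mod_cast hrpos j0
    have h6 := hs0 j0
    positivity
  have e1 : σ (w j * h k / ∑ l, w l * h l) = (((r k : ℝ) * s j * s k / S : ℝ) : ℂ) := by
    have e2 : σ (∑ l, w l * h l) = σ μ * (S : ℂ) := by
      rw [map_sum, hS]
      push_cast
      rw [Finset.mul_sum]
      refine Finset.sum_congr rfl fun l _ => ?_
      rw [hhj l, map_mul, map_mul, map_mul, map_ratCast, hs l]
      ring
    rw [map_div₀, e2, map_mul, hhj k, map_mul, map_mul, map_ratCast, hs j, hs k]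
    have hμσ : σ μ ≠ 0 := (map_ne_zero σ).2 hμ0
    have hSc : (S : ℂ) ≠ 0 := by exact_mod_cast hSpos.ne'
    push_cast
    field_simp
  rw [e1, Complex.norm_real, Real.norm_eq_abs, abs_div, abs_of_pos hSpos, div_le_one hSpos]
  have hk0 : (0 : ℝ) < r k := by exact_mod_cast hrpos k
  have hjk' : (r k : ℝ) ≤ r j := by exact_mod_cast hjk
  have h1 := hterm j
  have h2 := hterm k
  have h3 : (r k : ℝ) * s j ^ 2 ≤ (r j : ℝ) * s j ^ 2 :=
    mul_le_mul_of_nonneg_right hjk' (sq_nonneg _)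
  rw [abs_le]
  constructor
  · nlinarith [mul_nonneg hk0.le (sq_nonneg (s j + s k))]
  · nlinarith [mul_nonneg hk0.le (sq_nonneg (s j - s k))]

/-- Let `w j`, `h j` be positive elements, such that the quotients `h j / w j` are rational multiples
of each other, and `∑ σ (w j) τ (h j) = 0` for different embeddings `σ`, `τ`. Let `A = ∑ w j h j`
and `N w j h k / A` be integral for all `j`, `k`. Then `1 / N^n ≤ w j h j / A` and
`w k ≤ N^n w j`.
Proof. `h j = r j μ w j`, `r j > 0` rational. For `τ ≠ σ`: `∑ r j σ (w j) τ (w j) = 0`. If `σ` is not real,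
take `τ = conj σ`: contradiction. So all `σ` are real, and `p j = w j h j / A = r j (w j)^2 / ∑ r k (w k)^2`
has all its conjugates in `(0, 1]`. For `r k ≤ r j` the element `q = w j h k / A` satisfies
`q^2 = (r k / r j) p j p k`, so its conjugates are at most `1` in absolute value, and
`w j / w k = q / p k`; and for `r j ≤ r k`, `q' = w k h j / A` gives `w j / w k = p j / q'`. Use
`norm_bound` for `N p j` and `N q` (with `‖σ _‖ ≤ N`). -/
theorem arith_bounds {K : Type} [Field K] [NumberField K] (ι : K →+* ℝ) {J : Type} [Fintype J]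
    (w h : J → K) (hw : ∀ j, 0 < ι (w j)) (hh : ∀ j, 0 < ι (h j))
    (hcomm : ∀ j k, ∃ r : ℚ, h j * w k = r * (h k * w j))
    (horth : ∀ σ τ : K →+* ℂ, σ ≠ τ → ∑ j, σ (w j) * τ (h j) = 0) (N : ℕ) (hN : 0 < N)
    (hint : ∀ j k, IsIntegral ℤ ((N : K) * (w j * h k) / ∑ l, w l * h l)) (j k : J) :
    ι (∑ l, w l * h l) ≤ (N : ℝ) ^ Module.finrank ℚ K * ι (w j * h j) ∧
      ι (w k) ≤ (N : ℝ) ^ Module.finrank ℚ K * ι (w j) := by
  classical
  obtain ⟨r, hr⟩ := arith_core ι w h hw hh hcomm horth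
  obtain ⟨A, hA⟩ : ∃ A : K, A = ∑ l, w l * h l := ⟨_, rfl⟩
  simp only [← hA] at hint hr ⊢
  have hApos : 0 < ι A := by
    rw [hA, map_sum]
    refine Finset.sum_pos (fun l _ => ?_) ⟨j, Finset.mem_univ _⟩
    rw [map_mul]
    exact mul_pos (hw l) (hh l)
  have hN1 : (1 : ℝ) ≤ N := by exact_mod_cast hN
  have hN0 : (0 : ℝ) < N := by linarith
  -- the lower bound
  have key : ∀ a b, r b ≤ r a → 1 ≤ (N : ℝ) ^ Module.finrank ℚ K * ι (w a * h b / A) := by
    intro a b hab
    have hpos : 0 < ι (w a * h b / A) := by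
      rw [map_div₀, map_mul]
      exact div_pos (mul_pos (hw a) (hh b)) hApos
    have h0 : w a * h b / A ≠ 0 := by
      intro h0
      rw [h0, map_zero] at hpos
      exact lt_irrefl _ hpos
    have hNK : (N : K) ≠ 0 := by exact_mod_cast hN.ne'
    have h1 := norm_bound ι ((N : K) * (w a * h b / A)) (mul_ne_zero hNK h0)
      (by rw [← mul_div_assoc]; exact hint a b) hN1 (fun σ => by
        rw [map_mul, norm_mul, map_natCast, Complex.norm_natCast]
        have := hr a b hab σ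
        nlinarith [norm_nonneg (σ (w a * h b / A))])
    rw [map_mul, map_natCast, abs_of_pos (mul_pos hN0 hpos)] at h1
    have h2 : (N : ℝ) * 1 ≤ N * ((N : ℝ) ^ Module.finrank ℚ K * ι (w a * h b / A)) := by
      linarith
    exact le_of_mul_le_mul_left h2 hN0
  -- the upper bound
  have up : ∀ a b, r b ≤ r a → ι (w a * h b / A) ≤ 1 := by
    intro a b hab
    have h1 := hr a b hab (Complex.ofRealHom.comp ι)
    have h2 : ‖(Complex.ofRealHom.comp ι) (w a * h b / A)‖ = |ι (w a * h b / A)| := by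
      show ‖((ι (w a * h b / A) : ℝ) : ℂ)‖ = _
      rw [Complex.norm_real, Real.norm_eq_abs]
    rw [h2] at h1
    exact (le_abs_self _).trans h1
  have hP : (0 : ℝ) < (N : ℝ) ^ Module.finrank ℚ K := pow_pos hN0 _
  constructor
  · have h1 := key j j le_rfl
    rw [map_div₀, ← mul_div_assoc, le_div_iff₀ hApos, one_mul] at h1
    exact h1
  · rcases le_total (r k) (r j) with hjk | hjk
    · have h1 := key j k hjk
      have h2 := up k k le_rfl
      rw [map_div₀, map_mul] at h1 h2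
      rw [div_le_one hApos] at h2
      rw [← mul_div_assoc, le_div_iff₀ hApos, one_mul] at h1
      have h3 : ι (w k) * ι (h k) ≤ (N : ℝ) ^ Module.finrank ℚ K * ι (w j) * ι (h k) := by
        linarith
      exact le_of_mul_le_mul_right h3 (hh k)
    · have h1 := key j j le_rfl
      have h2 := up k j hjk
      rw [map_div₀, map_mul] at h1 h2
      rw [div_le_one hApos] at h2
      rw [← mul_div_assoc, le_div_iff₀ hApos, one_mul] at h1
      have h3 : ι (w k) * ι (h j) ≤ (N : ℝ) ^ Module.finrank ℚ K * ι (w j) * ι (h j) := by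
        linarith
      exact le_of_mul_le_mul_right h3 (hh j)

end Pool.Veech
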