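import Pool.Agent.Lib.MP_fceebd_gt.J1a

/-! # Row J1: number theory -/

set_option autoImplicit false

namespace Pool.Veech



/-- With the same hypotheses there are only finitely many possible values for `w j h k / A`. (As
above: the `p j`, and the `q = w j h k / A` with `r k ≤ r j`, are such that `N q` is an algebraic
integer with all conjugates bounded by `N`: `NumberField.Embeddings.finite_of_norm_le`; for
`r k > r j`, `q = p j p k / q'` with `q' = w k h j / A`.) -/
theorem arith_finite {K : Type} [Field K] [NumberField K] (ι : K →+* ℝ) (N : ℕ) (hN : 0 < N) :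
    ∃ S : Set ℝ, S.Finite ∧ ∀ (J : Type) [Fintype J] (w h : J → K), (∀ j, 0 < ι (w j)) →
      (∀ j, 0 < ι (h j)) → (∀ j k, ∃ r : ℚ, h j * w k = r * (h k * w j)) →
      (∀ σ τ : K →+* ℂ, σ ≠ τ → ∑ j, σ (w j) * τ (h j) = 0) →
      (∀ j k, IsIntegral ℤ ((N : K) * (w j * h k) / ∑ l, w l * h l)) →
      ∀ j k, ι (w j * h k / ∑ l, w l * h l) ∈ S := by
  classical
  obtain ⟨F, hF⟩ : ∃ F : Set K, F = {x : K | IsIntegral ℤ x ∧ ∀ φ : K →+* ℂ, ‖φ x‖ ≤ (N : ℝ)} :=
    ⟨_, rfl⟩
  have hFfin : F.Finite := by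
    rw [hF]
    exact NumberField.Embeddings.finite_of_norm_le K ℂ (N : ℝ)
  obtain ⟨G, hG⟩ : ∃ G : Set ℝ, G = (fun x : K => ι x / (N : ℝ)) '' F := ⟨_, rfl⟩
  have hGfin : G.Finite := by
    rw [hG]
    exact hFfin.image _
  have hN0 : (0 : ℝ) < N := by exact_mod_cast hN
  refine ⟨G ∪ (fun x : ℝ × ℝ × ℝ => x.1 * x.2.1 / x.2.2) '' (G ×ˢ (G ×ˢ G)),
    hGfin.union ((hGfin.prod (hGfin.prod hGfin)).image _), ?_⟩
  intro J _ w h hw hh hcomm horth hint j k
  obtain ⟨r, hr⟩ := arith_core ι w h hw hh hcomm horth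
  obtain ⟨A, hA⟩ : ∃ A : K, A = ∑ l, w l * h l := ⟨_, rfl⟩
  simp only [← hA] at hint hr ⊢
  have hApos : 0 < ι A := by
    rw [hA, map_sum]
    refine Finset.sum_pos (fun l _ => ?_) ⟨j, Finset.mem_univ _⟩
    rw [map_mul]
    exact mul_pos (hw l) (hh l)
  have key : ∀ a b, r b ≤ r a → ι (w a * h b / A) ∈ G := by
    intro a b hab
    rw [hG]
    refine ⟨(N : K) * (w a * h b) / A, ?_, ?_⟩
    · rw [hF]
      refine ⟨hint a b, fun σ => ?_⟩
      rw [mul_div_assoc, map_mul, norm_mul, map_natCast, Complex.norm_natCast]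
      have := hr a b hab σ
      nlinarith [norm_nonneg (σ (w a * h b / A))]
    · show ι ((N : K) * (w a * h b) / A) / (N : ℝ) = ι (w a * h b / A)
      rw [mul_div_assoc, map_mul, map_natCast, mul_div_cancel_left₀ _ hN0.ne']
  rcases le_total (r k) (r j) with hjk | hjk
  · exact Or.inl (key j k hjk)
  · refine Or.inr ⟨(ι (w j * h j / A), ι (w k * h k / A), ι (w k * h j / A)),
      ⟨key j j le_rfl, key k k le_rfl, key k j hjk⟩, ?_⟩
    show ι (w j * h j / A) * ι (w k * h k / A) / ι (w k * h j / A) = ι (w j * h k / A)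
    simp only [map_div₀, map_mul]
    have h1 := (hw j).ne'
    have h2 := (hw k).ne'
    have h3 := (hh j).ne'
    have h4 := (hh k).ne'
    have h5 := hApos.ne'
    field_simp

end Pool.Veech
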