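import Pool.Agent.Lib.MP_fceebd_gt.K1a

/-! # Row K1: cylinder decomposition of a horizontal triangulation -/

set_option autoImplicit false
set_option linter.unusedSectionVars false

namespace Pool.Veech

variable {D : Type} [Fintype D] [DecidableEq D] {T : Tri D} {z : D → Vec} {c : Vec}

/-- representatives of the cylinders -/
theorem Horiz.exists_reps (h : Horiz T z c) :
    ∃ R : Finset D, (∀ r ∈ R, Up z c r) ∧
      ∀ e, Up z c e → ∃! r, r ∈ R ∧ ∃ k : ℕ, (hstep T z c)^[k] r = e := by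
  classical
  let s : Setoid {e : D // Up z c e} := ⟨fun a b => ∃ k : ℕ, (hstep T z c)^[k] a.1 = b.1,
    fun a => ⟨0, rfl⟩, fun {a b} hab => by
      obtain ⟨k, hk⟩ := hab
      obtain ⟨j, hj⟩ := h.step_symm a.2 k
      exact ⟨j, by rw [← hk]; exact hj⟩, fun {a b c'} hab hbc => by
      obtain ⟨k, hk⟩ := hab
      obtain ⟨j, hj⟩ := hbc
      exact ⟨j + k, by rw [Function.iterate_add_apply, hk, hj]⟩⟩
  have : Fintype (Quotient s) := Fintype.ofFinite _
  refine ⟨(Finset.univ : Finset (Quotient s)).image fun q => q.out.1, ?_, ?_⟩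
  · intro r hr
    obtain ⟨q, _, rfl⟩ := Finset.mem_image.1 hr
    exact q.out.2
  · intro e he
    refine ⟨(Quotient.mk s ⟨e, he⟩).out.1, ⟨Finset.mem_image.2 ⟨_, Finset.mem_univ _, rfl⟩,
      Quotient.mk_out (s := s) ⟨e, he⟩⟩, ?_⟩
    rintro r ⟨hr, hk⟩
    obtain ⟨q, _, rfl⟩ := Finset.mem_image.1 hr
    have h1 : Quotient.mk s q.out = Quotient.mk s ⟨e, he⟩ := Quotient.sound (s := s) hk
    rw [Quotient.out_eq] at h1
    rw [h1]

/-- members of the orbit -/
private theorem K1b_orb {d e : D} (h1 : iota T z c d e = 1) :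
    ∃ k : ℕ, (hstep T z c)^[k] d = e := by
  classical
  by_contra hne
  unfold iota at h1
  rw [if_neg hne] at h1
  split_ifs at h1 <;> omega

private theorem K1b_zero (h : Horiz T z c) {R : Finset D} (hR : ∀ r ∈ R, Up z c r)
    (hR' : ∀ e, Up z c e → ∃! r, r ∈ R ∧ ∃ k : ℕ, (hstep T z c)^[k] r = e) {r r' e : D}
    (hr : r ∈ R) (hr' : r' ∈ R) (he : Up z c e) (hk : ∃ k : ℕ, (hstep T z c)^[k] r' = e)
    (hne : r ≠ r') : iota T z c r e = 0 := by
  rcases h.iota_up (hR r hr) he with h1 | h1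
  · exact absurd ((hR' e he).unique ⟨hr, K1b_orb h1⟩ ⟨hr', hk⟩) hne
  · exact h1.1

theorem Horiz.reps_self (h : Horiz T z c) {R : Finset D} (hR : ∀ r ∈ R, Up z c r)
    (hR' : ∀ e, Up z c e → ∃! r, r ∈ R ∧ ∃ k : ℕ, (hstep T z c)^[k] r = e) {r s : D}
    (hr : r ∈ R) (hs : s ∈ R) : iota T z c r s = if r = s then 1 else 0 := by
  split_ifs with hrs
  · rw [← hrs]
    exact h.iota_self (hR r hr) 0
  · exact K1b_zero h hR hR' hr hs (hR s hs) ⟨0, rfl⟩ hrs

private theorem K1b_step {M : Type*} [AddCommGroup M] (h : Horiz T z c) {f : D → M}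
    (hf : IsCoc T f) (h0 : ∀ e, cr (z e) c = 0 → f e = 0) {d : D} (hd : Up z c d) :
    f (hstep T z c d) = f d := by
  have h1 := hf.closed d
  rcases h.cases hd with ⟨μ, _, h2, _, h4⟩ | ⟨μ, _, h2, _, h4⟩
  · have h5 : f (T.nxt d) = 0 := h0 _ (by rw [h2]; unfold cr; simp; ring)
    rw [h5, add_zero] at h1
    rw [h4, hf.glue]
    exact (eq_neg_of_add_eq_zero_left h1).symm
  · have h5 : f (T.nxt (T.nxt d)) = 0 := h0 _ (by rw [h2]; unfold cr; simp; ring)
    rw [h5, add_zero] at h1
    rw [h4, hf.glue]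
    exact (eq_neg_of_add_eq_zero_left h1).symm

private theorem K1b_iter {M : Type*} [AddCommGroup M] (h : Horiz T z c) {f : D → M}
    (hf : IsCoc T f) (h0 : ∀ e, cr (z e) c = 0 → f e = 0) {d : D} (hd : Up z c d) (k : ℕ) :
    f ((hstep T z c)^[k] d) = f d := by
  induction k with
  | zero => rfl
  | succ k ih =>
    rw [Function.iterate_succ_apply', K1b_step h hf h0 (h.step_iter_up hd k), ih]

private theorem K1b_cr_opp (h : Horiz T z c) (e : D) : cr (z (T.opp e)) c = -cr (z e) c := by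
  rw [h.geo.coc.glue]
  unfold cr
  simp
  ring

private theorem K1b_nq (h : Horiz T z c) : nq c ≠ 0 := by
  intro h0
  apply h.cne
  have h1 : c 0 * c 0 + c 1 * c 1 = 0 := h0
  have h2 : c 0 = 0 := by nlinarith [mul_self_nonneg (c 0), mul_self_nonneg (c 1)]
  have h3 : c 1 = 0 := by nlinarith [mul_self_nonneg (c 0), mul_self_nonneg (c 1)]
  funext i
  fin_cases i
  · exact h2
  · exact h3

private theorem K1b_cr_tau (h : Horiz T z c) (e : D) : cr (z (T.tau e)) c = -cr (z e) c := by
  rw [h.geo.anti]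
  unfold cr
  simp
  ring

/-- A cocycle which vanishes on the horizontal darts is a combination of the crossing numbers. -/
theorem Horiz.dec {M : Type*} [AddCommGroup M] (h : Horiz T z c) {R : Finset D}
    (hR : ∀ r ∈ R, Up z c r)
    (hR' : ∀ e, Up z c e → ∃! r, r ∈ R ∧ ∃ k : ℕ, (hstep T z c)^[k] r = e) {f : D → M}
    (hf : IsCoc T f) (h0 : ∀ e, cr (z e) c = 0 → f e = 0) (e : D) :
    f e = ∑ r ∈ R, iota T z c r e • f r := by
  have up : ∀ e, Up z c e → f e = ∑ r ∈ R, iota T z c r e • f r := by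
    intro e he
    obtain ⟨r₀, ⟨hr₀, k, hk⟩, _⟩ := hR' e he
    rw [Finset.sum_eq_single r₀]
    · rw [← hk, h.iota_self (hR r₀ hr₀) k, one_smul]
      exact K1b_iter h hf h0 (hR r₀ hr₀) k
    · intro r hr hne
      rw [K1b_zero h hR hR' hr hr₀ he ⟨k, hk⟩ hne, zero_smul]
    · intro hn
      exact absurd hr₀ hn
  rcases lt_trichotomy (cr (z e) c) 0 with h1 | h1 | h1
  · have h2 : Up z c (T.opp e) := by
      show 0 < cr (z (T.opp e)) c
      rw [K1b_cr_opp h]
      linarith
    have h3 := up _ h2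
    rw [hf.glue] at h3
    have h4 : ∑ r ∈ R, iota T z c r (T.opp e) • f r = -∑ r ∈ R, iota T z c r e • f r := by
      rw [← Finset.sum_neg_distrib]
      refine Finset.sum_congr rfl fun r _ => ?_
      rw [iota_opp, neg_smul]
    rw [h4] at h3
    exact neg_injective h3
  · rw [h0 e h1, Finset.sum_eq_zero]
    intro r hr
    rw [h.iota_hor (hR r hr) h1, zero_smul]
  · exact up e h1

/-- the deck transformation maps cylinders to cylinders -/
theorem Horiz.tau_step (h : Horiz T z c) {d : D} (hd : Up z c d) :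
    Up z c (T.tau (T.opp d)) ∧
      ∃ k : ℕ, (hstep T z c)^[k] (T.tau (T.opp (hstep T z c d))) = T.tau (T.opp d) := by
  classical
  refine ⟨?_, 1, ?_⟩
  · show 0 < cr (z (T.tau (T.opp d))) c
    rw [K1b_cr_tau h, K1b_cr_opp h, neg_neg]
    exact hd
  · have hd' : 0 < cr (z d) c := hd
    rw [Function.iterate_one]
    rcases h.cases hd with ⟨μ, _, h2, _, h4⟩ | ⟨μ, _, h2, _, h4⟩
    · rw [h4, T.opp2]
      unfold hstep
      have h5 : T.nxt (T.tau (T.nxt (T.nxt d))) = T.tau d := by
        rw [← T.tau_nxt, T.nxt3]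
      rw [h5, if_neg, ← T.tau_opp]
      rw [K1b_cr_tau h]
      intro h6
      linarith
    · rw [h4, T.opp2]
      unfold hstep
      have h5 : T.nxt (T.tau (T.nxt d)) = T.tau (T.nxt (T.nxt d)) := (T.tau_nxt _).symm
      rw [h5, if_pos]
      · rw [← T.tau_nxt, T.nxt3, ← T.tau_opp]
      · rw [K1b_cr_tau h, h2]
        unfold cr
        simp
        ring

private theorem K1b_inv (T : Tri D) (d : D) : T.tau (T.opp (T.tau (T.opp d))) = d := by
  rw [← T.tau_opp, T.opp2, T.tau2]

private theorem K1b_tau_iter (h : Horiz T z c) {d : D} (hd : Up z c d) (k : ℕ) :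
    ∃ j : ℕ, (hstep T z c)^[j] (T.tau (T.opp ((hstep T z c)^[k] d))) = T.tau (T.opp d) := by
  induction k with
  | zero => exact ⟨0, rfl⟩
  | succ k ih =>
    obtain ⟨j, hj⟩ := ih
    obtain ⟨_, i, hi⟩ := h.tau_step (h.step_iter_up hd k)
    refine ⟨j + i, ?_⟩
    rw [Function.iterate_succ_apply', Function.iterate_add_apply, hi, hj]

private theorem K1b_orb_tau (h : Horiz T z c) {d : D} (hd : Up z c d) {e : D}
    (he : ∃ k : ℕ, (hstep T z c)^[k] (T.tau (T.opp d)) = e) :
    ∃ k : ℕ, (hstep T z c)^[k] d = T.tau (T.opp e) := by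
  obtain ⟨k, rfl⟩ := he
  obtain ⟨hu, -⟩ := h.tau_step hd
  obtain ⟨j, hj⟩ := K1b_tau_iter h hu k
  rw [K1b_inv] at hj
  have hu' : Up z c (T.tau (T.opp ((hstep T z c)^[k] (T.tau (T.opp d))))) :=
    (h.tau_step (h.step_iter_up hu k)).1
  obtain ⟨i, hi⟩ := h.step_symm hu' j
  rw [hj] at hi
  exact ⟨i, hi⟩

private theorem K1b_orb_tau_iff (h : Horiz T z c) {d : D} (hd : Up z c d) (e : D) :
    (∃ k : ℕ, (hstep T z c)^[k] (T.tau (T.opp d)) = e) ↔
      ∃ k : ℕ, (hstep T z c)^[k] d = T.tau (T.opp e) := by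
  refine ⟨K1b_orb_tau h hd, fun he => ?_⟩
  have hu := (h.tau_step hd).1
  rw [← K1b_inv T d] at he
  have h1 := K1b_orb_tau h hu he
  rwa [K1b_inv] at h1

theorem Horiz.iota_tau (h : Horiz T z c) {d : D} (hd : Up z c d) (e : D) :
    iota T z c (T.tau (T.opp d)) e = -iota T z c d (T.tau e) := by
  classical
  unfold iota
  have h1 := K1b_orb_tau_iff h hd e
  have h2 := K1b_orb_tau_iff h hd (T.opp e)
  have h3 : T.tau (T.opp e) = T.opp (T.tau e) := T.tau_opp e
  rw [T.opp2] at h2
  rw [h3] at h1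
  simp only [h1, h2]
  ring

theorem Horiz.width_step (h : Horiz T z c) {d : D} (hd : Up z c d) (k : ℕ) :
    iota T z c ((hstep T z c)^[k] d) = iota T z c d ∧
      width T z c ((hstep T z c)^[k] d) = width T z c d := by
  classical
  have h1 : ∀ e, (∃ j : ℕ, (hstep T z c)^[j] ((hstep T z c)^[k] d) = e) ↔
      ∃ j : ℕ, (hstep T z c)^[j] d = e := by
    intro e
    constructor
    · rintro ⟨j, hj⟩
      exact ⟨j + k, by rw [Function.iterate_add_apply]; exact hj⟩
    · rintro ⟨j, hj⟩
      obtain ⟨i, hi⟩ := h.step_symm hd k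
      refine ⟨j + i, ?_⟩
      rw [Function.iterate_add_apply, hi, hj]
  have h2 : iota T z c ((hstep T z c)^[k] d) = iota T z c d := by
    funext e
    unfold iota
    simp only [h1]
  refine ⟨h2, ?_⟩
  unfold width
  rw [h2]

theorem Horiz.width_tau (h : Horiz T z c) {d : D} (hd : Up z c d) :
    width T z c (T.tau (T.opp d)) = width T z c d := by
  have h1 : ∀ j, form T (fun e => (iota T z c (T.tau (T.opp d)) e : ℝ)) (fun e => z e j) =
      form T (fun e => (iota T z c d e : ℝ)) (fun e => z e j) := by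
    intro j
    unfold form
    rw [← Equiv.sum_comp T.tau fun e => ((iota T z c d e : ℝ) * z (T.nxt e) j -
      z e j * (iota T z c d (T.nxt e) : ℝ))]
    refine Finset.sum_congr rfl fun e _ => ?_
    beta_reduce
    rw [h.iota_tau hd, h.iota_tau hd, ← T.tau_nxt, h.geo.anti, h.geo.anti]
    push_cast
    simp only [Pi.neg_apply]
    ring
  unfold width
  simp only [h1]

/-- cocycles which vanish on the horizontal darts are orthogonal -/
private theorem K1b_form {R : Type*} [CommRing R] (h : Horiz T z c) {f g : D → R}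
    (hf : IsCoc T f) (hg : IsCoc T g) (hf0 : ∀ e, cr (z e) c = 0 → f e = 0)
    (hg0 : ∀ e, cr (z e) c = 0 → g e = 0) : form T f g = 0 := by
  unfold form
  refine Finset.sum_eq_zero fun e _ => ?_
  rcases h.hor e with h1 | h1 | h1
  · rw [hf0 e h1, hg0 e h1]
    ring
  · rw [hf0 _ h1, hg0 _ h1]
    ring
  · have h2 := hf.closed e
    have h3 := hg.closed e
    rw [hf0 _ h1, add_zero] at h2
    rw [hg0 _ h1, add_zero] at h3
    rw [eq_neg_of_add_eq_zero_right h2, eq_neg_of_add_eq_zero_right h3]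
    ring

/-- different cylinders are disjoint -/
theorem Horiz.form_iota (h : Horiz T z c) {d d' : D} (hd : Up z c d) (hd' : Up z c d') :
    form T (iota T z c d) (iota T z c d') = 0 :=
  K1b_form h (h.isCyl hd).coc (h.isCyl hd').coc (fun _ he => h.iota_hor hd he)
    (fun _ he => h.iota_hor hd' he)

private theorem K1b_form_add {R : Type*} [CommRing R] (T : Tri D) (f g g' : D → R) (a b : R) :
    form T f (fun e => a * g e + b * g' e) = a * form T f g + b * form T f g' := by
  unfold form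
  rw [Finset.mul_sum, Finset.mul_sum, ← Finset.sum_add_distrib]
  refine Finset.sum_congr rfl fun e _ => ?_
  ring

private theorem K1b_form_sum {R : Type*} [CommRing R] {ι : Type*} (s : Finset ι) (T : Tri D)
    (f : ι → D → R) (a : ι → R) (g : D → R) :
    form T (fun e => ∑ i ∈ s, f i e * a i) g = ∑ i ∈ s, a i * form T (f i) g := by
  unfold form
  simp only [Finset.mul_sum]
  rw [Finset.sum_comm]
  refine Finset.sum_congr rfl fun e _ => ?_
  rw [Finset.sum_mul, ← Finset.sum_sub_distrib]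
  refine Finset.sum_congr rfl fun i _ => ?_
  ring

/-- the area is the sum of the areas of the cylinders -/
theorem Horiz.area_eq (h : Horiz T z c) {R : Finset D} (hR : ∀ r ∈ R, Up z c r)
    (hR' : ∀ e, Up z c e → ∃! r, r ∈ R ∧ ∃ k : ℕ, (hstep T z c)^[k] r = e) :
    area T z = ∑ r ∈ R, 6 * (width T z c r * cr (z r) c) := by
  have hnq : nq c ≠ 0 := K1b_nq h
  have hcoc : IsCoc T fun e => cr (z e) c := by
    refine ⟨fun e => ?_, fun e => K1b_cr_opp h e⟩
    have h1 := h.geo.coc.closed e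
    have h2 := congrFun h1 0
    have h3 := congrFun h1 1
    simp only [Pi.add_apply, Pi.zero_apply] at h2 h3
    unfold cr
    have e2 : z (T.nxt (T.nxt e)) 0 = -(z e 0 + z (T.nxt e) 0) := by linarith
    have e3 : z (T.nxt (T.nxt e)) 1 = -(z e 1 + z (T.nxt e) 1) := by linarith
    rw [e2, e3]
    ring
  have hdec : (fun e => cr (z e) c) = fun e => ∑ r ∈ R, (iota T z c r e : ℝ) * cr (z r) c := by
    funext e
    have h1 := h.dec hR hR' hcoc (fun e he => he) e
    rw [h1]
    refine Finset.sum_congr rfl fun r _ => ?_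
    rw [zsmul_eq_mul]
  have h1 : form T (fun e => cr (z e) c) (fun e => c 0 * z e 0 + c 1 * z e 1) =
      nq c * area T z := by
    unfold form area cr nq ip
    rw [Finset.mul_sum]
    refine Finset.sum_congr rfl fun e _ => ?_
    ring
  have h2 : form T (fun e => cr (z e) c) (fun e => c 0 * z e 0 + c 1 * z e 1) =
      nq c * ∑ r ∈ R, 6 * (width T z c r * cr (z r) c) := by
    rw [hdec, K1b_form_sum, Finset.mul_sum]
    refine Finset.sum_congr rfl fun r _ => ?_
    rw [K1b_form_add]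
    unfold width ip
    field_simp
  exact mul_left_cancel₀ hnq (h1.symm.trans h2)

/-- change of `c` by a positive factor -/
theorem Horiz.smul (h : Horiz T z c) {μ : ℝ} (hμ : 0 < μ) :
    Horiz T z (μ • c) ∧ ∀ d, hstep T z (μ • c) d = hstep T z c d ∧
      width T z (μ • c) d = width T z c d / μ := by
  classical
  have hcr : ∀ v : Vec, cr v (μ • c) = μ * cr v c := by
    intro v
    unfold cr
    simp only [Pi.smul_apply, smul_eq_mul]
    ring
  have hcr0 : ∀ v : Vec, cr v (μ • c) = 0 ↔ cr v c = 0 := by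
    intro v
    rw [hcr, mul_eq_zero]
    exact ⟨fun h' => h'.resolve_left hμ.ne', Or.inr⟩
  have hst : hstep T z (μ • c) = hstep T z c := by
    funext d
    unfold hstep
    simp only [hcr0]
  refine ⟨⟨h.geo, smul_ne_zero hμ.ne' h.cne, fun d => ?_⟩, fun d => ⟨congrFun hst d, ?_⟩⟩
  · rw [hcr0, hcr0, hcr0]
    exact h.hor d
  · have hio : iota T z (μ • c) d = iota T z c d := by
      funext e
      unfold iota
      rw [hst]
    unfold width
    rw [hio]
    have h1 := K1b_nq h
    have h2 : nq (μ • c) = μ * μ * nq c := by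
      unfold nq ip
      simp only [Pi.smul_apply, smul_eq_mul]
      ring
    have h3 : ∀ v : Vec, ip v (μ • c) = μ * ip v c := by
      intro v
      unfold ip
      simp only [Pi.smul_apply, smul_eq_mul]
      ring
    rw [h2, h3]
    field_simp

end Pool.Veech
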