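import Pool.Agent.Lib.MP_fceebd_gt.J1b
import Pool.Agent.Lib.MP_fceebd_gt.K1b

/-! # Row J2: arithmetic bounds for the cylinders of a horizontal triangulation -/

set_option autoImplicit false

open scoped MatrixGroups

namespace Pool.Veech

variable {D : Type} [Fintype D] [DecidableEq D] {K : Type} [Field K] [NumberField K]

/-- the cross product over `K` -/
def crK {K : Type} [Field K] (u v : Fin 2 → K) : K := u 0 * v 1 - u 1 * v 0

/-- The holonomies are in a number field `K = ℚ(t)`, where `t` is the trace of an affine map with the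
matrix `m`; `N` is a denominator for the cross products. -/
structure Arith (T : Tri D) (z : D → Vec) (ι : K →+* ℝ) (zK : D → Fin 2 → K) (m : Matrix D D ℤ)
    (t : K) (N : ℕ) : Prop where
  z_eq : ∀ d j, z d j = ι (zK d j)
  path : GPath T z T m
  eig : app m (app m zK) - t • app m zK + zK = 0
  gen : ∀ σ τ : K →+* ℂ, σ t = τ t → σ = τ
  Npos : 0 < N
  int : ∀ d d', IsIntegral ℤ ((N : K) * crK (zK d) (zK d') / ∑ e, crK (zK e) (zK (T.nxt e)))
  der : ∃ C : SL(2, ℝ), app m z = lin C.1 z

private theorem J2a_zK_coc {T : Tri D} {z : D → Vec} {ι : K →+* ℝ} {zK : D → Fin 2 → K}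
    (hz : ∀ d j, z d j = ι (zK d j)) (hc : IsCoc T z) : IsCoc T zK := by
  constructor
  · intro d
    funext j
    apply ι.injective
    have := congrFun (hc.closed d) j
    simp only [Pi.add_apply, Pi.zero_apply, hz] at this
    simpa [map_add] using this
  · intro d
    funext j
    apply ι.injective
    have := congrFun (hc.glue d) j
    simp only [Pi.neg_apply, hz] at this
    simpa [map_neg] using this

private theorem J2a_coc_coord {T : Tri D} {zK : D → Fin 2 → K} (h : IsCoc T zK) (j : Fin 2) :
    IsCoc T (fun e => zK e j) := by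
  constructor
  · intro d
    have := congrFun (h.closed d) j
    simpa using this
  · intro d
    have := congrFun (h.glue d) j
    simpa using this

private theorem J2a_sum_crK (T : Tri D) (zK : D → Fin 2 → K) :
    ∑ e, crK (zK e) (zK (T.nxt e)) = form T (fun e => zK e 0) (fun e => zK e 1) := by
  unfold form crK
  rfl

private theorem J2a_int {ι' : Type} [Fintype ι'] (m : Matrix D D ℤ) (zK : D → Fin 2 → K) (A : K)
    (N : ℕ) (h : ∀ d d', IsIntegral ℤ ((N : K) * crK (zK d) (zK d') / A)) (d d' : D) :
    IsIntegral ℤ ((N : K) * crK (app m zK d) (app m zK d') / A) := by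
  have h0 : (N : K) * crK (app m zK d) (app m zK d') / A =
      ∑ e, ∑ e', (m d e * m d' e') • ((N : K) * crK (zK e) (zK e') / A) := by
    have e1 : ∀ (x : D) (j : Fin 2), app m zK x j = ∑ e, (m x e : K) * zK e j := by
      intro x j
      unfold app
      rw [Finset.sum_apply]
      refine Finset.sum_congr rfl fun e _ => ?_
      rw [Pi.smul_apply, zsmul_eq_mul]
    unfold crK
    rw [e1, e1, e1, e1, Finset.sum_mul_sum, Finset.sum_mul_sum, ← Finset.sum_sub_distrib,
      Finset.mul_sum, Finset.sum_div]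
    refine Finset.sum_congr rfl fun e _ => ?_
    rw [← Finset.sum_sub_distrib, Finset.mul_sum, Finset.sum_div]
    refine Finset.sum_congr rfl fun e' _ => ?_
    rw [zsmul_eq_mul]
    push_cast
    ring
  rw [h0]
  refine IsIntegral.sum _ fun e _ => IsIntegral.sum _ fun e' _ => ?_
  exact (h e e').smul _

theorem Arith.trans {T T' : Tri D} {z : D → Vec} {ι : K →+* ℝ} {zK : D → Fin 2 → K}
    {m m' : Matrix D D ℤ} {t : K} {N : ℕ} (h : Arith T z ι zK m t N) (h' : GPath T z T' m') :
    ∃ m'', Arith T' (app m' z) ι (app m' zK) m'' t N := by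
  obtain ⟨n, hn, hn1, hn2⟩ := h'.symm'
  have hzc : IsCoc T z := h'.geo_left.coc
  have hKc : IsCoc T zK := J2a_zK_coc h.z_eq hzc
  obtain ⟨C, hC⟩ := h.der
  have hz1 : app n (app m' z) = z := hn1 _ z hzc
  have p1 : GPath T' (app m' z) T (m * n) := hn.trans (by rw [hz1]; exact h.path)
  have p2 : GPath T' (app m' z) T' (m' * (m * n)) := by
    refine p1.trans ?_
    rw [app_mul, hz1, hC]
    exact h'.lin C.1 (det_pos C)
  refine ⟨m' * (m * n), ?_, p2, ?_, h.gen, h.Npos, ?_, C, ?_⟩
  · intro d j
    have e1 := app_coord m' z d j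
    have e2 := app_coord m' zK d j
    rw [← e1, ← e2]
    have e3 := app_map m' (fun e => zK e j) (ι : K →+ ℝ) d
    have e4 : (fun e => z e j) = fun e => (ι : K →+ ℝ) (zK e j) := by
      funext e
      exact h.z_eq e j
    rw [e4, e3]
    rfl
  · have a1 : app (m' * (m * n)) (app m' zK) = app m' (app m zK) := by
      rw [app_mul, app_mul, hn1 _ zK hKc]
    have a2 : app (m' * (m * n)) (app m' (app m zK)) = app m' (app m (app m zK)) := by
      rw [app_mul, app_mul, hn1 _ (app m zK) (h.path.coc hKc)]
    rw [a1, a2, ← app_smul, ← app_sub, ← app_add, h.eig, app_zero]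
  · have s1 : ∑ e, crK (app m' zK e) (app m' zK (T'.nxt e)) =
        ∑ e, crK (zK e) (zK (T.nxt e)) := by
      rw [J2a_sum_crK, J2a_sum_crK]
      have b : ∀ j : Fin 2, (fun e => app m' zK e j) = app m' (fun e => zK e j) := by
        intro j
        funext e
        exact (app_coord m' zK e j).symm
      rw [b, b]
      exact h'.form (J2a_coc_coord hKc 0) (J2a_coc_coord hKc 1)
    rw [s1]
    exact J2a_int (ι' := D) m' zK _ N h.int
  · rw [app_mul, app_mul, hz1, hC, app_lin]

private theorem J2a_form_lin {R : Type*} [CommRing R] (T : Tri D) (s : R) (f g k : D → R) :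
    form T (s • f - g) k = s * form T f k - form T g k := by
  unfold form
  rw [Finset.mul_sum, ← Finset.sum_sub_distrib]
  refine Finset.sum_congr rfl fun d _ => ?_
  simp only [Pi.sub_apply, Pi.smul_apply, smul_eq_mul]
  ring

private theorem J2a_form_lin' {R : Type*} [CommRing R] (T : Tri D) (s : R) (f g k : D → R) :
    form T k (s • f - g) = s * form T k f - form T k g := by
  unfold form
  rw [Finset.mul_sum, ← Finset.sum_sub_distrib]
  refine Finset.sum_congr rfl fun d _ => ?_
  simp only [Pi.sub_apply, Pi.smul_apply, smul_eq_mul]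
  ring

/-- the conjugate cocycles -/
private theorem J2a_conj {T : Tri D} {zK : D → Fin 2 → K} {m : Matrix D D ℤ} {t : K}
    (hKc : IsCoc T zK) (eig : app m (app m zK) - t • app m zK + zK = 0) (a : Fin 2 → K)
    (σ : K →+* ℂ) :
    IsCoc T (fun e => σ (a 0 * zK e 0 + a 1 * zK e 1)) ∧
      app m (app m (fun e => σ (a 0 * zK e 0 + a 1 * zK e 1))) =
        σ t • app m (fun e => σ (a 0 * zK e 0 + a 1 * zK e 1)) -
          fun e => σ (a 0 * zK e 0 + a 1 * zK e 1) := by
  have hL : ∃ g : (Fin 2 → K) →+ ℂ, (∀ v, g v = σ (a 0 * v 0 + a 1 * v 1)) ∧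
      ∀ (s : K) (v : Fin 2 → K), g (s • v) = σ s * g v := by
    refine ⟨⟨⟨fun v => σ (a 0 * v 0 + a 1 * v 1), by simp⟩, ?_⟩, fun v => rfl, ?_⟩
    · intro v w
      change σ (a 0 * (v 0 + w 0) + a 1 * (v 1 + w 1)) =
        σ (a 0 * v 0 + a 1 * v 1) + σ (a 0 * w 0 + a 1 * w 1)
      rw [← map_add]
      congr 1
      ring
    · intro s v
      change σ (a 0 * (s * v 0) + a 1 * (s * v 1)) = σ s * σ (a 0 * v 0 + a 1 * v 1)
      rw [← map_mul]
      congr 1
      ring
  obtain ⟨g, hg, hg2⟩ := hL
  have e0 : (fun e => σ (a 0 * zK e 0 + a 1 * zK e 1)) = fun e => g (zK e) := by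
    funext e
    exact (hg _).symm
  rw [e0]
  have e1 : ∀ f : D → Fin 2 → K, app m (fun e => g (f e)) = fun e => g (app m f e) := by
    intro f
    funext d
    exact app_map m f g d
  refine ⟨⟨fun d => ?_, fun d => ?_⟩, ?_⟩
  · rw [← map_add, ← map_add, hKc.closed, map_zero]
  · change g (zK (T.opp d)) = -g (zK d)
    rw [hKc.glue, map_neg]
  · rw [e1, e1]
    funext e
    have h1 := congrFun eig e
    have h2 : app m (app m zK) e = t • app m zK e - zK e := by
      have h3 : app m (app m zK) e - t • app m zK e + zK e = 0 := h1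
      have h4 : app m (app m zK) e = (app m (app m zK) e - t • app m zK e + zK e) +
          (t • app m zK e - zK e) := by abel
      rw [h4, h3, zero_add]
    rw [h2, map_sub, hg2]
    rfl

/-- `f` and `g` are linear combinations of the coordinates of `zK` with coefficients in `K`. For
different embeddings `σ`, `τ` the conjugate cocycles are orthogonal: with `F = σ ∘ f`, `G = τ ∘ g`,
`form (m F) G + form F (m G) = σ t form F G` and `= τ t form F G`, by invariance of the form and
`m^2 F - σ t m F + F = 0`. -/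
theorem Arith.orth {T : Tri D} {z : D → Vec} {ι : K →+* ℝ} {zK : D → Fin 2 → K}
    {m : Matrix D D ℤ} {t : K} {N : ℕ} (h : Arith T z ι zK m t N) (a b : Fin 2 → K)
    {σ τ : K →+* ℂ} (hst : σ ≠ τ) :
    form T (fun e => σ (a 0 * zK e 0 + a 1 * zK e 1)) (fun e => τ (b 0 * zK e 0 + b 1 * zK e 1)) =
      0 := by
  have hKc : IsCoc T zK := J2a_zK_coc h.z_eq h.path.geo_left.coc
  obtain ⟨hF, hF2⟩ := J2a_conj hKc h.eig a σ
  obtain ⟨hG, hG2⟩ := J2a_conj hKc h.eig b τ
  generalize (fun e => σ (a 0 * zK e 0 + a 1 * zK e 1)) = F at hF hF2 ⊢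
  generalize (fun e => τ (b 0 * zK e 0 + b 1 * zK e 1)) = G at hG hG2 ⊢
  have i0 : form T (app m F) (app m G) = form T F G := h.path.form hF hG
  have i1 : form T (app m (app m F)) (app m G) = form T (app m F) G :=
    h.path.form (h.path.coc hF) hG
  have i2 : form T (app m F) (app m (app m G)) = form T F (app m G) :=
    h.path.form hF (h.path.coc hG)
  rw [hF2, J2a_form_lin, i0] at i1
  rw [hG2, J2a_form_lin', i0] at i2
  have hne : σ t ≠ τ t := fun hh => hst (h.gen _ _ hh)
  have key : (σ t - τ t) * form T F G = 0 := by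
    linear_combination i1 - i2
  rcases mul_eq_zero.1 key with h0 | h0
  · exact absurd (sub_eq_zero.1 h0) hne
  · exact h0

end Pool.Veech
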