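import Pool.Agent.Lib.MP_fceebd_gt.J2a

/-! # Row J2: arithmetic bounds for the cylinders of a horizontal triangulation -/

set_option autoImplicit false

open scoped MatrixGroups

namespace Pool.Veech

variable {D : Type} [Fintype D] [DecidableEq D] {K : Type} [Field K] [NumberField K]

private theorem J2b_map {R S : Type} [CommRing R] [CommRing S] (φ : R →+* S) (T : Tri D)
    (f g : D → R) : φ (form T f g) = form T (fun e => φ (f e)) (fun e => φ (g e)) := by
  unfold form
  rw [map_sum]
  exact Finset.sum_congr rfl fun e _ => by rw [map_sub, map_mul, map_mul]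

private theorem J2b_swap {R : Type} [CommRing R] (T : Tri D) (f g : D → R) :
    form T f g = -form T g f := by
  unfold form
  rw [← Finset.sum_neg_distrib]
  exact Finset.sum_congr rfl fun e _ => by ring

private theorem J2b_lin {R : Type} [CommRing R] (T : Tri D) (f g g' : D → R) (a b : R) :
    form T f (fun e => g e * a - g' e * b) = form T f g * a - form T f g' * b := by
  unfold form
  rw [Finset.sum_mul, Finset.sum_mul, ← Finset.sum_sub_distrib]
  exact Finset.sum_congr rfl fun e _ => by ring

private theorem J2b_sum {R : Type} [CommRing R] (T : Tri D) (S : Finset D) (f : D → R)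
    (g : D → D → R) (a : D → R) :
    form T f (fun e => ∑ r ∈ S, g r e * a r) = ∑ r ∈ S, form T f (g r) * a r := by
  unfold form
  have h1 : ∀ e, f e * ∑ r ∈ S, g r (T.nxt e) * a r - (∑ r ∈ S, g r e * a r) * f (T.nxt e) =
      ∑ r ∈ S, (f e * g r (T.nxt e) - g r e * f (T.nxt e)) * a r := by
    intro e
    rw [Finset.mul_sum, Finset.sum_mul, ← Finset.sum_sub_distrib]
    exact Finset.sum_congr rfl fun r _ => by ring
  rw [Finset.sum_congr rfl fun e _ => h1 e, Finset.sum_comm]
  exact Finset.sum_congr rfl fun r _ => (Finset.sum_mul _ _ _).symm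

private theorem J2b_par {T : Tri D} {z : D → Vec} {c : Vec} (hH : Horiz T z c) {s : D}
    (hs : cr (z s) c = 0) : ∃ (s' : D) (μ : ℝ), 0 < μ ∧ z s' = μ • c := by
  have hg := hH.geo
  have hzs : z s ≠ 0 := by
    intro h0
    have h1 := hg.pos s
    rw [h0] at h1
    simp [cr] at h1
  have hcr : z s 0 * c 1 = z s 1 * c 0 := by
    unfold cr at hs
    linarith
  have hex : ∃ l : ℝ, z s = l • c := by
    by_cases h0 : c 0 = 0
    · have h1 : c 1 ≠ 0 := by
        intro h1
        apply hH.cne
        funext j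
        fin_cases j
        · exact h0
        · exact h1
      refine ⟨z s 1 / c 1, ?_⟩
      rw [h0, mul_zero] at hcr
      have h2 : z s 0 = 0 := (mul_eq_zero.1 hcr).resolve_right h1
      funext j
      fin_cases j
      · show z s 0 = z s 1 / c 1 * c 0
        rw [h2, h0, mul_zero]
      · show z s 1 = z s 1 / c 1 * c 1
        field_simp
    · refine ⟨z s 0 / c 0, ?_⟩
      funext j
      fin_cases j
      · show z s 0 = z s 0 / c 0 * c 0
        field_simp
      · show z s 1 = z s 0 / c 0 * c 1
        field_simp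
        linarith
  obtain ⟨l, hl⟩ := hex
  rcases lt_trichotomy l 0 with h1 | h1 | h1
  · refine ⟨T.opp s, -l, by linarith, ?_⟩
    rw [hg.coc.glue, hl, neg_smul]
  · rw [h1, zero_smul] at hl
    exact absurd hl hzs
  · exact ⟨s, l, h1, hl⟩

/-- The arithmetic data of a horizontal triangulation. The vector `c` may be replaced by `z s` for
a horizontal dart `s` (or its opposite), so by a vector `ι ∘ cK` (`Horiz.smul`); choose `eK` with
`crK cK eK = 1`. With `x e = crK (zK e) eK`, `y e = crK (zK e) cK`, the representatives `r` of the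
cylinders, `h r = y r`, `w r = form (iota r) x / 6`: `y = ∑ h r iota r`, so
`form (σ x) (τ y) = - 6 ∑ σ (w r) τ (h r)` vanishes for `σ ≠ τ`; `6 w r cK = form (iota r) zK`, so
`6 w r h s` is a sum of cross products `crK (zK d) (zK d')` with integral coefficients,
and `∑ w r h r = area / 6`. -/
theorem Arith.data {T : Tri D} {z : D → Vec} {ι : K →+* ℝ} {zK : D → Fin 2 → K}
    {m : Matrix D D ℤ} {t : K} {N : ℕ} {c : Vec} (h : Arith T z ι zK m t N)
    (hH : Horiz T z c) (hC : Comm T z c) :
    ∃ (R : Finset D) (w h' : R → K) (μ : ℝ), 0 < μ ∧ (∀ r : R, Up z c r) ∧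
      (∀ e, Up z c e → ∃! r, r ∈ R ∧ ∃ k : ℕ, (hstep T z c)^[k] r = e) ∧
      (∀ r : R, ι (w r) = width T z c r / μ) ∧ (∀ r : R, ι (h' r) = μ * cr (z r) c) ∧
      (∀ r : R, 0 < ι (w r)) ∧ (∀ r : R, 0 < ι (h' r)) ∧
      (∀ r s : R, ∃ q : ℚ, h' r * w s = q * (h' s * w r)) ∧
      (∀ σ τ : K →+* ℂ, σ ≠ τ → ∑ r, σ (w r) * τ (h' r) = 0) ∧
      (∀ r s, IsIntegral ℤ ((N : K) * (w r * h' s) / ∑ l, w l * h' l)) ∧
      ι (∑ l, w l * h' l) = area T z / 6 := by
  classical
  have hg := hH.geo
  have hinj := ι.injective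
  rcases isEmpty_or_nonempty D with hD | ⟨⟨d0⟩⟩
  · refine ⟨∅, fun _ => 0, fun _ => 0, 1, one_pos, fun r => (hD.false r.1).elim,
      fun e => (hD.false e).elim, fun r => (hD.false r.1).elim, fun r => (hD.false r.1).elim,
      fun r => (hD.false r.1).elim, fun r => (hD.false r.1).elim, fun r => (hD.false r.1).elim,
      fun σ τ _ => ?_, fun r => (hD.false r.1).elim, ?_⟩
    · simp
    · simp [area]
  -- a horizontal dart
  obtain ⟨s, μ, hμ, hs⟩ : ∃ (s : D) (μ : ℝ), 0 < μ ∧ z s = μ • c := by
    rcases hH.hor d0 with h1 | h1 | h1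
    · exact J2b_par hH h1
    · exact J2b_par hH h1
    · exact J2b_par hH h1
  obtain ⟨cK, hcK⟩ : ∃ cK : Fin 2 → K, cK = zK s := ⟨_, rfl⟩
  have hc' : ∀ j, ι (cK j) = μ * c j := by
    intro j
    rw [hcK, ← h.z_eq s j, hs]
    rfl
  obtain ⟨eK, heK⟩ : ∃ eK : Fin 2 → K, crK cK eK = 1 := by
    by_cases h0 : cK 0 = 0
    · have h1 : cK 1 ≠ 0 := by
        intro h1
        apply hH.cne
        have k0 := hc' 0
        have k1 := hc' 1
        rw [h0, map_zero] at k0
        rw [h1, map_zero] at k1
        funext j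
        fin_cases j
        · exact (mul_eq_zero.1 k0.symm).resolve_left hμ.ne'
        · exact (mul_eq_zero.1 k1.symm).resolve_left hμ.ne'
      refine ⟨![-(cK 1)⁻¹, 0], ?_⟩
      unfold crK
      simp [h1]
    · refine ⟨![0, (cK 0)⁻¹], ?_⟩
      unfold crK
      simp [h0]
  obtain ⟨x, hx⟩ : ∃ x : D → K, ∀ e, x e = zK e 0 * eK 1 - zK e 1 * eK 0 := ⟨_, fun _ => rfl⟩
  obtain ⟨y, hy⟩ : ∃ y : D → K, ∀ e, y e = zK e 0 * cK 1 - zK e 1 * cK 0 := ⟨_, fun _ => rfl⟩
  have hιx : ∀ e, ι (x e) = z e 0 * ι (eK 1) - z e 1 * ι (eK 0) := by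
    intro e
    rw [hx, map_sub, map_mul, map_mul, ← h.z_eq, ← h.z_eq]
  have hιy : ∀ e, ι (y e) = μ * cr (z e) c := by
    intro e
    rw [hy, map_sub, map_mul, map_mul, ← h.z_eq, ← h.z_eq, hc', hc']
    unfold cr
    ring
  -- cross products
  have hcrK : ∀ e e', crK (zK e) (zK e') = y e * x e' - x e * y e' := by
    intro e e'
    have h1 : crK (zK e) (zK e') = crK (zK e) (zK e') * crK cK eK := by rw [heK, mul_one]
    rw [h1, hx, hx, hy, hy]
    unfold crK
    ring
  -- representatives
  obtain ⟨R, hR, hR'⟩ := hH.exists_reps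
  have hform : ∀ r ∈ R, ∀ j, form T (fun e => (iota T z c r e : ℝ)) (fun e => z e j) =
      6 * (width T z c r * c j) := by
    intro r hr j
    exact (hH.isCyl (hR r hr)).form_eq j
  have hormK : ∀ (g : D → K) (r : D), ι (form T (fun e => (iota T z c r e : K)) g) =
      form T (fun e => (iota T z c r e : ℝ)) (fun e => ι (g e)) := by
    intro g r
    rw [J2b_map]
    congr 1
    funext e
    exact map_intCast ι _
  have hne : μ * c 0 * ι (eK 1) - μ * c 1 * ι (eK 0) = 1 := by
    have h1 := congrArg ι heK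
    unfold crK at h1
    rw [map_sub, map_mul, map_mul, hc', hc', map_one] at h1
    exact h1
  have hfx : ∀ r ∈ R, ι (form T (fun e => (iota T z c r e : K)) x) = 6 * (width T z c r / μ) := by
    intro r hr
    rw [hormK]
    have e1 : (fun e => ι (x e)) = fun e => z e 0 * ι (eK 1) - z e 1 * ι (eK 0) := funext hιx
    rw [e1, J2b_lin T _ (fun e => z e 0) (fun e => z e 1), hform r hr, hform r hr]
    have e2 : 6 * (width T z c r * c 0) * ι (eK 1) - 6 * (width T z c r * c 1) * ι (eK 0) =
        6 * (width T z c r / μ) * (μ * c 0 * ι (eK 1) - μ * c 1 * ι (eK 0)) := by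
      field_simp
    rw [e2, hne, mul_one]
  have hfy : ∀ r ∈ R, form T (fun e => (iota T z c r e : K)) y = 0 := by
    intro r hr
    apply hinj
    rw [hormK, map_zero]
    have e1 : (fun e => ι (y e)) = fun e => z e 0 * (μ * c 1) - z e 1 * (μ * c 0) := by
      funext e
      rw [hιy]
      unfold cr
      ring
    rw [e1, J2b_lin T _ (fun e => z e 0) (fun e => z e 1), hform r hr, hform r hr]
    ring
  -- `y` is a combination of the crossing numbers
  have hycoc : IsCoc T y := by
    constructor
    · intro d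
      apply hinj
      rw [map_add, map_add, hιy, hιy, hιy, map_zero]
      have h0 := congrFun (hg.coc.closed d) 0
      have h1 := congrFun (hg.coc.closed d) 1
      simp only [Pi.add_apply, Pi.zero_apply] at h0 h1
      unfold cr
      linear_combination μ * c 1 * h0 - μ * c 0 * h1
    · intro d
      apply hinj
      rw [map_neg, hιy, hιy, hg.coc.glue]
      unfold cr
      simp only [Pi.neg_apply]
      ring
  have hdec := hH.dec hR hR' hycoc (fun e he => by
    apply hinj
    rw [hιy, he, mul_zero, map_zero])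
  have h6K : (6 : K) ≠ 0 := by norm_num
  have hwι : ∀ r : R, ι (form T (fun e => (iota T z c r e : K)) x / 6) = width T z c r / μ := by
    intro r
    rw [map_div₀, hfx r.1 r.2, map_ofNat]
    field_simp
  have hhι : ∀ r : R, ι (y r) = μ * cr (z r) c := fun r => hιy r
  have hAeq : ι (∑ l : R, form T (fun e => (iota T z c l e : K)) x / 6 * y l) = area T z / 6 := by
    rw [map_sum, hH.area_eq hR hR']
    have e1 : ∀ l : R, ι (form T (fun e => (iota T z c l e : K)) x / 6 * y l) =
        width T z c l * cr (z l) c := by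
      intro l
      rw [map_mul, hwι, hhι]
      field_simp
    rw [Finset.sum_congr rfl fun l _ => e1 l,
      Finset.sum_coe_sort R (fun l => width T z c l * cr (z l) c), ← Finset.mul_sum]
    ring
  refine ⟨R, fun r => form T (fun e => (iota T z c r e : K)) x / 6, fun r => y r, μ, hμ,
    fun r => hR r.1 r.2, hR', hwι, hhι, fun r => ?_, fun r => ?_, fun r s' => ?_,
    fun σ τ hst => ?_, fun r s' => ?_, hAeq⟩
  · rw [hwι]
    exact div_pos (hH.width_pos (hR r.1 r.2)) hμ
  · rw [hhι]
    exact mul_pos hμ (hR r.1 r.2)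
  · obtain ⟨q, hq⟩ := hC r s' (hR r.1 r.2) (hR s'.1 s'.2)
    refine ⟨q, hinj ?_⟩
    rw [map_mul, map_mul, map_mul, map_ratCast, hwι, hwι, hhι, hhι]
    have e1 : μ * cr (z r) c * (width T z c s' / μ) = cr (z r) c * width T z c s' := by
      field_simp
    have e2 : μ * cr (z s') c * (width T z c r / μ) = cr (z s') c * width T z c r := by
      field_simp
    rw [e1, e2, hq]
  · have h1 := h.orth ![eK 1, -eK 0] ![cK 1, -cK 0] hst
    have e1 : (fun e => σ ((![eK 1, -eK 0] : Fin 2 → K) 0 * zK e 0 +
        (![eK 1, -eK 0] : Fin 2 → K) 1 * zK e 1)) = fun e => σ (x e) := by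
      funext e
      congr 1
      rw [hx]
      show eK 1 * zK e 0 + -eK 0 * zK e 1 = _
      ring
    have e2 : (fun e => τ ((![cK 1, -cK 0] : Fin 2 → K) 0 * zK e 0 +
        (![cK 1, -cK 0] : Fin 2 → K) 1 * zK e 1)) =
        fun e => ∑ r ∈ R, ((iota T z c r e : ℤ) : ℂ) * τ (y r) := by
      funext e
      have e3 : (![cK 1, -cK 0] : Fin 2 → K) 0 * zK e 0 +
        (![cK 1, -cK 0] : Fin 2 → K) 1 * zK e 1 = y e := by
        rw [hy]
        show cK 1 * zK e 0 + -cK 0 * zK e 1 = _
        ring
      rw [e3, hdec e, map_sum]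
      refine Finset.sum_congr rfl fun r _ => ?_
      rw [zsmul_eq_mul, map_mul, map_intCast]
    rw [e1, e2, J2b_sum T R _ (fun r e => ((iota T z c r e : ℤ) : ℂ)) (fun r => τ (y r))] at h1
    have e4 : ∀ r, form T (fun e => σ (x e)) (fun e => ((iota T z c r e : ℤ) : ℂ)) =
        -σ (form T (fun e => (iota T z c r e : K)) x) := by
      intro r
      rw [J2b_swap, J2b_map]
      congr 2
      funext e
      exact (map_intCast σ _).symm
    rw [Finset.sum_congr rfl fun r _ => by rw [e4 r]] at h1
    rw [Finset.sum_coe_sort R (fun r => σ (form T (fun e => (iota T z c r e : K)) x / 6) * τ (y r))]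
    have e5 : ∑ r ∈ R, σ (form T (fun e => (iota T z c r e : K)) x / 6) * τ (y r) =
        -(1 / 6) * ∑ r ∈ R, -σ (form T (fun e => (iota T z c r e : K)) x) * τ (y r) := by
      rw [Finset.mul_sum]
      refine Finset.sum_congr rfl fun r _ => ?_
      rw [map_div₀, map_ofNat]
      ring
    rw [e5, h1, mul_zero]
  · -- integrality
    obtain ⟨AK, hAK⟩ : ∃ AK : K, AK = ∑ e, crK (zK e) (zK (T.nxt e)) := ⟨_, rfl⟩
    have hAK1 : ι AK = area T z := by
      rw [hAK, map_sum]
      unfold area
      refine Finset.sum_congr rfl fun e _ => ?_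
      unfold crK cr
      rw [map_sub, map_mul, map_mul, ← h.z_eq, ← h.z_eq, ← h.z_eq, ← h.z_eq]
    have hAK2 : ∑ l : R, form T (fun e => (iota T z c l e : K)) x / 6 * y l = AK / 6 := by
      apply hinj
      rw [hAeq, map_div₀, hAK1, map_ofNat]
    have hint := h.int
    rw [← hAK] at hint
    have e1 : form T (fun e => (iota T z c r e : K)) x * y s' =
        ∑ e, ((iota T z c r e : K) * crK (zK s') (zK (T.nxt e)) -
          (iota T z c r (T.nxt e) : K) * crK (zK s') (zK e)) := by
      have e2 : ∀ e, ((iota T z c r e : K) * crK (zK s') (zK (T.nxt e)) -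
          (iota T z c r (T.nxt e) : K) * crK (zK s') (zK e)) =
          ((iota T z c r e : K) * x (T.nxt e) - x e * (iota T z c r (T.nxt e) : K)) * y s' -
          ((iota T z c r e : K) * y (T.nxt e) - y e * (iota T z c r (T.nxt e) : K)) * x s' := by
        intro e
        rw [hcrK, hcrK]
        ring
      rw [Finset.sum_congr rfl fun e _ => e2 e, Finset.sum_sub_distrib, ← Finset.sum_mul,
        ← Finset.sum_mul]
      have e3 := hfy r.1 r.2
      unfold form at e3
      rw [e3, zero_mul, sub_zero]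
      rfl
    have e4 : (N : K) * (form T (fun e => (iota T z c r e : K)) x / 6 * y s') /
        ∑ l : R, form T (fun e => (iota T z c l e : K)) x / 6 * y l =
        ∑ e, ((iota T z c r e : K) * ((N : K) * crK (zK s') (zK (T.nxt e)) / AK) -
          (iota T z c r (T.nxt e) : K) * ((N : K) * crK (zK s') (zK e) / AK)) := by
      rw [hAK2]
      have e5 : (N : K) * (form T (fun e => (iota T z c r e : K)) x / 6 * y s') / (AK / 6) =
          (N : K) / AK * (form T (fun e => (iota T z c r e : K)) x * y s') := by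
        field_simp
      rw [e5, e1, Finset.mul_sum]
      exact Finset.sum_congr rfl fun e _ => by ring
    show IsIntegral ℤ ((N : K) * (form T (fun e => (iota T z c r e : K)) x / 6 * y s') /
        ∑ l : R, form T (fun e => (iota T z c l e : K)) x / 6 * y l)
    rw [e4]
    refine IsIntegral.sum _ fun e _ => ?_
    refine IsIntegral.sub (IsIntegral.mul ?_ (hint s' (T.nxt e))) (IsIntegral.mul ?_ (hint s' e))
    · exact isIntegral_algebraMap (R := ℤ) (A := K) (x := iota T z c r e)
    · exact isIntegral_algebraMap (R := ℤ) (A := K) (x := iota T z c r (T.nxt e))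

end Pool.Veech
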