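import Pool.Agent.Lib.MP_fceebd_gt.J2b

/-! # Row J2: arithmetic bounds for the cylinders of a horizontal triangulation -/

set_option autoImplicit false

open scoped MatrixGroups

namespace Pool.Veech

variable {D : Type} [Fintype D] [DecidableEq D] {K : Type} [Field K] [NumberField K]

private theorem J2c_height {T : Tri D} {z : D → Vec} {c : Vec} (hH : Horiz T z c) {d : D}
    (hd : Up z c d) (k : ℕ) : cr (z ((hstep T z c)^[k] d)) c = cr (z d) c := by
  induction k with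
  | zero => rfl
  | succ k ih =>
    rw [Function.iterate_succ_apply', hH.step_height (hH.step_iter_up hd k), ih]

/-- from `Arith.data` and `arith_bounds` -/
theorem Arith.bounds {T : Tri D} {z : D → Vec} {ι : K →+* ℝ} {zK : D → Fin 2 → K}
    {m : Matrix D D ℤ} {t : K} {N : ℕ} {c : Vec} (h : Arith T z ι zK m t N)
    (hH : Horiz T z c) (hC : Comm T z c) {d d' : D} (hd : Up z c d) (hd' : Up z c d') :
    area T z ≤ (N : ℝ) ^ Module.finrank ℚ K * (6 * (width T z c d * cr (z d) c)) ∧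
      width T z c d' ≤ (N : ℝ) ^ Module.finrank ℚ K * width T z c d := by
  obtain ⟨R, w, h', μ, hμ, hR, hR', hw, hh, hw0, hh0, hcomm, horth, hint, harea⟩ :=
    h.data hH hC
  obtain ⟨r, ⟨hr, k, hk⟩, _⟩ := hR' d hd
  obtain ⟨r', ⟨hr', k', hk'⟩, _⟩ := hR' d' hd'
  have hb := arith_bounds ι w h' hw0 hh0 hcomm horth N h.Npos hint ⟨r, hr⟩ ⟨r', hr'⟩
  have hur : Up z c r := hR ⟨r, hr⟩
  have hur' : Up z c r' := hR ⟨r', hr'⟩
  have w1 : width T z c d = width T z c r := by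
    rw [← hk]
    exact (hH.width_step hur k).2
  have w2 : width T z c d' = width T z c r' := by
    rw [← hk']
    exact (hH.width_step hur' k').2
  have c1 : cr (z d) c = cr (z r) c := by
    rw [← hk]
    exact J2c_height hH hur k
  have e1 : ι (w ⟨r, hr⟩) = width T z c r / μ := hw ⟨r, hr⟩
  have e2 : ι (w ⟨r', hr'⟩) = width T z c r' / μ := hw ⟨r', hr'⟩
  have e3 : ι (h' ⟨r, hr⟩) = μ * cr (z r) c := hh ⟨r, hr⟩
  rw [w1, w2, c1]
  obtain ⟨b1, b2⟩ := hb
  rw [harea, map_mul, e1, e3] at b1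
  rw [e1, e2] at b2
  constructor
  · have e4 : width T z c r / μ * (μ * cr (z r) c) = width T z c r * cr (z r) c := by
      field_simp
    rw [e4] at b1
    linarith
  · rw [← mul_div_assoc] at b2
    exact (div_le_div_iff_of_pos_right hμ).1 b2

/-- from `Arith.data` and `arith_finite`: finitely many possible areas of cylinders -/
theorem Arith.finite_values {T₀ : Tri D} {z₀ : D → Vec} {ι : K →+* ℝ} {zK : D → Fin 2 → K}
    {m : Matrix D D ℤ} {t : K} {N : ℕ} (h : Arith T₀ z₀ ι zK m t N) :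
    ∃ S : Set ℝ, S.Finite ∧ ∀ (T' : Tri D) (m' : Matrix D D ℤ) (c : Vec), GPath T₀ z₀ T' m' →
      Horiz T' (app m' z₀) c → Comm T' (app m' z₀) c → ∀ d d', Up (app m' z₀) c d →
      Up (app m' z₀) c d' → width T' (app m' z₀) c d * cr (app m' z₀ d') c ∈ S := by
  obtain ⟨S, hS, hSm⟩ := arith_finite ι N h.Npos
  refine ⟨(fun x => x * (area T₀ z₀ / 6)) '' S, hS.image _, ?_⟩
  intro T' m' c hP hH hC d d' hd hd'
  obtain ⟨m'', ha⟩ := h.trans hP
  obtain ⟨R, w, h', μ, hμ, hR, hR', hw, hh, hw0, hh0, hcomm, horth, hint, harea⟩ :=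
    ha.data hH hC
  obtain ⟨r, ⟨hr, k, hk⟩, _⟩ := hR' d hd
  obtain ⟨r', ⟨hr', k', hk'⟩, _⟩ := hR' d' hd'
  have hm := hSm R w h' hw0 hh0 hcomm horth hint ⟨r, hr⟩ ⟨r', hr'⟩
  have hur : Up (app m' z₀) c r := hR ⟨r, hr⟩
  have hur' : Up (app m' z₀) c r' := hR ⟨r', hr'⟩
  have w1 : width T' (app m' z₀) c d = width T' (app m' z₀) c r := by
    rw [← hk]
    exact (hH.width_step hur k).2
  have c1 : cr (app m' z₀ d') c = cr (app m' z₀ r') c := by
    rw [← hk']
    exact J2c_height hH hur' k'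
  refine ⟨_, hm, ?_⟩
  have e1 : ι (w ⟨r, hr⟩) = width T' (app m' z₀) c r / μ := hw ⟨r, hr⟩
  have e3 : ι (h' ⟨r', hr'⟩) = μ * cr (app m' z₀ r') c := hh ⟨r', hr'⟩
  have hpos : 0 < ι (∑ l, w l * h' l) := by
    rw [map_sum]
    refine Finset.sum_pos (fun l _ => ?_) ⟨⟨r, hr⟩, Finset.mem_univ _⟩
    rw [map_mul]
    exact mul_pos (hw0 l) (hh0 l)
  have e5 : area T₀ z₀ / 6 = ι (∑ l, w l * h' l) := by
    rw [harea, hP.area]
  show ι (w ⟨r, hr⟩ * h' ⟨r', hr'⟩ / ∑ l, w l * h' l) * (area T₀ z₀ / 6) = _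
  rw [e5, map_div₀, div_mul_cancel₀ _ hpos.ne', map_mul, e1, e3, w1, c1]
  field_simp

end Pool.Veech
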