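import Pool.Agent.Lib.MP_fceebd_gt.H1
import Pool.Agent.Lib.MP_fceebd_gt.D2b

/-! # Definitions: the cylinders of a horizontal triangulation -/

set_option autoImplicit false

namespace Pool.Veech

variable {D : Type}

/-- `d` is an upward dart (`c` is a vector which points to the left). -/
def Up (z : D → Vec) (c : Vec) (d : D) : Prop := 0 < cr (z d) c

open Classical in
/-- The next upward dart to the left: the triangle of `d` has one horizontal side, `nxt d` (at the
top) or `nxt (nxt d)` (at the bottom). -/
noncomputable def hstep (T : Tri D) (z : D → Vec) (c : Vec) (d : D) : D :=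
  if cr (z (T.nxt d)) c = 0 then T.opp (T.nxt (T.nxt d)) else T.opp (T.nxt d)

open Classical in
/-- The crossing numbers with the cylinder of the upward dart `d`. -/
noncomputable def iota (T : Tri D) (z : D → Vec) (c : Vec) (d e : D) : ℤ :=
  (if ∃ k : ℕ, (hstep T z c)^[k] d = e then 1 else 0) -
    if ∃ k : ℕ, (hstep T z c)^[k] d = T.opp e then 1 else 0

/-- The circumference of the cylinder of `d` is `width * c`. -/
noncomputable def width [Fintype D] (T : Tri D) (z : D → Vec) (c : Vec) (d : D) : ℝ :=
  ip (fun j => form T (fun e => (iota T z c d e : ℝ)) (fun e => z e j)) c / (6 * nq c)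

/-- The moduli of the cylinders are commensurable. -/
def Comm [Fintype D] (T : Tri D) (z : D → Vec) (c : Vec) : Prop :=
  ∀ d d', Up z c d → Up z c d' →
    ∃ r : ℚ, cr (z d) c * width T z c d' = r * (cr (z d') c * width T z c d)

/-- no small virtual triangles -/
def NSVT [Fintype D] [DecidableEq D] (T : Tri D) (z : D → Vec) (b : ℝ) : Prop :=
  ∀ v ∈ edges T z, ∀ e ∈ edges T z, cr v e = 0 ∨ b ≤ |cr v e|

end Pool.Veech
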