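import Pool.Agent.Lib.MP_fceebd_gt.K0

/-! # Row K1: cylinder decomposition of a horizontal triangulation -/

set_option autoImplicit false

namespace Pool.Veech

variable {D : Type} [Fintype D] [DecidableEq D] {T : Tri D} {z : D → Vec} {c : Vec}

private theorem K1a_par {v c : Vec} (hc : c ≠ 0) (h : cr v c = 0) : ∃ μ : ℝ, v = μ • c := by
  have hn : 0 < c 0 * c 0 + c 1 * c 1 := by
    have a0 := mul_self_nonneg (c 0)
    have a1 := mul_self_nonneg (c 1)
    rcases (add_nonneg a0 a1).lt_or_eq with h1 | h1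
    · exact h1
    · exfalso
      apply hc
      have e0 : c 0 = 0 := mul_self_eq_zero.1 (by linarith)
      have e1 : c 1 = 0 := mul_self_eq_zero.1 (by linarith)
      funext i
      fin_cases i
      · exact e0
      · exact e1
  unfold cr at h
  refine ⟨(v 0 * c 0 + v 1 * c 1) / (c 0 * c 0 + c 1 * c 1), ?_⟩
  funext i
  fin_cases i
  · show v 0 = (v 0 * c 0 + v 1 * c 1) / (c 0 * c 0 + c 1 * c 1) * c 0
    rw [div_mul_eq_mul_div, eq_div_iff hn.ne']
    linear_combination c 1 * h
  · show v 1 = (v 0 * c 0 + v 1 * c 1) / (c 0 * c 0 + c 1 * c 1) * c 1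
    rw [div_mul_eq_mul_div, eq_div_iff hn.ne']
    linear_combination (-c 0) * h

private theorem K1a_cr_smul (u c : Vec) (μ : ℝ) : cr u (μ • c) = μ * cr u c := by
  unfold cr
  simp only [Pi.smul_apply, smul_eq_mul]
  ring

private theorem K1a_cr_smul_left (u c : Vec) (μ : ℝ) : cr (μ • u) c = μ * cr u c := by
  unfold cr
  simp only [Pi.smul_apply, smul_eq_mul]
  ring

private theorem K1a_cr_neg (u c : Vec) : cr (-u) c = -cr u c := by
  unfold cr
  simp only [Pi.neg_apply]
  ring

private theorem K1a_cr_self (c : Vec) : cr c c = 0 := by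
  unfold cr
  ring

private theorem K1a_sum (h : Geo T z) (c : Vec) (d : D) :
    cr (z d) c + cr (z (T.nxt d)) c + cr (z (T.nxt (T.nxt d))) c = 0 := by
  have h0 := congrFun (h.coc.closed d) 0
  have h1 := congrFun (h.coc.closed d) 1
  simp only [Pi.add_apply, Pi.zero_apply] at h0 h1
  unfold cr
  linear_combination c 1 * h0 - c 0 * h1

private theorem K1a_opp (h : Geo T z) (c : Vec) (d : D) : cr (z (T.opp d)) c = -cr (z d) c := by
  rw [h.coc.glue, K1a_cr_neg]

/-- Exactly one of the sides `nxt d`, `nxt (nxt d)` of the triangle of an upward dart is horizontal.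
If it is `nxt d`, then `z (nxt d) = μ c` with `μ > 0`; if it is `nxt (nxt d)`, then
`z (nxt (nxt d)) = - μ c` with `μ > 0`. -/
theorem Horiz.cases (h : Horiz T z c) {d : D} (hd : Up z c d) :
    (∃ μ : ℝ, 0 < μ ∧ z (T.nxt d) = μ • c ∧ cr (z (T.nxt (T.nxt d))) c = -cr (z d) c ∧
        hstep T z c d = T.opp (T.nxt (T.nxt d))) ∨
      (∃ μ : ℝ, 0 < μ ∧ z (T.nxt (T.nxt d)) = -(μ • c) ∧ cr (z (T.nxt d)) c = -cr (z d) c ∧
        hstep T z c d = T.opp (T.nxt d)) := by
  have hd' : 0 < cr (z d) c := hd
  have hs := K1a_sum h.geo c d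
  by_cases h1 : cr (z (T.nxt d)) c = 0
  · left
    obtain ⟨μ, hμ⟩ := K1a_par h.cne h1
    refine ⟨μ, ?_, hμ, by linarith, ?_⟩
    · have hp := h.geo.pos d
      rw [hμ, K1a_cr_smul] at hp
      exact (pos_iff_pos_of_mul_pos hp).2 hd'
    · unfold hstep
      rw [if_pos h1]
  · right
    have h2 : cr (z (T.nxt (T.nxt d))) c = 0 := by
      rcases h.hor d with h3 | h3 | h3
      · linarith
      · exact absurd h3 h1
      · exact h3
    obtain ⟨μ, hμ⟩ := K1a_par h.cne h2
    refine ⟨-μ, ?_, by rw [hμ, neg_smul, neg_neg], by linarith, ?_⟩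
    · have hp := h.geo.pos (T.nxt (T.nxt d))
      rw [T.nxt3, hμ, K1a_cr_smul_left] at hp
      have e : cr c (z d) = -cr (z d) c := by
        unfold cr
        ring
      rw [e] at hp
      have hp' : 0 < -μ * cr (z d) c := by linarith
      exact (pos_iff_pos_of_mul_pos hp').2 hd'
    · unfold hstep
      rw [if_neg h1]

theorem Horiz.step_height (h : Horiz T z c) {d : D} (hd : Up z c d) :
    cr (z (hstep T z c d)) c = cr (z d) c := by
  rcases h.cases hd with ⟨μ, -, -, h1, h2⟩ | ⟨μ, -, -, h1, h2⟩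
  · rw [h2, K1a_opp h.geo, h1, neg_neg]
  · rw [h2, K1a_opp h.geo, h1, neg_neg]

theorem Horiz.step_up (h : Horiz T z c) {d : D} (hd : Up z c d) : Up z c (hstep T z c d) := by
  unfold Up
  rw [h.step_height hd]
  exact hd

theorem Horiz.step_inj (h : Horiz T z c) {d d' : D} (hd : Up z c d) (hd' : Up z c d')
    (he : hstep T z c d = hstep T z c d') : d = d' := by
  rcases h.cases hd with ⟨μ, -, g1, -, h2⟩ | ⟨μ, -, g1, -, h2⟩
  · rcases h.cases hd' with ⟨μ', -, g1', -, h2'⟩ | ⟨μ', -, g1', -, h2'⟩
    · rw [h2, h2'] at he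
      exact T.nxt.injective (T.nxt.injective (T.opp.injective he))
    · rw [h2, h2'] at he
      have h3 := T.nxt.injective (T.opp.injective he)
      exfalso
      have h4 : 0 < cr (z d') c := hd'
      rw [← h3, g1, K1a_cr_smul_left, K1a_cr_self, mul_zero] at h4
      exact lt_irrefl _ h4
  · rcases h.cases hd' with ⟨μ', -, g1', -, h2'⟩ | ⟨μ', -, g1', -, h2'⟩
    · rw [h2, h2'] at he
      have h3 := T.nxt.injective (T.opp.injective he)
      exfalso
      have h4 : 0 < cr (z d) c := hd
      rw [h3, g1', K1a_cr_smul_left, K1a_cr_self, mul_zero] at h4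
      exact lt_irrefl _ h4
    · rw [h2, h2'] at he
      exact T.nxt.injective (T.opp.injective he)

theorem Horiz.step_iter_up (h : Horiz T z c) {d : D} (hd : Up z c d) (k : ℕ) :
    Up z c ((hstep T z c)^[k] d) := by
  induction k with
  | zero => exact hd
  | succ k ih =>
    rw [Function.iterate_succ_apply']
    exact h.step_up ih

private theorem K1a_iter_height (h : Horiz T z c) {d : D} (hd : Up z c d) (k : ℕ) :
    cr (z ((hstep T z c)^[k] d)) c = cr (z d) c := by
  induction k with
  | zero => rfl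
  | succ k ih =>
    rw [Function.iterate_succ_apply', h.step_height (h.step_iter_up hd k), ih]

private theorem K1a_period (h : Horiz T z c) {d : D} (hd : Up z c d) :
    ∃ n : ℕ, 0 < n ∧ (hstep T z c)^[n] d = d := by
  let S : Type := {x : D // Up z c x}
  let f : S → S := fun x => ⟨hstep T z c x.1, h.step_up x.2⟩
  have hf : Function.Injective f := by
    intro x y hxy
    exact Subtype.ext (h.step_inj x.2 y.2 (congrArg Subtype.val hxy))
  have hb : Function.Bijective f := Finite.injective_iff_bijective.1 hf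
  let σ : Equiv.Perm S := Equiv.ofBijective f hb
  refine ⟨orderOf σ, orderOf_pos σ, ?_⟩
  have h1 : σ^[orderOf σ] ⟨d, hd⟩ = ⟨d, hd⟩ := by
    rw [Equiv.Perm.iterate_eq_pow, pow_orderOf_eq_one]
    rfl
  have h2 : ∀ k : ℕ, (σ^[k] ⟨d, hd⟩).1 = (hstep T z c)^[k] d := by
    intro k
    induction k with
    | zero => rfl
    | succ k ih =>
      rw [Function.iterate_succ_apply', Function.iterate_succ_apply', ← ih]
      rfl
  rw [← h2, h1]

/-- being in the same cylinder is an equivalence relation on the upward darts -/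
theorem Horiz.step_symm (h : Horiz T z c) {d : D} (hd : Up z c d) (k : ℕ) :
    ∃ j : ℕ, (hstep T z c)^[j] ((hstep T z c)^[k] d) = d := by
  obtain ⟨n, hn, hnd⟩ := K1a_period h hd
  refine ⟨n * k - k, ?_⟩
  rw [← Function.iterate_add_apply]
  have h1 : n * k - k + k = n * k := Nat.sub_add_cancel (Nat.le_mul_of_pos_left k hn)
  rw [h1, Function.iterate_mul]
  exact Function.iterate_fixed hnd k

/-- The strip of `d`; here all heights `bot` are `0`. -/
theorem Horiz.exists_strip (h : Horiz T z c) {d : D} (hd : Up z c d) :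
    ∃ (n : ℕ) (δ : ℕ → D) (w : ℝ), 0 < w ∧ δ 0 = d ∧
      Strip T z n δ (w • c) (w * cr (z d) c) ∧ crs T n δ = iota T z c d ∧
      ∀ k, δ (k + 1) = hstep T z c (δ k) := by
  classical
  obtain ⟨δ, hδ⟩ : ∃ δ : ℕ → D, δ = fun k => (hstep T z c)^[k] d := ⟨_, rfl⟩
  have hδk : ∀ k, δ k = (hstep T z c)^[k] d := fun k => by rw [hδ]
  have h0 : δ 0 = d := hδk 0
  have hs : ∀ k, δ (k + 1) = hstep T z c (δ k) := by
    intro k
    rw [hδk, hδk, Function.iterate_succ_apply']
  have hup : ∀ k, Up z c (δ k) := by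
    intro k
    rw [hδk]
    exact h.step_iter_up hd k
  have hht : ∀ k, cr (z (δ k)) c = cr (z d) c := by
    intro k
    rw [hδk]
    exact K1a_iter_height h hd k
  have hper : ∃ n, 0 < n ∧ δ n = d := by
    obtain ⟨n, hn, hnd⟩ := K1a_period h hd
    exact ⟨n, hn, by rw [hδk, hnd]⟩
  obtain ⟨n, hnd⟩ : ∃ n, n = Nat.find hper := ⟨_, rfl⟩
  have hn : 0 < n ∧ δ n = d := hnd ▸ Nat.find_spec hper
  have hmin : ∀ m, 0 < m → δ m = d → n ≤ m := fun m hm hmd =>
    hnd ▸ Nat.find_min' hper ⟨hm, hmd⟩
  have hadd : ∀ j k, δ j = δ k → ∀ i, δ (j + i) = δ (k + i) := by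
    intro j k hjk i
    induction i with
    | zero => exact hjk
    | succ i ih =>
      rw [← add_assoc, ← add_assoc, hs, hs, ih]
  have hback : ∀ j k, δ (j + 1) = δ (k + 1) → δ j = δ k := by
    intro j k hjk
    rw [hs, hs] at hjk
    exact h.step_inj (hup j) (hup k) hjk
  have hper' : ∀ k, δ (k + n) = δ k := by
    intro k
    have := hadd n 0 (by rw [hn.2, h0]) k
    rw [add_comm, this, zero_add]
  have hback' : ∀ i j k, δ (j + i) = δ (k + i) → δ j = δ k := by
    intro i
    induction i with
    | zero => intro j k hjk; exact hjk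
    | succ i ih =>
      intro j k hjk
      rw [← add_assoc, ← add_assoc] at hjk
      exact ih j k (hback _ _ hjk)
  have hinj' : ∀ j k, j < k → k < n → δ j ≠ δ k := by
    intro j k hjk hkn he
    have h1 : δ (0 + j) = δ (k - j + j) := by
      rw [zero_add, Nat.sub_add_cancel hjk.le]
      exact he
    have h2 := hback' j 0 (k - j) h1
    have := hmin (k - j) (by omega) (by rw [← h2, h0])
    omega
  have hinj : ∀ j k, j < n → k < n → δ j = δ k → j = k := by
    intro j k hj hk he
    rcases lt_trichotomy j k with h1 | h1 | h1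
    · exact absurd he (hinj' j k h1 hk)
    · exact h1
    · exact absurd he.symm (hinj' k j h1 hj)
  -- the displacements
  have hne : ∀ x : D, T.nxt x ≠ x := by
    intro x hx
    have hp := h.geo.pos x
    rw [hx, K1a_cr_self] at hp
    exact lt_irrefl _ hp
  have hmu : ∀ k, ∃ μ : ℝ, 0 < μ ∧ (Top T δ k → z (T.nxt (δ k)) = μ • c ∧
      z (δ (k + 1)) = z (δ k) + μ • c) ∧ (¬ Top T δ k → z (T.nxt (T.nxt (δ k))) = -(μ • c) ∧
      z (δ (k + 1)) = z (δ k) - μ • c) := by
    intro k
    have hcl : z (δ k) + z (T.nxt (δ k)) + z (T.nxt (T.nxt (δ k))) = 0 := h.geo.coc.closed _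
    rcases h.cases (hup k) with ⟨μ, hμ, g1, -, h2⟩ | ⟨μ, hμ, g1, -, h2⟩
    · have ht : Top T δ k := by
        unfold Top
        rw [hs, h2]
      refine ⟨μ, hμ, fun _ => ⟨g1, ?_⟩, fun hnt => absurd ht hnt⟩
      rw [hs, h2, h.geo.coc.glue, ← g1]
      exact neg_eq_of_add_eq_zero_left hcl
    · have ht : ¬ Top T δ k := by
        unfold Top
        rw [hs, h2]
        intro he
        exact hne _ (T.opp.injective he).symm
      refine ⟨μ, hμ, fun ht' => absurd ht' ht, fun _ => ⟨g1, ?_⟩⟩
      rw [hs, h2, h.geo.coc.glue, sub_eq_add_neg, ← g1]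
      have : z (δ k) + z (T.nxt (T.nxt (δ k))) + z (T.nxt (δ k)) = 0 := by
        rw [← hcl]
        abel
      exact neg_eq_of_add_eq_zero_left this
  choose μ hμ hμt hμb using hmu
  -- the sums
  have hz : ∀ k, z (δ k) = z d + ((∑ j ∈ Finset.range k, if Top T δ j then μ j else 0) -
      ∑ j ∈ Finset.range k, if Top T δ j then 0 else μ j) • c := by
    intro k
    induction k with
    | zero => simp [h0]
    | succ k ih =>
      rw [Finset.sum_range_succ, Finset.sum_range_succ]
      by_cases ht : Top T δ k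
      · rw [(hμt k ht).2, ih, if_pos ht, if_pos ht, add_assoc, ← add_smul]
        congr 2
        ring
      · rw [(hμb k ht).2, ih, if_neg ht, if_neg ht, add_sub_assoc, ← sub_smul]
        congr 2
        ring
  obtain ⟨w, hw⟩ : ∃ w, w = ∑ j ∈ Finset.range n, if Top T δ j then μ j else 0 := ⟨_, rfl⟩
  obtain ⟨w', hw'⟩ : ∃ w', w' = ∑ j ∈ Finset.range n, if Top T δ j then 0 else μ j := ⟨_, rfl⟩
  have hww : w = w' := by
    have := hz n
    rw [← hw, ← hw', hn.2] at this
    have h1 : (w - w') • c = 0 := by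
      exact left_eq_add.1 this
    rcases smul_eq_zero.1 h1 with h2 | h2
    · linarith
    · exact absurd h2 h.cne
  have hw0 : 0 < w := by
    have h1 : 0 < w + w' := by
      rw [hw, hw', ← Finset.sum_add_distrib]
      refine Finset.sum_pos (fun j _ => ?_) ⟨0, Finset.mem_range.2 hn.1⟩
      by_cases ht : Top T δ j
      · rw [if_pos ht, if_pos ht, add_zero]
        exact hμ j
      · rw [if_neg ht, if_neg ht, zero_add]
        exact hμ j
    linarith
  have hbot : ∀ k, bot T z δ (w • c) k = 0 := by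
    intro k
    induction k with
    | zero => rfl
    | succ k ih =>
      rw [bot]
      by_cases ht : Top T δ k
      · rw [if_pos ht, ih]
      · rw [if_neg ht, ih, (hμb k ht).1, K1a_cr_neg, K1a_cr_smul_left, K1a_cr_smul, K1a_cr_self]
        simp
  refine ⟨n, δ, w, hw0, h0, ⟨hn.1, hper', hinj, ?_, ?_, ?_, ?_, ?_⟩, ?_, hs⟩
  · intro k
    rcases h.cases (hup k) with ⟨-, -, -, -, h2⟩ | ⟨-, -, -, -, h2⟩
    · left
      rw [hs, h2]
    · right
      rw [hs, h2]
  · rw [hw, Finset.sum_smul]
    refine Finset.sum_congr rfl fun k _ => ?_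
    by_cases ht : Top T δ k
    · rw [if_pos ht, if_pos ht, (hμt k ht).1]
    · rw [if_neg ht, if_neg ht, zero_smul]
  · intro k
    rw [K1a_cr_smul]
    exact mul_pos hw0 (hup k)
  · exact mul_pos hw0 hd
  · intro j k
    rw [hbot, hbot, K1a_cr_smul, hht]
  · funext e
    have hsum : ∀ x : D, (∑ k ∈ Finset.range n, if x = δ k then (1 : ℤ) else 0) =
        if ∃ k : ℕ, (hstep T z c)^[k] d = x then 1 else 0 := by
      intro x
      by_cases hx : ∃ k : ℕ, (hstep T z c)^[k] d = x
      · rw [if_pos hx]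
        obtain ⟨k, hk⟩ := hx
        have hkx : δ (k % n) = x := by
          rw [← hk, ← hδk]
          have : ∀ m r : ℕ, δ (r + n * m) = δ r := by
            intro m
            induction m with
            | zero => intro r; rfl
            | succ m ih =>
              intro r
              rw [Nat.mul_succ, ← add_assoc, hper', ih]
          conv_rhs => rw [← Nat.mod_add_div k n]
          rw [this]
        rw [Finset.sum_eq_single (k % n)]
        · rw [if_pos hkx.symm]
        · intro j hj hjk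
          rw [if_neg]
          intro hxj
          exact hjk (hinj j (k % n) (Finset.mem_range.1 hj) (Nat.mod_lt _ hn.1)
            (by rw [← hxj, hkx]))
        · intro hk'
          exact absurd (Finset.mem_range.2 (Nat.mod_lt _ hn.1)) hk'
      · rw [if_neg hx]
        refine Finset.sum_eq_zero fun k _ => ?_
        rw [if_neg]
        intro hxk
        exact hx ⟨k, by rw [hxk, hδk]⟩
    unfold crs iota
    rw [Finset.sum_sub_distrib]
    have a1 := hsum e
    have a2 := hsum (T.opp e)
    convert congrArg₂ (· - ·) a1 a2 using 2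
    · refine Finset.sum_congr rfl fun k _ => ?_
      congr
    · refine Finset.sum_congr rfl fun k _ => ?_
      congr

private theorem K1a_width (h : Horiz T z c) {d : D} (hd : Up z c d) :
    ∃ (n : ℕ) (δ : ℕ → D), 0 < width T z c d ∧
      Strip T z n δ (width T z c d • c) (width T z c d * cr (z d) c) ∧
      crs T n δ = iota T z c d := by
  obtain ⟨n, δ, w, hw, -, hS, hc, -⟩ := h.exists_strip hd
  have hn : 0 < nq c := by
    unfold nq ip
    have a0 := mul_self_nonneg (c 0)
    have a1 := mul_self_nonneg (c 1)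
    rcases (add_nonneg a0 a1).lt_or_eq with h1 | h1
    · exact h1
    · exfalso
      apply h.cne
      have e0 : c 0 = 0 := mul_self_eq_zero.1 (by linarith)
      have e1 : c 1 = 0 := mul_self_eq_zero.1 (by linarith)
      funext i
      fin_cases i
      · exact e0
      · exact e1
  have hwd : width T z c d = w := by
    have hf := fun j => Strip.form_eq h.geo hS j
    rw [hc] at hf
    unfold width
    have : ip (fun j => form T (fun e => (iota T z c d e : ℝ)) (fun e => z e j)) c =
        6 * w * nq c := by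
      unfold ip nq ip
      simp only [hf, Pi.smul_apply, smul_eq_mul]
      ring
    rw [this]
    field_simp
  rw [hwd]
  exact ⟨n, δ, hw, hS, hc⟩

theorem Horiz.width_pos (h : Horiz T z c) {d : D} (hd : Up z c d) : 0 < width T z c d := by
  obtain ⟨-, -, h1, -, -⟩ := K1a_width h hd
  exact h1

theorem Horiz.isCyl (h : Horiz T z c) {d : D} (hd : Up z c d) :
    IsCyl T z (iota T z c d) (width T z c d • c) (width T z c d * cr (z d) c) := by
  obtain ⟨n, δ, -, h2, h3⟩ := K1a_width h hd
  rw [← h3]
  exact Strip.isCyl h.geo h2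

theorem iota_opp (T : Tri D) (z : D → Vec) (c : Vec) (d e : D) :
    iota T z c d (T.opp e) = -iota T z c d e := by
  unfold iota
  rw [T.opp2]
  ring

private theorem K1a_not_down (h : Horiz T z c) {d e : D} (hd : Up z c d) (he : cr (z e) c ≤ 0) :
    ¬ ∃ k : ℕ, (hstep T z c)^[k] d = e := by
  rintro ⟨k, rfl⟩
  have : 0 < cr (z ((hstep T z c)^[k] d)) c := h.step_iter_up hd k
  linarith

theorem Horiz.iota_self (h : Horiz T z c) {d : D} (hd : Up z c d) (k : ℕ) :
    iota T z c d ((hstep T z c)^[k] d) = 1 := by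
  unfold iota
  rw [if_pos ⟨k, rfl⟩, if_neg]
  · simp
  · refine K1a_not_down h hd ?_
    rw [K1a_opp h.geo]
    have : 0 < cr (z ((hstep T z c)^[k] d)) c := h.step_iter_up hd k
    linarith

theorem Horiz.iota_hor (h : Horiz T z c) {d e : D} (hd : Up z c d) (he : cr (z e) c = 0) :
    iota T z c d e = 0 := by
  unfold iota
  rw [if_neg (K1a_not_down h hd he.le), if_neg]
  · simp
  · refine K1a_not_down h hd ?_
    rw [K1a_opp h.geo, he]
    simp

theorem Horiz.iota_up (h : Horiz T z c) {d e : D} (hd : Up z c d) (he : Up z c e) :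
    iota T z c d e = 1 ∨
      (iota T z c d e = 0 ∧ ¬ ∃ k : ℕ, (hstep T z c)^[k] d = e) := by
  have h2 : ¬ ∃ k : ℕ, (hstep T z c)^[k] d = T.opp e := by
    refine K1a_not_down h hd ?_
    rw [K1a_opp h.geo]
    have : 0 < cr (z e) c := he
    linarith
  by_cases h1 : ∃ k : ℕ, (hstep T z c)^[k] d = e
  · left
    unfold iota
    rw [if_pos h1, if_neg h2]
    simp
  · right
    refine ⟨?_, h1⟩
    unfold iota
    rw [if_neg h1, if_neg h2]
    simp

end Pool.Veech
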