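import Pool.Agent.Lib.MP_fceebd_gt.K1b

/-! # Row K2: twists.
Let `d` be upward, such that the triangle of `d` (to its left) has its horizontal side at the top
(`nxt d`), and the triangle of `opp d` (to its right) has its horizontal side at the bottom
(`nxt (opp d)`). Then `d` can be flipped (for all `z'` with the same heights), the new vector is
`z d + (μ + μ') c`, where `μ c` and `- μ' c` are the vectors of the horizontal sides `nxt d` and
`nxt (opp d)`, and `hstep` does not change (only the types of the two triangles are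
exchanged). In each cylinder there is such a dart, since both types occur (`c` is nonzero multiple
of the sum of the top sides and of the sum of the bottom sides). Repeat this infinitely often in one
cylinder; there are only finitely many triangulations on `D`, so some triangulation `T₁` is repeated;
the loop at `T₁` changes each cocycle `f` only on the darts which cross the cylinder and its
image under the deck transformation, so by a multiple of `iota d - iota d ∘ tau`; for `f = z` the
multiple is `ξ c` with `ξ > 0` since the `c`-components of the vectors increase. Conjugate the loop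
with the path from `T` to `T₁`. The multiple is `λ f = k form (iota d) f / 6` by the invariance of the
form (`λ g * form j f = λ f * form j g` for `j = iota d - iota d ∘ tau`), and `k` is rational, since `λ f` is
rational for rational cocycles `f`, and there is an anti-invariant rational cocycle with
`form (iota d) f ≠ 0`: compose a coordinate of `z` with a `ℚ`-linear map `ℝ → ℚ`. -/

set_option autoImplicit false

namespace Pool.Veech

variable {D : Type} [Fintype D] [DecidableEq D] {T T' : Tri D} {z : D → Vec} {c : Vec}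

set_option linter.unusedSectionVars false

namespace K2a

theorem cr_zero_right (u : Vec) : cr u 0 = 0 := by simp [cr]

theorem cr_add_left (u v w : Vec) : cr (u + v) w = cr u w + cr v w := by
  simp only [cr, Pi.add_apply]; ring

theorem cr_sub_left (u v w : Vec) : cr (u - v) w = cr u w - cr v w := by
  simp only [cr, Pi.sub_apply]; ring

theorem cr_neg_left (u w : Vec) : cr (-u) w = -cr u w := by
  simp only [cr, Pi.neg_apply]; ring

theorem cr_smul_left (a : ℝ) (u w : Vec) : cr (a • u) w = a * cr u w := by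
  simp only [cr, Pi.smul_apply, smul_eq_mul]; ring

theorem cr_smul_right (a : ℝ) (u w : Vec) : cr u (a • w) = a * cr u w := by
  simp only [cr, Pi.smul_apply, smul_eq_mul]; ring

theorem cr_self (u : Vec) : cr u u = 0 := by
  simp only [cr]; ring

theorem par {u c : Vec} (hc : c ≠ 0) (h : cr u c = 0) : ∃ μ : ℝ, u = μ • c := by
  have hn : c 0 * c 0 + c 1 * c 1 ≠ 0 := by
    intro h0
    apply hc
    have e0 : c 0 = 0 := by nlinarith [mul_self_nonneg (c 0), mul_self_nonneg (c 1)]
    have e1 : c 1 = 0 := by nlinarith [mul_self_nonneg (c 0), mul_self_nonneg (c 1)]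
    funext i
    fin_cases i
    · exact e0
    · exact e1
  unfold cr at h
  refine ⟨(u 0 * c 0 + u 1 * c 1) / (c 0 * c 0 + c 1 * c 1), ?_⟩
  funext i
  fin_cases i
  · simp only [Fin.zero_eta, Pi.smul_apply, smul_eq_mul]
    rw [div_mul_eq_mul_div, eq_div_iff hn]
    linear_combination (c 1) * h
  · simp only [Fin.mk_one, Pi.smul_apply, smul_eq_mul]
    rw [div_mul_eq_mul_div, eq_div_iff hn]
    linear_combination (-c 0) * h

theorem hstep_pos {T : Tri D} {z : D → Vec} {c : Vec} {e : D}
    (h : cr (z (T.nxt e)) c = 0) : hstep T z c e = T.opp (T.nxt (T.nxt e)) := by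
  unfold hstep
  exact if_pos h

theorem hstep_neg {T : Tri D} {z : D → Vec} {c : Vec} {e : D}
    (h : cr (z (T.nxt e)) c ≠ 0) : hstep T z c e = T.opp (T.nxt e) := by
  unfold hstep
  exact if_neg h

theorem third {T : Tri D} {z : D → Vec} (h : Geo T z) (c : Vec) (e : D) :
    cr (z e) c + cr (z (T.nxt e)) c + cr (z (T.nxt (T.nxt e))) c = 0 := by
  have h1 := h.coc.closed e
  have h2 : cr (z e + z (T.nxt e) + z (T.nxt (T.nxt e))) c = cr 0 c := by rw [h1]
  rw [cr_add_left, cr_add_left] at h2
  rw [h2]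
  simp [cr]

theorem conv {T : Tri D} {z : D → Vec} {c : Vec} (hg : Geo T z) (hc : c ≠ 0) {d : D}
    (hd : 0 < cr (z d) c) (h1 : cr (z (T.nxt d)) c = 0)
    (h2 : cr (z (T.nxt (T.opp d))) c = 0) :
    (0 < cr (z (T.nxt (T.nxt d))) (z (T.nxt (T.opp d)))) ∧
      (0 < cr (z (T.nxt (T.nxt (T.opp d)))) (z (T.nxt d))) ∧
      ∃ μ : ℝ, 0 < μ ∧ -z (T.nxt (T.nxt d)) - z (T.nxt (T.opp d)) = z d + μ • c := by
  obtain ⟨μ, hμ⟩ := par hc h1
  obtain ⟨ν, hν⟩ := par hc h2
  have p1 := hg.pos d
  have p2 := hg.pos (T.opp d)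
  rw [hμ, cr_smul_right] at p1
  rw [hν, cr_smul_right, hg.coc.glue, cr_neg_left] at p2
  have hμ0 : 0 < μ := by
    by_contra hn
    have : μ * cr (z d) c ≤ 0 := mul_nonpos_of_nonpos_of_nonneg (not_lt.1 hn) hd.le
    linarith
  have hν0 : ν < 0 := by
    by_contra hn
    have : ν * -cr (z d) c ≤ 0 := by
      have := mul_nonneg (not_lt.1 hn) hd.le
      linarith
    linarith
  have e1 : z (T.nxt (T.nxt d)) = -z d - μ • c := by
    have := hg.coc.closed d
    rw [hμ] at this
    have h3 : z (T.nxt (T.nxt d)) = (z d + μ • c + z (T.nxt (T.nxt d))) - (z d + μ • c) := by abel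
    rw [h3, this]
    abel
  have e2 : z (T.nxt (T.nxt (T.opp d))) = z d - ν • c := by
    have := hg.coc.closed (T.opp d)
    rw [hν, hg.coc.glue] at this
    have h3 : z (T.nxt (T.nxt (T.opp d))) =
      (-z d + ν • c + z (T.nxt (T.nxt (T.opp d)))) - (-z d + ν • c) := by abel
    rw [h3, this]
    abel
  refine ⟨?_, ?_, μ - ν, by linarith, ?_⟩
  · rw [e1, hν, cr_smul_right, cr_sub_left, cr_neg_left, cr_smul_left, cr_self, mul_zero, sub_zero]
    nlinarith
  · rw [e2, hμ, cr_smul_right, cr_sub_left, cr_smul_left, cr_self, mul_zero, sub_zero]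
    exact mul_pos hμ0 hd
  · rw [e1, hν, sub_smul]
    abel

theorem diag_opp {T : Tri D} {a b : D} (h : T.Diag a b) : T.Diag a (T.opp b) := by
  unfold Tri.Diag at *
  rcases h with h | h | h | h
  · rw [h]; exact Or.inr (Or.inl rfl)
  · rw [h, T.opp2]; exact Or.inl rfl
  · rw [h, ← T.tau_opp]; exact Or.inr (Or.inr (Or.inr rfl))
  · rw [h, ← T.tau_opp, T.opp2]; exact Or.inr (Or.inr (Or.inl rfl))

theorem diag_hor {T : Tri D} {z : D → Vec} {c : Vec} (hg : Geo T z) {d b : D}
    (h1 : cr (z (T.nxt d)) c = 0) (h2 : cr (z (T.nxt (T.opp d))) c = 0)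
    (hb : T.Diag d b) : cr (z (T.nxt b)) c = 0 := by
  rcases hb with h | h | h | h
  · rw [h]; exact h1
  · rw [h]; exact h2
  · rw [h, ← T.tau_nxt, hg.anti, cr_neg_left, h1, neg_zero]
  · rw [h, ← T.tau_nxt, hg.anti, cr_neg_left, h2, neg_zero]

theorem near_iff' {T : Tri D} {a e : D} :
    T.Near a e ↔ ∃ b, T.Diag a b ∧ (e = b ∨ e = T.nxt b ∨ e = T.nxt (T.nxt b)) := by
  unfold Tri.Near Tri.Diag
  constructor
  · rintro ⟨b, hb, h⟩
    exact ⟨b, by simpa using hb, h⟩
  · rintro ⟨b, hb, h⟩
    exact ⟨b, by simpa using hb, h⟩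

theorem near_nxt {T : Tri D} {a e : D} (h : T.Near a (T.nxt e)) : T.Near a e := by
  rw [near_iff'] at *
  obtain ⟨b, hb, h⟩ := h
  refine ⟨b, hb, ?_⟩
  rcases h with h | h | h
  · right; right
    rw [← h, T.nxt3]
  · left
    exact T.nxt.injective h
  · right; left
    exact T.nxt.injective h

end K2a

/-- one flip -/
theorem Horiz.flip_step (h : Horiz T z c) {d : D} (hd : Up z c d)
    (h1 : cr (z (T.nxt d)) c = 0) (h2 : cr (z (T.nxt (T.opp d))) c = 0) :
    (∃ T', T.IsFlip T' d) ∧ ∀ T', T.IsFlip T' d →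
      Horiz T' (T.flipF d z) c ∧ (∀ e, cr (T.flipF d z e) c = cr (z e) c) ∧
      (∀ e, Up z c e → hstep T' (T.flipF d z) c e = hstep T z c e) ∧
      (∃ μ : ℝ, 0 < μ ∧ T.flipF d z d = z d + μ • c) ∧
      (∀ e, e ≠ d → e ≠ T.opp d → e ≠ T.tau d → e ≠ T.tau (T.opp d) → T.flipF d z e = z e) ∧
      ∀ z', Geo T z' → (∀ e, cr (z' e) c = cr (z e) c) → Geo T' (T.flipF d z') := by
  have hd' : 0 < cr (z d) c := hd
  obtain ⟨c1, c2, μ, hμ, hμ'⟩ := K2a.conv h.geo h.cne hd' h1 h2
  refine ⟨h.geo.exists_flip c1 c2, ?_⟩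
  intro T' hf
  have hor : ∀ b, T.Diag d b → cr (z (T.nxt b)) c = 0 := fun b hb =>
    K2a.diag_hor h.geo h1 h2 hb
  have ht : ∀ e, cr (T.flipF d z e) c = cr (z e) c := by
    intro e
    unfold Tri.flipF
    split_ifs with he
    · have h3 := K2a.third h.geo c e
      rw [hor e he] at h3
      rw [K2a.cr_sub_left, K2a.cr_neg_left, hor _ (K2a.diag_opp he)]
      linarith
    · rfl
  have hn : ∀ e, ¬ T.Near d e → T'.nxt e = T.nxt e ∧ T'.nxt (T.nxt e) = T.nxt (T.nxt e) := by
    intro e he
    exact ⟨hf.rest e he, hf.rest _ (fun h' => he (K2a.near_nxt h'))⟩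
  refine ⟨⟨h.geo.flip_geo hf c1 c2, h.cne, ?_⟩, ht, ?_, ⟨μ, hμ, ?_⟩, ?_, ?_⟩
  · intro e
    rw [ht, ht, ht]
    by_cases he : T.Near d e
    · obtain ⟨b, hb, hc⟩ := K2a.near_iff'.1 he
      rcases hc with hc | hc | hc
      · right; right
        rw [hc, hf.nxt1 b hb, hf.nxt2 b hb]
        exact hor _ (K2a.diag_opp hb)
      · left
        rw [hc]
        exact hor b hb
      · right; left
        rw [hc, hf.nxt2 b hb]
        exact hor _ (K2a.diag_opp hb)
    · obtain ⟨e1, e2⟩ := hn e he
      rw [e1, e2]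
      exact h.hor e
  · intro e hup
    have hup' : 0 < cr (z e) c := hup
    by_cases he : T.Near d e
    · obtain ⟨b, hb, hc⟩ := K2a.near_iff'.1 he
      rcases hc with hc | hc | hc
      · subst hc
        have h3 := K2a.third h.geo c e
        rw [hor e hb] at h3
        rw [K2a.hstep_pos (hor e hb), K2a.hstep_neg, hf.opp, hf.nxt1 e hb]
        rw [ht, hf.nxt1 e hb]
        intro h4
        rw [h4] at h3
        linarith
      · exfalso
        rw [hc, hor b hb] at hup'
        exact lt_irrefl _ hup'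
      · subst hc
        have h3 := K2a.third h.geo c b
        rw [hor b hb] at h3
        rw [K2a.hstep_neg (T := T), K2a.hstep_pos, hf.opp, hf.nxt2 b hb,
          hf.nxt3 _ (K2a.diag_opp hb), T.nxt3, T.opp2]
        · rw [ht, hf.nxt2 b hb]
          exact hor _ (K2a.diag_opp hb)
        · rw [T.nxt3]
          intro h4
          rw [h4] at h3
          linarith
    · obtain ⟨e1, e2⟩ := hn e he
      by_cases h5 : cr (z (T.nxt e)) c = 0
      · rw [K2a.hstep_pos h5, K2a.hstep_pos, hf.opp, e1, e2]
        rw [ht, e1]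
        exact h5
      · rw [K2a.hstep_neg h5, K2a.hstep_neg, hf.opp, e1]
        rw [ht, e1]
        exact h5
  · unfold Tri.flipF
    rw [if_pos (show T.Diag d d from Or.inl rfl)]
    exact hμ'
  · intro e a1 a2 a3 a4
    unfold Tri.flipF
    refine if_neg ?_
    rintro (h' | h' | h' | h')
    · exact a1 h'
    · exact a2 h'
    · exact a3 h'
    · exact a4 h'
  · intro z' hz' hy
    obtain ⟨d1, d2, -⟩ := K2a.conv hz' h.cne (by rw [hy]; exact hd') (by rw [hy]; exact h1)
      (by rw [hy]; exact h2)
    exact hz'.flip_geo hf d1 d2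

end Pool.Veech
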