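import Pool.Agent.Lib.MP_fceebd_gt.K2a

/-! # Row K2: twists.
Let `d` be upward, such that the triangle of `d` (to its left) has its horizontal side at the top
(`nxt d`), and the triangle of `opp d` (to its right) has its horizontal side at the bottom
(`nxt (opp d)`). Then `d` can be flipped (for all `z'` with the same heights), the new vector is
`z d + (μ + μ') c`, where `μ c` and `- μ' c` are the vectors of the horizontal sides `nxt d` and
`nxt (opp d)`, and `hstep` does not change (only the types of the two triangles are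
exchanged). In each cylinder there is such a dart, since both types occur (`c` is nonzero multiple
of the sum of the top sides and of the sum of the bottom sides). Repeat this infinitely often in one
cylinder; there are only finitely many triangulations on `D`, so some triangulation `T₁` is repeated;
the loop at `T₁` changes each cocycle `f` only on the darts which cross the cylinder and its
image under the deck transformation, so by a multiple of `iota d - iota d ∘ tau`; for `f = z` the
multiple is `ξ c` with `ξ > 0` since the `c`-components of the vectors increase. Conjugate the loop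
with the path from `T` to `T₁`. The multiple is `λ f = k form (iota d) f / 6` by the invariance of the
form (`λ g * form j f = λ f * form j g` for `j = iota d - iota d ∘ tau`), and `k` is rational, since `λ f` is
rational for rational cocycles `f`, and there is an anti-invariant rational cocycle with
`form (iota d) f ≠ 0`: compose a coordinate of `z` with a `ℚ`-linear map `ℝ → ℚ`. -/

set_option autoImplicit false

namespace Pool.Veech

variable {D : Type} [Fintype D] [DecidableEq D] {T T' : Tri D} {z : D → Vec} {c : Vec}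

set_option linter.unusedSectionVars false

namespace K2b

theorem ip_add_left (u v w : Vec) : ip (u + v) w = ip u w + ip v w := by
  simp only [ip, Pi.add_apply]; ring

theorem ip_neg_left (u w : Vec) : ip (-u) w = -ip u w := by
  simp only [ip, Pi.neg_apply]; ring

theorem ip_smul_left (a : ℝ) (u w : Vec) : ip (a • u) w = a * ip u w := by
  simp only [ip, Pi.smul_apply, smul_eq_mul]; ring

theorem ip_self_pos {c : Vec} (hc : c ≠ 0) : 0 < ip c c := by
  have h0 : 0 ≤ ip c c := by
    unfold ip
    nlinarith [mul_self_nonneg (c 0), mul_self_nonneg (c 1)]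
  rcases h0.lt_or_eq with h | h
  · exact h
  · exfalso
    apply hc
    unfold ip at h
    have e0 : c 0 = 0 := by nlinarith [mul_self_nonneg (c 0), mul_self_nonneg (c 1)]
    have e1 : c 1 = 0 := by nlinarith [mul_self_nonneg (c 0), mul_self_nonneg (c 1)]
    funext i
    fin_cases i
    · exact e0
    · exact e1

/-- the step of a dart of top type -/
theorem step_top {T : Tri D} {z : D → Vec} {c : Vec} (h : Horiz T z c) {d : D}
    (hd : Up z c d) (hP : cr (z (T.nxt d)) c = 0) :
    ∃ μ : ℝ, 0 < μ ∧ z (hstep T z c d) = z d + μ • c := by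
  obtain ⟨μ, hμ, h1, h2, h3⟩ | ⟨μ, hμ, h1, h2, h3⟩ := h.cases hd
  · refine ⟨μ, hμ, ?_⟩
    rw [h3, h.geo.coc.glue]
    have := h.geo.coc.closed d
    rw [h1] at this
    have h4 : z d + μ • c = (z d + μ • c + z (T.nxt (T.nxt d))) - z (T.nxt (T.nxt d)) := by abel
    rw [h4, this, zero_sub]
  · exfalso
    have hd' : 0 < cr (z d) c := hd
    rw [hP] at h2
    linarith

/-- the step of a dart of bottom type -/
theorem step_bot {T : Tri D} {z : D → Vec} {c : Vec} (h : Horiz T z c) {d : D}
    (hd : Up z c d) (hP : cr (z (T.nxt d)) c ≠ 0) :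
    (∃ μ : ℝ, 0 < μ ∧ z (hstep T z c d) = z d + -(μ • c)) ∧
      cr (z (T.nxt (T.opp (hstep T z c d)))) c = 0 := by
  obtain ⟨μ, hμ, h1, h2, h3⟩ | ⟨μ, hμ, h1, h2, h3⟩ := h.cases hd
  · exfalso
    apply hP
    rw [h1, K2a.cr_smul_left, K2a.cr_self, mul_zero]
  · refine ⟨⟨μ, hμ, ?_⟩, ?_⟩
    · rw [h3, h.geo.coc.glue]
      have := h.geo.coc.closed d
      rw [h1] at this
      have h4 : z d + -(μ • c) = (z d + z (T.nxt d) + -(μ • c)) - z (T.nxt d) := by abel
      rw [h4, this, zero_sub]
    · rw [h3, T.opp2, h1, K2a.cr_neg_left, K2a.cr_smul_left, K2a.cr_self, mul_zero, neg_zero]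

theorem period {T : Tri D} {z : D → Vec} {c : Vec} (h : Horiz T z c) {d : D}
    (hd : Up z c d) (k : ℕ) :
    ∃ p : ℕ, 0 < p ∧ (hstep T z c)^[k + p] d = (hstep T z c)^[k] d := by
  obtain ⟨j, hj⟩ := h.step_symm (h.step_iter_up hd k) 1
  refine ⟨j + 1, Nat.succ_pos j, ?_⟩
  rw [← Function.iterate_add_apply, ← Function.iterate_add_apply] at hj
  rw [← hj]
  congr 1
  ring

theorem not_all_top {T : Tri D} {z : D → Vec} {c : Vec} (h : Horiz T z c) {d : D}
    (hd : Up z c d) (k₀ : ℕ)
    (ha : ∀ k, k₀ ≤ k → cr (z (T.nxt ((hstep T z c)^[k] d))) c = 0) : False := by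
  obtain ⟨p, hp, hpe⟩ := period h hd k₀
  have hmono : ∀ q : ℕ, 0 < q →
      ip (z ((hstep T z c)^[k₀] d)) c < ip (z ((hstep T z c)^[k₀ + q] d)) c := by
    intro q hq
    induction q with
    | zero => exact absurd hq (lt_irrefl _)
    | succ q ih =>
      obtain ⟨μ, hμ, h1⟩ := step_top h (h.step_iter_up hd (k₀ + q)) (ha (k₀ + q) (by omega))
      rw [← Function.iterate_succ_apply' (hstep T z c)] at h1
      have h2 : k₀ + (q + 1) = (k₀ + q).succ := rfl
      rw [h2, h1, ip_add_left, ip_smul_left]
      have h3 := mul_pos hμ (ip_self_pos h.cne)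
      rcases Nat.eq_zero_or_pos q with h0 | h0
      · subst h0
        rw [add_zero]
        linarith
      · have := ih h0
        linarith
  have := hmono p hp
  rw [hpe] at this
  exact lt_irrefl _ this

theorem not_all_bot {T : Tri D} {z : D → Vec} {c : Vec} (h : Horiz T z c) {d : D}
    (hd : Up z c d) (k₀ : ℕ)
    (ha : ∀ k, k₀ ≤ k → cr (z (T.nxt ((hstep T z c)^[k] d))) c ≠ 0) : False := by
  obtain ⟨p, hp, hpe⟩ := period h hd k₀
  have hmono : ∀ q : ℕ, 0 < q →
      ip (z ((hstep T z c)^[k₀ + q] d)) c < ip (z ((hstep T z c)^[k₀] d)) c := by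
    intro q hq
    induction q with
    | zero => exact absurd hq (lt_irrefl _)
    | succ q ih =>
      obtain ⟨⟨μ, hμ, h1⟩, -⟩ :=
        step_bot h (h.step_iter_up hd (k₀ + q)) (ha (k₀ + q) (by omega))
      rw [← Function.iterate_succ_apply' (hstep T z c)] at h1
      have h2 : k₀ + (q + 1) = (k₀ + q).succ := rfl
      rw [h2, h1, ip_add_left, ip_neg_left, ip_smul_left]
      have h3 := mul_pos hμ (ip_self_pos h.cne)
      rcases Nat.eq_zero_or_pos q with h0 | h0
      · subst h0
        rw [add_zero]
        linarith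
      · have := ih h0
        linarith
  have := hmono p hp
  rw [hpe] at this
  exact lt_irrefl _ this

end K2b

theorem Horiz.exists_flippable (h : Horiz T z c) {d : D} (hd : Up z c d) :
    ∃ k : ℕ, cr (z (T.nxt ((hstep T z c)^[k] d))) c = 0 ∧
      cr (z (T.nxt (T.opp ((hstep T z c)^[k] d)))) c = 0 := by
  classical
  have h1 : ∃ j, cr (z (T.nxt ((hstep T z c)^[j] d))) c ≠ 0 := by
    by_contra hn
    push Not at hn
    exact K2b.not_all_top h hd 0 (fun k _ => hn k)
  obtain ⟨j, hj⟩ := h1
  have h2 : ∃ k, cr (z (T.nxt ((hstep T z c)^[j + k] d))) c = 0 := by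
    by_contra hn
    push Not at hn
    refine K2b.not_all_bot h hd j (fun k hk => ?_)
    have := hn (k - j)
    rwa [Nat.add_sub_cancel' hk] at this
  have h3 := Nat.find_spec h2
  have h4 : ∀ m, m < Nat.find h2 → ¬ cr (z (T.nxt ((hstep T z c)^[j + m] d))) c = 0 :=
    fun m hm => Nat.find_min h2 hm
  generalize Nat.find h2 = k at h3 h4
  rcases k with _ | k
  · exact absurd h3 hj
  · refine ⟨j + (k + 1), h3, ?_⟩
    have h5 := h4 k (Nat.lt_succ_self k)
    have h6 := (K2b.step_bot h (h.step_iter_up hd (j + k)) h5).2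
    rw [← Function.iterate_succ_apply' (hstep T z c)] at h6
    exact h6

end Pool.Veech
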