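import Pool.Agent.Lib.MP_fceebd_gt.K2b

/-! # Row K2: twists.
Let `d` be upward, such that the triangle of `d` (to its left) has its horizontal side at the top
(`nxt d`), and the triangle of `opp d` (to its right) has its horizontal side at the bottom
(`nxt (opp d)`). Then `d` can be flipped (for all `z'` with the same heights), the new vector is
`z d + (μ + μ') c`, where `μ c` and `- μ' c` are the vectors of the horizontal sides `nxt d` and
`nxt (opp d)`, and `hstep` does not change (only the types of the two triangles are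
exchanged). In each cylinder there is such a dart, since both types occur (`c` is nonzero multiple
of the sum of the top sides and of the sum of the bottom sides). Repeat this infinitely often in one
cylinder; there are only finitely many triangulations on `D`, so some triangulation `T₁` is repeated;
the loop at `T₁` changes each cocycle `f` only on the darts which cross the cylinder and its
image under the deck transformation, so by a multiple of `iota d - iota d ∘ tau`; for `f = z` the
multiple is `ξ c` with `ξ > 0` since the `c`-components of the vectors increase. Conjugate the loop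
with the path from `T` to `T₁`. The multiple is `λ f = k form (iota d) f / 6` by the invariance of the
form (`λ g * form j f = λ f * form j g` for `j = iota d - iota d ∘ tau`), and `k` is rational, since `λ f` is
rational for rational cocycles `f`, and there is an anti-invariant rational cocycle with
`form (iota d) f ≠ 0`: compose a coordinate of `z` with a `ℚ`-linear map `ℝ → ℚ`. -/

set_option autoImplicit false

namespace Pool.Veech

variable {D : Type} [Fintype D] [DecidableEq D] {T T' : Tri D} {z : D → Vec} {c : Vec}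

set_option linter.unusedSectionVars false

namespace K2c

/-- Flip paths which are geometric for all members of `Z`. -/
inductive UPath (T : Tri D) (Z : Set (D → Vec)) : Tri D → Matrix D D ℤ → Prop
  | refl : UPath T Z T 1
  | flip {T' T'' : Tri D} {m : Matrix D D ℤ} {a : D} (h : UPath T Z T' m)
      (hf : T'.IsFlip T'' a) (hg : ∀ z ∈ Z, Geo T'' (T'.flipF a (app m z))) :
      UPath T Z T'' (T'.flipM a * m)
  | relabel {T' : Tri D} {m : Matrix D D ℤ} (e : Equiv.Perm D) (h : UPath T Z T' m) :
      UPath T Z (T'.relab e) (permM e * m)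

theorem UPath.gpath {T T' : Tri D} {Z : Set (D → Vec)} {m : Matrix D D ℤ}
    (h : UPath T Z T' m) {z : D → Vec} (hz : z ∈ Z) (hg : Geo T z) : GPath T z T' m := by
  induction h with
  | refl => exact GPath.refl hg
  | flip h hf hg' ih => exact GPath.flip ih hf (hg' z hz)
  | relabel e h ih => exact GPath.relabel e ih

theorem UPath.trans {T T' T'' : Tri D} {Z Z' : Set (D → Vec)} {m m' : Matrix D D ℤ}
    (h : UPath T Z T' m) (h' : UPath T' Z' T'' m') (hZ : ∀ z ∈ Z, app m z ∈ Z') :
    UPath T Z T'' (m' * m) := by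
  induction h' with
  | refl => rw [one_mul]; exact h
  | flip h' hf hg ih =>
    rw [mul_assoc]
    refine UPath.flip ih hf (fun z hz => ?_)
    rw [app_mul]
    exact hg _ (hZ z hz)
  | relabel e h' ih =>
    rw [mul_assoc]
    exact UPath.relabel e ih

theorem relab_relab_symm (T : Tri D) (e : Equiv.Perm D) : (T.relab e).relab e.symm = T := by
  ext x <;> simp [Tri.relab]

theorem relab_symm_relab (T : Tri D) (e : Equiv.Perm D) : (T.relab e.symm).relab e = T := by
  ext x <;> simp [Tri.relab]

theorem UPath.symm {T T' : Tri D} {Z : Set (D → Vec)} {m : Matrix D D ℤ}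
    (h : UPath T Z T' m) (hne : Z.Nonempty) (hg : ∀ z ∈ Z, Geo T z) :
    ∃ m', UPath T' (app m '' Z) T m' ∧
      ∀ (M : Type) [AddCommGroup M] (f : D → M), IsCoc T f → app m' (app m f) = f := by
  induction h with
  | refl =>
    refine ⟨1, UPath.refl, ?_⟩
    intro M _ f _
    rw [app_one, app_one]
  | @flip T' T'' m a h hf hg' ih =>
    obtain ⟨m', hm', hi⟩ := ih
    obtain ⟨z0, hz0⟩ := hne
    have hG : ∀ z ∈ Z, Geo T' (app m z) := fun z hz => (h.gpath hz (hg z hz)).geo
    obtain ⟨e, he1, he2⟩ := (hG z0 hz0).flip_flip hf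
    have hp : UPath T'' (app (T'.flipM a * m) '' Z) T' (permM e.symm * (T''.flipM a * 1)) := by
      have h1 : UPath T'' (app (T'.flipM a * m) '' Z) (T'.relab e) (T''.flipM a * 1) := by
        refine UPath.flip UPath.refl he1 ?_
        rintro _ ⟨z, hz, rfl⟩
        rw [app_one, app_mul, app_flipM, he2 Vec _ (hG z hz).coc]
        exact (hG z hz).relab e
      have h2 := UPath.relabel e.symm h1
      rwa [relab_relab_symm] at h2
    have hc : ∀ (M : Type) [AddCommGroup M] (f : D → M), IsCoc T' f →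
        app (permM e.symm * (T''.flipM a * 1)) (app (T'.flipM a) f) = f := by
      intro M _ f hf'
      rw [mul_one, app_mul, app_flipM, app_flipM, he2 M f hf', app_permM]
      funext x
      simp
    refine ⟨m' * (permM e.symm * (T''.flipM a * 1)), UPath.trans hp hm' ?_, ?_⟩
    · rintro _ ⟨z, hz, rfl⟩
      refine ⟨z, hz, ?_⟩
      rw [app_mul (T'.flipM a) m, hc Vec _ (hG z hz).coc]
    · intro M _ f hf'
      rw [app_mul m', app_mul (T'.flipM a) m, hc M _ ((h.gpath hz0 (hg z0 hz0)).coc hf'), hi M f hf']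
  | @relabel T' m e h ih =>
    obtain ⟨m', hm', hi⟩ := ih
    have hc : ∀ (M : Type) [AddCommGroup M] (f : D → M),
        app (permM e.symm * 1) (app (permM e) f) = f := by
      intro M _ f
      rw [mul_one, app_permM, app_permM]
      funext x
      simp
    have hp : UPath (T'.relab e) (app (permM e * m) '' Z) T' (permM e.symm * 1) := by
      have h2 := UPath.relabel e.symm (UPath.refl (T := T'.relab e) (Z := app (permM e * m) '' Z))
      rwa [relab_relab_symm] at h2
    refine ⟨m' * (permM e.symm * 1), UPath.trans hp hm' ?_, ?_⟩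
    · rintro _ ⟨z, hz, rfl⟩
      refine ⟨z, hz, ?_⟩
      rw [app_mul (permM e) m, hc]
    · intro M _ f hf'
      rw [app_mul m', app_mul (permM e) m, hc, hi M f hf']

end K2c

namespace K2c

/-- the holonomies with the given heights -/
def ZZ (T : Tri D) (z : D → Vec) (c : Vec) : Set (D → Vec) :=
  {z' | Geo T z' ∧ ∀ e, cr (z' e) c = cr (z e) c}

/-- the darts of the cylinder -/
def CC (T : Tri D) (z : D → Vec) (c : Vec) (d : D) : Set D :=
  {e | ∃ k : ℕ, (hstep T z c)^[k] d = e}

structure Inv (T : Tri D) (z : D → Vec) (c : Vec) (d : D) (T' : Tri D) (m : Matrix D D ℤ) :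
    Prop where
  up : UPath T (ZZ T z c) T' m
  hz : Horiz T' (app m z) c
  opp : T'.opp = T.opp
  tau : T'.tau = T.tau
  hs : ∀ e, Up z c e → hstep T' (app m z) c e = hstep T z c e
  off : ∀ (f : D → ℝ) (e : D), e ∉ CC T z c d → T.opp e ∉ CC T z c d → T.tau e ∉ CC T z c d →
    T.tau (T.opp e) ∉ CC T z c d → app m f e = f e
  fix : ∀ f : D → ℝ, IsCoc T f → (∀ e, cr (z e) c = 0 → f e = 0) → app m f = f ∧ IsCoc T' f

theorem cr_app (m : Matrix D D ℤ) (z : D → Vec) (c : Vec) (e : D) :
    cr (app m z e) c = app m (fun e => cr (z e) c) e := by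
  have h1 : (fun e => cr (z e) c) = (c 1) • (fun e => z e 0) - (c 0) • (fun e => z e 1) := by
    funext e
    simp only [cr, Pi.sub_apply, Pi.smul_apply, smul_eq_mul]
    ring
  rw [h1, app_sub, app_smul, app_smul]
  simp only [cr, Pi.sub_apply, Pi.smul_apply, smul_eq_mul, app_coord]
  ring

theorem crCoc {T : Tri D} {z : D → Vec} (h : IsCoc T z) (c : Vec) :
    IsCoc T (fun e => cr (z e) c) := by
  constructor
  · intro e
    have h1 := h.closed e
    have h2 : cr (z e + z (T.nxt e) + z (T.nxt (T.nxt e))) c = cr 0 c := by rw [h1]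
    rw [K2a.cr_add_left, K2a.cr_add_left] at h2
    rw [h2]
    simp [cr]
  · intro e
    show cr (z (T.opp e)) c = -cr (z e) c
    rw [h.glue, K2a.cr_neg_left]

theorem crAnti {T : Tri D} {z : D → Vec} (h : IsAnti T z) (c : Vec) :
    IsAnti T (fun e => cr (z e) c) := by
  intro e
  show cr (z (T.tau e)) c = -cr (z e) c
  rw [h, K2a.cr_neg_left]

theorem Inv.height {T T' : Tri D} {z : D → Vec} {c : Vec} {d : D} {m : Matrix D D ℤ}
    (h : Inv T z c d T' m) (hT : Horiz T z c) (e : D) : cr (app m z e) c = cr (z e) c := by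
  rw [cr_app, (h.fix _ (crCoc hT.geo.coc c) (fun e he => he)).1]

theorem Inv.height' {T T' : Tri D} {z : D → Vec} {c : Vec} {d : D} {m : Matrix D D ℤ}
    (h : Inv T z c d T' m) (hT : Horiz T z c) {z' : D → Vec} (hz' : z' ∈ ZZ T z c) (e : D) :
    cr (app m z' e) c = cr (z e) c := by
  rw [← h.height hT e, cr_app, cr_app]
  congr 1
  funext x
  exact hz'.2 x

theorem Inv.refl {T : Tri D} {z : D → Vec} {c : Vec} {d : D} (hT : Horiz T z c) :
    Inv T z c d T 1 := by
  refine ⟨UPath.refl, ?_, rfl, rfl, ?_, ?_, ?_⟩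
  · rw [app_one]; exact hT
  · intro e _
    rw [app_one]
  · intro f e _ _ _ _
    rw [app_one]
  · intro f hf _
    rw [app_one]
    exact ⟨rfl, hf⟩

theorem iter_eq {T T' : Tri D} {z z' : D → Vec} {c : Vec} {d : D} (hT : Horiz T z c)
    (hd : Up z c d) (h : ∀ e, Up z c e → hstep T' z' c e = hstep T z c e) (k : ℕ) :
    (hstep T' z' c)^[k] d = (hstep T z c)^[k] d := by
  induction k with
  | zero => rfl
  | succ k ih =>
    rw [Function.iterate_succ_apply', Function.iterate_succ_apply', ih,
      h _ (hT.step_iter_up hd k)]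

theorem Inv.up_iff {T T' : Tri D} {z : D → Vec} {c : Vec} {d : D} {m : Matrix D D ℤ}
    (h : Inv T z c d T' m) (hT : Horiz T z c) (e : D) : Up (app m z) c e ↔ Up z c e := by
  unfold Up
  rw [h.height hT]

theorem Inv.step {T T' : Tri D} {z : D → Vec} {c : Vec} {d : D} {m : Matrix D D ℤ}
    (h : Inv T z c d T' m) (hT : Horiz T z c) (hd : Up z c d) :
    ∃ (T'' : Tri D) (m' : Matrix D D ℤ), Inv T z c d T'' m' ∧
      (∀ e, Up z c e → ip (app m z e) c ≤ ip (app m' z e) c) ∧
      ∃ a, Up z c a ∧ ip (app m z a) c < ip (app m' z a) c := by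
  have hd' : Up (app m z) c d := (h.up_iff hT d).2 hd
  obtain ⟨k, hk1, hk2⟩ := h.hz.exists_flippable hd'
  rw [iter_eq hT hd h.hs] at hk1 hk2
  have hA : (hstep T z c)^[k] d ∈ CC T z c d := ⟨k, rfl⟩
  have hup : Up z c ((hstep T z c)^[k] d) := hT.step_iter_up hd k
  generalize (hstep T z c)^[k] d = a at hk1 hk2 hA hup
  have hup' : Up (app m z) c a := (h.up_iff hT a).2 hup
  obtain ⟨⟨T'', hf⟩, hall⟩ := h.hz.flip_step hup' hk1 hk2
  obtain ⟨q1, q2, q3, ⟨μ, hμ, q4⟩, q5, q6⟩ := hall T'' hf
  have hgeo : ∀ z' ∈ ZZ T z c, Geo T'' (T'.flipF a (app m z')) := by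
    intro z' hz'
    refine q6 (app m z') (h.up.gpath hz' hz'.1).geo ?_
    intro e
    rw [h.height' hT hz', h.height hT]
  have hdiag : ∀ e, e ∉ CC T z c d → T.opp e ∉ CC T z c d → T.tau e ∉ CC T z c d →
      T.tau (T.opp e) ∉ CC T z c d → ¬ T'.Diag a e := by
    intro e h1 h2 h3 h4 h5
    rcases h5 with h5 | h5 | h5 | h5
    · exact h1 (h5 ▸ hA)
    · rw [h.opp] at h5
      apply h2
      rw [h5, T.opp2]
      exact hA
    · rw [h.tau] at h5
      apply h3
      rw [h5, T.tau2]
      exact hA
    · rw [h.tau, h.opp] at h5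
      apply h4
      rw [h5, ← T.tau_opp, T.opp2, T.tau2]
      exact hA
  have hinc : ∀ e, Up z c e → ip (app m z e) c ≤ ip (T'.flipF a (app m z) e) c := by
    intro e he
    by_cases e1 : e = a
    · rw [e1, q4, K2b.ip_add_left, K2b.ip_smul_left]
      have := mul_pos hμ (K2b.ip_self_pos hT.cne)
      linarith
    by_cases e2 : e = T'.opp a
    · exfalso
      have he' : 0 < cr (app m z e) c := (h.up_iff hT e).2 he
      have ha' : 0 < cr (app m z a) c := hup'
      rw [e2, h.hz.geo.coc.glue, K2a.cr_neg_left] at he'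
      linarith
    by_cases e3 : e = T'.tau a
    · exfalso
      have he' : 0 < cr (app m z e) c := (h.up_iff hT e).2 he
      have ha' : 0 < cr (app m z a) c := hup'
      rw [e3, h.hz.geo.anti, K2a.cr_neg_left] at he'
      linarith
    by_cases e4 : e = T'.tau (T'.opp a)
    · have t1 := q1.geo.anti (T''.opp a)
      rw [q1.geo.coc.glue, neg_neg, hf.tau, hf.opp] at t1
      rw [e4, t1, h.hz.geo.anti, h.hz.geo.coc.glue, neg_neg, q4, K2b.ip_add_left,
        K2b.ip_smul_left]
      have := mul_pos hμ (K2b.ip_self_pos hT.cne)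
      linarith
    · rw [q5 e e1 e2 e3 e4]
  refine ⟨T'', T'.flipM a * m, ⟨UPath.flip h.up hf hgeo, ?_, ?_, ?_, ?_, ?_, ?_⟩, ?_, a, hup, ?_⟩
  · rw [app_mul, app_flipM]
    exact q1
  · rw [hf.opp, h.opp]
  · rw [hf.tau, h.tau]
  · intro e he
    rw [app_mul, app_flipM, q3 e ((h.up_iff hT e).2 he), h.hs e he]
  · intro f e h1 h2 h3 h4
    rw [app_mul, app_flipM]
    unfold Tri.flipF
    rw [if_neg (hdiag e h1 h2 h3 h4)]
    exact h.off f e h1 h2 h3 h4
  · intro f hf1 hf2
    obtain ⟨r1, r2⟩ := h.fix f hf1 hf2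
    have r3 : T'.flipF a f = f := by
      funext e
      unfold Tri.flipF
      split_ifs with he
      · have s1 : f (T'.nxt e) = 0 := by
          apply hf2
          rw [← h.height hT]
          exact K2a.diag_hor h.hz.geo hk1 hk2 he
        have s2 : f (T'.nxt (T'.opp e)) = 0 := by
          apply hf2
          rw [← h.height hT]
          exact K2a.diag_hor h.hz.geo hk1 hk2 (K2a.diag_opp he)
        have s3 := r2.closed e
        rw [s1] at s3
        rw [s2]
        linarith
      · rfl
    rw [app_mul, app_flipM, r1, r3]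
    refine ⟨rfl, ?_⟩
    have := h.hz.geo.flip_coc hf r2
    rwa [r3] at this
  · intro e he
    rw [app_mul (T'.flipM a), app_flipM]
    exact hinc e he
  · rw [app_mul (T'.flipM a), app_flipM, q4, K2b.ip_add_left, K2b.ip_smul_left]
    have := mul_pos hμ (K2b.ip_self_pos hT.cne)
    linarith

end K2c

namespace K2c

/-- the infinite sequence of flips -/
theorem exists_pair {T : Tri D} {z : D → Vec} {c : Vec} {d : D} (hT : Horiz T z c)
    (hd : Up z c d) :
    ∃ (T₁ : Tri D) (m m' : Matrix D D ℤ), Inv T z c d T₁ m ∧ Inv T z c d T₁ m' ∧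
      ∃ a, Up z c a ∧ ip (app m z a) c < ip (app m' z a) c := by
  classical
  have hstep' : ∀ s : {p : Tri D × Matrix D D ℤ // Inv T z c d p.1 p.2},
      ∃ s' : {p : Tri D × Matrix D D ℤ // Inv T z c d p.1 p.2},
        (∀ e, Up z c e → ip (app s.1.2 z e) c ≤ ip (app s'.1.2 z e) c) ∧
        ∃ a, Up z c a ∧ ip (app s.1.2 z a) c < ip (app s'.1.2 z a) c := by
    rintro ⟨⟨T', m⟩, hs⟩
    obtain ⟨T'', m', h1, h2, h3⟩ := hs.step hT hd
    exact ⟨⟨⟨T'', m'⟩, h1⟩, h2, h3⟩
  choose nx hle hlt using hstep'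
  let s : ℕ → {p : Tri D × Matrix D D ℤ // Inv T z c d p.1 p.2} := fun n =>
    nx^[n] ⟨⟨T, 1⟩, Inv.refl hT⟩
  have hs : ∀ n, s (n + 1) = nx (s n) := fun n => Function.iterate_succ_apply' nx n _
  have hmono : ∀ i k, ∀ e, Up z c e → ip (app (s i).1.2 z e) c ≤ ip (app (s (i + k)).1.2 z e) c := by
    intro i k e he
    induction k with
    | zero => exact le_rfl
    | succ k ih =>
      refine ih.trans ?_
      have h1 : i + (k + 1) = (i + k) + 1 := rfl
      rw [h1, hs]
      exact hle (s (i + k)) e he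
  have hstrict : ∀ i j, i < j → ∃ a, Up z c a ∧ ip (app (s i).1.2 z a) c <
      ip (app (s j).1.2 z a) c := by
    intro i j hij
    obtain ⟨k, rfl⟩ := Nat.exists_eq_add_of_lt hij
    obtain ⟨a, ha, hlt'⟩ := hlt (s (i + k))
    refine ⟨a, ha, lt_of_le_of_lt (hmono i k a ha) ?_⟩
    rw [hs]
    exact hlt'
  obtain ⟨i, j, hij, he⟩ := Finite.exists_ne_map_eq_of_infinite (fun n : ℕ => (s n).1.1)
  rcases lt_or_gt_of_ne hij with h | h
  · exact ⟨(s i).1.1, (s i).1.2, (s j).1.2, (s i).2, he ▸ (s j).2, hstrict i j h⟩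
  · exact ⟨(s j).1.1, (s j).1.2, (s i).1.2, (s j).2, he ▸ (s i).2, hstrict j i h⟩

/-- the function of the twist -/
noncomputable def psi (T : Tri D) (z : D → Vec) (c : Vec) (d e : D) : ℝ :=
  (iota T z c d e : ℝ) - iota T z c d (T.tau e)

theorem tau_hor {T : Tri D} {z : D → Vec} {c : Vec} (h : Geo T z) (e : D) :
    cr (z (T.tau e)) c = -cr (z e) c := by
  rw [h.anti, K2a.cr_neg_left]

theorem psi_coc {T : Tri D} {z : D → Vec} {c : Vec} {d : D} (hT : Horiz T z c) (hd : Up z c d) :
    IsCoc T (psi T z c d) := by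
  have h := (hT.isCyl hd).coc
  constructor
  · intro e
    have h1 := h.closed e
    have h2 := h.closed (T.tau e)
    rw [← T.tau_nxt, ← T.tau_nxt] at h2
    unfold psi
    have h1' : (iota T z c d e : ℝ) + iota T z c d (T.nxt e) +
      iota T z c d (T.nxt (T.nxt e)) = 0 := by exact_mod_cast h1
    have h2' : (iota T z c d (T.tau e) : ℝ) + iota T z c d (T.tau (T.nxt e)) +
      iota T z c d (T.tau (T.nxt (T.nxt e))) = 0 := by exact_mod_cast h2
    linarith
  · intro e
    unfold psi
    rw [T.tau_opp, h.glue, h.glue]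
    push_cast
    ring

theorem psi_hor {T : Tri D} {z : D → Vec} {c : Vec} {d : D} (hT : Horiz T z c) (hd : Up z c d)
    (e : D) (he : cr (z e) c = 0) : psi T z c d e = 0 := by
  unfold psi
  rw [hT.iota_hor hd he, hT.iota_hor hd (by rw [tau_hor hT.geo, he, neg_zero])]
  simp

theorem psi_anti {T : Tri D} {z : D → Vec} {c : Vec} {d : D} : IsAnti T (psi T z c d) := by
  intro e
  unfold psi
  rw [T.tau2]
  ring

/-- a cocycle which vanishes on the horizontal darts is constant on a cylinder -/
theorem const_iter {T : Tri D} {z : D → Vec} {c : Vec} (hT : Horiz T z c) {f : D → ℝ}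
    (hf : IsCoc T f) (h0 : ∀ e, cr (z e) c = 0 → f e = 0) {e : D} (he : Up z c e) (k : ℕ) :
    f ((hstep T z c)^[k] e) = f e := by
  induction k with
  | zero => rfl
  | succ k ih =>
    rw [Function.iterate_succ_apply', ← ih]
    have hup := hT.step_iter_up he k
    generalize (hstep T z c)^[k] e = x at hup
    have hcl := hf.closed x
    obtain ⟨μ, hμ, h1, h2, h3⟩ | ⟨μ, hμ, h1, h2, h3⟩ := hT.cases hup
    · have h4 : f (T.nxt x) = 0 := h0 _ (by rw [h1, K2a.cr_smul_left, K2a.cr_self, mul_zero])
      rw [h3, hf.glue]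
      linarith
    · have h4 : f (T.nxt (T.nxt x)) = 0 := h0 _ (by
        rw [h1, K2a.cr_neg_left, K2a.cr_smul_left, K2a.cr_self, mul_zero, neg_zero])
      rw [h3, hf.glue]
      linarith

theorem tauopp {T : Tri D} {f : D → ℝ} (hf : IsCoc T f) (ha : IsAnti T f) (e : D) :
    f (T.tau (T.opp e)) = f e := by
  rw [ha, hf.glue, neg_neg]

theorem psi_self {T : Tri D} {z : D → Vec} {c : Vec} {d : D} (hT : Horiz T z c)
    (hd : Up z c d) : 1 ≤ psi T z c d d := by
  have h1 : iota T z c d d = 1 := hT.iota_self hd 0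
  have h2 : psi T z c d d = (iota T z c d d : ℝ) + iota T z c d (T.tau (T.opp d)) := by
    unfold psi
    rw [T.tau_opp, iota_opp]
    push_cast
    ring
  have hup : Up z c (T.tau (T.opp d)) := by
    unfold Up
    rw [hT.geo.anti, hT.geo.coc.glue, neg_neg]
    exact hd
  have h3 : 0 ≤ iota T z c d (T.tau (T.opp d)) := by
    rcases hT.iota_up hd hup with h | ⟨h, -⟩
    · rw [h]; exact zero_le_one
    · rw [h]
  rw [h2, h1]
  have h4 : (0 : ℝ) ≤ iota T z c d (T.tau (T.opp d)) := by exact_mod_cast h3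
  push_cast
  linarith

/-- a function which vanishes outside the cylinder and its image is a multiple of psi -/
theorem multiple {T : Tri D} {z : D → Vec} {c : Vec} {d : D} (hT : Horiz T z c)
    (hd : Up z c d) {g : D → ℝ} (hg : IsCoc T g) (ha : IsAnti T g)
    (h0 : ∀ e : D, e ∉ CC T z c d → T.opp e ∉ CC T z c d → T.tau e ∉ CC T z c d →
      T.tau (T.opp e) ∉ CC T z c d → g e = 0) :
    g = fun e => g d / psi T z c d d * psi T z c d e := by
  have hCup : ∀ e ∈ CC T z c d, Up z c e := by
    rintro e ⟨k, rfl⟩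
    exact hT.step_iter_up hd k
  have hhor : ∀ e, cr (z e) c = 0 → g e = 0 := by
    intro e he
    apply h0
    · intro h
      have := hCup _ h
      unfold Up at this
      rw [he] at this
      exact lt_irrefl _ this
    · intro h
      have := hCup _ h
      unfold Up at this
      rw [hT.geo.coc.glue, K2a.cr_neg_left, he, neg_zero] at this
      exact lt_irrefl _ this
    · intro h
      have := hCup _ h
      unfold Up at this
      rw [hT.geo.anti, K2a.cr_neg_left, he, neg_zero] at this
      exact lt_irrefl _ this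
    · intro h
      have := hCup _ h
      unfold Up at this
      rw [hT.geo.anti, hT.geo.coc.glue, neg_neg, he] at this
      exact lt_irrefl _ this
  have hpc := psi_coc hT hd
  have hph := psi_hor hT hd
  have hps := psi_self hT hd
  have hpa : IsAnti T (psi T z c d) := psi_anti
  have hps' : psi T z c d d ≠ 0 := by linarith
  have hC : ∀ e ∈ CC T z c d, g e = g d ∧ psi T z c d e = psi T z c d d := by
    rintro e ⟨k, rfl⟩
    exact ⟨const_iter hT hg hhor hd k, const_iter hT hpc hph hd k⟩
  have hup : ∀ e, Up z c e → g e = g d / psi T z c d d * psi T z c d e := by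
    intro e he
    by_cases h1 : e ∈ CC T z c d
    · obtain ⟨h2, h3⟩ := hC e h1
      rw [h2, h3, div_mul_cancel₀ _ hps']
    by_cases h4 : T.tau (T.opp e) ∈ CC T z c d
    · obtain ⟨h2, h3⟩ := hC _ h4
      rw [tauopp hg ha] at h2
      rw [tauopp hpc hpa] at h3
      rw [h2, h3, div_mul_cancel₀ _ hps']
    have he' : 0 < cr (z e) c := he
    have h2 : T.opp e ∉ CC T z c d := by
      intro h
      have := hCup _ h
      unfold Up at this
      rw [hT.geo.coc.glue, K2a.cr_neg_left] at this
      linarith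
    have h3 : T.tau e ∉ CC T z c d := by
      intro h
      have := hCup _ h
      unfold Up at this
      rw [hT.geo.anti, K2a.cr_neg_left] at this
      linarith
    rw [h0 e h1 h2 h3 h4]
    have h5 : iota T z c d e = 0 := by
      rcases hT.iota_up hd he with h | ⟨h, -⟩
      · exfalso
        unfold iota at h
        have h6 : ¬ ∃ k : ℕ, (hstep T z c)^[k] d = e := h1
        rw [if_neg h6] at h
        split_ifs at h <;> norm_num at h
      · exact h
    have hue : Up z c (T.tau (T.opp e)) := by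
      unfold Up
      rw [hT.geo.anti, hT.geo.coc.glue, neg_neg]
      exact he
    have h7 : iota T z c d (T.tau (T.opp e)) = 0 := by
      rcases hT.iota_up hd hue with h | ⟨h, -⟩
      · exfalso
        unfold iota at h
        have h6 : ¬ ∃ k : ℕ, (hstep T z c)^[k] d = T.tau (T.opp e) := h4
        rw [if_neg h6] at h
        split_ifs at h <;> norm_num at h
      · exact h
    have h8 : psi T z c d e = 0 := by
      unfold psi
      rw [T.tau_opp, iota_opp] at h7
      have h9 : iota T z c d (T.tau e) = 0 := by linarith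
      rw [h5, h9]
      simp
    rw [h8, mul_zero]
  funext e
  rcases lt_trichotomy (cr (z e) c) 0 with h | h | h
  · have hu : Up z c (T.opp e) := by
      unfold Up
      rw [hT.geo.coc.glue, K2a.cr_neg_left]
      linarith
    have h1 := hup _ hu
    rw [hg.glue, hpc.glue] at h1
    linarith
  · rw [hhor e h, hph e h, mul_zero]
  · exact hup e h

end K2c

namespace K2c

theorem psi_nonneg {T : Tri D} {z : D → Vec} {c : Vec} {d e : D} (hT : Horiz T z c)
    (hd : Up z c d) (he : Up z c e) : 0 ≤ psi T z c d e := by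
  have h2 : psi T z c d e = (iota T z c d e : ℝ) + iota T z c d (T.tau (T.opp e)) := by
    unfold psi
    rw [T.tau_opp, iota_opp]
    push_cast
    ring
  have hup : Up z c (T.tau (T.opp e)) := by
    unfold Up
    rw [hT.geo.anti, hT.geo.coc.glue, neg_neg]
    exact he
  have h3 : 0 ≤ iota T z c d (T.tau (T.opp e)) := by
    rcases hT.iota_up hd hup with h | ⟨h, -⟩
    · rw [h]; exact zero_le_one
    · rw [h]
  have h5 : 0 ≤ iota T z c d e := by
    rcases hT.iota_up hd he with h | ⟨h, -⟩
    · rw [h]; exact zero_le_one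
    · rw [h]
  rw [h2]
  have h4 : (0 : ℝ) ≤ iota T z c d (T.tau (T.opp e)) := by exact_mod_cast h3
  have h6 : (0 : ℝ) ≤ iota T z c d e := by exact_mod_cast h5
  linarith

theorem coc_smul {T : Tri D} {p : D → ℝ} (hp : IsCoc T p) (v : Vec) :
    IsCoc T (fun e => p e • v) := by
  constructor
  · intro e
    show p e • v + p (T.nxt e) • v + p (T.nxt (T.nxt e)) • v = 0
    rw [← add_smul, ← add_smul, hp.closed, zero_smul]
  · intro e
    show p (T.opp e) • v = -(p e • v)
    rw [hp.glue, neg_smul]

theorem coc_add {M : Type*} [AddCommGroup M] {T : Tri D} {p q : D → M} (hp : IsCoc T p)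
    (hq : IsCoc T q) : IsCoc T (p + q) := by
  constructor
  · intro e
    have h1 := hp.closed e
    have h2 := hq.closed e
    show (p e + q e) + (p (T.nxt e) + q (T.nxt e)) + (p (T.nxt (T.nxt e)) + q (T.nxt (T.nxt e))) = 0
    calc _ = (p e + p (T.nxt e) + p (T.nxt (T.nxt e))) +
          (q e + q (T.nxt e) + q (T.nxt (T.nxt e))) := by abel
      _ = 0 := by rw [h1, h2, add_zero]
  · intro e
    show p (T.opp e) + q (T.opp e) = -(p e + q e)
    rw [hp.glue, hq.glue]
    abel

theorem coc_sub {M : Type*} [AddCommGroup M] {T : Tri D} {p q : D → M} (hp : IsCoc T p)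
    (hq : IsCoc T q) : IsCoc T (p - q) := by
  constructor
  · intro e
    have h1 := hp.closed e
    have h2 := hq.closed e
    show (p e - q e) + (p (T.nxt e) - q (T.nxt e)) + (p (T.nxt (T.nxt e)) - q (T.nxt (T.nxt e))) = 0
    calc _ = (p e + p (T.nxt e) + p (T.nxt (T.nxt e))) -
          (q e + q (T.nxt e) + q (T.nxt (T.nxt e))) := by abel
      _ = 0 := by rw [h1, h2, sub_zero]
  · intro e
    show p (T.opp e) - q (T.opp e) = -(p e - q e)
    rw [hp.glue, hq.glue]
    abel

/-- addition of a horizontal cocycle -/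
theorem geo_add {T : Tri D} {z : D → Vec} {c : Vec} {p : D → ℝ} (hg : Geo T z)
    (hh : ∀ e, cr (z e) c = 0 ∨ cr (z (T.nxt e)) c = 0 ∨ cr (z (T.nxt (T.nxt e))) c = 0)
    (hp : IsCoc T p) (hpa : IsAnti T p) (hp0 : ∀ e, cr (z e) c = 0 → p e = 0) :
    Geo T (fun e => z e + p e • c) := by
  refine ⟨coc_add hg.coc (coc_smul hp c), ?_, ?_⟩
  · intro e
    show z (T.tau e) + p (T.tau e) • c = -(z e + p e • c)
    rw [hg.anti, hpa, neg_smul]
    abel
  · intro e
    have h1 : cr (z e + p e • c) (z (T.nxt e) + p (T.nxt e) • c) =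
        cr (z e) (z (T.nxt e)) + (p (T.nxt e) * cr (z e) c - p e * cr (z (T.nxt e)) c) := by
      simp only [cr, Pi.add_apply, Pi.smul_apply, smul_eq_mul]
      ring
    have h2 : p (T.nxt e) * cr (z e) c - p e * cr (z (T.nxt e)) c = 0 := by
      have h3 := hp.closed e
      have h4 := K2a.third hg c e
      rcases hh e with h | h | h
      · rw [h, hp0 e h]
        ring
      · rw [h, hp0 _ h]
        ring
      · rw [h] at h4
        rw [hp0 _ h] at h3
        have h5 : cr (z e) c = -cr (z (T.nxt e)) c := by linarith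
        have h6 : p e = -p (T.nxt e) := by linarith
        rw [h5, h6]
        ring
    show 0 < cr (z e + p e • c) (z (T.nxt e) + p (T.nxt e) • c)
    rw [h1, h2, add_zero]
    exact hg.pos e

section

variable {T T₁ : Tri D} {z : D → Vec} {c : Vec} {d : D} {m₁ m₂ : Matrix D D ℤ}

open Classical in
theorem if_congr' {p q : Prop} (h : p ↔ q) : (if p then (1 : ℤ) else 0) = if q then 1 else 0 :=
  if_congr h rfl rfl

theorem iota_congr {z₁ : D → Vec} (h : ∀ k : ℕ, (hstep T₁ z₁ c)^[k] d = (hstep T z c)^[k] d)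
    (ho : T₁.opp = T.opp) (e : D) : iota T₁ z₁ c d e = iota T z c d e := by
  have h1 : ∀ x, (∃ k : ℕ, (hstep T₁ z₁ c)^[k] d = x) ↔ ∃ k : ℕ, (hstep T z c)^[k] d = x :=
    fun x => exists_congr (fun k => by rw [h k])
  unfold iota
  rw [ho, if_congr' (h1 e), if_congr' (h1 _)]

theorem psi_eq (hT : Horiz T z c) (hd : Up z c d) (I₁ : Inv T z c d T₁ m₁) :
    psi T₁ (app m₁ z) c d = psi T z c d := by
  have h := iter_eq hT hd I₁.hs
  funext e
  unfold psi
  rw [iota_congr h I₁.opp, iota_congr h I₁.opp, I₁.tau]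

theorem CC_eq (hT : Horiz T z c) (hd : Up z c d) (I₁ : Inv T z c d T₁ m₁) :
    CC T₁ (app m₁ z) c d = CC T z c d := by
  have h := iter_eq hT hd I₁.hs
  ext e
  constructor
  · rintro ⟨k, hk⟩
    exact ⟨k, by rw [← h]; exact hk⟩
  · rintro ⟨k, hk⟩
    exact ⟨k, by rw [h]; exact hk⟩

theorem gdiff (hT : Horiz T z c) (hd : Up z c d) (I₁ : Inv T z c d T₁ m₁)
    (I₂ : Inv T z c d T₁ m₂) {f : D → ℝ} (hf : IsCoc T f) (ha : IsAnti T f) :
    app m₂ f = app m₁ f + ((app m₂ f d - app m₁ f d) / psi T z c d d) • psi T z c d := by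
  have hz : z ∈ ZZ T z c := ⟨hT.geo, fun _ => rfl⟩
  have P1 := I₁.up.gpath hz hT.geo
  have P2 := I₂.up.gpath hz hT.geo
  have hg : IsCoc T₁ (app m₂ f - app m₁ f) := coc_sub (P2.coc hf) (P1.coc hf)
  have hga : IsAnti T₁ (app m₂ f - app m₁ f) := by
    intro e
    show app m₂ f (T₁.tau e) - app m₁ f (T₁.tau e) = -(app m₂ f e - app m₁ f e)
    rw [P2.anti ha, P1.anti ha]
    ring
  have hd₁ : Up (app m₁ z) c d := (I₁.up_iff hT d).2 hd
  have h := multiple I₁.hz hd₁ hg hga (by
    intro e h1 h2 h3 h4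
    rw [CC_eq hT hd I₁] at h1 h2 h3 h4
    rw [I₁.opp] at h2 h4
    rw [I₁.tau] at h3 h4
    show app m₂ f e - app m₁ f e = 0
    rw [I₁.off f e h1 h2 h3 h4, I₂.off f e h1 h2 h3 h4, sub_self])
  rw [psi_eq hT hd I₁] at h
  funext e
  have h5 := congrFun h e
  simp only [Pi.sub_apply] at h5
  simp only [Pi.add_apply, Pi.smul_apply, smul_eq_mul]
  rw [← h5]
  ring

theorem fix_smul (_ : Horiz T z c) (I₁ : Inv T z c d T₁ m₁) {p : D → ℝ}
    (hp : IsCoc T p) (hp0 : ∀ e, cr (z e) c = 0 → p e = 0) (v : Vec) :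
    app m₁ (fun e => p e • v) = fun e => p e • v := by
  funext e j
  rw [← app_coord]
  have h1 : (fun e => (p e • v) j) = (v j) • p := by
    funext x
    simp only [Pi.smul_apply, smul_eq_mul]
    ring
  rw [h1, app_smul, (I₁.fix p hp hp0).1]
  simp only [Pi.smul_apply, smul_eq_mul]
  ring

theorem vdiff (hT : Horiz T z c) (hd : Up z c d) (I₁ : Inv T z c d T₁ m₁)
    (I₂ : Inv T z c d T₁ m₂) {w : D → Vec} (hw : w ∈ ZZ T z c) :
    ∃ ξ : ℝ, app m₂ w = app m₁ w + fun e => (ξ * psi T z c d e) • c := by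
  have hc : ∀ j, IsCoc T (fun e => w e j) := by
    intro j
    constructor
    · intro e
      have := congrFun (hw.1.coc.closed e) j
      simpa using this
    · intro e
      have := congrFun (hw.1.coc.glue e) j
      simpa using this
  have ha : ∀ j, IsAnti T (fun e => w e j) := by
    intro j e
    have := congrFun (hw.1.anti e) j
    simpa using this
  have h1 := fun j => gdiff hT hd I₁ I₂ (hc j) (ha j)
  let v : Vec := fun j => (app m₂ (fun e => w e j) d - app m₁ (fun e => w e j) d) / psi T z c d d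
  have h2 : app m₂ w = app m₁ w + fun e => psi T z c d e • v := by
    funext e j
    have h3 := congrFun (h1 j) e
    rw [app_coord, Pi.add_apply, app_coord] at h3
    rw [h3]
    simp only [Pi.add_apply, Pi.smul_apply, smul_eq_mul, v]
    ring
  have h3 : cr v c = 0 := by
    have h4 := congrArg (fun x => cr x c) (congrFun h2 d)
    simp only [Pi.add_apply] at h4
    rw [K2a.cr_add_left, K2a.cr_smul_left, I₁.height' hT hw, I₂.height' hT hw] at h4
    have h5 := psi_self hT hd
    have h6 : psi T z c d d * cr v c = 0 := by linarith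
    rcases mul_eq_zero.1 h6 with h7 | h7
    · linarith
    · exact h7
  obtain ⟨ξ, hξ⟩ := K2a.par hT.cne h3
  refine ⟨ξ, ?_⟩
  rw [h2, hξ]
  congr 1
  funext e
  rw [smul_smul, mul_comm]

end

end K2c

/-- the loop, first form -/
theorem Horiz.loop' (h : Horiz T z c) {d : D} (hd : Up z c d) :
    ∃ m : Matrix D D ℤ,
      (∀ z', Geo T z' → (∀ e, cr (z' e) c = cr (z e) c) → GPath T z' T m) ∧
      (∀ f : D → ℝ, IsCoc T f → IsAnti T f → ∃ l : ℝ,
        app m f = fun e => f e + l * ((iota T z c d e : ℝ) - iota T z c d (T.tau e))) ∧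
      ∃ ξ : ℝ, 0 < ξ ∧
        app m z = fun e => z e + (ξ * ((iota T z c d e : ℝ) - iota T z c d (T.tau e))) • c := by
  obtain ⟨T₁, m₁, m₂, I₁, I₂, a, ha, hlt⟩ := K2c.exists_pair h hd
  have hz : z ∈ K2c.ZZ T z c := ⟨h.geo, fun _ => rfl⟩
  obtain ⟨mi, hmi, hinv⟩ := I₁.up.symm ⟨z, hz⟩ (fun z' hz' => hz'.1)
  have hpc := K2c.psi_coc h hd
  have hph := K2c.psi_hor h hd
  have hpa : IsAnti T (K2c.psi T z c d) := K2c.psi_anti
  have hcoc : ∀ ξ : ℝ, IsCoc T (fun e => ξ * K2c.psi T z c d e) := by
    intro ξ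
    constructor
    · intro e
      have := hpc.closed e
      show ξ * K2c.psi T z c d e + ξ * K2c.psi T z c d (T.nxt e) +
        ξ * K2c.psi T z c d (T.nxt (T.nxt e)) = 0
      rw [← mul_add, ← mul_add, this, mul_zero]
    · intro e
      show ξ * K2c.psi T z c d (T.opp e) = -(ξ * K2c.psi T z c d e)
      rw [hpc.glue]
      ring
  have hhor : ∀ ξ : ℝ, ∀ e, cr (z e) c = 0 → ξ * K2c.psi T z c d e = 0 := by
    intro ξ e he
    rw [hph e he, mul_zero]
  refine ⟨mi * m₂, ?_, ?_, ?_⟩
  · intro z' hz' hy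
    have hz'' : z' ∈ K2c.ZZ T z c := ⟨hz', hy⟩
    obtain ⟨ξ, hξ⟩ := K2c.vdiff h hd I₁ I₂ hz''
    have hw : (fun e => z' e + (ξ * K2c.psi T z c d e) • c) ∈ K2c.ZZ T z c := by
      constructor
      · refine K2c.geo_add hz' ?_ (hcoc ξ) ?_ ?_
        · intro e
          rw [hy, hy, hy]
          exact h.hor e
        · intro e
          show ξ * K2c.psi T z c d (T.tau e) = -(ξ * K2c.psi T z c d e)
          rw [hpa]
          ring
        · intro e he
          rw [hy] at he
          exact hhor ξ e he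
      · intro e
        show cr (z' e + (ξ * K2c.psi T z c d e) • c) c = cr (z e) c
        rw [K2a.cr_add_left, K2a.cr_smul_left, K2a.cr_self, mul_zero, add_zero, hy]
    have h1 : app m₁ (fun e => z' e + (ξ * K2c.psi T z c d e) • c) = app m₂ z' := by
      have h2 : (fun e => z' e + (ξ * K2c.psi T z c d e) • c) =
        z' + fun e => (ξ * K2c.psi T z c d e) • c := rfl
      rw [h2, app_add, K2c.fix_smul h I₁ (hcoc ξ) (hhor ξ), hξ]
    have P2 := I₂.up.gpath hz'' hz'
    have P3 := hmi.gpath (z := app m₂ z') ⟨_, hw, h1⟩ P2.geo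
    exact P2.trans P3
  · intro f hf hfa
    have h1 := K2c.gdiff h hd I₁ I₂ hf hfa
    refine ⟨(app m₂ f d - app m₁ f d) / K2c.psi T z c d d, ?_⟩
    generalize (app m₂ f d - app m₁ f d) / K2c.psi T z c d d = l at h1
    have h2 : app mi (K2c.psi T z c d) = K2c.psi T z c d := by
      have := hinv ℝ _ hpc
      rwa [(I₁.fix _ hpc hph).1] at this
    rw [app_mul, h1, app_add, app_smul, h2, hinv ℝ f hf]
    rfl
  · obtain ⟨ξ, hξ⟩ := K2c.vdiff h hd I₁ I₂ hz
    refine ⟨ξ, ?_, ?_⟩
    · have h1 := congrFun hξ a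
      rw [h1, Pi.add_apply, K2b.ip_add_left, K2b.ip_smul_left] at hlt
      have h2 := K2b.ip_self_pos h.cne
      have h3 := K2c.psi_nonneg h hd ha
      by_contra hn
      have h4 : ξ * K2c.psi T z c d a ≤ 0 := mul_nonpos_of_nonpos_of_nonneg (not_lt.1 hn) h3
      have h5 : ξ * K2c.psi T z c d a * ip c c ≤ 0 := mul_nonpos_of_nonpos_of_nonneg h4 h2.le
      linarith
    · have h2 : app mi (fun e => (ξ * K2c.psi T z c d e) • c) =
          fun e => (ξ * K2c.psi T z c d e) • c := by
        have := hinv Vec _ (K2c.coc_smul (hcoc ξ) c)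
        rwa [K2c.fix_smul h I₁ (hcoc ξ) (hhor ξ)] at this
      rw [app_mul, hξ, app_add, h2, hinv Vec z h.geo.coc]
      rfl

namespace K2c

theorem form_self {R : Type*} [CommRing R] (T : Tri D) (f : D → R) : form T f f = 0 := by
  unfold form
  exact Finset.sum_eq_zero (fun d _ => by ring)

theorem form_swap {R : Type*} [CommRing R] (T : Tri D) (f g : D → R) :
    form T f g = -form T g f := by
  unfold form
  rw [← Finset.sum_neg_distrib]
  exact Finset.sum_congr rfl (fun d _ => by ring)

theorem form_add_left {R : Type*} [CommRing R] (T : Tri D) (f f' g : D → R) :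
    form T (f + f') g = form T f g + form T f' g := by
  unfold form
  rw [← Finset.sum_add_distrib]
  exact Finset.sum_congr rfl (fun d _ => by simp only [Pi.add_apply]; ring)

theorem form_add_right {R : Type*} [CommRing R] (T : Tri D) (f g g' : D → R) :
    form T f (g + g') = form T f g + form T f g' := by
  unfold form
  rw [← Finset.sum_add_distrib]
  exact Finset.sum_congr rfl (fun d _ => by simp only [Pi.add_apply]; ring)

theorem form_smul_left {R : Type*} [CommRing R] (T : Tri D) (r : R) (f g : D → R) :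
    form T (r • f) g = r * form T f g := by
  unfold form
  rw [Finset.mul_sum]
  exact Finset.sum_congr rfl (fun d _ => by simp only [Pi.smul_apply, smul_eq_mul]; ring)

theorem form_smul_right {R : Type*} [CommRing R] (T : Tri D) (r : R) (f g : D → R) :
    form T f (r • g) = r * form T f g := by
  unfold form
  rw [Finset.mul_sum]
  exact Finset.sum_congr rfl (fun d _ => by simp only [Pi.smul_apply, smul_eq_mul]; ring)

theorem form_psi {T : Tri D} {z : D → Vec} {c : Vec} {d : D} {g : D → ℝ} (hg : IsAnti T g) :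
    form T (psi T z c d) g = 2 * form T (fun e => (iota T z c d e : ℝ)) g := by
  have h1 : form T (psi T z c d) g = form T (fun e => (iota T z c d e : ℝ)) g -
      ∑ e, ((iota T z c d (T.tau e) : ℝ) * g (T.nxt e) -
        g e * (iota T z c d (T.tau (T.nxt e)) : ℝ)) := by
    unfold form
    rw [← Finset.sum_sub_distrib]
    refine Finset.sum_congr rfl (fun e _ => ?_)
    unfold psi
    ring
  have h2 : ∑ e, ((iota T z c d (T.tau e) : ℝ) * g (T.nxt e) -
        g e * (iota T z c d (T.tau (T.nxt e)) : ℝ)) =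
      -form T (fun e => (iota T z c d e : ℝ)) g := by
    unfold form
    rw [← Finset.sum_neg_distrib]
    refine Fintype.sum_equiv T.tau _ _ (fun e => ?_)
    rw [← T.tau_nxt, hg, hg]
    ring
  rw [h1, h2]
  ring

end K2c

/-- the loop, final form -/
theorem Horiz.loop (h : Horiz T z c) {d : D} (hd : Up z c d) :
    ∃ (m : Matrix D D ℤ) (k : ℚ), 0 < k ∧
      (∀ z', Geo T z' → (∀ e, cr (z' e) c = cr (z e) c) → GPath T z' T m) ∧
      ∀ f : D → ℝ, IsCoc T f → IsAnti T f →
        app m f = fun e => f e + k * (form T (fun e => (iota T z c d e : ℝ)) f / 6) *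
          ((iota T z c d e : ℝ) - iota T z c d (T.tau e)) := by
  obtain ⟨m, hpath, hl, ξ, hξ, hz⟩ := h.loop' hd
  have hps := K2c.psi_self h hd
  have hps' : K2c.psi T z c d d ≠ 0 := by linarith
  have hP := hpath z h.geo (fun _ => rfl)
  have hw := h.width_pos hd
  have hiso := h.isCyl hd
  -- the coordinates of `z`
  have hc : ∀ j, IsCoc T (fun e => z e j) := by
    intro j
    constructor
    · intro e
      have := congrFun (h.geo.coc.closed e) j
      simpa using this
    · intro e
      have := congrFun (h.geo.coc.glue e) j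
      simpa using this
  have ha : ∀ j, IsAnti T (fun e => z e j) := by
    intro j e
    have := congrFun (h.geo.anti e) j
    simpa using this
  obtain ⟨j, hj⟩ : ∃ j, c j ≠ 0 := by
    by_contra hn
    push Not at hn
    exact h.cne (funext hn)
  have hform : form T (fun e => (iota T z c d e : ℝ)) (fun e => z e j) =
      6 * (width T z c d * c j) := by
    have := hiso.form_eq j
    rwa [Pi.smul_apply, smul_eq_mul] at this
  have hl' : ∀ f : D → ℝ, IsCoc T f → IsAnti T f → ∃ l : ℝ,
      app m f = f + l • K2c.psi T z c d := fun f hf hfa => by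
    obtain ⟨l, hl1⟩ := hl f hf hfa
    exact ⟨l, hl1⟩
  have hzj : app m (fun e => z e j) = (fun e => z e j) + (ξ * c j) • K2c.psi T z c d := by
    funext e
    have h1 := congrFun (congrFun hz e) j
    rw [app_coord, h1]
    simp only [Pi.add_apply, Pi.smul_apply, smul_eq_mul, K2c.psi]
    ring
  -- the formula with a real factor
  have hreal : ∀ f : D → ℝ, IsCoc T f → IsAnti T f → ∀ l : ℝ,
      app m f = f + l • K2c.psi T z c d →
      l = ξ / width T z c d * (form T (fun e => (iota T z c d e : ℝ)) f / 6) := by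
    intro f hf hfa l hfl
    have h1 := hP.form hf (hc j)
    rw [hfl, hzj, K2c.form_add_left, K2c.form_add_right, K2c.form_add_right, K2c.form_smul_left,
      K2c.form_smul_left, K2c.form_smul_right, K2c.form_smul_right, K2c.form_self,
      K2c.form_swap T f (K2c.psi T z c d), K2c.form_psi hfa, K2c.form_psi (ha j), hform] at h1
    have h2 : l * (6 * (width T z c d * c j)) =
        (ξ * c j) * form T (fun e => (iota T z c d e : ℝ)) f := by linarith
    have h3 : l * (6 * width T z c d) = ξ * form T (fun e => (iota T z c d e : ℝ)) f := by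
      apply mul_right_cancel₀ hj
      linarith
    field_simp
    linarith
  -- a rational cocycle
  have hne : form T (fun e => (iota T z c d e : ℝ)) (fun e => z e j) ≠ 0 := by
    rw [hform]
    exact mul_ne_zero (by norm_num) (mul_ne_zero hw.ne' hj)
  obtain ⟨φ, hφ⟩ : ∃ φ : Module.Dual ℚ ℝ,
      φ (form T (fun e => (iota T z c d e : ℝ)) (fun e => z e j)) ≠ 0 := by
    by_contra hn
    push Not at hn
    exact hne ((Module.forall_dual_apply_eq_zero_iff ℚ _).1 hn)
  have hφform : φ (form T (fun e => (iota T z c d e : ℝ)) (fun e => z e j)) =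
      form T (fun e => (iota T z c d e : ℚ)) (fun e => φ (z e j)) := by
    unfold form
    rw [map_sum]
    refine Finset.sum_congr rfl (fun e _ => ?_)
    have h1 : ((iota T z c d e : ℝ) * z (T.nxt e) j - z e j * (iota T z c d (T.nxt e) : ℝ)) =
        (iota T z c d e : ℤ) • (z (T.nxt e) j) - (iota T z c d (T.nxt e) : ℤ) • (z e j) := by
      simp only [zsmul_eq_mul]
      ring
    simp only
    rw [h1, map_sub, map_zsmul, map_zsmul, zsmul_eq_mul, zsmul_eq_mul]
    ring
  have hfc : IsCoc T (fun e => ((φ (z e j) : ℚ) : ℝ)) := by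
    constructor
    · intro e
      have h1 := congrArg φ ((hc j).closed e)
      rw [map_add, map_add, map_zero] at h1
      show ((φ (z e j) : ℚ) : ℝ) + ((φ (z (T.nxt e) j) : ℚ) : ℝ) +
        ((φ (z (T.nxt (T.nxt e)) j) : ℚ) : ℝ) = 0
      exact_mod_cast h1
    · intro e
      have h1 := congrArg φ ((hc j).glue e)
      rw [map_neg] at h1
      show ((φ (z (T.opp e) j) : ℚ) : ℝ) = -((φ (z e j) : ℚ) : ℝ)
      exact_mod_cast h1
  have hfa : IsAnti T (fun e => ((φ (z e j) : ℚ) : ℝ)) := by
    intro e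
    have h1 := congrArg φ (ha j e)
    rw [map_neg] at h1
    show ((φ (z (T.tau e) j) : ℚ) : ℝ) = -((φ (z e j) : ℚ) : ℝ)
    exact_mod_cast h1
  obtain ⟨l, hl1⟩ := hl' _ hfc hfa
  have hl2 := hreal _ hfc hfa l hl1
  have hfr : form T (fun e => (iota T z c d e : ℝ)) (fun e => ((φ (z e j) : ℚ) : ℝ)) =
      ((form T (fun e => (iota T z c d e : ℚ)) (fun e => φ (z e j)) : ℚ) : ℝ) := by
    unfold form
    push_cast
    rfl
  have hfr0 : (form T (fun e => (iota T z c d e : ℚ)) (fun e => φ (z e j)) : ℚ) ≠ 0 := by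
    rw [← hφform]
    exact hφ
  have hlq : ∃ q : ℚ, l = q := by
    have h1 := congrFun hl1 d
    have h2 : app m (fun e => ((φ (z e j) : ℚ) : ℝ)) d =
        ((app m (fun e => (φ (z e j) : ℚ)) d : ℚ) : ℝ) := by
      unfold app
      simp only [zsmul_eq_mul]
      push_cast
      rfl
    rw [h2] at h1
    simp only [Pi.add_apply, Pi.smul_apply, smul_eq_mul] at h1
    refine ⟨(app m (fun e => (φ (z e j) : ℚ)) d - φ (z d j)) /
      ((iota T z c d d : ℚ) - iota T z c d (T.tau d)), ?_⟩
    push_cast
    have h3 : (iota T z c d d : ℝ) - iota T z c d (T.tau d) ≠ 0 := hps'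
    rw [eq_div_iff h3, h1]
    unfold K2c.psi
    ring
  obtain ⟨q, hq⟩ := hlq
  have hk : ∃ k : ℚ, ξ / width T z c d = k := by
    refine ⟨q * 6 / form T (fun e => (iota T z c d e : ℚ)) (fun e => φ (z e j)), ?_⟩
    push_cast
    rw [← hfr, ← hq]
    have h4 : form T (fun e => (iota T z c d e : ℝ)) (fun e => ((φ (z e j) : ℚ) : ℝ)) ≠ 0 := by
      rw [hfr]
      exact_mod_cast hfr0
    rw [eq_div_iff h4]
    linarith
  obtain ⟨k, hk⟩ := hk
  refine ⟨m, k, ?_, hpath, ?_⟩
  · have : (0 : ℝ) < k := by
      rw [← hk]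
      exact div_pos hξ hw
    exact_mod_cast this
  · intro f hf hfa'
    obtain ⟨l', hl3⟩ := hl' f hf hfa'
    have hl4 := hreal f hf hfa' l' hl3
    rw [hk] at hl4
    rw [hl3, hl4]
    rfl

end Pool.Veech
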