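import Pool.Agent.Lib.MP_fceebd_gt.K2c

/-! # Row K3: commensurability of moduli -/

set_option autoImplicit false

open scoped MatrixGroups

namespace Pool.Veech

variable {D : Type} [Fintype D] [DecidableEq D] {T T' : Tri D} {z : D → Vec} {c : Vec}

/-- the form of the crossing numbers with a cocycle which vanishes on the horizontal darts -/
theorem Horiz.form_zero (h : Horiz T z c) {d : D} (hd : Up z c d) {t : D → ℝ} (ht : IsCoc T t)
    (h0 : ∀ e, cr (z e) c = 0 → t e = 0) :
    form T (fun e => (iota T z c d e : ℝ)) t = 0 := by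
  obtain ⟨R, hR, hR'⟩ := h.exists_reps
  have h1 : ∀ e, t e = ∑ r ∈ R, (iota T z c r e : ℝ) * t r := by
    intro e
    rw [h.dec hR hR' ht h0 e]
    simp only [zsmul_eq_mul]
  have h2 : form T (fun e => (iota T z c d e : ℝ)) t =
      ∑ r ∈ R, ((form T (iota T z c d) (iota T z c r) : ℤ) : ℝ) * t r := by
    simp only [form]
    push_cast
    simp_rw [Finset.sum_mul]
    rw [Finset.sum_comm]
    refine Finset.sum_congr rfl fun e _ => ?_
    rw [h1 e, h1 (T.nxt e), Finset.mul_sum, Finset.sum_mul, ← Finset.sum_sub_distrib]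
    refine Finset.sum_congr rfl fun r _ => ?_
    ring
  rw [h2]
  refine Finset.sum_eq_zero fun r hr => ?_
  rw [h.form_iota hd (hR r hr)]
  simp

/-- holonomies with the same heights and the same horizontal vectors -/
structure Cls (T : Tri D) (z : D → Vec) (c : Vec) (z' : D → Vec) : Prop where
  geo : Geo T z'
  height : ∀ e, cr (z' e) c = cr (z e) c
  hor : ∀ e, cr (z e) c = 0 → z' e = z e

/-- admissible changes -/
structure Adm (T : Tri D) (z : D → Vec) (c : Vec) (s : D → ℝ) : Prop where
  coc : IsCoc T s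
  anti : IsAnti T s
  hor : ∀ e, cr (z e) c = 0 → s e = 0

omit [DecidableEq D] [Fintype D] in
theorem Cls.shift_aux {z' : D → Vec} (h' : Geo T z') (h3 : ∀ d, cr (z' d) c = 0 ∨
    cr (z' (T.nxt d)) c = 0 ∨ cr (z' (T.nxt (T.nxt d))) c = 0) {s : D → ℝ} (hs : IsCoc T s)
    (h0 : ∀ e, cr (z' e) c = 0 → s e = 0) (d : D) :
    cr (z' d + s d • c) (z' (T.nxt d) + s (T.nxt d) • c) = cr (z' d) (z' (T.nxt d)) := by
  have e1 := hs.closed d
  have e2 : cr (z' d) c + cr (z' (T.nxt d)) c + cr (z' (T.nxt (T.nxt d))) c = 0 := by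
    have := h'.coc.closed d
    have t0 := congrFun this 0
    have t1 := congrFun this 1
    simp only [Pi.add_apply, Pi.zero_apply] at t0 t1
    simp only [cr]
    linear_combination c 1 * t0 - c 0 * t1
  have key : s (T.nxt d) * cr (z' d) c - s d * cr (z' (T.nxt d)) c = 0 := by
    rcases h3 d with h | h | h
    · rw [h, h0 _ h]; ring
    · rw [h, h0 _ h]; ring
    · rw [h0 _ h] at e1
      rw [h] at e2
      linear_combination cr (z' d) c * e1 - s d * e2
  have : cr (z' d + s d • c) (z' (T.nxt d) + s (T.nxt d) • c) = cr (z' d) (z' (T.nxt d)) +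
      (s (T.nxt d) * cr (z' d) c - s d * cr (z' (T.nxt d)) c) := by
    simp only [cr, Pi.add_apply, Pi.smul_apply, smul_eq_mul]
    ring
  rw [this, key, add_zero]

omit [DecidableEq D] [Fintype D] in
theorem Cls.shift (h : Horiz T z c) {z' : D → Vec} (h' : Cls T z c z') {s : D → ℝ}
    (hs : Adm T z c s) : Cls T z c (fun e => z' e + s e • c) where
  geo := by
    refine ⟨⟨fun d => ?_, fun d => ?_⟩, fun d => ?_, fun d => ?_⟩
    · have e1 := h'.geo.coc.closed d
      have e2 := hs.coc.closed d
      have : z' d + s d • c + (z' (T.nxt d) + s (T.nxt d) • c) +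
          (z' (T.nxt (T.nxt d)) + s (T.nxt (T.nxt d)) • c) =
          (z' d + z' (T.nxt d) + z' (T.nxt (T.nxt d))) +
          (s d + s (T.nxt d) + s (T.nxt (T.nxt d))) • c := by
        simp only [add_smul]; abel
      rw [this, e1, e2, zero_smul, add_zero]
    · simp only [h'.geo.coc.glue, hs.coc.glue, neg_smul, neg_add]
    · simp only [h'.geo.anti d, hs.anti d, neg_smul, neg_add]
    · have hor : ∀ e, cr (z' e) c = 0 → s e = 0 := fun e he => hs.hor e (by rw [← h'.height, he])
      have h3 : ∀ d, cr (z' d) c = 0 ∨ cr (z' (T.nxt d)) c = 0 ∨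
          cr (z' (T.nxt (T.nxt d))) c = 0 := by
        intro d
        simpa only [h'.height] using h.hor d
      have := Cls.shift_aux h'.geo h3 hs.coc hor d
      show 0 < cr (z' d + s d • c) (z' (T.nxt d) + s (T.nxt d) • c)
      rw [this]
      exact h'.geo.pos d
  height e := by
    rw [← h'.height e]
    simp only [cr, Pi.add_apply, Pi.smul_apply, smul_eq_mul]
    ring
  hor e he := by
    simp only [h'.hor e he, hs.hor e he, zero_smul, add_zero]

omit [DecidableEq D] [Fintype D] in
theorem Horiz.cls (h : Horiz T z c) : Cls T z c z := ⟨h.geo, fun _ => rfl, fun _ _ => rfl⟩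

theorem Horiz.adm (h : Horiz T z c) {d : D} (hd : Up z c d) (x : ℝ) :
    Adm T z c (fun e => x * ((iota T z c d e : ℝ) - iota T z c d (T.tau e))) := by
  have hi : ∀ e, (iota T z c d e : ℝ) + iota T z c d (T.nxt e) +
      iota T z c d (T.nxt (T.nxt e)) = 0 := fun e => by
    exact_mod_cast (h.isCyl hd).coc.closed e
  have ho : ∀ e, (iota T z c d (T.opp e) : ℝ) = -iota T z c d e := fun e => by
    exact_mod_cast (h.isCyl hd).coc.glue e
  refine ⟨⟨fun e => ?_, fun e => ?_⟩, fun e => ?_, fun e he => ?_⟩
  · have h1 := hi e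
    have h2 := hi (T.tau e)
    simp only [T.tau_nxt]
    linear_combination x * h1 - x * h2
  · simp only [T.tau_opp, ho]
    ring
  · simp only [T.tau2]
    ring
  · have h1 : cr (z (T.tau e)) c = 0 := by
      rw [h.geo.anti e]
      simp only [cr, Pi.neg_apply] at he ⊢
      linear_combination -he
    simp only [h.iota_hor hd he, h.iota_hor hd h1]
    ring

/-- one loop -/
theorem Horiz.loop_step (h : Horiz T z c) {d : D} (hd : Up z c d) :
    ∃ k : ℚ, 0 < k ∧ ∀ z', Cls T z c z' → ∃ m, GPath T z' T m ∧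
      app m z' = fun e => z' e + ((k * width T z c d) *
        ((iota T z c d e : ℝ) - iota T z c d (T.tau e))) • c := by
  obtain ⟨m, k, hk, hm, hf⟩ := h.loop hd
  refine ⟨k, hk, fun z' hz' => ⟨m, hm z' hz'.geo hz'.height, ?_⟩⟩
  funext e j
  have hj : ∀ (y : D → Vec), Geo T y → IsCoc T (fun e => y e j) := by
    intro y hy
    refine ⟨fun d => ?_, fun d => ?_⟩
    · have := congrFun (hy.coc.closed d) j
      simpa using this
    · have := congrFun (hy.coc.glue d) j
      simpa using this
  have ha : IsAnti T (fun e => z' e j) := by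
    intro d
    have := congrFun (hz'.geo.anti d) j
    simpa using this
  have h1 := congrFun (hf (fun e => z' e j) (hj z' hz'.geo) ha) e
  rw [app_coord] at h1
  rw [h1]
  have h2 : form T (fun e => (iota T z c d e : ℝ)) (fun e => z' e j) =
      6 * (width T z c d * c j) := by
    have h3 : form T (fun e => (iota T z c d e : ℝ)) (fun e => z' e j - z e j) = 0 := by
      refine h.form_zero hd ⟨fun d => ?_, fun d => ?_⟩ (fun e he => ?_)
      · have a1 := (hj z' hz'.geo).closed d
        have a2 := (hj z h.geo).closed d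
        linear_combination a1 - a2
      · have a1 := (hj z' hz'.geo).glue d
        have a2 := (hj z h.geo).glue d
        linear_combination a1 - a2
      · rw [hz'.hor e he, sub_self]
    have h4 := (h.isCyl hd).form_eq j
    have h5 : form T (fun e => (iota T z c d e : ℝ)) (fun e => z' e j) =
        form T (fun e => (iota T z c d e : ℝ)) (fun e => z e j) +
        form T (fun e => (iota T z c d e : ℝ)) (fun e => z' e j - z e j) := by
      simp only [form]
      rw [← Finset.sum_add_distrib]
      refine Finset.sum_congr rfl fun e _ => ?_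
      ring
    rw [h5, h3, h4, add_zero]
    rfl
  rw [h2]
  simp only [Pi.add_apply, Pi.smul_apply, smul_eq_mul]
  ring

/-- the group of the changes which are realized by paths -/
def Horiz.grp (h : Horiz T z c) : AddSubgroup (D → ℝ) where
  carrier := {s | Adm T z c s ∧ ∀ z', Cls T z c z' → ∃ m, GPath T z' T m ∧
    app m z' = fun e => z' e + s e • c}
  zero_mem' := by
    refine ⟨⟨⟨fun d => by simp, fun d => by simp⟩, fun d => by simp, fun e _ => rfl⟩,
      fun z' hz' => ⟨1, .refl hz'.geo, ?_⟩⟩
    rw [app_one]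
    funext e
    simp
  add_mem' := by
    rintro s s' ⟨hs, hs1⟩ ⟨hs', hs1'⟩
    refine ⟨⟨⟨fun d => ?_, fun d => ?_⟩, fun d => ?_, fun e he => ?_⟩, fun z' hz' => ?_⟩
    · have a1 := hs.coc.closed d
      have a2 := hs'.coc.closed d
      simp only [Pi.add_apply]
      linear_combination a1 + a2
    · have a1 := hs.coc.glue d
      have a2 := hs'.coc.glue d
      simp only [Pi.add_apply]
      linear_combination a1 + a2
    · have a1 := hs.anti d
      have a2 := hs'.anti d
      simp only [Pi.add_apply]
      linear_combination a1 + a2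
    · simp only [Pi.add_apply, hs.hor e he, hs'.hor e he, add_zero]
    · obtain ⟨m, hm, hme⟩ := hs1 z' hz'
      obtain ⟨m', hm', hme'⟩ := hs1' _ (Cls.shift h hz' hs)
      refine ⟨m' * m, hm.trans (by rw [hme]; exact hm'), ?_⟩
      rw [app_mul, hme, hme']
      funext e
      simp only [Pi.add_apply, add_smul]
      abel
  neg_mem' := by
    rintro s ⟨hs, hs1⟩
    have hn : Adm T z c (-s) := by
      refine ⟨⟨fun d => ?_, fun d => ?_⟩, fun d => ?_, fun e he => ?_⟩
      · have a1 := hs.coc.closed d
        simp only [Pi.neg_apply]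
        linear_combination -a1
      · have a1 := hs.coc.glue d
        simp only [Pi.neg_apply]
        linear_combination -a1
      · have a1 := hs.anti d
        simp only [Pi.neg_apply]
        linear_combination -a1
      · simp only [Pi.neg_apply, hs.hor e he, neg_zero]
    refine ⟨hn, fun z' hz' => ?_⟩
    have hc := Cls.shift h hz' hn
    obtain ⟨m, hm, hme⟩ := hs1 _ hc
    have he : (fun e => (z' e + (-s) e • c) + s e • c) = z' := by
      funext e
      simp only [Pi.neg_apply, neg_smul, neg_add_cancel_right]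
    rw [he] at hme
    obtain ⟨m', hm', hm'e⟩ := hm.symm
    refine ⟨m', by rw [hme] at hm'; exact hm', ?_⟩
    have := hm'e Vec (fun e => z' e + (-s) e • c) hc.geo.coc
    rw [hme] at this
    exact this

/-- Integral combinations of the twists: for `z' = z + ∑ a r (iota r - iota r ∘ tau) c`, `a r` in
`ℤ k_r w_r`, the triangulation `(T, z')` is reached from `(T, z)`. -/
theorem Horiz.twists (h : Horiz T z c) :
    ∃ k : D → ℚ, (∀ d, 0 < k d) ∧ ∀ (R : Finset D), (∀ r ∈ R, Up z c r) → ∀ (a : D → ℤ)
      (z' : D → Vec), Geo T z' → (∀ e, cr (z' e) c = cr (z e) c) →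
      (∀ e, cr (z e) c = 0 → z' e = z e) → ∃ m, GPath T z' T m ∧
        app m z' = fun e => z' e + (∑ r ∈ R, a r * (k r * width T z c r) *
          ((iota T z c r e : ℝ) - iota T z c r (T.tau e))) • c := by
  have h1 : ∀ d, ∃ k : ℚ, 0 < k ∧ (Up z c d → (fun e => (k * width T z c d) *
        ((iota T z c d e : ℝ) - iota T z c d (T.tau e))) ∈ h.grp) := by
    intro d
    by_cases hd : Up z c d
    · obtain ⟨k, hk, hk'⟩ := h.loop_step hd
      exact ⟨k, hk, fun _ => ⟨h.adm hd _, hk'⟩⟩
    · exact ⟨1, one_pos, fun h => absurd h hd⟩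
  choose k hk hk' using h1
  refine ⟨k, hk, fun R hR a z' g1 g2 g3 => ?_⟩
  have h2 : (∑ r ∈ R, a r • (fun e => ((k r : ℝ) * width T z c r) *
      ((iota T z c r e : ℝ) - iota T z c r (T.tau e)))) ∈ h.grp :=
    h.grp.sum_mem fun r hr => h.grp.zsmul_mem (hk' r (hR r hr)) (a r)
  obtain ⟨m, hm, hme⟩ := h2.2 z' ⟨g1, g2, g3⟩
  refine ⟨m, hm, ?_⟩
  rw [hme]
  funext e
  congr 2
  rw [Finset.sum_apply]
  refine Finset.sum_congr rfl fun r _ => ?_
  simp only [Pi.smul_apply, zsmul_eq_mul]
  ring

end Pool.Veech
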