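import Pool.Agent.Lib.MP_fceebd_gt.K3a

/-! # Row K3: commensurability of moduli -/

set_option autoImplicit false

open scoped MatrixGroups

namespace Pool.Veech

variable {D : Type} [Fintype D] [DecidableEq D] {T T' : Tri D} {z : D → Vec} {c : Vec}

private theorem k3b_par {A : SL(2, ℝ)} (hAc : A.1.mulVec c = c) (hc : c ≠ 0) :
    ∃ s : ℝ, ∀ v : Vec, A.1.mulVec v = v + (s * cr v c) • c := by
  have hdet : A.1 0 0 * A.1 1 1 - A.1 0 1 * A.1 1 0 = 1 := by
    have := A.2
    rwa [Matrix.det_fin_two] at this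
  have e0 : A.1 0 0 * c 0 + A.1 0 1 * c 1 = c 0 := by
    have := congrFun hAc 0
    simpa [Matrix.mulVec, dotProduct, Fin.sum_univ_two] using this
  have e1 : A.1 1 0 * c 0 + A.1 1 1 * c 1 = c 1 := by
    have := congrFun hAc 1
    simpa [Matrix.mulVec, dotProduct, Fin.sum_univ_two] using this
  set p := A.1 0 0
  set q := A.1 0 1
  set r := A.1 1 0
  set t := A.1 1 1
  by_cases h0 : c 0 = 0
  · have h1 : c 1 ≠ 0 := by
      intro h1
      apply hc
      funext i
      fin_cases i
      · exact h0
      · exact h1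
    have hq : q = 0 := by
      rw [h0] at e0
      simpa [h1] using e0
    have ht : t = 1 := by
      rw [h0] at e1
      have : t * c 1 = 1 * c 1 := by linarith
      exact mul_right_cancel₀ h1 this
    have hp : p = 1 := by
      rw [hq, ht] at hdet
      linarith
    refine ⟨r / (c 1) ^ 2, fun v => ?_⟩
    funext i
    fin_cases i
    · simp only [Matrix.mulVec, dotProduct, Fin.sum_univ_two, Pi.add_apply, Pi.smul_apply,
        smul_eq_mul, Fin.zero_eta, cr]
      change p * v 0 + q * v 1 = _
      rw [hq, hp, h0]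
      ring
    · simp only [Matrix.mulVec, dotProduct, Fin.sum_univ_two, Pi.add_apply, Pi.smul_apply,
        smul_eq_mul, Fin.mk_one, cr]
      change r * v 0 + t * v 1 = _
      rw [ht, h0]
      field_simp
      ring
  · have hp : p = 1 - q * c 1 / c 0 := by
      field_simp
      linarith
    have hr : r = (1 - t) * c 1 / c 0 := by
      field_simp
      linarith
    have ht : t = 1 + q * c 1 / c 0 := by
      rw [hp, hr] at hdet
      field_simp at hdet
      field_simp
      linarith
    refine ⟨-q / (c 0) ^ 2, fun v => ?_⟩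
    funext i
    fin_cases i
    · simp only [Matrix.mulVec, dotProduct, Fin.sum_univ_two, Pi.add_apply, Pi.smul_apply,
        smul_eq_mul, Fin.zero_eta, cr]
      change p * v 0 + q * v 1 = _
      rw [hp]
      field_simp
      ring
    · simp only [Matrix.mulVec, dotProduct, Fin.sum_univ_two, Pi.add_apply, Pi.smul_apply,
        smul_eq_mul, Fin.mk_one, cr]
      change r * v 0 + t * v 1 = _
      rw [hr, ht]
      field_simp
      ring

private theorem k3b_cr_add (u : Vec) (t : ℝ) : cr (u + t • c) c = cr u c := by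
  simp only [cr, Pi.add_apply, Pi.smul_apply, smul_eq_mul]
  ring

private theorem k3b_pow {A : SL(2, ℝ)} {s : ℝ}
    (hs : ∀ v : Vec, A.1.mulVec v = v + (s * cr v c) • c) (n : ℕ) (v : Vec) :
    (A ^ n).1.mulVec v = v + (n * s * cr v c) • c := by
  induction n generalizing v with
  | zero => simp
  | succ n ih =>
    have e : (A ^ (n + 1)).1.mulVec v = (A ^ n).1.mulVec (A.1.mulVec v) := by
      rw [pow_succ, Matrix.SpecialLinearGroup.coe_mul, Matrix.mulVec_mulVec]
    rw [e, ih, hs v, k3b_cr_add, add_assoc, ← add_smul]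
    congr 2
    push_cast
    ring

private theorem k3b_nq_le (u : Vec) {t B : ℝ} (hB : |t| ≤ B) :
    nq (u + t • c) ≤ 2 * nq u + 2 * B ^ 2 * nq c := by
  have h1 : t ^ 2 ≤ B ^ 2 := sq_le_sq' (by linarith [abs_le.mp hB]) (by linarith [abs_le.mp hB])
  have h2 : nq (u + t • c) ≤ 2 * nq u + 2 * t ^ 2 * nq c := by
    simp only [nq, ip, Pi.add_apply, Pi.smul_apply, smul_eq_mul]
    nlinarith [sq_nonneg (u 0 - t * c 0), sq_nonneg (u 1 - t * c 1)]
  have h3 : 0 ≤ nq c := by
    simp only [nq, ip]
    nlinarith [sq_nonneg (c 0), sq_nonneg (c 1)]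
  nlinarith

private theorem k3b_nq_nonneg (u : Vec) : 0 ≤ nq u := by
  simp only [nq, ip]
  nlinarith [sq_nonneg (u 0), sq_nonneg (u 1)]

omit [Fintype D] [DecidableEq D] in
private theorem k3b_iota_abs (T : Tri D) (z : D → Vec) (c : Vec) (d e : D) :
    |(iota T z c d e : ℝ)| ≤ 1 := by
  unfold iota
  split_ifs <;> simp

/-- A nontrivial affine map `A` which fixes `c` is `A v = v + s (cr v c) c`; with
`y = cr (z _) c = ∑ h_r iota r = ½ ∑ h_r (iota r - iota r ∘ tau)` we get
`A^n z = z + ∑ (n s h_r / 2) (iota r - iota r ∘ tau) c`. Subtract integral multiples of `k_r w_r` by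
twists, so that the coefficients are bounded. Since the set of edge vectors is locally
finite, two of these agree. So `s h_r` is a rational multiple of `w_r` (note that
the cylinder of `tau (opp r)` has the same `h` and `w`). -/
theorem Horiz.comm_of_aff (h : Horiz T z c) {A : SL(2, ℝ)} (hA : A ∈ aff T z h.geo)
    (hA1 : A ≠ 1) (hAc : A.1.mulVec c = c)
    (hfin : ∀ R : ℝ, {v ∈ edges T z | nq v ≤ R}.Finite) : Comm T z c := by
  classical
  obtain ⟨s, hs⟩ := k3b_par hAc h.cne
  have hs0 : s ≠ 0 := by
    intro h0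
    apply hA1
    ext i j
    have := congrFun (hs (Pi.single j 1)) i
    rw [h0] at this
    simp only [Matrix.mulVec_single_one, zero_mul, zero_smul, add_zero, Matrix.col_apply] at this
    rw [this]
    simp [Matrix.one_apply, Pi.single_apply]
  have hpow := k3b_pow (c := c) hs
  obtain ⟨R, hR, hR'⟩ := h.exists_reps
  obtain ⟨k, hk, htw⟩ := h.twists
  have hstar : ∀ r, ∃ r', Up z c r → r' ∈ R ∧ ∃ j : ℕ, (hstep T z c)^[j] r' = T.tau (T.opp r) := by
    intro r
    by_cases hr : Up z c r
    · obtain ⟨r', h1, -⟩ := hR' _ (h.tau_step hr).1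
      exact ⟨r', fun _ => h1⟩
    · exact ⟨r, fun h' => absurd h' hr⟩
  choose st hst using hstar
  have hzt : ∀ e, z (T.tau e) = -z e := h.geo.anti
  have hzo : ∀ e, z (T.opp e) = -z e := h.geo.coc.glue
  have hycoc : IsCoc T (fun e => cr (z e) c) := by
    refine ⟨fun d => ?_, fun d => ?_⟩
    · have := h.geo.coc.closed d
      have h0 := congrFun this 0
      have h1 := congrFun this 1
      simp only [Pi.add_apply, Pi.zero_apply] at h0 h1
      simp only [cr]
      linear_combination c 1 * h0 - c 0 * h1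
    · rw [hzo]
      simp only [cr, Pi.neg_apply]
      ring
  have hyt : ∀ e, cr (z (T.tau e)) c = -cr (z e) c := by
    intro e
    rw [hzt]
    simp only [cr, Pi.neg_apply]
    ring
  have hyo : ∀ e, cr (z (T.opp e)) c = -cr (z e) c := by
    intro e
    rw [hzo]
    simp only [cr, Pi.neg_apply]
    ring
  have hydec : ∀ e, cr (z e) c = ∑ r ∈ R, (iota T z c r e : ℝ) * cr (z r) c := by
    intro e
    have := h.dec hR hR' hycoc (fun e he => he) e
    simpa [zsmul_eq_mul] using this
  have hydec2 : ∀ e, cr (z e) c =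
      ∑ r ∈ R, (cr (z r) c / 2) * ((iota T z c r e : ℝ) - iota T z c r (T.tau e)) := by
    intro e
    have e1 := hydec e
    have e2 := hydec (T.tau e)
    rw [hyt] at e2
    have : cr (z e) c = (cr (z e) c - -cr (z e) c) / 2 := by ring
    rw [this, e2]
    conv_lhs => rw [e1]
    rw [← Finset.sum_sub_distrib, Finset.sum_div]
    refine Finset.sum_congr rfl fun r _ => ?_
    ring
  -- heights and widths of the cylinder of `st r`
  have hstep_y : ∀ d, Up z c d → ∀ j : ℕ, cr (z ((hstep T z c)^[j] d)) c = cr (z d) c := by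
    intro d hd j
    induction j with
    | zero => rfl
    | succ j ih =>
      rw [Function.iterate_succ_apply', h.step_height (h.step_iter_up hd j), ih]
  have hsty : ∀ r, Up z c r → cr (z (st r)) c = cr (z r) c := by
    intro r hr
    obtain ⟨h1, j, hj⟩ := hst r hr
    have := hstep_y _ (hR _ h1) j
    rw [hj, hyt, hyo] at this
    linarith
  have hstw : ∀ r, Up z c r → width T z c (st r) = width T z c r := by
    intro r hr
    obtain ⟨h1, j, hj⟩ := hst r hr
    have := (h.width_step (hR _ h1) j).2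
    rw [hj, h.width_tau hr] at this
    exact this.symm
  have hwpos : ∀ r, Up z c r → 0 < width T z c r := fun r hr => h.width_pos hr
  -- the values of the crossing numbers on the representatives
  have hval : ∀ r' ∈ R, ∀ g : D → ℝ,
      ∑ r ∈ R, g r * ((iota T z c r r' : ℝ) - iota T z c r (T.tau r')) = g r' + g (st r') := by
    intro r' hr' g
    have hup := hR _ hr'
    obtain ⟨h1, j, hj⟩ := hst r' hup
    have ht : ∀ r ∈ R, (iota T z c r (T.tau r') : ℝ) = -(if r = st r' then 1 else 0) := by
      intro r hr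
      have e1 : iota T z c r (T.tau r') = -iota T z c r (T.tau (T.opp r')) := by
        rw [T.tau_opp, iota_opp, neg_neg]
      rw [e1]
      by_cases hrs : r = st r'
      · rw [if_pos hrs]
        have : iota T z c r (T.tau (T.opp r')) = 1 := by
          rw [← hj, hrs]
          exact h.iota_self (hR _ h1) j
        rw [this]
        simp
      · rw [if_neg hrs]
        have : iota T z c r (T.tau (T.opp r')) = 0 := by
          rcases h.iota_up (hR _ hr) (h.tau_step hup).1 with h2 | h2
          · exfalso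
            have hne : ¬ ∃ k : ℕ, (hstep T z c)^[k] r = T.tau (T.opp r') := by
              intro h3
              exact hrs ((hR' _ (h.tau_step hup).1).unique ⟨hr, h3⟩ ⟨h1, j, hj⟩)
            unfold iota at h2
            rw [if_neg hne] at h2
            split_ifs at h2 <;> simp at h2
          · exact h2.1
        rw [this]
        simp
    have hs' : ∀ r ∈ R, g r * ((iota T z c r r' : ℝ) - iota T z c r (T.tau r')) =
        (if r = r' then g r else 0) + (if r = st r' then g r else 0) := by
      intro r hr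
      rw [ht r hr, h.reps_self hR hR' hr hr']
      split_ifs <;> push_cast <;> ring
    rw [Finset.sum_congr rfl hs', Finset.sum_add_distrib, Finset.sum_ite_eq' R r',
      Finset.sum_ite_eq' R (st r'), if_pos hr', if_pos h1]
  -- the coefficients
  set q : ℕ → D → ℤ := fun n r => -⌊(n * s * (cr (z r) c / 2)) / (k r * width T z c r)⌋ with hq
  set cf : ℕ → D → ℝ := fun n r => n * s * (cr (z r) c / 2) + q n r * (k r * width T z c r)
    with hcf
  have hcf0 : ∀ n r, Up z c r → |cf n r| ≤ k r * width T z c r := by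
    intro n r hr
    have hkw : (0 : ℝ) < k r * width T z c r := mul_pos (by exact_mod_cast hk r) (hwpos r hr)
    have h1 := Int.floor_le ((n * s * (cr (z r) c / 2)) / (k r * width T z c r))
    have h2 := Int.lt_floor_add_one ((n * s * (cr (z r) c / 2)) / (k r * width T z c r))
    rw [le_div_iff₀ hkw] at h1
    rw [div_lt_iff₀ hkw] at h2
    rw [hcf, hq, abs_le]
    push_cast
    constructor <;> nlinarith
  set Z : ℕ → D → Vec := fun n e =>
    z e + (∑ r ∈ R, cf n r * ((iota T z c r e : ℝ) - iota T z c r (T.tau e))) • c with hZ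
  have hZe : ∀ n e, Z n e ∈ edges T z := by
    intro n e
    obtain ⟨m, hm, hme⟩ := (mem_aff h.geo (A ^ n)).mp ((aff T z h.geo).pow_mem hA n)
    have hz' : ∀ e, app m z e = z e + (n * s * cr (z e) c) • c := by
      intro e
      rw [hme]
      exact hpow n (z e)
    have hgeo' := hm.geo
    obtain ⟨m', hm', hme'⟩ := htw R hR (q n) (app m z) hgeo'
      (fun e => by rw [hz', k3b_cr_add])
      (fun e he => by rw [hz', he, mul_zero, zero_smul, add_zero])
    refine ⟨T, m' * m, e, hm.trans hm', ?_⟩
    rw [app_mul, hme', hZ]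
    simp only
    rw [hz', add_assoc, ← add_smul]
    congr 2
    rw [hydec2 e, Finset.mul_sum, ← Finset.sum_add_distrib]
    refine Finset.sum_congr rfl fun r _ => ?_
    rw [hcf]
    ring
  -- the bound
  set B : ℝ := ∑ r ∈ R, (k r * width T z c r) * 2 with hB
  have hZB : ∀ n e, nq (Z n e) ≤ 2 * (∑ e, nq (z e)) + 2 * B ^ 2 * nq c := by
    intro n e
    have h1 : |∑ r ∈ R, cf n r * ((iota T z c r e : ℝ) - iota T z c r (T.tau e))| ≤ B := by
      refine (Finset.abs_sum_le_sum_abs _ _).trans (Finset.sum_le_sum fun r hr => ?_)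
      rw [abs_mul]
      have h2 := hcf0 n r (hR _ hr)
      have h3 : |(iota T z c r e : ℝ) - iota T z c r (T.tau e)| ≤ 2 := by
        refine (abs_sub _ _).trans ?_
        linarith [k3b_iota_abs T z c r e, k3b_iota_abs T z c r (T.tau e)]
      exact mul_le_mul h2 h3 (abs_nonneg _) ((abs_nonneg _).trans h2)
    have h4 := k3b_nq_le (c := c) (z e) h1
    have h5 : nq (z e) ≤ ∑ e, nq (z e) :=
      Finset.single_le_sum (fun e _ => k3b_nq_nonneg (z e)) (Finset.mem_univ e)
    linarith
  have hF : (Set.pi Set.univ fun _ : D =>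
      {v ∈ edges T z | nq v ≤ 2 * (∑ e, nq (z e)) + 2 * B ^ 2 * nq c}).Finite :=
    Set.Finite.pi fun _ => hfin _
  have := hF.to_subtype
  obtain ⟨n, n', hne, heq⟩ := Finite.exists_ne_map_eq_of_infinite
    (fun n : ℕ => (⟨Z n, fun e _ => ⟨hZe n e, hZB n e⟩⟩ : (Set.pi Set.univ fun _ : D =>
      {v ∈ edges T z | nq v ≤ 2 * (∑ e, nq (z e)) + 2 * B ^ 2 * nq c} : Set (D → Vec))))
  have heq' : Z n = Z n' := congrArg Subtype.val heq
  have hsum : ∀ e, ∑ r ∈ R, cf n r * ((iota T z c r e : ℝ) - iota T z c r (T.tau e)) =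
      ∑ r ∈ R, cf n' r * ((iota T z c r e : ℝ) - iota T z c r (T.tau e)) := by
    intro e
    have := congrFun heq' e
    rw [hZ] at this
    exact smul_left_injective ℝ h.cne (add_left_cancel this)
  have hnn : ((n : ℝ) - n') ≠ 0 := by
    rw [sub_ne_zero]
    exact_mod_cast hne
  have hnnq : ((n : ℚ) - n') ≠ 0 := by
    rw [sub_ne_zero]
    exact_mod_cast hne
  have hrat : ∀ r ∈ R, ∃ ρ : ℚ, s * cr (z r) c = ρ * width T z c r := by
    intro r hr
    have e1 := hval r hr (cf n)
    have e2 := hval r hr (cf n')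
    rw [hsum r, e2] at e1
    have hup := hR _ hr
    refine ⟨(((q n' r : ℚ) - q n r) * k r + ((q n' (st r) : ℚ) - q n (st r)) * k (st r)) /
      (n - n'), ?_⟩
    simp only [hcf] at e1
    rw [hsty r hup, hstw r hup] at e1
    push_cast
    rw [div_mul_eq_mul_div, eq_div_iff hnn]
    linear_combination -e1
  have hrat' : ∀ d, Up z c d → ∃ ρ : ℚ, s * cr (z d) c = ρ * width T z c d := by
    intro d hd
    obtain ⟨r, ⟨hr, j, hj⟩, -⟩ := hR' d hd
    obtain ⟨ρ, hρ⟩ := hrat r hr
    refine ⟨ρ, ?_⟩
    have h1 := hstep_y r (hR _ hr) j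
    have h2 := (h.width_step (hR _ hr) j).2
    rw [hj] at h1 h2
    rw [h1, h2, hρ]
  intro d d' hd hd'
  obtain ⟨ρ, hρ⟩ := hrat' d hd
  obtain ⟨ρ', hρ'⟩ := hrat' d' hd'
  have hρ'0 : (ρ' : ℝ) ≠ 0 := by
    intro h0
    rw [h0, zero_mul] at hρ'
    have : cr (z d') c ≠ 0 := ne_of_gt hd'
    exact (mul_ne_zero hs0 this) hρ'
  refine ⟨ρ / ρ', ?_⟩
  push_cast
  rw [div_mul_eq_mul_div, eq_div_iff hρ'0]
  apply mul_left_cancel₀ hs0
  linear_combination (width T z c d' * ρ') * hρ - (ρ * width T z c d) * hρ'

end Pool.Veech
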