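import Pool.Agent.Lib.MP_fceebd_gt.K3a

/-! # Row K3: commensurability of moduli -/

set_option autoImplicit false

open scoped MatrixGroups

namespace Pool.Veech

variable {D : Type} [Fintype D] [DecidableEq D] {T T' : Tri D} {z : D → Vec} {c : Vec}

private theorem K3c_cr (u v c : Vec) (α β : ℝ) :
    cr (u + α • c) (v + β • c) = cr u v + β * cr u c - α * cr v c := by
  unfold cr
  simp only [Pi.add_apply, Pi.smul_apply, smul_eq_mul]
  ring

/-- the coefficient is a positive integer -/
private theorem K3c_coef (h : Horiz T z c) {d : D} (hd : Up z c d) :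
    (1 : ℤ) ≤ iota T z c d d - iota T z c d (T.tau d) := by
  have h1 : iota T z c d d = 1 := h.iota_self hd 0
  have h2 : iota T z c d (T.opp (T.tau d)) = -iota T z c d (T.tau d) := iota_opp T z c d _
  have h3 : Up z c (T.opp (T.tau d)) := by
    unfold Up
    rw [h.geo.coc.glue, h.geo.anti, neg_neg]
    exact hd
  rcases h.iota_up hd h3 with h4 | h4
  · omega
  · have := h4.1
    omega

/-- If `h_r w_s / (h_s w_r)` is irrational, then the numbers
`cr (z r + a c) (z s + b c) = cr (z r) (z s) + a ... - b ...`, `a` in `ℤ k_r w_r`, `b` in `ℤ k_s w_s`, are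
dense (`dense_addSubgroupClosure_pair_iff` or similar), so that there are small virtual
triangles. -/
theorem Horiz.comm_of_nsvt (h : Horiz T z c) {b : ℝ} (hb : 0 < b) (hN : NSVT T z b) :
    Comm T z c := by
  intro d d' hd hd'
  obtain ⟨k, hk, htw⟩ := h.twists
  have hedge : ∀ x, Up z c x → ∀ a : ℤ,
      z x + ((a : ℝ) * (k x * width T z c x) *
        ((iota T z c x x : ℝ) - iota T z c x (T.tau x))) • c ∈ edges T z := by
    intro x hx a
    obtain ⟨m, hm, hz⟩ := htw {x} (by
      intro r hr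
      rw [Finset.mem_singleton] at hr
      rw [hr]
      exact hx) (fun _ => a) z h.geo (fun _ => rfl) (fun _ _ => rfl)
    refine ⟨T, m, x, hm, ?_⟩
    rw [hz]
    simp
  obtain ⟨n1, hn1⟩ : ∃ n : ℤ, n = iota T z c d d - iota T z c d (T.tau d) := ⟨_, rfl⟩
  obtain ⟨n2, hn2⟩ : ∃ n : ℤ, n = iota T z c d' d' - iota T z c d' (T.tau d') := ⟨_, rfl⟩
  have p1 : (1 : ℤ) ≤ n1 := hn1 ▸ K3c_coef h hd
  have p2 : (1 : ℤ) ≤ n2 := hn2 ▸ K3c_coef h hd'
  have e1 : ((iota T z c d d : ℝ) - iota T z c d (T.tau d)) = n1 := by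
    rw [hn1]
    push_cast
    rfl
  have e2 : ((iota T z c d' d' : ℝ) - iota T z c d' (T.tau d')) = n2 := by
    rw [hn2]
    push_cast
    rfl
  have w1 := h.width_pos hd
  have w2 := h.width_pos hd'
  have k1 : (0 : ℝ) < k d := by exact_mod_cast hk d
  have k2 : (0 : ℝ) < k d' := by exact_mod_cast hk d'
  have q1 : (0 : ℝ) < n1 := by exact_mod_cast (by omega : 0 < n1)
  have q2 : (0 : ℝ) < n2 := by exact_mod_cast (by omega : 0 < n2)
  have u1 : 0 < cr (z d) c := hd
  have u2 : 0 < cr (z d') c := hd'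
  obtain ⟨X, hX⟩ : ∃ X : ℝ, X = (k d' * width T z c d') * n2 * cr (z d) c := ⟨_, rfl⟩
  obtain ⟨Y, hY⟩ : ∃ Y : ℝ, Y = (k d * width T z c d) * n1 * cr (z d') c := ⟨_, rfl⟩
  have hX0 : 0 < X := by rw [hX]; positivity
  have hY0 : 0 < Y := by rw [hY]; positivity
  have hnum : ∀ m n : ℤ, cr (z d) (z d') + m * X + n * Y = 0 ∨
      b ≤ |cr (z d) (z d') + m * X + n * Y| := by
    intro m n
    have h1 := hedge d hd (-n)
    have h2 := hedge d' hd' m
    rw [e1] at h1
    rw [e2] at h2
    have h3 := hN _ h1 _ h2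
    rw [K3c_cr] at h3
    have h4 : cr (z d) (z d') + (m : ℝ) * (k d' * width T z c d') * n2 * cr (z d) c -
        ((-n : ℤ) : ℝ) * (k d * width T z c d) * n1 * cr (z d') c =
        cr (z d) (z d') + m * X + n * Y := by
      rw [hX, hY]
      push_cast
      ring
    rw [h4] at h3
    exact h3
  have hrat : ¬ Irrational (X / Y) := by
    intro hirr
    have hd := dense_addSubgroupClosure_pair_iff.2 hirr
    obtain ⟨x, hx, hx2⟩ := hd.exists_between
      (show -cr (z d) (z d') < -cr (z d) (z d') + b by linarith)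
    obtain ⟨m, n, hmn⟩ := AddSubgroup.mem_closure_pair.1 hx
    rcases hnum m n with h5 | h5
    · have : cr (z d) (z d') + x = 0 := by
        rw [← hmn, zsmul_eq_mul, zsmul_eq_mul]
        linarith
      have := hx2.1
      linarith
    · have h6 : cr (z d) (z d') + m * X + n * Y = cr (z d) (z d') + x := by
        rw [← hmn, zsmul_eq_mul, zsmul_eq_mul]
        ring
      rw [h6, abs_of_pos (by linarith [hx2.1])] at h5
      linarith [hx2.2]
  unfold Irrational at hrat
  push Not at hrat
  obtain ⟨q, hq⟩ := hrat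
  refine ⟨q * (k d * n1) / (k d' * n2), ?_⟩
  have h7 : X = q * Y := by
    rw [hq]
    field_simp
  rw [hX, hY] at h7
  push_cast
  field_simp
  linear_combination h7

end Pool.Veech
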