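import Pool.Agent.Lib.MP_fceebd_gt.K3a

/-! # Row K3: commensurability of moduli -/

set_option autoImplicit false

open scoped MatrixGroups

namespace Pool.Veech

variable {D : Type} [Fintype D] [DecidableEq D] {T T' : Tri D} {z : D → Vec} {c : Vec}

private theorem K3d_rat (R : Finset D) (x : D → ℚ) :
    ∃ (M : ℕ) (a : D → ℤ), 0 < M ∧ ∀ r ∈ R, (M : ℚ) * x r = a r := by
  classical
  refine ⟨∏ r ∈ R, (x r).den, fun r => ((∏ r ∈ R, (x r).den : ℕ) / (x r).den : ℕ) * (x r).num,
    Finset.prod_pos fun r _ => (x r).den_pos, fun r hr => ?_⟩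
  obtain ⟨t, ht⟩ := Finset.dvd_prod_of_mem (fun r => (x r).den) hr
  have hd : ((x r).den : ℚ) ≠ 0 := by
    exact_mod_cast (x r).den_pos.ne'
  have hx : (x r) * (x r).den = (x r).num := Rat.mul_den_eq_num (x r)
  rw [ht]
  change _ = ((((x r).den * t / (x r).den : ℕ) * (x r).num : ℤ) : ℚ)
  rw [Nat.mul_div_cancel_left t (x r).den_pos]
  push_cast
  rw [← hx]
  ring

private theorem K3d_coc (h : Geo T z) (c : Vec) : IsCoc T (fun e => cr (z e) c) := by
  constructor
  · intro d
    have h0 := congrFun (h.coc.closed d) 0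
    have h1 := congrFun (h.coc.closed d) 1
    simp only [Pi.add_apply, Pi.zero_apply] at h0 h1
    simp only [cr]
    linear_combination c 1 * h0 - c 0 * h1
  · intro d
    have h0 := congrFun (h.coc.glue d) 0
    have h1 := congrFun (h.coc.glue d) 1
    simp only [Pi.neg_apply] at h0 h1
    simp only [cr]
    rw [h0, h1]
    ring

/-- Multitwists: choose `s > 0` such that `s h_r / 2` is an integral multiple of `k_r w_r` for all
`r`. -/
theorem Horiz.exists_parabolic (h : Horiz T z c) (hC : Comm T z c) :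
    ∃ A ∈ aff T z h.geo, A ≠ 1 ∧ A.1.mulVec c = c := by
  classical
  obtain ⟨R, hR, hR'⟩ := h.exists_reps
  obtain ⟨k, hk, htw⟩ := h.twists
  have hdec := fun e => h.dec hR hR' (K3d_coc h.geo c) (fun e he => he) e
  -- the factor
  obtain ⟨s, a, hs, ha⟩ : ∃ (s : ℝ) (a : D → ℤ), s ≠ 0 ∧
      ∀ r ∈ R, s * cr (z r) c / 2 = a r * (k r * width T z c r) := by
    rcases R.eq_empty_or_nonempty with h0 | ⟨r0, hr0⟩
    · refine ⟨1, 0, one_ne_zero, ?_⟩
      intro r hr
      rw [h0] at hr
      simp at hr
    · have hw0 := h.width_pos (hR r0 hr0)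
      have hy0 : 0 < cr (z r0) c := hR r0 hr0
      have hq : ∀ r : D, ∃ q : ℚ, r ∈ R →
          cr (z r) c * width T z c r0 = q * (cr (z r0) c * width T z c r) := by
        intro r
        by_cases hr : r ∈ R
        · obtain ⟨q, hq⟩ := hC r r0 (hR r hr) (hR r0 hr0)
          exact ⟨q, fun _ => hq⟩
        · exact ⟨0, fun h => absurd h hr⟩
      choose q hq using hq
      obtain ⟨M, a, hM, ha⟩ := K3d_rat R (fun r => q r / k r)
      refine ⟨M * 2 * width T z c r0 / cr (z r0) c, a, ?_, ?_⟩
      · have : (0 : ℝ) < M := by exact_mod_cast hM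
        positivity
      · intro r hr
        have h1 := hq r hr
        have h2 := ha r hr
        have hkr : (k r : ℝ) ≠ 0 := by exact_mod_cast (hk r).ne'
        have h3 : (a r : ℝ) = M * (q r / k r) := by
          exact_mod_cast h2.symm
        have h4 : (a r : ℝ) * k r = M * q r := by
          rw [h3]
          field_simp
        have h5 : (a r : ℝ) * (k r * width T z c r) = M * q r * width T z c r := by
          rw [← mul_assoc, h4]
        rw [h5]
        have hy0' := hy0.ne'
        field_simp
        linear_combination h1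
  -- the matrix
  have hdet : (!![1 + s * (c 0 * c 1), -(s * (c 0 * c 0)); s * (c 1 * c 1),
      1 - s * (c 0 * c 1)] : Matrix (Fin 2) (Fin 2) ℝ).det = 1 := by
    rw [Matrix.det_fin_two_of]
    ring
  have hmul : ∀ v : Vec, (!![1 + s * (c 0 * c 1), -(s * (c 0 * c 0)); s * (c 1 * c 1),
      1 - s * (c 0 * c 1)] : Matrix (Fin 2) (Fin 2) ℝ).mulVec v = v + (s * cr v c) • c := by
    intro v
    funext j
    fin_cases j
    · simp only [cr, Matrix.mulVec, dotProduct, Fin.sum_univ_two, Pi.add_apply, Pi.smul_apply,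
        smul_eq_mul]
      simp
      ring
    · simp only [cr, Matrix.mulVec, dotProduct, Fin.sum_univ_two, Pi.add_apply, Pi.smul_apply,
        smul_eq_mul]
      simp
      ring
  obtain ⟨m, hm, hmz⟩ := htw R hR a z h.geo (fun _ => rfl) (fun _ _ => rfl)
  refine ⟨⟨_, hdet⟩, ⟨m, hm, ?_⟩, ?_, ?_⟩
  · rw [hmz]
    funext e
    change _ = Matrix.mulVec _ (z e)
    rw [hmul]
    congr 2
    have h1 := hdec e
    have h2 := hdec (T.tau e)
    have h3 : cr (z (T.tau e)) c = -cr (z e) c := by
      rw [h.geo.anti]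
      simp only [cr, Pi.neg_apply]
      ring
    rw [h3] at h2
    have h4 : s * cr (z e) c = ∑ r ∈ R, s * cr (z r) c / 2 *
        ((iota T z c r e : ℝ) - iota T z c r (T.tau e)) := by
      have h5 : cr (z e) c = (∑ r ∈ R, iota T z c r e • cr (z r) c -
          ∑ r ∈ R, iota T z c r (T.tau e) • cr (z r) c) / 2 := by
        rw [← h1, ← h2]
        ring
      rw [h5, ← Finset.sum_sub_distrib, Finset.sum_div, Finset.mul_sum]
      refine Finset.sum_congr rfl fun r _ => ?_
      rw [zsmul_eq_mul, zsmul_eq_mul]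
      ring
    rw [h4]
    exact Finset.sum_congr rfl fun r hr => by rw [ha r hr]
  · intro hA
    have hA' : (!![1 + s * (c 0 * c 1), -(s * (c 0 * c 0)); s * (c 1 * c 1),
      1 - s * (c 0 * c 1)] : Matrix (Fin 2) (Fin 2) ℝ) = 1 := congrArg Subtype.val hA
    have h01 := congrFun (congrFun hA' 0) 1
    have h10 := congrFun (congrFun hA' 1) 0
    simp at h01 h10
    apply h.cne
    funext j
    fin_cases j
    · rcases h01 with h | h
      · exact absurd h hs
      · exact h
    · rcases h10 with h | h
      · exact absurd h hs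
      · exact h
  · change Matrix.mulVec _ c = c
    rw [hmul]
    have : cr c c = 0 := by
      simp only [cr]
      ring
    rw [this, mul_zero, zero_smul, add_zero]

end Pool.Veech
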