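import Pool.Agent.Lib.MP_fceebd_gt.D3

/-! # Row L1: Vorobets' iteration -/

set_option autoImplicit false

open scoped MatrixGroups

namespace Pool.Veech

variable {D : Type} [Fintype D] [DecidableEq D] {T T' : Tri D} {z : D → Vec}

private theorem L1a_span {J : Type} (L : J → D → ℤ)
    (hinj : ∀ f : D → ℝ, (∀ j, ∑ d, (L j d : ℝ) * f d = 0) → f = 0) :
    Submodule.span ℝ (Set.range fun (j : J) (d : D) => (L j d : ℝ)) = ⊤ := by
  by_contra hne
  obtain ⟨φ, hφ, hle⟩ := Submodule.exists_le_ker_of_lt_top _ (lt_top_iff_ne_top.2 hne)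
  apply hφ
  have h0 : (fun d => φ (fun j => if d = j then (1 : ℝ) else 0)) = 0 := by
    apply hinj
    intro j
    have h1 : φ (fun d => (L j d : ℝ)) = 0 := hle (Submodule.subset_span ⟨j, rfl⟩)
    rw [LinearMap.pi_apply_eq_sum_univ] at h1
    simpa only [smul_eq_mul] using h1
  ext1 d
  ext1
  have h2 := congrFun h0 d
  simp only [Pi.zero_apply] at h2
  simp only [LinearMap.comp_apply, LinearMap.zero_apply]
  convert h2 using 2
  ext j
  simp [LinearMap.single_apply, Pi.single_apply, eq_comm]

/-- Cramer's rule: if finitely many integral linear forms with small coefficients have no common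
real zero, then a point at which all are small is small. (Choose `card D` independent
ones.) -/
theorem small_of_forms {J : Type} (L : J → D → ℤ) (hL : ∀ j d, |L j d| ≤ 3)
    (hinj : ∀ f : D → ℝ, (∀ j, ∑ d, (L j d : ℝ) * f d = 0) → f = 0) (f : D → ℝ) {ε : ℝ}
    (hf : ∀ j, |∑ d, (L j d : ℝ) * f d| ≤ ε) (d : D) :
    |f d| ≤ ((Fintype.card D).factorial * 3 ^ Fintype.card D * Fintype.card D : ℕ) * ε := by
  obtain ⟨κ, a, -, hsp, hli⟩ := exists_linearIndependent' ℝ (fun (j : J) (d : D) => (L j d : ℝ))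
  rw [L1a_span L hinj] at hsp
  let b : Module.Basis κ ℝ (D → ℝ) := Module.Basis.mk hli hsp.ge
  let e : D ≃ κ := (Pi.basisFun ℝ D).indexEquiv b
  let M : Matrix D D ℤ := fun i k => L (a (e i)) k
  let MR : Matrix D D ℝ := M.map (Int.cast : ℤ → ℝ)
  have hrow : LinearIndependent ℝ MR.row := by
    have h1 : LinearIndependent ℝ (((fun (j : J) (d : D) => (L j d : ℝ)) ∘ a) ∘ e) :=
      hli.comp e e.injective
    exact h1
  have hunit : IsUnit MR := (Matrix.linearIndependent_rows_iff_isUnit).1 hrow
  have hdet : MR.det ≠ 0 := by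
    have := (Matrix.isUnit_iff_isUnit_det _).1 hunit
    exact this.ne_zero
  have hdetZ : MR.det = (M.det : ℝ) := by
    have := (Int.castRingHom ℝ).map_det M
    simpa [MR] using this.symm
  have hdet1 : 1 ≤ |MR.det| := by
    rw [hdetZ] at hdet ⊢
    have h2 : M.det ≠ 0 := by exact_mod_cast hdet
    have h3 : 1 ≤ |M.det| := Int.one_le_abs h2
    exact_mod_cast h3
  have hε : 0 ≤ ε := (abs_nonneg _).trans (hf (a (e d)))
  -- Cramer
  have hmul : MR.adjugate.mulVec (MR.mulVec f) = MR.det • f := by
    rw [Matrix.mulVec_mulVec, Matrix.adjugate_mul, Matrix.smul_mulVec, Matrix.one_mulVec]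
  have hadj : ∀ i j, |MR.adjugate i j| ≤ (Fintype.card D).factorial * 3 ^ Fintype.card D := by
    intro i j
    rw [Matrix.adjugate_apply]
    have h4 := Matrix.det_le (A := MR.updateRow j (Pi.single i 1)) (abv := AbsoluteValue.abs)
      (x := (3 : ℝ)) (by
        intro k l
        rw [Matrix.updateRow_apply]
        split_ifs
        · simp only [AbsoluteValue.abs_apply, Pi.single_apply]
          split_ifs <;> norm_num
        · simp only [AbsoluteValue.abs_apply, MR, Matrix.map_apply]
          exact_mod_cast hL _ _)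
    simpa [nsmul_eq_mul] using h4
  have h5 : MR.det * f d = ∑ j, MR.adjugate d j * (MR.mulVec f) j := by
    have := congrFun hmul d
    simp only [Pi.smul_apply, smul_eq_mul] at this
    rw [← this]
    rfl
  have h6 : |MR.det * f d| ≤ ∑ _j : D, ((Fintype.card D).factorial * 3 ^ Fintype.card D : ℝ) * ε := by
    rw [h5]
    refine (Finset.abs_sum_le_sum_abs _ _).trans (Finset.sum_le_sum fun j _ => ?_)
    rw [abs_mul]
    refine mul_le_mul (hadj d j) ?_ (abs_nonneg _) (by positivity)
    exact hf (a (e j))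
  rw [Finset.sum_const, Finset.card_univ, nsmul_eq_mul, abs_mul] at h6
  push_cast
  calc |f d| ≤ |MR.det| * |f d| := le_mul_of_one_le_left (abs_nonneg _) hdet1
    _ ≤ _ := h6
    _ = _ := by ring

/-- the constant of `small_of_forms` -/
def Cc (n : ℕ) : ℕ := n.factorial * 3 ^ n * n

/-- inverse thresholds: `nq ≤ area / Fc n k` is short in the step number `n - k` -/
def Fc (n : ℕ) : ℕ → ℕ
  | 0 => 2 * n * Cc n ^ 2 + 2
  | k + 1 => Fc n k ^ 2 * Lc n

/-- bound for the entries of the matrix -/
def Rc (n : ℕ) : ℕ := ∏ k ∈ Finset.range (n + 1), (2 * Lc n * Fc n k)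

end Pool.Veech
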