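import Pool.Agent.Lib.MP_fceebd_gt.L1a

/-! # Row L1: Vorobets' iteration -/

set_option autoImplicit false

open scoped MatrixGroups

namespace Pool.Veech

variable {D : Type} [Fintype D] [DecidableEq D] {T T' : Tri D} {z : D → Vec}

/-- contraction of the direction `u` by `s⁻¹` -/
private theorem L1b_shrink (u : Vec) (hu : 0 < nq u) {s : ℝ} (hs : 1 ≤ s) :
    ∃ B : SL(2, ℝ), (∀ i j, |B.1 i j| ≤ s) ∧ s ^ 2 * nq (B.1.mulVec u) = nq u ∧
      ∀ x, nq (B.1.mulVec x) ≤ s ^ 2 * nq x := by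
  have hs0 : 0 < s := by linarith
  have hN : 0 < u 0 ^ 2 + u 1 ^ 2 := by
    have : nq u = u 0 ^ 2 + u 1 ^ 2 := by simp only [nq, ip]; ring
    rwa [this] at hu
  have hinv : 0 < s⁻¹ := inv_pos.2 hs0
  have hinv1 : s⁻¹ ≤ 1 := inv_le_one_of_one_le₀ hs
  have hss : s * s⁻¹ = 1 := mul_inv_cancel₀ hs0.ne'
  set N : ℝ := u 0 ^ 2 + u 1 ^ 2 with hNdef
  have hNN : N * N⁻¹ = 1 := mul_inv_cancel₀ hN.ne'
  have hNi : 0 < N⁻¹ := inv_pos.2 hN
  let M : Matrix (Fin 2) (Fin 2) ℝ :=
    !![N⁻¹ * (u 0 ^ 2 * s⁻¹ + u 1 ^ 2 * s), N⁻¹ * (u 0 * u 1 * (s⁻¹ - s));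
      N⁻¹ * (u 0 * u 1 * (s⁻¹ - s)), N⁻¹ * (u 1 ^ 2 * s⁻¹ + u 0 ^ 2 * s)]
  have hdet : M.det = 1 := by
    simp only [M, Matrix.det_fin_two_of]
    have : (N⁻¹ * (u 0 ^ 2 * s⁻¹ + u 1 ^ 2 * s)) * (N⁻¹ * (u 1 ^ 2 * s⁻¹ + u 0 ^ 2 * s)) -
        (N⁻¹ * (u 0 * u 1 * (s⁻¹ - s))) * (N⁻¹ * (u 0 * u 1 * (s⁻¹ - s))) =
        N⁻¹ ^ 2 * ((u 0 ^ 2 + u 1 ^ 2) ^ 2) * (s * s⁻¹) := by ring
    rw [this, hss, ← hNdef]
    calc N⁻¹ ^ 2 * N ^ 2 * 1 = (N * N⁻¹) ^ 2 := by ring
      _ = 1 := by rw [hNN]; ring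
  have hv : ∀ x : Vec, M.mulVec x 0 = N⁻¹ * (s⁻¹ * ip u x * u 0 - s * cr u x * u 1) ∧
      M.mulVec x 1 = N⁻¹ * (s⁻¹ * ip u x * u 1 + s * cr u x * u 0) := by
    intro x
    constructor
    · simp only [M, Matrix.mulVec, dotProduct, Fin.sum_univ_two, Matrix.of_apply, Matrix.cons_val',
        Matrix.cons_val_zero, Matrix.cons_val_one, Matrix.cons_val_fin_one, ip, cr]
      ring
    · simp only [M, Matrix.mulVec, dotProduct, Fin.sum_univ_two, Matrix.of_apply, Matrix.cons_val',
        Matrix.cons_val_zero, Matrix.cons_val_one, Matrix.cons_val_fin_one, ip, cr]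
      ring
  have hq : ∀ x : Vec, nq (M.mulVec x) = N⁻¹ * (s⁻¹ ^ 2 * ip u x ^ 2 + s ^ 2 * cr u x ^ 2) := by
    intro x
    have h1 := hv x
    have : nq (M.mulVec x) = (M.mulVec x 0) ^ 2 + (M.mulVec x 1) ^ 2 := by
      simp only [nq, ip]; ring
    rw [this, h1.1, h1.2]
    have : (N⁻¹ * (s⁻¹ * ip u x * u 0 - s * cr u x * u 1)) ^ 2 +
        (N⁻¹ * (s⁻¹ * ip u x * u 1 + s * cr u x * u 0)) ^ 2 =
        N⁻¹ * (N⁻¹ * (u 0 ^ 2 + u 1 ^ 2)) * (s⁻¹ ^ 2 * ip u x ^ 2 + s ^ 2 * cr u x ^ 2) := by ring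
    rw [this, ← hNdef, mul_comm N⁻¹ N, hNN, mul_one]
  have hqx : ∀ x : Vec, N * nq x = ip u x ^ 2 + cr u x ^ 2 := by
    intro x
    simp only [hNdef, nq, ip, cr]
    ring
  refine ⟨⟨M, hdet⟩, ?_, ?_, ?_⟩
  · have ha : |u 0 * u 1| ≤ N / 2 := by
      rw [abs_le]
      constructor <;> nlinarith [sq_nonneg (u 0 + u 1), sq_nonneg (u 0 - u 1)]
    have hb : |s⁻¹ - s| ≤ s := by
      rw [abs_le]; constructor <;> linarith
    have hoff : |N⁻¹ * (u 0 * u 1 * (s⁻¹ - s))| ≤ s := by
      rw [abs_mul, abs_mul, abs_of_pos hNi]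
      calc N⁻¹ * (|u 0 * u 1| * |s⁻¹ - s|) ≤ N⁻¹ * (N / 2 * s) := by
            gcongr
        _ = (N * N⁻¹) * (s / 2) := by ring
        _ ≤ s := by rw [hNN]; linarith
    have hd0 : |N⁻¹ * (u 0 ^ 2 * s⁻¹ + u 1 ^ 2 * s)| ≤ s := by
      rw [abs_of_nonneg (by positivity)]
      calc N⁻¹ * (u 0 ^ 2 * s⁻¹ + u 1 ^ 2 * s) ≤ N⁻¹ * (u 0 ^ 2 * s + u 1 ^ 2 * s) := by
            gcongr; linarith
        _ = (N * N⁻¹) * s := by rw [hNdef]; ring
        _ = s := by rw [hNN, one_mul]
    have hd1 : |N⁻¹ * (u 1 ^ 2 * s⁻¹ + u 0 ^ 2 * s)| ≤ s := by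
      rw [abs_of_nonneg (by positivity)]
      calc N⁻¹ * (u 1 ^ 2 * s⁻¹ + u 0 ^ 2 * s) ≤ N⁻¹ * (u 1 ^ 2 * s + u 0 ^ 2 * s) := by
            gcongr; linarith
        _ = (N * N⁻¹) * s := by rw [hNdef]; ring
        _ = s := by rw [hNN, one_mul]
    intro i j
    fin_cases i <;> fin_cases j
    · exact hd0
    · exact hoff
    · exact hoff
    · exact hd1
  · change s ^ 2 * nq (M.mulVec u) = nq u
    have h1 : ip u u = N := by simp only [ip, hNdef]; ring
    have h2 : cr u u = 0 := by simp only [cr]; ring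
    have h3 : nq u = N := h1
    rw [hq, h1, h2, h3]
    calc s ^ 2 * (N⁻¹ * (s⁻¹ ^ 2 * N ^ 2 + s ^ 2 * 0 ^ 2)) =
        (s * s⁻¹) ^ 2 * (N * N⁻¹) * N := by ring
      _ = N := by rw [hss, hNN]; ring
  · intro x
    change nq (M.mulVec x) ≤ s ^ 2 * nq x
    rw [hq]
    have h4 : s⁻¹ ^ 2 ≤ s ^ 2 := by
      apply pow_le_pow_left₀ hinv.le; linarith
    calc N⁻¹ * (s⁻¹ ^ 2 * ip u x ^ 2 + s ^ 2 * cr u x ^ 2) ≤
        N⁻¹ * (s ^ 2 * ip u x ^ 2 + s ^ 2 * cr u x ^ 2) := by gcongr
      _ = N⁻¹ * (s ^ 2 * (ip u x ^ 2 + cr u x ^ 2)) := by ring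
      _ = (N * N⁻¹) * (s ^ 2 * nq x) := by rw [← hqx]; ring
      _ = s ^ 2 * nq x := by rw [hNN, one_mul]

/-- the cocycles on `T` whose transport vanishes on the short darts -/
private def L1bN (T : Tri D) (m : Matrix D D ℤ) (w : D → Vec) (ε : ℝ) : Submodule ℝ (D → ℝ) where
  carrier := {f | IsCoc T f ∧ IsAnti T f ∧ ∀ d, nq (w d) ≤ ε → app m f d = 0}
  zero_mem' := by
    refine ⟨⟨fun d => by simp, fun d => by simp⟩, fun d => by simp, fun d _ => ?_⟩
    rw [app_zero]; rfl
  add_mem' := by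
    rintro f g ⟨⟨hf1, hf2⟩, hf3, hf4⟩ ⟨⟨hg1, hg2⟩, hg3, hg4⟩
    refine ⟨⟨fun d => ?_, fun d => ?_⟩, fun d => ?_, fun d hd => ?_⟩
    · have h1 := hf1 d
      have h2 := hg1 d
      simp only [Pi.add_apply]
      linarith
    · simp only [Pi.add_apply, hf2, hg2]; ring
    · simp only [Pi.add_apply, hf3 d, hg3 d]; ring
    · rw [app_add, Pi.add_apply, hf4 d hd, hg4 d hd, add_zero]
  smul_mem' := by
    rintro r f ⟨⟨hf1, hf2⟩, hf3, hf4⟩
    refine ⟨⟨fun d => ?_, fun d => ?_⟩, fun d => ?_, fun d hd => ?_⟩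
    · have h1 := hf1 d
      simp only [Pi.smul_apply, smul_eq_mul]
      rw [← mul_add, ← mul_add, h1, mul_zero]
    · simp only [Pi.smul_apply, smul_eq_mul, hf2]; ring
    · simp only [Pi.smul_apply, smul_eq_mul, hf3 d]; ring
    · rw [app_smul, Pi.smul_apply, hf4 d hd, smul_zero]

private theorem L1b_Fc_pos (n k : ℕ) : 0 < Fc n k := by
  induction k with
  | zero => simp [Fc]
  | succ k ih =>
    have : 0 < Lc n := by simp [Lc]
    simp only [Fc]
    positivity

/-- the invariant of the iteration -/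
private def L1bP (T : Tri D) (z : D → Vec) (j : ℕ) : Prop :=
  ∃ A : SL(2, ℝ), ∃ (T' : Tri D) (m : Matrix D D ℤ), GPath T (lin A.1 z) T' m ∧
    NearD T' (app m (lin A.1 z)) ∧
    (∀ i l, |A.1 i l| ≤ ((∏ k ∈ Finset.Ico (Fintype.card D - j) (Fintype.card D),
      (2 * Lc (Fintype.card D) * Fc (Fintype.card D) k) : ℕ) : ℝ)) ∧
    Module.finrank ℝ (L1bN T m (app m (lin A.1 z))
      (area T z / Fc (Fintype.card D) (Fintype.card D - j))) ≤ Fintype.card D - j

private theorem L1b_prod_le (n j : ℕ) :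
    ∏ k ∈ Finset.Ico (n - j) n, (2 * Lc n * Fc n k) ≤ Rc n := by
  refine Finset.prod_le_prod_of_subset_of_one_le' ?_ ?_
  · intro k hk
    simp only [Finset.mem_Ico, Finset.mem_range] at hk ⊢
    omega
  · intro k _ _
    have h1 : 0 < Lc n := by simp [Lc]
    have h2 := L1b_Fc_pos n k
    exact Nat.succ_le_of_lt (by positivity)

private theorem L1b_zero (h : Geo T z) : L1bP T z 0 := by
  have h1 : Geo T (lin (1 : SL(2, ℝ)).1 z) := by
    rw [Matrix.SpecialLinearGroup.coe_one, lin_one]; exact h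
  obtain ⟨T', m, hd, hn⟩ := exists_nearD h1
  refine ⟨1, T', m, hd.gpath le_rfl, hn, ?_, ?_⟩
  · intro i l
    simp only [Nat.sub_zero, Finset.Ico_self, Finset.prod_empty, Nat.cast_one,
      Matrix.SpecialLinearGroup.coe_one, Matrix.one_apply]
    split_ifs <;> simp
  · refine (Submodule.finrank_le _).trans ?_
    simp

private theorem L1b_area (_h : Geo T z) {A : SL(2, ℝ)} {m : Matrix D D ℤ}
    (hp : GPath T (lin A.1 z) T' m) : area T' (app m (lin A.1 z)) = area T z := by
  rw [hp.area, area_lin, A.2, one_mul]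

private theorem L1b_step [Nonempty D] (h : Geo T z)
    (hno : ∀ A : SL(2, ℝ), (∀ i j, |A.1 i j| ≤ Rc (Fintype.card D)) → ∀ T' m,
      GPath T (lin A.1 z) T' m → NearD T' (app m (lin A.1 z)) →
      ∀ d, nq (app m (lin A.1 z) d) < (Lc (Fintype.card D) : ℝ) * area T z)
    {j : ℕ} (hj : j < Fintype.card D) (hP : L1bP T z j) : L1bP T z (j + 1) := by
  obtain ⟨A, T', m, hp, hn, hA, hN⟩ := hP
  set n := Fintype.card D with hndef
  obtain ⟨k, hk⟩ : ∃ k, n - j = k + 1 := ⟨n - j - 1, by omega⟩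
  have hk' : n - (j + 1) = k := by omega
  have hF : 0 < (Fc n k : ℝ) := by exact_mod_cast L1b_Fc_pos n k
  have hF' : 0 < (Fc n (k + 1) : ℝ) := by exact_mod_cast L1b_Fc_pos n (k + 1)
  have hL : 0 < (Lc n : ℝ) := by
    have : 0 < Lc n := by simp [Lc]
    exact_mod_cast this
  have hF1 : 1 ≤ (Fc n k : ℝ) := by exact_mod_cast L1b_Fc_pos n k
  have hL1 : 1 ≤ (Lc n : ℝ) := by
    have : 1 ≤ Lc n := by simp [Lc]
    exact_mod_cast this
  have hFs : (Fc n (k + 1) : ℝ) = (Fc n k : ℝ) ^ 2 * Lc n := by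
    simp [Fc]
  have harea := h.area_pos
  have hsmall := hno A (fun i l => (hA i l).trans (by exact_mod_cast L1b_prod_le n j)) T' m hp hn
  have hIco : Finset.Ico k n = insert k (Finset.Ico (k + 1) n) := by
    ext x; simp only [Finset.mem_Ico, Finset.mem_insert]; omega
  have hprod : ∏ l ∈ Finset.Ico k n, (2 * Lc n * Fc n l) =
      (2 * Lc n * Fc n k) * ∏ l ∈ Finset.Ico (k + 1) n, (2 * Lc n * Fc n l) := by
    rw [hIco, Finset.prod_insert (by simp)]
  rw [hk] at hA hN
  have hthr : area T z / Fc n (k + 1) ≤ area T z / Fc n k := by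
    apply div_le_div_of_nonneg_left harea.le hF
    rw [hFs]
    nlinarith [mul_pos hF hL]
  by_cases h0 : ∀ f ∈ L1bN T m (app m (lin A.1 z)) (area T z / Fc n (k + 1)), f = 0
  · refine ⟨A, T', m, hp, hn, ?_, ?_⟩
    · intro i l
      refine (hA i l).trans ?_
      rw [← hndef, hk', hprod]
      have h1 : 1 ≤ 2 * Lc n * Fc n k := by
        have h1 : 0 < Lc n := by simp [Lc]
        have h2 := L1b_Fc_pos n k
        exact Nat.succ_le_of_lt (by positivity)
      exact_mod_cast Nat.le_mul_of_pos_left _ h1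
    · have hbot : L1bN T m (app m (lin A.1 z)) (area T z / Fc n (n - (j + 1))) = ⊥ := by
        rw [eq_bot_iff]
        intro f hf
        rw [hk'] at hf
        rw [Submodule.mem_bot]
        refine h0 f ⟨hf.1, hf.2.1, fun d hd => hf.2.2 d (hd.trans hthr)⟩
      rw [← hndef, hbot, finrank_bot]
      exact Nat.zero_le _
  · push Not at h0
    obtain ⟨f0, hf0, hf0ne⟩ := h0
    obtain ⟨m', hp', hinv⟩ := hp.symm
    have hne : ∃ e, app m f0 e ≠ 0 := by
      by_contra hcon
      push Not at hcon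
      apply hf0ne
      have h1 := hinv ℝ f0 hf0.1
      have h2 : app m f0 = 0 := funext hcon
      rw [h2, app_zero] at h1
      exact h1.symm
    obtain ⟨e, he⟩ := hne
    set w := app m (lin A.1 z) with hw
    have hwe : 0 < nq (w e) := by
      have h1 := hp.geo.pos e
      have h2 : w e ≠ 0 := by
        intro h3
        rw [← hw, h3] at h1
        simp [cr] at h1
      rcases lt_or_eq_of_le (show 0 ≤ nq (w e) by simp only [nq, ip]; nlinarith [sq_nonneg (w e 0), sq_nonneg (w e 1)]) with h3 | h3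
      · exact h3
      · exfalso
        apply h2
        have h4 : w e 0 * w e 0 + w e 1 * w e 1 = 0 := h3.symm
        funext i
        fin_cases i
        · change w e 0 = 0; nlinarith [sq_nonneg (w e 0), sq_nonneg (w e 1)]
        · change w e 1 = 0; nlinarith [sq_nonneg (w e 0), sq_nonneg (w e 1)]
    set s : ℝ := Real.sqrt (Lc n * Fc n k) with hs
    have hLF1 : 1 ≤ (Lc n : ℝ) * Fc n k := one_le_mul_of_one_le_of_one_le hL1 hF1
    have hs2 : s ^ 2 = Lc n * Fc n k := Real.sq_sqrt (by positivity)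
    have hs1 : 1 ≤ s := Real.one_le_sqrt.2 hLF1
    have hsle : s ≤ Lc n * Fc n k := by
      rw [← hs2]; nlinarith
    obtain ⟨B, hB1, hB2, hB3⟩ := L1b_shrink (w e) hwe hs1
    have hgeo1 : Geo T' (lin B.1 w) := hp.geo.lin B.1 (det_pos B)
    obtain ⟨T'', m2, hD, hn2⟩ := exists_nearD hgeo1
    have hlinBA : lin B.1 (lin A.1 z) = lin (B * A).1 z := by
      rw [lin_lin, Matrix.SpecialLinearGroup.coe_mul]
    have hp1 : GPath T (lin (B * A).1 z) T' m := by
      rw [← hlinBA]; exact hp.lin B.1 (det_pos B)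
    have hw1 : app m (lin (B * A).1 z) = lin B.1 w := by
      rw [← hlinBA, app_lin]
    have hp2 : GPath T (lin (B * A).1 z) T'' (m2 * m) := by
      refine hp1.trans ?_
      rw [hw1]
      exact hD.gpath le_rfl
    have hw2 : app (m2 * m) (lin (B * A).1 z) = app m2 (lin B.1 w) := by
      rw [app_mul, hw1]
    refine ⟨B * A, T'', m2 * m, hp2, by rw [hw2]; exact hn2, ?_, ?_⟩
    · intro i l
      rw [← hndef, hk', hprod]
      have h5 : (B * A).1 i l = B.1 i 0 * A.1 0 l + B.1 i 1 * A.1 1 l := by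
        rw [Matrix.SpecialLinearGroup.coe_mul, Matrix.mul_apply, Fin.sum_univ_two]
      rw [h5]
      have h6 : ∀ c, |B.1 i c * A.1 c l| ≤ (Lc n * Fc n k) *
          ((∏ l ∈ Finset.Ico (k + 1) n, (2 * Lc n * Fc n l) : ℕ) : ℝ) := by
        intro c
        rw [abs_mul]
        exact mul_le_mul ((hB1 i c).trans hsle) (hA c l) (abs_nonneg _) (by positivity)
      refine (abs_add_le _ _).trans ((add_le_add (h6 0) (h6 1)).trans (le_of_eq ?_))
      push_cast
      ring
    · have hsub : L1bN T (m2 * m) (app (m2 * m) (lin (B * A).1 z)) (area T z / Fc n k) <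
          L1bN T m w (area T z / Fc n (k + 1)) := by
        have key : ∀ f ∈ L1bN T (m2 * m) (app (m2 * m) (lin (B * A).1 z)) (area T z / Fc n k),
            ∀ d, nq (lin B.1 w d) ≤ area T z / Fc n k → app m f d = 0 := by
          rintro f ⟨hf1, hf2, hf3⟩
          refine hD.vanish (hp.coc hf1) (fun d hd => ?_)
          rw [← app_mul]
          apply hf3
          rw [hw2]
          exact hd
        refine lt_of_le_of_ne ?_ ?_
        · intro f hf
          refine ⟨hf.1, hf.2.1, fun d hd => key f hf d ?_⟩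
          refine (hB3 (w d)).trans ?_
          rw [hs2]
          calc (Lc n : ℝ) * Fc n k * nq (w d) ≤ Lc n * Fc n k * (area T z / Fc n (k + 1)) := by
                gcongr
            _ = area T z / Fc n k := by
                rw [hFs]; field_simp
        · intro heq
          rw [← heq] at hf0
          apply he
          apply key f0 hf0
          change nq (B.1.mulVec (w e)) ≤ _
          have h7 := hsmall e
          rw [le_div_iff₀ hF]
          have h8 : (Lc n : ℝ) * (Fc n k * nq (B.1.mulVec (w e))) < Lc n * area T z := by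
            calc (Lc n : ℝ) * (Fc n k * nq (B.1.mulVec (w e))) = s ^ 2 * nq (B.1.mulVec (w e)) := by
                  rw [hs2]; ring
              _ = nq (w e) := hB2
              _ < _ := h7
          have h9 := lt_of_mul_lt_mul_left h8 hL.le
          linarith
      have hlt := Submodule.finrank_lt_finrank_of_lt hsub
      rw [← hndef, hk']
      omega

/-- the integral forms -/
private noncomputable def L1bL (T' : Tri D) (w : D → Vec) (ε : ℝ) (j : D × Fin 4) (e : D) : ℤ :=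
  open Classical in
  match j.2 with
  | 0 => (if e = j.1 then 1 else 0) + (if e = T'.nxt j.1 then 1 else 0) +
      (if e = T'.nxt (T'.nxt j.1) then 1 else 0)
  | 1 => (if e = T'.opp j.1 then 1 else 0) + (if e = j.1 then 1 else 0)
  | 2 => (if e = T'.tau j.1 then 1 else 0) + (if e = j.1 then 1 else 0)
  | 3 => if nq (w j.1) ≤ ε ∧ e = j.1 then 1 else 0

private theorem L1bL_0 (T' : Tri D) (w : D → Vec) (ε : ℝ) (d : D) (f : D → ℝ) :
    ∑ e, (L1bL T' w ε (d, 0) e : ℝ) * f e = f d + f (T'.nxt d) + f (T'.nxt (T'.nxt d)) := by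
  classical
  simp [L1bL, add_mul, Finset.sum_add_distrib]

private theorem L1bL_1 (T' : Tri D) (w : D → Vec) (ε : ℝ) (d : D) (f : D → ℝ) :
    ∑ e, (L1bL T' w ε (d, 1) e : ℝ) * f e = f (T'.opp d) + f d := by
  classical
  simp [L1bL, add_mul, Finset.sum_add_distrib]

private theorem L1bL_2 (T' : Tri D) (w : D → Vec) (ε : ℝ) (d : D) (f : D → ℝ) :
    ∑ e, (L1bL T' w ε (d, 2) e : ℝ) * f e = f (T'.tau d) + f d := by
  classical
  simp [L1bL, add_mul, Finset.sum_add_distrib]

private theorem L1bL_3 (T' : Tri D) (w : D → Vec) (ε : ℝ) (d : D) (f : D → ℝ) :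
    ∑ e, (L1bL T' w ε (d, 3) e : ℝ) * f e = if nq (w d) ≤ ε then f d else 0 := by
  classical
  by_cases h : nq (w d) ≤ ε <;> simp [L1bL, h]

private theorem L1bL_le (T' : Tri D) (w : D → Vec) (ε : ℝ) (j : D × Fin 4) (e : D) :
    |L1bL T' w ε j e| ≤ 3 := by
  classical
  obtain ⟨d, i⟩ := j
  fin_cases i <;> simp only [L1bL] <;> split_ifs <;> simp

private theorem L1b_end [Nonempty D] (h : Geo T z) (hP : L1bP T z (Fintype.card D)) : False := by
  obtain ⟨A, T', m, hp, hn, hA, hN⟩ := hP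
  set n := Fintype.card D with hndef
  rw [Nat.sub_self] at hN
  set w := app m (lin A.1 z) with hw
  have hN0 : L1bN T m w (area T z / Fc n 0) = ⊥ := by
    rw [← Submodule.finrank_eq_zero (R := ℝ)]
    omega
  have harea := h.area_pos
  have hF0 : (Fc n 0 : ℝ) = 2 * n * Cc n ^ 2 + 2 := by simp [Fc]
  have hFpos : 0 < (Fc n 0 : ℝ) := by exact_mod_cast L1b_Fc_pos n 0
  obtain ⟨m', hp', h1, h2⟩ := hp.symm'
  have hker : ∀ f : D → ℝ, (∀ j, ∑ d, (L1bL T' w (area T z / Fc n 0) j d : ℝ) * f d = 0) →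
      f = 0 := by
    intro f hf
    have hcoc : IsCoc T' f := by
      constructor
      · intro d
        have := hf (d, 0)
        rwa [L1bL_0] at this
      · intro d
        have := hf (d, 1)
        rw [L1bL_1] at this
        linarith
    have hanti : IsAnti T' f := by
      intro d
      have := hf (d, 2)
      rw [L1bL_2] at this
      linarith
    have hshort : ∀ d, nq (w d) ≤ area T z / Fc n 0 → f d = 0 := by
      intro d hd
      have := hf (d, 3)
      rwa [L1bL_3, if_pos hd] at this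
    have h3 : app m (app m' f) = f := h2 ℝ f hcoc
    have h4 : app m' f ∈ L1bN T m w (area T z / Fc n 0) := by
      refine ⟨hp'.coc hcoc, hp'.anti hanti, fun d hd => ?_⟩
      rw [h3]
      exact hshort d hd
    rw [hN0, Submodule.mem_bot] at h4
    rw [← h3, h4, app_zero]
  set ε : ℝ := Real.sqrt (area T z / Fc n 0) with hε
  have hε2 : ε ^ 2 = area T z / Fc n 0 := Real.sq_sqrt (by positivity)
  have hε0 : 0 ≤ ε := Real.sqrt_nonneg _
  have hgeo : Geo T' w := hp.geo
  have hbd : ∀ i d, |w d i| ≤ Cc n * ε := by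
    intro i
    have h5 := small_of_forms (L1bL T' w (area T z / Fc n 0)) (L1bL_le T' w _) hker
      (fun d => w d i) (ε := ε) ?_
    · intro d
      exact h5 d
    · rintro ⟨d, l⟩
      fin_cases l
      · change |∑ e, (L1bL T' w (area T z / Fc n 0) (d, 0) e : ℝ) * w e i| ≤ ε
        rw [L1bL_0 T' w _ d (fun e => w e i)]
        have h6 := congrFun (hgeo.coc.closed d) i
        simp only [Pi.add_apply, Pi.zero_apply] at h6
        rw [h6, abs_zero]
        exact hε0
      · change |∑ e, (L1bL T' w (area T z / Fc n 0) (d, 1) e : ℝ) * w e i| ≤ ε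
        rw [L1bL_1 T' w _ d (fun e => w e i)]
        have h6 := congrFun (hgeo.coc.glue d) i
        simp only [Pi.neg_apply] at h6
        rw [h6, neg_add_cancel, abs_zero]
        exact hε0
      · change |∑ e, (L1bL T' w (area T z / Fc n 0) (d, 2) e : ℝ) * w e i| ≤ ε
        rw [L1bL_2 T' w _ d (fun e => w e i)]
        have h6 := congrFun (hgeo.anti d) i
        simp only [Pi.neg_apply] at h6
        rw [h6, neg_add_cancel, abs_zero]
        exact hε0
      · change |∑ e, (L1bL T' w (area T z / Fc n 0) (d, 3) e : ℝ) * w e i| ≤ ε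
        rw [L1bL_3 T' w _ d (fun e => w e i)]
        split_ifs with hd
        · apply Real.abs_le_sqrt
          refine le_trans ?_ hd
          simp only [nq, ip]
          fin_cases i
          · change w d 0 ^ 2 ≤ _; nlinarith [sq_nonneg (w d 1)]
          · change w d 1 ^ 2 ≤ _; nlinarith [sq_nonneg (w d 0)]
        · rw [abs_zero]; exact hε0
  have hcr : ∀ d, cr (w d) (w (T'.nxt d)) ≤ 2 * (Cc n * ε) ^ 2 := by
    intro d
    have h7 : w d 0 * w (T'.nxt d) 1 ≤ (Cc n * ε) ^ 2 := by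
      calc w d 0 * w (T'.nxt d) 1 ≤ |w d 0 * w (T'.nxt d) 1| := le_abs_self _
        _ = |w d 0| * |w (T'.nxt d) 1| := abs_mul _ _
        _ ≤ (Cc n * ε) * (Cc n * ε) :=
            mul_le_mul (hbd 0 d) (hbd 1 _) (abs_nonneg _) (by positivity)
        _ = _ := by ring
    have h8 : -(w d 1 * w (T'.nxt d) 0) ≤ (Cc n * ε) ^ 2 := by
      calc -(w d 1 * w (T'.nxt d) 0) ≤ |w d 1 * w (T'.nxt d) 0| := neg_le_abs _
        _ = |w d 1| * |w (T'.nxt d) 0| := abs_mul _ _
        _ ≤ (Cc n * ε) * (Cc n * ε) :=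
            mul_le_mul (hbd 1 d) (hbd 0 _) (abs_nonneg _) (by positivity)
        _ = _ := by ring
    simp only [cr]
    linarith
  have hA1 : area T z ≤ n * (2 * (Cc n * ε) ^ 2) := by
    rw [← L1b_area h hp]
    simp only [area]
    calc ∑ d, cr (w d) (w (T'.nxt d)) ≤ ∑ _d : D, 2 * (Cc n * ε) ^ 2 :=
          Finset.sum_le_sum fun d _ => hcr d
      _ = _ := by rw [Finset.sum_const, Finset.card_univ, nsmul_eq_mul]
  have hA2 : (n : ℝ) * (2 * (Cc n * ε) ^ 2) < area T z := by
    have h9 : (n : ℝ) * (2 * (Cc n * ε) ^ 2) = (2 * n * Cc n ^ 2) * (area T z / Fc n 0) := by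
      rw [mul_pow, hε2]; ring
    rw [h9, ← mul_div_assoc, div_lt_iff₀ hFpos, hF0]
    nlinarith
  linarith

/-- Proof. Suppose that no almost Delaunay triangulation of `A z`, for `A` with small entries, has a
dart with `nq ≥ Lc n area`. Start with an almost Delaunay triangulation of `z`. In step `j` we
have `A_j` and an almost Delaunay triangulation `T_j` of `A_j z`; let `N_j` be the space of the
anti-invariant real cocycles on `T` whose transport to `T_j` vanishes on all darts with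
`nq ≤ area / Fc n (n - j)`. If `N_j ≠ 0` then there is a dart `e` of `T_j` on which some element of `N_j`
does not vanish; contract `e` by the factor `s⁻¹`, `s² = Lc n * Fc n (n - j - 1)` (and expand the
orthogonal direction by `s`); then `e` and the darts which were short are now short for the next
threshold; take an almost Delaunay triangulation by descending flips (`exists_nearD`); by
`Desc.vanish`, `N_{j+1} ⊆ N_j` and its elements vanish on `e`. So the dimension decreases, and `N_j = 0`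
for some `j ≤ n`. Then by `small_of_forms` (the forms are the cocycle equations, the
anti-invariance equations and the short darts) all darts are short, which contradicts
`area = ∑ cr`. -/
theorem exists_long [Nonempty D] (h : Geo T z) :
    ∃ A : SL(2, ℝ), (∀ i j, |A.1 i j| ≤ Rc (Fintype.card D)) ∧ ∃ T' m,
      GPath T (lin A.1 z) T' m ∧ NearD T' (app m (lin A.1 z)) ∧
      ∃ d, (Lc (Fintype.card D) : ℝ) * area T z ≤ nq (app m (lin A.1 z) d) := by
  by_contra hcon
  push Not at hcon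
  have hall : ∀ j ≤ Fintype.card D, L1bP T z j := by
    intro j
    induction j with
    | zero => intro _; exact L1b_zero h
    | succ j ih => intro hj; exact L1b_step h hcon hj (ih (by omega))
  exact L1b_end h (hall _ le_rfl)

end Pool.Veech
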