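import Pool.Agent.Lib.MP_fceebd_gt.A3c

/-! # Definitions: labelled flip paths -/

set_option autoImplicit false

open scoped MatrixGroups

namespace Pool.Veech

variable {G : Type} [Group G] {D : Type}

/-- the same surface with other names of the darts -/
def Surf.relabP (S : Surf G D) (e : Equiv.Perm D) : Surf G D where
  nxt := (S.tri.relab e).nxt
  opp := (S.tri.relab e).opp
  tau := (S.tri.relab e).tau
  z d := S.z (e.symm d)
  lab d := S.lab (e.symm d)
  nxt3 := (S.tri.relab e).nxt3
  opp2 := (S.tri.relab e).opp2
  tau2 := (S.tri.relab e).tau2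
  tau_nxt := (S.tri.relab e).tau_nxt
  tau_opp := (S.tri.relab e).tau_opp
  opp_ne := (S.tri.relab e).opp_ne
  closed d := by
    have := S.closed (e.symm d)
    simpa [Tri.relab, Surf.tri] using this
  glue d := by
    have := S.glue (e.symm d)
    simpa [Tri.relab, Surf.tri] using this
  anti d := by
    have := S.anti (e.symm d)
    simpa [Tri.relab, Surf.tri] using this
  pos d := by
    have := S.pos (e.symm d)
    simpa [Tri.relab, Surf.tri] using this
  lab_closed d := by
    have := S.lab_closed (e.symm d)
    simpa [Tri.relab, Surf.tri] using this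
  lab_opp d := by
    have := S.lab_opp (e.symm d)
    simpa [Tri.relab, Surf.tri] using this
  lab_tau d := by
    have := S.lab_tau (e.symm d)
    simpa [Tri.relab, Surf.tri] using this

/-- the same labelled triangulation with other holonomies -/
def Surf.withZ (S : Surf G D) (z : D → Vec) (h : Geo S.tri z) : Surf G D where
  nxt := S.nxt
  opp := S.opp
  tau := S.tau
  z := z
  lab := S.lab
  nxt3 := S.nxt3
  opp2 := S.opp2
  tau2 := S.tau2
  tau_nxt := S.tau_nxt
  tau_opp := S.tau_opp
  opp_ne := S.opp_ne
  closed := h.coc.closed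
  glue := h.coc.glue
  anti := h.anti
  pos := h.pos
  lab_closed := S.lab_closed
  lab_opp := S.lab_opp
  lab_tau := S.lab_tau

theorem Surf.geo (S : Surf G D) : Geo S.tri S.z := ⟨⟨S.closed, S.glue⟩, S.anti, S.pos⟩

/-- Labelled flip paths. -/
inductive LPath [Fintype D] [DecidableEq D] (S : Surf G D) : Surf G D → Matrix D D ℤ → Prop
  | refl : LPath S S 1
  | flip {S' S'' : Surf G D} {m : Matrix D D ℤ} {a : D} (h : LPath S S' m)
      (hf : IsFlip S' S'' a) : LPath S S'' (S'.tri.flipM a * m)
  | relabel {S' : Surf G D} {m : Matrix D D ℤ} (e : Equiv.Perm D) (h : LPath S S' m) :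
      LPath S (S'.relabP e) (permM e * m)
  | gauge {S' S'' : Surf G D} {m : Matrix D D ℤ} (c : D → G) (h : LPath S S' m)
      (hg : IsGauge S' S'' c) : LPath S S'' m

/-- `l` is a labelling of the darts by elements of a group which is trivial on the triangles. -/
structure IsLab {H : Type} [Group H] (T : Tri D) (l : D → H) : Prop where
  closed : ∀ d, l d * l (T.nxt d) * l (T.nxt (T.nxt d)) = 1
  opp : ∀ d, l (T.opp d) = (l d)⁻¹
  tau : ∀ d, l (T.tau d) = l d

/-- `c` is a function on the vertices (of the quotient by the deck transformation). -/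
def IsVert {H : Type} (T : Tri D) (c : D → H) : Prop :=
  (∀ d, c (T.opp (T.nxt (T.nxt d))) = c d) ∧ ∀ d, c (T.tau d) = c d

/-- The universal property of a marking: each labelling is induced by a homomorphism, up to a
change of base points, and the homomorphism is unique up to conjugation. -/
def UP (T : Tri D) (lab : D → G) : Prop :=
  (∀ (H : Type) [Group H] (l : D → H), IsLab T l →
    ∃ (φ : G →* H) (c : D → H), IsVert T c ∧ ∀ d, l d = c d * φ (lab d) * (c (T.nxt d))⁻¹) ∧
  ∀ (H : Type) [Group H] (φ ψ : G →* H) (c : D → H), IsVert T c →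
    (∀ d, φ (lab d) = c d * ψ (lab d) * (c (T.nxt d))⁻¹) → ∃ h : H, ∀ x, φ x = h * ψ x * h⁻¹

end Pool.Veech
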