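import Pool.Agent.Lib.MP_fceebd_gt.LP0

/-! # Row LP1a: flips of labelled surfaces and of triangulations -/

set_option autoImplicit false

namespace Pool.Veech

variable {G : Type} [Group G] {D : Type} [DecidableEq D] {S S' : Surf G D} {a : D}

theorem Surf.isLab (S : Surf G D) : IsLab S.tri S.lab := ⟨S.lab_closed, S.lab_opp, S.lab_tau⟩

namespace LP1ax

omit [DecidableEq D] in
theorem diag_opp (T : Tri D) {a d : D} (h : T.Diag a d) : T.Diag a (T.opp d) := by
  rcases h with rfl | rfl | rfl | rfl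
  · exact Or.inr (Or.inl rfl)
  · exact Or.inl (T.opp2 _)
  · exact Or.inr (Or.inr (Or.inr (T.tau_opp _).symm))
  · refine Or.inr (Or.inr (Or.inl ?_))
    rw [← T.tau_opp, T.opp2]

omit [DecidableEq D] in
theorem diag_tau (T : Tri D) {a d : D} (h : T.Diag a d) : T.Diag a (T.tau d) := by
  rcases h with rfl | rfl | rfl | rfl
  · exact Or.inr (Or.inr (Or.inl rfl))
  · exact Or.inr (Or.inr (Or.inr rfl))
  · exact Or.inl (T.tau2 _)
  · exact Or.inr (Or.inl (T.tau2 _))

omit [DecidableEq D] in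
theorem diag_opp_iff (T : Tri D) {a d : D} : T.Diag a (T.opp d) ↔ T.Diag a d :=
  ⟨fun h => by simpa [T.opp2] using diag_opp T h, diag_opp T⟩

omit [DecidableEq D] in
theorem diag_tau_iff (T : Tri D) {a d : D} : T.Diag a (T.tau d) ↔ T.Diag a d :=
  ⟨fun h => by simpa [T.tau2] using diag_tau T h, diag_tau T⟩

omit [DecidableEq D] in
theorem near_iff' (T : Tri D) {a d : D} :
    T.Near a d ↔ ∃ b, T.Diag a b ∧ (d = b ∨ d = T.nxt b ∨ d = T.nxt (T.nxt b)) := by
  constructor
  · rintro ⟨b, hb, h⟩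
    exact ⟨b, hb, h⟩
  · rintro ⟨b, hb, h⟩
    exact ⟨b, hb, h⟩

omit [DecidableEq D] in
theorem near_nxt (T : Tri D) {a d : D} (h : T.Near a (T.nxt d)) : T.Near a d := by
  rw [near_iff'] at h ⊢
  obtain ⟨b, hb, h⟩ := h
  refine ⟨b, hb, ?_⟩
  rcases h with h | h | h
  · right; right
    rw [← h, T.nxt3]
  · left
    exact T.nxt.injective h
  · right; left
    exact T.nxt.injective h

omit [DecidableEq D] in
theorem near_of_diag (T : Tri D) {a d : D} (h : T.Diag a d) : T.Near a d :=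
  (near_iff' T).2 ⟨d, h, Or.inl rfl⟩

theorem grp {H : Type} [Group H] {x u v p q : H} (c1 : x * u * v = 1) (c2 : x⁻¹ * p * q = 1) :
    (q * u)⁻¹ = v * p := by
  have hx : x = v⁻¹ * u⁻¹ := by
    rw [← mul_inv_rev]
    rw [mul_assoc] at c1
    exact eq_inv_of_mul_eq_one_left c1
  have hq : q = p⁻¹ * x := by
    have h := eq_inv_of_mul_eq_one_right c2
    rw [h]
    group
  rw [hq, hx]
  group

end LP1ax

open LP1ax

/-- (the conditions at `tau a` follow from those at `a` by `tau_nxt`) -/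
theorem IsFlip.tri (h : IsFlip S S' a) : S.tri.IsFlip S'.tri a := by
  have ht : ∀ d, S'.nxt (S.tau d) = S.tau (S'.nxt d) := by
    intro d
    rw [← h.tau]
    exact (S'.tau_nxt d).symm
  refine ⟨h.opp, h.tau, ?_, ?_, ?_, ?_⟩
  · rintro b (rfl | rfl | rfl | rfl)
    · exact h.nxt1
    · exact h.nxt4
    · change S'.nxt (S.tau _) = S.nxt (S.nxt (S.tau _))
      rw [ht, h.nxt1, S.tau_nxt, S.tau_nxt]
    · change S'.nxt (S.tau (S.opp _)) = S.nxt (S.nxt (S.tau (S.opp _)))
      rw [ht, h.nxt4, S.tau_nxt, S.tau_nxt]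
  · rintro b (rfl | rfl | rfl | rfl)
    · exact h.nxt2
    · change S'.nxt (S.nxt (S.nxt (S.opp _))) = S.nxt (S.opp (S.opp _))
      rw [h.nxt5, S.opp2]
    · change S'.nxt (S.nxt (S.nxt (S.tau _))) = S.nxt (S.opp (S.tau _))
      rw [← S.tau_nxt, ← S.tau_nxt, ht, h.nxt2, S.tau_nxt, S.tau_opp]
    · change S'.nxt (S.nxt (S.nxt (S.tau (S.opp _)))) = S.nxt (S.opp (S.tau (S.opp _)))
      rw [← S.tau_nxt, ← S.tau_nxt, ht, h.nxt5, S.tau_nxt, ← S.tau_opp, S.opp2]
  · rintro b (rfl | rfl | rfl | rfl)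
    · exact h.nxt6
    · change S'.nxt (S.nxt (S.opp _)) = S.opp (S.opp _)
      rw [h.nxt3, S.opp2]
    · change S'.nxt (S.nxt (S.tau _)) = S.opp (S.tau _)
      rw [← S.tau_nxt, ht, h.nxt6, S.tau_opp]
    · change S'.nxt (S.nxt (S.tau (S.opp _))) = S.opp (S.tau (S.opp _))
      rw [← S.tau_nxt, ht, h.nxt3, ← S.tau_opp, S.opp2]
  · intro d hd
    rw [near_iff'] at hd
    push Not at hd
    have e1 : ∀ b c, S.tau d = c → S.tau c = b → d = b := by
      intro b c h1 h2
      rw [← h2, ← h1, S.tau2]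
    refine h.rest d ?_ ?_ ?_ ?_
    · have h1 := hd a (Or.inl rfl)
      simp only [Set.mem_insert_iff, Set.mem_singleton_iff, not_or]
      exact h1
    · have h1 := hd (S.opp a) (Or.inr (Or.inl rfl))
      simp only [Set.mem_insert_iff, Set.mem_singleton_iff, not_or]
      exact h1
    · have h1 := hd (S.tau a) (Or.inr (Or.inr (Or.inl rfl)))
      simp only [Set.mem_insert_iff, Set.mem_singleton_iff, not_or]
      refine ⟨fun h2 => h1.1 (e1 _ _ h2 rfl), fun h2 => h1.2.1 (e1 _ _ h2 ?_),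
        fun h2 => h1.2.2 (e1 _ _ h2 ?_)⟩
      · exact S.tau_nxt a
      · change S.tau (S.nxt (S.nxt a)) = S.nxt (S.nxt (S.tau a))
        rw [S.tau_nxt, S.tau_nxt]
    · have h1 := hd (S.tau (S.opp a)) (Or.inr (Or.inr (Or.inr rfl)))
      simp only [Set.mem_insert_iff, Set.mem_singleton_iff, not_or]
      refine ⟨fun h2 => h1.1 (e1 _ _ h2 rfl), fun h2 => h1.2.1 (e1 _ _ h2 ?_),
        fun h2 => h1.2.2 (e1 _ _ h2 ?_)⟩
      · exact S.tau_nxt (S.opp a)
      · change S.tau (S.nxt (S.nxt (S.opp a))) = S.nxt (S.nxt (S.tau (S.opp a)))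
        rw [S.tau_nxt, S.tau_nxt]

theorem IsFlip.z_eq (h : IsFlip S S' a) : S'.z = S.tri.flipF a S.z := by
  have hz : ∀ d, ¬ S.tri.Diag a d → S'.z d = S.z d := fun d hd => h.z d hd
  funext d
  unfold Tri.flipF
  by_cases hd : S.tri.Diag a d
  · rw [if_pos hd]
    have h1 := S'.closed d
    have e1 : S'.nxt d = S.nxt (S.nxt d) := h.tri.nxt1 d hd
    have e2 : S'.nxt (S.nxt (S.nxt d)) = S.nxt (S.opp d) := h.tri.nxt2 d hd
    have n1 := hz _ (Geo.not_diag_nxt S.geo hd).2
    have n2 := hz _ (Geo.not_diag_nxt S.geo (diag_opp S.tri hd)).1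
    change S'.z (S.nxt (S.nxt d)) = S.z (S.nxt (S.nxt d)) at n1
    change S'.z (S.nxt (S.opp d)) = S.z (S.nxt (S.opp d)) at n2
    rw [e1, e2, n1, n2] at h1
    change S'.z d = -S.z (S.nxt (S.nxt d)) - S.z (S.nxt (S.opp d))
    rw [← sub_eq_zero, ← h1]
    abel
  · rw [if_neg hd]
    exact hz d hd

theorem IsFlip.lab_eq (h : IsFlip S S' a) (d : D) :
    S'.lab d = if S.tri.Diag a d then (S.lab (S.nxt (S.nxt d)) * S.lab (S.nxt (S.opp d)))⁻¹
      else S.lab d := by
  have hz : ∀ d, ¬ S.tri.Diag a d → S'.lab d = S.lab d := fun d hd => h.lab d hd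
  by_cases hd : S.tri.Diag a d
  · rw [if_pos hd]
    have h1 := S'.lab_closed d
    have e1 : S'.nxt d = S.nxt (S.nxt d) := h.tri.nxt1 d hd
    have e2 : S'.nxt (S.nxt (S.nxt d)) = S.nxt (S.opp d) := h.tri.nxt2 d hd
    have n1 := hz _ (Geo.not_diag_nxt S.geo hd).2
    have n2 := hz _ (Geo.not_diag_nxt S.geo (diag_opp S.tri hd)).1
    change S'.lab (S.nxt (S.nxt d)) = S.lab (S.nxt (S.nxt d)) at n1
    change S'.lab (S.nxt (S.opp d)) = S.lab (S.nxt (S.opp d)) at n2
    rw [e1, e2, n1, n2, mul_assoc] at h1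
    exact eq_inv_of_mul_eq_one_left h1
  · rw [if_neg hd]
    exact hz d hd

/-- flips of triangulations lift to flips of labelled surfaces -/
theorem exists_isFlip {T' : Tri D} (S : Surf G D) (hf : S.tri.IsFlip T' a)
    (hg : Geo T' (S.tri.flipF a S.z)) : ∃ S', IsFlip S S' a ∧ S'.tri = T' ∧
      S'.z = S.tri.flipF a S.z := by
  let lab' : D → G := fun d =>
    if S.tri.Diag a d then (S.lab (S.nxt (S.nxt d)) * S.lab (S.nxt (S.opp d)))⁻¹ else S.lab d
  have hpos : ∀ d, S.tri.Diag a d →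
      lab' d = (S.lab (S.nxt (S.nxt d)) * S.lab (S.nxt (S.opp d)))⁻¹ := fun d hd => if_pos hd
  have hneg : ∀ d, ¬ S.tri.Diag a d → lab' d = S.lab d := fun d hd => if_neg hd
  have hopp : ∀ d, T'.opp d = S.opp d := fun d => by rw [hf.opp]; rfl
  have htau : ∀ d, T'.tau d = S.tau d := fun d => by rw [hf.tau]; rfl
  have k1 : ∀ b, S.tri.Diag a b → T'.nxt b = S.nxt (S.nxt b) := hf.nxt1
  have k2 : ∀ b, S.tri.Diag a b → T'.nxt (S.nxt (S.nxt b)) = S.nxt (S.opp b) := hf.nxt2
  have k3 : ∀ b, S.tri.Diag a b → T'.nxt (S.nxt b) = S.opp b := hf.nxt3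
  have hnn : ∀ b, S.tri.Diag a b → lab' (S.nxt (S.nxt b)) = S.lab (S.nxt (S.nxt b)) :=
    fun b hb => hneg _ (Geo.not_diag_nxt S.geo hb).2
  have hn : ∀ b, S.tri.Diag a b → lab' (S.nxt b) = S.lab (S.nxt b) :=
    fun b hb => hneg _ (Geo.not_diag_nxt S.geo hb).1
  have hclosed : ∀ d, lab' d * lab' (T'.nxt d) * lab' (T'.nxt (T'.nxt d)) = 1 := by
    intro d
    by_cases hd : S.tri.Near a d
    · rw [near_iff'] at hd
      obtain ⟨b, hb, h⟩ := hd
      have hob : S.tri.Diag a (S.opp b) := diag_opp S.tri hb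
      rcases h with rfl | rfl | rfl
      · rw [k1 _ hb, k2 _ hb, hpos _ hb, hnn _ hb, hn _ hob]
        group
      · change lab' (S.nxt b) * lab' (T'.nxt (S.nxt b)) * lab' (T'.nxt (T'.nxt (S.nxt b))) = 1
        rw [k3 _ hb, k1 _ hob, hn _ hb, hpos _ hob, hnn _ hob, S.opp2]
        group
      · change lab' (S.nxt (S.nxt b)) * lab' (T'.nxt (S.nxt (S.nxt b))) *
          lab' (T'.nxt (T'.nxt (S.nxt (S.nxt b)))) = 1
        rw [k2 _ hb, k3 _ hob, S.opp2, hnn _ hb, hn _ hob, hpos _ hb]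
        group
    · have h1 : T'.nxt d = S.nxt d := hf.rest d hd
      have hd1 : ¬ S.tri.Near a (S.nxt d) := fun h => hd (near_nxt S.tri h)
      have h2 : T'.nxt (S.nxt d) = S.nxt (S.nxt d) := hf.rest _ hd1
      have hd2 : ¬ S.tri.Near a (S.nxt (S.nxt d)) := fun h => hd1 (near_nxt S.tri h)
      rw [h1, h2, hneg _ fun h => hd (near_of_diag S.tri h),
        hneg _ fun h => hd1 (near_of_diag S.tri h), hneg _ fun h => hd2 (near_of_diag S.tri h)]
      exact S.lab_closed d
  have hlopp : ∀ d, lab' (T'.opp d) = (lab' d)⁻¹ := by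
    intro d
    rw [hopp]
    by_cases hd : S.tri.Diag a d
    · have hd' : S.tri.Diag a (S.opp d) := diag_opp S.tri hd
      rw [hpos _ hd, hpos _ hd', S.opp2, inv_inv]
      have c1 := S.lab_closed d
      have c2 := S.lab_closed (S.opp d)
      rw [S.lab_opp] at c2
      exact grp c1 c2
    · have hd' : ¬ S.tri.Diag a (S.opp d) := fun h => hd ((diag_opp_iff S.tri).1 h)
      rw [hneg _ hd, hneg _ hd']
      exact S.lab_opp d
  have hltau : ∀ d, lab' (T'.tau d) = lab' d := by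
    intro d
    rw [htau]
    by_cases hd : S.tri.Diag a d
    · have hd' : S.tri.Diag a (S.tau d) := diag_tau S.tri hd
      rw [hpos _ hd, hpos _ hd', ← S.tau_opp, ← S.tau_nxt, ← S.tau_nxt,
        ← S.tau_nxt, S.lab_tau, S.lab_tau]
    · have hd' : ¬ S.tri.Diag a (S.tau d) := fun h => hd ((diag_tau_iff S.tri).1 h)
      rw [hneg _ hd, hneg _ hd']
      exact S.lab_tau d
  refine ⟨{ nxt := T'.nxt, opp := T'.opp, tau := T'.tau, z := S.tri.flipF a S.z, lab := lab',
            nxt3 := T'.nxt3, opp2 := T'.opp2, tau2 := T'.tau2, tau_nxt := T'.tau_nxt,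
            tau_opp := T'.tau_opp, opp_ne := T'.opp_ne, closed := hg.coc.closed,
            glue := hg.coc.glue, anti := hg.anti, pos := hg.pos, lab_closed := hclosed,
            lab_opp := hlopp, lab_tau := hltau }, ?_, rfl, rfl⟩
  have da : S.tri.Diag a a := Or.inl rfl
  have doa : S.tri.Diag a (S.opp a) := Or.inr (Or.inl rfl)
  refine ⟨hf.opp, hf.tau, k1 a da, k2 a da, ?_, k1 _ doa, ?_, k3 a da, ?_, ?_, ?_⟩
  · change T'.nxt (S.nxt (S.opp a)) = a
    rw [k3 _ doa, S.opp2]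
  · change T'.nxt (S.nxt (S.nxt (S.opp a))) = S.nxt a
    rw [k2 _ doa, S.opp2]
  · intro d h1 h2 h3 h4
    refine hf.rest d fun hn => ?_
    rw [near_iff'] at hn
    obtain ⟨b, hb, h⟩ := hn
    rcases hb with rfl | rfl | rfl | rfl
    · exact h1 h
    · exact h2 h
    · apply h3
      rcases h with rfl | rfl | rfl
      · left
        exact S.tau2 _
      · right; left
        change S.tau (S.nxt (S.tau _)) = S.nxt _
        rw [S.tau_nxt, S.tau2]
      · right; right
        change S.tau (S.nxt (S.nxt (S.tau _))) = S.nxt (S.nxt _)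
        rw [S.tau_nxt, S.tau_nxt, S.tau2]
    · apply h4
      rcases h with rfl | rfl | rfl
      · left
        exact S.tau2 _
      · right; left
        change S.tau (S.nxt (S.tau (S.opp _))) = S.nxt (S.opp _)
        rw [S.tau_nxt, S.tau2]
      · right; right
        change S.tau (S.nxt (S.nxt (S.tau (S.opp _)))) = S.nxt (S.nxt (S.opp _))
        rw [S.tau_nxt, S.tau_nxt, S.tau2]
  · intro d hd
    exact if_neg hd
  · intro d hd
    exact if_neg hd

namespace LP1ax

omit [DecidableEq D] in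
theorem path_congr (hn : S.nxt = S'.nxt) (ho : S.opp = S'.opp) (ht : S.tau = S'.tau) {x y : D}
    {p : List D} (h : S.IsPath x p y) : S'.IsPath x p y := by
  have hs : ∀ u v, S.SameOrigin u v → S'.SameOrigin u v := by
    intro u v huv
    unfold Surf.SameOrigin Surf.turn at huv ⊢
    rw [← hn, ← ho, ← ht]
    exact huv
  induction h with
  | nil h => exact .nil (hs _ _ h)
  | cons h _ ih =>
    rw [hn] at ih
    exact .cons (hs _ _ h) ih

omit [DecidableEq D] in
theorem move_congr (hn : S.nxt = S'.nxt) (ho : S.opp = S'.opp) (ht : S.tau = S'.tau)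
    {p q : List D} (h : S.Move p q) : S'.Move p q := by
  cases h with
  | back p q d => rw [ho]; exact .back p q d
  | tri p q d => rw [hn]; exact .tri p q d
  | tau p q d => rw [ht]; exact .tau p q d

end LP1ax

/-- the property depends only on the triangulation and the labels (the inductive predicates
`IsPath`, `Move` do not depend on `z`) -/
theorem Surf.IsMarking.congr (h : S.IsMarking) (ht : S.tri = S'.tri) (hl : S.lab = S'.lab) :
    S'.IsMarking := by
  have hn : S.nxt = S'.nxt := congrArg Tri.nxt ht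
  have ho : S.opp = S'.opp := congrArg Tri.opp ht
  have ht' : S.tau = S'.tau := congrArg Tri.tau ht
  intro x
  obtain ⟨h1, h2⟩ := h x
  refine ⟨fun g => ?_, fun p hp hp1 => ?_⟩
  · obtain ⟨p, hp, hp1⟩ := h1 g
    exact ⟨p, path_congr hn ho ht' hp, by rw [← hl]; exact hp1⟩
  · have h3 := h2 p (path_congr hn.symm ho.symm ht'.symm hp) (by rw [hl]; exact hp1)
    exact Relation.EqvGen.mono (fun u v huv => ⟨path_congr hn ho ht' huv.1,
      path_congr hn ho ht' huv.2.1, move_congr hn ho ht' huv.2.2⟩) _ _ h3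

theorem Surf.Connected.congr (h : S.Connected) (ht : S.tri = S'.tri) : S'.Connected := by
  have hn : S.nxt = S'.nxt := congrArg Tri.nxt ht
  have ho : S.opp = S'.opp := congrArg Tri.opp ht
  have ht' : S.tau = S'.tau := congrArg Tri.tau ht
  unfold Surf.Connected at h ⊢
  rw [← hn, ← ho, ← ht']
  exact h

end Pool.Veech
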