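import Pool.Agent.Lib.MP_fceebd_gt.LP1a
import Pool.Agent.Lib.MP_fceebd_gt.A3b

/-! # Row LP1b: labelled paths -/

set_option autoImplicit false

namespace Pool.Veech

variable {G : Type} [Group G] {D : Type} [Fintype D] [DecidableEq D] {S S' S'' : Surf G D}
  {m m' : Matrix D D ℤ}

set_option linter.unusedSectionVars false

namespace LP1b

theorem tri_gauge {S S' : Surf G D} {c : D → G} (hg : IsGauge S S' c) : S'.tri = S.tri := by
  apply Tri.ext
  · exact hg.nxt
  · exact hg.opp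
  · exact hg.tau

theorem gpath_aux {S S' : Surf G D} {m : Matrix D D ℤ} (h : LPath S S' m) :
    GPath S.tri S.z S'.tri m ∧ S'.z = app m S.z := by
  induction h with
  | refl => exact ⟨GPath.refl S.geo, (app_one _).symm⟩
  | @flip S' S'' m a h hf ih =>
    obtain ⟨ih1, ih2⟩ := ih
    have h1 : S''.z = S'.tri.flipF a (app m S.z) := by rw [hf.z_eq, ih2]
    refine ⟨GPath.flip ih1 hf.tri ?_, ?_⟩
    · rw [← h1]
      exact S''.geo
    · rw [app_mul, app_flipM, h1]
  | @relabel S' m e h ih =>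
    obtain ⟨ih1, ih2⟩ := ih
    refine ⟨GPath.relabel e ih1, ?_⟩
    rw [app_mul, app_permM, ← ih2]
    rfl
  | @gauge S' S'' m c h hg ih =>
    obtain ⟨ih1, ih2⟩ := ih
    rw [tri_gauge hg, hg.z]
    exact ⟨ih1, ih2⟩

theorem diag_opp (T : Tri D) {a b : D} (hb : T.Diag a b) : T.Diag a (T.opp b) := by
  rcases hb with rfl | rfl | rfl | rfl
  · exact Or.inr (Or.inl rfl)
  · exact Or.inl (T.opp2 a)
  · exact Or.inr (Or.inr (Or.inr (T.tau_opp a).symm))
  · refine Or.inr (Or.inr (Or.inl ?_))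
    rw [T.tau_opp, T.opp2]

theorem diag_opp_iff (T : Tri D) {a b : D} : T.Diag a (T.opp b) ↔ T.Diag a b := by
  refine ⟨fun h => ?_, diag_opp T⟩
  have := diag_opp T h
  rwa [T.opp2] at this

theorem diag_tau (T : Tri D) {a b : D} (hb : T.Diag a b) : T.Diag a (T.tau b) := by
  rcases hb with rfl | rfl | rfl | rfl
  · exact Or.inr (Or.inr (Or.inl rfl))
  · exact Or.inr (Or.inr (Or.inr rfl))
  · exact Or.inl (T.tau2 a)
  · exact Or.inr (Or.inl (T.tau2 _))

theorem diag_tau_iff (T : Tri D) {a b : D} : T.Diag a (T.tau b) ↔ T.Diag a b := by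
  refine ⟨fun h => ?_, diag_tau T⟩
  have := diag_tau T h
  rwa [T.tau2] at this

theorem near_nxt (T : Tri D) {a d : D} (h : T.Near a (T.nxt d)) : T.Near a d := by
  obtain ⟨b, hb, h1 | h1 | h1⟩ := h
  · refine ⟨b, hb, Or.inr (Or.inr ?_)⟩
    rw [← h1, T.nxt3]
  · exact ⟨b, hb, Or.inl (T.nxt.injective h1)⟩
  · exact ⟨b, hb, Or.inr (Or.inl (T.nxt.injective h1))⟩

theorem near_diag (T : Tri D) {a d : D} (h : T.Diag a d) : T.Near a d :=
  ⟨d, h, Or.inl rfl⟩

theorem diag_iff {T T' : Tri D} {a : D} (h1 : T'.opp = T.opp) (h2 : T'.tau = T.tau)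
    (d : D) : T'.Diag a d ↔ T.Diag a d := by
  unfold Tri.Diag
  rw [h1, h2]

/-- the swap of the two sides of the diagonals -/
def sw (T : Tri D) (a : D) : Equiv.Perm D where
  toFun d := if T.Diag a d then T.opp d else d
  invFun d := if T.Diag a d then T.opp d else d
  left_inv d := by
    by_cases h : T.Diag a d
    · simp only [if_pos h, if_pos (diag_opp T h), T.opp2]
    · simp only [if_neg h]
  right_inv d := by
    by_cases h : T.Diag a d
    · simp only [if_pos h, if_pos (diag_opp T h), T.opp2]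
    · simp only [if_neg h]

theorem e_pos (T : Tri D) {a d : D} (h : T.Diag a d) : sw T a d = T.opp d := if_pos h

theorem e_neg (T : Tri D) {a d : D} (h : ¬ T.Diag a d) : sw T a d = d := if_neg h

theorem e_symm_pos (T : Tri D) {a d : D} (h : T.Diag a d) : (sw T a).symm d = T.opp d :=
  if_pos h

theorem e_symm_neg (T : Tri D) {a d : D} (h : ¬ T.Diag a d) : (sw T a).symm d = d := if_neg h

theorem relab_nxt (T : Tri D) (e : Equiv.Perm D) (d : D) :
    (T.relab e).nxt d = e (T.nxt (e.symm d)) := rfl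

theorem relab_opp (T : Tri D) (e : Equiv.Perm D) (d : D) :
    (T.relab e).opp d = e (T.opp (e.symm d)) := rfl

theorem relab_tau (T : Tri D) (e : Equiv.Perm D) (d : D) :
    (T.relab e).tau d = e (T.tau (e.symm d)) := rfl

theorem flip_back {T T' : Tri D} {z : D → Vec} {a : D} (h : Geo T z)
    (hf : T.IsFlip T' a) : T'.IsFlip (T.relab (sw T a)) a := by
  have hD : ∀ d, T'.Diag a d ↔ T.Diag a d := diag_iff hf.opp hf.tau
  have hO : ∀ {b}, T.Diag a b → T.Diag a (T.opp b) := diag_opp T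
  have hn1 : ∀ {b}, T.Diag a b → ¬ T.Diag a (T.nxt b) := fun hb => (h.not_diag_nxt hb).1
  have hn2 : ∀ {b}, T.Diag a b → ¬ T.Diag a (T.nxt (T.nxt b)) := fun hb => (h.not_diag_nxt hb).2
  have f1 := hf.nxt1
  have f2 := hf.nxt2
  have f3 := hf.nxt3
  -- the triangle of `b` in `T'`
  have g1 : ∀ b, T.Diag a b → T'.nxt (T'.nxt b) = T.nxt (T.opp b) := fun b hb => by
    rw [f1 b hb, f2 b hb]
  have hnear' : ∀ d, T.Near a d → T'.Near a d := by
    rintro d ⟨b, hb, hd⟩
    have hb' : T.Diag a b := hb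
    rcases hd with rfl | rfl | rfl
    · exact ⟨d, (hD d).2 hb', Or.inl rfl⟩
    · refine ⟨T.opp b, (hD _).2 (hO hb'), Or.inr (Or.inr ?_)⟩
      rw [g1 _ (hO hb'), T.opp2]
    · exact ⟨b, (hD b).2 hb', Or.inr (Or.inl (f1 b hb').symm)⟩
  refine ⟨?_, ?_, fun b hb => ?_, fun b hb => ?_, fun b hb => ?_, fun d hd => ?_⟩
  · ext d
    rw [relab_opp, hf.opp]
    by_cases h1 : T.Diag a d
    · rw [e_symm_pos T h1, T.opp2, e_pos T h1]
    · rw [e_symm_neg T h1, e_neg T fun h2 => h1 ((diag_opp_iff T).1 h2)]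
  · ext d
    rw [relab_tau, hf.tau]
    by_cases h1 : T.Diag a d
    · rw [e_symm_pos T h1, e_pos T (diag_tau T (hO h1)), ← T.tau_opp, T.opp2]
    · rw [e_symm_neg T h1, e_neg T fun h2 => h1 ((diag_tau_iff T).1 h2)]
  · have hb' := (hD b).1 hb
    rw [g1 b hb', relab_nxt, e_symm_pos T hb', e_neg T (hn1 (hO hb'))]
  · have hb' := (hD b).1 hb
    rw [g1 b hb', relab_nxt, e_symm_neg T (hn1 (hO hb')), e_neg T (hn2 (hO hb')),
      hf.opp, f1 _ (hO hb')]
  · have hb' := (hD b).1 hb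
    rw [f1 b hb', relab_nxt, e_symm_neg T (hn2 hb'), T.nxt3, e_pos T hb', hf.opp]
  · have hd' : ¬ T.Near a d := fun h1 => hd (hnear' d h1)
    have hd1 : ¬ T.Near a (T.nxt d) := fun h1 => hd' (near_nxt T h1)
    rw [relab_nxt, e_symm_neg T fun h1 => hd' (near_diag T h1),
      e_neg T fun h1 => hd1 (near_diag T h1), hf.rest d hd']

/-- flips of labelled surfaces from flips of triangulations -/
theorem mk_isFlip {S S' : Surf G D} {a : D} (hf : S.tri.IsFlip S'.tri a)
    (hz : ∀ d, ¬ S.tri.Diag a d → S'.z d = S.z d)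
    (hl : ∀ d, ¬ S.tri.Diag a d → S'.lab d = S.lab d) : IsFlip S S' a where
  opp := hf.opp
  tau := hf.tau
  nxt1 := hf.nxt1 a (Or.inl rfl)
  nxt2 := hf.nxt2 a (Or.inl rfl)
  nxt3 := by
    have := hf.nxt3 (S.opp a) (Or.inr (Or.inl rfl))
    exact this.trans (S.opp2 a)
  nxt4 := hf.nxt1 (S.opp a) (Or.inr (Or.inl rfl))
  nxt5 := by
    have := hf.nxt2 (S.opp a) (Or.inr (Or.inl rfl))
    have h2 : S.tri.nxt (S.tri.opp (S.opp a)) = S.nxt a := by
      change S.nxt (S.opp (S.opp a)) = S.nxt a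
      rw [S.opp2]
    exact this.trans h2
  nxt6 := hf.nxt3 a (Or.inl rfl)
  rest := by
    intro d h1 h2 h3 h4
    apply hf.rest d
    have key : ∀ b, (S.tau b = d ∨ S.tau (S.nxt b) = d ∨ S.tau (S.nxt (S.nxt b)) = d) →
        S.tau d ∈ ({b, S.nxt b, S.nxt (S.nxt b)} : Set D) := by
      rintro b (h | h | h)
      · rw [← h, S.tau2]; exact Or.inl rfl
      · rw [← h, S.tau2]; exact Or.inr (Or.inl rfl)
      · rw [← h, S.tau2]; exact Or.inr (Or.inr rfl)
    rintro ⟨b, hb, hd⟩
    change b = a ∨ b = S.opp a ∨ b = S.tau a ∨ b = S.tau (S.opp a) at hb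
    change d = b ∨ d = S.nxt b ∨ d = S.nxt (S.nxt b) at hd
    rcases hb with rfl | rfl | rfl | rfl
    · exact h1 hd
    · exact h2 hd
    · apply h3
      apply key
      rw [S.tau_nxt, S.tau_nxt, S.tau_nxt]
      rcases hd with hd | hd | hd
      · exact Or.inl hd.symm
      · exact Or.inr (Or.inl hd.symm)
      · exact Or.inr (Or.inr hd.symm)
    · apply h4
      apply key
      rw [S.tau_nxt, S.tau_nxt, S.tau_nxt]
      rcases hd with hd | hd | hd
      · exact Or.inl hd.symm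
      · exact Or.inr (Or.inl hd.symm)
      · exact Or.inr (Or.inr hd.symm)
  z := by
    intro d hd
    exact hz d hd
  lab := by
    intro d hd
    exact hl d hd

theorem not_diag {S S' : Surf G D} {a : D} (hf : IsFlip S S' a) {d : D}
    (hd : ¬ S.tri.Diag a d) : S'.z d = S.z d ∧ S'.lab d = S.lab d :=
  ⟨hf.z d hd, hf.lab d hd⟩

theorem isFlip_back {S S' : Surf G D} {a : D} (hf : IsFlip S S' a) :
    IsFlip S' (S.relabP (sw S.tri a)) a := by
  have hD : ∀ d, S'.tri.Diag a d ↔ S.tri.Diag a d := diag_iff hf.tri.opp hf.tri.tau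
  refine mk_isFlip (flip_back S.geo hf.tri) ?_ ?_
  · intro d hd
    have hd' : ¬ S.tri.Diag a d := fun h => hd ((hD d).2 h)
    rw [(not_diag hf hd').1]
    change S.z ((sw S.tri a).symm d) = S.z d
    rw [e_symm_neg S.tri hd']
  · intro d hd
    have hd' : ¬ S.tri.Diag a d := fun h => hd ((hD d).2 h)
    rw [(not_diag hf hd').2]
    change S.lab ((sw S.tri a).symm d) = S.lab d
    rw [e_symm_neg S.tri hd']

theorem relabP_symm (S : Surf G D) (e : Equiv.Perm D) : (S.relabP e).relabP e.symm = S := by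
  refine Surf.ext' ?_ ?_ ?_ ?_ ?_
  · ext x
    simp [Surf.relabP, Tri.relab, Surf.tri]
  · ext x
    simp [Surf.relabP, Tri.relab, Surf.tri]
  · ext x
    simp [Surf.relabP, Tri.relab, Surf.tri]
  · funext x
    simp [Surf.relabP]
  · funext x
    simp [Surf.relabP]

theorem trans_aux {S S' S'' : Surf G D} {m m' : Matrix D D ℤ} (h : LPath S S' m)
    (h' : LPath S' S'' m') : LPath S S'' (m' * m) := by
  induction h' with
  | refl => rw [one_mul]; exact h
  | flip h' hf ih =>
    rw [mul_assoc]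
    exact LPath.flip ih hf
  | relabel e h' ih =>
    rw [mul_assoc]
    exact LPath.relabel e ih
  | gauge c h' hg ih => exact LPath.gauge c ih hg

theorem gauge_symm {S S' : Surf G D} {c : D → G} (hg : IsGauge S S' c) :
    IsGauge S' S (fun d => (c d)⁻¹) where
  nxt := hg.nxt.symm
  opp := hg.opp.symm
  tau := hg.tau.symm
  z := hg.z.symm
  c_turn d := by
    have h1 : S'.turn d = S.turn d := by
      unfold Surf.turn
      rw [hg.nxt, hg.opp]
    rw [h1, hg.c_turn]
  c_tau d := by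
    rw [hg.tau, hg.c_tau]
  lab d := by
    rw [hg.lab, hg.nxt]
    group

theorem withZ_congr (S : Surf G D) {z z' : D → Vec} (h : Geo S.tri z) (h' : Geo S.tri z')
    (e : z = z') : S.withZ z h = S.withZ z' h' := by
  subst e
  rfl

theorem withZ_congr' {S S' : Surf G D} (hS : S = S') {z z' : D → Vec} (h : Geo S.tri z)
    (h' : Geo S'.tri z') (e : z = z') : S.withZ z h = S'.withZ z' h' := by
  subst hS e
  rfl

end LP1b

theorem LPath.gpath (h : LPath S S' m) : GPath S.tri S.z S'.tri m := (LP1b.gpath_aux h).1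

theorem LPath.z_eq (h : LPath S S' m) : S'.z = app m S.z := (LP1b.gpath_aux h).2

theorem GPath.lift {T' : Tri D} (S : Surf G D) (h : GPath S.tri S.z T' m) :
    ∃ S' : Surf G D, S'.tri = T' ∧ S'.z = app m S.z ∧ LPath S S' m := by
  induction h with
  | refl h => exact ⟨S, rfl, (app_one _).symm, LPath.refl⟩
  | @flip T' T'' m a h hf hg ih =>
    obtain ⟨S', h1, h2, h3⟩ := ih
    subst h1
    rw [← h2] at hg
    obtain ⟨S'', k1, k2, k3⟩ := exists_isFlip S' hf hg
    refine ⟨S'', k2, ?_, LPath.flip h3 k1⟩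
    rw [k3, app_mul, app_flipM, h2]
  | @relabel T' m e h ih =>
    obtain ⟨S', h1, h2, h3⟩ := ih
    subst h1
    refine ⟨S'.relabP e, rfl, ?_, LPath.relabel e h3⟩
    rw [app_mul, app_permM, ← h2]
    rfl

theorem LPath.trans (h : LPath S S' m) (h' : LPath S' S'' m') : LPath S S'' (m' * m) :=
  LP1b.trans_aux h h'

theorem LPath.symm (h : LPath S S' m) : ∃ m', LPath S' S m' := by
  induction h with
  | refl => exact ⟨1, LPath.refl⟩
  | @flip S' S'' m a h hf ih =>
    obtain ⟨m', hm'⟩ := ih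
    have h1 := LPath.flip (LPath.refl (S := S'')) (LP1b.isFlip_back hf)
    have h2 := LPath.relabel (LP1b.sw S'.tri a).symm h1
    rw [LP1b.relabP_symm] at h2
    exact ⟨_, h2.trans hm'⟩
  | @relabel S' m e h ih =>
    obtain ⟨m', hm'⟩ := ih
    have h2 := LPath.relabel e.symm (LPath.refl (S := S'.relabP e))
    rw [LP1b.relabP_symm] at h2
    exact ⟨_, h2.trans hm'⟩
  | @gauge S' S'' m c h hg ih =>
    obtain ⟨m', hm'⟩ := ih
    have h2 := LPath.gauge _ (LPath.refl (S := S'')) (LP1b.gauge_symm hg)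
    exact ⟨_, h2.trans hm'⟩

theorem LPath.act (h : LPath S S' m) (A : Matrix (Fin 2) (Fin 2) ℝ) (hA : 0 < A.det) :
    LPath (S.act A hA) (S'.act A hA) m := by
  induction h with
  | refl => exact LPath.refl
  | @flip S' S'' m a h hf ih => exact LPath.flip (S' := S'.act A hA) ih (hf.act A hA)
  | @relabel S' m e h ih => exact LPath.relabel e ih
  | @gauge S' S'' m c h hg ih => exact LPath.gauge c ih (hg.act A hA)

theorem LPath.relab (h : LPath S S' m) (f : G ≃* G) : LPath (S.relab f) (S'.relab f) m := by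
  induction h with
  | refl => exact LPath.refl
  | @flip S' S'' m a h hf ih => exact LPath.flip (S' := S'.relab f) ih (hf.relab f)
  | @relabel S' m e h ih => exact LPath.relabel e ih
  | @gauge S' S'' m c h hg ih => exact LPath.gauge _ ih (hg.relab f)

/-- paths are stable under small changes of the holonomies -/
theorem LPath.stable (h : LPath S S' m) :
    ∃ δ : ℝ, 0 < δ ∧ ∀ z' : D → Vec, IsCoc S.tri z' → IsAnti S.tri z' →
      (∀ d i, |z' d i - S.z d i| < δ) → ∃ (h1 : Geo S.tri z') (h2 : Geo S'.tri (app m z')),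
        LPath (S.withZ z' h1) (S'.withZ (app m z') h2) m := by
  induction h with
  | refl =>
    obtain ⟨δ, hδ, h⟩ := GPath.stable (GPath.refl S.geo)
    refine ⟨δ, hδ, fun z' hc ha hz => ?_⟩
    have P := h z' hc ha hz
    refine ⟨P.geo_left, P.geo, ?_⟩
    rw [LP1b.withZ_congr S P.geo P.geo_left (app_one z')]
    exact LPath.refl
  | @flip S' S'' m a h hf ih =>
    obtain ⟨δ₁, hδ₁, ih⟩ := ih
    obtain ⟨δ₂, hδ₂, h2⟩ := GPath.stable (LPath.flip h hf).gpath
    refine ⟨min δ₁ δ₂, lt_min hδ₁ hδ₂, fun z' hc ha hz => ?_⟩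
    obtain ⟨g1, g2, hl⟩ := ih z' hc ha (fun d i => lt_of_lt_of_le (hz d i) (min_le_left _ _))
    have P := h2 z' hc ha (fun d i => lt_of_lt_of_le (hz d i) (min_le_right _ _))
    refine ⟨g1, P.geo, ?_⟩
    refine LPath.flip (S' := S'.withZ (app m z') g2) hl (LP1b.mk_isFlip hf.tri ?_ ?_)
    · intro d hd
      change app (S'.tri.flipM a * m) z' d = app m z' d
      rw [app_mul, app_flipM]
      exact if_neg hd
    · intro d hd
      exact hf.lab d hd
  | @relabel S' m e h ih =>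
    obtain ⟨δ₁, hδ₁, ih⟩ := ih
    obtain ⟨δ₂, hδ₂, h2⟩ := GPath.stable (LPath.relabel e h).gpath
    refine ⟨min δ₁ δ₂, lt_min hδ₁ hδ₂, fun z' hc ha hz => ?_⟩
    obtain ⟨g1, g2, hl⟩ := ih z' hc ha (fun d i => lt_of_lt_of_le (hz d i) (min_le_left _ _))
    have P := h2 z' hc ha (fun d i => lt_of_lt_of_le (hz d i) (min_le_right _ _))
    refine ⟨g1, P.geo, ?_⟩
    have h3 := LPath.relabel e hl
    have h4 : (S'.withZ (app m z') g2).relabP e = (S'.relabP e).withZ (app (permM e * m) z') P.geo := by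
      refine Surf.ext' rfl rfl rfl ?_ rfl
      change (fun d => app m z' (e.symm d)) = app (permM e * m) z'
      rw [app_mul, app_permM]
    rwa [h4] at h3
  | @gauge S' S'' m c h hg ih =>
    obtain ⟨δ₁, hδ₁, ih⟩ := ih
    refine ⟨δ₁, hδ₁, fun z' hc ha hz => ?_⟩
    obtain ⟨g1, g2, hl⟩ := ih z' hc ha hz
    have g3 : Geo S''.tri (app m z') := by
      rw [LP1b.tri_gauge hg]
      exact g2
    refine ⟨g1, g3, ?_⟩
    refine LPath.gauge c hl ⟨hg.nxt, hg.opp, hg.tau, rfl, hg.c_turn, hg.c_tau, hg.lab⟩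

end Pool.Veech
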