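import Pool.Agent.Lib.MP_fceebd_gt.LP1b

/-! # Row LP2: `SameSurf` in terms of labelled paths -/

set_option autoImplicit false

namespace Pool.Veech

variable {G : Type} [Group G]

/-- pull back along a bijection of the sets of darts -/
def Surf.pull {D D' : Type} (S : Surf G D') (e : D ≃ D') : Surf G D where
  nxt := (e.trans S.nxt).trans e.symm
  opp := (e.trans S.opp).trans e.symm
  tau := (e.trans S.tau).trans e.symm
  z d := S.z (e d)
  lab d := S.lab (e d)
  nxt3 d := by simp [S.nxt3]
  opp2 d := by simp [S.opp2]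
  tau2 d := by simp [S.tau2]
  tau_nxt d := by simp [S.tau_nxt]
  tau_opp d := by simp [S.tau_opp]
  opp_ne d := by simpa using S.opp_ne (e d)
  closed d := by simpa using S.closed (e d)
  glue d := by simpa using S.glue (e d)
  anti d := by simpa using S.anti (e d)
  pos d := by simpa using S.pos (e d)
  lab_closed d := by simpa using S.lab_closed (e d)
  lab_opp d := by simpa using S.lab_opp (e d)
  lab_tau d := by simpa using S.lab_tau (e d)

set_option linter.unusedSectionVars false

namespace LP2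

variable {D D' D'' : Type}

theorem pull_nxt (S : Surf G D') (e : D ≃ D') (d : D) :
    (S.pull e).nxt d = e.symm (S.nxt (e d)) := rfl

theorem pull_opp (S : Surf G D') (e : D ≃ D') (d : D) :
    (S.pull e).opp d = e.symm (S.opp (e d)) := rfl

theorem pull_tau (S : Surf G D') (e : D ≃ D') (d : D) :
    (S.pull e).tau d = e.symm (S.tau (e d)) := rfl

theorem pull_refl (S : Surf G D) : S.pull (Equiv.refl D) = S :=
  Surf.ext' (by ext x; rfl) (by ext x; rfl) (by ext x; rfl) rfl rfl

theorem pull_pull (S : Surf G D'') (e : D ≃ D') (e' : D' ≃ D'') :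
    (S.pull e').pull e = S.pull (e.trans e') :=
  Surf.ext' (by ext x; rfl) (by ext x; rfl) (by ext x; rfl) rfl rfl

theorem pull_pull_symm (S : Surf G D') (e : D ≃ D') : (S.pull e).pull e.symm = S := by
  rw [pull_pull, Equiv.symm_trans_self, pull_refl]

theorem diag_pull (S : Surf G D') (e : D ≃ D') (a : D') (b : D) :
    (S.pull e).tri.Diag (e.symm a) b ↔ S.tri.Diag a (e b) := by
  have h1 : (S.pull e).tri.opp (e.symm a) = e.symm (S.opp a) := by
    change e.symm (S.opp (e (e.symm a))) = _
    rw [e.apply_symm_apply]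
  have h2 : (S.pull e).tri.tau (e.symm a) = e.symm (S.tau a) := by
    change e.symm (S.tau (e (e.symm a))) = _
    rw [e.apply_symm_apply]
  have h3 : (S.pull e).tri.tau (e.symm (S.opp a)) = e.symm (S.tau (S.opp a)) := by
    change e.symm (S.tau (e (e.symm (S.opp a)))) = _
    rw [e.apply_symm_apply]
  unfold Tri.Diag
  rw [h1, h2, h3, Equiv.eq_symm_apply, Equiv.eq_symm_apply, Equiv.eq_symm_apply,
    Equiv.eq_symm_apply]
  exact Iff.rfl

theorem near_iff {T : Tri D} {a d : D} :
    T.Near a d ↔ ∃ b, T.Diag a b ∧ (d = b ∨ d = T.nxt b ∨ d = T.nxt (T.nxt b)) := Iff.rfl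

theorem near_pull (S : Surf G D') (e : D ≃ D') (a : D') (d : D) (h : S.tri.Near a (e d)) :
    (S.pull e).tri.Near (e.symm a) d := by
  obtain ⟨b, hb, hd⟩ := near_iff.1 h
  refine near_iff.2 ⟨e.symm b, (diag_pull S e a _).2 (by rw [e.apply_symm_apply]; exact hb), ?_⟩
  have h1 : (S.pull e).tri.nxt (e.symm b) = e.symm (S.nxt b) := by
    change e.symm (S.nxt (e (e.symm b))) = _
    rw [e.apply_symm_apply]
  have h2 : (S.pull e).tri.nxt (e.symm (S.nxt b)) = e.symm (S.nxt (S.nxt b)) := by
    change e.symm (S.nxt (e (e.symm (S.nxt b)))) = _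
    rw [e.apply_symm_apply]
  rw [h1, h2, Equiv.eq_symm_apply, Equiv.eq_symm_apply, Equiv.eq_symm_apply]
  exact hd

theorem isFlip_pull [DecidableEq D] [DecidableEq D'] [Fintype D] [Fintype D']
    {S S' : Surf G D'} (e : D ≃ D') {a : D'} (hf : IsFlip S S' a) :
    IsFlip (S.pull e) (S'.pull e) (e.symm a) := by
  have ht := hf.tri
  refine LP1b.mk_isFlip ⟨?_, ?_, ?_, ?_, ?_, ?_⟩ ?_ ?_
  · ext d
    change e.symm (S'.opp (e d)) = e.symm (S.opp (e d))
    rw [hf.opp]
  · ext d
    change e.symm (S'.tau (e d)) = e.symm (S.tau (e d))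
    rw [hf.tau]
  · intro b hb
    have h1 := ht.nxt1 (e b) ((diag_pull S e a b).1 hb)
    change e.symm (S'.nxt (e b)) = e.symm (S.nxt (e (e.symm (S.nxt (e b)))))
    rw [e.apply_symm_apply]
    exact congrArg e.symm h1
  · intro b hb
    have h1 := ht.nxt2 (e b) ((diag_pull S e a b).1 hb)
    change e.symm (S'.nxt (e (e.symm (S.nxt (e (e.symm (S.nxt (e b)))))))) =
      e.symm (S.nxt (e (e.symm (S.opp (e b)))))
    rw [e.apply_symm_apply, e.apply_symm_apply, e.apply_symm_apply]
    exact congrArg e.symm h1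
  · intro b hb
    have h1 := ht.nxt3 (e b) ((diag_pull S e a b).1 hb)
    change e.symm (S'.nxt (e (e.symm (S.nxt (e b))))) = e.symm (S.opp (e b))
    rw [e.apply_symm_apply]
    exact congrArg e.symm h1
  · intro d hd
    have h1 := ht.rest (e d) (fun h => hd (near_pull S e a d h))
    change e.symm (S'.nxt (e d)) = e.symm (S.nxt (e d))
    exact congrArg e.symm h1
  · intro d hd
    exact (LP1b.not_diag hf (fun h => hd ((diag_pull S e a d).2 h))).1
  · intro d hd
    exact (LP1b.not_diag hf (fun h => hd ((diag_pull S e a d).2 h))).2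

theorem isGauge_pull {S S' : Surf G D'} (e : D ≃ D') {c : D' → G} (hg : IsGauge S S' c) :
    IsGauge (S.pull e) (S'.pull e) (fun d => c (e d)) where
  nxt := by
    ext d
    change e.symm (S'.nxt (e d)) = e.symm (S.nxt (e d))
    rw [hg.nxt]
  opp := by
    ext d
    change e.symm (S'.opp (e d)) = e.symm (S.opp (e d))
    rw [hg.opp]
  tau := by
    ext d
    change e.symm (S'.tau (e d)) = e.symm (S.tau (e d))
    rw [hg.tau]
  z := by
    funext d
    change S'.z (e d) = S.z (e d)
    rw [hg.z]
  c_turn d := by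
    have h1 : e ((S.pull e).turn d) = S.turn (e d) := by
      unfold Surf.turn
      simp [pull_nxt, pull_opp]
    rw [h1, hg.c_turn]
  c_tau d := by
    rw [pull_tau, e.apply_symm_apply, hg.c_tau]
  lab d := by
    change S'.lab (e d) = c (e d) * S.lab (e d) * (c (e (e.symm (S.nxt (e d)))))⁻¹
    rw [e.apply_symm_apply, hg.lab]

theorem lpath_pull [DecidableEq D] [DecidableEq D'] [Fintype D] [Fintype D']
    {S S' : Surf G D'} (e : D ≃ D') {m : Matrix D' D' ℤ} (h : LPath S S' m) :
    ∃ m', LPath (S.pull e) (S'.pull e) m' := by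
  induction h with
  | refl => exact ⟨1, LPath.refl⟩
  | @flip S' S'' m a h hf ih =>
    obtain ⟨m', hm'⟩ := ih
    exact ⟨_, LPath.flip hm' (isFlip_pull e hf)⟩
  | @relabel S' m e' h ih =>
    obtain ⟨m', hm'⟩ := ih
    have h1 := LPath.relabel ((e.trans e').trans e.symm) hm'
    have h2 : (S'.pull e).relabP ((e.trans e').trans e.symm) = (S'.relabP e').pull e := by
      refine Surf.ext' ?_ ?_ ?_ ?_ ?_
      · ext x
        simp [Surf.relabP, Surf.pull, Tri.relab, Surf.tri]
      · ext x
        simp [Surf.relabP, Surf.pull, Tri.relab, Surf.tri]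
      · ext x
        simp [Surf.relabP, Surf.pull, Tri.relab, Surf.tri]
      · funext x
        simp [Surf.relabP, Surf.pull]
      · funext x
        simp [Surf.relabP, Surf.pull]
    rw [h2] at h1
    exact ⟨_, h1⟩
  | @gauge S' S'' m c h hg ih =>
    obtain ⟨m', hm'⟩ := ih
    exact ⟨_, LPath.gauge _ hm' (isGauge_pull e hg)⟩

end LP2

/-- (each `Step` gives a path in both directions) -/
theorem SameSurf.exists_path {X Y : Σ n, Surf G (Fin n)} (h : SameSurf X Y) :
    ∃ (e : Fin X.1 ≃ Fin Y.1) (m : Matrix (Fin X.1) (Fin X.1) ℤ), LPath X.2 (Y.2.pull e) m := by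
  induction h with
  | rel _ _ h =>
    cases h with
    | relabel S S' e h =>
      refine ⟨e, 1, ?_⟩
      have h1 : S'.pull e = S := by
        refine Surf.ext' ?_ ?_ ?_ ?_ ?_
        · ext x
          change ((e.symm (S'.nxt (e x)) : Fin _) : ℕ) = _
          rw [h.nxt, e.symm_apply_apply]
        · ext x
          change ((e.symm (S'.opp (e x)) : Fin _) : ℕ) = _
          rw [h.opp, e.symm_apply_apply]
        · ext x
          change ((e.symm (S'.tau (e x)) : Fin _) : ℕ) = _
          rw [h.tau, e.symm_apply_apply]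
        · funext x
          exact h.z x
        · funext x
          exact h.lab x
      change LPath S (S'.pull e) 1
      rw [h1]
      exact LPath.refl
    | flip S S' a h =>
      refine ⟨Equiv.refl _, S.tri.flipM a * 1, ?_⟩
      change LPath S (S'.pull (Equiv.refl _)) _
      rw [LP2.pull_refl]
      exact LPath.flip LPath.refl h
    | gauge S S' c h =>
      refine ⟨Equiv.refl _, 1, ?_⟩
      change LPath S (S'.pull (Equiv.refl _)) _
      rw [LP2.pull_refl]
      exact LPath.gauge c LPath.refl h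
  | refl X =>
    refine ⟨Equiv.refl _, 1, ?_⟩
    rw [LP2.pull_refl]
    exact LPath.refl
  | symm X Y _ ih =>
    obtain ⟨e, m, h1⟩ := ih
    obtain ⟨m', h2⟩ := h1.symm
    obtain ⟨m'', h3⟩ := LP2.lpath_pull e.symm h2
    rw [LP2.pull_pull_symm] at h3
    exact ⟨e.symm, m'', h3⟩
  | trans X Y Z _ _ ih1 ih2 =>
    obtain ⟨e1, m1, h1⟩ := ih1
    obtain ⟨e2, m2, h2⟩ := ih2
    obtain ⟨m3, h3⟩ := LP2.lpath_pull e1 h2
    rw [LP2.pull_pull] at h3
    exact ⟨e1.trans e2, _, h1.trans h3⟩

theorem sameSurf_iff {n : ℕ} (S S' : Surf G (Fin n)) :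
    SameSurf ⟨n, S⟩ ⟨n, S'⟩ ↔ ∃ m, LPath S S' m := by
  constructor
  · intro h
    obtain ⟨e, m, h1⟩ := h.exists_path
    change Fin n ≃ Fin n at e
    change LPath S (S'.pull e) m at h1
    have h2 := LPath.relabel e h1
    have h3 : (S'.pull e).relabP e = S' := by
      refine Surf.ext' ?_ ?_ ?_ ?_ ?_
      · ext x
        simp [Surf.relabP, Surf.pull, Tri.relab, Surf.tri]
      · ext x
        simp [Surf.relabP, Surf.pull, Tri.relab, Surf.tri]
      · ext x
        simp [Surf.relabP, Surf.pull, Tri.relab, Surf.tri]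
      · funext x
        simp [Surf.relabP, Surf.pull]
      · funext x
        simp [Surf.relabP, Surf.pull]
    rw [h3] at h2
    exact ⟨_, h2⟩
  · rintro ⟨m, h⟩
    induction h with
    | refl => exact .refl _
    | @flip S' S'' m a h hf ih => exact .trans _ _ _ ih (.rel _ _ (.flip _ _ a hf))
    | @relabel S' m e h ih =>
      refine .trans _ _ _ ih (.rel _ _ (.relabel _ _ e ?_))
      constructor
      · intro d
        simp [Surf.relabP, Tri.relab, Surf.tri]
      · intro d
        simp [Surf.relabP, Tri.relab, Surf.tri]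
      · intro d
        simp [Surf.relabP, Tri.relab, Surf.tri]
      · intro d
        simp [Surf.relabP]
      · intro d
        simp [Surf.relabP]
    | @gauge S' S'' m c h hg ih => exact .trans _ _ _ ih (.rel _ _ (.gauge _ _ c hg))

theorem SameSurf.card_eq {n n' : ℕ} {S : Surf G (Fin n)} {S' : Surf G (Fin n')}
    (h : SameSurf ⟨n, S⟩ ⟨n', S'⟩) : n = n' := by
  obtain ⟨e, -, -⟩ := h.exists_path
  exact Fin.equiv_iff_eq.1 ⟨e⟩

end Pool.Veech
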