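import Pool.Agent.Lib.MP_fceebd_gt.PI
import Pool.Agent.Lib.MP_fceebd_gt.K3c
import Pool.Agent.Lib.MP_fceebd_gt.K3d

/-! # Rows M1, M2, M3: surfaces without small virtual triangles -/

set_option autoImplicit false

open scoped MatrixGroups

namespace Pool.Veech

variable {D : Type} [Fintype D] [DecidableEq D] {K : Type} [Field K] [NumberField K]
  {T T' : Tri D} {z : D → Vec} {c : Vec} {b : ℝ}

/-- the property does not depend on the triangulation, and it is linearly invariant -/
theorem NSVT.trans {m : Matrix D D ℤ} (h : GPath T z T' m) (hN : NSVT T z b) :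
    NSVT T' (app m z) b := by
  intro v hv e he
  rw [edges_trans h] at hv he
  exact hN v hv e he

theorem NSVT.lin (hz : Geo T z) (hN : NSVT T z b) (A : SL(2, ℝ)) : NSVT T (lin A.1 z) b := by
  intro v hv e he
  rw [edges_lin T z A.1 (det_pos A)] at hv he
  obtain ⟨v', hv', rfl⟩ := hv
  obtain ⟨e', he', rfl⟩ := he
  rw [cr_mulVec, A.2, one_mul]
  exact hN v' hv' e' he'

/-- M1. each edge direction has a horizontal triangulation with commensurable moduli
(`exists_horiz` with `ρ = b`, `Horiz.comm_of_nsvt`) and is fixed by a parabolic affine map -/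
theorem NSVT.horiz (h : Geo T z) (hb : 0 < b) (hN : NSVT T z b) {v : Vec}
    (hv : v ∈ edges T z) :
    (∃ T' m, GPath T z T' m ∧ Horiz T' (app m z) v ∧ Comm T' (app m z) v) ∧
      ∃ A ∈ aff T z h, A ≠ 1 ∧ A.1.mulVec v = v := by
  obtain ⟨T', m, hm, hH⟩ := exists_horiz h (edges_ne_zero hv) hb (fun e he => hN e he v hv)
  have hC : Comm T' (app m z) v := hH.comm_of_nsvt hb (NSVT.trans hm hN)
  refine ⟨⟨T', m, hm, hH, hC⟩, ?_⟩
  obtain ⟨A, hA, hA1, hAv⟩ := hH.exists_parabolic hC
  exact ⟨A, (aff_trans hm A).2 hA, hA1, hAv⟩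

/-- the cross product with a fixed vector, as a homomorphism -/
private def crHomM (v : Vec) : Vec →+ ℝ where
  toFun u := cr u v
  map_zero' := by simp [cr]
  map_add' a b := by simp only [cr, Pi.add_apply]; ring

private theorem crHomM_apply (u v : Vec) : crHomM v u = cr u v := rfl

private theorem cr_smul_rightM (u v : Vec) (r : ℝ) : cr u (r • v) = r * cr u v := by
  simp only [cr, Pi.smul_apply, smul_eq_mul]; ring

private theorem cr_le_nqM (u v : Vec) : |cr u v| ≤ nq u + nq v := by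
  unfold cr nq ip
  rw [abs_le]
  constructor <;> nlinarith [sq_nonneg (u 0 - v 1), sq_nonneg (u 1 + v 0), sq_nonneg (u 0 + v 1),
    sq_nonneg (u 1 - v 0), sq_nonneg (u 0), sq_nonneg (u 1), sq_nonneg (v 0), sq_nonneg (v 1)]

/-- finitely many values of bounded cross products with a fixed edge vector -/
private theorem cr_values_finiteM (h : Geo T z) (hb : 0 < b) (hN : NSVT T z b) {v' : Vec}
    (hv' : v' ∈ edges T z) (C : ℝ) :
    ∃ S : Set ℝ, S.Finite ∧ ∀ v ∈ edges T z, |cr v v'| ≤ C → cr v v' ∈ S := by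
  obtain ⟨⟨T', m, hm, hH, -⟩, -⟩ := NSVT.horiz h hb hN hv'
  obtain ⟨R, hR, hR'⟩ := hH.exists_reps
  have hG := hm.geo
  have hy : IsCoc T' (fun e => cr (app m z e) v') := by
    constructor
    · intro d
      have h1 := congrArg (crHomM v') (hG.coc.closed d)
      rw [map_add, map_add, map_zero] at h1
      exact h1
    · intro d
      have h1 := congrArg (crHomM v') (hG.coc.glue d)
      rw [map_neg] at h1
      exact h1
  have hdec : (fun e => cr (app m z e) v') =
      ∑ r ∈ R, cr (app m z r) v' • (fun e => (iota T' (app m z) v' r e : ℝ)) := by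
    funext e
    rw [hH.dec hR hR' hy (fun e he => he) e, Finset.sum_apply]
    refine Finset.sum_congr rfl fun r _ => ?_
    rw [Pi.smul_apply, smul_eq_mul, zsmul_eq_mul, mul_comm]
  let N : D → ℤ := fun r => ⌈C / cr (app m z r) v'⌉
  refine ⟨(fun k : D → ℤ => ∑ r ∈ R, cr (app m z r) v' * (k r : ℝ)) ''
    Set.Icc (fun r => -|N r|) (fun r => |N r|), (Set.finite_Icc _ _).image _, ?_⟩
  intro v hv hvC
  rw [← edges_trans hm] at hv
  obtain ⟨T'', m', e, hm', rfl⟩ := hv
  have hval : cr (app m' (app m z) e) v' =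
      ∑ r ∈ R, cr (app m z r) v' * ((app m' (iota T' (app m z) v' r) e : ℤ) : ℝ) := by
    have h1 := app_map m' (app m z) (crHomM v') e
    simp only [crHomM_apply] at h1
    rw [← h1, hdec, app_sum, Finset.sum_apply]
    refine Finset.sum_congr rfl fun r _ => ?_
    rw [app_smul, Pi.smul_apply, smul_eq_mul, app_intCast]
  have hbd : ∀ r ∈ R, |app m' (iota T' (app m z) v' r) e| ≤ |N r| := by
    intro r hr
    have hu : 0 < cr (app m z r) v' := hR r hr
    have hw := hH.width_pos (hR r hr)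
    have h1 := ((hH.isCyl (hR r hr)).bound T'' m' hm' e).2
    rw [cr_smul_rightM, abs_mul, abs_of_pos hw, mul_assoc] at h1
    have h2 := le_of_mul_le_mul_left h1 hw
    have h3 : |((app m' (iota T' (app m z) v' r) e : ℤ) : ℝ)| ≤ C / cr (app m z r) v' := by
      rw [le_div_iff₀ hu, mul_comm]
      exact h2.trans hvC
    have h4 : ((|app m' (iota T' (app m z) v' r) e| : ℤ) : ℝ) ≤ ((N r : ℤ) : ℝ) := by
      rw [Int.cast_abs]
      exact h3.trans (Int.le_ceil _)
    exact (Int.cast_le.1 h4).trans (le_abs_self _)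
  refine ⟨fun r => if r ∈ R then app m' (iota T' (app m z) v' r) e else 0, ?_, ?_⟩
  · constructor
    · intro r
      by_cases hr : r ∈ R
      · simp only [if_pos hr]
        exact (abs_le.1 (hbd r hr)).1
      · simp only [if_neg hr]
        exact neg_nonpos.2 (abs_nonneg _)
    · intro r
      by_cases hr : r ∈ R
      · simp only [if_pos hr]
        exact (abs_le.1 (hbd r hr)).2
      · simp only [if_neg hr]
        exact abs_nonneg _
  · change ∑ r ∈ R, cr (app m z r) v' *
      (((if r ∈ R then app m' (iota T' (app m z) v' r) e else 0 : ℤ)) : ℝ) = _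
    rw [hval]
    refine Finset.sum_congr rfl fun r hr => ?_
    rw [if_pos hr]

/-- M1. The set of edge vectors is locally finite: for two independent edge vectors `v`, `v'` the
heights `cr e v` of edge vectors `e` are integral combinations (with coefficients of one sign,
`IsCyl.bound`) of the heights of the cylinders of a horizontal triangulation. -/
theorem NSVT.edges_finite (h : Geo T z) (hb : 0 < b) (hN : NSVT T z b) (R : ℝ) :
    {v ∈ edges T z | nq v ≤ R}.Finite := by
  rcases isEmpty_or_nonempty D with hD | ⟨⟨d⟩⟩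
  · refine Set.finite_empty.subset ?_
    rintro v ⟨⟨T', m, d, -⟩, -⟩
    exact (hD.false d).elim
  · have hp := h.pos d
    obtain ⟨S1, hS1, hS1'⟩ := cr_values_finiteM h hb hN (mem_edges h d) (R + nq (z d))
    obtain ⟨S2, hS2, hS2'⟩ :=
      cr_values_finiteM h hb hN (mem_edges h (T.nxt d)) (R + nq (z (T.nxt d)))
    refine Set.Finite.of_finite_image (f := fun v => (cr v (z d), cr v (z (T.nxt d)))) ?_ ?_
    · refine (hS1.prod hS2).subset ?_
      rintro _ ⟨v, ⟨hv, hvR⟩, rfl⟩
      exact ⟨hS1' v hv ((cr_le_nqM _ _).trans (by linarith)),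
        hS2' v hv ((cr_le_nqM _ _).trans (by linarith))⟩
    · intro v _ w _ hvw
      simp only [Prod.mk.injEq] at hvw
      obtain ⟨h1, h2⟩ := hvw
      unfold cr at h1 h2 hp
      have e0 : (v 0 - w 0) * (z d 0 * z (T.nxt d) 1 - z d 1 * z (T.nxt d) 0) = 0 := by
        linear_combination z d 0 * h2 - z (T.nxt d) 0 * h1
      have e1 : (v 1 - w 1) * (z d 0 * z (T.nxt d) 1 - z d 1 * z (T.nxt d) 0) = 0 := by
        linear_combination z d 1 * h2 - z (T.nxt d) 1 * h1
      funext i
      fin_cases i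
      · exact sub_eq_zero.1 ((mul_eq_zero.1 e0).resolve_right hp.ne')
      · exact sub_eq_zero.1 ((mul_eq_zero.1 e1).resolve_right hp.ne')

/-- M1. the affine group is discrete: if `A` is close to `1`, then `A v` is parallel to `v` for the
three edges of a triangle, so `A = ± 1`, so `A = 1` -/
theorem NSVT.discrete [Nonempty D] (h : Geo T z) (hb : 0 < b) (hN : NSVT T z b) :
    ∃ ε : ℝ, 0 < ε ∧ ∀ A ∈ aff T z h,
      (∀ i j, |A.1 i j - (1 : Matrix (Fin 2) (Fin 2) ℝ) i j| < ε) → A = 1 := by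
  obtain ⟨d⟩ := ‹Nonempty D›
  let M : Vec → ℝ := fun u => (|u 0| + |u 1|) ^ 2
  have hM : ∀ u, 0 ≤ M u := fun u => sq_nonneg _
  let Q : ℝ := 1 + M (z d) + M (z (T.nxt d)) + M (z (T.nxt (T.nxt d)))
  have hQ : 0 < Q := by
    have h1 := hM (z d)
    have h2 := hM (z (T.nxt d))
    have h3 := hM (z (T.nxt (T.nxt d)))
    change 0 < 1 + M (z d) + M (z (T.nxt d)) + M (z (T.nxt (T.nxt d)))
    linarith
  refine ⟨min 1 (b / Q), lt_min one_pos (div_pos hb hQ), ?_⟩
  intro A hA hclose
  have h00 := hclose 0 0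
  have h01 := hclose 0 1
  have h10 := hclose 1 0
  have h11 := hclose 1 1
  rw [Matrix.one_apply_eq] at h00 h11
  rw [Matrix.one_apply_ne (by decide), sub_zero] at h01 h10
  have key : ∀ u ∈ edges T z, M u < Q →
      (A.1 0 0 * u 0 + A.1 0 1 * u 1) * u 1 - (A.1 1 0 * u 0 + A.1 1 1 * u 1) * u 0 = 0 := by
    intro u hu hMu
    have hAu := aff_edges h hA hu
    have hcr : cr (A.1.mulVec u) u =
        (A.1 0 0 * u 0 + A.1 0 1 * u 1) * u 1 - (A.1 1 0 * u 0 + A.1 1 1 * u 1) * u 0 := by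
      simp only [cr, Matrix.mulVec, dotProduct, Fin.sum_univ_two]
    rcases hN _ hAu u hu with h0 | h0
    · rw [← hcr]; exact h0
    · exfalso
      rw [hcr] at h0
      have hε : min 1 (b / Q) * M u < b := by
        have h1 : min 1 (b / Q) * M u ≤ b / Q * M u :=
          mul_le_mul_of_nonneg_right (min_le_right _ _) (hM u)
        have h2 : b / Q * M u < b / Q * Q := mul_lt_mul_of_pos_left hMu (div_pos hb hQ)
        rw [div_mul_cancel₀ _ hQ.ne'] at h2
        linarith
      have hE : (A.1 0 0 * u 0 + A.1 0 1 * u 1) * u 1 - (A.1 1 0 * u 0 + A.1 1 1 * u 1) * u 0 =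
          (A.1 0 0 - 1) * (u 0 * u 1) + A.1 0 1 * (u 1 * u 1) - A.1 1 0 * (u 0 * u 0) -
            (A.1 1 1 - 1) * (u 0 * u 1) := by ring
      have b0 : |(A.1 0 0 - 1) * (u 0 * u 1)| ≤ min 1 (b / Q) * (|u 0| * |u 1|) := by
        rw [abs_mul, abs_mul]
        exact mul_le_mul_of_nonneg_right h00.le (mul_nonneg (abs_nonneg _) (abs_nonneg _))
      have b1 : |A.1 0 1 * (u 1 * u 1)| ≤ min 1 (b / Q) * (|u 1| * |u 1|) := by
        rw [abs_mul, abs_mul]
        exact mul_le_mul_of_nonneg_right h01.le (mul_nonneg (abs_nonneg _) (abs_nonneg _))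
      have b2 : |A.1 1 0 * (u 0 * u 0)| ≤ min 1 (b / Q) * (|u 0| * |u 0|) := by
        rw [abs_mul, abs_mul]
        exact mul_le_mul_of_nonneg_right h10.le (mul_nonneg (abs_nonneg _) (abs_nonneg _))
      have b3 : |(A.1 1 1 - 1) * (u 0 * u 1)| ≤ min 1 (b / Q) * (|u 0| * |u 1|) := by
        rw [abs_mul, abs_mul]
        exact mul_le_mul_of_nonneg_right h11.le (mul_nonneg (abs_nonneg _) (abs_nonneg _))
      have hsum : min 1 (b / Q) * M u = min 1 (b / Q) * (|u 0| * |u 1|) +
          min 1 (b / Q) * (|u 1| * |u 1|) + min 1 (b / Q) * (|u 0| * |u 0|) +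
          min 1 (b / Q) * (|u 0| * |u 1|) := by
        change min 1 (b / Q) * (|u 0| + |u 1|) ^ 2 = _
        ring
      rw [hE] at h0
      have b0' := abs_le.1 b0
      have b1' := abs_le.1 b1
      have b2' := abs_le.1 b2
      have b3' := abs_le.1 b3
      have : |(A.1 0 0 - 1) * (u 0 * u 1) + A.1 0 1 * (u 1 * u 1) - A.1 1 0 * (u 0 * u 0) -
            (A.1 1 1 - 1) * (u 0 * u 1)| ≤ min 1 (b / Q) * M u := by
        rw [abs_le]
        constructor <;> linarith [b0'.1, b0'.2, b1'.1, b1'.2, b2'.1, b2'.2, b3'.1, b3'.2]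
      linarith
  have hM1 := hM (z d)
  have hM2 := hM (z (T.nxt d))
  have hM3 := hM (z (T.nxt (T.nxt d)))
  have hQdef : Q = 1 + M (z d) + M (z (T.nxt d)) + M (z (T.nxt (T.nxt d))) := rfl
  have k1 := key _ (mem_edges h d) (by linarith)
  have k2 := key _ (mem_edges h (T.nxt d)) (by linarith)
  have k3 := key _ (mem_edges h (T.nxt (T.nxt d))) (by linarith)
  have hz3 : z (T.nxt (T.nxt d)) = -(z d + z (T.nxt d)) :=
    (neg_eq_of_add_eq_zero_right (h.coc.closed d)).symm
  have hz30 : z (T.nxt (T.nxt d)) 0 = -(z d 0 + z (T.nxt d) 0) := by rw [hz3]; rfl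
  have hz31 : z (T.nxt (T.nxt d)) 1 = -(z d 1 + z (T.nxt d) 1) := by rw [hz3]; rfl
  rw [hz30, hz31] at k3
  have hp := h.pos d
  unfold cr at hp
  have hdet : A.1 0 0 * A.1 1 1 - A.1 0 1 * A.1 1 0 = 1 := by
    rw [← Matrix.det_fin_two]
    exact A.2
  generalize z d 0 = x0 at *
  generalize z d 1 = x1 at *
  generalize z (T.nxt d) 0 = y0 at *
  generalize z (T.nxt d) 1 = y1 at *
  have hp2 : (x0 * y1 - x1 * y0) ^ 2 ≠ 0 := pow_ne_zero 2 hp.ne'
  have q0 : A.1 0 1 = 0 := by
    have : (x0 * y1 - x1 * y0) ^ 2 * A.1 0 1 = 0 := by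
      linear_combination (y0 ^ 2 + x0 * y0) * k1 + (x0 ^ 2 + x0 * y0) * k2 - x0 * y0 * k3
    exact (mul_eq_zero.1 this).resolve_left hp2
  have q1 : A.1 1 0 = 0 := by
    have : (x0 * y1 - x1 * y0) ^ 2 * A.1 1 0 = 0 := by
      linear_combination -(y1 ^ 2 + x1 * y1) * k1 - (x1 ^ 2 + x1 * y1) * k2 + x1 * y1 * k3
    exact (mul_eq_zero.1 this).resolve_left hp2
  have q2 : A.1 0 0 = A.1 1 1 := by
    have : (x0 * y1 - x1 * y0) ^ 2 * (A.1 0 0 - A.1 1 1) = 0 := by
      linear_combination (-2 * y1 * y0 - (x0 * y1 + x1 * y0)) * k1 +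
        (-2 * x0 * x1 - (x0 * y1 + x1 * y0)) * k2 + (x0 * y1 + x1 * y0) * k3
    exact sub_eq_zero.1 ((mul_eq_zero.1 this).resolve_left hp2)
  have q3 : A.1 1 1 = 1 := by
    rw [q0, q2] at hdet
    have h1 : (A.1 1 1 - 1) * (A.1 1 1 + 1) = 0 := by linear_combination hdet
    rcases mul_eq_zero.1 h1 with h2 | h2
    · linarith
    · exfalso
      have h3 := (abs_lt.1 h11).1
      have h4 := min_le_left 1 (b / Q)
      linarith
  apply Subtype.ext
  change A.1 = 1
  ext i j
  fin_cases i <;> fin_cases j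
  · change A.1 0 0 = _
    rw [q2, q3]; rfl
  · exact q0
  · exact q1
  · exact q3

end Pool.Veech
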