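import Pool.Agent.Lib.MP_fceebd_gt.M1a

/-! # Rows M1, M2, M3: surfaces without small virtual triangles -/

set_option autoImplicit false

open scoped MatrixGroups

namespace Pool.Veech

variable {D : Type} [Fintype D] [DecidableEq D] {K : Type} [Field K] [NumberField K]
  {T T' : Tri D} {z : D → Vec} {c : Vec} {b : ℝ}

/-- The set of the core vectors of cylinders of horizontal triangulations in edge directions. -/
def cores (T : Tri D) (z : D → Vec) : Set Vec :=
  {c | ∃ T' m v d, GPath T z T' m ∧ Horiz T' (app m z) v ∧ v ∈ edges T z ∧ Up (app m z) v d ∧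
    c = width T' (app m z) v d • v}

namespace M2x

theorem cr_add_left (u u' v : Vec) : cr (u + u') v = cr u v + cr u' v := by
  simp only [cr, Pi.add_apply]
  ring

theorem cr_smul_left (a : ℝ) (u v : Vec) : cr (a • u) v = a * cr u v := by
  simp only [cr, Pi.smul_apply, smul_eq_mul]
  ring

theorem cr_smul_right (a : ℝ) (u v : Vec) : cr u (a • v) = a * cr u v := by
  simp only [cr, Pi.smul_apply, smul_eq_mul]
  ring

theorem cr_comm (u v : Vec) : cr u v = -cr v u := by
  simp only [cr]
  ring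

theorem cr_neg_left (u v : Vec) : cr (-u) v = -cr u v := by
  simp only [cr, Pi.neg_apply]
  ring

/-- `cr _ v` as a homomorphism -/
def crHom (v : Vec) : Vec →+ ℝ where
  toFun u := cr u v
  map_zero' := by simp [cr]
  map_add' u u' := cr_add_left u u' v

theorem crHom_apply (u v : Vec) : crHom v u = cr u v := rfl

theorem cr_sum {ι : Type*} (s : Finset ι) (f : ι → Vec) (v : Vec) :
    cr (∑ i ∈ s, f i) v = ∑ i ∈ s, cr (f i) v := by
  rw [← crHom_apply, map_sum]
  rfl

omit [Fintype D] [DecidableEq D] in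
theorem coc_cr {T : Tri D} {z : D → Vec} (h : IsCoc T z) (v : Vec) :
    IsCoc T (fun e => cr (z e) v) where
  closed d := by
    rw [← cr_add_left, ← cr_add_left, h.closed]
    simp [cr]
  glue d := by rw [h.glue, cr_neg_left]

/-- finite sums with members in a finite set -/
theorem finite_sums (ι : Type) [Fintype ι] {P : Set ℝ} (hP : P.Finite) :
    {s : ℝ | ∃ x : ι → ℝ, (∀ i, x i ∈ P) ∧ s = ∑ i, x i}.Finite := by
  have h1 : {x : ι → ℝ | ∀ i, x i ∈ P}.Finite := Set.Finite.pi' fun _ => hP
  refine (h1.image (fun x : ι → ℝ => ∑ i, x i)).subset ?_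
  rintro s ⟨x, hx, rfl⟩
  exact ⟨x, hx, rfl⟩

/-- products of the members of a finite set with bounded integers -/
theorem finite_mul {P : Set ℝ} (hP : P.Finite) (M : ℕ) :
    {s : ℝ | ∃ x ∈ P, ∃ n : ℤ, |n| ≤ M ∧ s = x * n}.Finite := by
  have h1 : (P ×ˢ (Set.Icc (-(M : ℤ)) M)).Finite := hP.prod (Set.finite_Icc _ _)
  refine (h1.image (fun x : ℝ × ℤ => x.1 * x.2)).subset ?_
  rintro s ⟨x, hx, n, hn, rfl⟩
  exact ⟨(x, n), ⟨hx, abs_le.1 hn⟩, rfl⟩

/-- a path between two reachable triangulations -/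
theorem exists_path {T T₁ T₂ : Tri D} {z : D → Vec} {m₁ m₂ : Matrix D D ℤ}
    (h₁ : GPath T z T₁ m₁) (h₂ : GPath T z T₂ m₂) :
    ∃ m, GPath T₁ (app m₁ z) T₂ m ∧ app m (app m₁ z) = app m₂ z := by
  obtain ⟨m', hm', hinv⟩ := h₁.symm
  have hz : app m' (app m₁ z) = z := hinv _ z h₁.geo_left.coc
  have h₂' : GPath T (app m' (app m₁ z)) T₂ m₂ := by rw [hz]; exact h₂
  refine ⟨m₂ * m', hm'.trans h₂', ?_⟩
  rw [app_mul, hz]

end M2x

open M2x

/-- M2. With the arithmetic data, there are only finitely many values of `cr c (z' d)`, where `c` is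
a core vector of a cylinder of a horizontal triangulation `T'` and `d` is an upward dart of the
same triangulation: these are the numbers `w_r h_s`, and
this is `Arith.finite_values` together with `NSVT.horiz`, `Horiz.comm_of_nsvt`. -/
theorem Arith.core_values {ι : K →+* ℝ} {zK : D → Fin 2 → K} {m : Matrix D D ℤ} {t : K} {N : ℕ}
    (hA : Arith T z ι zK m t N) (hb : 0 < b) (hN : NSVT T z b) :
    ∃ S : Set ℝ, S.Finite ∧ ∀ T' m' v d d', GPath T z T' m' → Horiz T' (app m' z) v →
      v ∈ edges T z → Up (app m' z) v d → Up (app m' z) v d' →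
      width T' (app m' z) v d * cr (app m' z d') v ∈ S := by
  obtain ⟨S, hS, h⟩ := hA.finite_values
  exact ⟨S, hS, fun T' m' v d d' hm hH _ hd hd' =>
    h T' m' v hm hH (hH.comm_of_nsvt hb (NSVT.trans hm hN)) d d' hd hd'⟩

namespace M2x

/-- the decomposition of the height of an edge vector -/
theorem height_dec {T T₁ : Tri D} {z : D → Vec} {m₁ : Matrix D D ℤ} {v e : Vec}
    (h₁ : GPath T z T₁ m₁) (hH : Horiz T₁ (app m₁ z) v) (he : e ∈ edges T z) (hne : cr e v ≠ 0) :
    ∃ (R : Finset D) (n : D → ℤ), (∀ r ∈ R, Up (app m₁ z) v r) ∧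
      (∀ r ∈ R, 0 ≤ (n r : ℝ) * cr e v) ∧ cr e v = ∑ r ∈ R, cr (app m₁ z r) v * n r := by
  obtain ⟨T₂, m₂, d₂, h₂, rfl⟩ := he
  obtain ⟨m, hm, hmz⟩ := exists_path h₁ h₂
  obtain ⟨R, hR, hR'⟩ := hH.exists_reps
  have hcoc := coc_cr hH.geo.coc v
  have hdec := hH.dec hR hR' hcoc (fun e he => he)
  refine ⟨R, fun r => app m (iota T₁ (app m₁ z) v r) d₂, hR, ?_, ?_⟩
  · intro r hr
    have hcyl := hH.isCyl (hR r hr)
    obtain ⟨h3, -⟩ := hcyl.bound T₂ m hm d₂
    rw [hmz, cr_smul_right] at h3
    have hw := hH.width_pos (hR r hr)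
    have h4 : (0 : ℝ) ≤ width T₁ (app m₁ z) v r *
        (((app m (iota T₁ (app m₁ z) v r) d₂ : ℤ) : ℝ) * cr (app m₂ z d₂) v) := by
      calc (0 : ℝ) ≤ _ := h3
        _ = _ := by ring
    exact nonneg_of_mul_nonneg_right h4 hw
  · have h5 : cr (app m₂ z d₂) v = app m (fun e => cr (app m₁ z e) v) d₂ := by
      rw [← hmz, ← crHom_apply, ← app_map]
      rfl
    have h6 : (fun e => cr (app m₁ z e) v) =
        ∑ r ∈ R, cr (app m₁ z r) v • (fun e => (iota T₁ (app m₁ z) v r e : ℝ)) := by
      funext e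
      rw [hdec e, Finset.sum_apply]
      refine Finset.sum_congr rfl fun r _ => ?_
      rw [Pi.smul_apply, smul_eq_mul, zsmul_eq_mul, mul_comm]
    rw [h5, h6, app_sum, Finset.sum_apply]
    refine Finset.sum_congr rfl fun r _ => ?_
    rw [app_smul, Pi.smul_apply, smul_eq_mul, app_intCast]

/-- the values of the heights of edge vectors times the widths -/
theorem values {T : Tri D} {z : D → Vec} {S : Set ℝ} (hS : S.Finite)
    (hval : ∀ T' m' v d d', GPath T z T' m' → Horiz T' (app m' z) v →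
      v ∈ edges T z → Up (app m' z) v d → Up (app m' z) v d' →
      width T' (app m' z) v d * cr (app m' z d') v ∈ S) (R : ℝ) :
    ∃ S' : Set ℝ, S'.Finite ∧ (0 : ℝ) ∈ S' ∧
      ∀ c ∈ cores T z, ∀ e ∈ edges T z, |cr e c| ≤ R → cr e c ∈ S' := by
  classical
  obtain ⟨M, hM⟩ : ∃ M : ℕ, ∀ s ∈ S, R / s ≤ M := by
    obtain ⟨B, hB⟩ := (hS.image fun s => R / s).bddAbove
    exact ⟨⌈B⌉₊, fun s hs => (hB ⟨s, hs, rfl⟩).trans (Nat.le_ceil B)⟩
  have hS0 : (insert 0 S).Finite := hS.insert 0
  refine ⟨{s : ℝ | ∃ x : D → ℝ, (∀ i, x i ∈ {s : ℝ | ∃ x ∈ insert 0 S, ∃ n : ℤ, |n| ≤ M ∧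
    s = x * n}) ∧ s = ∑ i, x i}, finite_sums D (finite_mul hS0 M), ?_, ?_⟩
  · refine ⟨fun _ => 0, fun _ => ⟨0, Set.mem_insert _ _, 0, by simp, by simp⟩, by simp⟩
  · rintro c ⟨T₁, m₁, v, d, h₁, hH, hv, hd, rfl⟩ e he hR
    have hw := hH.width_pos hd
    rw [cr_smul_right] at hR ⊢
    by_cases hne : cr e v = 0
    · rw [hne, mul_zero]
      exact ⟨fun _ => 0, fun _ => ⟨0, Set.mem_insert _ _, 0, by simp, by simp⟩, by simp⟩
    obtain ⟨R', n, hup, hn, hsum⟩ := height_dec h₁ hH he hne
    -- the absolute values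
    have habs : |width T₁ (app m₁ z) v d * cr e v| =
        ∑ r ∈ R', width T₁ (app m₁ z) v d * cr (app m₁ z r) v * |(n r : ℝ)| := by
      have h1 : ∀ r ∈ R', 0 ≤ width T₁ (app m₁ z) v d * cr (app m₁ z r) v := fun r hr =>
        mul_nonneg hw.le (hup r hr).le
      rcases lt_or_gt_of_ne hne with hlt | hgt
      · have h2 : ∀ r ∈ R', (n r : ℝ) ≤ 0 := by
          intro r hr
          by_contra hcon
          rw [not_le] at hcon
          exact absurd (hn r hr) (not_le.2 (mul_neg_of_pos_of_neg hcon hlt))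
        rw [abs_of_neg (mul_neg_of_pos_of_neg hw hlt), hsum, Finset.mul_sum,
          ← Finset.sum_neg_distrib]
        refine Finset.sum_congr rfl fun r hr => ?_
        rw [abs_of_nonpos (h2 r hr)]
        ring
      · have h2 : ∀ r ∈ R', 0 ≤ (n r : ℝ) := by
          intro r hr
          by_contra hcon
          rw [not_le] at hcon
          exact absurd (hn r hr) (not_le.2 (mul_neg_of_neg_of_pos hcon hgt))
        rw [abs_of_pos (mul_pos hw hgt), hsum, Finset.mul_sum]
        refine Finset.sum_congr rfl fun r hr => ?_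
        rw [abs_of_nonneg (h2 r hr)]
        ring
    have hterm : ∀ r ∈ R', |n r| ≤ M := by
      intro r hr
      have hs : 0 < width T₁ (app m₁ z) v d * cr (app m₁ z r) v := mul_pos hw (hup r hr)
      have h3 : width T₁ (app m₁ z) v d * cr (app m₁ z r) v * |(n r : ℝ)| ≤ R := by
        refine le_trans ?_ (habs ▸ hR)
        exact Finset.single_le_sum (f := fun r => width T₁ (app m₁ z) v d *
          cr (app m₁ z r) v * |(n r : ℝ)|) (fun r' hr' => mul_nonneg
            (mul_nonneg hw.le (hup r' hr').le) (abs_nonneg _)) hr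
      have h4 : |(n r : ℝ)| ≤ R / (width T₁ (app m₁ z) v d * cr (app m₁ z r) v) := by
        rw [le_div_iff₀ hs]
        linarith
      have h5 := h4.trans (hM _ (hval T₁ m₁ v d r h₁ hH hv hd (hup r hr)))
      exact_mod_cast h5
    refine ⟨fun r => if r ∈ R' then
      width T₁ (app m₁ z) v d * cr (app m₁ z r) v * n r else 0, fun r => ?_, ?_⟩
    · beta_reduce
      by_cases hr : r ∈ R'
      · rw [if_pos hr]
        exact ⟨_, Set.mem_insert_of_mem _ (hval T₁ m₁ v d r h₁ hH hv hd (hup r hr)), n r,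
          hterm r hr, rfl⟩
      · rw [if_neg hr]
        exact ⟨0, Set.mem_insert _ _, 0, by simp, by simp⟩
    · rw [hsum, Finset.mul_sum, Finset.sum_ite_mem, Finset.univ_inter]
      refine Finset.sum_congr rfl fun r _ => ?_
      ring

/-- a core vector is a sum of horizontal edge vectors of one direction -/
theorem core_sum {T T₁ : Tri D} {z : D → Vec} {m₁ : Matrix D D ℤ} {v : Vec} {d : D}
    (h₁ : GPath T z T₁ m₁) (hH : Horiz T₁ (app m₁ z) v) (hd : Up (app m₁ z) v d) :
    ∃ u : Fin (Fintype.card D) → Vec, (∀ i, u i = 0 ∨ (u i ∈ edges T z ∧ ∃ μ : ℝ, 0 < μ ∧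
      u i = μ • v)) ∧ width T₁ (app m₁ z) v d • v = ∑ i, u i := by
  classical
  obtain ⟨n, δ, w, hw, hδ0, hS, hcrs, hstep⟩ := hH.exists_strip hd
  -- `w` is the width
  have hvne : v ≠ 0 := hH.cne
  have hnq : nq v ≠ 0 := by
    intro h0
    apply hvne
    have h1 : v 0 * v 0 + v 1 * v 1 = 0 := h0
    funext i
    fin_cases i
    · change v 0 = 0
      nlinarith [mul_self_nonneg (v 0), mul_self_nonneg (v 1)]
    · change v 1 = 0
      nlinarith [mul_self_nonneg (v 0), mul_self_nonneg (v 1)]
  have hwidth : width T₁ (app m₁ z) v d = w := by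
    unfold width
    have h1 : (fun j => form T₁ (fun e => (iota T₁ (app m₁ z) v d e : ℝ))
        (fun e => app m₁ z e j)) = fun j => 6 * (w • v) j := by
      funext j
      rw [← hcrs]
      exact hS.form_eq hH.geo j
    rw [h1]
    have h2 : ip (fun j => 6 * (w • v) j) v = 6 * w * nq v := by
      simp only [ip, nq, Pi.smul_apply, smul_eq_mul]
      ring
    rw [h2]
    field_simp
  have hn : n ≤ Fintype.card D := by
    have h1 : Set.InjOn δ (Finset.range n : Set ℕ) := by
      intro j hj k hk hjk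
      exact hS.inj j k (Finset.mem_range.1 hj) (Finset.mem_range.1 hk) hjk
    have h2 := Finset.card_image_of_injOn h1
    rw [Finset.card_range] at h2
    rw [← h2]
    exact Finset.card_le_univ _
  set f : ℕ → Vec := fun k => if k < n then (if Top T₁ δ k then app m₁ z (T₁.nxt (δ k)) else 0)
    else 0 with hf
  refine ⟨fun i => f i, fun i => ?_, ?_⟩
  · beta_reduce
    by_cases hi : (i : ℕ) < n
    · by_cases ht : Top T₁ δ i
      · right
        have hfi : f i = app m₁ z (T₁.nxt (δ i)) := by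
          rw [hf]
          simp only [if_pos hi, if_pos ht]
        rw [hfi]
        refine ⟨⟨T₁, m₁, _, h₁, rfl⟩, ?_⟩
        have hup : Up (app m₁ z) v (δ i) := by
          have h3 : ∀ k : ℕ, δ k = (Veech.hstep T₁ (app m₁ z) v)^[k] d := by
            intro k
            induction k with
            | zero => exact hδ0
            | succ k ih => rw [hstep k, Function.iterate_succ_apply', ← ih]
          rw [h3]
          exact hH.step_iter_up hd i
        rcases hH.cases hup with ⟨μ, hμ, h4, -, -⟩ | ⟨μ, hμ, -, -, h5⟩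
        · exact ⟨μ, hμ, h4⟩
        · exfalso
          have h6 : δ (i + 1) = T₁.opp (T₁.nxt (T₁.nxt (δ i))) := ht
          rw [hstep i, h5] at h6
          have h7 : T₁.nxt (δ i) = δ i := (T₁.nxt.injective (T₁.opp.injective h6)).symm
          have h8 := hH.geo.pos (δ i)
          rw [h7] at h8
          have h9 : cr (app m₁ z (δ i)) (app m₁ z (δ i)) = 0 := by
            simp only [cr]
            ring
          rw [h9] at h8
          exact lt_irrefl _ h8
      · left
        rw [hf]
        simp only [if_pos hi, if_neg ht]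
    · left
      rw [hf]
      simp only [if_neg hi]
  · have h1 : ∑ i : Fin (Fintype.card D), f i = ∑ k ∈ Finset.range (Fintype.card D), f k :=
      (Finset.sum_range f).symm
    rw [hwidth, h1, ← Finset.sum_subset (Finset.range_mono hn) (fun k _ hk => by
      rw [hf]
      simp only [if_neg (fun h => hk (Finset.mem_range.2 h))]), hS.core]
    refine Finset.sum_congr rfl fun k hk => ?_
    rw [hf]
    simp only [if_pos (Finset.mem_range.1 hk)]

end M2x

/-- M2. For a core vector `c` and an edge vector `e` (or a core vector `e`, which is a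
sum of edge vectors), `cr e c` is an integral combination of elements of `S`, with coefficients of
one sign, so it is in a finite set if it is bounded. -/
theorem Arith.core_cr {ι : K →+* ℝ} {zK : D → Fin 2 → K} {m : Matrix D D ℤ} {t : K} {N : ℕ}
    (hA : Arith T z ι zK m t N) (hb : 0 < b) (hN : NSVT T z b) (R : ℝ) :
    ∃ S : Set ℝ, S.Finite ∧ (∀ c ∈ cores T z, ∀ e ∈ edges T z, |cr e c| ≤ R → cr e c ∈ S) ∧
      ∀ c ∈ cores T z, ∀ e ∈ cores T z, |cr e c| ≤ R → cr e c ∈ S := by
  obtain ⟨S, hS, hval⟩ := hA.core_values hb hN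
  obtain ⟨S', hS', h0, hval'⟩ := values hS hval R
  refine ⟨S' ∪ {s : ℝ | ∃ x : Fin (Fintype.card D) → ℝ, (∀ i, x i ∈ S') ∧ s = ∑ i, x i},
    hS'.union (finite_sums _ hS'), fun c hc e he hR => Or.inl (hval' c hc e he hR), ?_⟩
  rintro c hc e ⟨T₁, m₁, v, d, h₁, hH, hv, hd, rfl⟩ hR
  right
  obtain ⟨u, hu, hsum⟩ := core_sum h₁ hH hd
  rw [hsum, cr_sum] at hR ⊢
  refine ⟨fun i => cr (u i) c, fun i => ?_, rfl⟩
  beta_reduce
  rcases hu i with h1 | ⟨h1, μ, hμ, h2⟩
  · have h3 : cr (u i) c = 0 := by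
      rw [h1]
      simp [cr]
    rw [h3]
    exact h0
  · refine hval' c hc _ h1 (le_trans ?_ hR)
    -- all terms have the same sign
    have hsgn : ∀ j, 0 ≤ cr (u j) c * cr v c := by
      intro j
      rcases hu j with h4 | ⟨-, ν, hν, h4⟩
      · rw [h4]
        simp [cr]
      · rw [h4, cr_smul_left]
        have h5 : ν * cr v c * cr v c = ν * (cr v c * cr v c) := by ring
        rw [h5]
        exact mul_nonneg hν.le (mul_self_nonneg _)
    rcases lt_trichotomy (cr v c) 0 with hlt | heq | hgt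
    · have h6 : ∀ j, cr (u j) c ≤ 0 := by
        intro j
        by_contra hcon
        rw [not_le] at hcon
        exact absurd (hsgn j) (not_le.2 (mul_neg_of_pos_of_neg hcon hlt))
      have h7 : ∑ j, cr (u j) c ≤ cr (u i) c := by
        have h8 := Finset.single_le_sum (f := fun j => -cr (u j) c)
          (fun j _ => neg_nonneg.2 (h6 j)) (Finset.mem_univ i)
        rw [Finset.sum_neg_distrib] at h8
        linarith
      rw [abs_of_nonpos (h6 i), abs_of_nonpos (h7.trans (h6 i))]
      linarith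
    · rw [h2, cr_smul_left, heq, mul_zero, abs_zero]
      exact abs_nonneg _
    · have h6 : ∀ j, 0 ≤ cr (u j) c := by
        intro j
        by_contra hcon
        rw [not_le] at hcon
        exact absurd (hsgn j) (not_le.2 (mul_neg_of_neg_of_pos hcon hgt))
      have h7 : cr (u i) c ≤ ∑ j, cr (u j) c :=
        Finset.single_le_sum (f := fun j => cr (u j) c) (fun j _ => h6 j) (Finset.mem_univ i)
      rw [abs_of_nonneg (h6 i), abs_of_nonneg ((h6 i).trans h7)]
      exact h7

/-- M2. core vectors are bounded by edge vectors: `width * h ≤ area / 6` and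
`b ≤ |cr v (z' d)|` for the upward darts `d` -/
theorem NSVT.core_le (h : Geo T z) (hb : 0 < b) (hN : NSVT T z b) {m : Matrix D D ℤ} {v : Vec}
    {d : D} (hm : GPath T z T' m) (hH : Horiz T' (app m z) v) (hv : v ∈ edges T z)
    (hd : Up (app m z) v d) : width T' (app m z) v d ≤ area T z / (6 * b) := by
  obtain ⟨R, hR, hR'⟩ := hH.exists_reps
  have harea := hH.area_eq hR hR'
  rw [hm.area] at harea
  obtain ⟨r, ⟨hr, k, hk⟩, -⟩ := hR' d hd
  have hwr := hH.width_pos (hR r hr)
  have hwd : width T' (app m z) v d = width T' (app m z) v r := by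
    rw [← hk]
    exact (hH.width_step (hR r hr) k).2
  have hbr : b ≤ cr (app m z r) v := by
    have h1 : 0 < cr (app m z r) v := hR r hr
    rcases hN (app m z r) ⟨T', m, r, hm, rfl⟩ v hv with h2 | h2
    · exact absurd h2 h1.ne'
    · rwa [abs_of_pos h1] at h2
  have h3 : 6 * (width T' (app m z) v r * cr (app m z r) v) ≤ area T z := by
    rw [harea]
    exact Finset.single_le_sum (f := fun r => 6 * (width T' (app m z) v r *
      cr (app m z r) v)) (fun r' hr' => mul_nonneg (by norm_num)
        (mul_nonneg (hH.width_pos (hR r' hr')).le (hR r' hr').le)) hr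
  rw [hwd, le_div_iff₀ (by positivity)]
  have h4 : width T' (app m z) v r * b ≤ width T' (app m z) v r * cr (app m z r) v :=
    mul_le_mul_of_nonneg_left hbr hwr.le
  linarith

end Pool.Veech
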