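import Pool.Agent.Lib.MP_fceebd_gt.M2

/-! # Rows M1, M2, M3: surfaces without small virtual triangles -/

set_option autoImplicit false

open scoped MatrixGroups

namespace Pool.Veech

variable {D : Type} [Fintype D] [DecidableEq D] {K : Type} [Field K] [NumberField K]
  {T T' : Tri D} {z : D → Vec} {c : Vec} {b : ℝ}

private theorem M3_nq_nonneg (u : Vec) : 0 ≤ nq u := by
  simp only [nq, ip]
  nlinarith [mul_self_nonneg (u 0), mul_self_nonneg (u 1)]

private theorem M3_cr_sq_le (x y : Vec) : cr x y ^ 2 ≤ nq x * nq y := by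
  simp only [cr, nq, ip]
  nlinarith [sq_nonneg (x 0 * y 0 + x 1 * y 1)]

/-- the cross product of two vectors with `nq ≤ L` -/
private theorem M3_cr_le {x y : Vec} {L : ℝ} (hx : nq x ≤ L) (hy : nq y ≤ L) : |cr x y| ≤ L := by
  have h0 : 0 ≤ L := (M3_nq_nonneg x).trans hx
  apply abs_le_of_sq_le_sq _ h0
  calc cr x y ^ 2 ≤ nq x * nq y := M3_cr_sq_le x y
    _ ≤ L * L := mul_le_mul hx hy (M3_nq_nonneg y) h0
    _ = L ^ 2 := by ring

private theorem M3_plucker (v e c c' : Vec) :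
    cr v e * cr c c' = cr v c * cr e c' - cr v c' * cr e c := by
  simp only [cr]
  ring

/-- each edge vector is parallel to a core vector which is not much longer -/
private theorem M3_core (hz : Geo T z) (hb : 0 < b) (hN : NSVT T z b) {v : Vec}
    (hv : v ∈ edges T z) :
    ∃ ω : ℝ, 0 < ω ∧ ω ≤ area T z / (6 * b) ∧ ω • v ∈ cores T z := by
  obtain ⟨⟨T', m, hp, hH, -⟩, -⟩ := NSVT.horiz hz hb hN hv
  obtain ⟨T0, m0, d0, hp0, rfl⟩ := hv
  -- an upward dart
  have hup : ∃ d, Up (app m z) (app m0 z d0) d := by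
    have hpos := hH.geo.pos d0
    by_contra hcon
    push Not at hcon
    have hz0 : ∀ d, cr (app m z d) (app m0 z d0) = 0 := by
      intro d
      have h1 : ¬ 0 < cr (app m z d) (app m0 z d0) := hcon d
      have h2 : ¬ 0 < cr (app m z (T'.opp d)) (app m0 z d0) := hcon _
      rw [hH.geo.coc.glue] at h2
      have h3 : cr (-app m z d) (app m0 z d0) = -cr (app m z d) (app m0 z d0) := by
        simp only [cr, Pi.neg_apply]
        ring
      rw [h3] at h2
      linarith [not_lt.1 h1, not_lt.1 h2]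
    have h4 := hz0 d0
    have h5 := hz0 (T'.nxt d0)
    have h6 := M3_plucker (app m z d0) (app m z (T'.nxt d0)) (app m0 z d0)
      ![(app m0 z d0) 1 * (-1), (app m0 z d0) 0]
    rw [h4, h5, zero_mul, mul_zero, sub_zero] at h6
    have h7 : cr (app m0 z d0) ![(app m0 z d0) 1 * (-1), (app m0 z d0) 0] = nq (app m0 z d0) := by
      simp only [cr, nq, ip, Matrix.cons_val_zero, Matrix.cons_val_one]
      ring
    rw [h7] at h6
    have h8 : app m0 z d0 = 0 := by
      rcases mul_eq_zero.1 h6 with h | h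
      · exact absurd h hpos.ne'
      · have h0 : (app m0 z d0) 0 * (app m0 z d0) 0 + (app m0 z d0) 1 * (app m0 z d0) 1 = 0 := h
        funext i
        fin_cases i
        · simp only [Fin.zero_eta, Pi.zero_apply]
          nlinarith [mul_self_nonneg ((app m0 z d0) 0), mul_self_nonneg ((app m0 z d0) 1)]
        · simp only [Fin.mk_one, Pi.zero_apply]
          nlinarith [mul_self_nonneg ((app m0 z d0) 0), mul_self_nonneg ((app m0 z d0) 1)]
    exact hH.cne h8
  obtain ⟨d, hd⟩ := hup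
  refine ⟨width T' (app m z) (app m0 z d0) d, hH.width_pos hd,
    NSVT.core_le hz hb hN hp hH ⟨T0, m0, d0, hp0, rfl⟩ hd, ?_⟩
  exact ⟨T', m, app m0 z d0, d, hp, hH, ⟨T0, m0, d0, hp0, rfl⟩, hd, rfl⟩

/-- M3. For `B` in `SL2` and an almost Delaunay triangulation `T'` of `B z` all of whose darts have
`nq ≤ L`, the cross products of the darts of `T'` are in a finite set which does not depend on `B`
and `T'`: use the core vectors `c`, `c'` for the directions of two sides of a triangle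
of `T'`, and `cr v e * cr c c' = cr v c * cr e c' - cr v c' * cr e c` (up to sign). -/
theorem Arith.thick_values {ι : K →+* ℝ} {zK : D → Fin 2 → K} {m : Matrix D D ℤ} {t : K}
    {N : ℕ} (hA : Arith T z ι zK m t N) (hb : 0 < b) (hN : NSVT T z b) (L : ℝ) :
    ∃ S : Set ℝ, S.Finite ∧ ∀ (B : SL(2, ℝ)) (T' : Tri D) (m' : Matrix D D ℤ),
      GPath T z T' m' → (∀ d, nq (B.1.mulVec (app m' z d)) ≤ L) →
      ∀ d d', cr (app m' z d) (app m' z d') ∈ S := by
  set W := area T z / (6 * b) with hW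
  obtain ⟨S, hS, hS1, hS2⟩ := Arith.core_cr hA hb hN (|W| * |L| + W ^ 2 * |L|)
  refine ⟨(fun x : (ℝ × ℝ) × (ℝ × ℝ) × ℝ => (x.1.1 * x.1.2 - x.2.1.1 * x.2.1.2) / x.2.2) ''
    (((S ∪ Neg.neg '' S) ×ˢ (S ∪ Neg.neg '' S)) ×ˢ
      ((S ∪ Neg.neg '' S) ×ˢ (S ∪ Neg.neg '' S)) ×ˢ (S ∪ Neg.neg '' S)), ?_, ?_⟩
  · have h1 : (S ∪ Neg.neg '' S).Finite := hS.union (hS.image _)
    exact ((h1.prod h1).prod ((h1.prod h1).prod h1)).image _
  intro B T' m' hp hL d d'
  have hz := hp.geo_left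
  have hbound : ∀ e e', |cr (app m' z e) (app m' z e')| ≤ L := by
    intro e e'
    have h1 := M3_cr_le (hL e) (hL e')
    rwa [cr_mulVec, B.2, one_mul] at h1
  have hL0 : 0 ≤ L := (abs_nonneg _).trans (hbound d d)
  have hmem : ∀ e, app m' z e ∈ edges T z := fun e => ⟨T', m', e, hp, rfl⟩
  obtain ⟨ω, hω, hωW, hc⟩ := M3_core hz hb hN (hmem d)
  obtain ⟨ω', hω', hωW', hc'⟩ := M3_core hz hb hN (hmem (T'.nxt d))
  have hW0 : 0 < W := hω.trans_le hωW
  have hpos := hp.geo.pos d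
  have hsm : ∀ (a a' : ℝ) (x y : Vec), cr (a • x) (a' • y) = a * a' * cr x y := by
    intro a a' x y
    simp only [cr, Pi.smul_apply, smul_eq_mul]
    ring
  have hsm' : ∀ (a' : ℝ) (x y : Vec), cr x (a' • y) = a' * cr x y := by
    intro a' x y
    simp only [cr, Pi.smul_apply, smul_eq_mul]
    ring
  have hR1 : ∀ e, |cr (app m' z e) (ω • app m' z d)| ≤ |W| * |L| + W ^ 2 * |L| := by
    intro e
    rw [hsm', abs_mul, abs_of_pos hω, abs_of_pos hW0, abs_of_nonneg hL0]
    have h1 : ω * |cr (app m' z e) (app m' z d)| ≤ W * L :=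
      mul_le_mul hωW (hbound _ _) (abs_nonneg _) hW0.le
    have h2 : 0 ≤ W ^ 2 * L := by positivity
    linarith
  have hR2 : ∀ e, |cr (app m' z e) (ω' • app m' z (T'.nxt d))| ≤ |W| * |L| + W ^ 2 * |L| := by
    intro e
    rw [hsm', abs_mul, abs_of_pos hω', abs_of_pos hW0, abs_of_nonneg hL0]
    have h1 : ω' * |cr (app m' z e) (app m' z (T'.nxt d))| ≤ W * L :=
      mul_le_mul hωW' (hbound _ _) (abs_nonneg _) hW0.le
    have h2 : 0 ≤ W ^ 2 * L := by positivity
    linarith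
  have hR3 : |cr (ω' • app m' z (T'.nxt d)) (ω • app m' z d)| ≤ |W| * |L| + W ^ 2 * |L| := by
    rw [hsm, abs_mul, abs_of_pos (mul_pos hω' hω), abs_of_pos hW0, abs_of_nonneg hL0]
    have h1 : ω' * ω * |cr (app m' z (T'.nxt d)) (app m' z d)| ≤ W * W * L :=
      mul_le_mul (mul_le_mul hωW' hωW hω.le hW0.le) (hbound _ _) (abs_nonneg _) (by positivity)
    have h2 : 0 ≤ W * L := by positivity
    nlinarith
  have hpl := M3_plucker (app m' z d) (app m' z d') (ω • app m' z d) (ω' • app m' z (T'.nxt d))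
  have hne : cr (ω • app m' z d) (ω' • app m' z (T'.nxt d)) ≠ 0 := by
    rw [hsm]
    positivity
  have hanti : ∀ x y : Vec, cr x y = -cr y x := by
    intro x y
    simp only [cr]
    ring
  refine ⟨((cr (app m' z d) (ω • app m' z d), cr (app m' z d') (ω' • app m' z (T'.nxt d))),
    (cr (app m' z d) (ω' • app m' z (T'.nxt d)), cr (app m' z d') (ω • app m' z d)),
    cr (ω • app m' z d) (ω' • app m' z (T'.nxt d))), ⟨⟨?_, ?_⟩, ⟨?_, ?_⟩, ?_⟩, ?_⟩
  · exact Or.inl (hS1 _ hc _ (hmem d) (hR1 d))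
  · exact Or.inl (hS1 _ hc' _ (hmem d') (hR2 d'))
  · exact Or.inl (hS1 _ hc' _ (hmem d) (hR2 d))
  · exact Or.inl (hS1 _ hc _ (hmem d') (hR1 d'))
  · refine Or.inr ⟨_, hS2 _ hc _ hc' hR3, ?_⟩
    exact (hanti _ _).symm
  · show (cr (app m' z d) (ω • app m' z d) * cr (app m' z d') (ω' • app m' z (T'.nxt d)) -
      cr (app m' z d) (ω' • app m' z (T'.nxt d)) * cr (app m' z d') (ω • app m' z d)) /
      cr (ω • app m' z d) (ω' • app m' z (T'.nxt d)) = cr (app m' z d) (app m' z d')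
    rw [← hpl, mul_div_cancel_right₀ _ hne]

/-! ### Linear maps given by two vectors -/

/-- the coordinates of a vector in the basis `x`, `x'` -/
private theorem M3_coord (x x' v : Vec) :
    cr x x' • v = cr v x' • x - cr v x • x' := by
  funext i
  simp only [cr, Pi.smul_apply, Pi.sub_apply, smul_eq_mul]
  fin_cases i
  · simp only [Fin.zero_eta]; ring
  · simp only [Fin.mk_one]; ring

/-- The linear map which maps `x`, `x'` to `y`, `y'`. -/
private theorem M3_map (x x' y y' : Vec) (hq : cr x x' ≠ 0) (hyx : cr y y' = cr x x') :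
    ∃ A : SL(2, ℝ), (∀ v, A.1.mulVec v = (cr x x')⁻¹ • (cr v x' • y - cr v x • y')) := by
  refine ⟨⟨!![(cr x x')⁻¹ * (x' 1 * y 0 - x 1 * y' 0), (cr x x')⁻¹ * (-x' 0 * y 0 + x 0 * y' 0);
    (cr x x')⁻¹ * (x' 1 * y 1 - x 1 * y' 1), (cr x x')⁻¹ * (-x' 0 * y 1 + x 0 * y' 1)], ?_⟩,
    fun v => ?_⟩
  · rw [Matrix.det_fin_two_of]
    have h1 : cr y y' * (cr x x')⁻¹ = 1 := by rw [hyx, mul_inv_cancel₀ hq]
    have h2 : (cr x x')⁻¹ * (x' 1 * y 0 - x 1 * y' 0) *
        ((cr x x')⁻¹ * (-x' 0 * y 1 + x 0 * y' 1)) -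
        (cr x x')⁻¹ * (-x' 0 * y 0 + x 0 * y' 0) *
        ((cr x x')⁻¹ * (x' 1 * y 1 - x 1 * y' 1)) =
        (cr x x' * (cr x x')⁻¹) * (cr y y' * (cr x x')⁻¹) := by
      have e1 : cr x x' = x 0 * x' 1 - x 1 * x' 0 := rfl
      have e2 : cr y y' = y 0 * y' 1 - y 1 * y' 0 := rfl
      generalize (cr x x')⁻¹ = k
      rw [e1, e2]
      ring
    rw [h2, h1, mul_inv_cancel₀ hq, one_mul]
  · funext i
    fin_cases i
    · simp only [Matrix.mulVec, dotProduct, Fin.sum_univ_two, Fin.zero_eta, Matrix.of_apply,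
        Matrix.cons_val_zero, Matrix.cons_val_one, Matrix.cons_val_fin_one, Pi.smul_apply,
        Pi.sub_apply, smul_eq_mul]
      have e1 : cr v x' = v 0 * x' 1 - v 1 * x' 0 := rfl
      have e2 : cr v x = v 0 * x 1 - v 1 * x 0 := rfl
      rw [e1, e2]
      ring
    · simp only [Matrix.mulVec, dotProduct, Fin.sum_univ_two, Fin.mk_one, Matrix.of_apply,
        Matrix.cons_val_zero, Matrix.cons_val_one, Matrix.cons_val_fin_one, Pi.smul_apply,
        Pi.sub_apply, smul_eq_mul]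
      have e1 : cr v x' = v 0 * x' 1 - v 1 * x' 0 := rfl
      have e2 : cr v x = v 0 * x 1 - v 1 * x 0 := rfl
      rw [e1, e2]
      ring

/-- Two triangulations with the same cross products differ by a linear map, which is the derivative
of an affine map. -/
private theorem M3_aff [Nonempty D] (hz : Geo T z) {m' m'' : Matrix D D ℤ} (hp : GPath T z T' m')
    (hp' : GPath T z T' m'')
    (hcr : ∀ d d', cr (app m' z d) (app m' z d') = cr (app m'' z d) (app m'' z d'))
    (d₀ : D) :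
    ∃ M : SL(2, ℝ), M ∈ aff T z hz ∧ ∀ v, M.1.mulVec v =
      (cr (app m' z d₀) (app m' z (T'.nxt d₀)))⁻¹ •
        (cr v (app m' z (T'.nxt d₀)) • app m'' z d₀ - cr v (app m' z d₀) •
          app m'' z (T'.nxt d₀)) := by
  have hq := (hp.geo.pos d₀).ne'
  obtain ⟨M, hM⟩ := M3_map (app m' z d₀) (app m' z (T'.nxt d₀)) (app m'' z d₀)
    (app m'' z (T'.nxt d₀)) hq (hcr _ _).symm
  refine ⟨M, ?_, hM⟩
  -- `M` maps the darts to the darts
  have hMd : ∀ d, M.1.mulVec (app m' z d) = app m'' z d := by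
    intro d
    have h1 := M3_coord (app m'' z d₀) (app m'' z (T'.nxt d₀)) (app m'' z d)
    rw [hM, hcr d (T'.nxt d₀), hcr d d₀, ← h1, ← hcr d₀ (T'.nxt d₀), smul_smul,
      inv_mul_cancel₀ hq, one_smul]
  have hlin : app m'' z = lin M.1 (app m' z) := by
    funext d
    exact (hMd d).symm
  obtain ⟨n, hn, hn'⟩ := hp'.symm
  have h2 : lin M⁻¹.1 (app m'' z) = app m' z := by
    rw [hlin, lin_lin, ← Matrix.SpecialLinearGroup.coe_mul, inv_mul_cancel,
      Matrix.SpecialLinearGroup.coe_one, lin_one]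
  have h3 : GPath T' (app m' z) T n := by
    have := hn.lin M⁻¹.1 (det_pos M⁻¹)
    rwa [h2] at this
  have h4 : M⁻¹ ∈ aff T z hz := by
    refine ⟨n * m', hp.trans h3, ?_⟩
    rw [app_mul, ← h2, app_lin, hn' _ z hz.coc]
  have h5 := (aff T z hz).inv_mem h4
  rwa [inv_inv] at h5

/-- M3. pigeonhole: among infinitely many matrices `B_k` such that `B_k z` has a triangulation with
bounded darts there are two, `k < l`, with `B_l⁻¹ A B_k` in the affine group, where the entries of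
`A` are bounded by a constant -/
theorem Arith.pigeon [Nonempty D] {ι : K →+* ℝ} {zK : D → Fin 2 → K} {m : Matrix D D ℤ} {t : K}
    {N : ℕ} (hz : Geo T z) (hA : Arith T z ι zK m t N) (hb : 0 < b) (hN : NSVT T z b) (L : ℝ) :
    ∃ R : ℝ, ∀ B : ℕ → SL(2, ℝ),
      (∀ k, ∃ T' m', GPath T z T' m' ∧ ∀ d, nq ((B k).1.mulVec (app m' z d)) ≤ L) →
      ∃ k l, k < l ∧ ∃ A : SL(2, ℝ), (∀ i j, |A.1 i j| ≤ R) ∧
        (B l)⁻¹ * A * B k ∈ aff T z hz := by
  classical
  obtain ⟨S, hS, hSv⟩ := hA.thick_values hb hN L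
  refine ⟨2 * L / b, fun B hB => ?_⟩
  choose T' m' hp hL using hB
  have hSfin : Finite S := hS.to_subtype
  let F : ℕ → Tri D × (D → D → S) := fun k =>
    (T' k, fun d d' => ⟨_, hSv (B k) _ _ (hp k) (hL k) d d'⟩)
  obtain ⟨k, l, hkl, heq⟩ : ∃ k l, k < l ∧ F k = F l := by
    obtain ⟨k, l, hne, heq⟩ := Finite.exists_ne_map_eq_of_infinite F
    rcases lt_or_gt_of_ne hne with h | h
    · exact ⟨k, l, h, heq⟩
    · exact ⟨l, k, h, heq.symm⟩
  have hT : T' k = T' l := congrArg Prod.fst heq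
  have hcr : ∀ d d', cr (app (m' k) z d) (app (m' k) z d') =
      cr (app (m' l) z d) (app (m' l) z d') := by
    intro d d'
    have h1 := congrFun (congrFun (congrArg Prod.snd heq) d) d'
    exact congrArg Subtype.val h1
  have hpl : GPath T z (T' k) (m' l) := by
    rw [hT]
    exact hp l
  obtain ⟨d₀⟩ := ‹Nonempty D›
  have : Nonempty D := ⟨d₀⟩
  obtain ⟨M, hM, hMv⟩ := M3_aff hz (hp k) hpl hcr d₀
  refine ⟨k, l, hkl, B l * M * (B k)⁻¹, fun i j => ?_, ?_⟩
  swap
  · have h1 : (B l)⁻¹ * (B l * M * (B k)⁻¹) * B k = M := by group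
    rw [h1]
    exact hM
  -- the entries
  set x := app (m' k) z d₀ with hx
  set x' := app (m' k) z ((T' k).nxt d₀) with hx'
  set y := app (m' l) z d₀ with hy
  set y' := app (m' l) z ((T' k).nxt d₀) with hy'
  have hqpos : 0 < cr x x' := (hp k).geo.pos d₀
  have hqb : b ≤ cr x x' := by
    rcases hN x ⟨_, _, _, hp k, rfl⟩ x' ⟨_, _, _, hp k, rfl⟩ with h | h
    · exact absurd h hqpos.ne'
    · rwa [abs_of_pos hqpos] at h
  have hcrB : ∀ (C : SL(2, ℝ)) (v w : Vec), cr (C⁻¹.1.mulVec v) w = cr v (C.1.mulVec w) := by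
    intro C v w
    have h1 : cr (C.1.mulVec (C⁻¹.1.mulVec v)) (C.1.mulVec w) = cr (C⁻¹.1.mulVec v) w := by
      rw [cr_mulVec, C.2, one_mul]
    rw [← h1, Matrix.mulVec_mulVec, ← Matrix.SpecialLinearGroup.coe_mul, mul_inv_cancel,
      Matrix.SpecialLinearGroup.coe_one, Matrix.one_mulVec]
  have hAv : ∀ v, (B l * M * (B k)⁻¹).1.mulVec v = (cr x x')⁻¹ •
      (cr v ((B k).1.mulVec x') • (B l).1.mulVec y -
        cr v ((B k).1.mulVec x) • (B l).1.mulVec y') := by
    intro v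
    rw [Matrix.SpecialLinearGroup.coe_mul, Matrix.SpecialLinearGroup.coe_mul,
      ← Matrix.mulVec_mulVec, ← Matrix.mulVec_mulVec, hMv, Matrix.mulVec_smul, Matrix.mulVec_sub,
      Matrix.mulVec_smul, Matrix.mulVec_smul, hcrB, hcrB]
  have hent : (B l * M * (B k)⁻¹).1 i j = (B l * M * (B k)⁻¹).1.mulVec (Pi.single j 1) i := by
    rw [Matrix.mulVec_single_one]
    rfl
  have hxk := hL k d₀
  have hxk' := hL k ((T' k).nxt d₀)
  have hyl := hL l d₀
  have hyl' := hL l ((T' k).nxt d₀)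
  rw [← hx] at hxk
  rw [← hx'] at hxk'
  rw [← hy] at hyl
  rw [← hy'] at hyl'
  have hL0 : 0 ≤ L := (M3_nq_nonneg _).trans hxk
  have hprod : ∀ (p q : Vec) (i j : Fin 2), nq p ≤ L → nq q ≤ L →
      |cr (Pi.single j 1) p * q i| ≤ L := by
    intro p q i j h1 h2
    have h3 : cr (Pi.single j 1) p ^ 2 ≤ L := by
      refine le_trans ?_ h1
      have e : nq p = p 0 ^ 2 + p 1 ^ 2 := by simp only [nq, ip]; ring
      rw [e]
      fin_cases j
      · simp [cr]
        positivity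
      · simp [cr]
        positivity
    have h4 : q i ^ 2 ≤ L := by
      refine le_trans ?_ h2
      have e : nq q = q 0 ^ 2 + q 1 ^ 2 := by simp only [nq, ip]; ring
      rw [e]
      fin_cases i
      · simp
        positivity
      · simp
        positivity
    apply abs_le_of_sq_le_sq _ hL0
    rw [mul_pow, sq L]
    exact mul_le_mul h3 h4 (sq_nonneg _) hL0
  rw [hent, hAv]
  simp only [Pi.smul_apply, Pi.sub_apply, smul_eq_mul]
  rw [abs_mul, abs_of_pos (inv_pos.2 hqpos), inv_mul_eq_div, div_le_div_iff₀ hqpos hb]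
  have h5 := hprod _ ((B l).1.mulVec y) i j hxk' hyl
  have h6 := hprod _ ((B l).1.mulVec y') i j hxk hyl'
  have h7 := abs_sub (cr (Pi.single j 1) ((B k).1.mulVec x') * ((B l).1.mulVec y) i)
    (cr (Pi.single j 1) ((B k).1.mulVec x) * ((B l).1.mulVec y') i)
  calc |cr (Pi.single j 1) ((B k).1.mulVec x') * ((B l).1.mulVec y) i -
        cr (Pi.single j 1) ((B k).1.mulVec x) * ((B l).1.mulVec y') i| * b ≤ (2 * L) * b := by
        refine mul_le_mul_of_nonneg_right ?_ hb.le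
        linarith
    _ ≤ 2 * L * cr x x' := mul_le_mul_of_nonneg_left hqb (by linarith)

end Pool.Veech
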