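import Pool.Agent.Lib.MP_fceebd_gt.M1a

/-! # Row M4: thick times -/

set_option autoImplicit false

open scoped MatrixGroups

namespace Pool.Veech

variable {D : Type} [Fintype D] [DecidableEq D] {K : Type} [Field K] [NumberField K]
  {T T' : Tri D} {z : D → Vec} {c : Vec} {b : ℝ}

/-! ### The standard contraction -/

/-- The square of the length of `B v`, where `B` contracts `u` by `s⁻¹` and expands the orthogonal
direction by `s`. -/
noncomputable def M4qf (u : Vec) (s : ℝ) (v : Vec) : ℝ :=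
  (s⁻¹ ^ 2 * ip v u ^ 2 + s ^ 2 * cr v u ^ 2) / nq u

theorem M4_nq_pos {u : Vec} (hu : u ≠ 0) : 0 < nq u := by
  have h1 : 0 ≤ nq u := by
    simp only [nq, ip]
    nlinarith [mul_self_nonneg (u 0), mul_self_nonneg (u 1)]
  rcases h1.lt_or_eq with h | h
  · exact h
  · exfalso
    apply hu
    have h0 : u 0 * u 0 + u 1 * u 1 = 0 := h.symm
    have h2 : u 0 = 0 := by nlinarith [mul_self_nonneg (u 0), mul_self_nonneg (u 1)]
    have h3 : u 1 = 0 := by nlinarith [mul_self_nonneg (u 0), mul_self_nonneg (u 1)]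
    funext i
    fin_cases i
    · exact h2
    · exact h3

/-- The standard matrix. -/
noncomputable def M4B (u : Vec) (hu : u ≠ 0) (s : ℝ) (hs : s ≠ 0) : SL(2, ℝ) :=
  ⟨!![(s⁻¹ * u 0 ^ 2 + s * u 1 ^ 2) / nq u, (s⁻¹ - s) * u 0 * u 1 / nq u;
    (s⁻¹ - s) * u 0 * u 1 / nq u, (s⁻¹ * u 1 ^ 2 + s * u 0 ^ 2) / nq u], by
    have h1 := (M4_nq_pos hu).ne'
    rw [Matrix.det_fin_two_of]
    have h2 : nq u = u 0 ^ 2 + u 1 ^ 2 := by simp only [nq, ip]; ring
    rw [h2] at h1 ⊢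
    field_simp
    ring⟩

theorem M4B_nq (u : Vec) (hu : u ≠ 0) (s : ℝ) (hs : s ≠ 0) (v : Vec) :
    nq ((M4B u hu s hs).1.mulVec v) = M4qf u s v := by
  have h1 := (M4_nq_pos hu).ne'
  have h2 : nq u = u 0 ^ 2 + u 1 ^ 2 := by simp only [nq, ip]; ring
  have h3 : (M4B u hu s hs).1.mulVec v =
      ![(s⁻¹ * u 0 ^ 2 + s * u 1 ^ 2) / nq u * v 0 + (s⁻¹ - s) * u 0 * u 1 / nq u * v 1,
        (s⁻¹ - s) * u 0 * u 1 / nq u * v 0 + (s⁻¹ * u 1 ^ 2 + s * u 0 ^ 2) / nq u * v 1] := by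
    funext i
    fin_cases i <;> simp [M4B, Matrix.mulVec, dotProduct, Fin.sum_univ_two]
  rw [h3, M4qf]
  simp only [nq, ip, cr, Matrix.cons_val_zero, Matrix.cons_val_one] at h1 h2 ⊢
  rw [h2] at h1 ⊢
  field_simp
  ring

/-- The square of the length of `B v`. -/
theorem M4_nq_eq {u : Vec} (hu : u ≠ 0) {s : ℝ} (hs : 0 < s) {B : SL(2, ℝ)}
    (h1 : B.1.mulVec u = s⁻¹ • u) (h2 : ∀ v : Vec, nq (B.1.mulVec v) ≤ s ^ 2 * nq v) (v : Vec) :
    nq (B.1.mulVec v) = M4qf u s v := by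
  have hn := M4_nq_pos hu
  have hn' : nq u = u 0 ^ 2 + u 1 ^ 2 := by simp only [nq, ip]; ring
  -- the orthogonal vector
  set w : Vec := ![-u 1, u 0] with hw
  set x : Vec := B.1.mulVec w with hx
  have hwn : nq w = nq u := by simp only [nq, ip, hw, Matrix.cons_val_zero, Matrix.cons_val_one]; ring
  have hcr : cr (B.1.mulVec u) x = nq u := by
    rw [hx, cr_mulVec, B.2, one_mul, hn']
    simp only [cr, hw, Matrix.cons_val_zero, Matrix.cons_val_one]
    ring
  have hcr' : cr u x = s * nq u := by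
    rw [h1] at hcr
    have : cr (s⁻¹ • u) x = s⁻¹ * cr u x := by
      simp only [cr, Pi.smul_apply, smul_eq_mul]; ring
    rw [this] at hcr
    field_simp at hcr
    linarith
  have hpl : cr u x ^ 2 + ip u x ^ 2 = nq u * nq x := by
    simp only [cr, ip, nq]; ring
  have hxn : nq x ≤ s ^ 2 * nq u := by
    rw [← hwn]
    exact h2 w
  have hip : ip u x = 0 := by
    rw [hcr'] at hpl
    have h3 : ip u x ^ 2 ≤ 0 := by
      have h4 : nq u * nq x ≤ nq u * (s ^ 2 * nq u) := mul_le_mul_of_nonneg_left hxn hn.le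
      nlinarith
    exact pow_eq_zero_iff (two_ne_zero) |>.1 (le_antisymm h3 (sq_nonneg _))
  have hxn' : nq x = s ^ 2 * nq u := by
    rw [hcr', hip] at hpl
    have h5 : nq u * nq x = nq u * (s ^ 2 * nq u) := by rw [← hpl]; ring
    exact mul_left_cancel₀ hn.ne' h5
  -- decomposition
  have hv : v = (ip v u / nq u) • u + (-cr v u / nq u) • w := by
    have h6 : u 0 ^ 2 + u 1 ^ 2 ≠ 0 := by rw [← hn']; exact hn.ne'
    funext i
    simp only [hn', Pi.add_apply, Pi.smul_apply, smul_eq_mul]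
    fin_cases i
    · simp only [hw, cr, ip, Fin.zero_eta, Matrix.cons_val_zero]
      field_simp
      ring
    · simp only [hw, cr, ip, Fin.mk_one, Matrix.cons_val_one, Matrix.cons_val_fin_one]
      field_simp
      ring
  set α := ip v u / nq u with hα
  set β := -cr v u / nq u with hβ
  have hBv : B.1.mulVec v = (α * s⁻¹) • u + β • x := by
    rw [hv, Matrix.mulVec_add, Matrix.mulVec_smul, Matrix.mulVec_smul, h1, smul_smul]
  have hexp : nq (B.1.mulVec v) = (α * s⁻¹) ^ 2 * nq u + 2 * (α * s⁻¹) * β * ip u x +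
      β ^ 2 * nq x := by
    rw [hBv]
    simp only [nq, ip, Pi.add_apply, Pi.smul_apply, smul_eq_mul]
    ring
  rw [hexp, hip, hxn', M4qf, hα, hβ]
  field_simp
  ring

theorem M4qf_cs (u : Vec) (hu : u ≠ 0) {s : ℝ} (hs : s ≠ 0) (v e : Vec) :
    cr v e ^ 2 ≤ M4qf u s v * M4qf u s e := by
  rw [← M4B_nq u hu s hs, ← M4B_nq u hu s hs]
  have h1 : cr ((M4B u hu s hs).1.mulVec v) ((M4B u hu s hs).1.mulVec e) = cr v e := by
    rw [cr_mulVec, (M4B u hu s hs).2, one_mul]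
  rw [← h1]
  generalize (M4B u hu s hs).1.mulVec v = x
  generalize (M4B u hu s hs).1.mulVec e = y
  simp only [cr, nq, ip]
  nlinarith [sq_nonneg (x 0 * y 0 + x 1 * y 1)]

theorem M4qf_double (u : Vec) (hu : u ≠ 0) {s : ℝ} (v : Vec) :
    M4qf u (2 * s) v ≤ 4 * M4qf u s v := by
  have hn := M4_nq_pos hu
  rw [M4qf, M4qf, ← mul_div_assoc, div_le_div_iff_of_pos_right hn]
  have h1 : (2 * s)⁻¹ ^ 2 ≤ 4 * s⁻¹ ^ 2 := by
    rw [mul_inv, mul_pow]
    have : 0 ≤ s⁻¹ ^ 2 := sq_nonneg _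
    nlinarith
  have h2 : (2 * s)⁻¹ ^ 2 * ip v u ^ 2 ≤ 4 * s⁻¹ ^ 2 * ip v u ^ 2 :=
    mul_le_mul_of_nonneg_right h1 (sq_nonneg _)
  nlinarith

/-- If no edge vector is short, an almost Delaunay triangulation has bounded darts. -/
theorem M4_bound [Nonempty D] (hz : Geo T z) {u : Vec} (hu : u ≠ 0) {s : ℝ} (hs : 0 < s)
    {δ : ℝ} (hδ : 0 < δ) (h : ∀ v ∈ edges T z, δ < M4qf u s v) :
    ∃ T' m, GPath T z T' m ∧ ∀ d, M4qf u s (app m z d) ≤
      max ((Lc0 (Fintype.card D) : ℝ) * area T z) (area T z ^ 2 / δ) := by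
  set B : SL(2, ℝ) := M4B u hu s hs.ne' with hB
  have hgeo : Geo T (lin B.1 z) := hz.lin B.1 (det_pos B)
  obtain ⟨T', m, hD, hn⟩ := exists_nearD hgeo
  have hp1 : GPath T (lin B.1 z) T' m := hD.gpath le_rfl
  have hp : GPath T z T' m := by
    have h1 := hp1.lin B⁻¹.1 (det_pos B⁻¹)
    rw [lin_lin, ← Matrix.SpecialLinearGroup.coe_mul, inv_mul_cancel,
      Matrix.SpecialLinearGroup.coe_one, lin_one] at h1
    exact h1
  have happ : ∀ d, nq (app m (lin B.1 z) d) = M4qf u s (app m z d) := by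
    intro d
    rw [app_lin, lin, hB, M4B_nq]
  have harea : area T' (app m (lin B.1 z)) = area T z := by
    rw [hp1.area, area_lin, B.2, one_mul]
  have hedge : ∀ d, δ < nq (app m (lin B.1 z) d) := by
    intro d
    rw [happ]
    exact h _ ⟨T', m, d, hp, rfl⟩
  refine ⟨T', m, hp, fun d => ?_⟩
  rw [← happ]
  by_cases hl : (Lc0 (Fintype.card D) : ℝ) * area T z ≤ nq (app m (lin B.1 z) d)
  swap
  · exact (not_le.1 hl).le.trans (le_max_left _ _)
  refine le_trans ?_ (le_max_right _ _)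
  have hcr := hn.geo.cr_le_area d
  have hpos := hn.geo.pos d
  rw [harea] at hcr
  set q := cr (app m (lin B.1 z) d) (app m (lin B.1 z) (T'.nxt d)) with hq
  have hq2 : 1.04 * q ^ 2 ≤ area T z ^ 2 := by nlinarith
  have hkey : ∃ e, nq (app m (lin B.1 z) d) * nq (app m (lin B.1 z) e) ≤ 1.04 * q ^ 2 := by
    rcases hn.short_or (d := d) (by rw [harea]; exact hl) with h1 | h1
    · exact ⟨_, h1.1⟩
    · exact ⟨_, h1.1⟩
  obtain ⟨e, he⟩ := hkey
  have h0 : 0 < nq (app m (lin B.1 z) d) := hδ.trans (hedge d)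
  rw [le_div_iff₀ hδ]
  calc nq (app m (lin B.1 z) d) * δ ≤ nq (app m (lin B.1 z) d) * nq (app m (lin B.1 z) e) :=
        mul_le_mul_of_nonneg_left (hedge e).le h0.le
    _ ≤ 1.04 * q ^ 2 := he
    _ ≤ _ := hq2

/-- Parallel edge vectors have bounded heights from below. -/
theorem M4_heights (hz : Geo T z) (hb : 0 < b) (hN : NSVT T z b) {u : Vec}
    (hne : ∀ v ∈ edges T z, cr v u ≠ 0) {v : Vec} (hv : v ∈ edges T z) :
    ∃ c₀ : ℝ, 0 < c₀ ∧ ∀ v' ∈ edges T z, cr v' v = 0 → c₀ ≤ cr v' u ^ 2 := by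
  have hfin := NSVT.edges_finite hz hb hN (nq v)
  obtain ⟨v0, hv0, hmin⟩ := Set.exists_min_image {v' ∈ edges T z | nq v' ≤ nq v}
    (fun v' => cr v' u ^ 2) hfin ⟨v, hv, le_rfl⟩
  refine ⟨cr v0 u ^ 2, ?_, fun v' hv' hpar => ?_⟩
  · have := hne v0 hv0.1
    positivity
  by_cases hle : nq v' ≤ nq v
  · exact hmin v' ⟨hv', hle⟩
  · refine (hmin v ⟨hv, le_rfl⟩).trans ?_
    have hvp := M4_nq_pos (edges_ne_zero hv)
    have hle' := (not_le.1 hle).le
    -- `cr v' u * v = cr v u * v'`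
    have h0 : cr v' u * v 0 = cr v u * v' 0 := by
      simp only [cr] at hpar ⊢
      linear_combination (u 0) * hpar
    have h1 : cr v' u * v 1 = cr v u * v' 1 := by
      simp only [cr] at hpar ⊢
      linear_combination (u 1) * hpar
    have h2 : cr v' u ^ 2 * nq v = cr v u ^ 2 * nq v' := by
      simp only [nq, ip]
      calc cr v' u ^ 2 * (v 0 * v 0 + v 1 * v 1) =
            (cr v' u * v 0) ^ 2 + (cr v' u * v 1) ^ 2 := by ring
        _ = (cr v u * v' 0) ^ 2 + (cr v u * v' 1) ^ 2 := by rw [h0, h1]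
        _ = _ := by ring
    have h3 : cr v u ^ 2 * nq v ≤ cr v' u ^ 2 * nq v := by
      rw [h2]
      exact mul_le_mul_of_nonneg_left hle' (sq_nonneg _)
    exact le_of_mul_le_mul_right h3 hvp

/-- M4. Let `u` be a vector which is not parallel to an edge vector; `B` contracts `u` by the factor
`s⁻¹` and expands the orthogonal vector by `s`. Proof. Let `δ < b / 4`. (a) If `nq (B v) > δ` for all
edge vectors `v`, then all darts of an almost Delaunay triangulation of `B z` have `nq ≤ L`, where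
`L = max (Lc area) (area² / δ)`, because the short side `e` of the triangle of a long dart has
`nq e ≤ 1.04 q² / nq d` (`NearD.short_or`). (b) Let `s₁ ≥ s₀`, and suppose that there is an edge
vector `v` with `nq (B v) ≤ δ` for `s = s₁`. Take the first `s = 2^k s₁` such that `nq (B v') > δ` for
all edge vectors `v'` which are parallel to `v` (it exists: `edges` is locally finite,
`NSVT.edges_finite`, and `v` is not parallel to `u`). Then some `v'` parallel to `v` has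
`nq (B v') ≤ 4 δ`, and all edge vectors `e` which are not parallel to `v` have
`nq (B e) ≥ b² / (4 δ) > δ` by `NSVT`. So (a) applies. -/
theorem exists_thick [Nonempty D] (hz : Geo T z) (hb : 0 < b) (hN : NSVT T z b) :
    ∃ L : ℝ, ∀ u : Vec, u ≠ 0 → (∀ v ∈ edges T z, cr v u ≠ 0) → ∀ s₀ : ℝ, ∃ s : ℝ, s₀ ≤ s ∧
      ∀ B : SL(2, ℝ), B.1.mulVec u = s⁻¹ • u →
        (∀ v : Vec, nq (B.1.mulVec v) ≤ s ^ 2 * nq v) →
        ∃ T' m, GPath T z T' m ∧ ∀ d, nq (B.1.mulVec (app m z d)) ≤ L := by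
  classical
  refine ⟨max ((Lc0 (Fintype.card D) : ℝ) * area T z) (area T z ^ 2 / (b / 4)),
    fun u hu hne s₀ => ?_⟩
  have hδ : 0 < b / 4 := by positivity
  have hun := M4_nq_pos hu
  -- it is sufficient to find `s`
  suffices h : ∃ s : ℝ, s₀ ≤ s ∧ 0 < s ∧ ∀ v ∈ edges T z, b / 4 < M4qf u s v by
    obtain ⟨s, hs1, hs2, hs3⟩ := h
    refine ⟨s, hs1, fun B hB1 hB2 => ?_⟩
    obtain ⟨T', m, hp, hd⟩ := M4_bound hz hu hs2 hδ hs3
    exact ⟨T', m, hp, fun d => by rw [M4_nq_eq hu hs2 hB1 hB2]; exact hd d⟩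
  set s₁ := max s₀ 1 with hs₁
  have hs₁1 : 1 ≤ s₁ := le_max_right _ _
  by_cases hall : ∀ v ∈ edges T z, b / 4 < M4qf u s₁ v
  · exact ⟨s₁, le_max_left _ _, by linarith, hall⟩
  push Not at hall
  obtain ⟨v, hv, hvs⟩ := hall
  obtain ⟨c₀, hc₀, hheight⟩ := M4_heights hz hb hN hne hv
  have hex : ∃ k : ℕ, ∀ v' ∈ edges T z, cr v' v = 0 → b / 4 < M4qf u (2 ^ k * s₁) v' := by
    obtain ⟨k, hk⟩ := pow_unbounded_of_one_lt (b / 4 * nq u / c₀) (one_lt_two : (1 : ℝ) < 2)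
    refine ⟨k, fun v' hv' hpar => ?_⟩
    have h1 := hheight v' hv' hpar
    have h2 : (1 : ℝ) ≤ 2 ^ k := one_le_pow₀ one_le_two
    have h3 : (2 : ℝ) ^ k ≤ (2 ^ k * s₁) ^ 2 := by
      have h4 : (2 : ℝ) ^ k ≤ 2 ^ k * s₁ := le_mul_of_one_le_right (by positivity) hs₁1
      have h5 : (1 : ℝ) ≤ 2 ^ k * s₁ := h2.trans h4
      nlinarith
    rw [M4qf, lt_div_iff₀ hun]
    rw [div_lt_iff₀ hc₀] at hk
    calc b / 4 * nq u < 2 ^ k * c₀ := hk
      _ ≤ (2 ^ k * s₁) ^ 2 * cr v' u ^ 2 := mul_le_mul h3 h1 hc₀.le (sq_nonneg _)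
      _ ≤ _ := le_add_of_nonneg_left (by positivity)
  obtain ⟨j, hj⟩ : ∃ j, Nat.find hex = j + 1 := by
    refine Nat.exists_eq_succ_of_ne_zero fun h0 => ?_
    have h1 := Nat.find_spec hex
    rw [h0] at h1
    have h2 := h1 v hv (by simp only [cr]; ring)
    rw [pow_zero, one_mul] at h2
    exact absurd hvs (not_le.2 h2)
  have hk := Nat.find_spec hex
  rw [hj] at hk
  have hmin := Nat.find_min hex (m := j) (by omega)
  push Not at hmin
  obtain ⟨v', hv', hpar, hv's⟩ := hmin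
  have hpos : 0 < 2 ^ j * s₁ := by positivity
  have h4 : M4qf u (2 ^ (j + 1) * s₁) v' ≤ 4 * (b / 4) := by
    have h5 := M4qf_double u hu (s := 2 ^ j * s₁) v'
    rw [← mul_assoc, ← pow_succ'] at h5
    linarith
  have hsge : s₀ ≤ 2 ^ (j + 1) * s₁ := by
    have h1 : (1 : ℝ) ≤ 2 ^ (j + 1) := one_le_pow₀ one_le_two
    have h2 : s₀ ≤ s₁ := le_max_left _ _
    have h3 : s₁ ≤ 2 ^ (j + 1) * s₁ := le_mul_of_one_le_left (by linarith) h1
    linarith
  refine ⟨2 ^ (j + 1) * s₁, hsge, by positivity, fun e he => ?_⟩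
  rcases hN v' hv' e he with h6 | h6
  · apply hk e he
    have hv0 := edges_ne_zero hv'
    by_contra hne'
    apply hv0
    funext i
    have h7 : cr e v * v' i = 0 := by
      have h8 : cr e v * v' i = cr v' v * e i - cr v' e * v i := by
        simp only [cr]
        fin_cases i
        · simp only [Fin.zero_eta]; ring
        · simp only [Fin.mk_one]; ring
      rw [h8, hpar, h6]
      ring
    exact (mul_eq_zero.1 h7).resolve_left hne'
  · have h7 := M4qf_cs u hu (s := 2 ^ (j + 1) * s₁) (by positivity) v' e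
    have h8 : b ^ 2 ≤ cr v' e ^ 2 := by
      rw [← sq_abs (cr v' e)]
      exact pow_le_pow_left₀ hb.le h6 2
    have h9 : 0 ≤ M4qf u (2 ^ (j + 1) * s₁) e := by
      rw [M4qf]
      positivity
    have h10 : M4qf u (2 ^ (j + 1) * s₁) v' * M4qf u (2 ^ (j + 1) * s₁) e ≤
        b * M4qf u (2 ^ (j + 1) * s₁) e := by
      refine mul_le_mul_of_nonneg_right ?_ h9
      linarith
    have h11 : b * b ≤ b * M4qf u (2 ^ (j + 1) * s₁) e := by nlinarith
    have h12 : b ≤ M4qf u (2 ^ (j + 1) * s₁) e := le_of_mul_le_mul_left h11 hb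
    linarith

end Pool.Veech
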