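import Pool.Agent.Lib.MP_fceebd_gt.M4a
import Pool.Agent.Lib.MP_fceebd_gt.M3

/-! # Row M4: thick times -/

set_option autoImplicit false

open scoped MatrixGroups

namespace Pool.Veech

variable {D : Type} [Fintype D] [DecidableEq D] {K : Type} [Field K] [NumberField K]
  {T T' : Tri D} {z : D → Vec} {c : Vec} {b : ℝ}

private theorem M4b_B_u (u : Vec) (hu : u ≠ 0) (s : ℝ) (hs : s ≠ 0) :
    (M4B u hu s hs).1.mulVec u = s⁻¹ • u := by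
  have h1 := (M4_nq_pos hu).ne'
  have h2 : nq u = u 0 ^ 2 + u 1 ^ 2 := by simp only [nq, ip]; ring
  rw [h2] at h1
  funext i
  simp only [Pi.smul_apply, smul_eq_mul]
  fin_cases i
  · simp only [M4B, Matrix.mulVec, dotProduct, Fin.sum_univ_two, Fin.zero_eta, Matrix.of_apply,
      Matrix.cons_val_zero, Matrix.cons_val_one, Matrix.cons_val_fin_one]
    rw [h2]
    field_simp
    ring
  · simp only [M4B, Matrix.mulVec, dotProduct, Fin.sum_univ_two, Fin.mk_one, Matrix.of_apply,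
      Matrix.cons_val_zero, Matrix.cons_val_one, Matrix.cons_val_fin_one]
    rw [h2]
    field_simp
    ring

private theorem M4b_pl (u v : Vec) : ip v u ^ 2 + cr v u ^ 2 = nq v * nq u := by
  simp only [ip, cr, nq]
  ring

private theorem M4b_inv_sq_le {s : ℝ} (hs : 1 ≤ s) : s⁻¹ ^ 2 ≤ s ^ 2 := by
  have h1 : s⁻¹ ≤ 1 := inv_le_one_of_one_le₀ hs
  have h2 : 0 ≤ s⁻¹ := by positivity
  nlinarith

private theorem M4b_le (u : Vec) (hu : u ≠ 0) {s : ℝ} (hs : 1 ≤ s) (v : Vec) :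
    M4qf u s v ≤ s ^ 2 * nq v := by
  have hn := M4_nq_pos hu
  rw [M4qf, div_le_iff₀ hn, mul_assoc, ← M4b_pl]
  have h1 := mul_le_mul_of_nonneg_right (M4b_inv_sq_le hs) (sq_nonneg (ip v u))
  linarith

private theorem M4b_ge (u : Vec) (hu : u ≠ 0) {s : ℝ} (hs : 1 ≤ s) (v : Vec) :
    nq v ≤ s ^ 2 * M4qf u s v := by
  have hn := M4_nq_pos hu
  rw [M4qf, ← mul_div_assoc, le_div_iff₀ hn, ← M4b_pl]
  have h0 : s ^ 2 * s⁻¹ ^ 2 = 1 := by
    rw [← mul_pow, mul_inv_cancel₀ (by linarith), one_pow]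
  have h1 : (1 : ℝ) ≤ s ^ 2 * s ^ 2 := by
    have : (1 : ℝ) ≤ s ^ 2 := one_le_pow₀ hs
    nlinarith
  have h2 := mul_le_mul_of_nonneg_right h1 (sq_nonneg (cr v u))
  calc ip v u ^ 2 + cr v u ^ 2 ≤ (s ^ 2 * s⁻¹ ^ 2) * ip v u ^ 2 + s ^ 2 * s ^ 2 * cr v u ^ 2 := by
        rw [h0]; linarith
    _ = _ := by ring

private theorem M4b_inv_le (u : Vec) (hu : u ≠ 0) {s : ℝ} (hs : 1 ≤ s) (hs0 : s ≠ 0) (y : Vec) :
    nq ((M4B u hu s hs0)⁻¹.1.mulVec y) ≤ s ^ 2 * nq y := by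
  have h3 := M4b_ge u hu hs ((M4B u hu s hs0)⁻¹.1.mulVec y)
  rw [← M4B_nq u hu s hs0, Matrix.mulVec_mulVec, ← Matrix.SpecialLinearGroup.coe_mul,
    mul_inv_cancel, Matrix.SpecialLinearGroup.coe_one, Matrix.one_mulVec] at h3
  exact h3

/-- the inverse of a matrix with bounded entries -/
private theorem M4b_inv (A : SL(2, ℝ)) {R : ℝ} (hA : ∀ i j, |A.1 i j| ≤ R) (u : Vec) :
    nq (A⁻¹.1.mulVec u) ≤ 4 * R ^ 2 * nq u := by
  have h1 : A⁻¹.1.mulVec u = ![A.1 1 1 * u 0 - A.1 0 1 * u 1, -A.1 1 0 * u 0 + A.1 0 0 * u 1] := by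
    rw [Matrix.SpecialLinearGroup.coe_inv, Matrix.adjugate_fin_two]
    funext i
    fin_cases i
    · simp [Matrix.mulVec, dotProduct, Fin.sum_univ_two]
      ring
    · simp [Matrix.mulVec, dotProduct, Fin.sum_univ_two]
  have h2 : ∀ i j, A.1 i j ^ 2 ≤ R ^ 2 := by
    intro i j
    rw [← sq_abs (A.1 i j)]
    exact pow_le_pow_left₀ (abs_nonneg _) (hA i j) 2
  have h3 : nq u = u 0 ^ 2 + u 1 ^ 2 := by simp only [nq, ip]; ring
  rw [h1, h3]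
  simp only [nq, ip, Matrix.cons_val_zero, Matrix.cons_val_one, Matrix.cons_val_fin_one]
  have e00 := h2 0 0
  have e01 := h2 0 1
  have e10 := h2 1 0
  have e11 := h2 1 1
  have hcs : ∀ a b x y : ℝ, (a * x + b * y) * (a * x + b * y) ≤ (a ^ 2 + b ^ 2) * (x ^ 2 + y ^ 2) := by
    intro a b x y
    nlinarith [sq_nonneg (a * y - b * x)]
  have f1 := hcs (A.1 1 1) (-A.1 0 1) (u 0) (u 1)
  have f2 := hcs (-A.1 1 0) (A.1 0 0) (u 0) (u 1)
  have hu0 : 0 ≤ u 0 ^ 2 + u 1 ^ 2 := by positivity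
  have f3 : (A.1 1 1 ^ 2 + (-A.1 0 1) ^ 2) * (u 0 ^ 2 + u 1 ^ 2) ≤
      (R ^ 2 + R ^ 2) * (u 0 ^ 2 + u 1 ^ 2) := by
    refine mul_le_mul_of_nonneg_right ?_ hu0
    rw [neg_sq]
    linarith
  have f4 : ((-A.1 1 0) ^ 2 + A.1 0 0 ^ 2) * (u 0 ^ 2 + u 1 ^ 2) ≤
      (R ^ 2 + R ^ 2) * (u 0 ^ 2 + u 1 ^ 2) := by
    refine mul_le_mul_of_nonneg_right ?_ hu0
    rw [neg_sq]
    linarith
  have f5 : (A.1 1 1 * u 0 - A.1 0 1 * u 1) * (A.1 1 1 * u 0 - A.1 0 1 * u 1) =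
      (A.1 1 1 * u 0 + -A.1 0 1 * u 1) * (A.1 1 1 * u 0 + -A.1 0 1 * u 1) := by ring
  rw [f5]
  linarith

/-- M4. The conclusion of Part II. -/
theorem exists_shorter [Nonempty D] {ι : K →+* ℝ} {zK : D → Fin 2 → K} {m : Matrix D D ℤ}
    {t : K} {N : ℕ} (hz : Geo T z) (hA : Arith T z ι zK m t N) (hb : 0 < b) (hN : NSVT T z b)
    {u : Vec} (hu : u ≠ 0) :
    (∃ A ∈ aff T z hz, nq (A.1.mulVec u) < nq u) ∨
      ∃ v ∈ edges T z, cr v u = 0 ∧ ∃ P ∈ aff T z hz, P ≠ 1 ∧ P.1.mulVec v = v := by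
  by_cases hpar : ∃ v ∈ edges T z, cr v u = 0
  · obtain ⟨v, hv, hvu⟩ := hpar
    obtain ⟨-, A, hA1, hA2, hA3⟩ := NSVT.horiz hz hb hN hv
    exact Or.inr ⟨v, hv, hvu, A, hA1, hA2, hA3⟩
  push Not at hpar
  left
  obtain ⟨L, hL⟩ := exists_thick hz hb hN
  obtain ⟨R, hR⟩ := Arith.pigeon hz hA hb hN L
  choose F hF1 hF2 using fun s₀ => hL u hu hpar s₀
  let σ : ℕ → ℝ := fun k => Nat.rec (F 1) (fun _ s => F ((2 * |R| + 1) * s)) k
  have hσ0 : σ 0 = F 1 := rfl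
  have hσS : ∀ k, σ (k + 1) = F ((2 * |R| + 1) * σ k) := fun k => rfl
  have hσs : ∀ k, (2 * |R| + 1) * σ k ≤ σ (k + 1) := fun k => by
    rw [hσS]
    exact hF1 _
  have hσ1 : ∀ k, 1 ≤ σ k := by
    intro k
    induction k with
    | zero => rw [hσ0]; exact hF1 1
    | succ k ih =>
      refine le_trans ?_ (hσs k)
      nlinarith [abs_nonneg R]
  have hσm : Monotone σ := by
    refine monotone_nat_of_le_succ fun k => le_trans ?_ (hσs k)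
    nlinarith [abs_nonneg R, hσ1 k]
  have hσF : ∀ k, ∃ s₀, σ k = F s₀ := by
    intro k
    cases k with
    | zero => exact ⟨1, hσ0⟩
    | succ k => exact ⟨_, hσS k⟩
  have hσne : ∀ k, σ k ≠ 0 := fun k => by linarith [hσ1 k]
  obtain ⟨k, l, hkl, A, hAR, hAm⟩ := hR (fun k => M4B u hu (σ k) (hσne k)) (by
    intro k
    obtain ⟨s₀, hs₀⟩ := hσF k
    obtain ⟨T', m, hp, hd⟩ := hF2 s₀ (M4B u hu (σ k) (hσne k)) (by rw [M4b_B_u, hs₀]) (by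
      intro v
      rw [M4B_nq, ← hs₀]
      exact M4b_le u hu (hσ1 k) v)
    exact ⟨T', m, hp, hd⟩)
  have hinv := (aff T z hz).inv_mem hAm
  refine ⟨_, hinv, ?_⟩
  have h1 : ((M4B u hu (σ l) (hσne l))⁻¹ * A * M4B u hu (σ k) (hσne k))⁻¹ =
      (M4B u hu (σ k) (hσne k))⁻¹ * A⁻¹ * M4B u hu (σ l) (hσne l) := by group
  rw [h1, Matrix.SpecialLinearGroup.coe_mul, Matrix.SpecialLinearGroup.coe_mul,
    ← Matrix.mulVec_mulVec, ← Matrix.mulVec_mulVec, M4b_B_u, Matrix.mulVec_smul,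
    Matrix.mulVec_smul]
  have hsm : ∀ (r : ℝ) (v : Vec), nq (r • v) = r ^ 2 * nq v := by
    intro r v
    simp only [nq, ip, Pi.smul_apply, smul_eq_mul]
    ring
  rw [hsm]
  set y := A⁻¹.1.mulVec u with hy
  set x := (M4B u hu (σ k) (hσne k))⁻¹.1.mulVec y with hx
  have h2 : nq x ≤ σ k ^ 2 * nq y := M4b_inv_le u hu (hσ1 k) (hσne k) y
  have h3 := M4b_inv A hAR u
  rw [← hy] at h3
  have hun := M4_nq_pos hu
  have h4 : (2 * |R| + 1) * σ k ≤ σ l := (hσs k).trans (hσm (by omega : k + 1 ≤ l))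
  have h5 : 4 * R ^ 2 * σ k ^ 2 < σ l ^ 2 := by
    have h6 := hσ1 k
    have h7 := abs_nonneg R
    have h8 : ((2 * |R| + 1) * σ k) ^ 2 ≤ σ l ^ 2 := pow_le_pow_left₀ (by positivity) h4 2
    have h9 : R ^ 2 = |R| ^ 2 := (sq_abs R).symm
    have h10 : 0 < σ k ^ 2 := by positivity
    rw [h9]
    nlinarith
  have h6 : nq x ≤ 4 * R ^ 2 * σ k ^ 2 * nq u := by
    calc nq x ≤ σ k ^ 2 * nq y := h2
      _ ≤ σ k ^ 2 * (4 * R ^ 2 * nq u) := mul_le_mul_of_nonneg_left h3 (sq_nonneg _)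
      _ = _ := by ring
  have hl := hσ1 l
  rw [inv_pow, inv_mul_lt_iff₀ (by positivity)]
  exact h6.trans_lt (mul_lt_mul_of_pos_right h5 hun)

end Pool.Veech
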