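import Pool.Agent.Lib.MP_fceebd_gt.LP0

/-! # Row MK1: markings have the universal property -/

set_option autoImplicit false

namespace Pool.Veech

variable {G : Type} [Group G] {D : Type} {S : Surf G D}

private theorem MK1_turn (S : Surf G D) (d : D) : S.SameOrigin (S.nxt d) (S.opp d) := by
  refine .rel _ _ (Or.inl ?_)
  rw [Surf.turn, S.nxt3]

private theorem MK1_turn' (S : Surf G D) (d : D) : S.SameOrigin (S.nxt (S.opp d)) d := by
  refine .rel _ _ (Or.inl ?_)
  rw [Surf.turn, S.nxt3, S.opp2]

private theorem MK1_start {a a' b : D} {p : List D} (h : S.IsPath a p b)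
    (ha : S.SameOrigin a' a) : S.IsPath a' p b := by
  cases h with
  | nil h => exact .nil (.trans _ _ _ ha h)
  | cons h hp => exact .cons (.trans _ _ _ ha h) hp

private theorem MK1_end {a b b' : D} {p : List D} (h : S.IsPath a p b)
    (hb : S.SameOrigin b b') : S.IsPath a p b' := by
  induction h with
  | nil h => exact .nil (.trans _ _ _ h hb)
  | cons h _ ih => exact .cons h (ih hb)

private theorem MK1_append {a b c : D} {p q : List D} (h : S.IsPath a p b)
    (h' : S.IsPath b q c) : S.IsPath a (p ++ q) c := by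
  induction h with
  | nil h => exact MK1_start h' h
  | cons h _ ih => exact .cons h (ih h')

private theorem MK1_single (S : Surf G D) (d : D) : S.IsPath d [d] (S.nxt d) :=
  .cons (.refl _) (.nil (.refl _))

private def MK1_rev (S : Surf G D) : List D → List D
  | [] => []
  | d :: p => MK1_rev S p ++ [S.opp d]

private theorem MK1_rev_path {a b : D} {p : List D} (h : S.IsPath a p b) :
    S.IsPath b (MK1_rev S p) a := by
  induction h with
  | nil h => exact .nil (.symm _ _ h)
  | cons h _ ih =>
    refine MK1_append ih (.cons (MK1_turn S _) (.nil ?_))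
    exact .trans _ _ _ (MK1_turn' S _) (.symm _ _ h)

/-- the product of the labels of a path -/
private def MK1_pr {H : Type} [Group H] (l : D → H) (p : List D) : H := (p.map l).prod

private theorem MK1_pr_nil {H : Type} [Group H] (l : D → H) : MK1_pr l [] = 1 := rfl

private theorem MK1_pr_cons {H : Type} [Group H] (l : D → H) (d : D) (p : List D) :
    MK1_pr l (d :: p) = l d * MK1_pr l p := by
  unfold MK1_pr
  rw [List.map_cons, List.prod_cons]

private theorem MK1_pr_append {H : Type} [Group H] (l : D → H) (p q : List D) :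
    MK1_pr l (p ++ q) = MK1_pr l p * MK1_pr l q := by
  unfold MK1_pr
  rw [List.map_append, List.prod_append]

private theorem MK1_pr_rev {H : Type} [Group H] {l : D → H} (hl : IsLab S.tri l) (p : List D) :
    MK1_pr l (MK1_rev S p) = (MK1_pr l p)⁻¹ := by
  induction p with
  | nil => rw [MK1_rev, MK1_pr_nil, inv_one]
  | cons d p ih =>
    rw [MK1_rev, MK1_pr_append, ih, MK1_pr_cons, MK1_pr_cons, MK1_pr_nil, mul_one, mul_inv_rev]
    congr 1
    exact hl.opp d

private theorem MK1_move {H : Type} [Group H] {l : D → H} (hl : IsLab S.tri l) {p q : List D}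
    (h : S.Move p q) : MK1_pr l p = MK1_pr l q := by
  cases h with
  | back p q d =>
    have h1 : l (S.opp d) = (l d)⁻¹ := hl.opp d
    simp only [MK1_pr_append, MK1_pr_cons, MK1_pr_nil, h1]
    group
  | tri p q d =>
    have h1 : l d * l (S.nxt d) * l (S.nxt (S.nxt d)) = 1 := hl.closed d
    simp only [MK1_pr_append, MK1_pr_cons, MK1_pr_nil]
    have h2 : l d * (l (S.nxt d) * (l (S.nxt (S.nxt d)) * 1)) = 1 := by
      rw [mul_one, ← mul_assoc, h1]
    rw [h2, mul_one]
  | tau p q d =>
    have h1 : l (S.tau d) = l d := hl.tau d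
    simp only [MK1_pr_append, MK1_pr_cons, MK1_pr_nil, h1]

private theorem MK1_homotopic {H : Type} [Group H] {l : D → H} (hl : IsLab S.tri l) {a b : D}
    {p q : List D} (h : S.Homotopic a b p q) : MK1_pr l p = MK1_pr l q := by
  induction h with
  | rel _ _ h => exact MK1_move hl h.2.2
  | refl _ => rfl
  | symm _ _ _ ih => exact ih.symm
  | trans _ _ _ _ _ ih1 ih2 => exact ih1.trans ih2

private theorem MK1_exists_path (hc : S.Connected) (a b : D) : ∃ p, S.IsPath a p b := by
  have h := hc a b
  induction h with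
  | rel x y h =>
    rcases h with rfl | rfl | rfl
    · exact ⟨_, MK1_single S x⟩
    · exact ⟨_, MK1_end (MK1_single S x) (MK1_turn S x)⟩
    · exact ⟨[], .nil (.rel _ _ (Or.inr rfl))⟩
  | refl x => exact ⟨[], .nil (.refl _)⟩
  | symm x y _ ih =>
    obtain ⟨p, hp⟩ := ih
    exact ⟨_, MK1_rev_path hp⟩
  | trans x y z _ _ ih1 ih2 =>
    obtain ⟨p, hp⟩ := ih1
    obtain ⟨q, hq⟩ := ih2
    exact ⟨_, MK1_append hp hq⟩

private theorem MK1_vert {H : Type} {c : D → H} [Group H] (hc : IsVert S.tri c) {a b : D}
    (h : S.SameOrigin a b) : c a = c b := by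
  induction h with
  | rel x y h =>
    rcases h with rfl | rfl
    · exact (hc.1 x).symm
    · exact (hc.2 x).symm
  | refl _ => rfl
  | symm _ _ _ ih => exact ih.symm
  | trans _ _ _ _ _ ih1 ih2 => exact ih1.trans ih2

/-- Proof. Fix a dart `a`. Let `l` be a labelling with values in `H`. For `x` in `G` choose a closed edge
path `p` at `a` with `lab p = x`, and let `φ x = l p`; this is well defined since homotopic paths have
the same `l`-product, and it is a homomorphism. For a dart `d` choose an edge path `p` from `a` to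
the origin of `d` (the surface is connected), and let `c d = (l p)⁻¹ φ (lab p)`; this does not
depend on `p`. Uniqueness: closed paths `p` at `a` with `lab p = x` give
`φ x = c a * ψ x * (c a)⁻¹`. Here `IsPath a p b` and `SameOrigin`: for a closed path which starts at
the origin of `a` the product of the conditions telescopes. Reversed paths:
replace `d` by `opp d`. -/
theorem Surf.IsMarking.up [Nonempty D] (h : S.IsMarking) (hc : S.Connected) :
    UP S.tri S.lab := by
  obtain ⟨a⟩ := ‹Nonempty D›
  have hS : IsLab S.tri S.lab := ⟨S.lab_closed, S.lab_opp, S.lab_tau⟩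
  obtain ⟨h1, h2⟩ := h a
  constructor
  · intro H _ l hl
    choose P hP hPx using h1
    have hPx' : ∀ x, MK1_pr S.lab (P x) = x := hPx
    -- closed paths
    have h3 : ∀ p q, S.IsPath a p a → S.IsPath a q a → MK1_pr S.lab p = MK1_pr S.lab q →
        MK1_pr l p = MK1_pr l q := by
      intro p q hp hq hpq
      have h4 := h2 (p ++ MK1_rev S q) (MK1_append hp (MK1_rev_path hq)) (by
        change MK1_pr S.lab (p ++ MK1_rev S q) = 1
        rw [MK1_pr_append, MK1_pr_rev hS, hpq, mul_inv_cancel])
      have h5 := MK1_homotopic hl h4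
      rw [MK1_pr_append, MK1_pr_rev hl, MK1_pr_nil, mul_inv_eq_one] at h5
      exact h5
    let φ : G →* H := MonoidHom.mk' (fun x => MK1_pr l (P x)) (fun x y => by
      rw [← MK1_pr_append]
      refine h3 _ _ (hP _) (MK1_append (hP x) (hP y)) ?_
      rw [MK1_pr_append, hPx', hPx', hPx'])
    have hφ : ∀ p, S.IsPath a p a → φ (MK1_pr S.lab p) = MK1_pr l p := by
      intro p hp
      exact h3 _ _ (hP _) hp (hPx' _)
    choose Q hQ using fun d => MK1_exists_path hc a d
    let c : D → H := fun d => (MK1_pr l (Q d))⁻¹ * φ (MK1_pr S.lab (Q d))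
    have hcQ : ∀ d p, S.IsPath a p d → c d = (MK1_pr l p)⁻¹ * φ (MK1_pr S.lab p) := by
      intro d p hp
      have h4 := hφ _ (MK1_append hp (MK1_rev_path (hQ d)))
      rw [MK1_pr_append, MK1_pr_append, MK1_pr_rev hS, MK1_pr_rev hl, map_mul, map_inv] at h4
      change (MK1_pr l (Q d))⁻¹ * φ (MK1_pr S.lab (Q d)) = _
      rw [inv_mul_eq_iff_eq_mul, ← mul_assoc]
      have h5 : MK1_pr l (Q d) * (MK1_pr l p)⁻¹ =
          φ (MK1_pr S.lab (Q d)) * (φ (MK1_pr S.lab p))⁻¹ := by
        have h6 := congrArg (fun x => x⁻¹) h4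
        simp only [mul_inv_rev, inv_inv] at h6
        exact h6.symm
      rw [h5, inv_mul_cancel_right]
    refine ⟨φ, c, ⟨fun d => ?_, fun d => ?_⟩, fun d => ?_⟩
    · have h4 : S.SameOrigin d (S.opp (S.nxt (S.nxt d))) := .rel _ _ (Or.inl rfl)
      rw [hcQ d (Q d) (hQ d)]
      exact hcQ _ _ (MK1_end (hQ d) h4)
    · have h4 : S.SameOrigin d (S.tau d) := .rel _ _ (Or.inr rfl)
      rw [hcQ d (Q d) (hQ d)]
      exact hcQ _ _ (MK1_end (hQ d) h4)
    · have h4 : c (S.nxt d) = (MK1_pr l (Q d ++ [d]))⁻¹ * φ (MK1_pr S.lab (Q d ++ [d])) :=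
        hcQ _ _ (MK1_append (hQ d) (MK1_single S d))
      have h5 : c (S.tri.nxt d) = (l d)⁻¹ * c d * φ (S.lab d) := by
        change c (S.nxt d) = _
        rw [h4, hcQ d (Q d) (hQ d), MK1_pr_append, MK1_pr_append, MK1_pr_cons, MK1_pr_cons,
          MK1_pr_nil, MK1_pr_nil, mul_one, mul_one, map_mul, mul_inv_rev]
        group
      rw [h5]
      group
  · intro H _ φ ψ c hcv hφ
    have key : ∀ (a b : D) (p : List D), S.IsPath a p b →
        φ (MK1_pr S.lab p) = c a * ψ (MK1_pr S.lab p) * (c b)⁻¹ := by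
      intro a b p hp
      induction hp with
      | nil h => rw [MK1_pr_nil, map_one, map_one, MK1_vert hcv h, mul_one, mul_inv_cancel]
      | cons h _ ih =>
        rw [MK1_pr_cons, map_mul, map_mul, hφ, ih, MK1_vert hcv h]
        change _ * _ * (c (S.nxt _))⁻¹ * _ = _
        group
    refine ⟨c a, fun x => ?_⟩
    obtain ⟨p, hp, hx⟩ := h1 x
    have h4 := key a a p hp
    have h5 : MK1_pr S.lab p = x := hx
    rw [h5] at h4
    exact h4

end Pool.Veech
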