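import Pool.Agent.Lib.MP_fceebd_gt.LP1b

/-! # Row MK2: the universal property is invariant -/

set_option autoImplicit false

namespace Pool.Veech

variable {G : Type} [Group G] {D : Type} [Fintype D] [DecidableEq D] {S S' : Surf G D}
  {m : Matrix D D ℤ}

set_option linter.unusedSectionVars false

namespace MK2

/-- new labels after a flip -/
def flipL {H : Type} [Group H] (T : Tri D) (a : D) (l : D → H) (d : D) : H :=
  if T.Diag a d then (l (T.nxt (T.nxt d)) * l (T.nxt (T.opp d)))⁻¹ else l d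

/-- old labels from the new ones -/
def unL {H : Type} [Group H] (T : Tri D) (a : D) (l : D → H) (d : D) : H :=
  if T.Diag a d then (l (T.nxt d) * l (T.nxt (T.nxt d)))⁻¹ else l d

/-- new vertex functions -/
def flipC {H : Type} (T : Tri D) (a : D) (c : D → H) (d : D) : H :=
  if T.Diag a d then c (T.nxt (T.nxt (T.opp d))) else c d

/-- old vertex functions -/
def unC {H : Type} (T : Tri D) (a : D) (c : D → H) (d : D) : H :=
  if T.Diag a d then c (T.nxt (T.opp d)) else c d

section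

variable {H : Type} [Group H] {T T' : Tri D} {a : D}

theorem flipL_pos {l : D → H} {d : D} (h : T.Diag a d) :
    flipL T a l d = (l (T.nxt (T.nxt d)) * l (T.nxt (T.opp d)))⁻¹ := if_pos h

theorem flipL_neg {l : D → H} {d : D} (h : ¬ T.Diag a d) : flipL T a l d = l d := if_neg h

theorem unL_pos {l : D → H} {d : D} (h : T.Diag a d) :
    unL T a l d = (l (T.nxt d) * l (T.nxt (T.nxt d)))⁻¹ := if_pos h

theorem unL_neg {l : D → H} {d : D} (h : ¬ T.Diag a d) : unL T a l d = l d := if_neg h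

theorem flipC_pos {c : D → H} {d : D} (h : T.Diag a d) :
    flipC T a c d = c (T.nxt (T.nxt (T.opp d))) := if_pos h

theorem flipC_neg {c : D → H} {d : D} (h : ¬ T.Diag a d) : flipC T a c d = c d := if_neg h

theorem unC_pos {c : D → H} {d : D} (h : T.Diag a d) :
    unC T a c d = c (T.nxt (T.opp d)) := if_pos h

theorem unC_neg {c : D → H} {d : D} (h : ¬ T.Diag a d) : unC T a c d = c d := if_neg h

/-- the situation of a flip -/
structure FF (T T' : Tri D) (a : D) : Prop where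
  fl : T.IsFlip T' a
  n1 : ∀ b, T.Diag a b → ¬ T.Diag a (T.nxt b)
  n2 : ∀ b, T.Diag a b → ¬ T.Diag a (T.nxt (T.nxt b))

theorem FF.cases (h : FF T T' a) (d : D) :
    (∃ b, T.Diag a b ∧ (d = b ∨ d = T.nxt b ∨ d = T.nxt (T.nxt b))) ∨
      (¬ T.Diag a d ∧ ¬ T.Diag a (T.nxt d) ∧ ¬ T.Diag a (T.nxt (T.nxt d)) ∧
        T'.nxt d = T.nxt d ∧ T'.nxt (T.nxt d) = T.nxt (T.nxt d) ∧
        T'.nxt (T.nxt (T.nxt d)) = d) := by
  by_cases hd : T.Near a d
  · exact Or.inl hd
  · right
    have h1 : ¬ T.Near a (T.nxt d) := fun h => hd (LP1b.near_nxt T h)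
    have h2 : ¬ T.Near a (T.nxt (T.nxt d)) := fun h => h1 (LP1b.near_nxt T h)
    refine ⟨fun h => hd (LP1b.near_diag T h), fun h => h1 (LP1b.near_diag T h),
      fun h => h2 (LP1b.near_diag T h), h.fl.rest d hd, h.fl.rest _ h1, ?_⟩
    rw [h.fl.rest _ h2, T.nxt3]

theorem FF.f1 (h : FF T T' a) {b : D} (hb : T.Diag a b) : T'.nxt b = T.nxt (T.nxt b) :=
  h.fl.nxt1 b hb

theorem FF.f2 (h : FF T T' a) {b : D} (hb : T.Diag a b) :
    T'.nxt (T.nxt (T.nxt b)) = T.nxt (T.opp b) := h.fl.nxt2 b hb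

theorem FF.f3 (h : FF T T' a) {b : D} (hb : T.Diag a b) : T'.nxt (T.nxt b) = T.opp b :=
  h.fl.nxt3 b hb

theorem FF.f3' (h : FF T T' a) {b : D} (hb : T.Diag a b) : T'.nxt (T.nxt (T.opp b)) = b := by
  rw [h.f3 (LP1b.diag_opp T hb), T.opp2]

theorem cyc {H : Type} [Group H] {x y z : H} (h : x * y * z = 1) : y * z * x = 1 := by
  have h1 : x⁻¹ = y * z := by
    rw [inv_eq_iff_mul_eq_one, ← mul_assoc]
    exact h
  rw [← h1, inv_mul_cancel]

theorem lab_flip (h : FF T T' a) {l : D → H} (hl : IsLab T l) : IsLab T' (flipL T a l) := by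
  have key : ∀ b, T.Diag a b →
      flipL T a l b * flipL T a l (T.nxt (T.nxt b)) * flipL T a l (T.nxt (T.opp b)) = 1 := by
    intro b hb
    rw [flipL_pos hb, flipL_neg (h.n2 b hb), flipL_neg (h.n1 _ (LP1b.diag_opp T hb))]
    rw [mul_assoc, inv_mul_cancel]
  refine ⟨?_, ?_, ?_⟩
  · intro d
    rcases h.cases d with ⟨b, hb, hd⟩ | ⟨h1, h2, h3, h4, h5, h6⟩
    · rcases hd with rfl | rfl | rfl
      · rw [h.f1 hb, h.f2 hb]
        exact key _ hb
      · have hb' := LP1b.diag_opp T hb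
        rw [h.f3 hb, h.f1 hb']
        have h7 := key _ hb'
        rw [T.opp2] at h7
        have h8 := cyc (cyc h7)
        exact h8
      · rw [h.f2 hb, h.f3' hb]
        exact cyc (key _ hb)
    · rw [h4, h5, flipL_neg h1, flipL_neg h2, flipL_neg h3]
      exact hl.closed d
  · intro d
    rw [h.fl.opp]
    by_cases hd : T.Diag a d
    · have hd' := LP1b.diag_opp T hd
      rw [flipL_pos hd, flipL_pos hd', T.opp2, inv_inj]
      have c1 := hl.closed d
      have c2 := hl.closed (T.opp d)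
      rw [hl.opp] at c2
      have e1 : l (T.nxt d) * l (T.nxt (T.nxt d)) = (l d)⁻¹ := by
        rw [eq_inv_iff_mul_eq_one]
        exact cyc c1
      have e2 : l (T.nxt (T.opp d)) * l (T.nxt (T.nxt (T.opp d))) = l d := by
        rw [← inv_inv (l d), eq_inv_iff_mul_eq_one]
        exact cyc c2
      rw [eq_inv_iff_mul_eq_one]
      have e3 : l (T.nxt (T.nxt (T.opp d))) * l (T.nxt d) *
          (l (T.nxt (T.nxt d)) * l (T.nxt (T.opp d))) =
          l (T.nxt (T.nxt (T.opp d))) * (l (T.nxt d) * l (T.nxt (T.nxt d))) *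
            l (T.nxt (T.opp d)) := by group
      rw [e3, e1, ← e2]
      group
    · rw [flipL_neg hd, flipL_neg (fun h => hd ((LP1b.diag_opp_iff T).1 h)), hl.opp]
  · intro d
    rw [h.fl.tau]
    by_cases hd : T.Diag a d
    · rw [flipL_pos hd, flipL_pos (LP1b.diag_tau T hd), ← T.tau_opp, ← T.tau_nxt, ← T.tau_nxt,
        ← T.tau_nxt, hl.tau, hl.tau]
    · rw [flipL_neg hd, flipL_neg (fun h => hd ((LP1b.diag_tau_iff T).1 h)), hl.tau]

theorem lab_un (h : FF T T' a) {l : D → H} (hl : IsLab T' l) : IsLab T (unL T a l) := by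
  -- the relations in the new triangles
  have r1 : ∀ b, T.Diag a b → l b * l (T.nxt (T.nxt b)) * l (T.nxt (T.opp b)) = 1 := by
    intro b hb
    have := hl.closed b
    rwa [h.f1 hb, h.f2 hb] at this
  have key : ∀ b, T.Diag a b →
      unL T a l b * unL T a l (T.nxt b) * unL T a l (T.nxt (T.nxt b)) = 1 := by
    intro b hb
    rw [unL_pos hb, unL_neg (h.n1 b hb), unL_neg (h.n2 b hb)]
    rw [mul_assoc, inv_mul_cancel]
  refine ⟨?_, ?_, ?_⟩
  · intro d
    rcases h.cases d with ⟨b, hb, hd⟩ | ⟨h1, h2, h3, h4, h5, h6⟩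
    · rcases hd with rfl | rfl | rfl
      · exact key _ hb
      · rw [T.nxt3]
        exact cyc (key _ hb)
      · rw [T.nxt3]
        exact cyc (cyc (key _ hb))
    · rw [unL_neg h1, unL_neg h2, unL_neg h3]
      have := hl.closed d
      rwa [h4, h5] at this
  · intro d
    by_cases hd : T.Diag a d
    · have hd' := LP1b.diag_opp T hd
      rw [unL_pos hd, unL_pos hd']
      have c1 := r1 d hd
      have c2 := r1 _ hd'
      have c3 := hl.opp d
      rw [h.fl.opp] at c3
      rw [T.opp2, c3] at c2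
      have e1 : l (T.nxt (T.nxt d)) * l (T.nxt (T.opp d)) = (l d)⁻¹ := by
        rw [eq_inv_iff_mul_eq_one]
        exact cyc c1
      have e2 : l (T.nxt (T.nxt (T.opp d))) * l (T.nxt d) = l d := by
        rw [← inv_inv (l d), eq_inv_iff_mul_eq_one]
        exact cyc c2
      rw [inv_inj, eq_inv_iff_mul_eq_one]
      have e3 : l (T.nxt (T.opp d)) * l (T.nxt (T.nxt (T.opp d))) *
          (l (T.nxt d) * l (T.nxt (T.nxt d))) =
          l (T.nxt (T.opp d)) * (l (T.nxt (T.nxt (T.opp d))) * l (T.nxt d)) *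
            l (T.nxt (T.nxt d)) := by group
      rw [e3, e2]
      have e4 : l d = (l (T.nxt (T.nxt d)) * l (T.nxt (T.opp d)))⁻¹ := by rw [e1, inv_inv]
      rw [e4]
      group
    · rw [unL_neg hd, unL_neg (fun h => hd ((LP1b.diag_opp_iff T).1 h))]
      have c3 := hl.opp d
      rwa [h.fl.opp] at c3
  · intro d
    by_cases hd : T.Diag a d
    · have t1 : ∀ x, l (T.tau x) = l x := by
        intro x
        have := hl.tau x
        rwa [h.fl.tau] at this
      rw [unL_pos hd, unL_pos (LP1b.diag_tau T hd), ← T.tau_nxt, ← T.tau_nxt, t1, t1]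
    · rw [unL_neg hd, unL_neg (fun h => hd ((LP1b.diag_tau_iff T).1 h))]
      have := hl.tau d
      rwa [h.fl.tau] at this

theorem flip_un (h : FF T T' a) {l : D → H} (hl : IsLab T' l) : flipL T a (unL T a l) = l := by
  funext d
  by_cases hd : T.Diag a d
  · rw [flipL_pos hd, unL_neg (h.n2 d hd), unL_neg (h.n1 _ (LP1b.diag_opp T hd))]
    have := hl.closed d
    rw [h.f1 hd, h.f2 hd] at this
    rw [inv_eq_iff_mul_eq_one]
    exact cyc this
  · rw [flipL_neg hd, unL_neg hd]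

theorem un_flip (h : FF T T' a) {l : D → H} (hl : IsLab T l) : unL T a (flipL T a l) = l := by
  funext d
  by_cases hd : T.Diag a d
  · rw [unL_pos hd, flipL_neg (h.n1 d hd), flipL_neg (h.n2 d hd), inv_eq_iff_mul_eq_one]
    exact cyc (hl.closed d)
  · rw [unL_neg hd, flipL_neg hd]

theorem vert_nxt_opp {T : Tri D} {c : D → H} (hc : IsVert T c) (x : D) :
    c (T.nxt (T.opp x)) = c x := by
  have := hc.1 (T.nxt (T.opp x))
  rw [T.nxt3, T.opp2] at this
  exact this.symm

theorem vert_mk {T : Tri D} {c : D → H} (h1 : ∀ x, c (T.nxt (T.opp x)) = c x)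
    (h2 : ∀ d, c (T.tau d) = c d) : IsVert T c := by
  refine ⟨fun d => ?_, h2⟩
  have := h1 (T.opp (T.nxt (T.nxt d)))
  rw [T.opp2, T.nxt3] at this
  exact this.symm

theorem vert_flip (h : FF T T' a) {c : D → H} (hc : IsVert T c) : IsVert T' (flipC T a c) := by
  have hv := vert_nxt_opp hc
  refine vert_mk ?_ ?_
  · intro x
    rw [h.fl.opp]
    by_cases hx : T.Diag a x
    · have hx' := LP1b.diag_opp T hx
      rw [h.f1 hx', flipC_neg (h.n2 _ hx'), flipC_pos hx]
    · have hx' : ¬ T.Diag a (T.opp x) := fun h => hx ((LP1b.diag_opp_iff T).1 h)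
      rw [flipC_neg hx]
      rcases h.cases (T.opp x) with ⟨b, hb, hd⟩ | ⟨h1, h2, h3, h4, h5, h6⟩
      · rcases hd with hd | hd | hd
        · exact absurd (hd ▸ hb) hx'
        · rw [hd, h.f3 hb, flipC_pos (LP1b.diag_opp T hb), T.opp2, ← hd]
          exact hv x
        · rw [hd, h.f2 hb, flipC_neg (h.n1 _ (LP1b.diag_opp T hb)), hv b, ← hv x, hd, T.nxt3]
      · rw [h4, flipC_neg h2]
        exact hv x
  · intro d
    rw [h.fl.tau]
    by_cases hd : T.Diag a d
    · rw [flipC_pos hd, flipC_pos (LP1b.diag_tau T hd), ← T.tau_opp, ← T.tau_nxt, ← T.tau_nxt,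
        hc.2]
    · rw [flipC_neg hd, flipC_neg (fun h => hd ((LP1b.diag_tau_iff T).1 h)), hc.2]

theorem vert_un (h : FF T T' a) {c : D → H} (hc : IsVert T' c) : IsVert T (unC T a c) := by
  have hv : ∀ x, c (T'.nxt (T.opp x)) = c x := by
    intro x
    have := vert_nxt_opp hc x
    rwa [h.fl.opp] at this
  have ht : ∀ x, c (T.tau x) = c x := by
    intro x
    have := hc.2 x
    rwa [h.fl.tau] at this
  refine vert_mk ?_ ?_
  · intro x
    by_cases hx : T.Diag a x
    · have hx' := LP1b.diag_opp T hx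
      rw [unC_neg (h.n1 _ hx'), unC_pos hx]
    · have hx' : ¬ T.Diag a (T.opp x) := fun h => hx ((LP1b.diag_opp_iff T).1 h)
      rw [unC_neg hx]
      rcases h.cases (T.opp x) with ⟨b, hb, hd⟩ | ⟨h1, h2, h3, h4, h5, h6⟩
      · rcases hd with hd | hd | hd
        · exact absurd (hd ▸ hb) hx'
        · -- `opp x = nxt b`
          rw [hd, unC_neg (h.n2 b hb), ← hv x, hd, h.f3 hb]
          have := hv b
          rw [h.f1 (LP1b.diag_opp T hb)] at this
          have h8 := hv (T.opp b)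
          rw [T.opp2, h.f1 hb] at h8
          exact h8
        · rw [hd, T.nxt3, unC_pos hb, ← hv x, hd, h.f2 hb]
      · rw [unC_neg h2, ← h4]
        exact hv x
  · intro d
    by_cases hd : T.Diag a d
    · rw [unC_pos hd, unC_pos (LP1b.diag_tau T hd), ← T.tau_opp, ← T.tau_nxt, ht]
    · rw [unC_neg hd, unC_neg (fun h => hd ((LP1b.diag_tau_iff T).1 h)), ht]

theorem rel_flip (h : FF T T' a) {H' : Type} [Group H'] {l m : D → H} {c : D → H}
    (hc : IsVert T c) (hr : ∀ d, l d = c d * m d * (c (T.nxt d))⁻¹) (d : D) :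
    flipL T a l d = flipC T a c d * flipL T a m d * (flipC T a c (T'.nxt d))⁻¹ := by
  have hv := vert_nxt_opp hc
  by_cases hd : T.Diag a d
  · rw [flipL_pos hd, flipL_pos hd, h.f1 hd, flipC_pos hd, flipC_neg (h.n2 d hd), hr, hr,
      T.nxt3, hv d]
    group
  · rw [flipL_neg hd, flipL_neg hd, flipC_neg hd, hr]
    congr 2
    rcases h.cases d with ⟨b, hb, hd'⟩ | ⟨h1, h2, h3, h4, h5, h6⟩
    · rcases hd' with rfl | rfl | rfl
      · exact absurd hb hd
      · rw [h.f3 hb, flipC_pos (LP1b.diag_opp T hb), T.opp2]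
      · rw [T.nxt3, h.f2 hb, flipC_neg (h.n1 _ (LP1b.diag_opp T hb)), hv b]
    · rw [h4, flipC_neg h2]

theorem rel_un (h : FF T T' a) {l m : D → H} {c : D → H}
    (hc : IsVert T' c) (hr : ∀ d, l d = c d * m d * (c (T'.nxt d))⁻¹) (d : D) :
    unL T a l d = unC T a c d * unL T a m d * (unC T a c (T.nxt d))⁻¹ := by
  have hv : ∀ x, c (T'.nxt (T.opp x)) = c x := by
    intro x
    have := vert_nxt_opp hc x
    rwa [h.fl.opp] at this
  by_cases hd : T.Diag a d
  · have hd' := LP1b.diag_opp T hd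
    rw [unL_pos hd, unL_pos hd, unC_pos hd, unC_neg (h.n1 d hd), hr (T.nxt d),
      hr (T.nxt (T.nxt d)), h.f3 hd, h.f2 hd]
    have h8 := hv (T.opp d)
    rw [T.opp2, h.f1 hd] at h8
    rw [h8]
    group
  · rw [unL_neg hd, unL_neg hd, unC_neg hd, hr]
    congr 2
    rcases h.cases d with ⟨b, hb, hd'⟩ | ⟨h1, h2, h3, h4, h5, h6⟩
    · rcases hd' with rfl | rfl | rfl
      · exact absurd hb hd
      · have h8 := hv (T.opp b)
        rw [T.opp2, h.f1 hb] at h8
        rw [h.f3 hb, unC_neg (h.n2 b hb), h8]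
      · rw [T.nxt3, h.f2 hb, unC_pos hb]
    · rw [h4, unC_neg h2]

theorem map_flipL {H' : Type} [Group H'] (φ : H →* H') (l : D → H) (d : D) :
    φ (flipL T a l d) = flipL T a (fun x => φ (l x)) d := by
  unfold flipL
  split_ifs
  · rw [map_inv, map_mul]
  · rfl

theorem map_unL {H' : Type} [Group H'] (φ : H →* H') (l : D → H) (d : D) :
    φ (unL T a l d) = unL T a (fun x => φ (l x)) d := by
  unfold unL
  split_ifs
  · rw [map_inv, map_mul]
  · rfl

end

theorem ff_of {S S' : Surf G D} {a : D} (hf : IsFlip S S' a) : FF S.tri S'.tri a :=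
  ⟨hf.tri, fun _ hb => (S.geo.not_diag_nxt hb).1, fun _ hb => (S.geo.not_diag_nxt hb).2⟩

end MK2

/-- labellings of `T` and of its flip correspond to each other (new labels
`(l (nxt (nxt d)) * l (nxt (opp d)))⁻¹` for the four darts of the diagonals) -/
theorem UP.flip {a : D} (h : UP S.tri S.lab) (hf : IsFlip S S' a) : UP S'.tri S'.lab := by
  have F := MK2.ff_of hf
  have hl : S'.lab = MK2.flipL S.tri a S.lab := by
    funext d
    exact hf.lab_eq d
  refine ⟨?_, ?_⟩
  · intro H _ l hl'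
    obtain ⟨φ, c, hc, hr⟩ := h.1 H (MK2.unL S.tri a l) (MK2.lab_un F hl')
    refine ⟨φ, MK2.flipC S.tri a c, MK2.vert_flip F hc, fun d => ?_⟩
    have h1 := MK2.rel_flip F (H' := H) hc hr d
    rw [MK2.flip_un F hl'] at h1
    rw [h1, hl, MK2.map_flipL]
  · intro H _ φ ψ c hc hr
    refine h.2 H φ ψ (MK2.unC S.tri a c) (MK2.vert_un F hc) (fun d => ?_)
    have h1 := MK2.rel_un F hc hr d
    rw [← MK2.map_unL, ← MK2.map_unL, hl, MK2.un_flip F S.isLab] at h1
    exact h1

theorem UP.relabel (h : UP S.tri S.lab) (e : Equiv.Perm D) :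
    UP (S.relabP e).tri (S.relabP e).lab := by
  refine ⟨?_, ?_⟩
  · intro H _ l hl
    have hl' : IsLab S.tri (fun d => l (e d)) := by
      refine ⟨fun d => ?_, fun d => ?_, fun d => ?_⟩
      · have := hl.closed (e d)
        simpa [Surf.relabP, Tri.relab, Surf.tri] using this
      · have := hl.opp (e d)
        simpa [Surf.relabP, Tri.relab, Surf.tri] using this
      · have := hl.tau (e d)
        simpa [Surf.relabP, Tri.relab, Surf.tri] using this
    obtain ⟨φ, c, hc, hr⟩ := h.1 H _ hl'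
    refine ⟨φ, fun d => c (e.symm d), ⟨fun d => ?_, fun d => ?_⟩, fun d => ?_⟩
    · have := hc.1 (e.symm d)
      simpa [Surf.relabP, Tri.relab, Surf.tri] using this
    · have := hc.2 (e.symm d)
      simpa [Surf.relabP, Tri.relab, Surf.tri] using this
    · have := hr (e.symm d)
      simpa [Surf.relabP, Tri.relab, Surf.tri] using this
  · intro H _ φ ψ c hc hr
    refine h.2 H φ ψ (fun d => c (e d)) ⟨fun d => ?_, fun d => ?_⟩ (fun d => ?_)
    · have := hc.1 (e d)
      simpa [Surf.relabP, Tri.relab, Surf.tri] using this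
    · have := hc.2 (e d)
      simpa [Surf.relabP, Tri.relab, Surf.tri] using this
    · have := hr (e d)
      simpa [Surf.relabP, Tri.relab, Surf.tri] using this

theorem UP.gauge {c : D → G} (h : UP S.tri S.lab) (hg : IsGauge S S' c) :
    UP S'.tri S'.lab := by
  have ht : S'.tri = S.tri := LP1b.tri_gauge hg
  rw [ht]
  have hcn : ∀ d, S.lab d = (c d)⁻¹ * S'.lab d * c (S.tri.nxt d) := by
    intro d
    rw [hg.lab]
    change S.lab d = (c d)⁻¹ * (c d * S.lab d * (c (S.nxt d))⁻¹) * c (S.nxt d)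
    group
  have hcv : ∀ d, c (S.tri.opp (S.tri.nxt (S.tri.nxt d))) = c d := hg.c_turn
  have hct : ∀ d, c (S.tri.tau d) = c d := hg.c_tau
  refine ⟨?_, ?_⟩
  · intro H _ l hl
    obtain ⟨φ, c₁, hc, hr⟩ := h.1 H l hl
    refine ⟨φ, fun d => c₁ d * (φ (c d))⁻¹, ⟨fun d => ?_, fun d => ?_⟩, fun d => ?_⟩
    · change c₁ _ * (φ (c _))⁻¹ = _
      rw [hc.1, hcv]
    · change c₁ _ * (φ (c _))⁻¹ = _
      rw [hc.2, hct]
    · change l d = c₁ d * (φ (c d))⁻¹ * φ (S'.lab d) * (c₁ (S.tri.nxt d) * (φ (c (S.tri.nxt d)))⁻¹)⁻¹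
      rw [hr, hcn, map_mul, map_mul, map_inv]
      group
  · intro H _ φ ψ c₁ hc hr
    refine h.2 H φ ψ (fun d => (φ (c d))⁻¹ * c₁ d * ψ (c d)) ⟨fun d => ?_, fun d => ?_⟩
      (fun d => ?_)
    · change (φ (c _))⁻¹ * c₁ _ * ψ (c _) = _
      rw [hc.1, hcv]
    · change (φ (c _))⁻¹ * c₁ _ * ψ (c _) = _
      rw [hc.2, hct]
    · rw [hcn, map_mul, map_mul, map_mul, map_mul, map_inv, map_inv, hr]
      group

theorem UP.path (h : UP S.tri S.lab) (hp : LPath S S' m) : UP S'.tri S'.lab := by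
  induction hp with
  | refl => exact h
  | flip _ hf ih => exact ih.flip hf
  | relabel e _ ih => exact ih.relabel e
  | gauge c _ hg ih => exact ih.gauge hg

/-- two universal labellings of one triangulation differ by an automorphism -/
theorem UP.exists_equiv {T : Tri D} {l l' : D → G} (hl : IsLab T l) (hl' : IsLab T l')
    (h : UP T l) (h' : UP T l') :
    ∃ (f : G ≃* G) (c : D → G), IsVert T c ∧ ∀ d, l' d = c d * f (l d) * (c (T.nxt d))⁻¹ := by
  obtain ⟨φ, c, hc, hr⟩ := h.1 G l' hl'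
  obtain ⟨ψ, c', hc', hr'⟩ := h'.1 G l hl
  have e1 : ∀ d, φ (l d) = (c d)⁻¹ * l' d * c (T.nxt d) := by
    intro d
    have := hr d
    rw [this]
    group
  have e2 : ∀ d, ψ (l' d) = (c' d)⁻¹ * l d * c' (T.nxt d) := by
    intro d
    have := hr' d
    rw [this]
    group
  have h1 : ∃ x : G, ∀ y, (ψ.comp φ) y = x * (MonoidHom.id G) y * x⁻¹ := by
    refine h.2 G (ψ.comp φ) (MonoidHom.id G) (fun d => (c' d * ψ (c d))⁻¹)
      ⟨fun d => ?_, fun d => ?_⟩ (fun d => ?_)
    · change (c' _ * ψ (c _))⁻¹ = _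
      rw [hc.1, hc'.1]
    · change (c' _ * ψ (c _))⁻¹ = _
      rw [hc.2, hc'.2]
    · change ψ (φ (l d)) = (c' d * ψ (c d))⁻¹ * l d * ((c' (T.nxt d) * ψ (c (T.nxt d)))⁻¹)⁻¹
      rw [e1 d, map_mul, map_mul, map_inv, e2 d]
      group
  have h2 : ∃ x : G, ∀ y, (φ.comp ψ) y = x * (MonoidHom.id G) y * x⁻¹ := by
    refine h'.2 G (φ.comp ψ) (MonoidHom.id G) (fun d => (c d * φ (c' d))⁻¹)
      ⟨fun d => ?_, fun d => ?_⟩ (fun d => ?_)
    · change (c _ * φ (c' _))⁻¹ = _
      rw [hc.1, hc'.1]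
    · change (c _ * φ (c' _))⁻¹ = _
      rw [hc.2, hc'.2]
    · change φ (ψ (l' d)) = (c d * φ (c' d))⁻¹ * l' d * ((c (T.nxt d) * φ (c' (T.nxt d)))⁻¹)⁻¹
      rw [e2 d, map_mul, map_mul, map_inv, e1 d]
      group
  obtain ⟨x, hx⟩ := h1
  obtain ⟨y, hy⟩ := h2
  have hinj : Function.Injective φ := by
    intro u v huv
    have e1 := hx u
    have e2 := hx v
    simp only [MonoidHom.comp_apply, MonoidHom.id_apply] at e1 e2
    rw [huv, e2] at e1
    exact (mul_left_cancel (mul_right_cancel e1)).symm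
  have hsurj : Function.Surjective φ := by
    intro u
    refine ⟨ψ (y⁻¹ * u * y), ?_⟩
    have e1 := hy (y⁻¹ * u * y)
    simp only [MonoidHom.comp_apply, MonoidHom.id_apply] at e1
    rw [e1]
    group
  exact ⟨MulEquiv.ofBijective φ ⟨hinj, hsurj⟩, c, hc, hr⟩

end Pool.Veech
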