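import Pool.Agent.Lib.MP_fceebd_gt.MK1
import Pool.Agent.Lib.MP_fceebd_gt.MK2
import Pool.Agent.Lib.MP_fceebd_gt.LP2

/-! # Row MK3: the Veech group is the affine group of the triangulation -/

set_option autoImplicit false

open MeasureTheory
open scoped UpperHalfPlane MatrixGroups

namespace Pool.Veech

/-- (`≤`: `sameSurf_iff`. `≥`: lift the loop to a labelled path (`GPath.lift`), and compare the labels
at the end with those at the start by `UP.exists_equiv`.) -/
theorem veechGroup_eq {g : ℕ} (X : MS g) : veechGroup X = aff X.S.tri X.S.z X.S.geo := by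
  ext A
  constructor
  · rintro ⟨f, hf⟩
    obtain ⟨m, hm⟩ := (sameSurf_iff _ _).1 hf
    exact ⟨m, hm.gpath, hm.z_eq.symm⟩
  · rintro ⟨m, hm, hz⟩
    obtain ⟨S', ht, hz', hp⟩ := GPath.lift X.S hm
    have : Nonempty (Fin X.n) := ⟨⟨0, X.pos⟩⟩
    have u1 : UP X.S.tri X.S.lab := X.mark.up X.conn
    have u2 : UP S'.tri S'.lab := u1.path hp
    have l2 : IsLab S'.tri S'.lab := S'.isLab
    rw [ht] at u2 l2
    obtain ⟨f, c, hc, hl⟩ := UP.exists_equiv X.S.isLab l2 u1 u2
    have hnxt : S'.nxt = X.S.nxt := congrArg Tri.nxt ht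
    have hopp : S'.opp = X.S.opp := congrArg Tri.opp ht
    have htau : S'.tau = X.S.tau := congrArg Tri.tau ht
    have hg : IsGauge ((X.S.act A.1 (det_pos A)).relab f) S' c :=
      ⟨hnxt, hopp, htau, hz'.trans hz, hc.1, hc.2, hl⟩
    have h1 : SameSurf ⟨X.n, (X.S.act A.1 (det_pos A)).relab f⟩ ⟨X.n, S'⟩ :=
      .rel _ _ (.gauge _ _ c hg)
    have h2 : SameSurf ⟨X.n, X.S⟩ ⟨X.n, S'⟩ := (sameSurf_iff _ _).2 ⟨m, hp⟩
    have h3 : SameSurf ⟨X.n, X.S⟩ ⟨X.n, (X.S.act A.1 (det_pos A)).relab f⟩ :=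
      .trans _ _ _ h2 (.symm _ _ h1)
    have h4 := h3.relab f.symm
    have h5 : ((X.S.act A.1 (det_pos A)).relab f).relab f.symm = X.S.act A.1 (det_pos A) :=
      Surf.ext' rfl rfl rfl rfl (by funext d; exact f.symm_apply_apply _)
    simp only [h5] at h4
    exact ⟨f.symm, h4⟩

private theorem MK3_faces {G D : Type} [Group G] (S : Surf G D) (A : Matrix (Fin 2) (Fin 2) ℝ)
    (hA : 0 < A.det) (d : D) (u : Vec) (h : S.Faces d u) :
    (S.act A hA).Faces d (A.mulVec u) := by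
  refine ⟨?_, ?_⟩
  · change 0 < cr (A.mulVec (S.z d)) (A.mulVec u)
    rw [cr_mulVec]
    exact mul_pos hA h.1
  · change 0 < cr (A.mulVec u) (A.mulVec (S.z (S.turn d)))
    rw [cr_mulVec]
    exact mul_pos hA h.2

/-- the image of `X` under a linear map is a marked surface (`Singular` is invariant, as `Faces` is
a condition on signs of cross products) -/
def MS.act {g : ℕ} (X : MS g) (A : Matrix (Fin 2) (Fin 2) ℝ) (hA : 0 < A.det) : MS g where
  n := X.n
  S := X.S.act A hA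
  pos := X.pos
  conn := X.conn
  sing := by
    obtain ⟨u, hu⟩ := X.sing
    refine ⟨A.mulVec u, fun d => ?_⟩
    obtain ⟨i, j, h1, h2, h3⟩ := hu d
    exact ⟨i, j, h1, MK3_faces X.S A hA _ u h2, MK3_faces X.S A hA _ u h3⟩
  mark := X.mark.congr rfl rfl
  orient := X.orient

private theorem MK3_bound (B C : Matrix (Fin 2) (Fin 2) ℝ) : ∃ K : ℝ, 0 < K ∧
    ∀ i j, |B i j| ≤ K ∧ |C i j| ≤ K := by
  refine ⟨1 + ∑ i, ∑ j, (|B i j| + |C i j|), ?_, fun i j => ?_⟩
  · positivity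
  · have h1 : |B i j| + |C i j| ≤ ∑ i, ∑ j, (|B i j| + |C i j|) := by
      refine le_trans ?_ (Finset.single_le_sum (f := fun i => ∑ j, (|B i j| + |C i j|))
        (fun i _ => by positivity) (Finset.mem_univ i))
      exact Finset.single_le_sum (f := fun j => |B i j| + |C i j|)
        (fun j _ => by positivity) (Finset.mem_univ j)
    have h2 := abs_nonneg (B i j)
    have h3 := abs_nonneg (C i j)
    constructor <;> linarith

private theorem MK3_meas (B : SL(2, ℝ)) (F : Set ℍ) (hF : MeasurableSet F) :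
    MeasurableSet ((fun τ : ℍ => B • τ) ⁻¹' F) ∧
      volume ((fun τ : ℍ => B • τ) ⁻¹' F) = volume F := by
  have h1 : (fun τ : ℍ => B • τ) ⁻¹' F =
      (fun τ : ℍ => (Matrix.SpecialLinearGroup.mapGL ℝ B) • τ) ⁻¹' F := rfl
  rw [h1]
  exact ⟨measurableSet_preimage (measurable_const_smul _) hF, measure_preimage_smul _ _ _⟩

/-- lattices are preserved by conjugation -/
theorem IsLattice.conj {Γ Γ' : Subgroup SL(2, ℝ)} (h : IsLattice Γ) (B : SL(2, ℝ))
    (hB : ∀ A, A ∈ Γ' ↔ B⁻¹ * A * B ∈ Γ) : IsLattice Γ' := by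
  obtain ⟨⟨ε, hε, hd⟩, F, hF, hvol, hcov⟩ := h
  refine ⟨?_, (fun τ : ℍ => B⁻¹ • τ) ⁻¹' F, (MK3_meas B⁻¹ F hF).1, ?_, fun τ => ?_⟩
  · obtain ⟨K, hK, hK'⟩ := MK3_bound B.1 (B⁻¹).1
    refine ⟨ε / (4 * K * K + 1), by positivity, fun A hA h1 => ?_⟩
    have h2 := hd _ ((hB A).1 hA) (fun i j => ?_)
    · have h3 : A = B * (B⁻¹ * A * B) * B⁻¹ := by group
      rw [h3, h2]
      group
    · have h4 : (B⁻¹ * A * B).1 - 1 = (B⁻¹).1 * (A.1 - 1) * B.1 := by
        have h5 : (B⁻¹).1 * B.1 = 1 := by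
          rw [← Matrix.SpecialLinearGroup.coe_mul, inv_mul_cancel,
            Matrix.SpecialLinearGroup.coe_one]
        rw [mul_sub, sub_mul, mul_one, h5, Matrix.SpecialLinearGroup.coe_mul,
          Matrix.SpecialLinearGroup.coe_mul]
      have h5 : (B⁻¹ * A * B).1 i j - (1 : Matrix (Fin 2) (Fin 2) ℝ) i j =
          ((B⁻¹).1 * (A.1 - 1) * B.1) i j := by
        rw [← h4]
        rfl
      rw [h5, Matrix.mul_apply, Fin.sum_univ_two, Matrix.mul_apply, Matrix.mul_apply,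
        Fin.sum_univ_two, Fin.sum_univ_two]
      have h6 : ∀ k l, |(B⁻¹).1 i k * (A.1 - 1) k l * B.1 l j| ≤
          K * (ε / (4 * K * K + 1)) * K := by
        intro k l
        rw [abs_mul, abs_mul]
        have h7 : |(A.1 - 1) k l| ≤ ε / (4 * K * K + 1) := (h1 k l).le
        have h8 := (hK' i k).2
        have h9 := (hK' l j).1
        gcongr
      have e1 := h6 0 0
      have e2 := h6 0 1
      have e3 := h6 1 0
      have e4 := h6 1 1
      have h10 : K * (ε / (4 * K * K + 1)) * K * 4 < ε := by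
        have h11 : K * (ε / (4 * K * K + 1)) * K * 4 = ε * (4 * K * K / (4 * K * K + 1)) := by
          ring
        rw [h11]
        have h12 : 4 * K * K / (4 * K * K + 1) < 1 := by
          rw [div_lt_one (by positivity)]
          linarith
        nlinarith
      rw [add_mul, add_mul]
      rw [abs_le] at e1 e2 e3 e4
      rw [abs_lt]
      constructor <;> linarith [e1.1, e1.2, e2.1, e2.2, e3.1, e3.2, e4.1, e4.2]
  · rw [(MK3_meas B⁻¹ F hF).2]
    exact hvol
  · obtain ⟨A, hA, hAτ⟩ := hcov (B⁻¹ • τ)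
    refine ⟨B * A * B⁻¹, ?_, ?_⟩
    · rw [hB]
      have h1 : B⁻¹ * (B * A * B⁻¹) * B = A := by group
      rw [h1]
      exact hA
    · change B⁻¹ • (B * A * B⁻¹) • τ ∈ F
      rw [← mul_smul]
      have h1 : B⁻¹ * (B * A * B⁻¹) = A * B⁻¹ := by group
      rw [h1, mul_smul]
      exact hAτ

/-- positive multiples of `A` have the same affine group; so the Veech group of `A X` is conjugate to
that of `X` for each `A` with positive determinant -/
theorem veechGroup_act {g : ℕ} (X : MS g) (A : Matrix (Fin 2) (Fin 2) ℝ) (hA : 0 < A.det) :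
    ∃ B : SL(2, ℝ), ∀ M, M ∈ veechGroup (X.act A hA) ↔ B⁻¹ * M * B ∈ veechGroup X := by
  -- `A = s B`
  set s : ℝ := Real.sqrt A.det with hs
  have hs0 : 0 < s := Real.sqrt_pos.2 hA
  have hs2 : s * s = A.det := Real.mul_self_sqrt hA.le
  have hBd : (s⁻¹ • A).det = 1 := by
    rw [Matrix.det_smul, Fintype.card_fin, ← hs2]
    field_simp
  refine ⟨⟨s⁻¹ • A, hBd⟩, fun M => ?_⟩
  set B : SL(2, ℝ) := ⟨s⁻¹ • A, hBd⟩ with hBdef
  have hAB : A = s • B.1 := by
    change A = s • (s⁻¹ • A)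
    rw [smul_smul, mul_inv_cancel₀ hs0.ne', one_smul]
  have hconj : A⁻¹ * M.1 * A = (B⁻¹ * M * B).1 := by
    have h1 : A⁻¹ = s⁻¹ • (B⁻¹).1 := by
      refine Matrix.inv_eq_left_inv ?_
      rw [hAB, smul_mul_smul_comm, inv_mul_cancel₀ hs0.ne', one_smul,
        ← Matrix.SpecialLinearGroup.coe_mul, inv_mul_cancel, Matrix.SpecialLinearGroup.coe_one]
    rw [h1, hAB, smul_mul_assoc, smul_mul_smul_comm, inv_mul_cancel₀ hs0.ne', one_smul,
      Matrix.SpecialLinearGroup.coe_mul, Matrix.SpecialLinearGroup.coe_mul]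
  have hAu : IsUnit A.det := (isUnit_iff_ne_zero).2 hA.ne'
  have hAi : 0 < (A⁻¹).det := by
    rw [Matrix.det_nonsing_inv, Ring.inverse_eq_inv']
    exact inv_pos.2 hA
  rw [veechGroup_eq, veechGroup_eq]
  change (∃ m, GPath X.S.tri (lin A X.S.z) X.S.tri m ∧
    app m (lin A X.S.z) = lin M.1 (lin A X.S.z)) ↔
    ∃ m, GPath X.S.tri X.S.z X.S.tri m ∧ app m X.S.z = lin (B⁻¹ * M * B).1 X.S.z
  rw [← hconj]
  refine exists_congr fun m => and_congr ⟨fun h => ?_, fun h => h.lin A hA⟩ ?_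
  · have h1 := h.lin A⁻¹ hAi
    rw [lin_lin, Matrix.nonsing_inv_mul A hAu, lin_one] at h1
    exact h1
  · rw [app_lin]
    constructor
    · intro h
      have h1 := congrArg (lin A⁻¹) h
      rw [lin_lin, Matrix.nonsing_inv_mul A hAu, lin_one, lin_lin, lin_lin] at h1
      exact h1
    · intro h
      rw [h, lin_lin, lin_lin, ← mul_assoc, ← mul_assoc, Matrix.mul_nonsing_inv A hAu, one_mul]

/-- isometric surfaces have the same Veech group -/
theorem veechGroup_same {g : ℕ} {X Y : MS g} (h : SameSurf X.toSigma Y.toSigma) :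
    veechGroup X = veechGroup Y := by
  have key : ∀ {X Y : MS g}, SameSurf X.toSigma Y.toSigma → veechGroup X ≤ veechGroup Y := by
    intro X Y h A hA
    obtain ⟨f, hf⟩ := hA
    refine ⟨f, ?_⟩
    have h1 : SameSurf ⟨X.n, X.S.relab f⟩ ⟨Y.n, Y.S.relab f⟩ := SameSurf.relab h f
    have h2 : SameSurf ⟨X.n, X.S.act A.1 (det_pos A)⟩ ⟨Y.n, Y.S.act A.1 (det_pos A)⟩ :=
      SameSurf.act h A.1 (det_pos A)
    exact .trans _ _ _ (.symm _ _ h1) (.trans _ _ _ hf h2)
  exact le_antisymm (key h) (key (.symm _ _ h))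

end Pool.Veech
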