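import Pool.Agent.Lib.MP_fceebd_gt.Tri

/-! # Rows N1, N2: certificates of finite covolume (no surfaces in this file) -/

set_option autoImplicit false

open MeasureTheory
open scoped UpperHalfPlane MatrixGroups

namespace Pool.Veech.N1x

/-- the box -/
def box (X Y : ℝ) : Set ℍ := {τ | |τ.re| ≤ X ∧ Y ≤ τ.im}

theorem box_meas (X Y : ℝ) : MeasurableSet (box X Y) := by
  have h1 : Continuous fun τ : ℍ => |τ.re| := by
    exact continuous_abs.comp UpperHalfPlane.continuous_re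
  have h2 : Continuous fun τ : ℍ => τ.im := UpperHalfPlane.continuous_im
  exact (isClosed_le h1 continuous_const).measurableSet.inter
    (isClosed_le continuous_const h2).measurableSet

theorem lint_fin {Y : ℝ} (hY : 0 < Y) :
    ∫⁻ y : ℝ in Set.Ici Y, ((((1 / ‖y‖₊) ^ 2 : NNReal)) : ENNReal) < ⊤ := by
  have h := integrableOn_Ioi_rpow_of_lt (a := -2) (by norm_num) hY
  rw [Measure.restrict_congr_set Ioi_ae_eq_Ici.symm]
  have h2 := h.2
  rw [hasFiniteIntegral_iff_enorm] at h2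
  refine lt_of_le_of_lt (le_of_eq ?_) h2
  refine setLIntegral_congr_fun measurableSet_Ioi ?_
  intro y hy
  have hy0 : 0 < y := hY.trans hy
  simp only
  rw [← ofReal_norm_eq_enorm, Real.norm_of_nonneg (Real.rpow_nonneg hy0.le _)]
  rw [Real.rpow_neg hy0.le, ENNReal.ofReal]
  congr 1
  apply NNReal.eq
  rw [Real.coe_toNNReal _ (by positivity)]
  push_cast
  rw [Real.norm_of_nonneg hy0.le]
  rw [show (2:ℝ) = ((2:ℕ):ℝ) by norm_num, Real.rpow_natCast]
  simp

theorem box_vol (X : ℝ) {Y : ℝ} (hY : 0 < Y) : volume (box X Y) < ⊤ := by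
  rw [UpperHalfPlane.volume_eq_lintegral]
  have hsub : ((↑) '' (box X Y) : Set ℂ) ⊆
      Complex.measurableEquivRealProd ⁻¹' (Set.Icc (-X) X ×ˢ Set.Ici Y) := by
    rintro _ ⟨τ, ⟨h1, h2⟩, rfl⟩
    exact ⟨abs_le.mp h1, h2⟩
  refine lt_of_le_of_lt (lintegral_mono_set hsub) ?_
  have e := Complex.volume_preserving_equiv_real_prod.setLIntegral_comp_preimage_emb
    Complex.measurableEquivRealProd.measurableEmbedding
    (fun p : ℝ × ℝ => ((((1 / ‖p.2‖₊) ^ 2 : NNReal)) : ENNReal)) (Set.Icc (-X) X ×ˢ Set.Ici Y)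
  refine lt_of_le_of_lt (le_of_eq e) ?_
  rw [Measure.volume_eq_prod, ← Measure.prod_restrict]
  have hm : Measurable (fun y : ℝ => ((((1 / ‖y‖₊) ^ 2 : NNReal)) : ENNReal)) := by
    fun_prop
  have := lintegral_prod_mul (μ := (volume : Measure ℝ).restrict (Set.Icc (-X) X))
    (ν := (volume : Measure ℝ).restrict (Set.Ici Y)) (f := fun _ => (1 : ENNReal))
    (g := fun y : ℝ => ((((1 / ‖y‖₊) ^ 2 : NNReal)) : ENNReal)) aemeasurable_const hm.aemeasurable
  simp only [one_mul] at this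
  rw [this]
  refine ENNReal.mul_lt_top ?_ (lint_fin hY)
  simp

end Pool.Veech.N1x

namespace Pool.Veech.N1x

/-- the quadratic form -/
noncomputable def qf (τ : ℍ) (r : Vec) : ℝ :=
  (r 0 ^ 2 * (τ.re ^ 2 + τ.im ^ 2) + 2 * r 0 * r 1 * τ.re + r 1 ^ 2) / τ.im

/-- the second row -/
def row (A : SL(2, ℝ)) (i : Fin 2) : Vec := fun j => A.1 i j

theorem qf_eq_normSq (τ : ℍ) (r : Vec) :
    qf τ r = Complex.normSq ((r 0 : ℂ) * τ + r 1) / τ.im := by
  rw [qf, Complex.normSq_apply]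
  simp only [Complex.add_re, Complex.mul_re, Complex.ofReal_re, Complex.ofReal_im, zero_mul,
    sub_zero, Complex.add_im, Complex.mul_im, add_zero, UpperHalfPlane.coe_re,
    UpperHalfPlane.coe_im]
  ring

theorem smul_coe (A : SL(2, ℝ)) (τ : ℍ) :
    ((A • τ : ℍ) : ℂ) = ((row A 0 0 : ℂ) * τ + row A 0 1) / ((row A 1 0 : ℂ) * τ + row A 1 1) := by
  rw [UpperHalfPlane.coe_specialLinearGroup_apply]
  rfl

theorem det_row (A : SL(2, ℝ)) : row A 0 0 * row A 1 1 - row A 0 1 * row A 1 0 = 1 := by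
  have := A.2
  rw [Matrix.det_fin_two] at this
  exact this

theorem row_one_ne (A : SL(2, ℝ)) : row A 1 ≠ 0 := by
  intro h
  have := det_row A
  rw [h] at this
  simp at this

theorem den_ne (A : SL(2, ℝ)) (τ : ℍ) : (row A 1 0 : ℂ) * τ + row A 1 1 ≠ 0 :=
  UpperHalfPlane.linear_ne_zero τ (row_one_ne A)

theorem im_smul (A : SL(2, ℝ)) (τ : ℍ) : (A • τ).im = 1 / qf τ (row A 1) := by
  have h := den_ne A τ
  have h1 : 0 < Complex.normSq ((row A 1 0 : ℂ) * τ + row A 1 1) := Complex.normSq_pos.mpr h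
  have hy := τ.im_pos
  rw [qf_eq_normSq, one_div_div, ← UpperHalfPlane.coe_im, smul_coe, Complex.div_im]
  rw [div_sub_div_same]
  congr 1
  simp only [Complex.add_re, Complex.mul_re, Complex.ofReal_re, Complex.ofReal_im, zero_mul,
    sub_zero, Complex.add_im, Complex.mul_im, add_zero, UpperHalfPlane.coe_re,
    UpperHalfPlane.coe_im]
  have := det_row A
  linear_combination (τ.im) * this

theorem nf_smul (A : SL(2, ℝ)) (τ : ℍ) :
    ((A • τ).re ^ 2 + (A • τ).im ^ 2 + 1) / (A • τ).im = qf τ (row A 0) + qf τ (row A 1) := by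
  have h := den_ne A τ
  have h1 : 0 < Complex.normSq ((row A 1 0 : ℂ) * τ + row A 1 1) := Complex.normSq_pos.mpr h
  have hy := τ.im_pos
  have e : (A • τ).re ^ 2 + (A • τ).im ^ 2 = Complex.normSq ((A • τ : ℍ) : ℂ) := by
    rw [Complex.normSq_apply, UpperHalfPlane.coe_re, UpperHalfPlane.coe_im]
    ring
  rw [e, im_smul, smul_coe, Complex.normSq_div, qf_eq_normSq, qf_eq_normSq]
  generalize Complex.normSq ((row A 1 0 : ℂ) * τ + row A 1 1) = w at h1
  generalize Complex.normSq ((row A 0 0 : ℂ) * τ + row A 0 1) = v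
  field_simp

/-- eigen decomposition -/
theorem exists_eig (τ : ℍ) : ∃ (u : Vec) (l : ℝ), 1 ≤ l ∧ nq u = 1 ∧
    ∀ r : Vec, qf τ r = l * ip u r ^ 2 + l⁻¹ * cr u r ^ 2 := by
  obtain ⟨a, ha⟩ : ∃ a, a = (τ.re ^ 2 + τ.im ^ 2) / τ.im := ⟨_, rfl⟩
  obtain ⟨b, hb⟩ : ∃ b, b = τ.re / τ.im := ⟨_, rfl⟩
  obtain ⟨c, hc⟩ : ∃ c, c = 1 / τ.im := ⟨_, rfl⟩
  have hy := τ.im_pos
  have hdet : a * c - b ^ 2 = 1 := by
    rw [ha, hb, hc]
    field_simp
    ring
  have hq : ∀ r : Vec, qf τ r = a * r 0 ^ 2 + 2 * b * (r 0 * r 1) + c * r 1 ^ 2 := by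
    intro r
    rw [qf, ha, hb, hc]
    field_simp
  have hc0 : 0 < c := by rw [hc]; positivity
  have ha0 : 0 < a := by rw [ha]; positivity
  obtain ⟨p, q, hpq, hz⟩ : ∃ p q : ℝ, p ^ 2 + q ^ 2 = 1 ∧
      b * (p ^ 2 - q ^ 2) + (c - a) * (p * q) = 0 := by
    let f : ℝ → ℝ := fun t => b * (Real.cos t ^ 2 - Real.sin t ^ 2) +
      (c - a) * (Real.cos t * Real.sin t)
    have hf : Continuous f := by fun_prop
    have f0 : f 0 = b := by simp [f]
    have f1 : f (Real.pi / 2) = -b := by simp [f]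
    have hpi : (0 : ℝ) ≤ Real.pi / 2 := by positivity
    rcases le_total 0 b with h | h
    · have hm : (0 : ℝ) ∈ Set.Icc (f (Real.pi / 2)) (f 0) := by
        rw [f0, f1]
        exact ⟨by linarith, h⟩
      obtain ⟨t, _, ht⟩ := intermediate_value_Icc' hpi hf.continuousOn hm
      exact ⟨Real.cos t, Real.sin t, Real.cos_sq_add_sin_sq t, ht⟩
    · have hm : (0 : ℝ) ∈ Set.Icc (f 0) (f (Real.pi / 2)) := by
        rw [f0, f1]
        exact ⟨h, by linarith⟩
      obtain ⟨t, _, ht⟩ := intermediate_value_Icc hpi hf.continuousOn hm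
      exact ⟨Real.cos t, Real.sin t, Real.cos_sq_add_sin_sq t, ht⟩
  -- the two eigenvalues
  obtain ⟨l, hl⟩ : ∃ l, l = a * p ^ 2 + 2 * b * (p * q) + c * q ^ 2 := ⟨_, rfl⟩
  obtain ⟨m, hm⟩ : ∃ m, m = a * q ^ 2 - 2 * b * (p * q) + c * p ^ 2 := ⟨_, rfl⟩
  have hlm : l * m = 1 := by
    have : l * m = (a * c - b ^ 2) * (p ^ 2 + q ^ 2) ^ 2 +
        (b * (p ^ 2 - q ^ 2) + (c - a) * (p * q)) ^ 2 := by
      rw [hl, hm]
      ring
    rw [this, hpq, hz, hdet]
    norm_num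
  have hlpos : 0 < l := by
    by_contra hcon
    push Not at hcon
    have e1 : l + m = (a + c) * (p ^ 2 + q ^ 2) := by rw [hl, hm]; ring
    rw [hpq, mul_one] at e1
    have : m ≤ 0 := by
      by_contra h
      push Not at h
      nlinarith
    linarith
  have key : ∀ r : Vec, a * r 0 ^ 2 + 2 * b * (r 0 * r 1) + c * r 1 ^ 2 =
      l * (p * r 0 + q * r 1) ^ 2 + m * (p * r 1 - q * r 0) ^ 2 := by
    intro r
    obtain ⟨s, hs⟩ : ∃ s, s = p * r 0 + q * r 1 := ⟨_, rfl⟩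
    obtain ⟨t, ht⟩ : ∃ t, t = p * r 1 - q * r 0 := ⟨_, rfl⟩
    have e1 : r 0 = s * p - t * q := by
      have : r 0 = (p ^ 2 + q ^ 2) * r 0 := by rw [hpq, one_mul]
      rw [hs, ht]
      linear_combination this
    have e2 : r 1 = s * q + t * p := by
      have : r 1 = (p ^ 2 + q ^ 2) * r 1 := by rw [hpq, one_mul]
      rw [hs, ht]
      linear_combination this
    rw [← hs, ← ht, e1, e2, hl, hm]
    linear_combination (2 * s * t) * hz
  have hminv : m = l⁻¹ := by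
    field_simp
    linarith
  have hlinv : l = m⁻¹ := by
    rw [hminv, inv_inv]
  by_cases h1 : 1 ≤ l
  · refine ⟨![p, q], l, h1, ?_, ?_⟩
    · simp only [nq, ip, Matrix.cons_val_zero, Matrix.cons_val_one]
      linarith
    · intro r
      rw [hq, key, ← hminv]
      simp only [ip, cr, Matrix.cons_val_zero, Matrix.cons_val_one]
  · push Not at h1
    refine ⟨![-q, p], m, ?_, ?_, ?_⟩
    · rw [hminv]
      exact (one_le_inv₀ hlpos).mpr h1.le
    · simp only [nq, ip, Matrix.cons_val_zero, Matrix.cons_val_one]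
      linarith
    · intro r
      rw [hq, key, ← hlinv]
      simp only [ip, cr, Matrix.cons_val_zero, Matrix.cons_val_one]
      ring

end Pool.Veech.N1x

namespace Pool.Veech

/-- `A` makes all vectors strictly between `u` and `v` shorter; it makes `u` shorter or `u` is
fixed by `A ≠ 1`, and the same for `v`. -/
def ArcOK (A : SL(2, ℝ)) (u v : Vec) : Prop :=
  0 < cr u v ∧ 0 < ip u v - ip (A.1.mulVec u) (A.1.mulVec v) ∧
    (0 < nq u - nq (A.1.mulVec u) ∨ (A.1.mulVec u = u ∧ A ≠ 1)) ∧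
    (0 < nq v - nq (A.1.mulVec v) ∨ (A.1.mulVec v = v ∧ A ≠ 1))

namespace N1x

theorem nq_comb (s t : ℝ) (p q : Vec) :
    nq (s • p + t • q) = s ^ 2 * nq p + 2 * (s * t) * ip p q + t ^ 2 * nq q := by
  simp only [nq, ip, Pi.add_apply, Pi.smul_apply, smul_eq_mul]
  ring

theorem nq_comb' (A : Matrix (Fin 2) (Fin 2) ℝ) (s t : ℝ) (p q : Vec) :
    nq (A.mulVec (s • p + t • q)) = s ^ 2 * nq (A.mulVec p) +
      2 * (s * t) * ip (A.mulVec p) (A.mulVec q) + t ^ 2 * nq (A.mulVec q) := by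
  rw [Matrix.mulVec_add, Matrix.mulVec_smul, Matrix.mulVec_smul, nq_comb]

theorem nq_pos {p : Vec} (hp : p ≠ 0) : 0 < nq p := by
  have h : nq p = p 0 ^ 2 + p 1 ^ 2 := by simp only [nq, ip]; ring
  rw [h]
  by_contra hcon
  have h0 : p 0 = 0 := by nlinarith [sq_nonneg (p 0), sq_nonneg (p 1)]
  have h1 : p 1 = 0 := by nlinarith [sq_nonneg (p 0), sq_nonneg (p 1)]
  exact hp (by funext i; fin_cases i <;> simp [h0, h1])

theorem nq_neg (p : Vec) : nq (-p) = nq p := by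
  simp only [nq, ip, Pi.neg_apply]
  ring

theorem ne_of_cr {p q : Vec} (h : 0 < cr p q) : p ≠ 0 ∧ q ≠ 0 := by
  constructor
  · rintro rfl
    simp [cr] at h
  · rintro rfl
    simp [cr] at h

/-- one half of the arc lemma -/
theorem half {a b c P K l s t X : ℝ} (hP : 0 < P) (hb : 0 < b) (ha : 0 ≤ a) (hc : 0 ≤ c)
    (hs : 0 ≤ s) (ht : 0 ≤ t) (hl : 0 < l)
    (h : s ^ 2 * a + 2 * (s * t) * b + t ^ 2 * c ≤ K / l) (hsP : 1 / 4 ≤ s ^ 2 * P) :
    (t * X) ^ 2 ≤ (K ^ 2 * P * X ^ 2 / b ^ 2) / l ^ 2 := by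
  have h1 : 2 * (s * t) * b ≤ K / l := by
    have := mul_nonneg (sq_nonneg s) ha
    have := mul_nonneg (sq_nonneg t) hc
    linarith
  have h0 : 0 ≤ 2 * (s * t) * b := by positivity
  have h2 : (2 * (s * t) * b) ^ 2 ≤ (K / l) ^ 2 := pow_le_pow_left₀ h0 h1 2
  have h3 : t ^ 2 * b ^ 2 ≤ (K / l) ^ 2 * P := by
    have e : (2 * (s * t) * b) ^ 2 * P = 4 * (s ^ 2 * P) * (t ^ 2 * b ^ 2) := by ring
    have h5 : (2 * (s * t) * b) ^ 2 * P ≤ (K / l) ^ 2 * P := mul_le_mul_of_nonneg_right h2 hP.le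
    have h6 : 0 ≤ t ^ 2 * b ^ 2 := by positivity
    nlinarith
  have h4 : t ^ 2 ≤ (K / l) ^ 2 * P / b ^ 2 := by
    rw [le_div_iff₀ (by positivity)]
    exact h3
  calc (t * X) ^ 2 = t ^ 2 * X ^ 2 := by ring
    _ ≤ ((K / l) ^ 2 * P / b ^ 2) * X ^ 2 := mul_le_mul_of_nonneg_right h4 (sq_nonneg X)
    _ = _ := by
      field_simp

theorem arc {A : SL(2, ℝ)} {p q : Vec} (h : ArcOK A p q) (K : ℝ) : ∃ L : ℝ, 0 < L ∧
    ∀ (u : Vec) (s t l : ℝ), nq u = 1 → 0 ≤ s → 0 ≤ t → (u = s • p + t • q ∨ -u = s • p + t • q) →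
      L ≤ l → nq u - nq (A.1.mulVec u) ≤ K / l →
      (A.1.mulVec p = p ∧ A ≠ 1 ∧ cr p u ^ 2 ≤ L / l ^ 2) ∨
      (A.1.mulVec q = q ∧ A ≠ 1 ∧ cr q u ^ 2 ≤ L / l ^ 2) := by
  obtain ⟨hcr, hb, hp, hq⟩ := h
  obtain ⟨hp0, hq0⟩ := ne_of_cr hcr
  have hP := nq_pos hp0
  have hQ := nq_pos hq0
  obtain ⟨a, ha⟩ : ∃ a, a = nq p - nq (A.1.mulVec p) := ⟨_, rfl⟩
  obtain ⟨c, hc⟩ : ∃ c, c = nq q - nq (A.1.mulVec q) := ⟨_, rfl⟩
  obtain ⟨b, hb'⟩ : ∃ b, b = ip p q - ip (A.1.mulVec p) (A.1.mulVec q) := ⟨_, rfl⟩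
  rw [← hb'] at hb
  rw [← ha] at hp
  rw [← hc] at hq
  have ha0 : 0 ≤ a := by
    rcases hp with h | ⟨h, _⟩
    · exact h.le
    · rw [ha, h, sub_self]
  have hc0 : 0 ≤ c := by
    rcases hq with h | ⟨h, _⟩
    · exact h.le
    · rw [hc, h, sub_self]
  -- the constant M
  obtain ⟨M, hM0, hM1, hM2, hM3⟩ : ∃ M : ℝ, 0 < M ∧ |ip p q| ≤ M * b ∧ (0 < a → nq p ≤ M * a) ∧
      (0 < c → nq q ≤ M * c) := by
    refine ⟨|ip p q| / b + nq p / (if 0 < a then a else 1) + nq q / (if 0 < c then c else 1),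
      ?_, ?_, ?_, ?_⟩
    · have h1 : 0 ≤ |ip p q| / b := by positivity
      have h2 : 0 < nq p / (if 0 < a then a else 1) := by split_ifs <;> positivity
      have h3 : 0 < nq q / (if 0 < c then c else 1) := by split_ifs <;> positivity
      positivity
    · have h2 : 0 < nq p / (if 0 < a then a else 1) := by split_ifs <;> positivity
      have h3 : 0 < nq q / (if 0 < c then c else 1) := by split_ifs <;> positivity
      have h4 : |ip p q| / b * b = |ip p q| := by field_simp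
      nlinarith [mul_pos h2 hb, mul_pos h3 hb]
    · intro h
      rw [if_pos h]
      have h1 : 0 ≤ |ip p q| / b := by positivity
      have h3 : 0 < nq q / (if 0 < c then c else 1) := by split_ifs <;> positivity
      have h4 : nq p / a * a = nq p := by field_simp
      nlinarith [mul_pos h3 h, mul_nonneg h1 h.le]
    · intro h
      rw [if_pos h]
      have h1 : 0 ≤ |ip p q| / b := by positivity
      have h3 : 0 < nq p / (if 0 < a then a else 1) := by split_ifs <;> positivity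
      have h4 : nq q / c * c = nq q := by field_simp
      nlinarith [mul_pos h3 h, mul_nonneg h1 h.le]
  obtain ⟨X, hX⟩ : ∃ X, X = cr p q := ⟨_, rfl⟩
  rw [← hX] at hcr
  refine ⟨2 * M * |K| + 1 + K ^ 2 * nq p * X ^ 2 / b ^ 2 + K ^ 2 * nq q * X ^ 2 / b ^ 2,
    by positivity, ?_⟩
  intro u s t l hu hs ht hst hL hK
  have hg1 : 0 ≤ K ^ 2 * nq p * X ^ 2 / b ^ 2 := by positivity
  have hg2 : 0 ≤ K ^ 2 * nq q * X ^ 2 / b ^ 2 := by positivity
  have hg3 : 0 ≤ 2 * M * |K| := by positivity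
  have hl : 0 < l := by linarith
  -- the values at u
  have hn : nq u = s ^ 2 * nq p + 2 * (s * t) * ip p q + t ^ 2 * nq q := by
    rw [← nq_comb]
    rcases hst with h | h
    · rw [h]
    · rw [← h, nq_neg]
  have hn' : nq (A.1.mulVec u) = s ^ 2 * nq (A.1.mulVec p) +
      2 * (s * t) * ip (A.1.mulVec p) (A.1.mulVec q) + t ^ 2 * nq (A.1.mulVec q) := by
    rw [← nq_comb']
    rcases hst with h | h
    · rw [h]
    · rw [← h, Matrix.mulVec_neg, nq_neg]
  have hK' : s ^ 2 * a + 2 * (s * t) * b + t ^ 2 * c ≤ K / l := by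
    have : s ^ 2 * a + 2 * (s * t) * b + t ^ 2 * c = nq u - nq (A.1.mulVec u) := by
      rw [hn, hn', ha, hb', hc]; ring
    rw [this]
    exact hK
  have hst0 : 0 ≤ s * t := mul_nonneg hs ht
  have hMK : M * (K / l) ≤ 1 / 2 := by
    have h1 : K / l ≤ |K| / l := div_le_div_of_nonneg_right (le_abs_self K) hl.le
    have h2 : M * (|K| / l) ≤ 1 / 2 := by
      rw [← mul_div_assoc, div_le_iff₀ hl]
      linarith
    have := mul_le_mul_of_nonneg_left h1 hM0.le
    linarith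
  have hcrp : cr p u ^ 2 = (t * X) ^ 2 := by
    rcases hst with h | h
    · rw [h, hX]
      simp only [cr, Pi.add_apply, Pi.smul_apply, smul_eq_mul]
      ring
    · have : u = -(s • p + t • q) := by rw [← h, neg_neg]
      rw [this, hX]
      simp only [cr, Pi.add_apply, Pi.smul_apply, smul_eq_mul, Pi.neg_apply]
      ring
  have hcrq : cr q u ^ 2 = (s * X) ^ 2 := by
    rcases hst with h | h
    · rw [h, hX]
      simp only [cr, Pi.add_apply, Pi.smul_apply, smul_eq_mul]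
      ring
    · have : u = -(s • p + t • q) := by rw [← h, neg_neg]
      rw [this, hX]
      simp only [cr, Pi.add_apply, Pi.smul_apply, smul_eq_mul, Pi.neg_apply]
      ring
  -- bounds
  have hR : 2 * (s * t) * ip p q ≤ M * (2 * (s * t) * b) := by
    calc 2 * (s * t) * ip p q ≤ 2 * (s * t) * (M * b) :=
          mul_le_mul_of_nonneg_left ((le_abs_self (ip p q)).trans hM1) (by positivity)
      _ = M * (2 * (s * t) * b) := by ring
  have hA : s ^ 2 * a ≥ 0 := by positivity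
  have hC : t ^ 2 * c ≥ 0 := by positivity
  have hB : 2 * (s * t) * b ≥ 0 := by positivity
  have hsum : M * (s ^ 2 * a) + M * (2 * (s * t) * b) + M * (t ^ 2 * c) ≤ 1 / 2 := by
    have := mul_le_mul_of_nonneg_left hK' hM0.le
    have e : M * (s ^ 2 * a + 2 * (s * t) * b + t ^ 2 * c) =
      M * (s ^ 2 * a) + M * (2 * (s * t) * b) + M * (t ^ 2 * c) := by ring
    rw [e] at this
    exact this.trans hMK
  have hMA : 0 ≤ M * (s ^ 2 * a) := by positivity
  have hMC : 0 ≤ M * (t ^ 2 * c) := by positivity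
  have hL2 : (K ^ 2 * nq p * X ^ 2 / b ^ 2) / l ^ 2 ≤ (2 * M * |K| + 1 +
      K ^ 2 * nq p * X ^ 2 / b ^ 2 + K ^ 2 * nq q * X ^ 2 / b ^ 2) / l ^ 2 :=
    div_le_div_of_nonneg_right (by linarith) (by positivity)
  have hL3 : (K ^ 2 * nq q * X ^ 2 / b ^ 2) / l ^ 2 ≤ (2 * M * |K| + 1 +
      K ^ 2 * nq p * X ^ 2 / b ^ 2 + K ^ 2 * nq q * X ^ 2 / b ^ 2) / l ^ 2 :=
    div_le_div_of_nonneg_right (by linarith) (by positivity)
  have hKt : t ^ 2 * c + 2 * (t * s) * b + s ^ 2 * a ≤ K / l := by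
    have : t ^ 2 * c + 2 * (t * s) * b + s ^ 2 * a = s ^ 2 * a + 2 * (s * t) * b + t ^ 2 * c := by
      ring
    rw [this]; exact hK'
  rcases hp with hp | ⟨hp, hA1⟩
  · have h1 : s ^ 2 * nq p ≤ M * (s ^ 2 * a) := by
      calc s ^ 2 * nq p ≤ s ^ 2 * (M * a) := mul_le_mul_of_nonneg_left (hM2 hp) (sq_nonneg s)
        _ = M * (s ^ 2 * a) := by ring
    rcases hq with hq | ⟨hq, hA1⟩
    · have h2 : t ^ 2 * nq q ≤ M * (t ^ 2 * c) := by
        calc t ^ 2 * nq q ≤ t ^ 2 * (M * c) := mul_le_mul_of_nonneg_left (hM3 hq) (sq_nonneg t)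
          _ = M * (t ^ 2 * c) := by ring
      exfalso
      linarith
    · refine Or.inr ⟨hq, hA1, ?_⟩
      rw [hcrq]
      exact (half hQ hb hc0 ha0 ht hs hl hKt (by linarith)).trans hL3
  · rcases hq with hq | ⟨hq, _⟩
    · have h2 : t ^ 2 * nq q ≤ M * (t ^ 2 * c) := by
        calc t ^ 2 * nq q ≤ t ^ 2 * (M * c) := mul_le_mul_of_nonneg_left (hM3 hq) (sq_nonneg t)
          _ = M * (t ^ 2 * c) := by ring
      refine Or.inl ⟨hp, hA1, ?_⟩
      rw [hcrp]
      exact (half hP hb ha0 hc0 hs ht hl hK' (by linarith)).trans hL2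
    · by_cases h4 : 1 / 4 ≤ s ^ 2 * nq p
      · refine Or.inl ⟨hp, hA1, ?_⟩
        rw [hcrp]
        exact (half hP hb ha0 hc0 hs ht hl hK' h4).trans hL2
      · push Not at h4
        refine Or.inr ⟨hq, hA1, ?_⟩
        rw [hcrq]
        exact (half hQ hb hc0 ha0 ht hs hl hKt (by linarith)).trans hL3

/-- the sector -/
theorem sector {k : ℕ} {u : ℕ → Vec} (hk : 0 < k) (hu : u k = -u 0)
    (hc : ∀ j < k, 0 < cr (u j) (u (j + 1))) (v : Vec) : ∃ j < k, ∃ s t : ℝ, 0 ≤ s ∧ 0 ≤ t ∧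
      (v = s • u j + t • u (j + 1) ∨ -v = s • u j + t • u (j + 1)) := by
  have main : ∀ v : Vec, 0 ≤ cr (u 0) v → ∃ j < k, ∃ s t : ℝ, 0 ≤ s ∧ 0 ≤ t ∧
      v = s • u j + t • u (j + 1) := by
    intro v hv
    have hex : ∃ i, 0 < i ∧ cr (u i) v ≤ 0 := by
      refine ⟨k, hk, ?_⟩
      rw [hu]
      have : cr (-u 0) v = -cr (u 0) v := by simp only [cr, Pi.neg_apply]; ring
      rw [this]
      linarith
    classical
    obtain ⟨hi0, hi⟩ := Nat.find_spec hex
    have hik : Nat.find hex ≤ k := by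
      apply Nat.find_min' hex
      refine ⟨hk, ?_⟩
      rw [hu]
      have : cr (-u 0) v = -cr (u 0) v := by simp only [cr, Pi.neg_apply]; ring
      rw [this]
      linarith
    obtain ⟨j, hj⟩ : ∃ j, Nat.find hex = j + 1 := ⟨Nat.find hex - 1, by omega⟩
    rw [hj] at hi
    have hjk : j < k := by omega
    have hj0 : 0 ≤ cr (u j) v := by
      rcases Nat.eq_zero_or_pos j with h | h
      · rw [h]; exact hv
      · have := Nat.find_min hex (m := j) (by omega)
        push Not at this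
        exact (this h).le
    have hcj := hc j hjk
    refine ⟨j, hjk, -cr (u (j + 1)) v / cr (u j) (u (j + 1)), cr (u j) v / cr (u j) (u (j + 1)),
      div_nonneg (by linarith) hcj.le, div_nonneg hj0 hcj.le, ?_⟩
    have hne : cr (u j) (u (j + 1)) ≠ 0 := hcj.ne'
    funext i
    simp only [Pi.add_apply, Pi.smul_apply, smul_eq_mul]
    rw [div_mul_eq_mul_div, div_mul_eq_mul_div, ← add_div, eq_div_iff hne]
    simp only [cr]
    fin_cases i
    · simp only [Fin.zero_eta]; ring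
    · simp only [Fin.mk_one]; ring
  rcases le_total 0 (cr (u 0) v) with h | h
  · obtain ⟨j, hj, s, t, hs, ht, e⟩ := main v h
    exact ⟨j, hj, s, t, hs, ht, Or.inl e⟩
  · have h' : 0 ≤ cr (u 0) (-v) := by
      have : cr (u 0) (-v) = -cr (u 0) v := by simp only [cr, Pi.neg_apply]; ring
      rw [this]; linarith
    obtain ⟨j, hj, s, t, hs, ht, e⟩ := main (-v) h'
    exact ⟨j, hj, s, t, hs, ht, Or.inr e⟩

end N1x

end Pool.Veech

namespace Pool.Veech
namespace N1x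

/-- `g` moves `p` to `(1, 0)` -/
noncomputable def rot (p : Vec) (hp : p ≠ 0) : SL(2, ℝ) :=
  ⟨!![p 0 / nq p, p 1 / nq p; -p 1, p 0], by
    have h := (nq_pos hp).ne'
    rw [Matrix.det_fin_two_of]
    field_simp
    simp only [nq, ip]
    ring⟩

theorem vol_pre (R : SL(2, ℝ)) (s : Set ℍ) : volume ((fun τ : ℍ => R • τ) ⁻¹' s) = volume s :=
  measure_preimage_smul (μ := (volume : Measure ℍ)) (Matrix.SpecialLinearGroup.mapGL ℝ R) s

theorem meas_pre (R : SL(2, ℝ)) {s : Set ℍ} (hs : MeasurableSet s) :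
    MeasurableSet ((fun τ : ℍ => R • τ) ⁻¹' s) := by
  have : Measurable (fun τ : ℍ => Matrix.SpecialLinearGroup.mapGL ℝ R • τ) :=
    measurable_const_smul (Matrix.SpecialLinearGroup.mapGL ℝ R)
  exact this hs

/-- unipotent -/
def tr (t : ℝ) : SL(2, ℝ) := ⟨!![1, t; 0, 1], by simp [Matrix.det_fin_two_of]⟩

theorem tr_re (t : ℝ) (τ : ℍ) : (tr t • τ).re = τ.re + t ∧ (tr t • τ).im = τ.im := by
  have h := smul_coe (tr t) τ
  have h1 : ((tr t • τ : ℍ) : ℂ) = (τ : ℂ) + t := by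
    rw [h]
    simp [row, tr]
  constructor
  · rw [← UpperHalfPlane.coe_re, h1]
    simp
  · rw [← UpperHalfPlane.coe_im, h1]
    simp

theorem conj_fix {p : Vec} (hp : p ≠ 0) {P : SL(2, ℝ)} (hP : P.1.mulVec p = p) :
    ∃ t : ℝ, rot p hp * P = tr t * rot p hp := by
  have hn := (nq_pos hp).ne'
  -- Q := R P R⁻¹ fixes e1
  obtain ⟨Q, hQ⟩ : ∃ Q, Q = rot p hp * P * (rot p hp)⁻¹ := ⟨_, rfl⟩
  have hRp : (rot p hp).1.mulVec p = ![1, 0] := by
    funext i
    fin_cases i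
    · simp only [rot, Matrix.mulVec, dotProduct, Fin.sum_univ_two]
      simp only [Fin.zero_eta, Matrix.of_apply, Matrix.cons_val', Matrix.cons_val_zero,
        Matrix.cons_val_fin_one, Matrix.cons_val_one]
      field_simp
      simp only [nq, ip]
      ring
    · simp only [rot, Matrix.mulVec, dotProduct, Fin.sum_univ_two]
      simp
      ring
  have hQR : Q * rot p hp = rot p hp * P := by rw [hQ]; group
  have hfix : Q.1.mulVec ![1, 0] = ![1, 0] := by
    rw [← hRp, Matrix.mulVec_mulVec, ← Matrix.SpecialLinearGroup.coe_mul, hQR,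
      Matrix.SpecialLinearGroup.coe_mul, ← Matrix.mulVec_mulVec, hP]
  have h00 : Q.1 0 0 = 1 := by
    have := congrFun hfix 0
    simpa [Matrix.mulVec, dotProduct, Fin.sum_univ_two] using this
  have h10 : Q.1 1 0 = 0 := by
    have := congrFun hfix 1
    simpa [Matrix.mulVec, dotProduct, Fin.sum_univ_two] using this
  have h11 : Q.1 1 1 = 1 := by
    have := Q.2
    rw [Matrix.det_fin_two, h00, h10] at this
    linarith
  refine ⟨Q.1 0 1, ?_⟩
  rw [← hQR]
  congr 1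
  ext i j
  fin_cases i <;> fin_cases j <;> simp [tr, h00, h10, h11]

theorem tr_zpow (t : ℝ) (n : ℤ) : (tr t) ^ n = tr (n * t) := by
  have hadd : ∀ a b : ℝ, tr a * tr b = tr (a + b) := by
    intro a b
    apply Subtype.ext
    rw [Matrix.SpecialLinearGroup.coe_mul]
    change !![1, a; 0, 1] * !![1, b; 0, 1] = !![1, a + b; 0, 1]
    rw [Matrix.mul_fin_two]
    simp [add_comm]
  have h0 : tr 0 = 1 := by
    ext i j
    fin_cases i <;> fin_cases j <;> simp [tr]
  have hinv : ∀ a : ℝ, (tr a)⁻¹ = tr (-a) := by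
    intro a
    rw [inv_eq_iff_mul_eq_one, hadd, add_neg_cancel, h0]
  have hnat : ∀ m : ℕ, (tr t) ^ m = tr (m * t) := by
    intro m
    induction m with
    | zero => simp [h0]
    | succ m ih =>
      rw [pow_succ, ih, hadd]
      congr 1
      push_cast
      ring
  obtain ⟨m, rfl | rfl⟩ := n.eq_nat_or_neg
  · rw [zpow_natCast, hnat]
    simp
  · rw [zpow_neg, zpow_natCast, hnat, hinv]
    congr 1
    push_cast
    ring

theorem cusp {Γ : Subgroup SL(2, ℝ)} {p : Vec} (hp : p ≠ 0) {P : SL(2, ℝ)} (hPΓ : P ∈ Γ)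
    (hP1 : P ≠ 1) (hP : P.1.mulVec p = p) (L : ℝ) : ∃ F : Set ℍ, MeasurableSet F ∧ volume F < ⊤ ∧
      ∀ (τ : ℍ) (u : Vec) (l : ℝ), 1 ≤ l → nq u = 1 →
        (∀ r : Vec, qf τ r = l * ip u r ^ 2 + l⁻¹ * cr u r ^ 2) → cr p u ^ 2 ≤ L / l ^ 2 →
        L + nq p ≤ l → ∃ A ∈ Γ, A • τ ∈ F := by
  obtain ⟨t, ht⟩ := conj_fix hp hP
  have ht0 : t ≠ 0 := by
    rintro rfl
    have h0 : tr 0 = 1 := by
      ext i j
      fin_cases i <;> fin_cases j <;> simp [tr]
    rw [h0, one_mul] at ht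
    exact hP1 (mul_eq_left.mp ht)
  refine ⟨(fun τ : ℍ => rot p hp • τ) ⁻¹' box |t| 1, meas_pre _ (box_meas _ _), ?_, ?_⟩
  · rw [vol_pre]
    exact box_vol _ one_pos
  · intro τ u l hl hu hq hcr hL
    have hl0 : 0 < l := by linarith
    -- the height
    have him : 1 ≤ (rot p hp • τ).im := by
      rw [im_smul, hq]
      have e1 : ip u (row (rot p hp) 1) = cr p u := by
        simp only [ip, row, rot, cr]
        simp
        ring
      have e2 : cr u (row (rot p hp) 1) = ip u p := by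
        simp only [ip, row, rot, cr]
        simp
      rw [e1, e2]
      have h1 : l * cr p u ^ 2 ≤ L / l := by
        calc l * cr p u ^ 2 ≤ l * (L / l ^ 2) := mul_le_mul_of_nonneg_left hcr hl0.le
          _ = L / l := by field_simp
      have h2 : l⁻¹ * ip u p ^ 2 ≤ nq p / l := by
        have : ip u p ^ 2 ≤ nq u * nq p := by
          have : nq u * nq p - ip u p ^ 2 = cr u p ^ 2 := by
            simp only [nq, ip, cr]; ring
          have h := sq_nonneg (cr u p)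
          linarith
        rw [hu, one_mul] at this
        rw [inv_mul_eq_div]
        exact div_le_div_of_nonneg_right this hl0.le
      have h3 : l * cr p u ^ 2 + l⁻¹ * ip u p ^ 2 ≤ 1 := by
        have : L / l + nq p / l ≤ 1 := by
          rw [← add_div, div_le_one hl0]
          exact hL
        linarith
      have h4 : 0 < l * cr p u ^ 2 + l⁻¹ * ip u p ^ 2 := by
        have h5 := hq (row (rot p hp) 1)
        rw [e1, e2] at h5
        rw [← h5, qf_eq_normSq]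
        exact div_pos (Complex.normSq_pos.mpr (den_ne _ _)) τ.im_pos
      rw [le_div_iff₀ h4]
      linarith
    obtain ⟨x, hx⟩ : ∃ x, x = (rot p hp • τ).re := ⟨_, rfl⟩
    -- the power
    obtain ⟨n, hn⟩ : ∃ n : ℤ, |x + n * t| ≤ |t| := by
      refine ⟨-round (x / t), ?_⟩
      have h1 := abs_sub_round (x / t)
      have h2 : x + ((-round (x / t) : ℤ) : ℝ) * t = (x / t - round (x / t)) * t := by
        push_cast
        field_simp
        ring
      rw [h2, abs_mul]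
      have := abs_nonneg t
      nlinarith
    refine ⟨P ^ n, Γ.zpow_mem hPΓ n, ?_⟩
    change rot p hp • (P ^ n • τ) ∈ box |t| 1
    have e : rot p hp * P ^ n = tr (n * t) * rot p hp := by
      have h1 : P = (rot p hp)⁻¹ * tr t * rot p hp := by
        rw [mul_assoc, ← ht]; group
      have h2 : P ^ n = (rot p hp)⁻¹ * (tr t) ^ n * rot p hp := by
        rw [h1]
        have := conj_zpow (i := n) (a := (rot p hp)⁻¹) (b := tr t)
        rw [inv_inv] at this
        exact this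
      rw [h2, tr_zpow]
      group
    rw [← mul_smul, e, mul_smul]
    obtain ⟨h1, h2⟩ := tr_re (n * t) (rot p hp • τ)
    refine ⟨?_, ?_⟩
    · rw [h1, ← hx]
      exact hn
    · rw [h2]
      exact him

/-- the norm -/
noncomputable def nf (τ : ℍ) : ℝ := (τ.re ^ 2 + τ.im ^ 2 + 1) / τ.im

theorem nf_nonneg (τ : ℍ) : 0 ≤ nf τ := div_nonneg (by positivity) τ.im_pos.le

theorem nf_box {τ : ℍ} {C : ℝ} (hC : 0 < C) (h : nf τ ≤ C) : τ ∈ box C (1 / C) := by
  have hy := τ.im_pos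
  rw [nf, div_le_iff₀ hy] at h
  have h1 : τ.im ≤ C := by
    by_contra hcon
    push Not at hcon
    nlinarith [sq_nonneg τ.re]
  refine ⟨?_, ?_⟩
  · apply abs_le_of_sq_le_sq _ hC.le
    nlinarith [sq_nonneg τ.re, sq_nonneg τ.im]
  · rw [div_le_iff₀ hC]
    nlinarith [sq_nonneg τ.re, sq_nonneg τ.im]

theorem near_min (Γ : Subgroup SL(2, ℝ)) (τ : ℍ) :
    ∃ A ∈ Γ, ∀ B ∈ Γ, nf (A • τ) ≤ nf (B • τ) + 1 := by
  obtain ⟨s, hs⟩ : ∃ s, s = {x | ∃ B ∈ Γ, x = nf (B • τ)} := ⟨_, rfl⟩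
  have hne : s.Nonempty := ⟨nf ((1 : SL(2, ℝ)) • τ), by rw [hs]; exact ⟨1, Γ.one_mem, rfl⟩⟩
  have hb : BddBelow s := ⟨0, by
    rw [hs]
    rintro _ ⟨B, _, rfl⟩
    exact nf_nonneg _⟩
  obtain ⟨x, hx, hlt⟩ := exists_lt_of_csInf_lt hne (show sInf s < sInf s + 1 by linarith)
  rw [hs] at hx
  obtain ⟨A, hA, rfl⟩ := hx
  refine ⟨A, hA, fun B hB => ?_⟩
  have : sInf s ≤ nf (B • τ) := csInf_le hb (by rw [hs]; exact ⟨B, hB, rfl⟩)
  linarith

/-- square sum of the entries -/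
def fr (A : SL(2, ℝ)) : ℝ := nq (row A 0) + nq (row A 1)

theorem nf_eig {τ : ℍ} {u : Vec} {l : ℝ} (hl : 1 ≤ l) (hu : nq u = 1)
    (hq : ∀ r : Vec, qf τ r = l * ip u r ^ 2 + l⁻¹ * cr u r ^ 2) (A : SL(2, ℝ)) :
    nf (A • τ) ≤ l * nq (A.1.mulVec u) + fr A := by
  rw [nf, nf_smul, hq, hq]
  have e : nq (A.1.mulVec u) = ip u (row A 0) ^ 2 + ip u (row A 1) ^ 2 := by
    simp only [nq, ip, row, Matrix.mulVec, dotProduct, Fin.sum_univ_two]
    ring
  have h1 : ∀ r : Vec, l⁻¹ * cr u r ^ 2 ≤ nq r := by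
    intro r
    have h2 : cr u r ^ 2 ≤ nq r := by
      have : nq u * nq r - cr u r ^ 2 = ip u r ^ 2 := by simp only [nq, ip, cr]; ring
      rw [hu, one_mul] at this
      have := sq_nonneg (ip u r)
      linarith
    have h3 : l⁻¹ ≤ 1 := inv_le_one_of_one_le₀ hl
    have h4 : l⁻¹ * cr u r ^ 2 ≤ 1 * cr u r ^ 2 := mul_le_mul_of_nonneg_right h3 (sq_nonneg _)
    linarith
  have h2 := h1 (row A 0)
  have h3 := h1 (row A 1)
  rw [e, fr]
  linarith

theorem nf_self {τ : ℍ} {u : Vec} {l : ℝ} (hu : nq u = 1)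
    (hq : ∀ r : Vec, qf τ r = l * ip u r ^ 2 + l⁻¹ * cr u r ^ 2) :
    nf τ = l + l⁻¹ := by
  have h := nf_smul 1 τ
  rw [one_smul, hq, hq] at h
  rw [nf, h]
  have e0 : row (1 : SL(2, ℝ)) 0 = ![1, 0] := by
    funext i; fin_cases i <;> simp [row]
  have e1 : row (1 : SL(2, ℝ)) 1 = ![0, 1] := by
    funext i; fin_cases i <;> simp [row]
  rw [e0, e1]
  simp only [nq, ip, cr, Matrix.cons_val_zero, Matrix.cons_val_one] at hu ⊢
  linear_combination (l + l⁻¹) * hu

end N1x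

/-- A certificate: directions `u 0, ..., u k = - u 0` in counterclockwise order. -/
def Cert (Γ : Subgroup SL(2, ℝ)) : Prop :=
  ∃ (k : ℕ) (u : ℕ → Vec) (A : ℕ → SL(2, ℝ)), 0 < k ∧ u k = -u 0 ∧ ∀ j < k, A j ∈ Γ ∧
    ArcOK (A j) (u j) (u (j + 1))

/-- N1. Proof. For `τ` in `ℍ` let `g τ` in `SL2` be upper triangular with `g τ • i = τ`, and
`N τ = ‖g τ‖²` (sum of the squares of the entries; `= (x² + y² + 1) / y`). For each `τ` there is `A` in
`Γ` with `N (A τ) ≤ N (B τ) + 1` for all `B` in `Γ`; put `τ' = A τ`. If `N τ'` is large, then the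
singular direction `u` of `g τ'` is in the sector of some `±(u j), ±(u (j+1))`, and
`N (A j τ') ≥ N τ' - 1` gives `nq u - nq (A j u) ≤ C / N τ'` (with `nq u = 1`); so `u` is close to one
of the `u j` which are fixed by a parabolic `P = A j` or `A (j-1)`, at distance at most `C / N τ'`; so the height of
`τ'` with respect to this cusp is at least `1`; apply a power of `P`. So the union of
`{N ≤ C₀}` and of the sets `R_j⁻¹ {|x| ≤ p_j, y ≥ 1}` meets all orbits; it has finite volume. -/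
theorem Cert.covolume {Γ : Subgroup SL(2, ℝ)} (h : Cert Γ) :
    ∃ F : Set ℍ, MeasurableSet F ∧ volume F < ⊤ ∧ ∀ τ : ℍ, ∃ A ∈ Γ, A • τ ∈ F := by
  classical
  obtain ⟨k, u, A, hk, huk, hA⟩ := h
  have hc : ∀ j < k, 0 < cr (u j) (u (j + 1)) := fun j hj => (hA j hj).2.1
  -- the constants of the arcs
  have harc : ∀ j, ∃ L : ℝ, 0 < L ∧ (j < k → ∀ (v : Vec) (s t l : ℝ), nq v = 1 → 0 ≤ s → 0 ≤ t →
      (v = s • u j + t • u (j + 1) ∨ -v = s • u j + t • u (j + 1)) →
      L ≤ l → nq v - nq ((A j).1.mulVec v) ≤ (N1x.fr (A j) + 1) / l →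
      ((A j).1.mulVec (u j) = u j ∧ A j ≠ 1 ∧ cr (u j) v ^ 2 ≤ L / l ^ 2) ∨
      ((A j).1.mulVec (u (j + 1)) = u (j + 1) ∧ A j ≠ 1 ∧ cr (u (j + 1)) v ^ 2 ≤ L / l ^ 2)) := by
    intro j
    by_cases hj : j < k
    · obtain ⟨L, hL, h⟩ := N1x.arc (hA j hj).2 (N1x.fr (A j) + 1)
      exact ⟨L, hL, fun _ => h⟩
    · exact ⟨1, one_pos, fun h => absurd h hj⟩
  choose L hL0 hL using harc
  -- the cusps
  have hcusp : ∀ (j i : ℕ), ∃ F : Set ℍ, MeasurableSet F ∧ volume F < ⊤ ∧ (j < k →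
      (A j).1.mulVec (u i) = u i → A j ≠ 1 → u i ≠ 0 →
      ∀ (τ : ℍ) (v : Vec) (l : ℝ), 1 ≤ l → nq v = 1 →
        (∀ r : Vec, N1x.qf τ r = l * ip v r ^ 2 + l⁻¹ * cr v r ^ 2) →
        cr (u i) v ^ 2 ≤ L j / l ^ 2 →
        L j + nq (u i) ≤ l → ∃ B ∈ Γ, B • τ ∈ F) := by
    intro j i
    by_cases h : j < k ∧ (A j).1.mulVec (u i) = u i ∧ A j ≠ 1 ∧ u i ≠ 0
    · obtain ⟨h1, h2, h3, h4⟩ := h
      obtain ⟨F, hF, hv, hF'⟩ := N1x.cusp h4 (hA j h1).1 h3 h2 (L j)
      exact ⟨F, hF, hv, fun _ _ _ _ => hF'⟩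
    · exact ⟨∅, MeasurableSet.empty, by simp, fun h1 h2 h3 h4 => absurd ⟨h1, h2, h3, h4⟩ h⟩
  choose F hFm hFv hF using hcusp
  obtain ⟨C, hC⟩ : ∃ C, C = 1 + ∑ j ∈ Finset.range k, (L j + nq (u j) + nq (u (j + 1))) := ⟨_, rfl⟩
  have hnn : ∀ p : Vec, 0 ≤ nq p := fun p => by
    have : nq p = p 0 ^ 2 + p 1 ^ 2 := by simp only [nq, ip]; ring
    rw [this]; positivity
  have hterm : ∀ j, 0 ≤ L j + nq (u j) + nq (u (j + 1)) := fun j => by
    have h1 := hL0 j
    have h2 := hnn (u j)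
    have h3 := hnn (u (j + 1))
    linarith
  have hCj : ∀ j < k, 1 + (L j + nq (u j) + nq (u (j + 1))) ≤ C := by
    intro j hj
    rw [hC]
    have := Finset.single_le_sum (f := fun j => L j + nq (u j) + nq (u (j + 1)))
      (fun i _ => hterm i) (Finset.mem_range.mpr hj)
    linarith
  have hC1 : 1 ≤ C := by
    rw [hC]
    have := Finset.sum_nonneg (s := Finset.range k) (fun i _ => hterm i)
    linarith
  refine ⟨N1x.box (C + 1) (1 / (C + 1)) ∪ ⋃ j ∈ Finset.range k, (F j j ∪ F j (j + 1)), ?_, ?_, ?_⟩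
  · refine (N1x.box_meas _ _).union (Finset.measurableSet_biUnion _ fun j _ => ?_)
    exact (hFm j j).union (hFm j (j + 1))
  · refine (measure_union_le _ _).trans_lt (ENNReal.add_lt_top.mpr ⟨?_, ?_⟩)
    · exact N1x.box_vol _ (by positivity)
    · refine (measure_biUnion_finset_le _ _).trans_lt (ENNReal.sum_lt_top.mpr fun j _ => ?_)
      exact (measure_union_le _ _).trans_lt (ENNReal.add_lt_top.mpr ⟨hFv j j, hFv j (j + 1)⟩)
  · intro τ
    obtain ⟨B, hB, hmin⟩ := N1x.near_min Γ τ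
    obtain ⟨v, l, hl, hv, hq⟩ := N1x.exists_eig (B • τ)
    by_cases hlC : l ≤ C
    · refine ⟨B, hB, Or.inl (N1x.nf_box (by positivity) ?_)⟩
      rw [N1x.nf_self hv hq]
      have : l⁻¹ ≤ 1 := inv_le_one_of_one_le₀ hl
      linarith
    · push Not at hlC
      obtain ⟨j, hj, s, t, hs, ht, hst⟩ := N1x.sector hk huk hc v
      have hl0 : 0 < l := by linarith
      have hCj' := hCj j hj
      have n1 := hnn (u j)
      have n2 := hnn (u (j + 1))
      have hLj := hL0 j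
      have hkey : nq v - nq ((A j).1.mulVec v) ≤ (N1x.fr (A j) + 1) / l := by
        rw [le_div_iff₀ hl0, hv]
        have h1 := hmin (A j * B) (Γ.mul_mem (hA j hj).1 hB)
        rw [mul_smul] at h1
        have h2 := N1x.nf_eig hl hv hq (A j)
        have h3 := N1x.nf_self hv hq
        have h4 : 0 < l⁻¹ := by positivity
        nlinarith
      have hmem : ∀ i, (i = j ∨ i = j + 1) → ∀ τ : ℍ, τ ∈ F j i →
          τ ∈ N1x.box (C + 1) (1 / (C + 1)) ∪ ⋃ j ∈ Finset.range k, (F j j ∪ F j (j + 1)) := by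
        rintro i (rfl | rfl) τ hτ
        · exact Or.inr (Set.mem_biUnion (Finset.mem_coe.mpr (Finset.mem_range.mpr hj))
            (Or.inl hτ))
        · exact Or.inr (Set.mem_biUnion (Finset.mem_coe.mpr (Finset.mem_range.mpr hj))
            (Or.inr hτ))
      obtain ⟨hne1, hne2⟩ := N1x.ne_of_cr (hc j hj)
      rcases hL j hj v s t l hv hs ht hst (by linarith) hkey with ⟨h1, h2, h3⟩ | ⟨h1, h2, h3⟩
      · obtain ⟨B', hB', hin⟩ := hF j j hj h1 h2 hne1 (B • τ) v l hl hv hq h3 (by linarith)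
        refine ⟨B' * B, Γ.mul_mem hB' hB, hmem j (Or.inl rfl) _ ?_⟩
        rw [mul_smul]
        exact hin
      · obtain ⟨B', hB', hin⟩ := hF j (j + 1) hj h1 h2 hne2 (B • τ) v l hl hv hq h3 (by linarith)
        refine ⟨B' * B, Γ.mul_mem hB' hB, hmem (j + 1) (Or.inr rfl) _ ?_⟩
        rw [mul_smul]
        exact hin

end Pool.Veech
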