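import Pool.Agent.Lib.MP_fceebd_gt.N1a

/-! # Rows N1, N2: certificates of finite covolume (no surfaces in this file) -/

set_option autoImplicit false

open MeasureTheory
open scoped UpperHalfPlane MatrixGroups

namespace Pool.Veech

/-- the unit vector with angle `φ` -/
private noncomputable def N2dir (φ : ℝ) : Vec := ![Real.cos φ, Real.sin φ]

private theorem N2dir_0 (φ : ℝ) : N2dir φ 0 = Real.cos φ := rfl
private theorem N2dir_1 (φ : ℝ) : N2dir φ 1 = Real.sin φ := rfl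

/-- one step -/
private def N2R (Γ : Subgroup SL(2, ℝ)) (W : Set Vec) (a b : Vec) : Prop :=
  a ∈ W ∧ b ∈ W ∧ ∃ A ∈ Γ, ArcOK A a b

private theorem N2_mulVec_0 (A : Matrix (Fin 2) (Fin 2) ℝ) (u : Vec) :
    A.mulVec u 0 = A 0 0 * u 0 + A 0 1 * u 1 := by
  simp [Matrix.mulVec, dotProduct, Fin.sum_univ_two]

private theorem N2_mulVec_1 (A : Matrix (Fin 2) (Fin 2) ℝ) (u : Vec) :
    A.mulVec u 1 = A 1 0 * u 0 + A 1 1 * u 1 := by
  simp [Matrix.mulVec, dotProduct, Fin.sum_univ_two]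

private theorem N2_smul {A : SL(2, ℝ)} {u v : Vec} (h : ArcOK A u v) {r s : ℝ} (hr : 0 < r)
    (hs : 0 < s) : ArcOK A (r • u) (s • v) := by
  obtain ⟨h1, h2, h3, h4⟩ := h
  refine ⟨?_, ?_, ?_, ?_⟩
  · have : cr (r • u) (s • v) = r * s * cr u v := by
      simp only [cr, Pi.smul_apply, smul_eq_mul]; ring
    rw [this]; positivity
  · have : ip (r • u) (s • v) - ip (A.1.mulVec (r • u)) (A.1.mulVec (s • v)) =
        r * s * (ip u v - ip (A.1.mulVec u) (A.1.mulVec v)) := by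
      rw [Matrix.mulVec_smul, Matrix.mulVec_smul]
      simp only [ip, Pi.smul_apply, smul_eq_mul]; ring
    rw [this]; positivity
  · rcases h3 with h3 | ⟨h3, h3'⟩
    · left
      have : nq (r • u) - nq (A.1.mulVec (r • u)) = r * r * (nq u - nq (A.1.mulVec u)) := by
        rw [Matrix.mulVec_smul]
        simp only [nq, ip, Pi.smul_apply, smul_eq_mul]; ring
      rw [this]; positivity
    · right
      exact ⟨by rw [Matrix.mulVec_smul, h3], h3'⟩
  · rcases h4 with h3 | ⟨h3, h3'⟩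
    · left
      have : nq (s • v) - nq (A.1.mulVec (s • v)) = s * s * (nq v - nq (A.1.mulVec v)) := by
        rw [Matrix.mulVec_smul]
        simp only [nq, ip, Pi.smul_apply, smul_eq_mul]; ring
      rw [this]; positivity
    · right
      exact ⟨by rw [Matrix.mulVec_smul, h3], h3'⟩

private theorem N2_cr {φ₁ φ₂ : ℝ} (h : φ₁ < φ₂) (h' : φ₂ - φ₁ < 2) :
    0 < cr (N2dir φ₁) (N2dir φ₂) := by
  have : cr (N2dir φ₁) (N2dir φ₂) = Real.sin (φ₂ - φ₁) := by
    rw [Real.sin_sub]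
    simp only [cr, N2dir_0, N2dir_1]; ring
  rw [this]
  apply Real.sin_pos_of_pos_of_lt_pi
  · linarith
  · have := Real.pi_gt_three
    linarith

private theorem N2_case1 {θ : ℝ} {A : SL(2, ℝ)}
    (h : nq (A.1.mulVec (N2dir θ)) < nq (N2dir θ)) :
    ∃ δ > 0, ∀ φ₁ φ₂, |φ₁ - θ| < δ → |φ₂ - θ| < δ → φ₁ < φ₂ →
      ArcOK A (N2dir φ₁) (N2dir φ₂) := by
  let F : ℝ × ℝ → ℝ := fun p => ip (N2dir p.1) (N2dir p.2) -
    ip (A.1.mulVec (N2dir p.1)) (A.1.mulVec (N2dir p.2))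
  have hF : Continuous F := by
    simp only [F, ip, N2_mulVec_0, N2_mulVec_1, N2dir_0, N2dir_1]
    fun_prop
  have h0 : 0 < F (θ, θ) := by
    simp only [F]
    change 0 < nq _ - nq _
    linarith
  have h1 := hF.continuousAt.eventually (lt_mem_nhds h0)
  obtain ⟨ε, hε, h2⟩ := Metric.eventually_nhds_iff.1 h1
  have h3 : ∀ φ₁ φ₂, |φ₁ - θ| < ε → |φ₂ - θ| < ε → 0 < F (φ₁, φ₂) := by
    intro φ₁ φ₂ h3 h4
    apply h2
    rw [Prod.dist_eq, max_lt_iff]
    exact ⟨h3, h4⟩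
  refine ⟨min ε 1, lt_min hε one_pos, fun φ₁ φ₂ h4 h5 h6 => ?_⟩
  have h4' := h4.trans_le (min_le_left _ _)
  have h5' := h5.trans_le (min_le_left _ _)
  have h4'' := abs_lt.1 (h4.trans_le (min_le_right _ _))
  have h5'' := abs_lt.1 (h5.trans_le (min_le_right _ _))
  exact ⟨N2_cr h6 (by linarith), h3 φ₁ φ₂ h4' h5', Or.inl (h3 φ₁ φ₁ h4' h4'),
    Or.inl (h3 φ₂ φ₂ h5' h5')⟩

private theorem N2_shear {θ : ℝ} {P : SL(2, ℝ)} (hP : P.1.mulVec (N2dir θ) = N2dir θ) :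
    ∃ τ : ℝ, ∀ φ, P.1.mulVec (N2dir φ) = N2dir φ + (τ * Real.sin (φ - θ)) • N2dir θ := by
  have h0 := congrFun hP 0
  have h1 := congrFun hP 1
  rw [N2_mulVec_0, N2dir_0, N2dir_1] at h0
  rw [N2_mulVec_1, N2dir_0, N2dir_1] at h1
  have hdet : P.1 0 0 * P.1 1 1 - P.1 0 1 * P.1 1 0 = 1 := by
    rw [← Matrix.det_fin_two]; exact P.2
  have hcs := Real.sin_sq_add_cos_sq θ
  set c := Real.cos θ with hc
  set s := Real.sin θ with hs
  set p := P.1 0 0
  set q := P.1 0 1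
  set r := P.1 1 0
  set t := P.1 1 1
  have hy : c * (-r * s + t * c) - s * (-p * s + q * c) = 1 := by
    linear_combination (-r * s + t * c) * (-h0) + (-p * s + q * c) * h1 +
      hdet + (p * t - q * r) * hcs
  refine ⟨c * (-p * s + q * c) + s * (-r * s + t * c), fun φ => ?_⟩
  have e1 : Real.cos φ = Real.cos (φ - θ) * c - Real.sin (φ - θ) * s := by
    rw [hc, hs, ← Real.cos_add, sub_add_cancel]
  have e2 : Real.sin φ = Real.sin (φ - θ) * c + Real.cos (φ - θ) * s := by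
    rw [hc, hs, ← Real.sin_add, sub_add_cancel]
  funext i
  fin_cases i
  · change P.1.mulVec (N2dir φ) 0 = N2dir φ 0 + _ * N2dir θ 0
    rw [N2_mulVec_0, N2dir_0, N2dir_1, N2dir_0, e1, e2]
    change p * _ + q * _ = _
    linear_combination Real.cos (φ - θ) * h0 + Real.sin (φ - θ) *
      (-(-p * s + q * c) * hcs - s * hy)
  · change P.1.mulVec (N2dir φ) 1 = N2dir φ 1 + _ * N2dir θ 1
    rw [N2_mulVec_1, N2dir_0, N2dir_1, N2dir_1, e1, e2]
    change r * _ + t * _ = _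
    linear_combination Real.cos (φ - θ) * h1 + Real.sin (φ - θ) *
      (-(-r * s + t * c) * hcs + c * hy)

private theorem N2_form {θ τ : ℝ} {P : SL(2, ℝ)}
    (hP : ∀ φ, P.1.mulVec (N2dir φ) = N2dir φ + (τ * Real.sin (φ - θ)) • N2dir θ) (φ₁ φ₂ : ℝ) :
    ip (N2dir φ₁) (N2dir φ₂) - ip (P.1.mulVec (N2dir φ₁)) (P.1.mulVec (N2dir φ₂)) =
      -(τ * Real.sin (φ₂ - θ) * Real.cos (φ₁ - θ) + τ * Real.sin (φ₁ - θ) * Real.cos (φ₂ - θ) +
        τ ^ 2 * Real.sin (φ₁ - θ) * Real.sin (φ₂ - θ)) := by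
  rw [hP, hP]
  have h1 : Real.cos (φ₁ - θ) = Real.cos φ₁ * Real.cos θ + Real.sin φ₁ * Real.sin θ :=
    Real.cos_sub _ _
  have h2 : Real.cos (φ₂ - θ) = Real.cos φ₂ * Real.cos θ + Real.sin φ₂ * Real.sin θ :=
    Real.cos_sub _ _
  have hcs := Real.sin_sq_add_cos_sq θ
  simp only [ip, Pi.add_apply, Pi.smul_apply, smul_eq_mul, N2dir_0, N2dir_1]
  rw [h1, h2]
  linear_combination -(τ ^ 2 * Real.sin (φ₁ - θ) * Real.sin (φ₂ - θ)) * hcs

private theorem N2_est {τ : ℝ} (hτ : τ < 0) :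
    ∃ δ > 0, δ ≤ 1 ∧ ∀ a b : ℝ, 0 ≤ a → 0 ≤ b → a < δ → b < δ → 0 < a + b →
      0 < -(τ * Real.sin b * Real.cos a + τ * Real.sin a * Real.cos b +
        τ ^ 2 * Real.sin a * Real.sin b) := by
  have hτ0 : 0 < -τ := by linarith
  refine ⟨min 1 (1 / (4 * -τ)), lt_min one_pos (by positivity), min_le_left _ _, ?_⟩
  intro a b ha hb ha' hb' hab
  have ha1 := ha'.trans_le (min_le_left _ _)
  have hb1 := hb'.trans_le (min_le_left _ _)
  have hb2 := hb'.trans_le (min_le_right _ _)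
  have hpi := Real.pi_gt_three
  have hca : 1 / 2 ≤ Real.cos a := by
    have := Real.one_sub_sq_div_two_le_cos (x := a)
    nlinarith
  have hcb : 1 / 2 ≤ Real.cos b := by
    have := Real.one_sub_sq_div_two_le_cos (x := b)
    nlinarith
  have hsa : 0 ≤ Real.sin a := Real.sin_nonneg_of_nonneg_of_le_pi ha (by linarith)
  have hsb : 0 ≤ Real.sin b := Real.sin_nonneg_of_nonneg_of_le_pi hb (by linarith)
  have hsb' : Real.sin b ≤ b := Real.sin_le hb
  have hτ' : 0 < -τ := by linarith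
  have hτb : -τ * Real.sin b ≤ 1 / 4 := by
    calc -τ * Real.sin b ≤ -τ * (1 / (4 * -τ)) := by
          apply mul_le_mul_of_nonneg_left _ hτ'.le
          linarith
      _ = 1 / 4 := by
          have : τ ≠ 0 := hτ.ne
          field_simp
  have hpos : 0 < Real.sin a + Real.sin b := by
    rcases ha.lt_or_eq with h | h
    · have := Real.sin_pos_of_pos_of_lt_pi h (by linarith)
      linarith
    · have hb0 : 0 < b := by linarith
      have := Real.sin_pos_of_pos_of_lt_pi hb0 (by linarith)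
      linarith
  have key : -(τ * Real.sin b * Real.cos a + τ * Real.sin a * Real.cos b +
        τ ^ 2 * Real.sin a * Real.sin b) = -τ * (Real.sin b * Real.cos a +
        Real.sin a * (Real.cos b - (-τ * Real.sin b))) := by ring
  rw [key]
  apply mul_pos hτ'
  have h1 : Real.sin b * (1 / 2) ≤ Real.sin b * Real.cos a :=
    mul_le_mul_of_nonneg_left hca hsb
  have h2 : Real.sin a * (1 / 4) ≤ Real.sin a * (Real.cos b - (-τ * Real.sin b)) :=
    mul_le_mul_of_nonneg_left (by linarith) hsa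
  linarith

private theorem N2_right {θ τ : ℝ} {P : SL(2, ℝ)} (hτ : τ < 0) (hne : P ≠ 1)
    (hP : ∀ φ, P.1.mulVec (N2dir φ) = N2dir φ + (τ * Real.sin (φ - θ)) • N2dir θ) :
    ∃ δ > 0, ∀ φ₁ φ₂, θ ≤ φ₁ → φ₁ < φ₂ → φ₂ < θ + δ → ArcOK P (N2dir φ₁) (N2dir φ₂) := by
  obtain ⟨δ, hδ, hδ1, h⟩ := N2_est hτ
  refine ⟨δ, hδ, fun φ₁ φ₂ h1 h2 h3 => ⟨N2_cr h2 (by linarith), ?_, ?_, ?_⟩⟩
  · rw [N2_form hP]
    exact h _ _ (by linarith) (by linarith) (by linarith) (by linarith) (by linarith)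
  · rcases h1.lt_or_eq with h1 | h1
    · left
      change 0 < ip _ _ - ip _ _
      rw [N2_form hP]
      exact h _ _ (by linarith) (by linarith) (by linarith) (by linarith) (by linarith)
    · right
      refine ⟨?_, hne⟩
      rw [hP, ← h1, sub_self, Real.sin_zero, mul_zero, zero_smul, add_zero]
  · left
    change 0 < ip _ _ - ip _ _
    rw [N2_form hP]
    exact h _ _ (by linarith) (by linarith) (by linarith) (by linarith) (by linarith)

private theorem N2_left {θ τ : ℝ} {P : SL(2, ℝ)} (hτ : 0 < τ) (hne : P ≠ 1)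
    (hP : ∀ φ, P.1.mulVec (N2dir φ) = N2dir φ + (τ * Real.sin (φ - θ)) • N2dir θ) :
    ∃ δ > 0, ∀ φ₁ φ₂, θ - δ < φ₁ → φ₁ < φ₂ → φ₂ ≤ θ → ArcOK P (N2dir φ₁) (N2dir φ₂) := by
  obtain ⟨δ, hδ, hδ1, h⟩ := N2_est (τ := -τ) (by linarith)
  have h' : ∀ a b : ℝ, a ≤ 0 → b ≤ 0 → -δ < a → -δ < b → a + b < 0 →
      0 < -(τ * Real.sin b * Real.cos a + τ * Real.sin a * Real.cos b +
        τ ^ 2 * Real.sin a * Real.sin b) := by
    intro a b ha hb ha' hb' hab
    have := h (-a) (-b) (by linarith) (by linarith) (by linarith) (by linarith) (by linarith)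
    rw [Real.sin_neg, Real.sin_neg, Real.cos_neg, Real.cos_neg] at this
    calc 0 < _ := this
      _ = _ := by ring
  refine ⟨δ, hδ, fun φ₁ φ₂ h1 h2 h3 => ⟨N2_cr h2 (by linarith), ?_, ?_, ?_⟩⟩
  · rw [N2_form hP]
    exact h' _ _ (by linarith) (by linarith) (by linarith) (by linarith) (by linarith)
  · left
    change 0 < ip _ _ - ip _ _
    rw [N2_form hP]
    exact h' _ _ (by linarith) (by linarith) (by linarith) (by linarith) (by linarith)
  · rcases h3.lt_or_eq with h3 | h3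
    · left
      change 0 < ip _ _ - ip _ _
      rw [N2_form hP]
      exact h' _ _ (by linarith) (by linarith) (by linarith) (by linarith) (by linarith)
    · right
      refine ⟨?_, hne⟩
      rw [hP, h3, sub_self, Real.sin_zero, mul_zero, zero_smul, add_zero]

private theorem N2_eq_one {P : SL(2, ℝ)} (h : ∀ φ, P.1.mulVec (N2dir φ) = N2dir φ) : P = 1 := by
  have h1 := h 0
  have h2 := h (Real.pi / 2)
  have a1 := congrFun h1 0
  have a2 := congrFun h1 1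
  have b1 := congrFun h2 0
  have b2 := congrFun h2 1
  rw [N2_mulVec_0, N2dir_0, N2dir_1] at a1 b1
  rw [N2_mulVec_1, N2dir_0, N2dir_1] at a2 b2
  simp only [Real.cos_zero, Real.sin_zero, Real.cos_pi_div_two, Real.sin_pi_div_two, mul_one,
    mul_zero, add_zero, zero_add] at a1 a2 b1 b2
  apply Subtype.ext
  ext i j
  fin_cases i <;> fin_cases j
  · simpa using a1
  · simpa using b1
  · simpa using a2
  · simpa using b2

/-- the two sides of a cusp -/
private theorem N2_sides {Γ : Subgroup SL(2, ℝ)} {θ : ℝ} {P : SL(2, ℝ)} (hPΓ : P ∈ Γ)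
    (hne : P ≠ 1) (hP : P.1.mulVec (N2dir θ) = N2dir θ) :
    ∃ δ > 0, (∃ A ∈ Γ, ∀ φ₁ φ₂, θ ≤ φ₁ → φ₁ < φ₂ → φ₂ < θ + δ →
        ArcOK A (N2dir φ₁) (N2dir φ₂)) ∧
      ∃ A ∈ Γ, ∀ φ₁ φ₂, θ - δ < φ₁ → φ₁ < φ₂ → φ₂ ≤ θ → ArcOK A (N2dir φ₁) (N2dir φ₂) := by
  obtain ⟨τ, hτ⟩ := N2_shear hP
  have hP' : (P⁻¹).1.mulVec (N2dir θ) = N2dir θ := by
    conv_lhs => rw [← hP]
    rw [Matrix.mulVec_mulVec, ← Matrix.SpecialLinearGroup.coe_mul, inv_mul_cancel,
      Matrix.SpecialLinearGroup.coe_one, Matrix.one_mulVec]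
  obtain ⟨τ', hτ'⟩ := N2_shear hP'
  have hne' : P⁻¹ ≠ 1 := fun h => hne (inv_eq_one.1 h)
  have hPΓ' : P⁻¹ ∈ Γ := Γ.inv_mem hPΓ
  have hsum : τ + τ' = 0 := by
    have h1 : (P⁻¹).1.mulVec (P.1.mulVec (N2dir (θ + Real.pi / 2))) = N2dir (θ + Real.pi / 2) := by
      rw [Matrix.mulVec_mulVec, ← Matrix.SpecialLinearGroup.coe_mul, inv_mul_cancel,
        Matrix.SpecialLinearGroup.coe_one, Matrix.one_mulVec]
    rw [hτ, Matrix.mulVec_add, Matrix.mulVec_smul, hP', hτ'] at h1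
    rw [add_sub_cancel_left, Real.sin_pi_div_two, mul_one, mul_one] at h1
    have h2 : (τ + τ') • N2dir θ = 0 := by
      have h3 : N2dir (θ + Real.pi / 2) + (τ + τ') • N2dir θ = N2dir (θ + Real.pi / 2) := by
        rw [add_smul]
        calc _ = N2dir (θ + Real.pi / 2) + τ' • N2dir θ + τ • N2dir θ := by abel
          _ = _ := h1
      simpa using h3
    rcases smul_eq_zero.1 h2 with h3 | h3
    · exact h3
    · exfalso
      have h4 := congrFun h3 0
      have h5 := congrFun h3 1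
      rw [N2dir_0] at h4
      rw [N2dir_1] at h5
      have := Real.sin_sq_add_cos_sq θ
      rw [h4, h5] at this
      simp at this
  rcases lt_trichotomy τ 0 with h | h | h
  · obtain ⟨δ₁, hδ₁, h1⟩ := N2_right h hne hτ
    obtain ⟨δ₂, hδ₂, h2⟩ := N2_left (by linarith) hne' hτ'
    refine ⟨min δ₁ δ₂, lt_min hδ₁ hδ₂, ⟨P, hPΓ, fun φ₁ φ₂ a b c => h1 _ _ a b ?_⟩,
      ⟨P⁻¹, hPΓ', fun φ₁ φ₂ a b c => h2 _ _ ?_ b c⟩⟩
    · have := min_le_left δ₁ δ₂
      linarith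
    · have := min_le_right δ₁ δ₂
      linarith
  · exfalso
    apply hne
    apply N2_eq_one
    intro φ
    rw [hτ, h, zero_mul, zero_smul, add_zero]
  · obtain ⟨δ₁, hδ₁, h1⟩ := N2_right (by linarith) hne' hτ'
    obtain ⟨δ₂, hδ₂, h2⟩ := N2_left h hne hτ
    refine ⟨min δ₁ δ₂, lt_min hδ₁ hδ₂, ⟨P⁻¹, hPΓ', fun φ₁ φ₂ a b c => h1 _ _ a b ?_⟩,
      ⟨P, hPΓ, fun φ₁ φ₂ a b c => h2 _ _ ?_ b c⟩⟩
    · have := min_le_left δ₁ δ₂
      linarith
    · have := min_le_right δ₁ δ₂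
      linarith

/-- local chains -/
private theorem N2_local {Γ : Subgroup SL(2, ℝ)} {W : Set Vec}
    (hneg : ∀ v ∈ W, -v ∈ W)
    (h : ∀ u : Vec, u ≠ 0 → (∃ A ∈ Γ, nq (A.1.mulVec u) < nq u) ∨
      ∃ v ∈ W, v ≠ 0 ∧ cr v u = 0 ∧ ∃ P ∈ Γ, P ≠ 1 ∧ P.1.mulVec v = v) (θ : ℝ) :
    ∃ δ > 0, ∀ φ₁ φ₂ r₁ r₂ : ℝ, |φ₁ - θ| < δ → |φ₂ - θ| < δ → φ₁ < φ₂ → 0 < r₁ → 0 < r₂ →
      r₁ • N2dir φ₁ ∈ W → r₂ • N2dir φ₂ ∈ W →
      Relation.TransGen (N2R Γ W) (r₁ • N2dir φ₁) (r₂ • N2dir φ₂) := by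
  have hne : N2dir θ ≠ 0 := by
    intro h3
    have h4 := congrFun h3 0
    have h5 := congrFun h3 1
    rw [N2dir_0] at h4
    rw [N2dir_1] at h5
    have := Real.sin_sq_add_cos_sq θ
    rw [h4, h5] at this
    simp at this
  rcases h (N2dir θ) hne with ⟨A, hA, hA'⟩ | ⟨v, hvW, hv0, hcr, P, hPΓ, hPne, hPv⟩
  · obtain ⟨δ, hδ, h1⟩ := N2_case1 hA'
    refine ⟨δ, hδ, fun φ₁ φ₂ r₁ r₂ a b c d e f g => Relation.TransGen.single ?_⟩
    exact ⟨f, g, A, hA, N2_smul (h1 _ _ a b c) d e⟩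
  · -- `v` is a multiple of the direction
    have hv : v = (v 0 * Real.cos θ + v 1 * Real.sin θ) • N2dir θ := by
      have hcs := Real.sin_sq_add_cos_sq θ
      simp only [cr, N2dir_0, N2dir_1] at hcr
      funext i
      fin_cases i
      · change v 0 = _ * N2dir θ 0
        rw [N2dir_0]
        linear_combination Real.sin θ * hcr - v 0 * hcs
      · change v 1 = _ * N2dir θ 1
        rw [N2dir_1]
        linear_combination -Real.cos θ * hcr - v 1 * hcs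
    set ρ := v 0 * Real.cos θ + v 1 * Real.sin θ with hρ
    have hρ0 : ρ ≠ 0 := by
      intro h1
      rw [h1, zero_smul] at hv
      exact hv0 hv
    have hPd : P.1.mulVec (N2dir θ) = N2dir θ := by
      rw [hv, Matrix.mulVec_smul] at hPv
      exact smul_right_injective _ hρ0 hPv
    have hρW : |ρ| • N2dir θ ∈ W := by
      rcases abs_choice ρ with h1 | h1
      · rw [h1, ← hv]; exact hvW
      · rw [h1, neg_smul, ← hv]; exact hneg v hvW
    have hρpos : 0 < |ρ| := abs_pos.2 hρ0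
    obtain ⟨δ, hδ, ⟨A, hA, h1⟩, ⟨B, hB, h2⟩⟩ := N2_sides hPΓ hPne hPd
    refine ⟨δ, hδ, fun φ₁ φ₂ r₁ r₂ a b c d e f g => ?_⟩
    rw [abs_lt] at a b
    rcases le_or_gt θ φ₁ with h3 | h3
    · exact Relation.TransGen.single ⟨f, g, A, hA, N2_smul (h1 _ _ h3 c (by linarith)) d e⟩
    · rcases le_or_gt φ₂ θ with h4 | h4
      · exact Relation.TransGen.single ⟨f, g, B, hB, N2_smul (h2 _ _ (by linarith) c h4) d e⟩
      · refine Relation.TransGen.tail (Relation.TransGen.single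
          (⟨f, hρW, B, hB, N2_smul (h2 _ _ (by linarith) h3 le_rfl) d hρpos⟩ :
            N2R Γ W _ (|ρ| • N2dir θ))) ?_
        exact ⟨hρW, g, A, hA, N2_smul (h1 _ _ le_rfl h4 (by linarith)) hρpos e⟩

/-- density of the angles -/
private theorem N2_dense {W : Set Vec} (hW : Dense W) {α β : ℝ} (hab : α < β) :
    ∃ φ r : ℝ, α < φ ∧ φ < β ∧ 0 < r ∧ r • N2dir φ ∈ W := by
  set φ₀ := (α + β) / 2 with hφ₀
  set η := min ((β - α) / 2) 1 with hη
  have hη0 : 0 < η := lt_min (by linarith) one_pos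
  have hη1 : η ≤ 1 := min_le_right _ _
  have hη2 : η ≤ (β - α) / 2 := min_le_left _ _
  have hpi := Real.pi_gt_three
  have htan : 0 < Real.tan η := Real.tan_pos_of_pos_of_lt_pi_div_two hη0 (by linarith)
  let U : Set Vec := {w | 0 < ip w (N2dir φ₀) ∧ |cr (N2dir φ₀) w| < Real.tan η * ip w (N2dir φ₀)}
  have hU : IsOpen U := by
    have h1 : IsOpen {w : Vec | 0 < ip w (N2dir φ₀)} :=
      isOpen_lt continuous_const (by unfold ip; fun_prop)
    have h2 : IsOpen {w : Vec | |cr (N2dir φ₀) w| < Real.tan η * ip w (N2dir φ₀)} :=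
      isOpen_lt (by unfold cr; fun_prop) (by unfold ip; fun_prop)
    exact h1.inter h2
  have hcs := Real.sin_sq_add_cos_sq φ₀
  have hU' : N2dir φ₀ ∈ U := by
    have h1 : ip (N2dir φ₀) (N2dir φ₀) = 1 := by
      simp only [ip, N2dir_0, N2dir_1]; linarith
    have h2 : cr (N2dir φ₀) (N2dir φ₀) = 0 := by
      simp only [cr, N2dir_0, N2dir_1]; ring
    refine ⟨by rw [h1]; exact one_pos, ?_⟩
    rw [h1, h2, abs_zero, mul_one]
    exact htan
  obtain ⟨w, hwU, hwW⟩ := hW.inter_open_nonempty U hU ⟨_, hU'⟩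
  obtain ⟨hx, hy⟩ := hwU
  set x := ip w (N2dir φ₀) with hxd
  set y := cr (N2dir φ₀) w with hyd
  have ht : |y / x| < Real.tan η := by
    rw [abs_div, abs_of_pos hx, div_lt_iff₀ hx]
    exact hy
  have hat : |Real.arctan (y / x)| < η := by
    rw [abs_lt] at ht ⊢
    have h1 : Real.arctan (Real.tan η) = η := Real.arctan_tan (by linarith) (by linarith)
    constructor
    · have := Real.arctan_strictMono ht.1
      rw [Real.arctan_neg, h1] at this
      exact this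
    · have := Real.arctan_strictMono ht.2
      rw [h1] at this
      exact this
  rw [abs_lt] at hat
  refine ⟨φ₀ + Real.arctan (y / x), x * Real.sqrt (1 + (y / x) ^ 2), by linarith, by linarith,
    by positivity, ?_⟩
  have hs : Real.sqrt (1 + (y / x) ^ 2) ≠ 0 := by positivity
  have e1 : x * Real.sqrt (1 + (y / x) ^ 2) * Real.cos (Real.arctan (y / x)) = x := by
    rw [Real.cos_arctan]
    field_simp
  have e2 : x * Real.sqrt (1 + (y / x) ^ 2) * Real.sin (Real.arctan (y / x)) = y := by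
    rw [Real.sin_arctan]
    field_simp
  have hw : (x * Real.sqrt (1 + (y / x) ^ 2)) • N2dir (φ₀ + Real.arctan (y / x)) = w := by
    funext i
    fin_cases i
    · change _ * N2dir _ 0 = w 0
      rw [N2dir_0, Real.cos_add]
      have : w 0 = x * Real.cos φ₀ - y * Real.sin φ₀ := by
        simp only [hxd, hyd, ip, cr, N2dir_0, N2dir_1]
        linear_combination -w 0 * hcs
      rw [this]
      linear_combination Real.cos φ₀ * e1 - Real.sin φ₀ * e2
    · change _ * N2dir _ 1 = w 1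
      rw [N2dir_1, Real.sin_add]
      have : w 1 = x * Real.sin φ₀ + y * Real.cos φ₀ := by
        simp only [hxd, hyd, ip, cr, N2dir_0, N2dir_1]
        linear_combination -w 1 * hcs
      rw [this]
      linear_combination Real.sin φ₀ * e1 + Real.cos φ₀ * e2
  rw [hw]
  exact hwW

/-- chains between all directions -/
private theorem N2_global {Γ : Subgroup SL(2, ℝ)} {W : Set Vec} (hW : Dense W)
    (hneg : ∀ v ∈ W, -v ∈ W)
    (h : ∀ u : Vec, u ≠ 0 → (∃ A ∈ Γ, nq (A.1.mulVec u) < nq u) ∨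
      ∃ v ∈ W, v ≠ 0 ∧ cr v u = 0 ∧ ∃ P ∈ Γ, P ≠ 1 ∧ P.1.mulVec v = v) {α β : ℝ} {r s : ℝ}
    (hab : α < β) (hr : 0 < r) (hs : 0 < s) (hα : r • N2dir α ∈ W) (hβ : s • N2dir β ∈ W) :
    Relation.TransGen (N2R Γ W) (r • N2dir α) (s • N2dir β) := by
  choose δ hδ hloc using N2_local hneg h
  obtain ⟨ε, hε, hleb⟩ := lebesgue_number_lemma_of_metric (s := Set.Icc α β)
    (c := fun θ : ℝ => Metric.ball θ (δ θ)) isCompact_Icc (fun _ => Metric.isOpen_ball)
    (fun x _ => Set.mem_iUnion.2 ⟨x, Metric.mem_ball_self (hδ x)⟩)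
  have hshort : ∀ φ₁ φ₂ r₁ r₂ : ℝ, α ≤ φ₁ → φ₂ ≤ β → φ₁ < φ₂ → φ₂ < φ₁ + ε → 0 < r₁ → 0 < r₂ →
      r₁ • N2dir φ₁ ∈ W → r₂ • N2dir φ₂ ∈ W →
      Relation.TransGen (N2R Γ W) (r₁ • N2dir φ₁) (r₂ • N2dir φ₂) := by
    intro φ₁ φ₂ r₁ r₂ h1 h2 h3 h4 h5 h6 h7 h8
    obtain ⟨θ, hθ⟩ := hleb φ₁ ⟨h1, by linarith⟩
    have m1 := hθ (Metric.mem_ball_self hε)
    have m2 : φ₂ ∈ Metric.ball θ (δ θ) := by
      apply hθ
      rw [Metric.mem_ball, Real.dist_eq, abs_lt]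
      constructor <;> linarith
    exact hloc θ φ₁ φ₂ r₁ r₂ m1 m2 h3 h5 h6 h7 h8
  have hall : ∀ n : ℕ, ∀ φ₁ φ₂ r₁ r₂ : ℝ, α ≤ φ₁ → φ₂ ≤ β → φ₁ < φ₂ →
      φ₂ < φ₁ + (n + 1) * (ε / 2) → 0 < r₁ → 0 < r₂ →
      r₁ • N2dir φ₁ ∈ W → r₂ • N2dir φ₂ ∈ W →
      Relation.TransGen (N2R Γ W) (r₁ • N2dir φ₁) (r₂ • N2dir φ₂) := by
    intro n
    induction n with
    | zero =>
      intro φ₁ φ₂ r₁ r₂ h1 h2 h3 h4 h5 h6 h7 h8
      refine hshort φ₁ φ₂ r₁ r₂ h1 h2 h3 ?_ h5 h6 h7 h8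
      push_cast at h4
      linarith
    | succ n ih =>
      intro φ₁ φ₂ r₁ r₂ h1 h2 h3 h4 h5 h6 h7 h8
      by_cases h9 : φ₂ < φ₁ + ε
      · exact hshort φ₁ φ₂ r₁ r₂ h1 h2 h3 h9 h5 h6 h7 h8
      · rw [not_lt] at h9
        obtain ⟨φ, t, ha, hb, ht, htW⟩ := N2_dense hW (α := φ₂ - ε) (β := φ₂ - ε / 2) (by linarith)
        push_cast at h4
        refine (ih φ₁ φ r₁ t h1 (by linarith) (by linarith) (by linarith) h5 ht h7 htW).trans
          (hshort φ φ₂ t r₂ (by linarith) h2 (by linarith) (by linarith) ht h6 htW h8)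
  obtain ⟨n, hn⟩ := exists_nat_gt ((β - α) / (ε / 2))
  refine hall n α β r s le_rfl le_rfl hab ?_ hr hs hα hβ
  rw [div_lt_iff₀ (by linarith)] at hn
  linarith

private theorem N2_chain {Γ : Subgroup SL(2, ℝ)} {W : Set Vec} {a b : Vec}
    (h : Relation.TransGen (N2R Γ W) a b) :
    ∃ (k : ℕ) (u : ℕ → Vec) (A : ℕ → SL(2, ℝ)), 0 < k ∧ u 0 = a ∧ u k = b ∧ (∀ j ≤ k, u j ∈ W) ∧
      ∀ j < k, A j ∈ Γ ∧ ArcOK (A j) (u j) (u (j + 1)) := by
  induction h with
  | @single b hab =>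
    obtain ⟨h1, h2, A, hA, hA'⟩ := hab
    refine ⟨1, fun j => if j = 0 then a else b, fun _ => A, one_pos, rfl, rfl, ?_, ?_⟩
    · intro j _
      dsimp only
      split_ifs
      · exact h1
      · exact h2
    · intro j hj
      have : j = 0 := by omega
      subst this
      exact ⟨hA, hA'⟩
  | @tail b c _ hbc ih =>
    obtain ⟨k, u, A, hk, hu0, huk, hu, hA⟩ := ih
    obtain ⟨h1, h2, B, hB, hB'⟩ := hbc
    refine ⟨k + 1, fun j => if j ≤ k then u j else c, fun j => if j < k then A j else B,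
      by omega, ?_, ?_, ?_, ?_⟩
    · simpa using hu0
    · simp
    · intro j _
      dsimp only
      split_ifs with h3
      · exact hu j h3
      · exact h2
    · intro j hj
      dsimp only
      by_cases h3 : j < k
      · rw [if_pos h3, if_pos h3.le, if_pos (by omega)]
        exact hA j h3
      · have h4 : j = k := by omega
        subst h4
        rw [if_neg h3, if_pos le_rfl, if_neg (by omega), huk]
        exact ⟨hB, hB'⟩

/-- N2. Existence of certificates, by compactness of the circle. The directions may be taken in a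
dense set `W` of good vectors which contains the cusps. Near a vector `v` which is fixed by
`P` in `Γ`, `P ≠ 1`, use `P` on one side and `P⁻¹` on the other side. -/
theorem exists_cert {Γ : Subgroup SL(2, ℝ)} {W : Set Vec} (hW : Dense W)
    (hneg : ∀ v ∈ W, -v ∈ W)
    (h : ∀ u : Vec, u ≠ 0 → (∃ A ∈ Γ, nq (A.1.mulVec u) < nq u) ∨
      ∃ v ∈ W, v ≠ 0 ∧ cr v u = 0 ∧ ∃ P ∈ Γ, P ≠ 1 ∧ P.1.mulVec v = v) :
    ∃ (k : ℕ) (u : ℕ → Vec) (A : ℕ → SL(2, ℝ)), 0 < k ∧ u k = -u 0 ∧ (∀ j ≤ k, u j ∈ W) ∧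
      ∀ j < k, A j ∈ Γ ∧ ArcOK (A j) (u j) (u (j + 1)) := by
  obtain ⟨φ, r, -, -, hr, hrW⟩ := N2_dense hW (α := 0) (β := 1) one_pos
  have h1 : r • N2dir (φ + Real.pi) = -(r • N2dir φ) := by
    have : N2dir (φ + Real.pi) = -N2dir φ := by
      funext i
      fin_cases i
      · change Real.cos (φ + Real.pi) = -Real.cos φ
        exact Real.cos_add_pi φ
      · change Real.sin (φ + Real.pi) = -Real.sin φ
        exact Real.sin_add_pi φ
    rw [this, smul_neg]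
  have h2 : r • N2dir (φ + Real.pi) ∈ W := by
    rw [h1]; exact hneg _ hrW
  have h3 := N2_global hW hneg h (α := φ) (β := φ + Real.pi) (by linarith [Real.pi_pos]) hr hr
    hrW h2
  obtain ⟨k, u, A, hk, hu0, huk, hu, hA⟩ := N2_chain h3
  exact ⟨k, u, A, hk, by rw [huk, hu0, h1], hu, hA⟩

end Pool.Veech
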