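import Pool.Agent.Lib.MP_fceebd_gt.E1

/-! # Row W1: the set of edge vectors is locally finite -/

set_option autoImplicit false

open scoped MatrixGroups

namespace Pool.Veech

variable {D : Type} [Fintype D] [DecidableEq D] {T : Tri D} {z : D → Vec} {m : Matrix D D ℤ}
  {i : D → ℤ} {c : Vec} {α : ℝ}

/-- `C` is the derivative of an affine map with the matrix `m`, it is hyperbolic, and the
eigenvectors of `m` for its eigenvalues are given by the coordinates of `z`. -/
structure Hyp (T : Tri D) (z : D → Vec) (m : Matrix D D ℤ) (C : SL(2, ℝ)) : Prop where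
  path : GPath T z T m
  der : app m z = lin C.1 z
  tr : 2 < C.1.trace
  simple : ∀ f : D → ℝ, IsCoc T f → IsAnti T f →
    app m (app m f) - C.1.trace • app m f + f = 0 →
    ∃ a b : ℝ, f = fun d => a * z d 0 + b * z d 1

theorem Hyp.lin {C : SL(2, ℝ)} (h : Hyp T z m C) (B : SL(2, ℝ)) :
    Hyp T (lin B.1 z) m (B * C * B⁻¹) := by
  have htr : (B * C * B⁻¹).1.trace = C.1.trace := by
    rw [Matrix.SpecialLinearGroup.coe_mul, Matrix.SpecialLinearGroup.coe_mul, Matrix.trace_mul_comm,
      ← Matrix.mul_assoc, ← Matrix.SpecialLinearGroup.coe_mul, inv_mul_cancel,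
      Matrix.SpecialLinearGroup.coe_one, Matrix.one_mul]
  refine ⟨h.path.lin B.1 (det_pos B), ?_, by rw [htr]; exact h.tr, ?_⟩
  · rw [app_lin, h.der, lin_lin, lin_lin, ← Matrix.SpecialLinearGroup.coe_mul,
      ← Matrix.SpecialLinearGroup.coe_mul]
    congr 1
    simp
  · intro f hf1 hf2 hf3
    rw [htr] at hf3
    obtain ⟨a, b, hab⟩ := h.simple f hf1 hf2 hf3
    refine ⟨a * B⁻¹.1 0 0 + b * B⁻¹.1 1 0, a * B⁻¹.1 0 1 + b * B⁻¹.1 1 1, ?_⟩
    rw [hab]
    funext d
    have h1 : B⁻¹.1.mulVec (Veech.lin B.1 z d) = z d := by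
      simp only [Veech.lin]
      rw [Matrix.mulVec_mulVec, ← Matrix.SpecialLinearGroup.coe_mul, inv_mul_cancel,
        Matrix.SpecialLinearGroup.coe_one, Matrix.one_mulVec]
    have h2 : z d 0 = B⁻¹.1 0 0 * Veech.lin B.1 z d 0 + B⁻¹.1 0 1 * Veech.lin B.1 z d 1 := by
      conv_lhs => rw [← h1]
      simp [Matrix.mulVec, dotProduct, Fin.sum_univ_two]
    have h3 : z d 1 = B⁻¹.1 1 0 * Veech.lin B.1 z d 0 + B⁻¹.1 1 1 * Veech.lin B.1 z d 1 := by
      conv_lhs => rw [← h1]
      simp [Matrix.mulVec, dotProduct, Fin.sum_univ_two]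
    rw [h2, h3]
    ring

/-- the property does not depend on the triangulation -/
theorem Hyp.trans {T' : Tri D} {m' : Matrix D D ℤ} {C : SL(2, ℝ)} (h : Hyp T z m C)
    (h' : GPath T z T' m') : ∃ m'', Hyp T' (app m' z) m'' C := by
  obtain ⟨n, hn, h1, h2⟩ := h'.symm'
  have hz : app n (app m' z) = z := h1 Vec z h'.geo_left.coc
  have hp1 : GPath T' (app m' z) T (m * n) := hn.trans (by rw [hz]; exact h.path)
  have hp2 : GPath T' (app m' z) T' (m' * (m * n)) := by
    refine hp1.trans ?_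
    rw [app_mul, hz, h.der]
    exact h'.lin C.1 (det_pos C)
  refine ⟨m' * (m * n), hp2, ?_, h.tr, ?_⟩
  · rw [app_mul, app_mul, hz, h.der, app_lin]
  · intro f hf1 hf2 hf3
    have hg1 : IsCoc T (app n f) := hn.coc hf1
    have hg2 : IsAnti T (app n f) := hn.anti hf2
    have hmg : IsCoc T (app m (app n f)) := h.path.coc hg1
    have hmmg : IsCoc T (app m (app m (app n f))) := h.path.coc hmg
    have e1 : app (m' * (m * n)) f = app m' (app m (app n f)) := by rw [app_mul, app_mul]
    have e2 : app (m' * (m * n)) (app (m' * (m * n)) f) = app m' (app m (app m (app n f))) := by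
      rw [e1, app_mul, app_mul, h1 ℝ _ hmg]
    have e3 : f = app m' (app n f) := (h2 ℝ f hf1).symm
    have e4 : app m (app m (app n f)) - C.1.trace • app m (app n f) + app n f = 0 := by
      have e5 := congrArg (app n) hf3
      rw [e2, e1, app_zero, app_add, app_sub, app_smul, h1 ℝ _ hmmg, h1 ℝ _ hmg] at e5
      exact e5
    obtain ⟨a, b, hab⟩ := h.simple _ hg1 hg2 e4
    refine ⟨a, b, ?_⟩
    rw [e3, hab]
    have e6 : (fun d => a * z d 0 + b * z d 1) = a • (fun d => z d 0) + b • (fun d => z d 1) := by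
      funext d; simp
    rw [e6, app_add, app_smul, app_smul]
    funext d
    simp only [Pi.add_apply, Pi.smul_apply, smul_eq_mul]
    rw [app_coord, app_coord]

private theorem W1_par {u v : Vec} (hv : v ≠ 0) (h : cr u v = 0) : ∃ μ : ℝ, u = μ • v := by
  have h1 : u 0 * v 1 = u 1 * v 0 := by simp only [cr] at h; linarith
  by_cases h0 : v 0 = 0
  · have h2 : v 1 ≠ 0 := by
      intro h3
      apply hv
      funext j
      fin_cases j
      · exact h0
      · exact h3
    refine ⟨u 1 / v 1, ?_⟩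
    rw [h0, mul_zero] at h1
    have h4 : u 0 = 0 := by
      rcases mul_eq_zero.1 h1 with h5 | h5
      · exact h5
      · exact absurd h5 h2
    funext j
    fin_cases j
    · simp [h4, h0]
    · simp [h2]
  · refine ⟨u 0 / v 0, ?_⟩
    funext j
    fin_cases j
    · simp [h0]
    · simp only [Fin.mk_one, Fin.isValue, Pi.smul_apply, smul_eq_mul]
      field_simp
      linarith

private theorem W1_pow {C : SL(2, ℝ)} {c : Vec} {μ : ℝ} (h : C.1.mulVec c = μ • c) (k : ℕ) :
    (C ^ k).1.mulVec c = μ ^ k • c := by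
  induction k with
  | zero => simp
  | succ k ih =>
    rw [pow_succ, Matrix.SpecialLinearGroup.coe_mul, ← Matrix.mulVec_mulVec, h, Matrix.mulVec_smul,
      ih, smul_smul, pow_succ, mul_comm]

private theorem W1_core_aux {G : Subgroup SL(2, ℝ)} {C : SL(2, ℝ)} (hC : C ∈ G) {c : Vec}
    (hcne : c ≠ 0) {μ : ℝ} (h : C.1.mulVec c = μ • c) (h0 : 0 < μ) (h1 : μ < 1)
    (hfin : ∀ R : ℝ, {v : Vec | (∃ A ∈ G, v = A.1.mulVec c) ∧ nq v ≤ R}.Finite) : False := by
  have hinj : Function.Injective fun k : ℕ => μ ^ k • c := by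
    intro k l hkl
    have h2 : (μ ^ k - μ ^ l) • c = 0 := by
      rw [sub_smul, sub_eq_zero]
      exact hkl
    rcases smul_eq_zero.1 h2 with h3 | h3
    · exact pow_right_injective₀ h0 h1.ne (sub_eq_zero.1 h3)
    · exact absurd h3 hcne
  refine Set.infinite_of_injective_forall_mem hinj (fun k => ?_) (hfin (nq c))
  refine ⟨⟨C ^ k, G.pow_mem hC k, (W1_pow h k).symm⟩, ?_⟩
  have h4 : nq (μ ^ k • c) = (μ ^ k) ^ 2 * nq c := by
    simp only [nq, ip, Pi.smul_apply, smul_eq_mul]; ring
  rw [h4]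
  have h5 : 0 ≤ nq c := by
    simp only [nq, ip]; nlinarith [sq_nonneg (c 0), sq_nonneg (c 1)]
  have h6 : (μ ^ k) ^ 2 ≤ 1 := by
    have : μ ^ k ≤ 1 := pow_le_one₀ h0.le h1.le
    have h7 : 0 ≤ μ ^ k := by positivity
    nlinarith
  nlinarith

/-- An eigenvector of `C` is not a core vector, since the orbits of core vectors are locally
finite. -/
theorem Hyp.core_ne {C : SL(2, ℝ)} (h : Hyp T z m C) (hc : IsCyl T z i c α) :
    cr (C.1.mulVec c) c ≠ 0 := by
  intro h0
  have hz : Geo T z := h.path.geo_left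
  obtain ⟨μ, hμ⟩ := W1_par hc.cne h0
  have hCm : C ∈ aff T z hz := (mem_aff hz C).2 ⟨m, h.path, h.der⟩
  have hdet : C.1 0 0 * C.1 1 1 - C.1 0 1 * C.1 1 0 = 1 := by
    have := C.2
    rwa [Matrix.det_fin_two] at this
  have e0 : C.1 0 0 * c 0 + C.1 0 1 * c 1 = μ * c 0 := by
    have := congrFun hμ 0
    simpa [Matrix.mulVec, dotProduct, Fin.sum_univ_two] using this
  have e1 : C.1 1 0 * c 0 + C.1 1 1 * c 1 = μ * c 1 := by
    have := congrFun hμ 1
    simpa [Matrix.mulVec, dotProduct, Fin.sum_univ_two] using this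
  have htr : C.1.trace = C.1 0 0 + C.1 1 1 := by rw [Matrix.trace_fin_two]
  -- the characteristic equation
  have hchar : μ ^ 2 - C.1.trace * μ + 1 = 0 := by
    have f0 : (μ ^ 2 - C.1.trace * μ + 1) * c 0 = 0 := by
      rw [htr]
      linear_combination (C.1 1 1 - μ) * e0 - C.1 0 1 * e1 - c 0 * hdet
    have f1 : (μ ^ 2 - C.1.trace * μ + 1) * c 1 = 0 := by
      rw [htr]
      linear_combination (C.1 0 0 - μ) * e1 - C.1 1 0 * e0 - c 1 * hdet
    rcases mul_eq_zero.1 f0 with h2 | h2
    · exact h2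
    · rcases mul_eq_zero.1 f1 with h3 | h3
      · exact h3
      · exfalso
        apply hc.cne
        funext j
        fin_cases j
        · exact h2
        · exact h3
  have htr2 := h.tr
  have hpos : 0 < μ := by
    by_contra hneg
    push Not at hneg
    nlinarith [sq_nonneg μ]
  have hne1 : μ ≠ 1 := by
    rintro rfl
    linarith
  rcases lt_or_gt_of_ne hne1 with hlt | hgt
  · exact W1_core_aux hCm hc.cne hμ hpos hlt (fun R => hc.orbit_finite hz R)
  · have hinv : C⁻¹.1.mulVec c = μ⁻¹ • c := by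
      have h4 : C⁻¹.1.mulVec (C.1.mulVec c) = c := by
        rw [Matrix.mulVec_mulVec, ← Matrix.SpecialLinearGroup.coe_mul, inv_mul_cancel,
          Matrix.SpecialLinearGroup.coe_one, Matrix.one_mulVec]
      rw [hμ, Matrix.mulVec_smul] at h4
      rw [← h4, smul_smul, inv_mul_cancel₀ hpos.ne', one_smul, h4]
    exact W1_core_aux ((aff T z hz).inv_mem hCm) hc.cne hinv (inv_pos.2 hpos)
      (inv_lt_one_of_one_lt₀ hgt) (fun R => hc.orbit_finite hz R)

private theorem W1_tau_app {M : Type*} [AddCommGroup M] {T' : Tri D} {m : Matrix D D ℤ}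
    (h : GPath T z T' m) (f : D → M) :
    app m (fun d => f (T.tau d)) = fun d => app m f (T'.tau d) := by
  induction h with
  | refl _ => simp only [app_one]
  | @flip T1 T2 m1 a h hf hg ih =>
    rw [app_mul, app_mul, ih, app_flipM, app_flipM]
    funext d
    have hD : T1.Diag a (T1.tau d) ↔ T1.Diag a d := by
      simp only [Tri.Diag]
      have e1 : T1.tau d = a ↔ d = T1.tau a := by
        constructor
        · rintro rfl; rw [T1.tau2]
        · rintro rfl; rw [T1.tau2]
      have e2 : T1.tau d = T1.opp a ↔ d = T1.tau (T1.opp a) := by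
        constructor
        · intro h; rw [← h, T1.tau2]
        · rintro rfl; rw [T1.tau2]
      have e3 : T1.tau d = T1.tau a ↔ d = a := T1.tau.injective.eq_iff
      have e4 : T1.tau d = T1.tau (T1.opp a) ↔ d = T1.opp a := T1.tau.injective.eq_iff
      rw [e1, e2, e3, e4]
      tauto
    simp only [Tri.flipF, hf.tau, hD, T1.tau_nxt, T1.tau_opp]
  | @relabel T1 m1 e h ih =>
    rw [app_mul, app_mul, ih, app_permM, app_permM]
    funext d
    simp [Tri.relab]

private theorem W1_cyl_tau (hz : Geo T z) (h : IsCyl T z i c α) :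
    IsCyl T z (fun d => i (T.tau d)) (-c) α := by
  have hcoc : IsCoc T (fun d => i (T.tau d)) := by
    constructor
    · intro d
      simp only [T.tau_nxt]
      exact h.coc.closed (T.tau d)
    · intro d
      simp only [T.tau_opp]
      exact h.coc.glue (T.tau d)
  refine ⟨hcoc, ?_, neg_ne_zero.2 h.cne, h.apos, ?_⟩
  · intro j
    have h1 := h.form_eq j
    have h2 : form T (fun e => ((i (T.tau e) : ℤ) : ℝ)) (fun e => z e j) =
        ∑ d, (fun d => -((i d : ℝ) * z (T.nxt d) j - z d j * (i (T.nxt d) : ℝ))) (T.tau d) := by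
      simp only [form]
      refine Finset.sum_congr rfl fun d _ => ?_
      rw [← T.tau_nxt, hz.anti, hz.anti]
      simp only [Pi.neg_apply]
      ring
    rw [h2, Equiv.sum_comp T.tau (fun d => -((i d : ℝ) * z (T.nxt d) j - z d j *
      (i (T.nxt d) : ℝ))), Finset.sum_neg_distrib]
    simp only [form] at h1
    rw [h1]
    simp
  · intro T' m' hp e
    have h3 := h.bound T' m' hp (T'.tau e)
    have h4 : app m' z (T'.tau e) = -app m' z e := hp.geo.anti e
    have h5 : app m' (fun d => i (T.tau d)) e = app m' i (T'.tau e) := by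
      rw [W1_tau_app hp]
    rw [h5]
    rw [h4] at h3
    have h6 : cr (-app m' z e) c = cr (app m' z e) (-c) := by
      simp only [cr, Pi.neg_apply]; ring
    rw [h6] at h3
    exact h3

private theorem W1_cyl_pow {C : SL(2, ℝ)} (hp : GPath T z T m) (hd : app m z = Veech.lin C.1 z)
    (h : IsCyl T z i c α) (k : ℕ) : ∃ c', IsCyl T z (app (m ^ k) i) c' α := by
  induction k with
  | zero => exact ⟨c, by rw [pow_zero, app_one]; exact h⟩
  | succ k ih =>
    obtain ⟨c', hc'⟩ := ih
    exact ⟨_, by rw [pow_succ', app_mul]; exact hc'.move hp hd⟩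

/-- the difference of `i` and its image under the deck transformation -/
private def W1i (T : Tri D) (i : D → ℤ) : D → ℤ := fun d => i d - i (T.tau d)

/-- the real cocycle of `app (m ^ k) i'` -/
private def W1g (T : Tri D) (m : Matrix D D ℤ) (i : D → ℤ) (k : ℕ) : D → ℝ :=
  fun d => ((app (m ^ k) (W1i T i) d : ℤ) : ℝ)

private theorem W1g_succ (T : Tri D) (m : Matrix D D ℤ) (i : D → ℤ) (k : ℕ) :
    app m (W1g T m i k) = W1g T m i (k + 1) := by
  funext d
  change app m (fun d => ((app (m ^ k) (W1i T i) d : ℤ) : ℝ)) d =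
    ((app (m ^ (k + 1)) (W1i T i) d : ℤ) : ℝ)
  rw [app_intCast, pow_succ', app_mul]

private theorem W1g_bound {C : SL(2, ℝ)} (hp : GPath T z T m) (hd : app m z = Veech.lin C.1 z)
    (h : IsCyl T z i c α) (k : ℕ) : ∃ c₁ c₂ : Vec, ∀ T' m', GPath T z T' m' → ∀ e,
      α * |((app m' (app (m ^ k) (W1i T i)) e : ℤ) : ℝ)| ≤
        |cr (app m' z e) c₁| + |cr (app m' z e) c₂| := by
  obtain ⟨c₁, h₁⟩ := W1_cyl_pow hp hd h k
  obtain ⟨c₂, h₂⟩ := W1_cyl_pow hp hd (W1_cyl_tau hp.geo_left h) k
  refine ⟨c₁, c₂, fun T' m' hp' e => ?_⟩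
  have e1 := (h₁.bound T' m' hp' e).2
  have e2 := (h₂.bound T' m' hp' e).2
  have e3 : W1i T i = i - fun d => i (T.tau d) := rfl
  rw [e3, app_sub, app_sub, Pi.sub_apply]
  push_cast
  calc α * |((app m' (app (m ^ k) i) e : ℤ) : ℝ) -
        ((app m' (app (m ^ k) fun d => i (T.tau d)) e : ℤ) : ℝ)| ≤
      α * (|((app m' (app (m ^ k) i) e : ℤ) : ℝ)| +
        |((app m' (app (m ^ k) fun d => i (T.tau d)) e : ℤ) : ℝ)|) := by
        have := h.apos
        gcongr
        exact abs_sub _ _
    _ ≤ _ := by rw [mul_add]; exact add_le_add e1 e2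

/-- anti-invariant cocycles -/
private def W1CA (T : Tri D) : Submodule ℝ (D → ℝ) where
  carrier := {f | IsCoc T f ∧ IsAnti T f}
  zero_mem' := ⟨⟨fun d => by simp, fun d => by simp⟩, fun d => by simp⟩
  add_mem' := by
    rintro f g ⟨⟨hf1, hf2⟩, hf3⟩ ⟨⟨hg1, hg2⟩, hg3⟩
    refine ⟨⟨fun d => ?_, fun d => ?_⟩, fun d => ?_⟩
    · have h1 := hf1 d
      have h2 := hg1 d
      simp only [Pi.add_apply]
      linarith
    · simp only [Pi.add_apply, hf2, hg2]; ring
    · simp only [Pi.add_apply, hf3 d, hg3 d]; ring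
  smul_mem' := by
    rintro r f ⟨⟨hf1, hf2⟩, hf3⟩
    refine ⟨⟨fun d => ?_, fun d => ?_⟩, fun d => ?_⟩
    · have h1 := hf1 d
      simp only [Pi.smul_apply, smul_eq_mul]
      rw [← mul_add, ← mul_add, h1, mul_zero]
    · simp only [Pi.smul_apply, smul_eq_mul, hf2]; ring
    · simp only [Pi.smul_apply, smul_eq_mul, hf3 d]; ring

/-- `app m` as a linear map -/
private def W1app (m : Matrix D D ℤ) : (D → ℝ) →ₗ[ℝ] (D → ℝ) where
  toFun := app m
  map_add' := app_add m
  map_smul' r f := app_smul m r f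

/-- the span of the cocycles -/
private def W1U (T : Tri D) (m : Matrix D D ℤ) (i : D → ℤ) : Submodule ℝ (D → ℝ) :=
  Submodule.span ℝ (Set.range (W1g T m i))

private theorem W1g_mem (hp : GPath T z T m) (hi : IsCoc T i) (k : ℕ) :
    W1g T m i k ∈ W1CA T := by
  have h1 : W1g T m i 0 ∈ W1CA T := by
    have e : W1g T m i 0 = fun d => ((i d : ℤ) : ℝ) - ((i (T.tau d) : ℤ) : ℝ) := by
      funext d; simp [W1g, app_one, W1i]
    rw [e]
    refine ⟨⟨fun d => ?_, fun d => ?_⟩, fun d => ?_⟩
    · have e1 : ((i d + i (T.nxt d) + i (T.nxt (T.nxt d)) : ℤ) : ℝ) = 0 := by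
        rw [hi.closed]; simp
      have e2 : ((i (T.tau d) + i (T.nxt (T.tau d)) + i (T.nxt (T.nxt (T.tau d))) : ℤ) : ℝ) = 0 := by
        rw [hi.closed]; simp
      push_cast at e1 e2
      simp only [T.tau_nxt]
      linarith
    · simp only [T.tau_opp, hi.glue]
      push_cast
      ring
    · simp only [T.tau2]
      ring
  induction k with
  | zero => exact h1
  | succ k ih =>
    rw [← W1g_succ]
    exact ⟨hp.coc ih.1, hp.anti ih.2⟩

private theorem W1U_le (hp : GPath T z T m) (hi : IsCoc T i) : W1U T m i ≤ W1CA T := by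
  refine Submodule.span_le.2 ?_
  rintro _ ⟨k, rfl⟩
  exact W1g_mem hp hi k

private theorem W1U_inv (T : Tri D) (m : Matrix D D ℤ) (i : D → ℤ) {f : D → ℝ}
    (hf : f ∈ W1U T m i) : app m f ∈ W1U T m i := by
  have h1 : (W1U T m i).map (W1app m) ≤ W1U T m i := by
    rw [W1U, Submodule.map_span]
    refine Submodule.span_le.2 ?_
    rintro _ ⟨_, ⟨k, rfl⟩, rfl⟩
    change app m (W1g T m i k) ∈ _
    rw [W1g_succ]
    exact Submodule.subset_span ⟨k + 1, rfl⟩
  exact h1 ⟨f, hf, rfl⟩

/-- the eigenvector in the span -/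
private theorem W1_eigen {C : SL(2, ℝ)} (h : Hyp T z m C) (hc : IsCyl T z i c α) (d₀ : D) {μ : ℝ}
    (hμ : μ ^ 2 - C.1.trace * μ + 1 = 0) (hμ0 : μ ≠ 0) :
    ∃ η : Vec, η ≠ 0 ∧ (fun d => ip η (z d)) ∈ W1U T m i ∧
      ∀ v : Vec, ip η (C.1.mulVec v) = μ⁻¹ * ip η v := by
  have hz : Geo T z := h.path.geo_left
  have hdetC : C.1 0 0 * C.1 1 1 - C.1 0 1 * C.1 1 0 = 1 := by
    have := C.2
    rwa [Matrix.det_fin_two] at this
  have htr : C.1.trace = C.1 0 0 + C.1 1 1 := by rw [Matrix.trace_fin_two]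
  -- left eigenvector
  obtain ⟨ξ, hξ0, hξ⟩ : ∃ ξ : Vec, ξ ≠ 0 ∧ ∀ v : Vec, ip ξ (C.1.mulVec v) = μ * ip ξ v := by
    have hdet : (C.1 - μ • (1 : Matrix (Fin 2) (Fin 2) ℝ)).det = 0 := by
      rw [Matrix.det_fin_two]
      simp
      rw [htr] at hμ
      linear_combination hμ + hdetC
    obtain ⟨ξ, hξ0, hξ⟩ := Matrix.exists_vecMul_eq_zero_iff.2 hdet
    refine ⟨ξ, hξ0, fun v => ?_⟩
    have e0 := congrFun hξ 0
    have e1 := congrFun hξ 1
    simp [Matrix.vecMul, dotProduct, Fin.sum_univ_two] at e0 e1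
    simp only [ip, Matrix.mulVec, dotProduct, Fin.sum_univ_two]
    linear_combination v 0 * e0 + v 1 * e1
  -- the functional
  set x : D → ℝ := fun d => ip ξ (z d) with hx
  have hxe : x = ξ 0 • (fun d => z d 0) + ξ 1 • (fun d => z d 1) := by
    funext d; simp [hx, ip]
  have hcoc0 : IsCoc T (fun d => z d 0) := by
    constructor
    · intro d; have := congrFun (hz.coc.closed d) 0; simpa using this
    · intro d; have := congrFun (hz.coc.glue d) 0; simpa using this
  have hcoc1 : IsCoc T (fun d => z d 1) := by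
    constructor
    · intro d; have := congrFun (hz.coc.closed d) 1; simpa using this
    · intro d; have := congrFun (hz.coc.glue d) 1; simpa using this
  have hxcoc : IsCoc T x := by
    constructor
    · intro d
      have e0 := hcoc0.closed d
      have e1 := hcoc1.closed d
      simp only [hx, ip]
      linear_combination ξ 0 * e0 + ξ 1 * e1
    · intro d
      have e0 := hcoc0.glue d
      have e1 := hcoc1.glue d
      simp only [hx, ip]
      linear_combination ξ 0 * e0 + ξ 1 * e1
  have happx : app m x = μ • x := by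
    rw [hxe, app_add, app_smul, app_smul]
    funext d
    simp only [Pi.add_apply, Pi.smul_apply, smul_eq_mul]
    rw [app_coord, app_coord, h.der]
    have e := hξ (z d)
    simp only [ip] at e
    simp only [Veech.lin]
    linear_combination e
  have hform_smul : ∀ (f : D → ℝ) (r : ℝ), form T f (r • x) = r * form T f x := by
    intro f r
    simp only [form, Pi.smul_apply, smul_eq_mul, Finset.mul_sum]
    refine Finset.sum_congr rfl fun d _ => ?_
    ring
  have hb : ∀ f : D → ℝ, IsCoc T f → μ * form T (app m f) x = form T f x := by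
    intro f hf
    rw [← hform_smul, ← happx, h.path.form hf hxcoc]
  have hb0 : form T (W1g T m i 0) x ≠ 0 := by
    have e1 : W1g T m i 0 = fun d => ((i d : ℤ) : ℝ) - ((i (T.tau d) : ℤ) : ℝ) := by
      funext d; simp [W1g, app_one, W1i]
    have e2 : form T (W1g T m i 0) x =
        ξ 0 * (form T (fun e => (i e : ℝ)) (fun e => z e 0) -
          form T (fun e => ((i (T.tau e) : ℤ) : ℝ)) (fun e => z e 0)) +
        ξ 1 * (form T (fun e => (i e : ℝ)) (fun e => z e 1) -
          form T (fun e => ((i (T.tau e) : ℤ) : ℝ)) (fun e => z e 1)) := by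
      rw [e1]
      simp only [form, hx, ip, ← Finset.sum_sub_distrib, Finset.mul_sum,
        ← Finset.sum_add_distrib]
      refine Finset.sum_congr rfl fun d _ => ?_
      ring
    have e3 := W1_cyl_tau hz hc
    rw [e2, hc.form_eq, hc.form_eq, e3.form_eq, e3.form_eq]
    have e4 : ξ 0 * (6 * c 0 - 6 * (-c) 0) + ξ 1 * (6 * c 1 - 6 * (-c) 1) = 12 * ip ξ c := by
      simp only [ip, Pi.neg_apply]; ring
    rw [e4]
    intro e5
    have e6 : ip ξ c = 0 := by linarith
    have e7 : ip ξ (C.1.mulVec c) = 0 := by rw [hξ, e6, mul_zero]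
    apply h.core_ne hc
    simp only [ip] at e6 e7
    -- ξ ≠ 0 is orthogonal to both
    have f0 : ξ 0 * cr (C.1.mulVec c) c = 0 := by
      simp only [cr]
      linear_combination c 1 * e7 - (C.1.mulVec c) 1 * e6
    have f1 : ξ 1 * cr (C.1.mulVec c) c = 0 := by
      simp only [cr]
      linear_combination (C.1.mulVec c) 0 * e6 - c 0 * e7
    by_contra hne
    apply hξ0
    funext j
    fin_cases j
    · rcases mul_eq_zero.1 f0 with g | g
      · exact g
      · exact absurd g hne
    · rcases mul_eq_zero.1 f1 with g | g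
      · exact g
      · exact absurd g hne
  -- an eigenvector in `U`
  obtain ⟨f, hfU, hf0, hfe⟩ : ∃ f ∈ W1U T m i, f ≠ 0 ∧ app m f = μ⁻¹ • f := by
    let ψ : W1U T m i →ₗ[ℝ] W1U T m i :=
      (W1app m - μ⁻¹ • LinearMap.id).restrict (p := W1U T m i) (q := W1U T m i) (by
        intro f hf
        change app m f - μ⁻¹ • f ∈ _
        exact Submodule.sub_mem _ (W1U_inv T m i hf) (Submodule.smul_mem _ _ hf))
    by_contra hcon
    push Not at hcon
    have hinj : Function.Injective ψ := by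
      rw [← LinearMap.ker_eq_bot, LinearMap.ker_eq_bot']
      intro f hf
      by_contra hne
      refine hcon f.1 f.2 (fun h => hne (Subtype.ext h)) ?_
      have e := congrArg Subtype.val hf
      change app m f.1 - μ⁻¹ • f.1 = 0 at e
      exact sub_eq_zero.1 e
    have hsurj := LinearMap.injective_iff_surjective.1 hinj
    obtain ⟨g, hg⟩ := hsurj ⟨W1g T m i 0, Submodule.subset_span ⟨0, rfl⟩⟩
    have e := congrArg Subtype.val hg
    change app m g.1 - μ⁻¹ • g.1 = W1g T m i 0 at e
    apply hb0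
    rw [← e]
    have hgc := (W1U_le h.path hc.coc g.2).1
    have e2 : form T (app m g.1 - μ⁻¹ • g.1) x = form T (app m g.1) x - μ⁻¹ * form T g.1 x := by
      simp only [form, Pi.sub_apply, Pi.smul_apply, smul_eq_mul, Finset.mul_sum,
        ← Finset.sum_sub_distrib]
      refine Finset.sum_congr rfl fun d _ => ?_
      ring
    rw [e2, ← hb g.1 hgc, ← mul_assoc, inv_mul_cancel₀ hμ0, one_mul, sub_self]
  have hfCA := W1U_le h.path hc.coc hfU
  obtain ⟨a, b, hab⟩ := h.simple f hfCA.1 hfCA.2 (by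
    rw [hfe, app_smul, hfe, smul_smul, smul_smul, ← sub_smul]
    have e : (μ⁻¹ * μ⁻¹ - C.1.trace * μ⁻¹) = -1 := by
      field_simp
      linear_combination hμ
    rw [e, neg_smul, one_smul, neg_add_cancel])
  refine ⟨![a, b], ?_, ?_, ?_⟩
  · intro h0
    apply hf0
    have ha : a = 0 := by simpa using congrFun h0 0
    have hb' : b = 0 := by simpa using congrFun h0 1
    rw [hab, ha, hb']
    funext d
    simp
  · have e : (fun d => ip ![a, b] (z d)) = f := by
      rw [hab]; funext d; simp [ip]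
    rw [e]
    exact hfU
  · -- the eigenvalue equation holds on all `z d`
    have e1 : ∀ d, ip ![a, b] (C.1.mulVec (z d)) = μ⁻¹ * ip ![a, b] (z d) := by
      intro d
      have e2 : f = a • (fun d => z d 0) + b • (fun d => z d 1) := by
        rw [hab]; funext d; simp
      have e3 := congrFun hfe d
      rw [e2, app_add, app_smul, app_smul] at e3
      simp only [Pi.add_apply, Pi.smul_apply, smul_eq_mul] at e3
      rw [app_coord, app_coord, h.der] at e3
      simp only [ip, Matrix.cons_val_zero, Matrix.cons_val_one]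
      exact e3
    have e4 : ∃ ζ : Vec, ∀ v : Vec, ip ζ v = ip ![a, b] (C.1.mulVec v) - μ⁻¹ * ip ![a, b] v := by
      refine ⟨![a * C.1 0 0 + b * C.1 1 0 - μ⁻¹ * a, a * C.1 0 1 + b * C.1 1 1 - μ⁻¹ * b],
        fun v => ?_⟩
      simp only [ip, Matrix.mulVec, dotProduct, Fin.sum_univ_two, Matrix.cons_val_zero,
        Matrix.cons_val_one]
      ring
    obtain ⟨ζ, hζ⟩ := e4
    have g0 : ip ζ (z d₀) = 0 := by rw [hζ, e1, sub_self]
    have g1 : ip ζ (z (T.nxt d₀)) = 0 := by rw [hζ, e1, sub_self]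
    have hcr := (hz.pos d₀).ne'
    simp only [ip] at g0 g1
    have k0 : ζ 0 = 0 := by
      have : ζ 0 * cr (z d₀) (z (T.nxt d₀)) = 0 := by
        simp only [cr]
        linear_combination z (T.nxt d₀) 1 * g0 - z d₀ 1 * g1
      exact (mul_eq_zero.1 this).resolve_right hcr
    have k1 : ζ 1 = 0 := by
      have : ζ 1 * cr (z d₀) (z (T.nxt d₀)) = 0 := by
        simp only [cr]
        linear_combination z d₀ 0 * g1 - z (T.nxt d₀) 0 * g0
      exact (mul_eq_zero.1 this).resolve_right hcr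
    intro v
    have := hζ v
    simp only [ip, k0, k1, zero_mul, add_zero] at this
    simp only [ip]
    linarith

/-- Proof. Let `i' e = i e - i (tau e)`, `i_k = app m^k i'`, an integral cocycle with
`|i_k v| ≤ 2 |cr v (C^{-k} c)| / α` for all edge vectors `v`. Let `U` be the real span of the `i_k`,
`k ≥ 0`. Let `x = ξ · z`, `ξ` a left eigenvector of `C` with the eigenvalue `λ` (one of the two
eigenvalues). The functional `b f = form f x` satisfies `b (app m f) = λ⁻¹ b f` and `b i' = 12 ξ · c ≠ 0`. So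
`app m - λ⁻¹` is not surjective on `U`, hence not injective on `U`, so `U` contains an eigenvector for
`λ⁻¹`, which by `simple` is a multiple of the coordinate of `z` for `λ⁻¹`. So the coordinates of `z` are
fixed real combinations of finitely many `i_k`; these take only finitely many values on
edge vectors of bounded length. -/
theorem Hyp.edges_finite {C : SL(2, ℝ)} (h : Hyp T z m C) (hc : IsCyl T z i c α) (R : ℝ) :
    {v ∈ edges T z | nq v ≤ R}.Finite := by
  have hD : Nonempty D := by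
    by_contra hD
    rw [not_nonempty_iff] at hD
    apply hc.cne
    funext j
    have := hc.form_eq j
    simp only [form, Finset.univ_eq_empty, Finset.sum_empty] at this
    simp only [Pi.zero_apply]
    linarith
  obtain ⟨d₀⟩ := hD
  have htr := h.tr
  -- the eigenvalues
  obtain ⟨μ, hμ, hμ1⟩ : ∃ μ : ℝ, μ ^ 2 - C.1.trace * μ + 1 = 0 ∧ 1 < μ := by
    refine ⟨(C.1.trace + Real.sqrt (C.1.trace ^ 2 - 4)) / 2, ?_, ?_⟩
    · have hs : Real.sqrt (C.1.trace ^ 2 - 4) ^ 2 = C.1.trace ^ 2 - 4 :=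
        Real.sq_sqrt (by nlinarith)
      linear_combination hs / 4
    · have := Real.sqrt_nonneg (C.1.trace ^ 2 - 4)
      linarith
  have hμ0 : μ ≠ 0 := by linarith
  obtain ⟨η₁, h1ne, h1U, h1e⟩ := W1_eigen h hc d₀ hμ hμ0
  obtain ⟨η₂, h2ne, h2U, h2e⟩ := W1_eigen h hc d₀ (μ := μ⁻¹) (by
    field_simp
    linear_combination hμ) (inv_ne_zero hμ0)
  rw [inv_inv] at h2e
  have hΔ : cr η₁ η₂ ≠ 0 := by
    intro h0
    obtain ⟨r, hr⟩ := W1_par h2ne h0
    have hr0 : r ≠ 0 := by
      rintro rfl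
      apply h1ne
      rw [hr, zero_smul]
    have e1 : ∀ v, ip η₁ v = r * ip η₂ v := by
      intro v
      rw [hr]
      simp only [ip, Pi.smul_apply, smul_eq_mul]
      ring
    have e2 : ip η₂ η₂ ≠ 0 := by
      intro e3
      simp only [ip] at e3
      apply h2ne
      funext j
      fin_cases j
      · change η₂ 0 = 0; nlinarith [sq_nonneg (η₂ 0), sq_nonneg (η₂ 1)]
      · change η₂ 1 = 0; nlinarith [sq_nonneg (η₂ 0), sq_nonneg (η₂ 1)]
    have e3 := h1e η₂
    rw [e1, e1, h2e] at e3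
    have e4 : r * ip η₂ η₂ * (μ - μ⁻¹) = 0 := by linear_combination e3
    rcases mul_eq_zero.1 e4 with e5 | e5
    · exact (mul_ne_zero hr0 e2) e5
    · have : μ⁻¹ < 1 := inv_lt_one_of_one_lt₀ hμ1
      linarith
  have hzU : ∀ j : Fin 2, (fun d => z d j) ∈ W1U T m i := by
    intro j
    fin_cases j
    · have e : (fun d => z d 0) = ((cr η₁ η₂)⁻¹ * η₂ 1) • (fun d => ip η₁ (z d)) +
          (-((cr η₁ η₂)⁻¹ * η₁ 1)) • (fun d => ip η₂ (z d)) := by
        funext d
        simp only [Pi.add_apply, Pi.smul_apply, smul_eq_mul]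
        have : z d 0 = (cr η₁ η₂)⁻¹ * (cr η₁ η₂ * z d 0) := by
          rw [← mul_assoc, inv_mul_cancel₀ hΔ, one_mul]
        rw [this]
        have e' : cr η₁ η₂ * z d 0 = η₂ 1 * ip η₁ (z d) - η₁ 1 * ip η₂ (z d) := by
          simp only [cr, ip]; ring
        rw [e']
        ring
      change (fun d => z d 0) ∈ _
      rw [e]
      exact Submodule.add_mem _ (Submodule.smul_mem _ _ h1U) (Submodule.smul_mem _ _ h2U)
    · have e : (fun d => z d 1) = (-((cr η₁ η₂)⁻¹ * η₂ 0)) • (fun d => ip η₁ (z d)) +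
          ((cr η₁ η₂)⁻¹ * η₁ 0) • (fun d => ip η₂ (z d)) := by
        funext d
        simp only [Pi.add_apply, Pi.smul_apply, smul_eq_mul]
        have : z d 1 = (cr η₁ η₂)⁻¹ * (cr η₁ η₂ * z d 1) := by
          rw [← mul_assoc, inv_mul_cancel₀ hΔ, one_mul]
        rw [this]
        have e' : cr η₁ η₂ * z d 1 = -(η₂ 0 * ip η₁ (z d)) + η₁ 0 * ip η₂ (z d) := by
          simp only [cr, ip]; ring
        rw [e']
        ring
      change (fun d => z d 1) ∈ _
      rw [e]
      exact Submodule.add_mem _ (Submodule.smul_mem _ _ h1U) (Submodule.smul_mem _ _ h2U)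
  -- coefficients
  have hcoef : ∀ j : Fin 2, ∃ r : ℕ →₀ ℝ, (r.sum fun k a => a • W1g T m i k) = fun d => z d j :=
    fun j => (Finsupp.mem_span_range_iff_exists_finsupp).1 (hzU j)
  choose r hr using hcoef
  choose c₁ c₂ hbd using fun k => W1g_bound h.path h.der hc k
  -- the set of indices
  set K : Finset ℕ := (r 0).support ∪ (r 1).support with hK
  -- bounds
  have hcrb : ∀ v u : Vec, nq v ≤ R → |cr v u| ≤ Real.sqrt (R * nq u) := by
    intro v u hv
    apply Real.abs_le_sqrt
    have h1 : cr v u ^ 2 ≤ nq v * nq u := by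
      simp only [cr, nq, ip]
      nlinarith [sq_nonneg (v 0 * u 0 + v 1 * u 1)]
    have h2 : 0 ≤ nq u := by
      simp only [nq, ip]; nlinarith [sq_nonneg (u 0), sq_nonneg (u 1)]
    exact h1.trans (mul_le_mul_of_nonneg_right hv h2)
  let B : ℕ → ℤ := fun k => ⌈(Real.sqrt (R * nq (c₁ k)) + Real.sqrt (R * nq (c₂ k))) / α⌉
  have hfinbox : {n : K → ℤ | ∀ k, |n k| ≤ B k}.Finite := by
    refine (Set.finite_Icc (fun k : K => -B k) (fun k : K => B k)).subset ?_
    intro n hn
    exact ⟨fun k => (abs_le.1 (hn k)).1, fun k => (abs_le.1 (hn k)).2⟩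
  refine (hfinbox.image fun n : K → ℤ =>
    (fun j => ∑ k : K, r j k * (n k : ℝ) : Vec)).subset ?_
  rintro v ⟨⟨T', m', e, hp', rfl⟩, hv⟩
  refine ⟨fun k => app m' (app (m ^ (k : ℕ)) (W1i T i)) e, ?_, ?_⟩
  · intro k
    have h1 := hbd k T' m' hp' e
    have h2 : |((app m' (app (m ^ (k : ℕ)) (W1i T i)) e : ℤ) : ℝ)| ≤
        (Real.sqrt (R * nq (c₁ k)) + Real.sqrt (R * nq (c₂ k))) / α := by
      rw [le_div_iff₀ hc.apos, mul_comm]
      exact h1.trans (add_le_add (hcrb _ _ hv) (hcrb _ _ hv))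
    have h3 := h2.trans (Int.le_ceil _)
    exact_mod_cast h3
  · funext j
    change ∑ k : K, r j k * ((app m' (app (m ^ (k : ℕ)) (W1i T i)) e : ℤ) : ℝ) = app m' z e j
    rw [← app_coord, ← hr j, Finsupp.sum, app_sum]
    have hsub : (r j).support ⊆ K := by
      fin_cases j
      · exact Finset.subset_union_left
      · exact Finset.subset_union_right
    rw [Finset.sum_coe_sort K (fun k => r j k *
      ((app m' (app (m ^ k) (W1i T i)) e : ℤ) : ℝ))]
    rw [← Finset.sum_subset hsub (fun k _ hk => by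
      rw [Finsupp.notMem_support_iff.1 hk, zero_mul])]
    rw [Finset.sum_apply]
    refine Finset.sum_congr rfl fun k _ => ?_
    rw [app_smul, Pi.smul_apply, smul_eq_mul]
    congr 1
    change _ = app m' (fun d => ((app (m ^ k) (W1i T i) d : ℤ) : ℝ)) e
    rw [app_intCast]

end Pool.Veech
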