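import Pool.Agent.Lib.MP_fceebd_gt.MK3
import Pool.Agent.Lib.MP_fceebd_gt.W1

/-! # Row P1: the eigenvectors of a pseudo-Anosov mapping class are unique -/

set_option autoImplicit false

open scoped MatrixGroups

namespace Pool.Veech

/-- `flow s` as an element of `SL2` -/
noncomputable def flowSL (s : ℝ) : SL(2, ℝ) := ⟨flow s, by
  rw [flow, Matrix.det_fin_two_of, mul_zero, sub_zero, ← Real.exp_add, add_neg_cancel,
    Real.exp_zero]⟩

theorem IsAxis.exists_path {g : ℕ} {f : SurfGroup g ≃* SurfGroup g} {X : MS g}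
    (h : IsAxis f X) : ∃ s : ℝ, 0 < s ∧ ∃ m, LPath (X.S.relab f) (X.S.act (flow s) (flow_det s)) m := by
  obtain ⟨s, hs, h⟩ := h
  exact ⟨s, hs, (sameSurf_iff _ _).1 h⟩

private theorem P1a_margin {n : ℕ} (z : Fin n → Vec) (u : Vec) :
    ∃ δ : ℝ, 0 < δ ∧ ∀ z' : Fin n → Vec, (∀ d i, |z' d i - z d i| < δ) →
      ∀ d, (0 < cr (z d) u → 0 < cr (z' d) u) ∧ (0 < cr u (z d) → 0 < cr u (z' d)) := by
  have key : ∀ d, ∃ δ : ℝ, 0 < δ ∧ ∀ v : Vec, (∀ i, |v i - z d i| < δ) →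
      (0 < cr (z d) u → 0 < cr v u) ∧ (0 < cr u (z d) → 0 < cr u v) := by
    intro d
    by_cases h0 : cr (z d) u = 0
    · refine ⟨1, one_pos, fun v _ => ⟨fun h => absurd h0 h.ne', fun h => ?_⟩⟩
      have : cr u (z d) = - cr (z d) u := by simp only [cr]; ring
      rw [this, h0, neg_zero] at h
      exact absurd h (lt_irrefl _)
    · have hM : 0 < |u 0| + |u 1| + 1 := by positivity
      refine ⟨|cr (z d) u| / (|u 0| + |u 1| + 1), div_pos (abs_pos.2 h0) hM, fun v hv => ?_⟩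
      have h1 : |cr v u - cr (z d) u| < |cr (z d) u| := by
        have e : cr v u - cr (z d) u = (v 0 - z d 0) * u 1 - (v 1 - z d 1) * u 0 := by
          simp only [cr]; ring
        rw [e]
        set η := |cr (z d) u| / (|u 0| + |u 1| + 1) with hη
        have hηpos : 0 < η := div_pos (abs_pos.2 h0) hM
        have a1 : |(v 0 - z d 0) * u 1| ≤ η * |u 1| := by
          rw [abs_mul]; exact mul_le_mul_of_nonneg_right (hv 0).le (abs_nonneg _)
        have a2 : |(v 1 - z d 1) * u 0| ≤ η * |u 0| := by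
          rw [abs_mul]; exact mul_le_mul_of_nonneg_right (hv 1).le (abs_nonneg _)
        have a3 : |(v 0 - z d 0) * u 1 - (v 1 - z d 1) * u 0| ≤ η * |u 1| + η * |u 0| :=
          (abs_sub _ _).trans (add_le_add a1 a2)
        have a4 : η * (|u 0| + |u 1| + 1) = |cr (z d) u| := by
          rw [hη]; field_simp
        nlinarith
      have h2 := abs_lt.1 h1
      constructor
      · intro hp
        rw [abs_of_pos hp] at h2
        linarith [h2.1]
      · intro hp
        have e1 : cr u (z d) = - cr (z d) u := by simp only [cr]; ring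
        have e2 : cr u v = - cr v u := by simp only [cr]; ring
        rw [e1] at hp
        have hneg : cr (z d) u < 0 := by linarith
        rw [abs_of_neg hneg] at h2
        rw [e2]
        linarith [h2.2]
  choose δ hδ hk using key
  rcases Nat.eq_zero_or_pos n with hn | hn
  · subst hn
    exact ⟨1, one_pos, fun _ _ d => d.elim0⟩
  · haveI : Nonempty (Fin n) := ⟨⟨0, hn⟩⟩
    obtain ⟨d₀, hd₀⟩ := Finite.exists_min δ
    exact ⟨δ d₀, hδ d₀, fun z' hz' d => hk d (z' d) fun i => (hz' d i).trans_le (hd₀ d)⟩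

/-- `Singular` is an open condition on the holonomies. -/
theorem Surf.Singular.stable {G : Type} [Group G] {n : ℕ} {S : Surf G (Fin n)}
    (h : S.Singular) : ∃ δ : ℝ, 0 < δ ∧ ∀ (z' : Fin n → Vec) (hz : Geo S.tri z'),
      (∀ d i, |z' d i - S.z d i| < δ) → (S.withZ z' hz).Singular := by
  obtain ⟨u, hu⟩ := h
  obtain ⟨δ, hδ, hk⟩ := P1a_margin S.z u
  refine ⟨δ, hδ, fun z' hz hcl => ⟨u, fun d => ?_⟩⟩
  obtain ⟨i, j, hij, h1, h2⟩ := hu d
  have hk' := hk z' hcl
  exact ⟨i, j, hij, ⟨(hk' _).1 h1.1, (hk' _).2 h1.2⟩, ⟨(hk' _).1 h2.1, (hk' _).2 h2.2⟩⟩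

/-- Replace the holonomies of `X` by `z'` close to those of `X`, such that `app m z' = flow s z'`: this
is again an axis of `f`. -/
theorem IsAxis.perturb {g : ℕ} {f : SurfGroup g ≃* SurfGroup g} {X : MS g} {s : ℝ} (hs : 0 < s)
    {m : Matrix (Fin X.n) (Fin X.n) ℤ}
    (hm : LPath (X.S.relab f) (X.S.act (flow s) (flow_det s)) m) :
    ∃ δ : ℝ, 0 < δ ∧ ∀ z' : Fin X.n → Vec, IsCoc X.S.tri z' → IsAnti X.S.tri z' →
      (∀ d i, |z' d i - X.S.z d i| < δ) → app m z' = lin (flow s) z' →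
      ∃ (h : Geo X.S.tri z') (Y : MS g), Y.toSigma = ⟨X.n, X.S.withZ z' h⟩ ∧ IsAxis f Y := by
  obtain ⟨δ₁, hδ₁, hp⟩ := hm.stable
  obtain ⟨δ₂, hδ₂, hsing⟩ := X.sing.stable
  refine ⟨min δ₁ δ₂, lt_min hδ₁ hδ₂, fun z' hc ha hcl hfl => ?_⟩
  obtain ⟨h1, h2, hpath⟩ := hp z' hc ha fun d i => (hcl d i).trans_le (min_le_left _ _)
  have hg : Geo X.S.tri z' := h1
  have hs' := hsing z' hg fun d i => (hcl d i).trans_le (min_le_right _ _)
  refine ⟨hg, ⟨X.n, X.S.withZ z' hg, X.pos, X.conn, hs', Surf.IsMarking.congr X.mark rfl rfl,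
    X.orient⟩, rfl, s, hs, ?_⟩
  refine (sameSurf_iff _ _).2 ⟨m, ?_⟩
  have e : (X.S.act (flow s) (flow_det s)).withZ (app m z') h2 =
      (X.S.withZ z' hg).act (flow s) (flow_det s) := Surf.ext' rfl rfl rfl hfl rfl
  rw [e] at hpath
  exact hpath

end Pool.Veech
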