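import Pool.Agent.Lib.MP_fceebd_gt.P1a

/-! # Row P1: the eigenvectors of a pseudo-Anosov mapping class are unique -/

set_option autoImplicit false

open scoped MatrixGroups

namespace Pool.Veech

private theorem P1b_pigeon {α : Type} [Countable α] {ε₀ : ℝ} (hε : 0 < ε₀) (F : ℝ → α) :
    ∃ x y, x ∈ Set.Ioo 0 ε₀ ∧ y ∈ Set.Ioo 0 ε₀ ∧ x ≠ y ∧ F x = F y := by
  by_contra hcon
  push Not at hcon
  have hinj : Set.InjOn F (Set.Ioo 0 ε₀) := by
    intro x hx y hy hxy
    by_contra hne
    exact hcon x y hx hy hne hxy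
  have hc : (Set.Ioo 0 ε₀).Countable := by
    have : (F '' Set.Ioo 0 ε₀).Countable := Set.to_countable _
    exact Set.countable_of_injective_of_countable_image hinj this
  have h0 : MeasureTheory.volume (Set.Ioo (0 : ℝ) ε₀) = 0 := hc.measure_zero _
  rw [Real.volume_Ioo] at h0
  simp only [sub_zero, ENNReal.ofReal_eq_zero] at h0
  linarith

private theorem P1b_bound {n : ℕ} (f₀ : Fin n → ℝ) {δ : ℝ} (hδ : 0 < δ) :
    ∃ ε₀ : ℝ, 0 < ε₀ ∧ ∀ ε ∈ Set.Ioo 0 ε₀, ∀ d, |ε * f₀ d| < δ := by
  refine ⟨δ / (1 + ∑ d, |f₀ d|), ?_, ?_⟩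
  · have : 0 ≤ ∑ d, |f₀ d| := Finset.sum_nonneg fun _ _ => abs_nonneg _
    positivity
  · intro ε hε d
    have h1 : |f₀ d| ≤ ∑ d, |f₀ d| :=
      Finset.single_le_sum (f := fun d => |f₀ d|) (fun _ _ => abs_nonneg _) (Finset.mem_univ d)
    have h2 : 0 ≤ ∑ d, |f₀ d| := Finset.sum_nonneg fun _ _ => abs_nonneg _
    rw [abs_mul, abs_of_pos hε.1]
    have h3 : ε * (1 + ∑ d, |f₀ d|) < δ := by
      have := hε.2
      rwa [lt_div_iff₀ (by positivity)] at this
    have h4 : ε * |f₀ d| ≤ ε * (1 + ∑ d, |f₀ d|) :=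
      mul_le_mul_of_nonneg_left (by linarith) hε.1.le
    linarith

/-- the general statement, for the coordinate `j` -/
private theorem P1b_main {g : ℕ} {f : SurfGroup g ≃* SurfGroup g}
    (hf : IsPseudoAnosov f) {X : MS g} {s : ℝ} (hs : 0 < s)
    {m : Matrix (Fin X.n) (Fin X.n) ℤ}
    (hm : LPath (X.S.relab f) (X.S.act (flow s) (flow_det s)) m) {f₀ : Fin X.n → ℝ} (j : Fin 2)
    (h1 : IsCoc X.S.tri f₀) (h2 : IsAnti X.S.tri f₀)
    (h3 : app m f₀ = (flow s j j) • f₀) :
    ∃ a : ℝ, f₀ = fun d => a * X.S.z d j := by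
  obtain ⟨δ, hδ, hpert⟩ := IsAxis.perturb hs hm
  obtain ⟨ε₀, hε₀, hbd⟩ := P1b_bound f₀ hδ
  have hX : IsAxis f X := ⟨s, hs, (sameSurf_iff _ _).2 ⟨m, hm⟩⟩
  have hz : app m X.S.z = lin (flow s) X.S.z := by
    have := hm.z_eq
    exact this.symm
  have key : ∀ ε ∈ Set.Ioo 0 ε₀, ∃ (m' : Matrix (Fin X.n) (Fin X.n) ℤ) (a : ℝ), 0 < a ∧
      ∀ d, X.S.z d j + ε * f₀ d = a * app m' X.S.z d j := by
    intro ε hε
    set z' : Fin X.n → Vec := fun d i => X.S.z d i + if i = j then ε * f₀ d else 0 with hz'
    have hc : IsCoc X.S.tri z' := by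
      constructor
      · intro d
        funext i
        have e1 := congrFun (X.S.geo.coc.closed d) i
        have e2 := h1.closed d
        simp only [Pi.add_apply, Pi.zero_apply, hz'] at e1 ⊢
        split_ifs
        · linear_combination e1 + ε * e2
        · linear_combination e1
      · intro d
        funext i
        have e1 := congrFun (X.S.geo.coc.glue d) i
        have e2 := h1.glue d
        simp only [Pi.neg_apply, hz'] at e1 ⊢
        split_ifs
        · linear_combination e1 + ε * e2
        · linear_combination e1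
    have ha : IsAnti X.S.tri z' := by
      intro d
      funext i
      have e1 := congrFun (X.S.geo.anti d) i
      have e2 := h2 d
      simp only [Pi.neg_apply, hz'] at e1 ⊢
      split_ifs
      · linear_combination e1 + ε * e2
      · linear_combination e1
    have hclose : ∀ d i, |z' d i - X.S.z d i| < δ := by
      intro d i
      simp only [hz']
      split_ifs
      · have := hbd ε hε d
        rwa [add_sub_cancel_left]
      · rw [add_zero, sub_self, abs_zero]; exact hδ
    have hflow : app m z' = lin (flow s) z' := by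
      funext d i
      have e1 := congrFun (congrFun hz d) i
      have e2 := congrFun h3 d
      have e3 : app m z' d i = app m X.S.z d i + if i = j then ε * app m f₀ d else 0 := by
        rw [← app_coord, ← app_coord]
        have : (fun e => z' e i) = (fun e => X.S.z e i) + (if i = j then ε else 0) • f₀ := by
          funext e
          simp only [hz', Pi.add_apply, Pi.smul_apply, smul_eq_mul]
          split_ifs <;> ring
        rw [this, app_add, app_smul, Pi.add_apply, Pi.smul_apply, smul_eq_mul]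
        split_ifs <;> ring
      rw [e3, e1, e2]
      simp only [lin, flow, Matrix.mulVec, dotProduct, Fin.sum_univ_two, hz', Pi.smul_apply,
        smul_eq_mul]
      fin_cases i <;> fin_cases j <;> simp <;> ring
    obtain ⟨hg, Y, hY, hax⟩ := hpert z' hc ha hclose hflow
    obtain ⟨a, b, ha', hb', hsame⟩ := hf.2 X Y hX hax
    have hsame2 : SameSurf ⟨X.n, X.S.withZ z' hg⟩
        ⟨X.n, X.S.act !![a, 0; 0, b]
          (by rw [Matrix.det_fin_two_of]; simpa using mul_pos ha' hb')⟩ := by
      have : (⟨Y.n, Y.S⟩ : Σ n, Surf (SurfGroup g) (Fin n)) = ⟨X.n, X.S.withZ z' hg⟩ := hY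
      rw [← this]
      exact hsame
    obtain ⟨m', hm'⟩ := (sameSurf_iff _ _).1 (Relation.EqvGen.symm _ _ hsame2)
    have hz2 : z' = app m' (lin !![a, 0; 0, b] X.S.z) := hm'.z_eq
    refine ⟨m', if j = 0 then a else b, by split_ifs <;> assumption, fun d => ?_⟩
    have e := congrFun (congrFun hz2 d) j
    rw [app_lin] at e
    have e' : z' d j = X.S.z d j + ε * f₀ d := by simp [hz']
    rw [← e', e]
    simp only [lin, Matrix.mulVec, dotProduct, Fin.sum_univ_two]
    fin_cases j <;> simp
  -- pigeonhole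
  classical
  choose! F A hA hFA using key
  haveI : Countable (Matrix (Fin X.n) (Fin X.n) ℤ) :=
    inferInstanceAs (Countable (Fin X.n → Fin X.n → ℤ))
  obtain ⟨x, y, hx, hy, hxy, hF⟩ := P1b_pigeon hε₀ F
  -- some coordinate is not zero
  have hne : ∃ d, X.S.z d j ≠ 0 := by
    let d₀ : Fin X.n := ⟨0, X.pos⟩
    have hp := X.S.pos d₀
    by_contra hall
    push Not at hall
    have e1 := hall d₀
    have e2 := hall (X.S.nxt d₀)
    simp only [cr] at hp
    fin_cases j
    · simp only [Fin.zero_eta, Fin.isValue] at e1 e2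
      rw [e1, e2] at hp; simp at hp
    · simp only [Fin.mk_one, Fin.isValue] at e1 e2
      rw [e1, e2] at hp; simp at hp
  have ex := hFA x hx
  have ey := hFA y hy
  rw [← hF] at ey
  have hlin : ∀ d, (A y - A x) * X.S.z d j = (A x * y - A y * x) * f₀ d := by
    intro d
    linear_combination A y * ex d - A x * ey d
  by_cases h0 : A x * y - A y * x = 0
  · obtain ⟨d, hd⟩ := hne
    have h5 : (A y - A x) * X.S.z d j = 0 := by rw [hlin d, h0, zero_mul]
    have h6 : A y = A x := by
      rcases mul_eq_zero.1 h5 with h | h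
      · linarith
      · exact absurd h hd
    rw [h6] at h0
    have h7 : A x * (y - x) = 0 := by linear_combination h0
    rcases mul_eq_zero.1 h7 with h | h
    · exact absurd h (hA x hx).ne'
    · exact absurd (by linarith) hxy
  · refine ⟨(A y - A x) / (A x * y - A y * x), ?_⟩
    funext d
    have := hlin d
    field_simp
    linarith

/-- Proof. Otherwise let `z' = (z 0 + ε f₀, z 1)` for small `ε`: this is an axis by
`IsAxis.perturb`, so by uniqueness there are `a, b > 0` and an integral matrix `m'` (with the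
relabelling) with `z 0 + ε f₀ = a • app m' (z 0)`. There are uncountably many `ε` and countably many
`m'`, so two values of `ε` have the same `m'`; this implies that `f₀` is a multiple of `z 0`. -/
theorem IsPseudoAnosov.simple_left {g : ℕ} {f : SurfGroup g ≃* SurfGroup g}
    (hf : IsPseudoAnosov f) {X : MS g} {s : ℝ} (hs : 0 < s)
    {m : Matrix (Fin X.n) (Fin X.n) ℤ}
    (hm : LPath (X.S.relab f) (X.S.act (flow s) (flow_det s)) m) {f₀ : Fin X.n → ℝ}
    (h1 : IsCoc X.S.tri f₀) (h2 : IsAnti X.S.tri f₀) (h3 : app m f₀ = Real.exp s • f₀) :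
    ∃ a : ℝ, f₀ = fun d => a * X.S.z d 0 :=
  P1b_main hf hs hm 0 h1 h2 (by simpa [flow] using h3)

theorem IsPseudoAnosov.simple_right {g : ℕ} {f : SurfGroup g ≃* SurfGroup g}
    (hf : IsPseudoAnosov f) {X : MS g} {s : ℝ} (hs : 0 < s)
    {m : Matrix (Fin X.n) (Fin X.n) ℤ}
    (hm : LPath (X.S.relab f) (X.S.act (flow s) (flow_det s)) m) {f₀ : Fin X.n → ℝ}
    (h1 : IsCoc X.S.tri f₀) (h2 : IsAnti X.S.tri f₀) (h3 : app m f₀ = Real.exp (-s) • f₀) :
    ∃ a : ℝ, f₀ = fun d => a * X.S.z d 1 :=
  P1b_main hf hs hm 1 h1 h2 (by simpa [flow] using h3)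

theorem IsPseudoAnosov.hyp {g : ℕ} {f : SurfGroup g ≃* SurfGroup g}
    (hf : IsPseudoAnosov f) {X : MS g} {s : ℝ} (hs : 0 < s)
    {m : Matrix (Fin X.n) (Fin X.n) ℤ}
    (hm : LPath (X.S.relab f) (X.S.act (flow s) (flow_det s)) m) :
    Hyp X.S.tri X.S.z m (flowSL s) := by
  have hp : GPath X.S.tri X.S.z X.S.tri m := hm.gpath
  have hz : app m X.S.z = lin (flow s) X.S.z := hm.z_eq.symm
  have htr : (flowSL s).1.trace = Real.exp s + Real.exp (-s) := by
    simp [flowSL, flow, Matrix.trace_fin_two]
  have hmul : Real.exp s * Real.exp (-s) = 1 := by rw [← Real.exp_add]; simp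
  have hgt : 1 < Real.exp s := by
    have := Real.add_one_lt_exp hs.ne'
    linarith
  have hpos := Real.exp_pos (-s)
  refine ⟨hp, hz, ?_, ?_⟩
  · rw [htr]
    nlinarith [mul_self_nonneg (Real.exp s - 1)]
  · intro f₀ hc ha he
    rw [htr] at he
    have hc' := hp.coc hc
    have ha' := hp.anti ha
    have e : ∀ d, app m (app m f₀) d = (Real.exp s + Real.exp (-s)) * app m f₀ d - f₀ d := by
      intro d
      have := congrFun he d
      simp only [Pi.add_apply, Pi.sub_apply, Pi.smul_apply, smul_eq_mul, Pi.zero_apply] at this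
      linarith
    have hlinc : ∀ r : ℝ, IsCoc X.S.tri (app m f₀ - r • f₀) := by
      intro r
      constructor
      · intro d
        have h1 := hc.closed d
        have h2 := hc'.closed d
        simp only [Pi.sub_apply, Pi.smul_apply, smul_eq_mul]
        linear_combination h2 - r * h1
      · intro d
        have h1 := hc.glue d
        have h2 := hc'.glue d
        simp only [Pi.sub_apply, Pi.smul_apply, smul_eq_mul]
        linear_combination h2 - r * h1
    have hlina : ∀ r : ℝ, IsAnti X.S.tri (app m f₀ - r • f₀) := by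
      intro r d
      have h1 := ha d
      have h2 := ha' d
      simp only [Pi.sub_apply, Pi.smul_apply, smul_eq_mul]
      linear_combination h2 - r * h1
    obtain ⟨a, hA⟩ := hf.simple_left hs hm (hlinc (Real.exp (-s))) (hlina _) (by
      funext d
      rw [app_sub, app_smul]
      simp only [Pi.sub_apply, Pi.smul_apply, smul_eq_mul]
      rw [e d]
      linear_combination (f₀ d) * hmul)
    obtain ⟨b, hB⟩ := hf.simple_right hs hm (hlinc (Real.exp s)) (hlina _) (by
      funext d
      rw [app_sub, app_smul]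
      simp only [Pi.sub_apply, Pi.smul_apply, smul_eq_mul]
      rw [e d]
      linear_combination (f₀ d) * hmul)
    have hne : Real.exp s - Real.exp (-s) ≠ 0 := by
      have : Real.exp (-s) < 1 := by
        rw [Real.exp_lt_one_iff]; linarith
      linarith
    refine ⟨a / (Real.exp s - Real.exp (-s)), -b / (Real.exp s - Real.exp (-s)), ?_⟩
    funext d
    have hA' := congrFun hA d
    have hB' := congrFun hB d
    simp only [Pi.sub_apply, Pi.smul_apply, smul_eq_mul] at hA' hB'
    field_simp
    linarith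

end Pool.Veech
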