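import Pool.Agent.Lib.MP_fceebd_gt.P1b
import Pool.Agent.Lib.MP_fceebd_gt.J2a

/-! # Row P2: algebraic coordinates -/

set_option autoImplicit false

open Polynomial
open scoped MatrixGroups

namespace Pool.Veech

variable {D : Type} [Fintype D] [DecidableEq D]

/-- the matrix of the affine map in the algebraic coordinates; `σ = 1` or `σ = - 1` -/
noncomputable def Cmat (σ : ℤ) (t : ℝ) : Matrix (Fin 2) (Fin 2) ℝ := !![0, σ; -σ, t]

/-- the holonomies with algebraic coordinates -/
noncomputable def polyZ (Z : D → Fin 2 → ℤ[X]) (t : ℝ) : D → Vec := fun d j => aeval t (Z d j)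

/-- Algebraic data: `p` is monic, `p (t) = 0`, the holonomies are integral polynomials in `t`, the
affine map with the matrix `m` has the derivative `Cmat`, `N` is a denominator for the cross
products: `N * crK (Z d) (Z d') = U d d' * area` at `t`. -/
structure AlgData (T : Tri D) (p : ℤ[X]) (t : ℝ) (Z : D → Fin 2 → ℤ[X]) (σ : ℤ)
    (m : Matrix D D ℤ) (N : ℕ) : Prop where
  monic : p.Monic
  root : aeval t p = 0
  ht : 2 < t
  hσ : σ = 1 ∨ σ = -1
  geo : Geo T (polyZ Z t)
  path : GPath T (polyZ Z t) T m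
  der : app m (polyZ Z t) = lin (Cmat σ t) (polyZ Z t)
  Npos : 0 < N
  int : ∀ d d', ∃ U : ℤ[X], (N : ℝ) * cr (polyZ Z t d) (polyZ Z t d') =
    aeval t U * area T (polyZ Z t)

private theorem P2a_Cmat (σ : ℤ) (hσ : σ = 1 ∨ σ = -1) (t : ℝ) :
    Cmat σ t * Cmat σ t = t • Cmat σ t - 1 := by
  have h : (σ : ℝ) * σ = 1 := by
    rcases hσ with rfl | rfl <;> norm_num
  ext i j
  fin_cases i <;> fin_cases j
  · simp [Cmat, Matrix.mul_apply, Fin.sum_univ_two, h]
  · simp [Cmat, Matrix.mul_apply, Fin.sum_univ_two, mul_comm]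
  · simp [Cmat, Matrix.mul_apply, Fin.sum_univ_two]
  · simp [Cmat, Matrix.mul_apply, Fin.sum_univ_two, h]
    ring

/-- Let `K = ℚ(t)` (for instance `IntermediateField.adjoin ℚ {t}`), a number field of degree at most
the degree of `p`. -/
theorem AlgData.arith [Nonempty D] {T : Tri D} {p : ℤ[X]} {t : ℝ} {Z : D → Fin 2 → ℤ[X]} {σ : ℤ}
    {m : Matrix D D ℤ} {N : ℕ} (h : AlgData T p t Z σ m N) :
    ∃ (K : Type) (_ : Field K) (_ : NumberField K) (ι : K →+* ℝ) (zK : D → Fin 2 → K) (tK : K),
      ι tK = t ∧ Arith T (polyZ Z t) ι zK m tK N ∧ Module.finrank ℚ K ≤ p.natDegree := by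
  have hintZ : IsIntegral ℤ t := ⟨p, h.monic, h.root⟩
  have hint : IsIntegral ℚ t := hintZ.tower_top
  let K := IntermediateField.adjoin ℚ {t}
  have hfd : FiniteDimensional ℚ K := IntermediateField.adjoin.finiteDimensional hint
  have hnf : NumberField K := { to_charZero := inferInstance, to_finiteDimensional := hfd }
  let ι : K →+* ℝ := algebraMap K ℝ
  let tK : K := IntermediateField.AdjoinSimple.gen ℚ t
  have hι : ι tK = t := IntermediateField.AdjoinSimple.algebraMap_gen ℚ t
  have hιinj : Function.Injective ι := ι.injective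
  let zK : D → Fin 2 → K := fun d j => aeval tK (Z d j)
  have hev : ∀ q : ℤ[X], ι (aeval tK q) = aeval t q := by
    intro q
    rw [← hι]
    exact (Polynomial.aeval_algebraMap_apply ℝ tK q).symm
  have hzK : ∀ d j, ι (zK d j) = polyZ Z t d j := fun d j => hev (Z d j)
  have hcr : ∀ d d', ι (crK (zK d) (zK d')) = cr (polyZ Z t d) (polyZ Z t d') := by
    intro d d'
    unfold crK cr
    rw [map_sub, map_mul, map_mul, hzK, hzK, hzK, hzK]
  have harea : ι (∑ e, crK (zK e) (zK (T.nxt e))) = area T (polyZ Z t) := by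
    unfold area
    rw [map_sum]
    exact Finset.sum_congr rfl fun e _ => hcr _ _
  have happ : ∀ f : D → Fin 2 → K, (fun d j => ι (app m f d j)) =
      app m (fun d j => ι (f d j)) := by
    intro f
    funext d j
    unfold app
    rw [Finset.sum_apply, Finset.sum_apply, map_sum]
    refine Finset.sum_congr rfl fun e _ => ?_
    rw [Pi.smul_apply, Pi.smul_apply, map_zsmul]
  have hzfun : (fun d j => ι (zK d j)) = polyZ Z t := by
    funext d j; exact hzK d j
  refine ⟨K, inferInstance, hnf, ι, zK, tK, hι, ?_, ?_⟩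
  · refine ⟨fun d j => (hzK d j).symm, h.path, ?_, ?_, h.Npos, ?_, ⟨⟨Cmat σ t, ?_⟩, h.der⟩⟩
    · -- the quadratic equation
      have e1 : (fun d j => ι (app m zK d j)) = lin (Cmat σ t) (polyZ Z t) := by
        rw [happ, hzfun, h.der]
      have e2 : (fun d j => ι (app m (app m zK) d j)) =
          lin (Cmat σ t * Cmat σ t) (polyZ Z t) := by
        rw [happ, e1, app_lin, h.der, lin_lin]
      funext d j
      apply hιinj
      have h1 := congrFun (congrFun e1 d) j
      have h2 := congrFun (congrFun e2 d) j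
      change ι (app m (app m zK) d j - tK * app m zK d j + zK d j) = ι 0
      rw [map_add, map_sub, map_mul, h1, h2, hι, hzK, map_zero, P2a_Cmat σ h.hσ]
      simp only [lin, Matrix.sub_mulVec, Matrix.smul_mulVec, Matrix.one_mulVec, Pi.sub_apply,
        Pi.smul_apply, smul_eq_mul]
      ring
    · intro σ' τ' hστ
      have h1 : σ'.toRatAlgHom = τ'.toRatAlgHom := by
        apply IntermediateField.adjoin_algHom_ext ℚ
        intro x hx
        rw [Set.mem_singleton_iff] at hx
        subst hx
        exact hστ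
      ext x
      exact congrArg (fun f : K →ₐ[ℚ] ℂ => f x) h1
    · intro d d'
      obtain ⟨U, hU⟩ := h.int d d'
      have hne : (∑ e, crK (zK e) (zK (T.nxt e))) ≠ 0 := by
        intro h0
        rw [h0, map_zero] at harea
        exact h.geo.area_pos.ne harea
      have h2 : (N : K) * crK (zK d) (zK d') / ∑ e, crK (zK e) (zK (T.nxt e)) = aeval tK U := by
        rw [div_eq_iff hne]
        apply hιinj
        rw [map_mul, map_mul, hcr, harea, hev, map_natCast]
        exact hU
      rw [h2]
      have h3 : IsIntegral ℤ tK := by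
        refine ⟨p, h.monic, ?_⟩
        apply hιinj
        rw [map_zero, ← h.root, ← hev p]
        rfl
      exact IsIntegral.of_mem_of_fg (Algebra.adjoin ℤ {tK}) h3.fg_adjoin_singleton _
        (aeval_mem_adjoin_singleton ℤ tK)
    · rcases h.hσ with hs | hs <;> subst hs <;> simp [Cmat, Matrix.det_fin_two_of]
  · change Module.finrank ℚ (IntermediateField.adjoin ℚ {t}) ≤ _
    rw [IntermediateField.adjoin.finrank hint]
    have hp : (p.map (algebraMap ℤ ℚ)).Monic := h.monic.map _
    have h4 : aeval t (p.map (algebraMap ℤ ℚ)) = 0 := by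
      rw [aeval_map_algebraMap]; exact h.root
    have h5 : minpoly ℚ t ∣ p.map (algebraMap ℤ ℚ) := minpoly.dvd _ _ h4
    refine (natDegree_le_of_dvd h5 hp.ne_zero).trans ?_
    exact natDegree_map_le

end Pool.Veech
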