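import Pool.Agent.Lib.MP_fceebd_gt.P2a

/-! # Row P2: algebraic coordinates -/

set_option autoImplicit false

open Polynomial
open scoped MatrixGroups

namespace Pool.Veech

variable {D : Type} [Fintype D] [DecidableEq D]

/-- the linear system -/
private structure P2b_Sol (T : Tri D) (m : Matrix D D ℤ) (t : ℝ) (f : D → ℝ) : Prop where
  coc : IsCoc T f
  anti : IsAnti T f
  eq : app m (app m f) - t • app m f + f = 0

/-- solutions with values in `K` -/
private structure P2b_SolK (T : Tri D) (m : Matrix D D ℤ) (t : ℝ) (K : IntermediateField ℚ ℝ)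
    (f : D → ℝ) : Prop extends P2b_Sol T m t f where
  val : ∀ d, f d ∈ K

private theorem P2b_coord {T : Tri D} {m : Matrix D D ℤ} {t : ℝ} {K : IntermediateField ℚ ℝ}
    (ht : t ∈ K) {f : D → ℝ} (h : P2b_Sol T m t f) (φ : ℝ →ₗ[K] K) :
    P2b_SolK T m t K (fun d => (φ (f d) : ℝ)) := by
  let ψ : ℝ →+ ℝ := (K.val : K →+ ℝ).comp φ.toAddMonoidHom
  have hψ : ∀ x, ψ x = (φ x : ℝ) := fun _ => rfl
  have hψt : ∀ x, ψ (t * x) = t * ψ x := by
    intro x
    have h1 : t * x = (⟨t, ht⟩ : K) • x := rfl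
    rw [hψ, hψ, h1, map_smul]
    rfl
  refine ⟨⟨⟨fun d => ?_, fun d => ?_⟩, fun d => ?_, ?_⟩, fun d => (φ (f d)).2⟩
  · change ψ (f d) + ψ (f _) + ψ (f _) = 0
    rw [← map_add, ← map_add, h.coc.closed, map_zero]
  · change ψ (f _) = -ψ (f _)
    rw [h.coc.glue, map_neg]
  · change ψ (f _) = -ψ (f _)
    rw [h.anti, map_neg]
  · have e1 : app m (fun d => (φ (f d) : ℝ)) = fun d => ψ (app m f d) := by
      funext d
      exact app_map m f ψ d
    have e2 : app m (app m (fun d => (φ (f d) : ℝ))) = fun d => ψ (app m (app m f) d) := by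
      rw [e1]
      funext d
      exact app_map m (app m f) ψ d
    funext d
    rw [e2, e1]
    change ψ (app m (app m f) d) - t * ψ (app m f d) + ψ (f d) = 0
    rw [← hψt, ← map_sub, ← map_add]
    have h2 := congrFun h.eq d
    change app m (app m f) d - t * app m f d + f d = 0 at h2
    rw [h2, map_zero]

private theorem P2b_span {T : Tri D} {m : Matrix D D ℤ} {t : ℝ} {K : IntermediateField ℚ ℝ}
    (ht : t ∈ K) {f : D → ℝ} (h : P2b_Sol T m t f) :
    f ∈ Submodule.span ℝ {g | P2b_SolK T m t K g} := by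
  classical
  let b := Module.Basis.ofVectorSpace K ℝ
  let S := Finset.univ.biUnion (fun d => (b.repr (f d)).support)
  have hf : f = ∑ i ∈ S, (b i : ℝ) • fun d => ((b.coord i (f d) : K) : ℝ) := by
    funext d
    rw [Finset.sum_apply]
    have hsub : (b.repr (f d)).support ⊆ S :=
      Finset.subset_biUnion_of_mem (fun d => (b.repr (f d)).support) (Finset.mem_univ d)
    have h1 : (b.repr (f d)).sum (fun i c => c • b i) = ∑ i ∈ S, (b.repr (f d) i) • b i :=
      Finsupp.sum_of_support_subset _ hsub _ (fun i _ => zero_smul _ _)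
    conv_lhs => rw [← b.linearCombination_repr (f d), Finsupp.linearCombination_apply, h1]
    refine Finset.sum_congr rfl fun i _ => ?_
    change ((b.repr (f d) i : K) : ℝ) * b i = b i * ((b.repr (f d) i : K) : ℝ)
    ring
  rw [hf]
  exact Submodule.sum_mem _ fun i _ => Submodule.smul_mem _ _
    (Submodule.subset_span (P2b_coord ht h (b.coord i)))

/-- common denominators -/
private theorem P2b_den {t : ℝ} (ht : IsIntegral ℚ t) {x : ℝ}
    (hx : x ∈ IntermediateField.adjoin ℚ {t}) :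
    ∃ M : ℕ, 0 < M ∧ ∃ q : ℤ[X], (M : ℝ) * x = aeval t q := by
  have hx' : x ∈ (IntermediateField.adjoin ℚ {t}).toSubalgebra := hx
  rw [IntermediateField.adjoin_simple_toSubalgebra_of_isAlgebraic ht.isAlgebraic] at hx'
  clear hx
  induction hx' using Algebra.adjoin_induction with
  | mem y hy =>
    rw [Set.mem_singleton_iff] at hy
    exact ⟨1, one_pos, X, by rw [hy, aeval_X]; simp⟩
  | algebraMap r =>
    refine ⟨r.den, r.pos, C r.num, ?_⟩
    rw [aeval_C]
    simp only [eq_ratCast, algebraMap_int_eq, eq_intCast]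
    have := Rat.den_mul_eq_num r
    exact_mod_cast this
  | add y z _ _ hy hz =>
    obtain ⟨M, hM, q, hq⟩ := hy
    obtain ⟨M', hM', q', hq'⟩ := hz
    refine ⟨M * M', Nat.mul_pos hM hM', (M' : ℤ[X]) * q + (M : ℤ[X]) * q', ?_⟩
    rw [map_add, map_mul, map_mul, ← hq, ← hq', map_natCast, map_natCast]
    push_cast
    ring
  | mul y z _ _ hy hz =>
    obtain ⟨M, hM, q, hq⟩ := hy
    obtain ⟨M', hM', q', hq'⟩ := hz
    refine ⟨M * M', Nat.mul_pos hM hM', q * q', ?_⟩
    rw [map_mul, ← hq, ← hq']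
    push_cast
    ring

private theorem P2b_den_fin {ι : Type} [Fintype ι] [DecidableEq ι] {t : ℝ} (ht : IsIntegral ℚ t)
    {x : ι → ℝ} (hx : ∀ i, x i ∈ IntermediateField.adjoin ℚ {t}) :
    ∃ M : ℕ, 0 < M ∧ ∃ q : ι → ℤ[X], ∀ i, (M : ℝ) * x i = aeval t (q i) := by
  choose M hM q hq using fun i => P2b_den ht (hx i)
  refine ⟨∏ i, M i, Finset.prod_pos fun i _ => hM i,
    fun i => ((∏ j ∈ Finset.univ.erase i, M j : ℕ) : ℤ[X]) * q i, fun i => ?_⟩
  rw [map_mul, ← hq, map_natCast, ← Finset.prod_erase_mul _ _ (Finset.mem_univ i)]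
  push_cast
  ring

/-- the polarized `2 × 2` minors of `(f, m f)` -/
private def P2b_B (m : Matrix D D ℤ) (d d' : D) (f g : D → ℝ) : ℝ :=
  f d * app m g d' + g d * app m f d' - f d' * app m g d - g d' * app m f d

private theorem P2b_B_add (m : Matrix D D ℤ) (d d' : D) (f f' g : D → ℝ) :
    P2b_B m d d' (f + f') g = P2b_B m d d' f g + P2b_B m d d' f' g := by
  unfold P2b_B
  rw [app_add]
  simp only [Pi.add_apply]
  ring

private theorem P2b_B_smul (m : Matrix D D ℤ) (d d' : D) (a : ℝ) (f g : D → ℝ) :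
    P2b_B m d d' (a • f) g = a * P2b_B m d d' f g := by
  unfold P2b_B
  rw [app_smul]
  simp only [Pi.smul_apply, smul_eq_mul]
  ring

private theorem P2b_B_symm (m : Matrix D D ℤ) (d d' : D) (f g : D → ℝ) :
    P2b_B m d d' f g = P2b_B m d d' g f := by
  unfold P2b_B
  ring

private theorem P2b_B_zero (m : Matrix D D ℤ) (d d' : D) (g : D → ℝ) :
    P2b_B m d d' 0 g = 0 := by
  unfold P2b_B
  rw [app_zero]
  simp only [Pi.zero_apply]
  ring

private theorem P2b_Sol.add {T : Tri D} {m : Matrix D D ℤ} {t : ℝ} {f g : D → ℝ}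
    (hf : P2b_Sol T m t f) (hg : P2b_Sol T m t g) : P2b_Sol T m t (f + g) := by
  refine ⟨⟨fun d => ?_, fun d => ?_⟩, fun d => ?_, ?_⟩
  · have h1 := hf.coc.closed d
    have h2 := hg.coc.closed d
    simp only [Pi.add_apply]
    linear_combination h1 + h2
  · simp only [Pi.add_apply]
    rw [hf.coc.glue, hg.coc.glue]
    ring
  · simp only [Pi.add_apply]
    rw [hf.anti, hg.anti]
    ring
  · rw [app_add, app_add]
    have h1 := hf.eq
    have h2 := hg.eq
    calc _ = (app m (app m f) - t • app m f + f) + (app m (app m g) - t • app m g + g) := by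
          rw [smul_add]; abel
      _ = 0 := by rw [h1, h2, add_zero]

/-- if the minors of all solutions over `K` vanish, then so do those of the real solutions -/
private theorem P2b_minors {T : Tri D} {m : Matrix D D ℤ} {t : ℝ} {K : IntermediateField ℚ ℝ}
    (ht : t ∈ K) (d d' : D)
    (hall : ∀ e, P2b_SolK T m t K e → P2b_B m d d' e e = 0) {f : D → ℝ}
    (hf : P2b_Sol T m t f) : P2b_B m d d' f f = 0 := by
  have h1 : ∀ e e', P2b_SolK T m t K e → P2b_SolK T m t K e' → P2b_B m d d' e e' = 0 := by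
    intro e e' he he'
    have h2 : P2b_SolK T m t K (e + e') :=
      ⟨he.toP2b_Sol.add he'.toP2b_Sol, fun d => K.add_mem (he.val d) (he'.val d)⟩
    have h3 := hall _ h2
    have h4 := hall _ he
    have h5 := hall _ he'
    rw [P2b_B_add, P2b_B_symm, P2b_B_add, P2b_B_symm m d d' e' (e + e'), P2b_B_add,
      h4, h5, P2b_B_symm m d d' e' e] at h3
    linarith
  have h2 : ∀ g ∈ Submodule.span ℝ {g | P2b_SolK T m t K g}, ∀ e, P2b_SolK T m t K e →
      P2b_B m d d' g e = 0 := by
    intro g hg e he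
    induction hg using Submodule.span_induction with
    | mem x hx => exact h1 x e hx he
    | zero => exact P2b_B_zero m d d' e
    | add x y _ _ hx hy => rw [P2b_B_add, hx, hy, add_zero]
    | smul a x _ hx => rw [P2b_B_smul, hx, mul_zero]
  have h3 : ∀ g ∈ Submodule.span ℝ {g | P2b_SolK T m t K g},
      ∀ g' ∈ Submodule.span ℝ {g | P2b_SolK T m t K g}, P2b_B m d d' g' g = 0 := by
    intro g hg g' hg'
    induction hg' using Submodule.span_induction with
    | mem x hx => rw [P2b_B_symm]; exact h2 g hg x hx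
    | zero => exact P2b_B_zero m d d' g
    | add x y _ _ hx hy => rw [P2b_B_add, hx, hy, add_zero]
    | smul a x _ hx => rw [P2b_B_smul, hx, mul_zero]
  exact h3 f (P2b_span ht hf) f (P2b_span ht hf)

/-- the combination `ξ · z` -/
private def P2b_pair (ξ : Vec) (z : D → Vec) : D → ℝ := fun d => ξ 0 * z d 0 + ξ 1 * z d 1

private theorem P2b_app_pair (m : Matrix D D ℤ) (ξ : Vec) (z : D → Vec) :
    app m (P2b_pair ξ z) = P2b_pair ξ (app m z) := by
  have h1 : P2b_pair ξ z = (ξ 0) • (fun e => z e 0) + (ξ 1) • (fun e => z e 1) := rfl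
  rw [h1, app_add, app_smul, app_smul]
  funext d
  change ξ 0 * app m (fun e => z e 0) d + ξ 1 * app m (fun e => z e 1) d = _
  rw [app_coord, app_coord]
  rfl

private theorem P2b_pair_lin (ξ : Vec) (A : Matrix (Fin 2) (Fin 2) ℝ) (z : D → Vec) :
    P2b_pair ξ (lin A z) = P2b_pair (Matrix.vecMul ξ A) z := by
  funext d
  simp only [P2b_pair, lin, Matrix.mulVec, Matrix.vecMul, dotProduct, Fin.sum_univ_two]
  ring

private theorem P2b_pair_sol {T : Tri D} {z : D → Vec} {m : Matrix D D ℤ} {C : SL(2, ℝ)}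
    (h : Hyp T z m C) (hz : Geo T z) (ξ : Vec) : P2b_Sol T m C.1.trace (P2b_pair ξ z) := by
  refine ⟨⟨fun d => ?_, fun d => ?_⟩, fun d => ?_, ?_⟩
  · have h1 := congrFun (hz.coc.closed d) 0
    have h2 := congrFun (hz.coc.closed d) 1
    simp only [Pi.add_apply, Pi.zero_apply] at h1 h2
    simp only [P2b_pair]
    linear_combination ξ 0 * h1 + ξ 1 * h2
  · simp only [P2b_pair, hz.coc.glue, Pi.neg_apply]
    ring
  · simp only [P2b_pair, hz.anti d, Pi.neg_apply]
    ring
  · have hdet : C.1 0 0 * C.1 1 1 - C.1 0 1 * C.1 1 0 = 1 := by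
      rw [← Matrix.det_fin_two]; exact C.2
    have e1 : app m (P2b_pair ξ z) = P2b_pair ξ (lin C.1 z) := by
      rw [P2b_app_pair, h.der]
    have e2 : app m (app m (P2b_pair ξ z)) = P2b_pair ξ (lin C.1 (lin C.1 z)) := by
      rw [e1, P2b_app_pair, app_lin, h.der]
    rw [e2, e1]
    funext d
    simp only [P2b_pair, lin, Matrix.mulVec, dotProduct, Fin.sum_univ_two, Matrix.trace_fin_two,
      Pi.add_apply, Pi.sub_apply, Pi.smul_apply, smul_eq_mul, Pi.zero_apply]
    linear_combination -(ξ 0 * z d 0 + ξ 1 * z d 1) * hdet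

private theorem P2b_B_pair {z : D → Vec} {m : Matrix D D ℤ} {A : Matrix (Fin 2) (Fin 2) ℝ}
    (h : app m z = lin A z) (ξ : Vec) (d d' : D) :
    P2b_B m d d' (P2b_pair ξ z) (P2b_pair ξ z) =
      2 * (ξ 0 * Matrix.vecMul ξ A 1 - ξ 1 * Matrix.vecMul ξ A 0) * cr (z d) (z d') := by
  unfold P2b_B
  rw [P2b_app_pair, h, P2b_pair_lin]
  simp only [P2b_pair, cr]
  ring

/-- `C` is not a scalar matrix -/
private theorem P2b_not_scalar {C : SL(2, ℝ)} (htr : 2 < C.1.trace) :
    ¬ (C.1 0 1 = 0 ∧ C.1 1 0 = 0 ∧ C.1 0 0 = C.1 1 1) := by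
  rintro ⟨h1, h2, h3⟩
  have hdet : C.1 0 0 * C.1 1 1 - C.1 0 1 * C.1 1 0 = 1 := by
    rw [← Matrix.det_fin_two]; exact C.2
  rw [Matrix.trace_fin_two] at htr
  rw [h1, h2, h3] at hdet
  rw [h3] at htr
  nlinarith

/-- a solution over `K` which is not an eigenvector -/
private theorem P2b_exists [Nonempty D] {T : Tri D} {z : D → Vec} {m : Matrix D D ℤ}
    {C : SL(2, ℝ)} (h : Hyp T z m C) (hz : Geo T z) {K : IntermediateField ℚ ℝ}
    (ht : C.1.trace ∈ K) :
    ∃ ξ : Vec, P2b_SolK T m C.1.trace K (P2b_pair ξ z) ∧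
      ξ 0 * Matrix.vecMul ξ C.1 1 - ξ 1 * Matrix.vecMul ξ C.1 0 ≠ 0 := by
  by_contra hcon
  push Not at hcon
  have h1 : ∀ d d' e, P2b_SolK T m C.1.trace K e → P2b_B m d d' e e = 0 := by
    intro d d' e he
    obtain ⟨a, b, hab⟩ := h.simple e he.coc he.anti he.eq
    have h2 : e = P2b_pair ![a, b] z := hab
    have h3 := hcon ![a, b] (h2 ▸ he)
    rw [h2, P2b_B_pair h.der, h3, mul_zero, zero_mul]
  obtain ⟨d⟩ := ‹Nonempty D›
  have h2 : ∀ ξ : Vec, ξ 0 * Matrix.vecMul ξ C.1 1 - ξ 1 * Matrix.vecMul ξ C.1 0 = 0 := by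
    intro ξ
    have h3 := P2b_minors ht d (T.nxt d) (h1 d (T.nxt d)) (P2b_pair_sol h hz ξ)
    rw [P2b_B_pair h.der] at h3
    have h4 := hz.pos d
    rcases mul_eq_zero.1 h3 with h5 | h5
    · linarith
    · exact absurd h5 h4.ne'
  apply P2b_not_scalar h.tr
  have a1 := h2 ![1, 0]
  have a2 := h2 ![0, 1]
  have a3 := h2 ![1, 1]
  simp [Matrix.vecMul, dotProduct, Fin.sum_univ_two] at a1 a2 a3
  refine ⟨a1, a2, ?_⟩
  linarith

private theorem P2b_eig [Nonempty D] {T : Tri D} {z : D → Vec} {m : Matrix D D ℤ}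
    {C : SL(2, ℝ)} (h : Hyp T z m C) (hz : Geo T z) {lam mu : ℝ} (h1 : lam + mu = C.1.trace)
    (h2 : lam * mu = 1) : IsIntegral ℤ lam := by
  -- an eigenvector
  have hex : ∃ g : D → ℝ, g ≠ 0 ∧ app m g = lam • g := by
    by_contra hcon
    push Not at hcon
    have h3 : ∀ ξ : Vec, ∀ d, app m (P2b_pair ξ z) d - mu * P2b_pair ξ z d = 0 := by
      intro ξ
      by_contra h4
      have h5 : app m (P2b_pair ξ z) - mu • P2b_pair ξ z ≠ 0 := by
        intro h6
        apply h4
        intro d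
        exact congrFun h6 d
      apply hcon _ h5
      rw [app_sub, app_smul]
      have h6 := (P2b_pair_sol h hz ξ).eq
      rw [← h1] at h6
      have h7 : app m (app m (P2b_pair ξ z)) = (lam + mu) • app m (P2b_pair ξ z) -
          P2b_pair ξ z := by
        rw [← sub_eq_zero]
        rw [← h6]
        abel
      rw [h7]
      funext d
      simp only [Pi.sub_apply, Pi.smul_apply, smul_eq_mul]
      linear_combination P2b_pair ξ z d * h2
    obtain ⟨d⟩ := ‹Nonempty D›
    have hpos := hz.pos d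
    unfold cr at hpos
    have key : ∀ ξ : Vec, Matrix.vecMul ξ C.1 0 = mu * ξ 0 ∧ Matrix.vecMul ξ C.1 1 = mu * ξ 1 := by
      intro ξ
      have h4 := h3 ξ d
      have h5 := h3 ξ (T.nxt d)
      rw [P2b_app_pair, h.der, P2b_pair_lin] at h4 h5
      simp only [P2b_pair] at h4 h5
      have h6 : (Matrix.vecMul ξ C.1 0 - mu * ξ 0) *
          (z d 0 * z (T.nxt d) 1 - z d 1 * z (T.nxt d) 0) = 0 := by
        linear_combination z (T.nxt d) 1 * h4 - z d 1 * h5
      have h7 : (Matrix.vecMul ξ C.1 1 - mu * ξ 1) *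
          (z d 0 * z (T.nxt d) 1 - z d 1 * z (T.nxt d) 0) = 0 := by
        linear_combination z d 0 * h5 - z (T.nxt d) 0 * h4
      rcases mul_eq_zero.1 h6 with h8 | h8
      · rcases mul_eq_zero.1 h7 with h9 | h9
        · exact ⟨by linarith, by linarith⟩
        · exact absurd h9 hpos.ne'
      · exact absurd h8 hpos.ne'
    have a1 := key ![1, 0]
    have a2 := key ![0, 1]
    simp [Matrix.vecMul, dotProduct, Fin.sum_univ_two] at a1 a2
    exact P2b_not_scalar h.tr ⟨a1.2, a2.1, a1.1.trans a2.2.symm⟩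
  obtain ⟨g, hg, hg'⟩ := hex
  rw [app_mulVec] at hg'
  have hdet : (Matrix.scalar D lam - m.map (Int.cast : ℤ → ℝ)).det = 0 := by
    rw [← Matrix.exists_mulVec_eq_zero_iff]
    refine ⟨g, hg, ?_⟩
    rw [Matrix.sub_mulVec, hg', sub_eq_zero]
    simp
  refine ⟨m.charpoly, m.charpoly_monic, ?_⟩
  have h3 : (m.map (Int.cast : ℤ → ℝ)).charpoly = m.charpoly.map (Int.castRingHom ℝ) :=
    Matrix.charpoly_map m (Int.castRingHom ℝ)
  rw [← Matrix.eval_charpoly, h3, eval_map] at hdet
  exact hdet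

private theorem P2b_trace_integral [Nonempty D] {T : Tri D} {z : D → Vec} {m : Matrix D D ℤ}
    {C : SL(2, ℝ)} (h : Hyp T z m C) (hz : Geo T z) : IsIntegral ℤ C.1.trace := by
  set t := C.1.trace with ht
  have htr := h.tr
  rw [← ht] at htr
  have hs : Real.sqrt (t ^ 2 - 4) ^ 2 = t ^ 2 - 4 := Real.sq_sqrt (by nlinarith)
  set s := Real.sqrt (t ^ 2 - 4)
  have h1 := P2b_eig h hz (lam := (t + s) / 2) (mu := (t - s) / 2) (by rw [← ht]; ring)
    (by linear_combination -hs / 4)
  have h2 := P2b_eig h hz (lam := (t - s) / 2) (mu := (t + s) / 2) (by rw [← ht]; ring)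
    (by linear_combination -hs / 4)
  have h3 := h1.add h2
  have h4 : (t + s) / 2 + (t - s) / 2 = t := by ring
  rwa [h4] at h3

/-- Existence of algebraic coordinates. The eigenvalues `λ`, `λ⁻¹` of `C` are eigenvalues of the
integral matrix `m` (acting on functions on `D`, `app_mulVec`), so they and their sum `t` are
algebraic integers. The solutions `f : D → ℝ` of the cocycle and anti-invariance equations and of
`m² f - t m f + f = 0` are spanned by the two coordinates of `z` (`Hyp.simple`). This is a linear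
system over `K = ℚ(t)`, so it has two independent solutions over `K` (write a real solution as a
linear combination of solutions over `K` with coefficients which are linearly independent
over `K`). For a suitable combination `e` of these, `e` and `m e` are independent (`e` is not an
eigenvector); take `(e, ± m e)`, with the sign such that the map from `z` to it has positive
determinant, and multiply by a positive integer, so that all values are integral
polynomials in `t`. `p` is the minimal polynomial of `t`. -/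
theorem Hyp.exists_alg [Nonempty D] {T : Tri D} {z : D → Vec} {m : Matrix D D ℤ} {C : SL(2, ℝ)}
    (h : Hyp T z m C) (hz : Geo T z) :
    ∃ (p : ℤ[X]) (t : ℝ) (Z : D → Fin 2 → ℤ[X]) (σ : ℤ) (N : ℕ)
      (B : Matrix (Fin 2) (Fin 2) ℝ), 0 < B.det ∧ polyZ Z t = Veech.lin B z ∧ p = minpoly ℤ t ∧
      IsIntegral ℤ t ∧ AlgData T p t Z σ m N := by
  have hdetC : C.1 0 0 * C.1 1 1 - C.1 0 1 * C.1 1 0 = 1 := by
    rw [← Matrix.det_fin_two]; exact C.2
  have hint := P2b_trace_integral h hz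
  have hintQ : IsIntegral ℚ C.1.trace := hint.tower_top
  have htK : C.1.trace ∈ IntermediateField.adjoin ℚ {C.1.trace} :=
    IntermediateField.mem_adjoin_simple_self ℚ _
  obtain ⟨ξ, hξ, hne⟩ := P2b_exists h hz htK
  set t := C.1.trace with ht
  set K := IntermediateField.adjoin ℚ {t} with hK
  obtain ⟨M, hM, q, hq⟩ := P2b_den_fin hintQ hξ.val
  have hMR : (0 : ℝ) < M := by exact_mod_cast hM
  set η := Matrix.vecMul ξ C.1 with hη
  have hη0 : η 0 = ξ 0 * C.1 0 0 + ξ 1 * C.1 1 0 := by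
    simp [hη, Matrix.vecMul, dotProduct, Fin.sum_univ_two]
  have hη1 : η 1 = ξ 0 * C.1 0 1 + ξ 1 * C.1 1 1 := by
    simp [hη, Matrix.vecMul, dotProduct, Fin.sum_univ_two]
  -- the sign
  obtain ⟨σ, hσ, hσpos⟩ : ∃ σ : ℤ, (σ = 1 ∨ σ = -1) ∧ 0 < (σ : ℝ) * (ξ 0 * η 1 - ξ 1 * η 0) := by
    rcases lt_or_gt_of_ne hne with h1 | h1
    · exact ⟨-1, Or.inr rfl, by push_cast; linarith⟩
    · exact ⟨1, Or.inl rfl, by push_cast; linarith⟩
  have hσσ : (σ : ℝ) * σ = 1 := by
    rcases hσ with rfl | rfl <;> norm_num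
  let B : Matrix (Fin 2) (Fin 2) ℝ := !![M * ξ 0, M * ξ 1; σ * (M * η 0), σ * (M * η 1)]
  have hBdet : 0 < B.det := by
    rw [Matrix.det_fin_two_of]
    have : (M : ℝ) * ξ 0 * (σ * (M * η 1)) - M * ξ 1 * (σ * (M * η 0)) =
        M * M * (σ * (ξ 0 * η 1 - ξ 1 * η 0)) := by ring
    rw [this]
    positivity
  let Z : D → Fin 2 → ℤ[X] := fun d => ![q d, Polynomial.C σ * app m q d]
  have happq : ∀ d, aeval t (app m q d) = M * P2b_pair η z d := by
    intro d
    have h1 := app_map m q ((aeval t : ℤ[X] →ₐ[ℤ] ℝ) : ℤ[X] →+ ℝ) d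
    have h2 : (fun e => ((aeval t : ℤ[X] →ₐ[ℤ] ℝ) : ℤ[X] →+ ℝ) (q e)) =
        (M : ℝ) • P2b_pair ξ z := by
      funext e
      exact (hq e).symm
    rw [h2, app_smul, P2b_app_pair, h.der, P2b_pair_lin] at h1
    exact h1.symm
  have hZ : polyZ Z t = Veech.lin B z := by
    funext d j
    fin_cases j
    · change aeval t (q d) = B.mulVec (z d) 0
      rw [← hq d]
      simp [B, Matrix.mulVec, dotProduct, Fin.sum_univ_two, P2b_pair]
      ring
    · change aeval t (Polynomial.C σ * app m q d) = B.mulVec (z d) 1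
      rw [map_mul, happq, aeval_C]
      simp [B, Matrix.mulVec, dotProduct, Fin.sum_univ_two, P2b_pair]
      ring
  have hgeo : Geo T (polyZ Z t) := by
    rw [hZ]; exact hz.lin B hBdet
  have hval : ∀ Q : ℤ[X], aeval t Q ∈ K := by
    intro Q
    have h1 := Polynomial.aeval_algebraMap_apply ℝ (⟨t, htK⟩ : K) Q
    change aeval t Q = _ at h1
    rw [h1]
    exact (aeval (⟨t, htK⟩ : K) Q).2
  have hval' : ∀ d j, polyZ Z t d j ∈ K := fun d j => hval _
  have harea : area T (polyZ Z t) ∈ K := by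
    unfold area cr
    exact sum_mem fun d _ => sub_mem (mul_mem (hval' _ _) (hval' _ _))
      (mul_mem (hval' _ _) (hval' _ _))
  have hareapos := hgeo.area_pos
  obtain ⟨N, hN, U, hU⟩ := P2b_den_fin hintQ
    (x := fun p : D × D => cr (polyZ Z t p.1) (polyZ Z t p.2) / area T (polyZ Z t))
    (fun p => div_mem (by
      unfold cr
      exact sub_mem (mul_mem (hval' _ _) (hval' _ _)) (mul_mem (hval' _ _) (hval' _ _))) harea)
  refine ⟨minpoly ℤ t, t, Z, σ, N, B, hBdet, hZ, rfl, hint, ?_⟩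
  refine ⟨minpoly.monic hint, minpoly.aeval ℤ t, h.tr, hσ, hgeo, ?_, ?_, hN, ?_⟩
  · rw [hZ]
    exact h.path.lin B hBdet
  · rw [hZ, app_lin, h.der, lin_lin, lin_lin]
    congr 1
    have htr2 : t = C.1 0 0 + C.1 1 1 := by rw [ht, Matrix.trace_fin_two]
    ext i j
    fin_cases i <;> fin_cases j
    · simp [B, Cmat, Matrix.mul_apply, Fin.sum_univ_two]
      rw [hη0]
      linear_combination -(M * (ξ 0 * C.1 0 0 + ξ 1 * C.1 1 0)) * hσσ
    · simp [B, Cmat, Matrix.mul_apply, Fin.sum_univ_two]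
      rw [hη1]
      linear_combination -(M * (ξ 0 * C.1 0 1 + ξ 1 * C.1 1 1)) * hσσ
    · simp [B, Cmat, Matrix.mul_apply, Fin.sum_univ_two]
      rw [hη0, hη1, htr2]
      linear_combination -(σ * M * ξ 0) * hdetC
    · simp [B, Cmat, Matrix.mul_apply, Fin.sum_univ_two]
      rw [hη0, hη1, htr2]
      linear_combination -(σ * M * ξ 1) * hdetC
  · intro d d'
    refine ⟨U (d, d'), ?_⟩
    rw [← hU (d, d')]
    field_simp

end Pool.Veech
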