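import Pool.Agent.Lib.MP_fceebd_gt.L1b
import Pool.Agent.Lib.MP_fceebd_gt.J2c
import Pool.Agent.Lib.MP_fceebd_gt.K3b
import Pool.Agent.Lib.MP_fceebd_gt.W1
import Pool.Agent.Lib.MP_fceebd_gt.F1

/-! # Row PI: surfaces whose affine group has finite covolume have no small virtual triangles,
with a computable bound -/

set_option autoImplicit false

open MeasureTheory
open scoped UpperHalfPlane MatrixGroups

namespace Pool.Veech

variable {D : Type} [Fintype D] [DecidableEq D] {K : Type} [Field K] [NumberField K]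
  {T T' : Tri D} {z : D → Vec} {c : Vec}

/-- The bound. -/
def Bc (n N k : ℕ) : ℕ := 144 * Rc n ^ 2 * N ^ (4 * k) + 1

namespace PIaux

theorem nq_eq (u : Vec) : nq u = u 0 ^ 2 + u 1 ^ 2 := by
  unfold nq ip
  ring

theorem nq_nonneg (u : Vec) : 0 ≤ nq u := by
  rw [nq_eq]
  positivity

theorem nq_pos {u : Vec} (h : u ≠ 0) : 0 < nq u := by
  rw [nq_eq]
  by_contra hcon
  apply h
  have h0 : u 0 ^ 2 = 0 := by nlinarith [sq_nonneg (u 0), sq_nonneg (u 1)]
  have h1 : u 1 ^ 2 = 0 := by nlinarith [sq_nonneg (u 0), sq_nonneg (u 1)]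
  funext i
  fin_cases i
  · exact pow_eq_zero_iff (two_ne_zero) |>.1 h0
  · exact pow_eq_zero_iff (two_ne_zero) |>.1 h1

theorem cr_sq_le (u v : Vec) : cr u v ^ 2 ≤ nq u * nq v := by
  rw [nq_eq, nq_eq]
  unfold cr
  nlinarith [sq_nonneg (u 0 * v 0 + u 1 * v 1)]

theorem nq_mulVec_le {A : Matrix (Fin 2) (Fin 2) ℝ} {R : ℝ} (hA : ∀ i j, |A i j| ≤ R) (u : Vec) :
    nq (A.mulVec u) ≤ 4 * R ^ 2 * nq u := by
  have hsq : ∀ i j, A i j ^ 2 ≤ R ^ 2 := fun i j => sq_le_sq' (by
    have := (abs_le.1 (hA i j)).1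
    linarith) (abs_le.1 (hA i j)).2
  have key : ∀ i, (A i 0 * u 0 + A i 1 * u 1) ^ 2 ≤ 2 * R ^ 2 * (u 0 ^ 2 + u 1 ^ 2) := by
    intro i
    have h1 : (A i 0 * u 0 + A i 1 * u 1) ^ 2 ≤
        (A i 0 ^ 2 + A i 1 ^ 2) * (u 0 ^ 2 + u 1 ^ 2) := by
      nlinarith [sq_nonneg (A i 0 * u 1 - A i 1 * u 0)]
    have h2 : (A i 0 ^ 2 + A i 1 ^ 2) * (u 0 ^ 2 + u 1 ^ 2) ≤
        (2 * R ^ 2) * (u 0 ^ 2 + u 1 ^ 2) :=
      mul_le_mul_of_nonneg_right (by linarith [hsq i 0, hsq i 1]) (by positivity)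
    linarith
  rw [nq_eq, nq_eq]
  simp only [Matrix.mulVec, dotProduct, Fin.sum_univ_two]
  linarith [key 0, key 1]

theorem exists_sl {v e : Vec} (h : cr v e ≠ 0) :
    ∃ A : SL(2, ℝ), nq (A.1.mulVec v) = |cr v e| ∧ nq (A.1.mulVec e) = |cr v e| := by
  set δ := cr v e with hδ
  have hd : v 0 * e 1 - v 1 * e 0 = δ := rfl
  have ha : 0 < |δ| := abs_pos.2 h
  set s := Real.sqrt |δ| with hs
  have hs0 : 0 < s := Real.sqrt_pos.2 ha
  have hs2 : s ^ 2 = |δ| := Real.sq_sqrt ha.le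
  have ht2 : (δ / s) ^ 2 = |δ| := by
    rw [div_pow, hs2, ← sq_abs δ, sq, mul_div_assoc, div_self ha.ne', mul_one]
  have hst : s * (δ / s) = δ := by field_simp
  refine ⟨⟨!![s * e 1 / δ, -(s * e 0) / δ; -(δ / s * v 1) / δ, δ / s * v 0 / δ], ?_⟩, ?_, ?_⟩
  · rw [Matrix.det_fin_two_of]
    have : s * e 1 / δ * (δ / s * v 0 / δ) - -(s * e 0) / δ * (-(δ / s * v 1) / δ) =
        (s * (δ / s)) * (v 0 * e 1 - v 1 * e 0) / (δ * δ) := by
      field_simp
    rw [this, hst, hd, div_self (mul_ne_zero h h)]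
  · have h0 : (!![s * e 1 / δ, -(s * e 0) / δ; -(δ / s * v 1) / δ, δ / s * v 0 / δ].mulVec v) 0 =
        s := by
      simp only [Matrix.mulVec, dotProduct, Fin.sum_univ_two, Matrix.of_apply, Matrix.cons_val',
        Matrix.cons_val_zero, Matrix.cons_val_one, Matrix.empty_val', Matrix.cons_val_fin_one]
      have : s * e 1 / δ * v 0 + -(s * e 0) / δ * v 1 = s * (v 0 * e 1 - v 1 * e 0) / δ := by ring
      rw [this, hd, mul_div_assoc, div_self h, mul_one]
    have h1 : (!![s * e 1 / δ, -(s * e 0) / δ; -(δ / s * v 1) / δ, δ / s * v 0 / δ].mulVec v) 1 =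
        0 := by
      simp only [Matrix.mulVec, dotProduct, Fin.sum_univ_two, Matrix.of_apply, Matrix.cons_val',
        Matrix.cons_val_zero, Matrix.cons_val_one, Matrix.empty_val', Matrix.cons_val_fin_one]
      ring
    rw [nq_eq]
    show (!![s * e 1 / δ, -(s * e 0) / δ; -(δ / s * v 1) / δ, δ / s * v 0 / δ].mulVec v) 0 ^ 2 +
      (!![s * e 1 / δ, -(s * e 0) / δ; -(δ / s * v 1) / δ, δ / s * v 0 / δ].mulVec v) 1 ^ 2 = _
    rw [h0, h1, hs2]
    ring
  · have h0 : (!![s * e 1 / δ, -(s * e 0) / δ; -(δ / s * v 1) / δ, δ / s * v 0 / δ].mulVec e) 0 =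
        0 := by
      simp only [Matrix.mulVec, dotProduct, Fin.sum_univ_two, Matrix.of_apply, Matrix.cons_val',
        Matrix.cons_val_zero, Matrix.cons_val_one, Matrix.empty_val', Matrix.cons_val_fin_one]
      ring
    have h1 : (!![s * e 1 / δ, -(s * e 0) / δ; -(δ / s * v 1) / δ, δ / s * v 0 / δ].mulVec e) 1 =
        δ / s := by
      simp only [Matrix.mulVec, dotProduct, Fin.sum_univ_two, Matrix.of_apply, Matrix.cons_val',
        Matrix.cons_val_zero, Matrix.cons_val_one, Matrix.empty_val', Matrix.cons_val_fin_one]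
      have : -(δ / s * v 1) / δ * e 0 + δ / s * v 0 / δ * e 1 =
          δ / s * (v 0 * e 1 - v 1 * e 0) / δ := by ring
      rw [this, hd, mul_div_assoc, div_self h, mul_one]
    rw [nq_eq]
    show (!![s * e 1 / δ, -(s * e 0) / δ; -(δ / s * v 1) / δ, δ / s * v 0 / δ].mulVec e) 0 ^ 2 +
      (!![s * e 1 / δ, -(s * e 0) / δ; -(δ / s * v 1) / δ, δ / s * v 0 / δ].mulVec e) 1 ^ 2 = _
    rw [h0, h1, ht2]
    ring

/-- two independent vectors are not both parallel to `c` -/
theorem cr_or {v e c : Vec} (h : cr v e ≠ 0) (hc : c ≠ 0) : cr v c ≠ 0 ∨ cr e c ≠ 0 := by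
  by_contra hcon
  push Not at hcon
  obtain ⟨h1, h2⟩ := hcon
  unfold cr at h h1 h2
  have h3 : c 0 * (v 0 * e 1 - v 1 * e 0) = 0 := by linear_combination e 0 * h1 - v 0 * h2
  have h4 : c 1 * (v 0 * e 1 - v 1 * e 0) = 0 := by linear_combination e 1 * h1 - v 1 * h2
  apply hc
  funext i
  fin_cases i
  · exact (mul_eq_zero.1 h3).resolve_right h
  · exact (mul_eq_zero.1 h4).resolve_right h

end PIaux

open PIaux

omit [DecidableEq D] in
theorem PIaux.form_sum (T : Tri D) (R : Finset D) (a : D → ℝ) (F : D → D → ℝ) (g : D → ℝ) :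
    form T (fun e => ∑ r ∈ R, a r * F r e) g = ∑ r ∈ R, a r * form T (F r) g := by
  unfold form
  simp_rw [Finset.mul_sum]
  rw [Finset.sum_comm]
  refine Finset.sum_congr rfl fun d _ => ?_
  rw [Finset.sum_mul, ← Finset.sum_sub_distrib]
  refine Finset.sum_congr rfl fun r _ => ?_
  ring

/-- A cylinder `(i, c, α)` in a horizontal triangulation of direction `c`: `i` vanishes on the
horizontal darts (by `IsCyl.bound`), so `i = ∑ (i r) iota r`, `i r ≥ 0`, and
`∑ (i r) width r = 1`. So some cylinder has `width ≤ 1`. -/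
theorem Horiz.exists_width_le {i : D → ℤ} {α : ℝ} (h : Horiz T z c) (hc : IsCyl T z i c α) :
    ∃ d, Up z c d ∧ width T z c d ≤ 1 := by
  obtain ⟨R, hR, hR'⟩ := h.exists_reps
  have hb : ∀ e, 0 ≤ ((i e : ℤ) : ℝ) * cr (z e) c ∧ α * |((i e : ℤ) : ℝ)| ≤ |cr (z e) c| := by
    intro e
    have := hc.bound T 1 (GPath.refl h.geo) e
    rwa [app_one, app_one] at this
  have h0 : ∀ e, cr (z e) c = 0 → i e = 0 := by
    intro e he
    have h1 := (hb e).2
    rw [he, abs_zero] at h1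
    have h2 : |((i e : ℤ) : ℝ)| = 0 := by
      by_contra h3
      have := mul_pos hc.apos (lt_of_le_of_ne (abs_nonneg _) (Ne.symm h3))
      linarith
    exact_mod_cast abs_eq_zero.1 h2
  have hdec := fun e => h.dec hR hR' hc.coc h0 e
  have hnn : ∀ r ∈ R, 0 ≤ i r := by
    intro r hr
    have h1 := (hb r).1
    have h2 : 0 < cr (z r) c := hR r hr
    have h3 : 0 ≤ ((i r : ℤ) : ℝ) := nonneg_of_mul_nonneg_left h1 h2
    exact_mod_cast h3
  have hfun : (fun e => ((i e : ℤ) : ℝ)) =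
      fun e => ∑ r ∈ R, ((i r : ℤ) : ℝ) * ((iota T z c r e : ℤ) : ℝ) := by
    funext e
    rw [hdec e]
    push_cast
    refine Finset.sum_congr rfl fun r _ => ?_
    rw [smul_eq_mul]
    push_cast
    ring
  have hform : ∀ j, 6 * c j = ∑ r ∈ R, ((i r : ℤ) : ℝ) *
      form T (fun e => ((iota T z c r e : ℤ) : ℝ)) (fun e => z e j) := by
    intro j
    rw [← hc.form_eq j, hfun, form_sum]
  have hnq : 0 < nq c := nq_pos h.cne
  have hsum : ∑ r ∈ R, ((i r : ℤ) : ℝ) * width T z c r = 1 := by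
    have h1 : ∑ r ∈ R, ((i r : ℤ) : ℝ) * width T z c r =
        (∑ r ∈ R, ((i r : ℤ) : ℝ) *
          ip (fun j => form T (fun e => ((iota T z c r e : ℤ) : ℝ)) (fun e => z e j)) c) /
          (6 * nq c) := by
      rw [Finset.sum_div]
      refine Finset.sum_congr rfl fun r _ => ?_
      unfold width
      ring
    have h2 : ∑ r ∈ R, ((i r : ℤ) : ℝ) *
        ip (fun j => form T (fun e => ((iota T z c r e : ℤ) : ℝ)) (fun e => z e j)) c =
        6 * nq c := by
      have h3 : 6 * nq c = (6 * c 0) * c 0 + (6 * c 1) * c 1 := by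
        rw [nq_eq]
        ring
      rw [h3, hform 0, hform 1, Finset.sum_mul, Finset.sum_mul, ← Finset.sum_add_distrib]
      refine Finset.sum_congr rfl fun r _ => ?_
      unfold ip
      ring
    rw [h1, h2]
    exact div_self (by positivity)
  have hex : ∃ r ∈ R, i r ≠ 0 := by
    by_contra hcon
    push Not at hcon
    rw [Finset.sum_eq_zero fun r hr => by rw [hcon r hr]; simp] at hsum
    exact zero_ne_one hsum
  obtain ⟨r, hr, hir⟩ := hex
  refine ⟨r, hR r hr, ?_⟩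
  have h1 : (1 : ℝ) ≤ ((i r : ℤ) : ℝ) := by
    have := hnn r hr
    have h2 : 1 ≤ i r := by omega
    exact_mod_cast h2
  have hw := h.width_pos (hR r hr)
  calc width T z c r ≤ ((i r : ℤ) : ℝ) * width T z c r := by nlinarith
    _ ≤ ∑ r ∈ R, ((i r : ℤ) : ℝ) * width T z c r :=
      Finset.single_le_sum (f := fun r => ((i r : ℤ) : ℝ) * width T z c r) (fun s hs =>
        mul_nonneg (by exact_mod_cast hnn s hs) (h.width_pos (hR s hs)).le) hr
    _ = 1 := hsum

omit [Fintype D] [DecidableEq D] in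
theorem PIaux.isCoc_cr {z : D → Vec} (hz : IsCoc T z) (c : Vec) : IsCoc T (fun e => cr (z e) c) :=
  { closed := fun d => by
      have h0 := congrFun (hz.closed d) 0
      have h1 := congrFun (hz.closed d) 1
      simp only [Pi.add_apply, Pi.zero_apply] at h0 h1
      unfold cr
      linear_combination c 1 * h0 - c 0 * h1
    glue := fun d => by
      have h0 := congrFun (hz.glue d) 0
      have h1 := congrFun (hz.glue d) 1
      simp only [Pi.neg_apply] at h0 h1
      unfold cr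
      linear_combination c 1 * h0 - c 0 * h1 }

theorem PIaux.app_cr (m : Matrix D D ℤ) (z : D → Vec) (c : Vec) (d : D) :
    app m (fun e => cr (z e) c) d = cr (app m z d) c := by
  have := app_map m z (⟨⟨fun u : Vec => cr u c, by simp [cr]⟩, fun u v => by
    simp only [cr, Pi.add_apply]
    ring⟩ : Vec →+ ℝ) d
  exact this

/-- An edge vector which is not horizontal has at least the height of some cylinder. -/
theorem Horiz.height_le (h : Horiz T z c) {v : Vec} (hv : v ∈ edges T z) (hvc : cr v c ≠ 0) :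
    ∃ d, Up z c d ∧ cr (z d) c ≤ |cr v c| := by
  obtain ⟨T', m, d, hm, rfl⟩ := hv
  obtain ⟨R, hR, hR'⟩ := h.exists_reps
  have hex : ∃ r ∈ R, app m (iota T z c r) d ≠ 0 := by
    by_contra hcon
    push Not at hcon
    apply hvc
    have hdec := fun e => h.dec hR hR' (isCoc_cr h.geo.coc c) (fun e he => he) e
    have h1 : (fun e => cr (z e) c) =
        ∑ r ∈ R, (cr (z r) c) • fun e => ((iota T z c r e : ℤ) : ℝ) := by
      funext e
      rw [hdec e, Finset.sum_apply]
      refine Finset.sum_congr rfl fun r _ => ?_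
      rw [Pi.smul_apply, smul_eq_mul, zsmul_eq_mul]
      ring
    rw [← app_cr, h1, app_sum, Finset.sum_apply]
    refine Finset.sum_eq_zero fun r hr => ?_
    rw [app_smul, Pi.smul_apply, app_intCast, hcon r hr]
    simp
  obtain ⟨r, hr, hir⟩ := hex
  refine ⟨r, hR r hr, ?_⟩
  have hup : 0 < cr (z r) c := hR r hr
  have hw := h.width_pos (hR r hr)
  have hb := ((h.isCyl (hR r hr)).bound T' m hm d).2
  have h1 : cr (app m z d) (width T z c r • c) = width T z c r * cr (app m z d) c := by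
    unfold cr
    simp only [Pi.smul_apply, smul_eq_mul]
    ring
  rw [h1, abs_mul, abs_of_pos hw] at hb
  have h2 : (1 : ℝ) ≤ |((app m (iota T z c r) d : ℤ) : ℝ)| := by
    rw [← Int.cast_abs]
    have := Int.one_le_abs hir
    exact_mod_cast this
  have h3 : width T z c r * cr (z r) c ≤ width T z c r * |cr (app m z d) c| := by
    refine le_trans ?_ hb
    have := mul_pos hw hup
    nlinarith
  exact le_of_mul_le_mul_left h3 hw

/-- Proof. Suppose `0 < |cr v e| = a < area / Bc`. Let `A₀` in `SL2` with `nq (A₀ v) = nq (A₀ e) = a`. Let `A`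
be as in `exists_long` for `A₀ z`, and let `c` be the core of a cylinder of `A A₀ z`
(`NearD.exists_cyl`, `Strip.isCyl`), `nq c ≤ area`. One of the vectors `A A₀ v`, `A A₀ e`, say `v'`, is not
parallel to `c`, and `nq v' ≤ 4 Rc² a`. The orbit of `c` under `aff` is locally finite
(`IsCyl.orbit_finite`), so there is a parabolic affine map which fixes `c` (`exists_fixing`); the set
of edge vectors is locally finite (`Hyp.edges_finite`, `Hyp.core_ne` is used there); so
there is a horizontal triangulation for `c` (`exists_height`, `exists_horiz`), with commensurable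
moduli (`Horiz.comm_of_aff`), so `Arith.bounds` applies: all widths are at most `N^k`
(`exists_width_le`), all heights are at least `area / (6 N^(2k))`, so
`area / (6 N^(2k)) ≤ |cr v' c|`, whose square is at most `4 Rc² a * area`. -/
theorem nsvt_of_covolume {ι : K →+* ℝ} {zK : D → Fin 2 → K} {m : Matrix D D ℤ} {t : K} {N : ℕ}
    {C : SL(2, ℝ)} (hz : Geo T z) (hA : Arith T z ι zK m t N) (hH : Hyp T z m C) (F : Set ℍ)
    (hF : MeasurableSet F) (hvol : volume F < ⊤) (hcov : ∀ τ : ℍ, ∃ A ∈ aff T z hz, A • τ ∈ F)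
    {k : ℕ} (hk : Module.finrank ℚ K ≤ k) :
    NSVT T z (area T z / Bc (Fintype.card D) N k) := by
  intro v hv e he
  by_contra hcon
  push Not at hcon
  obtain ⟨hve, hlt⟩ := hcon
  have hD : Nonempty D := by
    obtain ⟨_, _, d, -, -⟩ := hv
    exact ⟨d⟩
  set n := Fintype.card D with hn
  set a := |cr v e| with ha
  have ha0 : 0 < a := abs_pos.2 hve
  obtain ⟨A₀, hA₀v, hA₀e⟩ := exists_sl hve
  have hz₀ : Geo T (lin A₀.1 z) := ((GPath.refl hz).lin A₀.1 (det_pos A₀)).geo_left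
  obtain ⟨A, hAR, T', m', hm', hN', d₀, hd₀⟩ := exists_long hz₀
  rw [← hn] at hAR hd₀
  set g : SL(2, ℝ) := A * A₀ with hg
  have hlin : lin A.1 (lin A₀.1 z) = lin g.1 z := lin_lin _ _ _
  rw [hlin] at hm' hN' hd₀
  have harea : ∀ (B : SL(2, ℝ)), area T (lin B.1 z) = area T z := by
    intro B
    unfold area
    refine Finset.sum_congr rfl fun d _ => ?_
    show cr (B.1.mulVec (z d)) (B.1.mulVec (z (T.nxt d))) = _
    rw [cr_mulVec, B.2, one_mul]
  have harea' : area T' (app m' (lin g.1 z)) = area T z := hm'.area.trans (harea g)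
  obtain ⟨n', δ, c, α, hS, hcn⟩ := hN'.exists_cyl (d₀ := d₀) (by
    rw [← hn, harea', ← harea A₀]
    exact hd₀)
  rw [harea'] at hcn
  -- the cylinder on `T`
  obtain ⟨m₁, hm₁, hinv⟩ := hm'.symm
  have hcyl₁ := (hS.isCyl hm'.geo).trans hm₁
  rw [hinv Vec (lin g.1 z) hm'.geo_left.coc] at hcyl₁
  have hcyl := hcyl₁.linear hm'.geo_left g⁻¹
  have hlin' : lin (g⁻¹).1 (lin g.1 z) = z := by
    rw [lin_lin, ← Matrix.SpecialLinearGroup.coe_mul, inv_mul_cancel,
      Matrix.SpecialLinearGroup.coe_one, lin_one]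
  rw [hlin'] at hcyl
  set c₀ : Vec := (g⁻¹).1.mulVec c with hc₀
  have hgc : g.1.mulVec c₀ = c := by
    rw [hc₀, Matrix.mulVec_mulVec, ← Matrix.SpecialLinearGroup.coe_mul, mul_inv_cancel,
      Matrix.SpecialLinearGroup.coe_one, Matrix.one_mulVec]
  have hc₀ne : c₀ ≠ 0 := hcyl.cne
  -- the parabolic element
  have hcount : Countable (aff T z hz) := aff_countable hz
  obtain ⟨P, hP, hP1, hPc⟩ := exists_fixing (aff T z hz) hcount F hF hvol hcov hc₀ne
    (fun R => hcyl.orbit_finite hz R)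
  have hfin : ∀ R : ℝ, {v ∈ edges T z | nq v ≤ R}.Finite := fun R => hH.edges_finite hcyl R
  obtain ⟨ρ, hρ, hρe⟩ := exists_height hz hc₀ne hP hP1 hPc hfin
  obtain ⟨T₃, m₃, hm₃, hor⟩ := exists_horiz hz hc₀ne hρ hρe
  have hed : edges T₃ (app m₃ z) = edges T z := edges_trans hm₃
  have hP₃ : P ∈ aff T₃ (app m₃ z) hor.geo := (aff_trans hm₃ P).1 hP
  have hcomm : Comm T₃ (app m₃ z) c₀ := hor.comm_of_aff hP₃ hP1 hPc (by
    intro R
    rw [hed]
    exact hfin R)
  obtain ⟨m₄, hA₃⟩ := hA.trans hm₃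
  have hcyl₃ := hcyl.trans hm₃
  obtain ⟨d₁, hd₁, hw₁⟩ := hor.exists_width_le hcyl₃
  -- the vector
  have hNk : (N : ℝ) ^ Module.finrank ℚ K ≤ (N : ℝ) ^ k :=
    pow_le_pow_right₀ (by exact_mod_cast hA.Npos) hk
  have hN1 : (1 : ℝ) ≤ (N : ℝ) := by exact_mod_cast hA.Npos
  set Q : ℝ := (N : ℝ) ^ k with hQ
  have hQ1 : 1 ≤ Q := one_le_pow₀ hN1
  set Q' : ℝ := (N : ℝ) ^ Module.finrank ℚ K with hQ'
  have hQ'1 : 1 ≤ Q' := one_le_pow₀ hN1
  have hareapos : 0 < area T z := by
    unfold area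
    exact Finset.sum_pos (fun d _ => hz.pos d) Finset.univ_nonempty
  have harea₃ : area T₃ (app m₃ z) = area T z := hm₃.area
  have main : ∀ w ∈ edges T z, nq (A₀.1.mulVec w) = a → cr w c₀ ≠ 0 → False := by
    intro w hw hwa hwc
    obtain ⟨d₂, hd₂, hh₂⟩ := hor.height_le (v := w) (by rw [hed]; exact hw) hwc
    have hb1 := (hA₃.bounds hor hcomm hd₂ hd₁).1
    have hb2 := (hA₃.bounds hor hcomm hd₁ hd₂).2
    rw [harea₃] at hb1
    have hwd : width T₃ (app m₃ z) c₀ d₂ ≤ Q := by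
      refine hb2.trans ?_
      calc Q' * width T₃ (app m₃ z) c₀ d₁ ≤ Q' * 1 :=
            mul_le_mul_of_nonneg_left hw₁ (by linarith)
        _ ≤ Q := by rw [mul_one]; exact hNk
    have hwpos := hor.width_pos hd₂
    have hup : 0 < cr (app m₃ z d₂) c₀ := hd₂
    set x := |cr w c₀| with hx
    have hx0 : 0 < x := abs_pos.2 hwc
    have hb3 : area T z ≤ 6 * Q ^ 2 * x := by
      calc area T z ≤ Q' * (6 * (width T₃ (app m₃ z) c₀ d₂ * cr (app m₃ z d₂) c₀)) := hb1
        _ ≤ Q * (6 * (Q * x)) := by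
          refine mul_le_mul hNk ?_ (by positivity) (by linarith)
          refine mul_le_mul_of_nonneg_left ?_ (by norm_num)
          exact mul_le_mul hwd hh₂ hup.le (by linarith)
        _ = 6 * Q ^ 2 * x := by ring
    -- the size of the vector
    have hcr : cr w c₀ = cr (g.1.mulVec w) c := by
      have h1 := cr_mulVec g.1 w c₀
      rw [hgc, g.2, one_mul] at h1
      exact h1.symm
    have hgw : g.1.mulVec w = A.1.mulVec (A₀.1.mulVec w) := by
      rw [Matrix.mulVec_mulVec]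
      rfl
    have hb4 : x ^ 2 ≤ 4 * (Rc n : ℝ) ^ 2 * a * area T z := by
      rw [hx, sq_abs, hcr, hgw]
      refine (cr_sq_le _ _).trans ?_
      have h1 := nq_mulVec_le hAR (A₀.1.mulVec w)
      rw [hwa] at h1
      exact mul_le_mul h1 hcn (nq_nonneg _) (by positivity)
    have hb5 : area T z ^ 2 ≤ (144 * (Rc n : ℝ) ^ 2 * Q ^ 4) * a * area T z := by
      have h1 : area T z ^ 2 ≤ (6 * Q ^ 2 * x) ^ 2 := pow_le_pow_left₀ hareapos.le hb3 2
      have h2 : (6 * Q ^ 2 * x) ^ 2 = 36 * Q ^ 4 * x ^ 2 := by ring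
      have h3 : 36 * Q ^ 4 * x ^ 2 ≤ 36 * Q ^ 4 * (4 * (Rc n : ℝ) ^ 2 * a * area T z) :=
        mul_le_mul_of_nonneg_left hb4 (by positivity)
      calc area T z ^ 2 ≤ 36 * Q ^ 4 * (4 * (Rc n : ℝ) ^ 2 * a * area T z) := by
            rw [h2] at h1
            exact h1.trans h3
        _ = (144 * (Rc n : ℝ) ^ 2 * Q ^ 4) * a * area T z := by ring
    have hb6 : area T z ≤ (144 * (Rc n : ℝ) ^ 2 * Q ^ 4) * a := by
      have : area T z * area T z ≤ (144 * (Rc n : ℝ) ^ 2 * Q ^ 4) * a * area T z := by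
        rw [← sq]
        exact hb5
      exact le_of_mul_le_mul_right this hareapos
    have hBc : ((Bc n N k : ℕ) : ℝ) = 144 * (Rc n : ℝ) ^ 2 * Q ^ 4 + 1 := by
      unfold Bc
      push_cast
      rw [hQ, ← pow_mul, mul_comm k 4]
    have hBpos : 0 < ((Bc n N k : ℕ) : ℝ) := by
      rw [hBc]
      positivity
    rw [lt_div_iff₀ hBpos, hBc] at hlt
    nlinarith
  rcases cr_or hve hc₀ne with h1 | h1
  · exact main v hv hA₀v h1
  · exact main e he hA₀e h1

end Pool.Veech
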