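import Pool.Agent.Lib.MP_fceebd_gt.RE
import Pool.Agent.Lib.MP_fceebd_gt.P2a

/-! # Definitions for the computability part: codes for surfaces and for paths -/

set_option autoImplicit false

open Polynomial

namespace Pool.Veech

/-! ### Integral polynomials as lists of coefficients -/

/-- lists of coefficients -/
abbrev ZP := List ℤ

/-- a coefficient -/
def cf (f : ZP) (i : ℕ) : ℤ := f.getD i 0

/-- sum of a list of integers -/
def zsum (l : List ℤ) : ℤ := l.foldr (fun a b => a + b) 0

def padd (f g : ZP) : ZP := (List.range (f.length + g.length)).map fun i => cf f i + cf g i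
def pneg (f : ZP) : ZP := f.map fun a => -a
def psub (f g : ZP) : ZP := padd f (pneg g)
def pmul (f g : ZP) : ZP := (List.range (f.length + g.length)).map fun i =>
  zsum ((List.range (i + 1)).map fun j => cf f j * cf g (i - j))
def psum (l : List ZP) : ZP := l.foldr padd []

/-- the polynomial -/
noncomputable def toPoly (f : ZP) : ℤ[X] := ∑ i ∈ Finset.range f.length, C (cf f i) * X ^ i

/-- `f` is zero -/
def pzero (f : ZP) : Bool := f.all fun a => decide (a = 0)

/-- `p` divides `f` -/
def EqM (p f : ZP) : Prop := ∃ q : ZP, pzero (psub f (pmul p q)) = true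

/-! ### Signs at a root of `p` in a small interval `J = [(a - 1) / b, (a + 1) / b]` -/

/-- the interval -/
abbrev Jt := ℤ × ℕ

/-- `b ^ length * f (a / b)` -/
def evalH (f : ZP) (a : ℤ) (b : ℕ) : ℤ :=
  zsum ((List.range f.length).map fun (i : ℕ) => cf f i * a ^ i * (b : ℤ) ^ (f.length - i))

/-- bound for the variation of `f` on the interval, times `b ^ length` -/
def varH (f : ZP) (a : ℤ) (b : ℕ) : ℤ :=
  zsum ((List.range f.length).map fun (i : ℕ) =>
    (i : ℤ) * |cf f i| * (|a| + 1) ^ (i - 1) * (b : ℤ) ^ (f.length - i))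

/-- `f` is positive on `J` (sufficient condition) -/
def posJ (J : Jt) (f : ZP) : Bool :=
  decide (0 < J.2) && decide (varH f J.1 J.2 < evalH f J.1 J.2)

/-- `p` changes its sign on `J` -/
def rootJ (J : Jt) (p : ZP) : Bool :=
  decide (0 < J.2) && decide (evalH p (J.1 - 1) J.2 * evalH p (J.1 + 1) J.2 < 0)

/-- `t` is in the interior of `J`, and `J` is small -/
def Good (t : ℝ) (ε : ℝ) (J : Jt) : Prop :=
  0 < J.2 ∧ |t * J.2 - J.1| < 1 ∧ 1 < ε * J.2

/-! ### Words -/

/-- words in the generators of the surface group -/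
abbrev Wd := List (ℕ × Bool)

/-- the inverse word -/
def winv (w : Wd) : Wd := (w.map fun l => (l.1, !l.2)).reverse

/-- equality in the surface group -/
def WEq (g : ℕ) (u v : Wd) : Prop := word g u = word g v

/-- substitution: the image of a word under the mapping class which is given by `w` -/
def subst (g : ℕ) (w : List Wd) (u : Wd) : Wd :=
  u.flatMap fun l => cond (decide (l.1 < 2 * g)) (cond l.2 (w.getD l.1 []) (winv (w.getD l.1 []))) []

def substL (g : ℕ) (L : List (List Wd)) (u : Wd) : Wd := L.foldr (fun w v => subst g w v) u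

/-! ### Codes for labelled surfaces -/

/-- `((nxt, opp, tau), z, lab)` -/
abbrev Code := (List ℕ × List ℕ × List ℕ) × List (ZP × ZP) × List Wd

namespace Code

def n (c : Code) : ℕ := c.1.1.length
def nx (c : Code) (d : ℕ) : ℕ := c.1.1.getD d 0
def op (c : Code) (d : ℕ) : ℕ := c.1.2.1.getD d 0
def ta (c : Code) (d : ℕ) : ℕ := c.1.2.2.getD d 0
def zz (c : Code) (d : ℕ) : ZP × ZP := c.2.1.getD d ([], [])
def lb (c : Code) (d : ℕ) : Wd := c.2.2.getD d []

/-- the code is made of functions on the numbers less than `n` -/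
def mk' (n : ℕ) (nx op ta : ℕ → ℕ) (z : ℕ → ZP × ZP) (lb : ℕ → Wd) : Code :=
  (((List.range n).map nx, (List.range n).map op, (List.range n).map ta),
    (List.range n).map z, (List.range n).map lb)

end Code

/-- the cross product of two pairs of polynomials -/
def pcr (u v : ZP × ZP) : ZP := psub (pmul u.1 v.2) (pmul u.2 v.1)
/-- the inner product -/
def pip (u v : ZP × ZP) : ZP := padd (pmul u.1 v.1) (pmul u.2 v.2)
def vadd (u v : ZP × ZP) : ZP × ZP := (padd u.1 v.1, padd u.2 v.2)
def vneg (u : ZP × ZP) : ZP × ZP := (pneg u.1, pneg u.2)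

/-- the code `c` represents the surface `S` (at the number `t`) -/
structure Repr (g : ℕ) (t : ℝ) {n : ℕ} (c : Code) (S : Surf (SurfGroup g) (Fin n)) : Prop where
  n_eq : c.n = n
  op_len : c.1.2.1.length = n
  ta_len : c.1.2.2.length = n
  z_len : c.2.1.length = n
  lb_len : c.2.2.length = n
  nx : ∀ d : Fin n, c.nx d = S.nxt d
  op : ∀ d : Fin n, c.op d = S.opp d
  ta : ∀ d : Fin n, c.ta d = S.tau d
  z0 : ∀ d : Fin n, S.z d 0 = aeval t (toPoly (c.zz d).1)
  z1 : ∀ d : Fin n, S.z d 1 = aeval t (toPoly (c.zz d).2)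
  lb : ∀ d : Fin n, S.lab d = word g (c.lb d)

/-! ### Moves -/

/-- A move: `(0, a, _)` is the flip at `a`; `(1, _, (e, e'), _)` is the relabelling by the
permutation `e` with the inverse `e'`; `(2, _, _, ks)` is the gauge change by the words `ks`. -/
abbrev Mv := (ℕ × ℕ) × (List ℕ × List ℕ) × List Wd

/-- is `d` one of the four darts of the diagonals -/
def isDiag (c : Code) (a d : ℕ) : Bool :=
  decide (d = a) || decide (d = c.op a) || decide (d = c.ta a) || decide (d = c.ta (c.op a))

/-- the new `nxt` after the flip at `a` -/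
def flipNx (c : Code) (a d : ℕ) : ℕ :=
  cond (isDiag c a d) (c.nx (c.nx d))
    (cond (isDiag c a (c.nx d)) (c.nx (c.op (c.nx d)))
      (cond (isDiag c a (c.nx (c.nx d))) (c.op (c.nx (c.nx d))) (c.nx d)))

/-- the flip at `a` -/
def flipCode (c : Code) (a : ℕ) : Code :=
  Code.mk' c.n (flipNx c a) c.op c.ta
    (fun d => cond (isDiag c a d)
      (vneg (vadd (c.zz (c.nx (c.nx d))) (c.zz (c.nx (c.op d))))) (c.zz d))
    (fun d => cond (isDiag c a d) (winv (c.lb (c.nx (c.nx d)) ++ c.lb (c.nx (c.op d)))) (c.lb d))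

/-- relabelling by `e` with the inverse `e'` -/
def relabCode (c : Code) (e e' : List ℕ) : Code :=
  Code.mk' c.n (fun d => e.getD (c.nx (e'.getD d 0)) 0) (fun d => e.getD (c.op (e'.getD d 0)) 0)
    (fun d => e.getD (c.ta (e'.getD d 0)) 0) (fun d => c.zz (e'.getD d 0))
    (fun d => c.lb (e'.getD d 0))

/-- gauge change -/
def gaugeCode (c : Code) (ks : List Wd) : Code :=
  Code.mk' c.n c.nx c.op c.ta c.zz
    (fun d => ks.getD d [] ++ c.lb d ++ winv (ks.getD (c.nx d) []))

/-- apply a move -/
def mvCode (c : Code) (μ : Mv) : Code :=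
  cond (decide (μ.1.1 = 0)) (flipCode c μ.1.2)
    (cond (decide (μ.1.1 = 1)) (relabCode c μ.2.1.1 μ.2.1.2) (gaugeCode c μ.2.2))

/-- apply a list of moves -/
def run (c : Code) (l : List Mv) : Code := l.foldl mvCode c

/-- all triangles are positively oriented -/
def posCode (J : Jt) (c : Code) : Bool :=
  (List.range c.n).all fun d => posJ J (pcr (c.zz d) (c.zz (c.nx d)))

/-- `e` and `e'` are inverse permutations of the numbers less than `n` -/
def permOK (n : ℕ) (e e' : List ℕ) : Bool :=
  (List.range n).all fun d => decide (e.getD d 0 < n) && decide (e'.getD d 0 < n) &&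
    decide (e.getD (e'.getD d 0) 0 = d) && decide (e'.getD (e.getD d 0) 0 = d)

/-- the move is allowed -/
def MOK (g : ℕ) (J : Jt) (c : Code) (μ : Mv) : Prop :=
  (μ.1.1 = 0 ∧ μ.1.2 < c.n ∧ posCode J (flipCode c μ.1.2) = true) ∨
    (μ.1.1 = 1 ∧ permOK c.n μ.2.1.1 μ.2.1.2 = true) ∨
    (2 ≤ μ.1.1 ∧ ∀ d < c.n, WEq g (μ.2.2.getD (c.op (c.nx (c.nx d))) []) (μ.2.2.getD d []) ∧
      WEq g (μ.2.2.getD (c.ta d) []) (μ.2.2.getD d []))

/-- all moves of the list are allowed -/
def PathOK (g : ℕ) (J : Jt) (c : Code) (l : List Mv) : Prop :=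
  ∀ i < l.length, MOK g J (run c (l.take i)) (l.getD i default)

end Pool.Veech
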