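import Pool.Agent.Lib.MP_fceebd_gt.Q0

/-! # Row Q1a: integer arithmetic is primitive recursive (`fun_prop` lemmas, see `RE.lean`).
`Primcodable ℤ` comes from `Denumerable ℤ` (`Primcodable.ofDenumerable`). -/

set_option autoImplicit false

namespace Pool.Veech

open RE

variable {α : Type*} [Primcodable α]

private lemma encode_int_sub (A B : ℕ) :
    Encodable.encode ((A : ℤ) - (B : ℤ)) = if B ≤ A then 2 * (A - B) else 2 * (B - A - 1) + 1 := by
  show Equiv.intEquivNat ((A : ℤ) - (B : ℤ)) = _
  split_ifs with h
  · have e : (A : ℤ) - (B : ℤ) = Int.ofNat (A - B) := by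
      simp only [Int.ofNat_eq_natCast]
      omega
    rw [e]
    rfl
  · have e : (A : ℤ) - (B : ℤ) = Int.negSucc (B - A - 1) := by
      rw [Int.negSucc_eq]
      omega
    rw [e]
    rfl

private lemma pr_zsub {f g : α → ℕ} (hf : Primrec f) (hg : Primrec g) :
    Primrec fun a => (f a : ℤ) - (g a : ℤ) := by
  rw [← Primrec.encode_iff]
  have h : Primrec fun a => cond (decide (g a ≤ f a)) (2 * (f a - g a))
      (2 * (g a - f a - 1) + 1) := by fun_prop
  refine h.of_eq fun a => ?_
  rw [encode_int_sub, Bool.cond_decide]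

private lemma toNat_eq (z : ℤ) : z.toNat =
    cond (decide (Encodable.encode z % 2 = 0)) (Encodable.encode z / 2) 0 := by
  have h := encode_int_sub z.toNat (-z).toNat
  have e : (z.toNat : ℤ) - ((-z).toNat : ℤ) = z := by omega
  rw [e] at h
  rw [h, Bool.cond_decide]
  split_ifs <;> omega

private lemma toNat_neg_eq (z : ℤ) : (-z).toNat =
    cond (decide (Encodable.encode z % 2 = 0)) 0 (Encodable.encode z / 2 + 1) := by
  have h := encode_int_sub z.toNat (-z).toNat
  have e : (z.toNat : ℤ) - ((-z).toNat : ℤ) = z := by omega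
  rw [e] at h
  rw [h, Bool.cond_decide]
  split_ifs <;> omega

private lemma pr_toNat {f : α → ℤ} (hf : Primrec f) : Primrec fun a => (f a).toNat := by
  have h1 : Primrec fun a => Encodable.encode (f a) := Primrec.encode.comp hf
  have h : Primrec fun a => cond (decide (Encodable.encode (f a) % 2 = 0))
      (Encodable.encode (f a) / 2) 0 := by fun_prop
  exact h.of_eq fun a => (toNat_eq (f a)).symm

private lemma pr_toNat_neg {f : α → ℤ} (hf : Primrec f) : Primrec fun a => (-f a).toNat := by
  have h1 : Primrec fun a => Encodable.encode (f a) := Primrec.encode.comp hf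
  have h : Primrec fun a => cond (decide (Encodable.encode (f a) % 2 = 0)) 0
      (Encodable.encode (f a) / 2 + 1) := by fun_prop
  exact h.of_eq fun a => (toNat_neg_eq (f a)).symm

private lemma split_int (z : ℤ) : z = (z.toNat : ℤ) - ((-z).toNat : ℤ) := by omega

@[fun_prop] theorem pr_ofNat {f : α → ℕ} (hf : Primrec f) : Primrec fun a => (f a : ℤ) := by
  have h : Primrec fun a => (f a : ℤ) - ((0 : ℕ) : ℤ) := pr_zsub hf (Primrec.const 0)
  exact h.of_eq fun a => by simp

@[fun_prop] theorem pr_iadd {f g : α → ℤ} (hf : Primrec f) (hg : Primrec g) :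
    Primrec fun a => f a + g a := by
  have h1 := pr_toNat hf
  have h2 := pr_toNat_neg hf
  have h3 := pr_toNat hg
  have h4 := pr_toNat_neg hg
  refine (pr_zsub (p_add h1 h3) (p_add h2 h4)).of_eq fun a => ?_
  push_cast
  omega

@[fun_prop] theorem pr_ineg {f : α → ℤ} (hf : Primrec f) : Primrec fun a => -f a := by
  refine (pr_zsub (pr_toNat_neg hf) (pr_toNat hf)).of_eq fun a => ?_
  omega

@[fun_prop] theorem pr_isub {f g : α → ℤ} (hf : Primrec f) (hg : Primrec g) :
    Primrec fun a => f a - g a := by
  refine (pr_iadd hf (pr_ineg hg)).of_eq fun a => ?_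
  omega

@[fun_prop] theorem pr_imul {f g : α → ℤ} (hf : Primrec f) (hg : Primrec g) :
    Primrec fun a => f a * g a := by
  have h1 := pr_toNat hf
  have h2 := pr_toNat_neg hf
  have h3 := pr_toNat hg
  have h4 := pr_toNat_neg hg
  refine (pr_zsub (p_add (p_mul h1 h3) (p_mul h2 h4))
    (p_add (p_mul h1 h4) (p_mul h2 h3))).of_eq fun a => ?_
  push_cast
  conv_rhs => rw [split_int (f a), split_int (g a)]
  ring

@[fun_prop] theorem pr_iabs {f : α → ℤ} (hf : Primrec f) : Primrec fun a => |f a| := by
  refine (pr_ofNat (p_add (pr_toNat hf) (pr_toNat_neg hf))).of_eq fun a => ?_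
  push_cast
  rcases abs_cases (f a) with ⟨h1, h2⟩ | ⟨h1, h2⟩ <;> omega

@[fun_prop] theorem pr_ipow {f : α → ℤ} {g : α → ℕ} (hf : Primrec f) (hg : Primrec g) :
    Primrec fun a => f a ^ g a := by
  have h : Primrec fun a => (List.range (g a)).foldr (fun _ r => f a * r) (1 : ℤ) := by
    fun_prop
  refine h.of_eq fun a => ?_
  generalize g a = n
  have : ∀ (l : List ℕ), l.foldr (fun _ r => f a * r) (1 : ℤ) = f a ^ l.length := by
    intro l
    induction l with
    | nil => simp
    | cons b l ih => rw [List.foldr_cons, ih, List.length_cons, pow_succ']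
  rw [this, List.length_range]

@[fun_prop] theorem pr_npow {f g : α → ℕ} (hf : Primrec f) (hg : Primrec g) :
    Primrec fun a => f a ^ g a := by
  have h : Primrec fun a => (List.range (g a)).foldr (fun _ r => f a * r) (1 : ℕ) := by
    fun_prop
  refine h.of_eq fun a => ?_
  have : ∀ (l : List ℕ), l.foldr (fun _ r => f a * r) (1 : ℕ) = f a ^ l.length := by
    intro l
    induction l with
    | nil => simp
    | cons b l ih => rw [List.foldr_cons, ih, List.length_cons, pow_succ']
  rw [this, List.length_range]

@[fun_prop] theorem pr_ilt {f g : α → ℤ} (hf : Primrec f) (hg : Primrec g) :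
    Primrec fun a => decide (f a < g a) := by
  have h1 := pr_toNat hf
  have h2 := pr_toNat_neg hf
  have h3 := pr_toNat hg
  have h4 := pr_toNat_neg hg
  refine (p_decide_lt (p_add h1 h4) (p_add h3 h2)).of_eq fun a => ?_
  rw [decide_eq_decide]
  omega

@[fun_prop] theorem pr_getD {β : Type*} [Primcodable β] {f : α → List β} {g : α → ℕ} (b : β)
    (hf : Primrec f) (hg : Primrec g) : Primrec fun a => (f a).getD (g a) b := by
  have h : Primrec fun a => ((f a)[g a]?).getD b := by fun_prop
  exact h.of_eq fun a => by rw [List.getD_eq_getElem?_getD]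

@[fun_prop] theorem pr_take {β : Type*} [Primcodable β] {f : α → List β} {g : α → ℕ}
    (hf : Primrec f) (hg : Primrec g) : Primrec fun a => (f a).take (g a) := by
  have h : Primrec fun a => (List.range (g a)).flatMap
      fun i => (((f a)[i]?).map fun b => [b]).getD [] := by fun_prop
  refine h.of_eq fun a => ?_
  generalize f a = l
  induction g a with
  | zero => simp
  | succ n ih =>
    rw [List.range_succ, List.flatMap_append, ih, List.take_add_one, List.flatMap_singleton]
    cases l[n]? <;> simp

@[fun_prop] theorem pr_reverse {β : Type*} [Primcodable β] {f : α → List β}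
    (hf : Primrec f) : Primrec fun a => (f a).reverse := Primrec.list_reverse.comp hf

@[fun_prop] theorem pr_foldl {β σ : Type*} [Primcodable β] [Primcodable σ] {f : α → List β}
    {g : α → σ} {h : α → σ → β → σ} (hf : Primrec f) (hg : Primrec g)
    (hh : Primrec fun p : α × σ × β => h p.1 p.2.1 p.2.2) :
    Primrec fun a => (f a).foldl (h a) (g a) :=
  Primrec.list_foldl (h := fun a p => h a p.1 p.2) hf hg hh

@[fun_prop] theorem pr_zsum {f : α → List ℤ} (hf : Primrec f) :
    Primrec fun a => zsum (f a) := by
  unfold zsum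
  fun_prop

/-- bounded search: `∃ i < n` -/
theorem S1.bexists {p : α → ℕ → Prop} (h : S1 fun x : α × ℕ => p x.1 x.2) {l : α → ℕ}
    (hl : Primrec l) : S1 fun a => ∃ b < l a, p a b := by
  refine S1.exists (p := fun a b => b < l a ∧ p a b) (S1.and ?_ h)
  exact S1.of_bool (f := fun x : α × ℕ => decide (x.2 < l x.1)) (by fun_prop) (fun x => by simp)

private theorem rtc_iff {β : Type*} [DecidableEq β] (r : β → β → Prop) (s t : β) :
    Relation.ReflTransGen r s t ↔ ∃ L : List (β × β), (∀ p ∈ L, r p.1 p.2) ∧
      L.foldl (fun (o : β × Bool) p => (p.2, o.2 && decide (o.1 = p.1))) (s, true) = (t, true) := by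
  constructor
  · intro h
    induction h with
    | refl => exact ⟨[], by simp, rfl⟩
    | tail _ hbc ih =>
      rename_i b c _
      obtain ⟨L, h1, h2⟩ := ih
      refine ⟨L ++ [(b, c)], ?_, ?_⟩
      · intro p hp
        rcases List.mem_append.1 hp with hp | hp
        · exact h1 p hp
        · rw [List.mem_singleton.1 hp]; exact hbc
      · rw [List.foldl_append, h2]
        simp
  · rintro ⟨L, h1, h2⟩
    have key : ∀ (L : List (β × β)) (s : β) (o : Bool), (∀ p ∈ L, r p.1 p.2) →
        L.foldl (fun (o : β × Bool) p => (p.2, o.2 && decide (o.1 = p.1))) (s, o) = (t, true) →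
        o = true ∧ Relation.ReflTransGen r s t := by
      intro L
      induction L with
      | nil =>
        intro s o _ h
        simp only [List.foldl_nil, Prod.mk.injEq] at h
        obtain ⟨rfl, rfl⟩ := h
        exact ⟨rfl, Relation.ReflTransGen.refl⟩
      | cons p L ih =>
        intro s o h1 h
        rw [List.foldl_cons] at h
        obtain ⟨h3, h4⟩ := ih _ _ (fun q hq => h1 q (by simp [hq])) h
        simp only [Bool.and_eq_true, decide_eq_true_eq] at h3
        refine ⟨h3.1, ?_⟩
        refine Relation.ReflTransGen.head ?_ h4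
        rw [h3.2]
        exact h1 p (by simp)
    exact (key L s true h1 h2).2

/-- Reflexive transitive closure. -/
theorem S1.rtc {β : Type*} [Primcodable β] {r : α → β → β → Prop}
    (h : S1 fun x : α × β × β => r x.1 x.2.1 x.2.2) :
    S1 fun x : α × β × β => Relation.ReflTransGen (r x.1) x.2.1 x.2.2 := by
  let _ : DecidableEq β := Encodable.decidableEqOfEncodable β
  refine S1.of_eq ?_ (fun x => (rtc_iff (r x.1) x.2.1 x.2.2).symm)
  refine S1.exists (p := fun (x : α × β × β) (L : List (β × β)) => (∀ p ∈ L, r x.1 p.1 p.2) ∧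
      L.foldl (fun (o : β × Bool) (p : β × β) => (p.2, o.2 && decide (o.1 = p.1)))
        (x.2.1, true) = (x.2.2, true)) (S1.and ?_ ?_)
  · refine S1.ball (p := fun (x : (α × β × β) × List (β × β)) (p : β × β) => r x.1.1 p.1 p.2) ?_
      (l := fun x => x.2) (by fun_prop)
    exact S1.comp (g := fun x : ((α × β × β) × List (β × β)) × (β × β) => (x.1.1.1, x.2.1, x.2.2))
      h (by fun_prop)
  · refine S1.of_bool (f := fun x : (α × β × β) × List (β × β) =>
      decide (x.2.foldl (fun (o : β × Bool) (p : β × β) => (p.2, o.2 && decide (o.1 = p.1)))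
        (x.1.2.1, true) = (x.1.2.2, true))) ?_ (fun x => by simp)
    fun_prop

theorem S1.const (P : Prop) : S1 fun _ : α => P := by
  by_cases h : P
  · exact S1.of_bool (f := fun _ => true) (by fun_prop) (fun _ => by simp [h])
  · exact S1.of_bool (f := fun _ => false) (by fun_prop) (fun _ => by simp [h])

end Pool.Veech
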