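import Pool.Agent.Lib.MP_fceebd_gt.Q1a

/-! # Row Q1b: the functions of `Q0` are primitive recursive -/

set_option autoImplicit false

namespace Pool.Veech

open RE

variable {α : Type*} [Primcodable α]

@[fun_prop] theorem pr_cf {f : α → ZP} {g : α → ℕ} (hf : Primrec f) (hg : Primrec g) :
    Primrec fun a => cf (f a) (g a) := by
  unfold cf
  exact pr_getD 0 hf hg

@[fun_prop] theorem pr_padd {f g : α → ZP} (hf : Primrec f) (hg : Primrec g) :
    Primrec fun a => padd (f a) (g a) := by
  unfold padd
  fun_prop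

@[fun_prop] theorem pr_pneg {f : α → ZP} (hf : Primrec f) : Primrec fun a => pneg (f a) := by
  unfold pneg
  fun_prop

@[fun_prop] theorem pr_psub {f g : α → ZP} (hf : Primrec f) (hg : Primrec g) :
    Primrec fun a => psub (f a) (g a) := by
  unfold psub
  fun_prop

@[fun_prop] theorem pr_pmul {f g : α → ZP} (hf : Primrec f) (hg : Primrec g) :
    Primrec fun a => pmul (f a) (g a) := by
  unfold pmul
  fun_prop

@[fun_prop] theorem pr_psum {f : α → List ZP} (hf : Primrec f) :
    Primrec fun a => psum (f a) := by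
  have h : Primrec fun a => (f a).foldr (fun x y => padd x y) [] := by fun_prop
  exact h

@[fun_prop] theorem pr_pzero {f : α → ZP} (hf : Primrec f) : Primrec fun a => pzero (f a) := by
  unfold pzero
  fun_prop

theorem S1_EqM {f g : α → ZP} (hf : Primrec f) (hg : Primrec g) :
    S1 fun a => EqM (f a) (g a) := by
  unfold EqM
  refine S1.exists (p := fun a (q : ZP) => pzero (psub (g a) (pmul (f a) q)) = true) ?_
  refine S1.of_bool (f := fun x : α × ZP => pzero (psub (g x.1) (pmul (f x.1) x.2))) ?_
    (fun _ => Iff.rfl)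
  fun_prop

@[fun_prop] private theorem Q1b_evalH {f : α → ZP} {g : α → ℤ} {h : α → ℕ} (hf : Primrec f)
    (hg : Primrec g) (hh : Primrec h) : Primrec fun a => evalH (f a) (g a) (h a) := by
  unfold evalH
  fun_prop

@[fun_prop] private theorem Q1b_varH {f : α → ZP} {g : α → ℤ} {h : α → ℕ} (hf : Primrec f)
    (hg : Primrec g) (hh : Primrec h) : Primrec fun a => varH (f a) (g a) (h a) := by
  unfold varH
  fun_prop

@[fun_prop] theorem pr_posJ {f : α → Jt} {g : α → ZP} (hf : Primrec f) (hg : Primrec g) :
    Primrec fun a => posJ (f a) (g a) := by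
  unfold posJ
  fun_prop

@[fun_prop] theorem pr_rootJ {f : α → Jt} {g : α → ZP} (hf : Primrec f) (hg : Primrec g) :
    Primrec fun a => rootJ (f a) (g a) := by
  unfold rootJ
  fun_prop

@[fun_prop] theorem pr_winv {f : α → Wd} (hf : Primrec f) : Primrec fun a => winv (f a) := by
  unfold winv
  fun_prop

@[fun_prop] theorem pr_subst {n : α → ℕ} {w : α → List Wd} {f : α → Wd} (hn : Primrec n)
    (hw : Primrec w) (hf : Primrec f) : Primrec fun a => subst (n a) (w a) (f a) := by
  unfold subst
  fun_prop

@[fun_prop] theorem pr_substL {n : α → ℕ} {w : α → List (List Wd)} {f : α → Wd}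
    (hn : Primrec n) (hw : Primrec w) (hf : Primrec f) :
    Primrec fun a => substL (n a) (w a) (f a) := by
  unfold substL
  fun_prop

@[fun_prop] theorem pr_codeN {c : α → Code} (hc : Primrec c) : Primrec fun a => (c a).n := by
  unfold Code.n
  fun_prop

@[fun_prop] theorem pr_nx {c : α → Code} {d : α → ℕ} (hc : Primrec c) (hd : Primrec d) :
    Primrec fun a => (c a).nx (d a) := by
  unfold Code.nx
  fun_prop

@[fun_prop] theorem pr_op {c : α → Code} {d : α → ℕ} (hc : Primrec c) (hd : Primrec d) :
    Primrec fun a => (c a).op (d a) := by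
  unfold Code.op
  fun_prop

@[fun_prop] theorem pr_ta {c : α → Code} {d : α → ℕ} (hc : Primrec c) (hd : Primrec d) :
    Primrec fun a => (c a).ta (d a) := by
  unfold Code.ta
  fun_prop

@[fun_prop] theorem pr_zz {c : α → Code} {d : α → ℕ} (hc : Primrec c) (hd : Primrec d) :
    Primrec fun a => (c a).zz (d a) := by
  unfold Code.zz
  fun_prop

@[fun_prop] theorem pr_lb {c : α → Code} {d : α → ℕ} (hc : Primrec c) (hd : Primrec d) :
    Primrec fun a => (c a).lb (d a) := by
  unfold Code.lb
  fun_prop

@[fun_prop] theorem pr_mk {n : α → ℕ} {x y t : α → ℕ → ℕ} {z : α → ℕ → ZP × ZP}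
    {l : α → ℕ → Wd} (hn : Primrec n) (hx : Primrec fun p : α × ℕ => x p.1 p.2)
    (hy : Primrec fun p : α × ℕ => y p.1 p.2) (ht : Primrec fun p : α × ℕ => t p.1 p.2)
    (hz : Primrec fun p : α × ℕ => z p.1 p.2) (hl : Primrec fun p : α × ℕ => l p.1 p.2) :
    Primrec fun a => Code.mk' (n a) (x a) (y a) (t a) (z a) (l a) := by
  unfold Code.mk'
  have hr : Primrec fun a => List.range (n a) := by fun_prop
  exact p_pair (p_pair (p_map hr hx) (p_pair (p_map hr hy) (p_map hr ht)))
    (p_pair (p_map hr hz) (p_map hr hl))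

@[fun_prop] theorem pr_pcr {f g : α → ZP × ZP} (hf : Primrec f) (hg : Primrec g) :
    Primrec fun a => pcr (f a) (g a) := by
  unfold pcr
  fun_prop

@[fun_prop] theorem pr_pip {f g : α → ZP × ZP} (hf : Primrec f) (hg : Primrec g) :
    Primrec fun a => pip (f a) (g a) := by
  unfold pip
  fun_prop

@[fun_prop] theorem pr_vadd {f g : α → ZP × ZP} (hf : Primrec f) (hg : Primrec g) :
    Primrec fun a => vadd (f a) (g a) := by
  unfold vadd
  fun_prop

@[fun_prop] theorem pr_vneg {f : α → ZP × ZP} (hf : Primrec f) :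
    Primrec fun a => vneg (f a) := by
  unfold vneg
  fun_prop

@[fun_prop] private theorem Q1b_isDiag {c : α → Code} {a d : α → ℕ} (hc : Primrec c)
    (ha : Primrec a) (hd : Primrec d) : Primrec fun x => isDiag (c x) (a x) (d x) := by
  unfold isDiag
  fun_prop

@[fun_prop] private theorem Q1b_flipNx {c : α → Code} {a d : α → ℕ} (hc : Primrec c)
    (ha : Primrec a) (hd : Primrec d) : Primrec fun x => flipNx (c x) (a x) (d x) := by
  unfold flipNx
  fun_prop

@[fun_prop] theorem pr_flipCode {c : α → Code} {d : α → ℕ} (hc : Primrec c)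
    (hd : Primrec d) : Primrec fun a => flipCode (c a) (d a) := by
  unfold flipCode
  fun_prop

@[fun_prop] private theorem Q1b_relab {c : α → Code} {e e' : α → List ℕ} (hc : Primrec c)
    (he : Primrec e) (he' : Primrec e') : Primrec fun x => relabCode (c x) (e x) (e' x) := by
  unfold relabCode
  fun_prop

@[fun_prop] private theorem Q1b_gauge {c : α → Code} {k : α → List Wd} (hc : Primrec c)
    (hk : Primrec k) : Primrec fun x => gaugeCode (c x) (k x) := by
  unfold gaugeCode
  fun_prop

@[fun_prop] theorem pr_mvCode {c : α → Code} {μ : α → Mv} (hc : Primrec c) (hμ : Primrec μ) :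
    Primrec fun a => mvCode (c a) (μ a) := by
  unfold mvCode
  fun_prop

@[fun_prop] theorem pr_run {c : α → Code} {l : α → List Mv} (hc : Primrec c)
    (hl : Primrec l) : Primrec fun a => run (c a) (l a) := by
  have h : Primrec fun a => (l a).foldl (fun x y => mvCode x y) (c a) := by fun_prop
  exact h

@[fun_prop] theorem pr_posCode {J : α → Jt} {c : α → Code} (hJ : Primrec J)
    (hc : Primrec c) : Primrec fun a => posCode (J a) (c a) := by
  unfold posCode
  fun_prop

@[fun_prop] theorem pr_permOK {n : α → ℕ} {e e' : α → List ℕ} (hn : Primrec n)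
    (he : Primrec e) (he' : Primrec e') : Primrec fun a => permOK (n a) (e a) (e' a) := by
  unfold permOK
  fun_prop

end Pool.Veech
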