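import Pool.Agent.Lib.MP_fceebd_gt.Q0

/-! # Row Q2: polynomials as lists, signs, roots (no computability) -/

set_option autoImplicit false

open Polynomial

namespace Pool.Veech

private theorem getD_map_rangeQ {β : Type*} (h : ℕ → β) (n i : ℕ) (d : β) :
    ((List.range n).map h).getD i d = if i < n then h i else d := by
  split_ifs with hi
  · rw [List.getD_eq_getElem _ _ (by simpa using hi)]
    simp
  · rw [List.getD_eq_default]
    simpa using hi

private theorem cf_of_le (f : ZP) {i : ℕ} (h : f.length ≤ i) : cf f i = 0 := by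
  unfold cf
  exact List.getD_eq_default _ _ h

private theorem cf_nil (i : ℕ) : cf [] i = 0 := cf_of_le _ (Nat.zero_le _)

private theorem zsum_range (h : ℕ → ℤ) (n : ℕ) :
    zsum ((List.range n).map h) = ∑ i ∈ Finset.range n, h i := by
  have h1 : ∀ l : List ℤ, zsum l = l.sum := fun l => by
    induction l with
    | nil => rfl
    | cons a l ih => rw [List.sum_cons, ← ih]; rfl
  rw [h1]
  induction n with
  | zero => simp
  | succ n ih => rw [List.range_succ, List.map_append, List.sum_append, ih, Finset.sum_range_succ]; simp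

theorem toPoly_coeff (f : ZP) (i : ℕ) : (toPoly f).coeff i = cf f i := by
  unfold toPoly
  rw [Polynomial.finsetSum_coeff]
  simp only [Polynomial.coeff_C_mul, Polynomial.coeff_X_pow, mul_ite, mul_one, mul_zero]
  rw [Finset.sum_ite_eq]
  split_ifs with h
  · rfl
  · rw [Finset.mem_range, not_lt] at h
    exact (cf_of_le f h).symm

private theorem cf_padd (f g : ZP) (i : ℕ) : cf (padd f g) i = cf f i + cf g i := by
  conv_lhs => unfold cf padd
  rw [getD_map_rangeQ]
  split_ifs with h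
  · rfl
  · rw [cf_of_le f (by omega), cf_of_le g (by omega), add_zero]

private theorem cf_pneg (f : ZP) (i : ℕ) : cf (pneg f) i = -cf f i := by
  unfold cf pneg
  have := List.getD_map (l := f) (n := i) (d := 0) (fun a : ℤ => -a)
  rw [neg_zero] at this
  exact this

private theorem cf_pmul (f g : ZP) (i : ℕ) :
    cf (pmul f g) i = ∑ j ∈ Finset.range (i + 1), cf f j * cf g (i - j) := by
  conv_lhs => unfold cf pmul
  rw [getD_map_rangeQ]
  split_ifs with h
  · exact zsum_range _ _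
  · symm
    refine Finset.sum_eq_zero fun j hj => ?_
    rw [Finset.mem_range] at hj
    by_cases hjf : f.length ≤ j
    · rw [cf_of_le f hjf, zero_mul]
    · rw [cf_of_le g (by omega), mul_zero]

theorem toPoly_padd (f g : ZP) : toPoly (padd f g) = toPoly f + toPoly g := by
  ext i
  rw [Polynomial.coeff_add, toPoly_coeff, toPoly_coeff, toPoly_coeff, cf_padd]

theorem toPoly_pneg (f : ZP) : toPoly (pneg f) = -toPoly f := by
  ext i
  rw [Polynomial.coeff_neg, toPoly_coeff, toPoly_coeff, cf_pneg]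

theorem toPoly_psub (f g : ZP) : toPoly (psub f g) = toPoly f - toPoly g := by
  rw [psub, toPoly_padd, toPoly_pneg, sub_eq_add_neg]

theorem toPoly_pmul (f g : ZP) : toPoly (pmul f g) = toPoly f * toPoly g := by
  ext i
  rw [toPoly_coeff, cf_pmul, Polynomial.coeff_mul,
    Finset.Nat.sum_antidiagonal_eq_sum_range_succ
      (fun a b => (toPoly f).coeff a * (toPoly g).coeff b)]
  refine Finset.sum_congr rfl fun j _ => ?_
  rw [toPoly_coeff, toPoly_coeff]

private theorem toPoly_nil : toPoly [] = 0 := by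
  simp [toPoly]

theorem toPoly_psum (l : List ZP) : toPoly (psum l) = (l.map toPoly).sum := by
  induction l with
  | nil => simp [psum, toPoly_nil]
  | cons f l ih =>
    rw [List.map_cons, List.sum_cons, ← ih, ← toPoly_padd]
    rfl

private theorem cf_map_coeff (q : ℤ[X]) (i : ℕ) :
    cf ((List.range (q.natDegree + 1)).map q.coeff) i = q.coeff i := by
  unfold cf
  rw [getD_map_rangeQ]
  split_ifs with h
  · rfl
  · exact (Polynomial.coeff_eq_zero_of_natDegree_lt (by omega)).symm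

private theorem toPoly_map_coeff (q : ℤ[X]) :
    toPoly ((List.range (q.natDegree + 1)).map q.coeff) = q := by
  ext i
  rw [toPoly_coeff, cf_map_coeff]

theorem toPoly_surj (q : ℤ[X]) : ∃ f : ZP, toPoly f = q := ⟨_, toPoly_map_coeff q⟩

theorem pzero_iff (f : ZP) : pzero f = true ↔ toPoly f = 0 := by
  unfold pzero
  rw [List.all_eq_true]
  constructor
  · intro h
    ext i
    rw [toPoly_coeff, Polynomial.coeff_zero]
    by_cases hi : i < f.length
    · have h1 := h _ (List.getElem_mem hi)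
      rw [decide_eq_true_eq] at h1
      unfold cf
      rw [List.getD_eq_getElem _ _ hi]
      exact h1
    · exact cf_of_le f (not_lt.1 hi)
  · intro h a ha
    obtain ⟨i, hi, rfl⟩ := List.getElem_of_mem ha
    have h1 := toPoly_coeff f i
    rw [h, Polynomial.coeff_zero] at h1
    unfold cf at h1
    rw [List.getD_eq_getElem _ _ hi] at h1
    rw [decide_eq_true_eq]
    exact h1.symm

theorem EqM_iff (p f : ZP) : EqM p f ↔ toPoly p ∣ toPoly f := by
  unfold EqM
  constructor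
  · rintro ⟨q, hq⟩
    rw [pzero_iff, toPoly_psub, toPoly_pmul, sub_eq_zero] at hq
    exact ⟨_, hq⟩
  · rintro ⟨q, hq⟩
    obtain ⟨g, rfl⟩ := toPoly_surj q
    exact ⟨g, by rw [pzero_iff, toPoly_psub, toPoly_pmul, sub_eq_zero]; exact hq⟩

/-- `(toPoly p)` is monic of degree `p.length - 1` if the last coefficient is `1` -/
theorem toPoly_monic {p : ZP} {k : ℕ} (hk : p.length = k + 1) (h : cf p k = 1) :
    (toPoly p).Monic ∧ (toPoly p).natDegree = k := by
  have h1 : (toPoly p).natDegree ≤ k := by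
    rw [Polynomial.natDegree_le_iff_coeff_eq_zero]
    intro i hi
    rw [toPoly_coeff]
    exact cf_of_le p (by omega)
  have h2 : (toPoly p).coeff k = 1 := by rw [toPoly_coeff, h]
  refine ⟨Polynomial.monic_of_natDegree_le_of_coeff_eq_one k h1 h2, le_antisymm h1 ?_⟩
  exact Polynomial.le_natDegree_of_ne_zero (by rw [h2]; exact one_ne_zero)

theorem exists_monic {q : ℤ[X]} (hq : q.Monic) :
    ∃ p : ZP, toPoly p = q ∧ p.length = q.natDegree + 1 ∧ cf p q.natDegree = 1 := by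
  refine ⟨(List.range (q.natDegree + 1)).map q.coeff, toPoly_map_coeff q, by simp, ?_⟩
  rw [cf_map_coeff]
  exact hq

/-- soundness of `EqM` -/
theorem EqM.eval {p f : ZP} {t : ℝ} (h : EqM p f) (ht : aeval t (toPoly p) = 0) :
    aeval t (toPoly f) = 0 := by
  obtain ⟨q, hq⟩ := (EqM_iff p f).1 h
  rw [hq, map_mul, ht, zero_mul]

/-- completeness of `EqM` for the minimal polynomial (`minpoly.isIntegrallyClosed_dvd`) -/
theorem EqM.of_eval {p f : ZP} {t : ℝ} (ht : IsIntegral ℤ t) (hp : toPoly p = minpoly ℤ t)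
    (h : aeval t (toPoly f) = 0) : EqM p f := by
  rw [EqM_iff, hp]
  exact minpoly.isIntegrallyClosed_dvd ht h

private theorem aeval_toPoly (f : ZP) (x : ℝ) :
    aeval x (toPoly f) = ∑ i ∈ Finset.range f.length, (cf f i : ℝ) * x ^ i := by
  unfold toPoly
  rw [map_sum]
  refine Finset.sum_congr rfl fun i _ => ?_
  rw [map_mul, map_pow, aeval_X, aeval_C]
  simp

private theorem evalH_eq (f : ZP) (a : ℤ) {b : ℕ} (hb : 0 < b) :
    (evalH f a b : ℝ) = (b : ℝ) ^ f.length * aeval ((a : ℝ) / b) (toPoly f) := by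
  have hb' : (b : ℝ) ≠ 0 := by exact_mod_cast hb.ne'
  unfold evalH
  rw [zsum_range, aeval_toPoly, Finset.mul_sum]
  push_cast
  refine Finset.sum_congr rfl fun i hi => ?_
  rw [Finset.mem_range] at hi
  have h1 : (b : ℝ) ^ f.length = (b : ℝ) ^ (f.length - i) * (b : ℝ) ^ i := by
    rw [← pow_add]; congr 1; omega
  rw [h1, div_pow]
  field_simp

/-- the bound for the variation -/
private theorem aeval_sub_le (f : ZP) {x y M : ℝ} (hx : |x| ≤ M) (hy : |y| ≤ M) :
    |aeval x (toPoly f) - aeval y (toPoly f)| ≤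
      (∑ i ∈ Finset.range f.length, (i : ℝ) * |(cf f i : ℝ)| * M ^ (i - 1)) * |x - y| := by
  rw [aeval_toPoly, aeval_toPoly, ← Finset.sum_sub_distrib, Finset.sum_mul]
  refine (Finset.abs_sum_le_sum_abs _ _).trans (Finset.sum_le_sum fun i _ => ?_)
  rw [← mul_sub, abs_mul]
  have h1 := abs_pow_sub_pow_le x y i
  have h2 : max |x| |y| ^ (i - 1) ≤ M ^ (i - 1) :=
    pow_le_pow_left₀ (le_max_of_le_left (abs_nonneg _)) (max_le hx hy) _
  have h3 : |x - y| * i * max |x| |y| ^ (i - 1) ≤ |x - y| * i * M ^ (i - 1) :=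
    mul_le_mul_of_nonneg_left h2 (mul_nonneg (abs_nonneg _) (Nat.cast_nonneg _))
  calc |(cf f i : ℝ)| * |x ^ i - y ^ i| ≤ |(cf f i : ℝ)| * (|x - y| * i * M ^ (i - 1)) :=
        mul_le_mul_of_nonneg_left (h1.trans h3) (abs_nonneg _)
    _ = (i : ℝ) * |(cf f i : ℝ)| * M ^ (i - 1) * |x - y| := by ring

private theorem varH_eq (f : ZP) (a : ℤ) {b : ℕ} (hb : 0 < b) :
    (varH f a b : ℝ) = (b : ℝ) ^ f.length *
      ((∑ i ∈ Finset.range f.length, (i : ℝ) * |(cf f i : ℝ)| *
        ((|(a : ℝ)| + 1) / b) ^ (i - 1)) * (1 / b)) := by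
  have hb' : (b : ℝ) ≠ 0 := by exact_mod_cast hb.ne'
  unfold varH
  rw [zsum_range, Finset.sum_mul, Finset.mul_sum]
  push_cast
  refine Finset.sum_congr rfl fun i hi => ?_
  rw [Finset.mem_range] at hi
  rcases Nat.eq_zero_or_pos i with h0 | h0
  · subst h0
    simp
  · have h1 : (b : ℝ) ^ f.length = (b : ℝ) ^ (f.length - i) * ((b : ℝ) ^ (i - 1) * b) := by
      rw [← pow_succ, ← pow_add]; congr 1; omega
    rw [h1, div_pow]
    field_simp

/-- a root in `J`: the choice of the root is fixed for each pair `(p, J)` -/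
theorem exists_root {J : Jt} {p : ZP} (h : rootJ J p = true) :
    ∃ t : ℝ, |t * J.2 - J.1| ≤ 1 ∧ aeval t (toPoly p) = 0 := by
  obtain ⟨a, b⟩ := J
  unfold rootJ at h
  rw [Bool.and_eq_true, decide_eq_true_eq, decide_eq_true_eq] at h
  obtain ⟨hb, h⟩ := h
  simp only at hb h ⊢
  have hb' : (0 : ℝ) < b := by exact_mod_cast hb
  have h1 : ((evalH p (a - 1) b : ℤ) : ℝ) * ((evalH p (a + 1) b : ℤ) : ℝ) < 0 := by
    exact_mod_cast h
  rw [evalH_eq p _ hb, evalH_eq p _ hb] at h1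
  push_cast at h1
  have hp : 0 < (b : ℝ) ^ p.length := pow_pos hb' _
  have h2 : aeval (((a : ℝ) - 1) / b) (toPoly p) * aeval (((a : ℝ) + 1) / b) (toPoly p) < 0 := by
    by_contra hc
    rw [not_lt] at hc
    have := mul_nonneg (mul_pos hp hp).le hc
    linarith
  have hle : ((a : ℝ) - 1) / b ≤ ((a : ℝ) + 1) / b := by
    apply div_le_div_of_nonneg_right _ hb'.le
    linarith
  have hcont : ContinuousOn (fun x : ℝ => aeval x (toPoly p))
      (Set.Icc (((a : ℝ) - 1) / b) (((a : ℝ) + 1) / b)) :=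
    (Polynomial.continuous_aeval _).continuousOn
  have hmem : ∃ t ∈ Set.Icc (((a : ℝ) - 1) / b) (((a : ℝ) + 1) / b),
      aeval t (toPoly p) = 0 := by
    rcases mul_neg_iff.1 h2 with ⟨h3, h4⟩ | ⟨h3, h4⟩
    · obtain ⟨t, ht, ht0⟩ := intermediate_value_Icc' hle hcont ⟨h4.le, h3.le⟩
      exact ⟨t, ht, ht0⟩
    · obtain ⟨t, ht, ht0⟩ := intermediate_value_Icc hle hcont ⟨h3.le, h4.le⟩
      exact ⟨t, ht, ht0⟩
  obtain ⟨t, ⟨ht1, ht2⟩, ht0⟩ := hmem
  refine ⟨t, ?_, ht0⟩
  rw [div_le_iff₀ hb'] at ht1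
  rw [le_div_iff₀ hb'] at ht2
  rw [abs_le]
  constructor <;> linarith

private theorem abs_le_of_J {a : ℤ} {b : ℕ} (hb : 0 < b) {t : ℝ} (ht : |t * b - a| ≤ 1) :
    |t| ≤ (|(a : ℝ)| + 1) / b ∧ |(a : ℝ) / b| ≤ (|(a : ℝ)| + 1) / b ∧ |t - (a : ℝ) / b| ≤ 1 / b := by
  have hb' : (0 : ℝ) < b := by exact_mod_cast hb
  refine ⟨?_, ?_, ?_⟩
  · rw [le_div_iff₀ hb']
    calc |t| * b = |t * b| := by rw [abs_mul, abs_of_pos hb']
      _ = |a + (t * b - a)| := by ring_nf
      _ ≤ |(a : ℝ)| + |t * b - a| := abs_add_le _ _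
      _ ≤ |(a : ℝ)| + 1 := by linarith
  · rw [abs_div, abs_of_pos hb']
    exact div_le_div_of_nonneg_right (by linarith) hb'.le
  · have h1 : t - (a : ℝ) / b = (t * b - a) / b := by field_simp
    rw [h1, abs_div, abs_of_pos hb']
    exact div_le_div_of_nonneg_right ht hb'.le

/-- soundness of `posJ` -/
theorem posJ_sound {J : Jt} {f : ZP} (h : posJ J f = true) {t : ℝ} (ht : |t * J.2 - J.1| ≤ 1) :
    0 < aeval t (toPoly f) := by
  obtain ⟨a, b⟩ := J
  unfold posJ at h
  rw [Bool.and_eq_true, decide_eq_true_eq, decide_eq_true_eq] at h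
  obtain ⟨hb, h⟩ := h
  simp only at hb h ht
  have hb' : (0 : ℝ) < b := by exact_mod_cast hb
  obtain ⟨h1, h2, h3⟩ := abs_le_of_J hb ht
  have h4 : ((varH f a b : ℤ) : ℝ) < ((evalH f a b : ℤ) : ℝ) := by exact_mod_cast h
  rw [evalH_eq f a hb, varH_eq f a hb] at h4
  have h5 := lt_of_mul_lt_mul_left h4 (pow_pos hb' _).le
  have h6 := aeval_sub_le f h1 h2
  have h7 : (∑ i ∈ Finset.range f.length, (i : ℝ) * |(cf f i : ℝ)| *
        ((|(a : ℝ)| + 1) / b) ^ (i - 1)) * |t - (a : ℝ) / b| ≤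
      (∑ i ∈ Finset.range f.length, (i : ℝ) * |(cf f i : ℝ)| *
        ((|(a : ℝ)| + 1) / b) ^ (i - 1)) * (1 / b) := by
    refine mul_le_mul_of_nonneg_left h3 (Finset.sum_nonneg fun i _ => ?_)
    have : (0 : ℝ) ≤ (|(a : ℝ)| + 1) / b := div_nonneg (by positivity) hb'.le
    positivity
  have h8 := (abs_le.1 (h6.trans h7)).1
  linarith

/-- completeness of `posJ` -/
theorem posJ_complete {f : ZP} {t : ℝ} (h : 0 < aeval t (toPoly f)) :
    ∃ ε : ℝ, 0 < ε ∧ ∀ J : Jt, Good t ε J → posJ J f = true := by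
  set K : ℝ := ∑ i ∈ Finset.range f.length, (i : ℝ) * |(cf f i : ℝ)| * (|t| + 2) ^ (i - 1)
    with hK
  have hK0 : 0 ≤ K := Finset.sum_nonneg fun i _ => by positivity
  refine ⟨aeval t (toPoly f) / (2 * K + 1), div_pos h (by linarith), ?_⟩
  rintro ⟨a, b⟩ ⟨hb, hJ, hε⟩
  simp only at hb hJ hε
  have hb' : (0 : ℝ) < b := by exact_mod_cast hb
  have hb1 : (1 : ℝ) ≤ b := by exact_mod_cast hb
  obtain ⟨h1, h2, h3⟩ := abs_le_of_J hb hJ.le
  -- `(|a| + 1) / b ≤ |t| + 2`
  have h4 : (|(a : ℝ)| + 1) / b ≤ |t| + 2 := by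
    rw [div_le_iff₀ hb']
    have h5 : |(a : ℝ)| ≤ |t| * b + 1 := by
      calc |(a : ℝ)| = |t * b - (t * b - a)| := by ring_nf
        _ ≤ |t * b| + |t * b - a| := abs_sub _ _
        _ ≤ |t| * b + 1 := by rw [abs_mul, abs_of_pos hb']; linarith
    nlinarith
  have hvar : (∑ i ∈ Finset.range f.length, (i : ℝ) * |(cf f i : ℝ)| *
      ((|(a : ℝ)| + 1) / b) ^ (i - 1)) ≤ K := by
    rw [hK]
    refine Finset.sum_le_sum fun i _ => mul_le_mul_of_nonneg_left ?_ (by positivity)
    exact pow_le_pow_left₀ (div_nonneg (by positivity) hb'.le) h4 _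
  have h6 := aeval_sub_le f h1 h2
  have h7 : |aeval t (toPoly f) - aeval ((a : ℝ) / b) (toPoly f)| ≤ K * (1 / b) :=
    h6.trans (mul_le_mul hvar h3 (abs_nonneg _) hK0)
  have h8 := (abs_le.1 h7).2
  -- `2 K / b < f t`
  have h9 : K * (1 / b) + K * (1 / b) < aeval t (toPoly f) := by
    rw [div_mul_eq_mul_div, lt_div_iff₀ (by linarith)] at hε
    have h10 : K * (1 / b) + K * (1 / b) = (2 * K) / b := by ring
    rw [h10, div_lt_iff₀ hb']
    linarith
  unfold posJ
  rw [Bool.and_eq_true, decide_eq_true_eq, decide_eq_true_eq]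
  refine ⟨hb, ?_⟩
  simp only
  have h11 : ((varH f a b : ℤ) : ℝ) < ((evalH f a b : ℤ) : ℝ) := by
    rw [evalH_eq f a hb, varH_eq f a hb]
    refine mul_lt_mul_of_pos_left ?_ (pow_pos hb' _)
    have h12 : (∑ i ∈ Finset.range f.length, (i : ℝ) * |(cf f i : ℝ)| *
        ((|(a : ℝ)| + 1) / b) ^ (i - 1)) * (1 / b) ≤ K * (1 / b) :=
      mul_le_mul_of_nonneg_right hvar (by positivity)
    linarith
  exact_mod_cast h11

theorem Good.mono {t ε ε' : ℝ} {J : Jt} (h : Good t ε J) (he : ε ≤ ε') : Good t ε' J := by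
  obtain ⟨h1, h2, h3⟩ := h
  refine ⟨h1, h2, lt_of_lt_of_le h3 ?_⟩
  exact mul_le_mul_of_nonneg_right he (Nat.cast_nonneg _)

private theorem deriv_ne (t : ℝ) (ht : IsIntegral ℤ t) :
    aeval t (derivative (minpoly ℤ t)) ≠ 0 := by
  intro h0
  have hdvd := minpoly.isIntegrallyClosed_dvd ht h0
  have hmon := minpoly.monic ht
  have hpos : 0 < (minpoly ℤ t).natDegree := minpoly.natDegree_pos ht
  have hne : derivative (minpoly ℤ t) ≠ 0 := by
    intro h1
    have h2 := Polynomial.derivative_eq_zero.1 h1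
    omega
  exact hmon.not_dvd_of_natDegree_lt hne
    (Polynomial.natDegree_derivative_lt hpos.ne') hdvd

/-- there are small intervals on which the minimal polynomial changes its sign (`t` is a simple
root) -/
theorem exists_good {p : ZP} {t : ℝ} (ht : IsIntegral ℤ t) (hp : toPoly p = minpoly ℤ t)
    {ε : ℝ} (hε : 0 < ε) : ∃ J : Jt, Good t ε J ∧ rootJ J p = true := by
  -- factorisation
  set P : ℝ[X] := (minpoly ℤ t).map (algebraMap ℤ ℝ) with hP
  have hPt : P.IsRoot t := by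
    rw [Polynomial.IsRoot, hP, Polynomial.eval_map_algebraMap]
    exact minpoly.aeval ℤ t
  obtain ⟨Q, hQ⟩ := Polynomial.dvd_iff_isRoot.2 hPt
  have hQt : Q.eval t ≠ 0 := by
    have h1 : (derivative P).eval t = Q.eval t := by
      rw [hQ]
      simp
    rw [← h1, hP, Polynomial.derivative_map, Polynomial.eval_map_algebraMap]
    exact deriv_ne t ht
  have hev : ∀ x : ℝ, aeval x (toPoly p) = (x - t) * Q.eval x := by
    intro x
    rw [hp, ← Polynomial.eval_map_algebraMap, ← hP, hQ]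
    simp
  -- the sign of `Q` near `t`
  have hcont : Continuous fun x => Q.eval x * Q.eval t := Q.continuous.mul continuous_const
  have hpos : 0 < Q.eval t * Q.eval t := mul_self_pos.2 hQt
  obtain ⟨δ, hδ, hδ'⟩ := Metric.isOpen_iff.1 (isOpen_lt continuous_const hcont) t hpos
  obtain ⟨b, hb⟩ := exists_nat_gt (max (1 / ε) (2 / δ))
  have hb1 : 1 / ε < b := lt_of_le_of_lt (le_max_left _ _) hb
  have hb2 : 2 / δ < b := lt_of_le_of_lt (le_max_right _ _) hb
  have hb' : (0 : ℝ) < b := lt_trans (div_pos one_pos hε) hb1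
  have hb0 : 0 < b := by exact_mod_cast hb'
  have hfl1 := Int.floor_le (t * b)
  have hfl2 := Int.lt_floor_add_one (t * b)
  refine ⟨(⌊t * b⌋, b), ⟨hb0, ?_, ?_⟩, ?_⟩
  · simp only
    rw [abs_lt]
    constructor <;> linarith
  · simp only
    rw [div_lt_iff₀ hε] at hb1
    linarith
  · unfold rootJ
    rw [Bool.and_eq_true, decide_eq_true_eq, decide_eq_true_eq]
    refine ⟨hb0, ?_⟩
    simp only
    rw [div_lt_iff₀ hδ] at hb2
    have hx : |((⌊t * b⌋ : ℝ) - 1) / b - t| < δ := by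
      have h1 : ((⌊t * b⌋ : ℝ) - 1) / b - t = ((⌊t * b⌋ : ℝ) - 1 - t * b) / b := by field_simp
      rw [h1, abs_div, abs_of_pos hb', div_lt_iff₀ hb', abs_lt]
      constructor <;> nlinarith
    have hy : |((⌊t * b⌋ : ℝ) + 1) / b - t| < δ := by
      have h1 : ((⌊t * b⌋ : ℝ) + 1) / b - t = ((⌊t * b⌋ : ℝ) + 1 - t * b) / b := by field_simp
      rw [h1, abs_div, abs_of_pos hb', div_lt_iff₀ hb', abs_lt]
      constructor <;> nlinarith
    have hx2 := hδ' (show ((⌊t * b⌋ : ℝ) - 1) / b ∈ Metric.ball t δ by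
      rw [Metric.mem_ball, Real.dist_eq]; exact hx)
    have hy2 := hδ' (show ((⌊t * b⌋ : ℝ) + 1) / b ∈ Metric.ball t δ by
      rw [Metric.mem_ball, Real.dist_eq]; exact hy)
    simp only [Set.mem_ofPred_eq] at hx2 hy2
    have hxt : ((⌊t * b⌋ : ℝ) - 1) / b - t < 0 := by
      rw [sub_neg, div_lt_iff₀ hb']
      linarith
    have hyt : 0 < ((⌊t * b⌋ : ℝ) + 1) / b - t := by
      rw [sub_pos, lt_div_iff₀ hb']
      linarith
    have hneg : aeval (((⌊t * b⌋ : ℝ) - 1) / b) (toPoly p) *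
        aeval (((⌊t * b⌋ : ℝ) + 1) / b) (toPoly p) < 0 := by
      rw [hev, hev]
      have h1 : 0 < Q.eval (((⌊t * b⌋ : ℝ) - 1) / b) * Q.eval (((⌊t * b⌋ : ℝ) + 1) / b) := by
        have h2 := mul_pos hx2 hy2
        have h3 : Q.eval (((⌊t * b⌋ : ℝ) - 1) / b) * Q.eval t *
            (Q.eval (((⌊t * b⌋ : ℝ) + 1) / b) * Q.eval t) =
            (Q.eval (((⌊t * b⌋ : ℝ) - 1) / b) * Q.eval (((⌊t * b⌋ : ℝ) + 1) / b)) *
              (Q.eval t * Q.eval t) := by ring
        rw [h3] at h2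
        exact (mul_pos_iff_of_pos_right hpos).1 h2
      have h4 : (((⌊t * b⌋ : ℝ) - 1) / b - t) * (((⌊t * b⌋ : ℝ) + 1) / b - t) < 0 :=
        mul_neg_of_neg_of_pos hxt hyt
      calc _ = ((((⌊t * b⌋ : ℝ) - 1) / b - t) * (((⌊t * b⌋ : ℝ) + 1) / b - t)) *
            (Q.eval (((⌊t * b⌋ : ℝ) - 1) / b) * Q.eval (((⌊t * b⌋ : ℝ) + 1) / b)) := by ring
        _ < 0 := mul_neg_of_neg_of_pos h4 h1
    have hfin : ((evalH p (⌊t * b⌋ - 1) b : ℤ) : ℝ) * ((evalH p (⌊t * b⌋ + 1) b : ℤ) : ℝ) < 0 := by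
      rw [evalH_eq p _ hb0, evalH_eq p _ hb0]
      push_cast
      have hq : 0 < (b : ℝ) ^ p.length := pow_pos hb' _
      calc _ = ((b : ℝ) ^ p.length * (b : ℝ) ^ p.length) *
            (aeval (((⌊t * b⌋ : ℝ) - 1) / b) (toPoly p) *
              aeval (((⌊t * b⌋ : ℝ) + 1) / b) (toPoly p)) := by ring
        _ < 0 := mul_neg_of_pos_of_neg (mul_pos hq hq) hneg
    exact_mod_cast hfin

/-- evaluation of pairs -/
noncomputable def ev (t : ℝ) (u : ZP × ZP) : Vec := ![aeval t (toPoly u.1), aeval t (toPoly u.2)]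

theorem ev_vadd (t : ℝ) (u v : ZP × ZP) : ev t (vadd u v) = ev t u + ev t v := by
  funext i
  fin_cases i
  · change aeval t (toPoly (padd u.1 v.1)) = aeval t (toPoly u.1) + aeval t (toPoly v.1)
    rw [toPoly_padd, map_add]
  · change aeval t (toPoly (padd u.2 v.2)) = aeval t (toPoly u.2) + aeval t (toPoly v.2)
    rw [toPoly_padd, map_add]

theorem ev_vneg (t : ℝ) (u : ZP × ZP) : ev t (vneg u) = -ev t u := by
  funext i
  fin_cases i
  · change aeval t (toPoly (pneg u.1)) = -aeval t (toPoly u.1)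
    rw [toPoly_pneg, map_neg]
  · change aeval t (toPoly (pneg u.2)) = -aeval t (toPoly u.2)
    rw [toPoly_pneg, map_neg]

theorem aeval_pcr (t : ℝ) (u v : ZP × ZP) : aeval t (toPoly (pcr u v)) = cr (ev t u) (ev t v) := by
  change _ = aeval t (toPoly u.1) * aeval t (toPoly v.2) -
    aeval t (toPoly u.2) * aeval t (toPoly v.1)
  rw [pcr, toPoly_psub, toPoly_pmul, toPoly_pmul, map_sub, map_mul, map_mul]

theorem aeval_pip (t : ℝ) (u v : ZP × ZP) : aeval t (toPoly (pip u v)) = ip (ev t u) (ev t v) := by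
  change _ = aeval t (toPoly u.1) * aeval t (toPoly v.1) +
    aeval t (toPoly u.2) * aeval t (toPoly v.2)
  rw [pip, toPoly_padd, toPoly_pmul, toPoly_pmul, map_add, map_mul, map_mul]

end Pool.Veech
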