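import Pool.Agent.Lib.MP_fceebd_gt.Q1b

/-! # Row Q3: words, and the word problem of the surface group is semi-decidable -/

set_option autoImplicit false

namespace Pool.Veech

open RE

theorem word_append (g : ℕ) (u v : Wd) : word g (u ++ v) = word g u * word g v := by
  unfold word
  rw [List.map_append, List.prod_append]

theorem word_nil (g : ℕ) : word g [] = 1 := rfl

private theorem Q3a_letter_not (g : ℕ) (l : ℕ × Bool) :
    letter g (l.1, !l.2) = (letter g l)⁻¹ := by
  obtain ⟨k, s⟩ := l
  unfold letter
  by_cases h : k / 2 < g
  · cases s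
    · simp [h]
    · simp [h]
  · simp [h]

theorem word_winv (g : ℕ) (u : Wd) : word g (winv u) = (word g u)⁻¹ := by
  unfold word winv
  rw [List.prod_inv_reverse, List.map_reverse, List.map_map, List.map_map]
  congr 2
  apply List.map_congr_left
  intro l _
  exact Q3a_letter_not g l

private theorem Q3a_cons (g : ℕ) (l : ℕ × Bool) (u : Wd) :
    word g (l :: u) = letter g l * word g u := by
  unfold word
  rw [List.map_cons, List.prod_cons]

private theorem Q3a_gen (g : ℕ) (x : Fin g × Bool) :
    ∃ l : ℕ × Bool, letter g l = (PresentedGroup.of x : SurfGroup g) := by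
  obtain ⟨i, b⟩ := x
  have hi := i.2
  refine ⟨(2 * i.1 + (if b then 1 else 0), true), ?_⟩
  unfold letter
  cases b
  · have h1 : (2 * i.1 + 0) / 2 = i.1 := by omega
    simp [hi, gen]
  · have h1 : (2 * i.1 + 1) / 2 = i.1 := by omega
    simp [hi, gen, h1]

theorem word_surj (g : ℕ) (x : SurfGroup g) : ∃ u : Wd, word g u = x := by
  obtain ⟨a, rfl⟩ := PresentedGroup.mk_surjective _ x
  induction a using FreeGroup.induction_on with
  | C1 => exact ⟨[], by rw [word_nil, map_one]⟩
  | of y =>
    obtain ⟨l, hl⟩ := Q3a_gen g y
    exact ⟨[l], by rw [Q3a_cons, word_nil, mul_one, hl]; rfl⟩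
  | inv_of y ih =>
    obtain ⟨u, hu⟩ := ih
    exact ⟨winv u, by rw [word_winv, hu, map_inv]⟩
  | mul a b iha ihb =>
    obtain ⟨u, hu⟩ := iha
    obtain ⟨v, hv⟩ := ihb
    exact ⟨u ++ v, by rw [word_append, hu, hv, map_mul]⟩

theorem word_subst (g : ℕ) {w : List Wd} {f : SurfGroup g ≃* SurfGroup g}
    (h : Represents g w f) (u : Wd) : word g (subst g w u) = f (word g u) := by
  induction u with
  | nil => rw [word_nil, map_one]; rfl
  | cons l u ih =>
    have e : subst g w (l :: u) = (cond (decide (l.1 < 2 * g)) (cond l.2 (w.getD l.1 [])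
        (winv (w.getD l.1 []))) []) ++ subst g w u := by
      unfold subst
      rw [List.flatMap_cons]
    rw [e, word_append, ih, Q3a_cons, map_mul]
    congr 1
    obtain ⟨k, s⟩ := l
    by_cases hk : k < 2 * g
    · have h1 := h.2 k hk
      cases s
      · have h2 := Q3a_letter_not g (k, true)
        simp only [Bool.not_true] at h2
        simp only [hk, decide_true, cond_true, cond_false]
        rw [word_winv, h2, map_inv, h1]
      · simp only [hk, decide_true, cond_true]
        exact h1.symm
    · have h1 : ¬ k / 2 < g := by omega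
      simp only [hk, decide_false, cond_false]
      rw [word_nil]
      unfold letter
      simp [h1]

theorem word_substL (g : ℕ) {L : List (List Wd)} {f : SurfGroup g ≃* SurfGroup g}
    (h : RepresentsList g L f) (u : Wd) : word g (substL g L u) = f (word g u) := by
  induction h with
  | nil => rfl
  | cons hf hL ih =>
    have e : ∀ (w : List Wd) (L : List (List Wd)), substL g (w :: L) u =
        subst g w (substL g L u) := fun w L => by
      unfold substL
      rw [List.foldr_cons]
    rw [e, word_subst g hf, ih]
    rfl

end Pool.Veech
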