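import Pool.Agent.Lib.MP_fceebd_gt.Q3a

/-! # Row Q3: words, and the word problem of the surface group is semi-decidable -/

set_option autoImplicit false

namespace Pool.Veech

open RE

private def relw (g : ℕ) : Wd :=
  (List.range g).flatMap fun i => [(2 * i, true), (2 * i + 1, true), (2 * i, false), (2 * i + 1, false)]

private def okw (g : ℕ) (m : Wd) : Bool :=
  (decide (m = relw g) || decide (m = winv (relw g))) || m.all fun l => decide (2 * g ≤ l.1)

private theorem okw_winv {g : ℕ} {m : Wd} (h : okw g m = true) : okw g (winv m) = true := by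
  have hww : ∀ u : Wd, winv (winv u) = u := by
    intro u
    simp [winv, List.map_reverse, Function.comp_def]
  simp only [okw, Bool.or_eq_true, decide_eq_true_eq, List.all_eq_true] at h ⊢
  rcases h with (h | h) | h
  · exact Or.inl (Or.inr (by rw [h]))
  · exact Or.inl (Or.inl (by rw [h, hww]))
  · refine Or.inr fun x hx => ?_
    simp only [winv, List.mem_reverse, List.mem_map] at hx
    obtain ⟨y, hy, rfl⟩ := hx
    exact h y hy

/-- the homomorphism from the free group on the natural numbers -/
private def phi (g : ℕ) : FreeGroup ℕ →* SurfGroup g := FreeGroup.lift fun k => letter g (k, true)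

private theorem letter_false (g k : ℕ) : letter g (k, false) = (letter g (k, true))⁻¹ := by
  unfold letter
  split_ifs <;> simp_all

private theorem word_eq (g : ℕ) (u : Wd) : word g u = phi g (FreeGroup.mk u) := by
  rw [phi, FreeGroup.lift_mk]
  unfold word
  congr 1
  apply List.map_congr_left
  rintro ⟨k, s⟩ _
  cases s
  · exact letter_false g k
  · rfl

private theorem mk_winv (u : Wd) : FreeGroup.mk (winv u) = (FreeGroup.mk u)⁻¹ := by
  rw [FreeGroup.inv_mk]
  rfl

private theorem relw_letters (g : ℕ) : word g (relw g) = PresentedGroup.mk _ (relator g) := by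
  have h1 : ∀ i : Fin g, word g [(2 * (i : ℕ), true), (2 * i + 1, true), (2 * i, false),
      (2 * i + 1, false)] = PresentedGroup.mk _ (FreeGroup.of (i, false) * FreeGroup.of (i, true) *
    (FreeGroup.of (i, false))⁻¹ * (FreeGroup.of (i, true))⁻¹) := by
    intro i
    have e1 : (2 * (i : ℕ)) / 2 = i := by omega
    have e2 : (2 * (i : ℕ) + 1) / 2 = i := by omega
    have e3 : (2 * (i : ℕ)) % 2 = 0 := by omega
    have e4 : (2 * (i : ℕ) + 1) % 2 = 1 := by omega
    have l1 : letter g (2 * (i : ℕ), true) = gen i false := by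
      unfold letter
      simp [e1, e3]
    have l2 : letter g (2 * (i : ℕ) + 1, true) = gen i true := by
      unfold letter
      simp [e2, e4]
    rw [word]
    simp only [List.map_cons, List.map_nil, letter_false, l1, l2, List.prod_cons, List.prod_nil,
      map_mul, map_inv, mul_one, mul_assoc]
    rfl
  have h2 : ∀ L : List (Fin g), word g ((L.map Fin.val).flatMap fun i => [(2 * i, true),
      (2 * i + 1, true), (2 * i, false), (2 * i + 1, false)]) =
      PresentedGroup.mk {relator g} (L.map fun i => FreeGroup.of (i, false) *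
        FreeGroup.of (i, true) * (FreeGroup.of (i, false))⁻¹ * (FreeGroup.of (i, true))⁻¹).prod := by
    intro L
    induction L with
    | nil => simp [word]
    | cons i L ih =>
      simp only [List.map_cons, List.flatMap_cons, List.prod_cons, word_append, ih, map_mul]
      rw [h1]
      simp only [map_mul]
  have h3 : relator g = ((List.finRange g).map fun i => FreeGroup.of (i, false) *
        FreeGroup.of (i, true) * (FreeGroup.of (i, false))⁻¹ *
        (FreeGroup.of (i, true))⁻¹).prod := by
    rw [← List.ofFn_eq_map]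
    rfl
  have h4 := h2 (List.finRange g)
  rw [← h3, List.map_coe_finRange_eq_range] at h4
  exact h4

private theorem word_relw (g : ℕ) : word g (relw g) = 1 := by
  rw [relw_letters]
  exact PresentedGroup.one_of_mem (Set.mem_singleton _)

private theorem word_okw {g : ℕ} {m : Wd} (h : okw g m = true) : word g m = 1 := by
  simp only [okw, Bool.or_eq_true, decide_eq_true_eq, List.all_eq_true] at h
  rcases h with (h | h) | h
  · rw [h, word_relw]
  · rw [h, word_winv, word_relw, inv_one]
  · unfold word
    apply List.prod_eq_one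
    intro x hx
    obtain ⟨l, hl, rfl⟩ := List.mem_map.1 hx
    have := h l hl
    unfold letter
    rw [dif_neg (by omega)]

private def rels (g : ℕ) : Set (FreeGroup ℕ) :=
  {FreeGroup.mk (relw g)} ∪ {x | ∃ k, 2 * g ≤ k ∧ x = FreeGroup.of k}

private theorem ker_le (g : ℕ) {x : FreeGroup ℕ} (hx : phi g x = 1) :
    x ∈ Subgroup.normalClosure (rels g) := by
  set N := Subgroup.normalClosure (rels g) with hN
  let π : FreeGroup ℕ →* FreeGroup ℕ ⧸ N := QuotientGroup.mk' N
  have hπ : ∀ y ∈ rels g, π y = 1 := by
    intro y hy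
    exact (QuotientGroup.eq_one_iff y).2 (Subgroup.subset_normalClosure hy)
  let f : Fin g × Bool → FreeGroup ℕ ⧸ N := fun p => π (FreeGroup.of (2 * (p.1 : ℕ) + cond p.2 1 0))
  have hf : ∀ r ∈ ({relator g} : Set (FreeGroup (Fin g × Bool))), FreeGroup.lift f r = 1 := by
    intro r hr
    rw [Set.mem_singleton_iff.1 hr]
    have h0 : π (FreeGroup.mk (relw g)) = 1 := hπ _ (Or.inl rfl)
    rw [← h0]
    unfold relator relw
    rw [map_list_prod, List.map_ofFn, List.ofFn_eq_map, ← List.map_coe_finRange_eq_range]
    generalize List.finRange g = L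
    induction L with
    | nil => simp; rfl
    | cons i L ih =>
      simp only [List.map_cons, List.flatMap_cons, List.prod_cons, ih]
      rw [← FreeGroup.mul_mk, map_mul]
      congr 1
  let ψ : SurfGroup g →* FreeGroup ℕ ⧸ N := PresentedGroup.toGroup hf
  have hψ : ψ.comp (phi g) = π := by
    apply FreeGroup.ext_hom
    intro k
    show ψ (phi g (FreeGroup.of k)) = π (FreeGroup.of k)
    rw [phi, FreeGroup.lift_apply_of]
    unfold letter
    by_cases hk : k / 2 < g
    · rw [dif_pos hk, if_pos rfl]
      show PresentedGroup.toGroup hf (PresentedGroup.of _) = _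
      rw [PresentedGroup.toGroup.of]
      show π _ = π _
      congr 2
      by_cases h2 : k % 2 = 1
      · simp [h2]; omega
      · simp [h2]; omega
    · rw [dif_neg hk, map_one]
      exact (hπ _ (Or.inr ⟨k, by omega, rfl⟩)).symm
  have h1 : π x = 1 := by
    rw [← hψ, MonoidHom.comp_apply, hx, map_one]
  exact (QuotientGroup.eq_one_iff x).1 h1

private theorem exists_list (g : ℕ) {x : FreeGroup ℕ} (hx : x ∈ Subgroup.normalClosure (rels g)) :
    ∃ L : List (Wd × Wd), (L.all fun p => okw g p.2) = true ∧
      x = FreeGroup.mk (L.flatMap fun p => p.1 ++ p.2 ++ winv p.1) := by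
  have hx' : x ∈ (Subgroup.closure (Group.conjugatesOfSet (rels g))).toSubmonoid := hx
  rw [Subgroup.closure_toSubmonoid] at hx'
  obtain ⟨l, hl, rfl⟩ := Submonoid.exists_list_of_mem_closure hx'
  clear hx hx'
  have hone : ∀ y : FreeGroup ℕ, (y ∈ Group.conjugatesOfSet (rels g) ∨
      y⁻¹ ∈ Group.conjugatesOfSet (rels g)) → ∃ p : Wd × Wd, okw g p.2 = true ∧
      y = FreeGroup.mk (p.1 ++ p.2 ++ winv p.1) := by
    have h0 : ∀ y ∈ Group.conjugatesOfSet (rels g), ∃ p : Wd × Wd, okw g p.2 = true ∧
        y = FreeGroup.mk (p.1 ++ p.2 ++ winv p.1) := by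
      intro y hy
      obtain ⟨a, ha, hc⟩ := Group.mem_conjugatesOfSet_iff.1 hy
      obtain ⟨c, rfl⟩ := isConj_iff.1 hc
      obtain ⟨m, hm, rfl⟩ : ∃ m : Wd, okw g m = true ∧ a = FreeGroup.mk m := by
        rcases ha with ha | ⟨k, hk, rfl⟩
        · exact ⟨relw g, by simp [okw], ha⟩
        · refine ⟨[(k, true)], ?_, rfl⟩
          simp [okw, hk]
      refine ⟨(c.toWord, m), hm, ?_⟩
      rw [← FreeGroup.mul_mk, ← FreeGroup.mul_mk, mk_winv, FreeGroup.mk_toWord]
    rintro y (hy | hy)
    · exact h0 y hy
    · obtain ⟨p, hp, he⟩ := h0 _ hy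
      refine ⟨(p.1, winv p.2), okw_winv hp, ?_⟩
      rw [← inv_inv y, he]
      simp only [← FreeGroup.mul_mk, mk_winv, mul_inv_rev, inv_inv, mul_assoc]
  induction l with
  | nil => exact ⟨[], by simp, rfl⟩
  | cons y l ih =>
    obtain ⟨L, h1, h2⟩ := ih fun z hz => hl z (by simp [hz])
    obtain ⟨p, hp, he⟩ := hone y (hl y (by simp))
    refine ⟨p :: L, ?_, ?_⟩
    · rw [List.all_cons, hp, h1]; rfl
    · rw [List.prod_cons, h2, he, FreeGroup.mul_mk, List.flatMap_cons]

private theorem key (g : ℕ) (u v : Wd) : WEq g u v ↔ ∃ L : List (Wd × Wd),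
    (L.all fun p => okw g p.2) = true ∧
      FreeGroup.reduce u = FreeGroup.reduce ((L.flatMap fun p => p.1 ++ p.2 ++ winv p.1) ++ v) := by
  constructor
  · intro h
    have h1 : phi g (FreeGroup.mk u * (FreeGroup.mk v)⁻¹) = 1 := by
      rw [map_mul, map_inv, ← word_eq, ← word_eq]
      exact mul_inv_eq_one.2 h
    obtain ⟨L, hL, he⟩ := exists_list g (ker_le g h1)
    refine ⟨L, hL, ?_⟩
    have h5 : FreeGroup.mk u =
        FreeGroup.mk ((L.flatMap fun p => p.1 ++ p.2 ++ winv p.1) ++ v) := by
      rw [← FreeGroup.mul_mk, ← he, inv_mul_cancel_right]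
    exact congrArg FreeGroup.toWord h5
  · rintro ⟨L, hL, h⟩
    have h1 : FreeGroup.mk u = FreeGroup.mk ((L.flatMap fun p => p.1 ++ p.2 ++ winv p.1) ++ v) :=
      FreeGroup.reduce.exact h
    show word g u = word g v
    rw [word_eq, h1, ← word_eq, word_append]
    have : word g (L.flatMap fun p => p.1 ++ p.2 ++ winv p.1) = 1 := by
      clear h h1
      induction L with
      | nil => simp [word]
      | cons p L ih =>
        rw [List.all_cons, Bool.and_eq_true] at hL
        rw [List.flatMap_cons, word_append, ih hL.2, word_append, word_append, word_winv,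
          word_okw hL.1]
        simp
    rw [this, one_mul]

private theorem reduce_foldr (u : Wd) : FreeGroup.reduce u = u.foldr (fun x r =>
    cond (decide (r.head? = some (x.1, !x.2))) r.tail (x :: r)) [] := by
  induction u with
  | nil => rfl
  | cons x u ih =>
    rw [List.foldr_cons, ← ih, FreeGroup.reduce.cons]
    cases FreeGroup.reduce u with
    | nil => simp
    | cons y t =>
      obtain ⟨x1, x2⟩ := x
      obtain ⟨y1, y2⟩ := y
      simp only [List.head?_cons, List.tail_cons, Bool.cond_decide]
      congr 1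
      rw [Option.some.injEq, Prod.mk.injEq]
      apply propext
      constructor
      · rintro ⟨rfl, rfl⟩
        exact ⟨rfl, by simp⟩
      · rintro ⟨rfl, rfl⟩
        exact ⟨rfl, by simp⟩

private theorem pr_reduce {α : Type*} [Primcodable α] {u : α → Wd} (hu : Primrec u) :
    Primrec fun a => FreeGroup.reduce (u a) := by
  have h1 : Primrec fun p : α × (ℕ × Bool) × Wd => p.2.2.head? :=
    Primrec.list_head?.comp (by fun_prop)
  have h2 : Primrec fun p : α × (ℕ × Bool) × Wd => p.2.2.tail :=
    Primrec.list_tail.comp (by fun_prop)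
  have h3 : Primrec fun p : α × (ℕ × Bool) × Wd => some (p.2.1.1, !p.2.1.2) :=
    Primrec.option_some.comp (by fun_prop)
  have h4 : Primrec fun a => (u a).foldr (fun x r =>
    cond (decide (r.head? = some (x.1, !x.2))) r.tail (x :: r)) [] := by
    apply p_foldr hu (by fun_prop)
    apply p_cond (p_decide_eq h1 h3) h2
    fun_prop
  exact h4.of_eq fun a => (reduce_foldr (u a)).symm

private theorem pr_relw {α : Type*} [Primcodable α] {n : α → ℕ} (hn : Primrec n) :
    Primrec fun a => relw (n a) := by
  unfold relw
  fun_prop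

private theorem pr_okw {α : Type*} [Primcodable α] {n : α → ℕ} {m : α → Wd} (hn : Primrec n)
    (hm : Primrec m) : Primrec fun a => okw (n a) (m a) := by
  have h1 := pr_relw hn
  unfold okw
  apply p_or
  · apply p_or
    · exact p_decide_eq hm h1
    · exact p_decide_eq hm (pr_winv h1)
  · fun_prop

/-- `word g u = 1` if and only if the reduced word of `u` (letters with numbers `≥ 2 g` removed) is
the reduced word of a product of conjugates of the relator and its inverse
(`Subgroup.normalClosure`); all reductions are primitive recursive. -/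
theorem S1_WEq {α : Type*} [Primcodable α] {n : α → ℕ} {u v : α → Wd} (hn : Primrec n)
    (hu : Primrec u) (hv : Primrec v) : S1 fun a => WEq (n a) (u a) (v a) := by
  refine S1.of_eq ?_ (fun a => (key (n a) (u a) (v a)).symm)
  refine S1.exists (p := fun (a : α) (L : List (Wd × Wd)) =>
    (L.all fun p => okw (n a) p.2) = true ∧ FreeGroup.reduce (u a) =
      FreeGroup.reduce ((L.flatMap fun p => p.1 ++ p.2 ++ winv p.1) ++ v a)) ?_
  refine S1.of_bool (f := fun x : α × List (Wd × Wd) => (x.2.all fun p => okw (n x.1) p.2) &&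
    decide (FreeGroup.reduce (u x.1) =
      FreeGroup.reduce ((x.2.flatMap fun p => p.1 ++ p.2 ++ winv p.1) ++ v x.1))) ?_
    (fun x => by simp)
  apply p_and
  · apply p_all (by fun_prop)
    exact pr_okw (by fun_prop) (by fun_prop)
  · apply p_decide_eq
    · exact pr_reduce (by fun_prop)
    · exact pr_reduce (by fun_prop)

end Pool.Veech
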