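import Pool.Agent.Lib.MP_fceebd_gt.Q2
import Pool.Agent.Lib.MP_fceebd_gt.Q3b

/-! # Row Q4: codes of surfaces -/

set_option autoImplicit false

open Polynomial

namespace Pool.Veech

open RE

/-- `c` is the code of a labelled surface (at each root of `p` in `J`) -/
def CodeOK (g : ℕ) (p : ZP) (J : Jt) (c : Code) : Prop :=
  (c.1.2.1.length = c.n ∧ c.1.2.2.length = c.n ∧ c.2.1.length = c.n ∧ c.2.2.length = c.n) ∧
  (∀ d < c.n, (c.nx d < c.n ∧ c.op d < c.n ∧ c.ta d < c.n) ∧ c.nx (c.nx (c.nx d)) = d ∧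
    c.op (c.op d) = d ∧ c.ta (c.ta d) = d ∧ c.ta (c.nx d) = c.nx (c.ta d) ∧
    c.ta (c.op d) = c.op (c.ta d) ∧ c.op d ≠ c.ta d) ∧
  (∀ d < c.n, EqM p (vadd (vadd (c.zz d) (c.zz (c.nx d))) (c.zz (c.nx (c.nx d)))).1 ∧
    EqM p (vadd (vadd (c.zz d) (c.zz (c.nx d))) (c.zz (c.nx (c.nx d)))).2 ∧
    EqM p (vadd (c.zz (c.op d)) (c.zz d)).1 ∧ EqM p (vadd (c.zz (c.op d)) (c.zz d)).2 ∧
    EqM p (vadd (c.zz (c.ta d)) (c.zz d)).1 ∧ EqM p (vadd (c.zz (c.ta d)) (c.zz d)).2) ∧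
  posCode J c = true ∧
  (∀ d < c.n, WEq g (c.lb d ++ c.lb (c.nx d) ++ c.lb (c.nx (c.nx d))) [] ∧
    WEq g (c.lb (c.op d)) (winv (c.lb d)) ∧ WEq g (c.lb (c.ta d)) (c.lb d))

theorem S1_CodeOK {α : Type*} [Primcodable α] {n : α → ℕ} {p : α → ZP} {J : α → Jt}
    {c : α → Code} (hn : Primrec n) (hp : Primrec p) (hJ : Primrec J) (hc : Primrec c) :
    S1 fun a => CodeOK (n a) (p a) (J a) (c a) := by
  have hn1 : Primrec fun x : α × ℕ => n x.1 := by fun_prop
  have hp1 : Primrec fun x : α × ℕ => p x.1 := by fun_prop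
  have hc1 : Primrec fun x : α × ℕ => c x.1 := by fun_prop
  have hcn : Primrec fun a => (c a).n := by fun_prop
  unfold CodeOK
  refine S1.and ?_ (S1.and ?_ (S1.and ?_ (S1.and ?_ ?_)))
  · refine S1.of_bool (f := fun a => decide ((c a).1.2.1.length = (c a).n) &&
      decide ((c a).1.2.2.length = (c a).n) && decide ((c a).2.1.length = (c a).n) &&
      decide ((c a).2.2.length = (c a).n)) (by fun_prop) fun a => ?_
    simp only [Bool.and_eq_true, decide_eq_true_eq, and_assoc]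
  · refine S1.bforall (p := fun a d => (((c a).nx d < (c a).n ∧ (c a).op d < (c a).n ∧
      (c a).ta d < (c a).n) ∧ (c a).nx ((c a).nx ((c a).nx d)) = d ∧
      (c a).op ((c a).op d) = d ∧ (c a).ta ((c a).ta d) = d ∧
      (c a).ta ((c a).nx d) = (c a).nx ((c a).ta d) ∧
      (c a).ta ((c a).op d) = (c a).op ((c a).ta d) ∧ (c a).op d ≠ (c a).ta d)) ?_ hcn
    refine S1.of_bool (f := fun x : α × ℕ => decide ((c x.1).nx x.2 < (c x.1).n) &&
      decide ((c x.1).op x.2 < (c x.1).n) && decide ((c x.1).ta x.2 < (c x.1).n) &&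
      decide ((c x.1).nx ((c x.1).nx ((c x.1).nx x.2)) = x.2) &&
      decide ((c x.1).op ((c x.1).op x.2) = x.2) &&
      decide ((c x.1).ta ((c x.1).ta x.2) = x.2) &&
      decide ((c x.1).ta ((c x.1).nx x.2) = (c x.1).nx ((c x.1).ta x.2)) &&
      decide ((c x.1).ta ((c x.1).op x.2) = (c x.1).op ((c x.1).ta x.2)) &&
      !decide ((c x.1).op x.2 = (c x.1).ta x.2)) (by fun_prop) fun x => ?_
    simp only [Bool.and_eq_true, decide_eq_true_eq, Bool.not_eq_true', decide_eq_false_iff_not,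
      and_assoc, ne_eq]
  · refine S1.bforall (p := fun a d =>
      EqM (p a) (vadd (vadd ((c a).zz d) ((c a).zz ((c a).nx d)))
        ((c a).zz ((c a).nx ((c a).nx d)))).1 ∧
      EqM (p a) (vadd (vadd ((c a).zz d) ((c a).zz ((c a).nx d)))
        ((c a).zz ((c a).nx ((c a).nx d)))).2 ∧
      EqM (p a) (vadd ((c a).zz ((c a).op d)) ((c a).zz d)).1 ∧
      EqM (p a) (vadd ((c a).zz ((c a).op d)) ((c a).zz d)).2 ∧
      EqM (p a) (vadd ((c a).zz ((c a).ta d)) ((c a).zz d)).1 ∧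
      EqM (p a) (vadd ((c a).zz ((c a).ta d)) ((c a).zz d)).2) ?_ hcn
    exact S1.and (S1_EqM hp1 (by fun_prop)) (S1.and (S1_EqM hp1 (by fun_prop))
      (S1.and (S1_EqM hp1 (by fun_prop)) (S1.and (S1_EqM hp1 (by fun_prop))
      (S1.and (S1_EqM hp1 (by fun_prop)) (S1_EqM hp1 (by fun_prop))))))
  · exact S1.of_bool (f := fun a => posCode (J a) (c a)) (by fun_prop) fun a => Iff.rfl
  · refine S1.bforall (p := fun a d =>
      WEq (n a) ((c a).lb d ++ (c a).lb ((c a).nx d) ++ (c a).lb ((c a).nx ((c a).nx d))) [] ∧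
      WEq (n a) ((c a).lb ((c a).op d)) (winv ((c a).lb d)) ∧
      WEq (n a) ((c a).lb ((c a).ta d)) ((c a).lb d)) ?_ hcn
    exact S1.and (S1_WEq hn1 (by fun_prop) (by fun_prop)) (S1.and
      (S1_WEq hn1 (by fun_prop) (by fun_prop)) (S1_WEq hn1 (by fun_prop) (by fun_prop)))

/-- the codes have the same combinatorics -/
def sameTri (c c' : Code) : Bool :=
  decide (c.n = c'.n) && (List.range c.n).all fun d => decide (c.nx d = c'.nx d) &&
    decide (c.op d = c'.op d) && decide (c.ta d = c'.ta d)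

/-- `N z' = a z` where `a = (a00, a01, a10, a11)` -/
def zRel (p : ZP) (a : (ZP × ZP) × (ZP × ZP)) (N : ZP) (c c' : Code) : Prop :=
  ∀ d < c.n,
    EqM p (psub (pmul N (c'.zz d).1) (padd (pmul a.1.1 (c.zz d).1) (pmul a.1.2 (c.zz d).2))) ∧
    EqM p (psub (pmul N (c'.zz d).2) (padd (pmul a.2.1 (c.zz d).1) (pmul a.2.2 (c.zz d).2)))

/-- same labels -/
def lbRel (g : ℕ) (c c' : Code) : Prop := ∀ d < c.n, WEq g (c.lb d) (c'.lb d)

theorem S1_sameTri {α : Type*} [Primcodable α] {c c' : α → Code} (hc : Primrec c)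
    (hc' : Primrec c') : S1 fun a => sameTri (c a) (c' a) = true := by
  refine S1.of_bool (f := fun a => sameTri (c a) (c' a)) ?_ fun a => Iff.rfl
  unfold sameTri
  fun_prop

theorem S1_zRel {α : Type*} [Primcodable α] {p N : α → ZP} {b : α → (ZP × ZP) × (ZP × ZP)}
    {c c' : α → Code} (hp : Primrec p) (hb : Primrec b) (hN : Primrec N) (hc : Primrec c)
    (hc' : Primrec c') : S1 fun a => zRel (p a) (b a) (N a) (c a) (c' a) := by
  have hp1 : Primrec fun x : α × ℕ => p x.1 := by fun_prop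
  have hcn : Primrec fun a => (c a).n := by fun_prop
  unfold zRel
  refine S1.bforall (p := fun a d =>
    EqM (p a) (psub (pmul (N a) ((c' a).zz d).1) (padd (pmul (b a).1.1 ((c a).zz d).1)
      (pmul (b a).1.2 ((c a).zz d).2))) ∧
    EqM (p a) (psub (pmul (N a) ((c' a).zz d).2) (padd (pmul (b a).2.1 ((c a).zz d).1)
      (pmul (b a).2.2 ((c a).zz d).2)))) ?_ hcn
  exact S1.and (S1_EqM hp1 (by fun_prop)) (S1_EqM hp1 (by fun_prop))

theorem S1_lbRel {α : Type*} [Primcodable α] {n : α → ℕ} {c c' : α → Code} (hn : Primrec n)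
    (hc : Primrec c) (hc' : Primrec c') : S1 fun a => lbRel (n a) (c a) (c' a) := by
  have hn1 : Primrec fun x : α × ℕ => n x.1 := by fun_prop
  have hcn : Primrec fun a => (c a).n := by fun_prop
  unfold lbRel
  exact S1.bforall (p := fun a d => WEq (n a) ((c a).lb d) ((c' a).lb d))
    (S1_WEq hn1 (by fun_prop) (by fun_prop)) hcn

end Pool.Veech
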