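import Pool.Agent.Lib.MP_fceebd_gt.Q4a

/-! # Row Q4: codes of surfaces -/

set_option autoImplicit false

open Polynomial

namespace Pool.Veech

open RE

private theorem Q4b_ev {p : ZP} {t : ℝ} (hr : aeval t (toPoly p) = 0) {u : ZP × ZP}
    (h1 : EqM p u.1) (h2 : EqM p u.2) : ev t u = 0 := by
  unfold ev
  rw [h1.eval hr, h2.eval hr]
  funext i
  fin_cases i <;> rfl

/-- soundness -/
theorem CodeOK.exists_surf {g : ℕ} {p : ZP} {J : Jt} {c : Code} (h : CodeOK g p J c) {t : ℝ}
    (ht : |t * J.2 - J.1| ≤ 1) (hr : aeval t (toPoly p) = 0) :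
    ∃ S : Surf (SurfGroup g) (Fin c.n), Repr g t c S := by
  obtain ⟨⟨l1, l2, l3, l4⟩, hc, hz, hp, hl⟩ := h
  let nxt : Equiv.Perm (Fin c.n) :=
    { toFun := fun d => ⟨c.nx d, (hc d d.2).1.1⟩
      invFun := fun d => ⟨c.nx (c.nx d), (hc _ (hc d d.2).1.1).1.1⟩
      left_inv := fun d => Fin.ext (hc d d.2).2.1
      right_inv := fun d => Fin.ext (hc d d.2).2.1 }
  let opp : Equiv.Perm (Fin c.n) :=
    { toFun := fun d => ⟨c.op d, (hc d d.2).1.2.1⟩
      invFun := fun d => ⟨c.op d, (hc d d.2).1.2.1⟩
      left_inv := fun d => Fin.ext (hc d d.2).2.2.1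
      right_inv := fun d => Fin.ext (hc d d.2).2.2.1 }
  let tau : Equiv.Perm (Fin c.n) :=
    { toFun := fun d => ⟨c.ta d, (hc d d.2).1.2.2⟩
      invFun := fun d => ⟨c.ta d, (hc d d.2).1.2.2⟩
      left_inv := fun d => Fin.ext (hc d d.2).2.2.2.1
      right_inv := fun d => Fin.ext (hc d d.2).2.2.2.1 }
  let S : Surf (SurfGroup g) (Fin c.n) :=
    { nxt := nxt
      opp := opp
      tau := tau
      z := fun d => ev t (c.zz d)
      lab := fun d => word g (c.lb d)
      nxt3 := fun d => Fin.ext (hc d d.2).2.1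
      opp2 := fun d => Fin.ext (hc d d.2).2.2.1
      tau2 := fun d => Fin.ext (hc d d.2).2.2.2.1
      tau_nxt := fun d => Fin.ext (hc d d.2).2.2.2.2.1
      tau_opp := fun d => Fin.ext (hc d d.2).2.2.2.2.2.1
      opp_ne := fun d he => (hc d d.2).2.2.2.2.2.2 (congrArg Fin.val he)
      closed := fun d => by
        have := Q4b_ev hr (hz d d.2).1 (hz d d.2).2.1
        rw [ev_vadd, ev_vadd] at this
        exact this
      glue := fun d => by
        have := Q4b_ev hr (hz d d.2).2.2.1 (hz d d.2).2.2.2.1
        rw [ev_vadd] at this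
        exact eq_neg_of_add_eq_zero_left this
      anti := fun d => by
        have := Q4b_ev hr (hz d d.2).2.2.2.2.1 (hz d d.2).2.2.2.2.2
        rw [ev_vadd] at this
        exact eq_neg_of_add_eq_zero_left this
      pos := fun d => by
        unfold posCode at hp
        rw [List.all_eq_true] at hp
        have := posJ_sound (hp d (List.mem_range.2 d.2)) ht
        rw [aeval_pcr] at this
        exact this
      lab_closed := fun d => by
        have := (hl d d.2).1
        unfold WEq at this
        rw [word_append, word_append, word_nil] at this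
        exact this
      lab_opp := fun d => by
        have := (hl d d.2).2.1
        unfold WEq at this
        rw [word_winv] at this
        exact this
      lab_tau := fun d => (hl d d.2).2.2 }
  exact ⟨S, ⟨rfl, l1, l2, l3, l4, fun _ => rfl, fun _ => rfl, fun _ => rfl, fun _ => rfl,
    fun _ => rfl, fun _ => rfl⟩⟩

end Pool.Veech
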