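import Pool.Agent.Lib.MP_fceebd_gt.Q4a

/-! # Row Q4: codes of surfaces -/

set_option autoImplicit false

open Polynomial

namespace Pool.Veech

open RE

private theorem Q4c_ofFn_getD {β : Type*} {n : ℕ} (f : Fin n → β) (b : β) (d : Fin n) :
    (List.ofFn f).getD d b = f d := by
  have hd : (d : ℕ) < (List.ofFn f).length := by
    rw [List.length_ofFn]
    exact d.2
  rw [List.getD_eq_getElem _ _ hd, List.getElem_ofFn]

private theorem Q4c_ev {g n : ℕ} {S : Surf (SurfGroup g) (Fin n)} {t : ℝ} {c : Code}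
    (h : Repr g t c S) (d : Fin n) : ev t (c.zz d) = S.z d := by
  funext j
  fin_cases j
  · exact (h.z0 d).symm
  · exact (h.z1 d).symm

private theorem Q4c_eqM {p : ZP} {t : ℝ} (ht : IsIntegral ℤ t) (hp : toPoly p = minpoly ℤ t)
    {u : ZP × ZP} (h : ev t u = 0) : EqM p u.1 ∧ EqM p u.2 :=
  ⟨EqM.of_eval ht hp (congrFun h 0), EqM.of_eval ht hp (congrFun h 1)⟩

private theorem Q4c_codeOK {g n : ℕ} {S : Surf (SurfGroup g) (Fin n)} {t : ℝ} {c : Code}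
    (h : Repr g t c S) {p : ZP} (hp : toPoly p = minpoly ℤ t) (ht : IsIntegral ℤ t) {J : Jt}
    (hJ : posCode J c = true) : CodeOK g p J c := by
  have hn := h.n_eq
  subst hn
  refine ⟨⟨h.op_len, h.ta_len, h.z_len, h.lb_len⟩, ?_, ?_, hJ, ?_⟩
  · intro d hd
    obtain ⟨d, rfl⟩ : ∃ e : Fin c.n, (e : ℕ) = d := ⟨⟨d, hd⟩, rfl⟩
    simp only [h.nx, h.op, h.ta, Fin.is_lt, S.nxt3, S.opp2, S.tau2, S.tau_nxt, S.tau_opp,
      true_and, Ne, Fin.val_inj]
    exact S.opp_ne d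
  · intro d hd
    obtain ⟨d, rfl⟩ : ∃ e : Fin c.n, (e : ℕ) = d := ⟨⟨d, hd⟩, rfl⟩
    simp only [h.nx, h.op, h.ta]
    have h1 := Q4c_eqM ht hp
      (u := vadd (vadd (c.zz d) (c.zz (S.nxt d))) (c.zz (S.nxt (S.nxt d)))) (by
      rw [ev_vadd, ev_vadd, Q4c_ev h, Q4c_ev h, Q4c_ev h]
      exact S.closed d)
    have h2 := Q4c_eqM ht hp (u := vadd (c.zz (S.opp d)) (c.zz d)) (by
      rw [ev_vadd, Q4c_ev h, Q4c_ev h, S.glue, neg_add_cancel])
    have h3 := Q4c_eqM ht hp (u := vadd (c.zz (S.tau d)) (c.zz d)) (by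
      rw [ev_vadd, Q4c_ev h, Q4c_ev h, S.anti, neg_add_cancel])
    exact ⟨h1.1, h1.2, h2.1, h2.2, h3.1, h3.2⟩
  · intro d hd
    obtain ⟨d, rfl⟩ : ∃ e : Fin c.n, (e : ℕ) = d := ⟨⟨d, hd⟩, rfl⟩
    simp only [h.nx, h.op, h.ta, WEq, word_append, word_nil, word_winv, ← h.lb]
    exact ⟨S.lab_closed d, S.lab_opp d, S.lab_tau d⟩

/-- completeness -/
theorem exists_code {g n : ℕ} (S : Surf (SurfGroup g) (Fin n)) {Z : Fin n → Fin 2 → ℤ[X]}
    {t : ℝ} (hZ : S.z = polyZ Z t) {p : ZP} (hp : toPoly p = minpoly ℤ t)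
    (ht : IsIntegral ℤ t) :
    ∃ c : Code, Repr g t c S ∧ ∃ ε : ℝ, 0 < ε ∧ ∀ J, Good t ε J → CodeOK g p J c := by
  classical
  choose zp hzp using fun (d : Fin n) (j : Fin 2) => toPoly_surj (Z d j)
  choose wd hwd using fun d : Fin n => word_surj g (S.lab d)
  obtain ⟨c, hr⟩ : ∃ c : Code, Repr g t c S := by
    refine ⟨((List.ofFn fun d => (S.nxt d : ℕ), List.ofFn fun d => (S.opp d : ℕ),
      List.ofFn fun d => (S.tau d : ℕ)), List.ofFn fun d => (zp d 0, zp d 1), List.ofFn wd), ?_⟩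
    refine ⟨List.length_ofFn, List.length_ofFn, List.length_ofFn, List.length_ofFn,
      List.length_ofFn, fun d => Q4c_ofFn_getD _ _ d, fun d => Q4c_ofFn_getD _ _ d,
      fun d => Q4c_ofFn_getD _ _ d, fun d => ?_, fun d => ?_, fun d => ?_⟩
    · unfold Code.zz
      rw [Q4c_ofFn_getD, hzp, hZ]
      rfl
    · unfold Code.zz
      rw [Q4c_ofFn_getD, hzp, hZ]
      rfl
    · unfold Code.lb
      rw [Q4c_ofFn_getD, hwd]
  refine ⟨c, hr, ?_⟩
  have hpos : ∀ d : Fin n, ∃ ε : ℝ, 0 < ε ∧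
      ∀ J, Good t ε J → posJ J (pcr (c.zz d) (c.zz (c.nx d))) = true := by
    intro d
    refine posJ_complete ?_
    rw [aeval_pcr, hr.nx d, Q4c_ev hr, Q4c_ev hr]
    exact S.pos d
  choose ε hε hJ using hpos
  obtain ⟨e, he, hle⟩ : ∃ e : ℝ, 0 < e ∧ ∀ d, e ≤ ε d := by
    have h1 : ∀ᶠ e in nhdsWithin (0 : ℝ) (Set.Ioi 0), ∀ d, e ≤ ε d := by
      rw [Filter.eventually_all]
      intro d
      exact (eventually_le_nhds (hε d)).filter_mono nhdsWithin_le_nhds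
    obtain ⟨e, he1, he2⟩ := (h1.and (eventually_mem_nhdsWithin)).exists
    exact ⟨e, he2, he1⟩
  refine ⟨e, he, fun J hJ' => Q4c_codeOK hr hp ht ?_⟩
  rw [posCode, List.all_eq_true]
  intro d hd
  rw [List.mem_range, hr.n_eq] at hd
  exact hJ ⟨d, hd⟩ J (hJ'.mono (hle _))

theorem sameTri_iff {g n : ℕ} {t : ℝ} {c c' : Code} {S S' : Surf (SurfGroup g) (Fin n)}
    (h : Repr g t c S) (h' : Repr g t c' S') : sameTri c c' = true ↔ S.tri = S'.tri := by
  have h1 : sameTri c c' = true ↔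
      ∀ d : Fin n, S.nxt d = S'.nxt d ∧ S.opp d = S'.opp d ∧ S.tau d = S'.tau d := by
    rw [sameTri, Bool.and_eq_true, decide_eq_true_iff, List.all_eq_true]
    constructor
    · rintro ⟨-, hd⟩ d
      have h2 := hd d (by rw [List.mem_range, h.n_eq]; exact d.2)
      simp only [Bool.and_eq_true, decide_eq_true_iff, h.nx, h'.nx, h.op, h'.op, h.ta,
        h'.ta, Fin.val_inj] at h2
      exact ⟨h2.1.1, h2.1.2, h2.2⟩
    · intro hd
      refine ⟨h.n_eq.trans h'.n_eq.symm, fun d hd' => ?_⟩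
      rw [List.mem_range, h.n_eq] at hd'
      obtain ⟨d, rfl⟩ : ∃ e : Fin n, (e : ℕ) = d := ⟨⟨d, hd'⟩, rfl⟩
      simp only [Bool.and_eq_true, decide_eq_true_iff, h.nx, h'.nx, h.op, h'.op, h.ta,
        h'.ta, Fin.val_inj]
      exact ⟨⟨(hd d).1, (hd d).2.1⟩, (hd d).2.2⟩
  rw [h1]
  constructor
  · intro hd
    have e1 : S.nxt = S'.nxt := Equiv.ext fun d => (hd d).1
    have e2 : S.opp = S'.opp := Equiv.ext fun d => (hd d).2.1
    have e3 : S.tau = S'.tau := Equiv.ext fun d => (hd d).2.2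
    exact Tri.ext e1 e2 e3
  · intro hd d
    have e1 : S.nxt = S'.nxt := congrArg Tri.nxt hd
    have e2 : S.opp = S'.opp := congrArg Tri.opp hd
    have e3 : S.tau = S'.tau := congrArg Tri.tau hd
    rw [e1, e2, e3]
    exact ⟨rfl, rfl, rfl⟩

theorem zRel_sound {g n : ℕ} {t : ℝ} {c c' : Code} {S S' : Surf (SurfGroup g) (Fin n)}
    (h : Repr g t c S) (h' : Repr g t c' S') {p N : ZP} {a : (ZP × ZP) × (ZP × ZP)}
    (hr : aeval t (toPoly p) = 0) (hz : zRel p a N c c') (d : Fin n) :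
    aeval t (toPoly N) * S'.z d 0 =
        aeval t (toPoly a.1.1) * S.z d 0 + aeval t (toPoly a.1.2) * S.z d 1 ∧
      aeval t (toPoly N) * S'.z d 1 =
        aeval t (toPoly a.2.1) * S.z d 0 + aeval t (toPoly a.2.2) * S.z d 1 := by
  have h1 := hz d (by rw [h.n_eq]; exact d.2)
  have h2 := h1.1.eval hr
  have h3 := h1.2.eval hr
  rw [toPoly_psub, toPoly_padd, toPoly_pmul, toPoly_pmul, toPoly_pmul, map_sub, map_add,
    map_mul, map_mul, map_mul, sub_eq_zero] at h2 h3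
  rw [h.z0, h.z1, h'.z0, h'.z1]
  exact ⟨h2, h3⟩

theorem zRel_complete {g n : ℕ} {t : ℝ} {c c' : Code} {S S' : Surf (SurfGroup g) (Fin n)}
    (h : Repr g t c S) (h' : Repr g t c' S') {p N : ZP} {a : (ZP × ZP) × (ZP × ZP)}
    (hp : toPoly p = minpoly ℤ t) (ht : IsIntegral ℤ t)
    (hz : ∀ d, aeval t (toPoly N) * S'.z d 0 =
        aeval t (toPoly a.1.1) * S.z d 0 + aeval t (toPoly a.1.2) * S.z d 1 ∧
      aeval t (toPoly N) * S'.z d 1 =
        aeval t (toPoly a.2.1) * S.z d 0 + aeval t (toPoly a.2.2) * S.z d 1) :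
    zRel p a N c c' := by
  intro d hd
  rw [h.n_eq] at hd
  obtain ⟨d, rfl⟩ : ∃ e : Fin n, (e : ℕ) = d := ⟨⟨d, hd⟩, rfl⟩
  have h1 := hz d
  rw [h.z0, h.z1, h'.z0, h'.z1] at h1
  constructor
  · refine EqM.of_eval ht hp ?_
    rw [toPoly_psub, toPoly_padd, toPoly_pmul, toPoly_pmul, toPoly_pmul, map_sub, map_add,
      map_mul, map_mul, map_mul, sub_eq_zero]
    exact h1.1
  · refine EqM.of_eval ht hp ?_
    rw [toPoly_psub, toPoly_padd, toPoly_pmul, toPoly_pmul, toPoly_pmul, map_sub, map_add,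
      map_mul, map_mul, map_mul, sub_eq_zero]
    exact h1.2

theorem lbRel_iff {g n : ℕ} {t : ℝ} {c c' : Code} {S S' : Surf (SurfGroup g) (Fin n)}
    (h : Repr g t c S) (h' : Repr g t c' S') : lbRel g c c' ↔ S.lab = S'.lab := by
  constructor
  · intro h1
    funext d
    rw [h.lb, h'.lb]
    exact h1 d (by rw [h.n_eq]; exact d.2)
  · intro h1 d hd
    rw [h.n_eq] at hd
    obtain ⟨d, rfl⟩ : ∃ e : Fin n, (e : ℕ) = d := ⟨⟨d, hd⟩, rfl⟩
    rw [WEq, ← h.lb, ← h'.lb, h1]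

end Pool.Veech
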