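import Pool.Agent.Lib.MP_fceebd_gt.Q4a

/-! # Row Q5: moves of codes and labelled paths -/

set_option autoImplicit false

open Polynomial

namespace Pool.Veech

open RE

variable {g n : ℕ} {t : ℝ} {S S' : Surf (SurfGroup g) (Fin n)} {c : Code} {J : Jt}

theorem S1_MOK {α : Type*} [Primcodable α] {n : α → ℕ} {J : α → Jt} {c : α → Code}
    {μ : α → Mv} (hn : Primrec n) (hJ : Primrec J) (hc : Primrec c) (hμ : Primrec μ) :
    S1 fun a => MOK (n a) (J a) (c a) (μ a) := by
  unfold MOK
  refine S1.or (S1.and ?_ (S1.and ?_ ?_)) (S1.or (S1.and ?_ ?_) (S1.and ?_ ?_))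
  · exact S1.of_bool (f := fun a => decide ((μ a).1.1 = 0)) (by fun_prop) (fun a => by simp)
  · exact S1.of_bool (f := fun a => decide ((μ a).1.2 < (c a).n)) (by fun_prop)
      (fun a => by simp)
  · exact S1.of_bool (f := fun a => posCode (J a) (flipCode (c a) (μ a).1.2)) (by fun_prop)
      (fun a => Iff.rfl)
  · exact S1.of_bool (f := fun a => decide ((μ a).1.1 = 1)) (by fun_prop) (fun a => by simp)
  · exact S1.of_bool (f := fun a => permOK (c a).n (μ a).2.1.1 (μ a).2.1.2) (by fun_prop)
      (fun a => Iff.rfl)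
  · exact S1.of_bool (f := fun a => decide (2 ≤ (μ a).1.1)) (by fun_prop) (fun a => by simp)
  · refine S1.bforall (p := fun a d => WEq (n a)
      ((μ a).2.2.getD ((c a).op ((c a).nx ((c a).nx d))) []) ((μ a).2.2.getD d []) ∧
      WEq (n a) ((μ a).2.2.getD ((c a).ta d) []) ((μ a).2.2.getD d [])) ?_ (by fun_prop)
    refine S1.and ?_ ?_
    · exact S1_WEq (by fun_prop) (by fun_prop) (by fun_prop)
    · exact S1_WEq (by fun_prop) (by fun_prop) (by fun_prop)

theorem S1_PathOK {α : Type*} [Primcodable α] {n : α → ℕ} {J : α → Jt} {c : α → Code}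
    {l : α → List Mv} (hn : Primrec n) (hJ : Primrec J) (hc : Primrec c) (hl : Primrec l) :
    S1 fun a => PathOK (n a) (J a) (c a) (l a) := by
  unfold PathOK
  refine S1.bforall (p := fun a i => MOK (n a) (J a) (run (c a) ((l a).take i))
    ((l a).getD i default)) ?_ (by fun_prop)
  exact S1_MOK (by fun_prop) (by fun_prop) (by fun_prop) (by fun_prop)

end Pool.Veech
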