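import Pool.Agent.Lib.MP_fceebd_gt.Q4a

/-! # Row Q5: moves of codes and labelled paths -/

set_option autoImplicit false

open Polynomial

namespace Pool.Veech

open RE

variable {g n : ℕ} {t : ℝ} {S S' : Surf (SurfGroup g) (Fin n)} {c : Code} {J : Jt}

/-! ### accessors -/

private theorem Q5b_getD {α : Type} {n : ℕ} (f : ℕ → α) (x : α) {d : ℕ} (hd : d < n) :
    ((List.range n).map f).getD d x = f d := by
  simp [List.getD_eq_getElem?_getD, hd]

private theorem Q5b_repr {nx op ta : ℕ → ℕ} {z : ℕ → ZP × ZP} {lb : ℕ → Wd}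
    (h1 : ∀ d : Fin n, nx d = S'.nxt d) (h2 : ∀ d : Fin n, op d = S'.opp d)
    (h3 : ∀ d : Fin n, ta d = S'.tau d) (h4 : ∀ d : Fin n, S'.z d = ev t (z d))
    (h5 : ∀ d : Fin n, S'.lab d = word g (lb d)) : Repr g t (Code.mk' n nx op ta z lb) S' where
  n_eq := by simp [Code.mk', Code.n]
  op_len := by simp [Code.mk']
  ta_len := by simp [Code.mk']
  z_len := by simp [Code.mk']
  lb_len := by simp [Code.mk']
  nx d := by
    rw [← h1]
    exact Q5b_getD _ _ d.2
  op d := by
    rw [← h2]
    exact Q5b_getD _ _ d.2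
  ta d := by
    rw [← h3]
    exact Q5b_getD _ _ d.2
  z0 d := by
    have : (Code.mk' n nx op ta z lb).zz d = z d := Q5b_getD _ _ d.2
    rw [this, h4]
    rfl
  z1 d := by
    have : (Code.mk' n nx op ta z lb).zz d = z d := Q5b_getD _ _ d.2
    rw [this, h4]
    rfl
  lb d := by
    have : (Code.mk' n nx op ta z lb).lb d = lb d := Q5b_getD _ _ d.2
    rw [this, h5]

private theorem Q5b_z (h : Repr g t c S) (d : Fin n) : S.z d = ev t (c.zz d) := by
  funext i
  fin_cases i
  · exact h.z0 d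
  · exact h.z1 d

private theorem Q5b_isDiag (h : Repr g t c S) (a d : Fin n) :
    isDiag c a d = decide (S.tri.Diag a d) := by
  have h1 : c.op a = S.tri.opp a := h.op a
  have h2 : c.ta a = S.tri.tau a := h.ta a
  have h3 : c.ta (c.op a) = S.tri.tau (S.tri.opp a) := by
    rw [h1]
    exact h.ta (S.tri.opp a)
  unfold isDiag Tri.Diag
  rw [h3, h1, h2]
  simp [Fin.ext_iff, Bool.or_assoc]

private theorem Q5b_flipNx_eq (h : Repr g t c S) {a : Fin n} (hf : IsFlip S S' a) (d : Fin n) :
    flipNx c a d = S'.nxt d := by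
  have hT := hf.tri
  have hn1 : c.nx d = S.tri.nxt d := h.nx d
  have hn2 : c.nx (c.nx d) = S.tri.nxt (S.tri.nxt d) := by rw [hn1]; exact h.nx _
  have ho : c.op (c.nx d) = S.tri.opp (S.tri.nxt d) := by rw [hn1]; exact h.op _
  have hno : c.nx (c.op (c.nx d)) = S.tri.nxt (S.tri.opp (S.tri.nxt d)) := by
    rw [ho]; exact h.nx _
  have ho2 : c.op (c.nx (c.nx d)) = S.tri.opp (S.tri.nxt (S.tri.nxt d)) := by
    rw [hn2]; exact h.op _
  unfold flipNx
  rw [ho2, hno, hn2, hn1, Q5b_isDiag h, Q5b_isDiag h, Q5b_isDiag h]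
  by_cases h1 : S.tri.Diag a d
  · rw [decide_eq_true h1, cond_true]
    exact congrArg Fin.val (hT.nxt1 d h1).symm
  · rw [decide_eq_false h1, cond_false]
    by_cases h2 : S.tri.Diag a (S.tri.nxt d)
    · rw [decide_eq_true h2, cond_true]
      have := hT.nxt2 _ h2
      rw [S.tri.nxt3 d] at this
      exact congrArg Fin.val this.symm
    · rw [decide_eq_false h2, cond_false]
      by_cases h3 : S.tri.Diag a (S.tri.nxt (S.tri.nxt d))
      · rw [decide_eq_true h3, cond_true]
        have := hT.nxt3 _ h3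
        rw [S.tri.nxt3 d] at this
        exact congrArg Fin.val this.symm
      · rw [decide_eq_false h3, cond_false]
        have hN : ¬ S.tri.Near a d := by
          rintro ⟨b, hb, hbd⟩
          have hb' : S.tri.Diag a b := by
            simpa [Tri.Diag] using hb
          rcases hbd with rfl | rfl | rfl
          · exact h1 hb'
          · rw [S.tri.nxt3] at h3
            exact h3 hb'
          · rw [S.tri.nxt3] at h2
            exact h2 hb'
        exact congrArg Fin.val (hT.rest d hN).symm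

/-- the code of the flipped surface -/
theorem Repr.flip (h : Repr g t c S) {a : Fin n} (hf : IsFlip S S' a) :
    Repr g t (flipCode c a) S' := by
  unfold flipCode
  rw [h.n_eq]
  have hz := hf.z_eq
  refine Q5b_repr (fun d => Q5b_flipNx_eq h hf d) ?_ ?_ ?_ ?_
  · intro d
    rw [hf.opp]; exact h.op d
  · intro d
    rw [hf.tau]; exact h.ta d
  · intro d
    have hn1 : c.nx d = S.tri.nxt d := h.nx d
    have hn2 : c.nx (c.nx d) = S.tri.nxt (S.tri.nxt d) := by rw [hn1]; exact h.nx _
    have ho : c.op d = S.tri.opp d := h.op d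
    have hno : c.nx (c.op d) = S.tri.nxt (S.tri.opp d) := by rw [ho]; exact h.nx _
    rw [hz, Q5b_isDiag h, hn2, hno]
    unfold Tri.flipF
    by_cases h1 : S.tri.Diag a d
    · rw [decide_eq_true h1, if_pos h1, cond_true, ev_vneg, ev_vadd, Q5b_z h, Q5b_z h, neg_add]
      rfl
    · rw [decide_eq_false h1, if_neg h1, cond_false, Q5b_z h]
  · intro d
    have hn1 : c.nx d = S.tri.nxt d := h.nx d
    have hn2 : c.nx (c.nx d) = S.tri.nxt (S.tri.nxt d) := by rw [hn1]; exact h.nx _
    have ho : c.op d = S.tri.opp d := h.op d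
    have hno : c.nx (c.op d) = S.tri.nxt (S.tri.opp d) := by rw [ho]; exact h.nx _
    rw [hf.lab_eq, Q5b_isDiag h, hn2, hno]
    by_cases h1 : S.tri.Diag a d
    · rw [decide_eq_true h1, if_pos h1, cond_true, word_winv, word_append, ← h.lb, ← h.lb]
      rfl
    · rw [decide_eq_false h1, if_neg h1, cond_false, h.lb]

/-- if the new code is positive then the flip exists (`Geo.exists_flip`, `exists_isFlip`) -/
theorem Repr.exists_flip (h : Repr g t c S) (a : Fin n) (ht : |t * J.2 - J.1| ≤ 1)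
    (hp : posCode J (flipCode c a) = true) : ∃ S', IsFlip S S' a ∧ Repr g t (flipCode c a) S' := by
  have hG : Geo S.tri S.z := S.geo
  have hn : (flipCode c a).n = n := by
    have h1 : (flipCode c a).n = c.n := by simp [flipCode, Code.mk', Code.n]
    exact h1.trans h.n_eq
  have hpos : ∀ d : Fin n, 0 < aeval t (toPoly
      (pcr ((flipCode c a).zz d) ((flipCode c a).zz ((flipCode c a).nx d)))) := by
    intro d
    unfold posCode at hp
    rw [List.all_eq_true] at hp
    exact posJ_sound (hp d (by rw [List.mem_range, hn]; exact d.2)) ht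
  have hzz : ∀ d : Fin n, (flipCode c a).zz d = cond (isDiag c a d)
      (vneg (vadd (c.zz (c.nx (c.nx d))) (c.zz (c.nx (c.op d))))) (c.zz d) := by
    intro d
    exact Q5b_getD _ _ (by rw [h.n_eq]; exact d.2)
  have hnx : ∀ d : Fin n, (flipCode c a).nx d = flipNx c a d := by
    intro d
    exact Q5b_getD _ _ (by rw [h.n_eq]; exact d.2)
  have hzz' : ∀ d : Fin n, ¬ S.tri.Diag a d → (flipCode c a).zz d = c.zz d := by
    intro d hd
    rw [hzz, Q5b_isDiag h, decide_eq_false hd, cond_false]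
  -- the main step
  have key : ∀ b : Fin n, S.tri.Diag a b → S.tri.Diag a (S.tri.opp b) →
      0 < cr (S.z (S.tri.nxt (S.tri.nxt b))) (S.z (S.tri.nxt (S.tri.opp b))) := by
    intro b hb hb'
    have h1 := hG.not_diag_nxt hb
    have h2 := hG.not_diag_nxt hb'
    have hnx' : flipNx c a (S.tri.nxt (S.tri.nxt b)) = (S.tri.nxt (S.tri.opp b) : Fin n) := by
      have e1 : c.nx (S.tri.nxt (S.tri.nxt b) : Fin n) = (b : ℕ) := by
        have := h.nx (S.tri.nxt (S.tri.nxt b))
        rw [this]
        exact congrArg Fin.val (S.tri.nxt3 b)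
      have e2 : c.op b = (S.tri.opp b : Fin n) := h.op b
      have e3 : c.nx (S.tri.opp b : Fin n) = (S.tri.nxt (S.tri.opp b) : Fin n) := h.nx _
      unfold flipNx
      rw [e1, Q5b_isDiag h, Q5b_isDiag h, decide_eq_false h1.2, cond_false, decide_eq_true hb,
        cond_true, e2, e3]
    have h3 := hpos (S.tri.nxt (S.tri.nxt b))
    rw [hnx, hnx', hzz' _ h1.2, hzz' _ h2.1, aeval_pcr, ← Q5b_z h, ← Q5b_z h] at h3
    exact h3
  have hd1 : S.tri.Diag a a := Or.inl rfl
  have hd2 : S.tri.Diag a (S.tri.opp a) := Or.inr (Or.inl rfl)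
  have h1 := key a hd1 hd2
  have h2 := key (S.tri.opp a) hd2 (by rw [S.tri.opp2]; exact hd1)
  rw [S.tri.opp2] at h2
  obtain ⟨T', hT'⟩ := hG.exists_flip h1 h2
  obtain ⟨S', hS', -, -⟩ := exists_isFlip S hT' (hG.flip_geo hT' h1 h2)
  exact ⟨S', hS', h.flip hS'⟩

theorem Repr.relabel (h : Repr g t c S) (e : Equiv.Perm (Fin n)) :
    Repr g t (relabCode c (List.ofFn fun i => (e i : ℕ)) (List.ofFn fun i => (e.symm i : ℕ)))
      (S.relabP e) := by
  have hget : ∀ (σ : Equiv.Perm (Fin n)) (d : Fin n),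
      (List.ofFn fun i => (σ i : ℕ)).getD d 0 = σ d := by
    intro σ d
    simp [List.getD_eq_getElem?_getD]
  unfold relabCode
  rw [h.n_eq]
  refine Q5b_repr ?_ ?_ ?_ ?_ ?_
  · intro d
    rw [hget, h.nx, hget]
    rfl
  · intro d
    rw [hget, h.op, hget]
    rfl
  · intro d
    rw [hget, h.ta, hget]
    rfl
  · intro d
    rw [hget, ← Q5b_z h]
    rfl
  · intro d
    rw [hget, ← h.lb]
    rfl

theorem Repr.gauge (h : Repr g t c S) {γ : Fin n → SurfGroup g} (hg : IsGauge S S' γ) {ks : List Wd}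
    (hk : ∀ d : Fin n, word g (ks.getD d []) = γ d) : Repr g t (gaugeCode c ks) S' := by
  unfold gaugeCode
  rw [h.n_eq]
  refine Q5b_repr ?_ ?_ ?_ ?_ ?_
  · intro d
    rw [hg.nxt]; exact h.nx d
  · intro d
    rw [hg.opp]; exact h.op d
  · intro d
    rw [hg.tau]; exact h.ta d
  · intro d
    rw [hg.z]; exact Q5b_z h d
  · intro d
    rw [hg.lab, word_append, word_append, word_winv, h.nx, hk, hk, h.lb]

end Pool.Veech
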