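import Pool.Agent.Lib.MP_fceebd_gt.Q5a
import Pool.Agent.Lib.MP_fceebd_gt.Q5b

/-! # Row Q5: moves of codes and labelled paths -/

set_option autoImplicit false

open Polynomial

namespace Pool.Veech

open RE

variable {g n : ℕ} {t : ℝ} {S S' : Surf (SurfGroup g) (Fin n)} {c : Code} {J : Jt}

private theorem Q5c_trans {S S' S'' : Surf (SurfGroup g) (Fin n)} {m m' : Matrix (Fin n) (Fin n) ℤ}
    (h : LPath S S' m) (h' : LPath S' S'' m') : LPath S S'' (m' * m) := by
  induction h' with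
  | refl => rw [one_mul]; exact h
  | flip _ hf ih => rw [Matrix.mul_assoc]; exact .flip ih hf
  | relabel e _ ih => rw [Matrix.mul_assoc]; exact .relabel e ih
  | gauge c _ hg ih => exact .gauge c ih hg

/-- the gauge transformed surface -/
private theorem Q5c_gauge (S : Surf (SurfGroup g) (Fin n)) (γ : Fin n → SurfGroup g)
    (h1 : ∀ d, γ (S.turn d) = γ d) (h2 : ∀ d, γ (S.tau d) = γ d) : ∃ S', IsGauge S S' γ := by
  have h3 : ∀ d, γ (S.opp d) = γ (S.nxt d) := by
    intro d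
    have := h1 (S.nxt d)
    rwa [Surf.turn, S.nxt3] at this
  have h4 : ∀ d, γ (S.nxt (S.opp d)) = γ d := by
    intro d
    have := h1 (S.nxt (S.opp d))
    rw [Surf.turn, S.nxt3, S.opp2] at this
    exact this.symm
  refine ⟨{ nxt := S.nxt, opp := S.opp, tau := S.tau, z := S.z,
            lab := fun d => γ d * S.lab d * (γ (S.nxt d))⁻¹,
            nxt3 := S.nxt3, opp2 := S.opp2, tau2 := S.tau2, tau_nxt := S.tau_nxt,
            tau_opp := S.tau_opp, opp_ne := S.opp_ne, closed := S.closed, glue := S.glue,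
            anti := S.anti, pos := S.pos, lab_closed := ?_, lab_opp := ?_, lab_tau := ?_ },
            rfl, rfl, rfl, rfl, h1, h2, fun _ => rfl⟩
  · intro d
    have h5 := S.lab_closed d
    rw [S.nxt3]
    calc γ d * S.lab d * (γ (S.nxt d))⁻¹ * (γ (S.nxt d) * S.lab (S.nxt d) *
          (γ (S.nxt (S.nxt d)))⁻¹) * (γ (S.nxt (S.nxt d)) * S.lab (S.nxt (S.nxt d)) * (γ d)⁻¹)
        = γ d * (S.lab d * S.lab (S.nxt d) * S.lab (S.nxt (S.nxt d))) * (γ d)⁻¹ := by group
      _ = 1 := by rw [h5]; group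
  · intro d
    rw [h3, h4, S.lab_opp]
    group
  · intro d
    rw [h2, S.lab_tau, ← S.tau_nxt, h2]

private theorem Q5c_permOK {n : ℕ} {e e' : List ℕ} (h : permOK n e e' = true) :
    ∃ p : Equiv.Perm (Fin n), (∀ i : Fin n, ((p i : Fin n) : ℕ) = e.getD i 0) ∧
      ∀ i : Fin n, ((p.symm i : Fin n) : ℕ) = e'.getD i 0 := by
  unfold permOK at h
  rw [List.all_eq_true] at h
  have h1 : ∀ d < n, e.getD d 0 < n ∧ e'.getD d 0 < n ∧ e.getD (e'.getD d 0) 0 = d ∧
      e'.getD (e.getD d 0) 0 = d := by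
    intro d hd
    have := h d (List.mem_range.2 hd)
    simp only [Bool.and_eq_true, decide_eq_true_eq] at this
    exact ⟨this.1.1.1, this.1.1.2, this.1.2, this.2⟩
  refine ⟨⟨fun i => ⟨e.getD i 0, (h1 i i.2).1⟩, fun i => ⟨e'.getD i 0, (h1 i i.2).2.1⟩, ?_, ?_⟩,
    fun _ => rfl, fun _ => rfl⟩
  · intro i
    exact Fin.ext (h1 i i.2).2.2.2
  · intro i
    exact Fin.ext (h1 i i.2).2.2.1

private theorem Q5c_getD_ofFn {α : Type*} {n : ℕ} (f : Fin n → α) (i : Fin n) (a : α) :
    (List.ofFn f).getD i a = f i := by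
  rw [List.getD_eq_getElem _ _ (by simp), List.getElem_ofFn]

private theorem Q5c_mk'_congr {n : ℕ} {nx nx' op op' ta ta' : ℕ → ℕ} {z z' : ℕ → ZP × ZP}
    {lb lb' : ℕ → Wd} (h1 : ∀ d < n, nx d = nx' d) (h2 : ∀ d < n, op d = op' d)
    (h3 : ∀ d < n, ta d = ta' d) (h4 : ∀ d < n, z d = z' d) (h5 : ∀ d < n, lb d = lb' d) :
    Code.mk' n nx op ta z lb = Code.mk' n nx' op' ta' z' lb' := by
  unfold Code.mk'
  rw [List.map_congr_left fun d hd => h1 d (List.mem_range.1 hd),
    List.map_congr_left fun d hd => h2 d (List.mem_range.1 hd),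
    List.map_congr_left fun d hd => h3 d (List.mem_range.1 hd),
    List.map_congr_left fun d hd => h4 d (List.mem_range.1 hd),
    List.map_congr_left fun d hd => h5 d (List.mem_range.1 hd)]

private theorem Q5c_relab (h : Repr g t c S) {e e' : List ℕ} {p : Equiv.Perm (Fin n)}
    (hp : ∀ i : Fin n, ((p i : Fin n) : ℕ) = e.getD i 0)
    (hp' : ∀ i : Fin n, ((p.symm i : Fin n) : ℕ) = e'.getD i 0) :
    relabCode c e e' = relabCode c (List.ofFn fun i => (p i : ℕ))
      (List.ofFn fun i => (p.symm i : ℕ)) := by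
  unfold relabCode
  have key : ∀ d < c.n, ∃ d' : Fin n, e'.getD d 0 = d' ∧
      (List.ofFn fun i => ((p.symm i : Fin n) : ℕ)).getD d 0 = d' := by
    intro d hd
    rw [h.n_eq] at hd
    refine ⟨p.symm ⟨d, hd⟩, (hp' ⟨d, hd⟩).symm, ?_⟩
    exact Q5c_getD_ofFn (fun i => ((p.symm i : Fin n) : ℕ)) ⟨d, hd⟩ 0
  have key2 : ∀ d' : Fin n, e.getD d' 0 = (List.ofFn fun i => ((p i : Fin n) : ℕ)).getD d' 0 := by
    intro d'
    rw [← hp d']
    exact (Q5c_getD_ofFn (fun i => ((p i : Fin n) : ℕ)) d' 0).symm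
  refine Q5c_mk'_congr ?_ ?_ ?_ ?_ ?_
  · intro d hd
    obtain ⟨d', h1, h2⟩ := key d hd
    rw [h1, h2, h.nx]
    exact key2 _
  · intro d hd
    obtain ⟨d', h1, h2⟩ := key d hd
    rw [h1, h2, h.op]
    exact key2 _
  · intro d hd
    obtain ⟨d', h1, h2⟩ := key d hd
    rw [h1, h2, h.ta]
    exact key2 _
  · intro d hd
    obtain ⟨d', h1, h2⟩ := key d hd
    rw [h1, h2]
  · intro d hd
    obtain ⟨d', h1, h2⟩ := key d hd
    rw [h1, h2]

/-- soundness of a move -/
theorem Repr.move (h : Repr g t c S) {μ : Mv} (ht : |t * J.2 - J.1| ≤ 1) (hm : MOK g J c μ) :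
    ∃ S' m, Repr g t (mvCode c μ) S' ∧ LPath S S' m := by
  rcases hm with ⟨h1, h2, h3⟩ | ⟨h1, h2⟩ | ⟨h1, h2⟩
  · have ha : μ.1.2 < n := by rw [← h.n_eq]; exact h2
    obtain ⟨S', hf, hr⟩ := h.exists_flip ⟨μ.1.2, ha⟩ ht h3
    refine ⟨S', _, ?_, .flip .refl hf⟩
    have : mvCode c μ = flipCode c μ.1.2 := by
      unfold mvCode
      rw [decide_eq_true h1]
      rfl
    rw [this]
    exact hr
  · have : mvCode c μ = relabCode c μ.2.1.1 μ.2.1.2 := by
      unfold mvCode
      rw [decide_eq_false (by omega : ¬ μ.1.1 = 0), decide_eq_true h1]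
      rfl
    rw [h.n_eq] at h2
    obtain ⟨p, hp, hp'⟩ := Q5c_permOK h2
    rw [this, Q5c_relab h hp hp']
    exact ⟨_, _, h.relabel p, .relabel p .refl⟩
  · have : mvCode c μ = gaugeCode c μ.2.2 := by
      unfold mvCode
      rw [decide_eq_false (by omega : ¬ μ.1.1 = 0), decide_eq_false (by omega : ¬ μ.1.1 = 1)]
      rfl
    rw [this]
    have h4 : ∀ d : Fin n, word g (μ.2.2.getD (S.turn d : Fin n) []) =
        word g (μ.2.2.getD d []) := by
      intro d
      have h3 := (h2 d (by rw [h.n_eq]; exact d.2)).1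
      rw [h.nx, h.nx, h.op] at h3
      exact h3
    have h5 : ∀ d : Fin n, word g (μ.2.2.getD (S.tau d : Fin n) []) =
        word g (μ.2.2.getD d []) := by
      intro d
      have h3 := (h2 d (by rw [h.n_eq]; exact d.2)).2
      rw [h.ta] at h3
      exact h3
    obtain ⟨S', hg⟩ := Q5c_gauge S (fun d => word g (μ.2.2.getD d [])) h4 h5
    exact ⟨S', _, h.gauge hg fun _ => rfl, .gauge _ .refl hg⟩

/-- soundness of paths -/
theorem Repr.path (h : Repr g t c S) {l : List Mv} (ht : |t * J.2 - J.1| ≤ 1)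
    (hl : PathOK g J c l) : ∃ S' m, Repr g t (run c l) S' ∧ LPath S S' m := by
  induction l generalizing c S with
  | nil => exact ⟨S, 1, h, .refl⟩
  | cons μ l ih =>
    have h0 : MOK g J c μ := hl 0 (by simp)
    obtain ⟨S1, m1, h1, hp1⟩ := h.move ht h0
    have h2 : PathOK g J (mvCode c μ) l := by
      intro i hi
      have := hl (i + 1) (by simpa using hi)
      simpa [run] using this
    obtain ⟨S2, m2, h3, hp2⟩ := ih h1 h2
    exact ⟨S2, m2 * m1, h3, Q5c_trans hp1 hp2⟩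

private theorem Q5c_pos (h : Repr g t c S) :
    ∃ ε : ℝ, 0 < ε ∧ ∀ J, Good t ε J → posCode J c = true := by
  have h1 : ∀ d : Fin n, ∃ ε : ℝ, 0 < ε ∧ ∀ J : Jt, Good t ε J →
      posJ J (pcr (c.zz d) (c.zz (c.nx d))) = true := by
    intro d
    refine posJ_complete ?_
    rw [aeval_pcr]
    have h2 : ∀ d : Fin n, ev t (c.zz d) = S.z d := by
      intro d
      funext i
      fin_cases i
      · exact (h.z0 d).symm
      · exact (h.z1 d).symm
    rw [h2, h.nx, h2]
    exact S.pos d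
  choose ε hε hJ using h1
  by_cases hn : Nonempty (Fin n)
  · obtain ⟨d0, hd0⟩ := Finite.exists_min ε
    refine ⟨ε d0, hε d0, fun J hG => ?_⟩
    unfold posCode
    rw [List.all_eq_true]
    intro d hd
    rw [List.mem_range, h.n_eq] at hd
    exact hJ ⟨d, hd⟩ J (hG.mono (hd0 ⟨d, hd⟩))
  · refine ⟨1, one_pos, fun J _ => ?_⟩
    unfold posCode
    rw [List.all_eq_true]
    intro d hd
    rw [List.mem_range, h.n_eq] at hd
    exact absurd ⟨⟨d, hd⟩⟩ hn

private theorem Q5c_snoc {c : Code} {l : List Mv} {μ : Mv} (hl : PathOK g J c l)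
    (hμ : MOK g J (run c l) μ) : PathOK g J c (l ++ [μ]) := by
  intro i hi
  rw [List.length_append, List.length_singleton] at hi
  rcases Nat.lt_or_ge i l.length with h | h
  · have h1 : (l ++ [μ]).take i = l.take i := by
      rw [List.take_append_of_le_length h.le]
    have h2 : (l ++ [μ]).getD i default = l.getD i default := by
      rw [List.getD_append _ _ _ _ h]
    rw [h1, h2]
    exact hl i h
  · have h0 : i = l.length := by omega
    subst h0
    have h1 : (l ++ [μ]).take l.length = l := by simp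
    have h2 : (l ++ [μ]).getD l.length default = μ := by
      rw [List.getD_append_right _ _ _ _ le_rfl]
      simp
    rw [h1, h2]
    exact hμ

private theorem Q5c_run (c : Code) (l : List Mv) (μ : Mv) :
    run c (l ++ [μ]) = mvCode (run c l) μ := by
  unfold run
  rw [List.foldl_append]
  rfl

/-- completeness of paths -/
theorem Repr.exists_moves (h : Repr g t c S) {m : Matrix (Fin n) (Fin n) ℤ}
    (hp : LPath S S' m) : ∃ l : List Mv, Repr g t (run c l) S' ∧
      ∃ ε : ℝ, 0 < ε ∧ ∀ J, Good t ε J → PathOK g J c l := by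
  induction hp with
  | refl => exact ⟨[], h, 1, one_pos, fun J _ i hi => absurd hi (by simp)⟩
  | @flip S1 S2 m1 a _ hf ih =>
    obtain ⟨l, hr, ε, hε, hG⟩ := ih
    have hr2 := hr.flip hf
    obtain ⟨ε2, hε2, hG2⟩ := Q5c_pos hr2
    have hmv : mvCode (run c l) ((0, (a : ℕ)), ([], []), []) = flipCode (run c l) a := rfl
    refine ⟨l ++ [((0, (a : ℕ)), ([], []), [])], ?_, min ε ε2, lt_min hε hε2, fun J hJ => ?_⟩
    · rw [Q5c_run, hmv]
      exact hr2
    · refine Q5c_snoc (hG J (hJ.mono (min_le_left _ _))) (Or.inl ⟨rfl, ?_, ?_⟩)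
      · change (a : ℕ) < (run c l).n
        rw [hr.n_eq]
        exact a.2
      · exact hG2 J (hJ.mono (min_le_right _ _))
  | @relabel S1 m1 e _ ih =>
    obtain ⟨l, hr, ε, hε, hG⟩ := ih
    have hr2 := hr.relabel e
    refine ⟨l ++ [((1, 0), (List.ofFn fun i => ((e i : Fin n) : ℕ),
      List.ofFn fun i => ((e.symm i : Fin n) : ℕ)), [])], ?_, ε, hε, fun J hJ => ?_⟩
    · rw [Q5c_run]
      exact hr2
    · refine Q5c_snoc (hG J hJ) (Or.inr (Or.inl ⟨rfl, ?_⟩))
      unfold permOK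
      rw [List.all_eq_true]
      intro d hd
      rw [List.mem_range, hr.n_eq] at hd
      have e1 : ∀ i : Fin n, (List.ofFn fun i => ((e i : Fin n) : ℕ)).getD i 0 = e i :=
        fun i => Q5c_getD_ofFn (fun i => ((e i : Fin n) : ℕ)) i 0
      have e2 : ∀ i : Fin n, (List.ofFn fun i => ((e.symm i : Fin n) : ℕ)).getD i 0 = e.symm i :=
        fun i => Q5c_getD_ofFn (fun i => ((e.symm i : Fin n) : ℕ)) i 0
      have e3 := e1 ⟨d, hd⟩
      have e4 := e2 ⟨d, hd⟩
      simp only at e3 e4 ⊢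
      rw [e3, e4, e1, e2, hr.n_eq]
      simp
  | @gauge S1 S2 m1 γ _ hg ih =>
    obtain ⟨l, hr, ε, hε, hG⟩ := ih
    choose ks hks using fun d : Fin n => word_surj g (γ d)
    have hk : ∀ d : Fin n, word g ((List.ofFn ks).getD d []) = γ d := by
      intro d
      rw [Q5c_getD_ofFn, hks]
    have hr2 := hr.gauge hg hk
    refine ⟨l ++ [((2, 0), ([], []), List.ofFn ks)], ?_, ε, hε, fun J hJ => ?_⟩
    · rw [Q5c_run]
      exact hr2
    · refine Q5c_snoc (hG J hJ) (Or.inr (Or.inr ⟨le_rfl, ?_⟩))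
      intro d hd
      rw [hr.n_eq] at hd
      have e1 := hr.nx ⟨d, hd⟩
      have e2 := hr.ta ⟨d, hd⟩
      have e3 := hk ⟨d, hd⟩
      simp only at e1 e2 e3
      constructor
      · change word g _ = word g _
        rw [e1, hr.nx, hr.op, e3]
        change word g ((List.ofFn ks).getD (S1.turn ⟨d, hd⟩ : Fin n) []) = _
        rw [hk, hg.c_turn]
      · change word g _ = word g _
        rw [e2, e3]
        rw [hk, hg.c_tau]

end Pool.Veech
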