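import Pool.Agent.Lib.MP_fceebd_gt.Q4a

/-! # Row Q6: connectedness, singularities, orientation -/

set_option autoImplicit false

open Polynomial

namespace Pool.Veech

open RE

variable {g n : ℕ} {t : ℝ} {S S' : Surf (SurfGroup g) (Fin n)} {c : Code} {J : Jt}

/-- `l` is a chain of darts from `a` to `b`, consecutive ones connected by `nxt`, `opp` or `tau`, in
one of the two directions -/
def chainOK (c : Code) (a b : ℕ) (l : List ℕ) : Bool :=
  decide (l.getD 0 0 = a) && decide (l.getD (l.length - 1) 0 = b) && decide (0 < l.length) &&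
    (List.range (l.length - 1)).all fun i => decide (l.getD i 0 < c.n) &&
      (decide (l.getD (i + 1) 0 = c.nx (l.getD i 0)) || decide (l.getD i 0 = c.nx (l.getD (i + 1) 0)) ||
       decide (l.getD (i + 1) 0 = c.op (l.getD i 0)) || decide (l.getD (i + 1) 0 = c.ta (l.getD i 0)))

def ConnC (c : Code) : Prop := ∀ d < c.n, ∃ l : List ℕ, chainOK c 0 d l = true

theorem S1_ConnC {α : Type*} [Primcodable α] {c : α → Code} (hc : Primrec c) :
    S1 fun a => ConnC (c a) := by
  unfold ConnC
  have h1 : Primrec fun x : (α × ℕ) × List ℕ => chainOK (c x.1.1) 0 x.1.2 x.2 := by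
    unfold chainOK
    fun_prop
  exact S1.bforall (S1.exists (p := fun (x : α × ℕ) (l : List ℕ) =>
    chainOK (c x.1) 0 x.2 l = true) (S1.of_bool h1 fun _ => Iff.rfl)) (by fun_prop)

/-- the symmetric relation -/
private def Q6a_r (S : Surf (SurfGroup g) (Fin n)) (a b : Fin n) : Prop :=
  b = S.nxt a ∨ a = S.nxt b ∨ b = S.opp a ∨ b = S.tau a

private theorem Q6a_symm (S : Surf (SurfGroup g) (Fin n)) {a b : Fin n} (h : Q6a_r S a b) :
    Q6a_r S b a := by
  rcases h with h | h | h | h
  · exact Or.inr (Or.inl h)
  · exact Or.inl h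
  · exact Or.inr (Or.inr (Or.inl (by rw [h, S.opp2])))
  · exact Or.inr (Or.inr (Or.inr (by rw [h, S.tau2])))

private theorem Q6a_symm' {a b : Fin n} (h : Relation.ReflTransGen (Q6a_r S) a b) :
    Relation.ReflTransGen (Q6a_r S) b a := by
  induction h with
  | refl => exact Relation.ReflTransGen.refl
  | tail _ h ih => exact Relation.ReflTransGen.head (Q6a_symm S h) ih

private theorem Q6a_rtg {a b : Fin n}
    (h : Relation.EqvGen (fun a b => b = S.nxt a ∨ b = S.opp a ∨ b = S.tau a) a b) :
    Relation.ReflTransGen (Q6a_r S) a b := by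
  induction h with
  | rel a b h =>
    refine Relation.ReflTransGen.single ?_
    rcases h with h | h | h
    · exact Or.inl h
    · exact Or.inr (Or.inr (Or.inl h))
    · exact Or.inr (Or.inr (Or.inr h))
  | refl _ => exact Relation.ReflTransGen.refl
  | symm a b _ ih => exact Q6a_symm' ih
  | trans _ _ _ _ _ ih1 ih2 => exact ih1.trans ih2

private theorem Q6a_chain (h : Repr g t c S) {a b : Fin n}
    (hab : Relation.ReflTransGen (Q6a_r S) a b) :
    ∃ l : List ℕ, chainOK c a b l = true := by
  induction hab using Relation.ReflTransGen.head_induction_on with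
  | refl =>
    refine ⟨[b.1], ?_⟩
    simp [chainOK]
  | @head a' c' h1 _ ih =>
    obtain ⟨l, hl⟩ := ih
    refine ⟨a'.1 :: l, ?_⟩
    unfold chainOK at hl ⊢
    simp only [Bool.and_eq_true, decide_eq_true_eq, List.all_eq_true, List.mem_range,
      Bool.or_eq_true] at hl ⊢
    obtain ⟨⟨⟨h2, h3⟩, h4⟩, h5⟩ := hl
    refine ⟨⟨⟨rfl, ?_⟩, by simp⟩, ?_⟩
    · have : (a'.1 :: l).length - 1 = (l.length - 1) + 1 := by
        simp only [List.length_cons]
        omega
      rw [this, List.getD_cons_succ]
      exact h3
    · intro i hi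
      have hi' : i < l.length := by simpa using hi
      rcases i with _ | j
      · rw [List.getD_cons_zero, List.getD_cons_succ, h2]
        refine ⟨by rw [h.n_eq]; exact a'.2, ?_⟩
        rw [h.nx, h.nx, h.op, h.ta]
        rcases h1 with h1 | h1 | h1 | h1
        · exact Or.inl (Or.inl (Or.inl (congrArg Fin.val h1)))
        · exact Or.inl (Or.inl (Or.inr (congrArg Fin.val h1)))
        · exact Or.inl (Or.inr (congrArg Fin.val h1))
        · exact Or.inr (congrArg Fin.val h1)
      · rw [List.getD_cons_succ, List.getD_cons_succ]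
        exact h5 j (by omega)

theorem connC_iff (h : Repr g t c S) (hn : 0 < n) : ConnC c ↔ S.Connected := by
  constructor
  · intro hC
    have key : ∀ d : Fin n,
        Relation.EqvGen (fun a b => b = S.nxt a ∨ b = S.opp a ∨ b = S.tau a) ⟨0, hn⟩ d := by
      intro d
      obtain ⟨l, hl⟩ := hC d.1 (by rw [h.n_eq]; exact d.2)
      unfold chainOK at hl
      simp only [Bool.and_eq_true, decide_eq_true_eq, List.all_eq_true, List.mem_range,
        Bool.or_eq_true] at hl
      obtain ⟨⟨⟨h2, h3⟩, h4⟩, h5⟩ := hl
      have hlt : ∀ i < l.length, l.getD i 0 < n := by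
        intro i hi
        by_cases hi' : i < l.length - 1
        · have := (h5 i hi').1
          rwa [h.n_eq] at this
        · have : i = l.length - 1 := by omega
          rw [this, h3]
          exact d.2
      have hall : ∀ i, ∀ hi : i < l.length,
          Relation.EqvGen (fun a b => b = S.nxt a ∨ b = S.opp a ∨ b = S.tau a) ⟨0, hn⟩
            ⟨l.getD i 0, hlt i hi⟩ := by
        intro i
        induction i with
        | zero =>
          intro hi
          have : (⟨l.getD 0 0, hlt 0 hi⟩ : Fin n) = ⟨0, hn⟩ := Fin.ext h2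
          rw [this]
          exact .refl _
        | succ i ih =>
          intro hi
          refine .trans _ _ _ (ih (by omega)) ?_
          have h6 := (h5 i (by omega)).2
          have e1 := h.nx ⟨l.getD i 0, hlt i (by omega)⟩
          have e2 := h.nx ⟨l.getD (i + 1) 0, hlt (i + 1) hi⟩
          have e3 := h.op ⟨l.getD i 0, hlt i (by omega)⟩
          have e4 := h.ta ⟨l.getD i 0, hlt i (by omega)⟩
          rcases h6 with ((h6 | h6) | h6) | h6
          · exact .rel _ _ (Or.inl (Fin.ext (h6.trans e1)))
          · exact .symm _ _ (.rel _ _ (Or.inl (Fin.ext (h6.trans e2))))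
          · exact .rel _ _ (Or.inr (Or.inl (Fin.ext (h6.trans e3))))
          · exact .rel _ _ (Or.inr (Or.inr (Fin.ext (h6.trans e4))))
      have h7 := hall (l.length - 1) (by omega)
      have : (⟨l.getD (l.length - 1) 0, hlt _ (by omega)⟩ : Fin n) = d := Fin.ext h3
      rw [this] at h7
      exact h7
    intro d d'
    exact .trans _ _ _ (.symm _ _ (key d)) (key d')
  · intro hC d hd
    rw [h.n_eq] at hd
    exact Q6a_chain h (Q6a_rtg (hC ⟨0, hn⟩ ⟨d, hd⟩))

end Pool.Veech
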