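import Pool.Agent.Lib.MP_fceebd_gt.Q4a

/-! # Row Q6: connectedness, singularities, orientation -/

set_option autoImplicit false

open Polynomial

namespace Pool.Veech

open RE

variable {g n : ℕ} {t : ℝ} {S S' : Surf (SurfGroup g) (Fin n)} {c : Code} {J : Jt}

/-- the turn around the origin -/
def tn (c : Code) (d : ℕ) : ℕ := c.op (c.nx (c.nx d))

/-- iterated turn -/
def tnI (c : Code) (i d : ℕ) : ℕ := (List.range i).foldr (fun _ x => tn c x) d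

def facesJ (J : Jt) (c : Code) (u : ℤ × ℤ) (d : ℕ) : Bool :=
  posJ J (pcr (c.zz d) ([u.1], [u.2])) && posJ J (pcr ([u.1], [u.2]) (c.zz (tn c d)))

def SingC (J : Jt) (c : Code) : Prop :=
  ∃ u : ℤ × ℤ, ∀ d < c.n, ∃ ij : ℕ × ℕ, tnI c ij.1 d ≠ tnI c ij.2 d ∧
    facesJ J c u (tnI c ij.1 d) = true ∧ facesJ J c u (tnI c ij.2 d) = true

private theorem q6b_tn {α : Type*} [Primcodable α] {c : α → Code} {d : α → ℕ} (hc : Primrec c)
    (hd : Primrec d) : Primrec fun a => tn (c a) (d a) := by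
  unfold tn
  fun_prop

private theorem q6b_tnI {α : Type*} [Primcodable α] {c : α → Code} {i d : α → ℕ}
    (hc : Primrec c) (hi : Primrec i) (hd : Primrec d) :
    Primrec fun a => tnI (c a) (i a) (d a) := by
  unfold tnI
  have h1 : Primrec fun a => List.range (i a) := by fun_prop
  exact p_foldr h1 hd (q6b_tn (by fun_prop) (by fun_prop))

private theorem q6b_faces {α : Type*} [Primcodable α] {J : α → Jt} {c : α → Code}
    {u : α → ℤ × ℤ} {d : α → ℕ} (hJ : Primrec J) (hc : Primrec c) (hu : Primrec u)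
    (hd : Primrec d) : Primrec fun a => facesJ (J a) (c a) (u a) (d a) := by
  unfold facesJ
  have h1 := q6b_tn hc hd
  fun_prop

theorem S1_SingC {α : Type*} [Primcodable α] {J : α → Jt} {c : α → Code} (hJ : Primrec J)
    (hc : Primrec c) : S1 fun a => SingC (J a) (c a) := by
  refine S1.exists (p := fun a (u : ℤ × ℤ) => ∀ d < (c a).n, ∃ ij : ℕ × ℕ,
    tnI (c a) ij.1 d ≠ tnI (c a) ij.2 d ∧ facesJ (J a) (c a) u (tnI (c a) ij.1 d) = true ∧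
      facesJ (J a) (c a) u (tnI (c a) ij.2 d) = true) ?_
  refine S1.bforall (p := fun (x : α × (ℤ × ℤ)) (d : ℕ) => ∃ ij : ℕ × ℕ,
    tnI (c x.1) ij.1 d ≠ tnI (c x.1) ij.2 d ∧
      facesJ (J x.1) (c x.1) x.2 (tnI (c x.1) ij.1 d) = true ∧
      facesJ (J x.1) (c x.1) x.2 (tnI (c x.1) ij.2 d) = true) ?_ (by fun_prop)
  refine S1.exists (p := fun (y : (α × (ℤ × ℤ)) × ℕ) (ij : ℕ × ℕ) =>
    tnI (c y.1.1) ij.1 y.2 ≠ tnI (c y.1.1) ij.2 y.2 ∧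
      facesJ (J y.1.1) (c y.1.1) y.1.2 (tnI (c y.1.1) ij.1 y.2) = true ∧
      facesJ (J y.1.1) (c y.1.1) y.1.2 (tnI (c y.1.1) ij.2 y.2) = true) ?_
  have hc' : Primrec fun z : ((α × (ℤ × ℤ)) × ℕ) × (ℕ × ℕ) => c z.1.1.1 := by fun_prop
  have hJ' : Primrec fun z : ((α × (ℤ × ℤ)) × ℕ) × (ℕ × ℕ) => J z.1.1.1 := by fun_prop
  have hu' : Primrec fun z : ((α × (ℤ × ℤ)) × ℕ) × (ℕ × ℕ) => z.1.1.2 := by fun_prop
  have h1 : Primrec fun z : ((α × (ℤ × ℤ)) × ℕ) × (ℕ × ℕ) =>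
      tnI (c z.1.1.1) z.2.1 z.1.2 := q6b_tnI hc' (by fun_prop) (by fun_prop)
  have h2 : Primrec fun z : ((α × (ℤ × ℤ)) × ℕ) × (ℕ × ℕ) =>
      tnI (c z.1.1.1) z.2.2 z.1.2 := q6b_tnI hc' (by fun_prop) (by fun_prop)
  have h3 := q6b_faces hJ' hc' hu' h1
  have h4 := q6b_faces hJ' hc' hu' h2
  refine S1.of_bool (f := fun z : ((α × (ℤ × ℤ)) × ℕ) × (ℕ × ℕ) =>
    (!(decide (tnI (c z.1.1.1) z.2.1 z.1.2 = tnI (c z.1.1.1) z.2.2 z.1.2))) &&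
      (facesJ (J z.1.1.1) (c z.1.1.1) z.1.1.2 (tnI (c z.1.1.1) z.2.1 z.1.2) &&
      facesJ (J z.1.1.1) (c z.1.1.1) z.1.1.2 (tnI (c z.1.1.1) z.2.2 z.1.2))) ?_ ?_
  · exact p_and (p_not (p_decide_eq h1 h2)) (p_and h3 h4)
  · intro z
    simp only [Bool.and_eq_true, Bool.not_eq_true', decide_eq_false_iff_not, ne_eq]

private theorem q6b_ev (h : Repr g t c S) (d : Fin n) : ev t (c.zz d) = S.z d := by
  funext i
  match i with
  | 0 => exact (h.z0 d).symm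
  | 1 => exact (h.z1 d).symm

private theorem q6b_one (t : ℝ) (a : ℤ) : aeval t (toPoly [a]) = (a : ℝ) := by
  have h1 : toPoly [a] = C a := by
    unfold toPoly
    rw [List.length_singleton, Finset.sum_range_one, pow_zero, mul_one]
    rfl
  rw [h1, aeval_C]
  simp

private theorem q6b_int (t : ℝ) (u : ℤ × ℤ) :
    ev t ([u.1], [u.2]) = ![(u.1 : ℝ), (u.2 : ℝ)] := by
  unfold ev
  rw [q6b_one, q6b_one]

private theorem q6b_turn (h : Repr g t c S) (d : Fin n) : tn c d = (S.turn d : ℕ) := by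
  unfold tn Surf.turn
  rw [h.nx, h.nx, h.op]

private theorem q6b_turnI (h : Repr g t c S) (i : ℕ) : ∀ d : Fin n,
    tnI c i d = ((S.turn^[i] d : Fin n) : ℕ) := by
  induction i with
  | zero => exact fun d => rfl
  | succ i ih =>
    intro d
    have h1 : tnI c (i + 1) d = tnI c i (tn c d) := by
      unfold tnI
      rw [List.range_succ, List.foldr_append]
      rfl
    rw [h1, q6b_turn h, ih, Function.iterate_succ_apply]

theorem SingC.sound (h : Repr g t c S) (ht : |t * J.2 - J.1| ≤ 1) (hs : SingC J c) :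
    S.Singular := by
  obtain ⟨u, hu⟩ := hs
  refine ⟨![(u.1 : ℝ), (u.2 : ℝ)], fun d => ?_⟩
  obtain ⟨⟨i, j⟩, h1, h2, h3⟩ := hu d (by rw [h.n_eq]; exact d.2)
  dsimp only at h1 h2 h3
  rw [q6b_turnI h, q6b_turnI h] at h1
  rw [q6b_turnI h] at h2 h3
  have key : ∀ d : Fin n, facesJ J c u d = true → S.Faces d ![(u.1 : ℝ), (u.2 : ℝ)] := by
    intro d hd
    unfold facesJ at hd
    rw [Bool.and_eq_true] at hd
    have q1 := posJ_sound hd.1 ht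
    have q2 := posJ_sound hd.2 ht
    rw [aeval_pcr, q6b_ev h, q6b_int] at q1
    rw [aeval_pcr, q6b_turn h, q6b_ev h, q6b_int] at q2
    exact ⟨q1, q2⟩
  exact ⟨i, j, fun e => h1 (congrArg _ e), key _ h2, key _ h3⟩

open Filter in
private theorem q6b_floor {a b : ℝ} {u : Vec} (h : 0 < a * u 1 - b * u 0) :
    ∀ᶠ N : ℕ in atTop, 0 < a * (⌊(N : ℝ) * u 1⌋ : ℝ) - b * (⌊(N : ℝ) * u 0⌋ : ℝ) := by
  have h1 : Tendsto (fun N : ℕ => (N : ℝ) * (a * u 1 - b * u 0)) atTop atTop :=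
    tendsto_natCast_atTop_atTop.atTop_mul_const h
  filter_upwards [h1.eventually_gt_atTop (|a| + |b|)] with N hN
  have f1 : |(N : ℝ) * u 1 - ⌊(N : ℝ) * u 1⌋| ≤ 1 := by
    rw [abs_le]
    have := Int.floor_le ((N : ℝ) * u 1)
    have := Int.lt_floor_add_one ((N : ℝ) * u 1)
    constructor <;> linarith
  have f2 : |(N : ℝ) * u 0 - ⌊(N : ℝ) * u 0⌋| ≤ 1 := by
    rw [abs_le]
    have := Int.floor_le ((N : ℝ) * u 0)
    have := Int.lt_floor_add_one ((N : ℝ) * u 0)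
    constructor <;> linarith
  have g1 : a * ((N : ℝ) * u 1 - ⌊(N : ℝ) * u 1⌋) ≤ |a| := by
    calc a * ((N : ℝ) * u 1 - ⌊(N : ℝ) * u 1⌋) ≤ |a * ((N : ℝ) * u 1 - ⌊(N : ℝ) * u 1⌋)| :=
          le_abs_self _
      _ = |a| * |(N : ℝ) * u 1 - ⌊(N : ℝ) * u 1⌋| := abs_mul _ _
      _ ≤ |a| * 1 := mul_le_mul_of_nonneg_left f1 (abs_nonneg a)
      _ = |a| := mul_one _
  have g2 : -|b| ≤ b * ((N : ℝ) * u 0 - ⌊(N : ℝ) * u 0⌋) := by
    have q : |b * ((N : ℝ) * u 0 - ⌊(N : ℝ) * u 0⌋)| ≤ |b| := by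
      rw [abs_mul]
      calc |b| * |(N : ℝ) * u 0 - ⌊(N : ℝ) * u 0⌋| ≤ |b| * 1 :=
            mul_le_mul_of_nonneg_left f2 (abs_nonneg b)
        _ = |b| := mul_one _
    exact (abs_le.1 q).1
  nlinarith [hN, g1, g2]

open Filter in
private theorem q6b_faces_ev {d : Fin n} {u : Vec} (h : S.Faces d u) :
    ∀ᶠ N : ℕ in atTop,
      S.Faces d ![((⌊(N : ℝ) * u 0⌋ : ℤ) : ℝ), ((⌊(N : ℝ) * u 1⌋ : ℤ) : ℝ)] := by
  obtain ⟨h1, h2⟩ := h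
  have e1 := q6b_floor (a := S.z d 0) (b := S.z d 1) (u := u) h1
  have e2 := q6b_floor (a := -S.z (S.turn d) 0) (b := -S.z (S.turn d) 1) (u := u) (by
    unfold cr at h2
    linarith)
  filter_upwards [e1, e2] with N q1 q2
  constructor
  · exact q1
  · change 0 < (⌊(N : ℝ) * u 0⌋ : ℝ) * S.z (S.turn d) 1 - (⌊(N : ℝ) * u 1⌋ : ℝ) * S.z (S.turn d) 0
    linarith

private theorem q6b_faces_complete (h : Repr g t c S) {u : ℤ × ℤ} {d : Fin n}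
    (hf : S.Faces d ![(u.1 : ℝ), (u.2 : ℝ)]) :
    ∃ ε : ℝ, 0 < ε ∧ ∀ J, Good t ε J → facesJ J c u d = true := by
  obtain ⟨h1, h2⟩ := hf
  have q1 : 0 < aeval t (toPoly (pcr (c.zz d) ([u.1], [u.2]))) := by
    rw [aeval_pcr, q6b_ev h, q6b_int]
    exact h1
  have q2 : 0 < aeval t (toPoly (pcr ([u.1], [u.2]) (c.zz (tn c d)))) := by
    rw [aeval_pcr, q6b_turn h, q6b_ev h, q6b_int]
    exact h2
  obtain ⟨ε1, p1, k1⟩ := posJ_complete q1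
  obtain ⟨ε2, p2, k2⟩ := posJ_complete q2
  refine ⟨min ε1 ε2, lt_min p1 p2, fun J hJ => ?_⟩
  unfold facesJ
  rw [k1 J (hJ.mono (min_le_left _ _)), k2 J (hJ.mono (min_le_right _ _))]
  rfl

/-- (the direction `u` may be taken rational, hence integral) -/
theorem SingC.complete (h : Repr g t c S) (hs : S.Singular) :
    ∃ ε : ℝ, 0 < ε ∧ ∀ J, Good t ε J → SingC J c := by
  obtain ⟨u, hu⟩ := hs
  choose i j hij hi hj using hu
  have h1 : ∀ᶠ N : ℕ in Filter.atTop, ∀ d : Fin n,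
      S.Faces (S.turn^[i d] d) ![((⌊(N : ℝ) * u 0⌋ : ℤ) : ℝ), ((⌊(N : ℝ) * u 1⌋ : ℤ) : ℝ)] ∧
      S.Faces (S.turn^[j d] d) ![((⌊(N : ℝ) * u 0⌋ : ℤ) : ℝ), ((⌊(N : ℝ) * u 1⌋ : ℤ) : ℝ)] :=
    Filter.eventually_all.2 fun d => (q6b_faces_ev (hi d)).and (q6b_faces_ev (hj d))
  obtain ⟨N, hN⟩ := h1.exists
  have h2 : ∀ d : Fin n, ∃ ε : ℝ, 0 < ε ∧ ∀ J, Good t ε J →
      facesJ J c (⌊(N : ℝ) * u 0⌋, ⌊(N : ℝ) * u 1⌋) (S.turn^[i d] d : Fin n) = true ∧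
      facesJ J c (⌊(N : ℝ) * u 0⌋, ⌊(N : ℝ) * u 1⌋) (S.turn^[j d] d : Fin n) = true := by
    intro d
    obtain ⟨ε1, p1, k1⟩ := q6b_faces_complete (u := (⌊(N : ℝ) * u 0⌋, ⌊(N : ℝ) * u 1⌋)) h (hN d).1
    obtain ⟨ε2, p2, k2⟩ := q6b_faces_complete (u := (⌊(N : ℝ) * u 0⌋, ⌊(N : ℝ) * u 1⌋)) h (hN d).2
    exact ⟨min ε1 ε2, lt_min p1 p2, fun J hJ =>
      ⟨k1 J (hJ.mono (min_le_left _ _)), k2 J (hJ.mono (min_le_right _ _))⟩⟩
  choose ε hε hk using h2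
  have h3 : ∀ᶠ δ : ℝ in nhdsWithin 0 (Set.Ioi 0), ∀ d : Fin n, δ < ε d :=
    Filter.eventually_all.2 fun d => nhdsWithin_le_nhds (Iio_mem_nhds (hε d))
  obtain ⟨δ, hδ, hδ0⟩ := (h3.and self_mem_nhdsWithin).exists
  refine ⟨δ, hδ0, fun J hJ => ⟨(⌊(N : ℝ) * u 0⌋, ⌊(N : ℝ) * u 1⌋), fun d hd => ?_⟩⟩
  rw [h.n_eq] at hd
  refine ⟨(i ⟨d, hd⟩, j ⟨d, hd⟩), ?_⟩
  have k := hk ⟨d, hd⟩ J (hJ.mono (hδ ⟨d, hd⟩).le)
  have e1 := q6b_turnI h (i ⟨d, hd⟩) ⟨d, hd⟩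
  have e2 := q6b_turnI h (j ⟨d, hd⟩) ⟨d, hd⟩
  dsimp only at e1 e2 ⊢
  rw [e1, e2]
  exact ⟨fun e => hij ⟨d, hd⟩ (Fin.ext e), k.1, k.2⟩

end Pool.Veech
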