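import Pool.Agent.Lib.MP_fceebd_gt.Q4a

/-! # Row Q6: connectedness, singularities, orientation -/

set_option autoImplicit false

open Polynomial

namespace Pool.Veech

open RE

variable {g n : ℕ} {t : ℝ} {S S' : Surf (SurfGroup g) (Fin n)} {c : Code} {J : Jt}

/-- the exponent sum of the generator number `k` -/
def expo (k : ℕ) (w : Wd) : ℤ :=
  zsum (w.map fun l => cond (decide (l.1 = k)) (cond l.2 1 (-1)) 0)

/-- the intersection form on the generators: `a i = 2 i`, `b i = 2 i + 1` -/
def jform (k l : ℕ) : ℤ :=
  cond (decide (k % 2 = 0) && decide (l = k + 1)) 1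
    (cond (decide (l % 2 = 0) && decide (k = l + 1)) (-1) 0)

def orientC (g : ℕ) (c : Code) : Bool :=
  (List.range (2 * g)).all fun k => (List.range (2 * g)).all fun l =>
    decide (zsum ((List.range c.n).map fun d =>
      expo k (c.lb d) * expo l (c.lb (c.nx d)) - expo k (c.lb (c.nx d)) * expo l (c.lb d)) =
      12 * jform k l)

private theorem Q6c_expo {α : Type*} [Primcodable α] {k : α → ℕ} {w : α → Wd} (hk : Primrec k)
    (hw : Primrec w) : Primrec fun a => expo (k a) (w a) := by
  unfold expo
  fun_prop

private theorem Q6c_jform {α : Type*} [Primcodable α] {k l : α → ℕ} (hk : Primrec k)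
    (hl : Primrec l) : Primrec fun a => jform (k a) (l a) := by
  unfold jform
  fun_prop

attribute [local fun_prop] Q6c_expo Q6c_jform

theorem S1_orientC {α : Type*} [Primcodable α] {n : α → ℕ} {c : α → Code} (hn : Primrec n)
    (hc : Primrec c) : S1 fun a => orientC (n a) (c a) = true := by
  refine S1.of_bool (f := fun a => orientC (n a) (c a)) ?_ (fun a => Iff.rfl)
  unfold orientC
  fun_prop

private theorem Q6c_zsum (m : ℕ) (F : ℕ → ℤ) :
    zsum ((List.range m).map F) = ∑ d : Fin m, F d := by
  unfold zsum
  rw [Fin.sum_univ_eq_sum_range F m]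
  have : ∀ l : List ℤ, l.foldr (fun a b => a + b) 0 = l.sum := by
    intro l
    rfl
  rw [this]
  induction m with
  | zero => rfl
  | succ m ih => rw [List.range_succ, List.map_append, List.sum_append, ih, Finset.sum_range_succ]; simp

/-- the values of a homomorphism on the generators -/
private def Q6c_U (u : SurfGroup g →* Multiplicative ℤ) (k : ℕ) : ℤ :=
  (u (letter g (k, true))).toAdd

private theorem Q6c_letter (u : SurfGroup g →* Multiplicative ℤ) (l : ℕ × Bool) :
    (u (letter g l)).toAdd =
      ∑ k ∈ Finset.range (2 * g), Q6c_U u k * cond (decide (l.1 = k)) (cond l.2 1 (-1)) 0 := by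
  by_cases h : l.1 / 2 < g
  · have hk : l.1 < 2 * g := by omega
    rw [Finset.sum_eq_single l.1]
    · obtain ⟨k, s⟩ := l
      cases s with
      | true => simp [Q6c_U]
      | false =>
        have : letter g (k, false) = (letter g (k, true))⁻¹ := by
          unfold letter
          simp only at h
          rw [dif_pos h, dif_pos h]
          simp
        rw [this, map_inv]
        simp [Q6c_U]
    · intro k _ hne
      rw [decide_eq_false (Ne.symm hne)]
      simp
    · intro hk'
      exact absurd (Finset.mem_range.2 hk) hk'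
  · have h1 : letter g l = 1 := by
      unfold letter
      rw [dif_neg h]
    rw [h1, map_one]
    symm
    apply Finset.sum_eq_zero
    intro k hk
    rw [Finset.mem_range] at hk
    rw [decide_eq_false (by omega)]
    simp

private theorem Q6c_word (u : SurfGroup g →* Multiplicative ℤ) (w : Wd) :
    (u (word g w)).toAdd = ∑ k ∈ Finset.range (2 * g), Q6c_U u k * expo k w := by
  induction w with
  | nil =>
    rw [word_nil, map_one]
    simp [expo, zsum]
  | cons l w ih =>
    have h1 : word g (l :: w) = letter g l * word g w := by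
      unfold word
      rw [List.map_cons, List.prod_cons]
    have h2 : ∀ k, expo k (l :: w) = cond (decide (l.1 = k)) (cond l.2 1 (-1)) 0 + expo k w := by
      intro k
      unfold expo zsum
      rw [List.map_cons, List.foldr_cons]
    rw [h1, map_mul, toAdd_mul, ih, Q6c_letter, ← Finset.sum_add_distrib]
    refine Finset.sum_congr rfl fun k _ => ?_
    rw [h2, mul_add]

private theorem Q6c_j (U V : ℕ → ℤ) (m : ℕ) :
    ∑ k ∈ Finset.range (2 * m), ∑ l ∈ Finset.range (2 * m), U k * V l * jform k l =
      ∑ i ∈ Finset.range m, (U (2 * i) * V (2 * i + 1) - U (2 * i + 1) * V (2 * i)) := by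
  have h1 : ∀ k ∈ Finset.range (2 * m), ∑ l ∈ Finset.range (2 * m), U k * V l * jform k l =
      if k % 2 = 0 then U k * V (k + 1) else -(U k * V (k - 1)) := by
    intro k hk
    rw [Finset.mem_range] at hk
    by_cases h : k % 2 = 0
    · rw [if_pos h, Finset.sum_eq_single (k + 1)]
      · unfold jform
        rw [decide_eq_true h, decide_eq_true rfl]
        simp
      · intro l _ hl
        unfold jform
        have e1 : (decide (k % 2 = 0) && decide (l = k + 1)) = false := by
          rw [decide_eq_false hl, Bool.and_false]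
        have e2 : (decide (l % 2 = 0) && decide (k = l + 1)) = false := by
          by_cases hl2 : l % 2 = 0
          · rw [decide_eq_false (by omega : ¬ k = l + 1), Bool.and_false]
          · rw [decide_eq_false hl2, Bool.false_and]
        rw [e1, e2]
        simp
      · intro hk'
        exact absurd (Finset.mem_range.2 (by omega)) hk'
    · rw [if_neg h, Finset.sum_eq_single (k - 1)]
      · unfold jform
        have e1 : (decide (k % 2 = 0) && decide (k - 1 = k + 1)) = false := by
          rw [decide_eq_false h, Bool.false_and]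
        have e2 : (decide ((k - 1) % 2 = 0) && decide (k = k - 1 + 1)) = true := by
          rw [decide_eq_true (by omega : (k - 1) % 2 = 0),
            decide_eq_true (by omega : k = k - 1 + 1)]
          rfl
        rw [e1, e2]
        simp
      · intro l _ hl
        unfold jform
        have e1 : (decide (k % 2 = 0) && decide (l = k + 1)) = false := by
          rw [decide_eq_false h, Bool.false_and]
        have e2 : (decide (l % 2 = 0) && decide (k = l + 1)) = false := by
          rw [decide_eq_false (by omega : ¬ k = l + 1), Bool.and_false]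
        rw [e1, e2]
        simp
      · intro hk'
        exact absurd (Finset.mem_range.2 (by omega)) hk'
  rw [Finset.sum_congr rfl h1]
  clear h1
  induction m with
  | zero => simp
  | succ m ih =>
    have e : 2 * (m + 1) = 2 * m + 1 + 1 := by ring
    rw [e, Finset.sum_range_succ, Finset.sum_range_succ, ih, Finset.sum_range_succ]
    rw [if_pos (by omega), if_neg (by omega)]
    have e2 : 2 * m + 1 - 1 = 2 * m := by omega
    rw [e2]
    ring

private theorem Q6c_rhs (u v : SurfGroup g →* Multiplicative ℤ) :
    ∑ i : Fin g, ((u (gen i false)).toAdd * (v (gen i true)).toAdd -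
      (u (gen i true)).toAdd * (v (gen i false)).toAdd) =
    ∑ k ∈ Finset.range (2 * g), ∑ l ∈ Finset.range (2 * g),
      Q6c_U u k * Q6c_U v l * jform k l := by
  rw [Q6c_j, ← Fin.sum_univ_eq_sum_range (fun i => Q6c_U u (2 * i) * Q6c_U v (2 * i + 1) -
    Q6c_U u (2 * i + 1) * Q6c_U v (2 * i)) g]
  have hg : ∀ i : Fin g, letter g (2 * (i : ℕ), true) = gen i false ∧
      letter g (2 * (i : ℕ) + 1, true) = gen i true := by
    intro i
    have hi := i.2
    unfold letter
    have a1 : 2 * (i : ℕ) / 2 < g := by omega
    have a2 : (2 * (i : ℕ) + 1) / 2 < g := by omega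
    simp only
    rw [dif_pos a1, dif_pos a2, if_pos trivial, if_pos trivial]
    constructor
    · congr 1
      · exact Fin.ext (by simp)
      · simp
    · congr 1
      · exact Fin.ext (by simp; omega)
      · rw [decide_eq_true (by omega)]
  refine Finset.sum_congr rfl fun i _ => ?_
  unfold Q6c_U
  rw [(hg i).1, (hg i).2]

private theorem Q6c_hom (g k0 : ℕ) : ∃ u : SurfGroup g →* Multiplicative ℤ,
    ∀ k < 2 * g, Q6c_U u k = if k = k0 then 1 else 0 := by
  let f : Fin g × Bool → Multiplicative ℤ := fun p =>
    Multiplicative.ofAdd (if 2 * (p.1 : ℕ) + cond p.2 1 0 = k0 then (1 : ℤ) else 0)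
  have hrel : ∀ r ∈ ({relator g} : Set (FreeGroup (Fin g × Bool))), FreeGroup.lift f r = 1 := by
    intro r hr
    rw [Set.mem_singleton_iff] at hr
    rw [hr]
    unfold relator
    rw [map_list_prod, List.map_ofFn]
    apply List.prod_eq_one
    intro x hx
    rw [List.mem_ofFn] at hx
    obtain ⟨i, rfl⟩ := hx
    simp only [Function.comp_apply, map_mul, map_inv, FreeGroup.lift_apply_of]
    rw [mul_comm (f (i, false)) (f (i, true)), mul_assoc (f (i, true)), mul_inv_cancel, mul_one,
      mul_inv_cancel]
  refine ⟨PresentedGroup.toGroup hrel, fun k hk => ?_⟩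
  unfold Q6c_U letter
  have h1 : k / 2 < g := by omega
  simp only
  rw [dif_pos h1, if_pos trivial]
  unfold gen
  rw [PresentedGroup.toGroup.of]
  have h2 : 2 * (k / 2) + cond (decide (k % 2 = 1)) 1 0 = k := by
    by_cases h : k % 2 = 1
    · rw [decide_eq_true h, cond_true]
      omega
    · rw [decide_eq_false h, cond_false]
      omega
  show (if 2 * (k / 2) + cond (decide (k % 2 = 1)) 1 0 = k0 then (1 : ℤ) else 0) = _
  rw [h2]

/-- (a homomorphism `SurfGroup g → ℤ` is given by arbitrary values on the generators, and its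
value on `word g w` is the sum of `expo k w` times the values) -/
theorem orientC_iff (h : Repr g t c S) : orientC g c = true ↔ IsOriented S := by
  obtain ⟨M, hM⟩ : ∃ M : ℕ → ℕ → ℤ, ∀ k l, M k l = ∑ d : Fin n,
      (expo k (c.lb d) * expo l (c.lb (S.nxt d)) - expo k (c.lb (S.nxt d)) * expo l (c.lb d)) :=
    ⟨_, fun _ _ => rfl⟩
  have h1 : orientC g c = true ↔ ∀ k < 2 * g, ∀ l < 2 * g, M k l = 12 * jform k l := by
    unfold orientC
    simp only [List.all_eq_true, List.mem_range, decide_eq_true_eq]
    refine forall₂_congr fun k _ => forall₂_congr fun l _ => ?_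
    rw [h.n_eq, Q6c_zsum, hM]
    have : ∀ d : Fin n, c.nx d = S.nxt d := h.nx
    simp only [this]
  have h2 : ∀ u v : SurfGroup g →* Multiplicative ℤ,
      ∑ d, ((u (S.lab d)).toAdd * (v (S.lab (S.nxt d))).toAdd -
        (u (S.lab (S.nxt d))).toAdd * (v (S.lab d)).toAdd) =
      ∑ k ∈ Finset.range (2 * g), ∑ l ∈ Finset.range (2 * g), Q6c_U u k * Q6c_U v l * M k l := by
    intro u v
    have e1 : ∀ d : Fin n, (u (S.lab d)).toAdd * (v (S.lab (S.nxt d))).toAdd -
        (u (S.lab (S.nxt d))).toAdd * (v (S.lab d)).toAdd =
        ∑ k ∈ Finset.range (2 * g), ∑ l ∈ Finset.range (2 * g), Q6c_U u k * Q6c_U v l *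
          (expo k (c.lb d) * expo l (c.lb (S.nxt d)) -
            expo k (c.lb (S.nxt d)) * expo l (c.lb d)) := by
      intro d
      rw [h.lb d, h.lb (S.nxt d), Q6c_word, Q6c_word, Q6c_word, Q6c_word, Finset.sum_mul_sum,
        Finset.sum_mul_sum, ← Finset.sum_sub_distrib]
      refine Finset.sum_congr rfl fun k _ => ?_
      rw [← Finset.sum_sub_distrib]
      refine Finset.sum_congr rfl fun l _ => ?_
      ring
    rw [Finset.sum_congr rfl fun d _ => e1 d, Finset.sum_comm]
    refine Finset.sum_congr rfl fun k _ => ?_
    rw [Finset.sum_comm]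
    refine Finset.sum_congr rfl fun l _ => ?_
    rw [hM, Finset.mul_sum]
  rw [h1]
  unfold IsOriented
  constructor
  · intro H u v
    rw [h2, Q6c_rhs, Finset.mul_sum]
    refine Finset.sum_congr rfl fun k hk => ?_
    rw [Finset.mul_sum]
    refine Finset.sum_congr rfl fun l hl => ?_
    rw [H k (Finset.mem_range.1 hk) l (Finset.mem_range.1 hl)]
    ring
  · intro H k0 hk0 l0 hl0
    obtain ⟨u, hu⟩ := Q6c_hom g k0
    obtain ⟨v, hv⟩ := Q6c_hom g l0
    have h3 := H u v
    rw [h2, Q6c_rhs] at h3
    have key : ∀ G : ℕ → ℕ → ℤ, ∑ k ∈ Finset.range (2 * g), ∑ l ∈ Finset.range (2 * g),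
        Q6c_U u k * Q6c_U v l * G k l = G k0 l0 := by
      intro G
      rw [Finset.sum_eq_single k0]
      · rw [Finset.sum_eq_single l0]
        · rw [hu k0 hk0, hv l0 hl0, if_pos rfl, if_pos rfl]
          ring
        · intro l hl hne
          rw [hv l (Finset.mem_range.1 hl), if_neg hne]
          ring
        · intro hl
          exact absurd (Finset.mem_range.2 hl0) hl
      · intro k hk hne
        apply Finset.sum_eq_zero
        intro l _
        rw [hu k (Finset.mem_range.1 hk), if_neg hne]
        ring
      · intro hk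
        exact absurd (Finset.mem_range.2 hk0) hk
    rw [key, key] at h3
    exact h3

end Pool.Veech
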