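import Pool.Agent.Lib.MP_fceebd_gt.Q6a
import Pool.Agent.Lib.MP_fceebd_gt.Q1b

/-! # Row Q7: markings are semi-decidable -/

set_option autoImplicit false

open Polynomial

namespace Pool.Veech

open RE

variable {g n : ℕ} {t : ℝ} {S S' : Surf (SurfGroup g) (Fin n)} {c : Code} {J : Jt}


/-! ### Paths and homotopies -/

section S

variable {G : Type} [Group G] {D : Type} {S : Surf G D}

private theorem Q7_so1 (S : Surf G D) (d : D) : S.SameOrigin (S.nxt d) (S.opp d) := by
  refine .rel _ _ (Or.inl ?_)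
  change S.opp d = S.opp (S.nxt (S.nxt (S.nxt d)))
  rw [S.nxt3]

private theorem Q7_so2 (S : Surf G D) (d : D) : S.SameOrigin (S.nxt (S.opp d)) d := by
  have h := Q7_so1 S (S.opp d)
  rwa [S.opp2] at h

private theorem Q7_left {a a' b : D} {p : List D} (h : S.SameOrigin a a') (hp : S.IsPath a' p b) :
    S.IsPath a p b := by
  cases hp with
  | nil h' => exact .nil (Relation.EqvGen.trans _ _ _ h h')
  | cons h' hp => exact .cons (Relation.EqvGen.trans _ _ _ h h') hp

private theorem Q7_right {a b b' : D} {p : List D} (hp : S.IsPath a p b)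
    (h : S.SameOrigin b b') : S.IsPath a p b' := by
  induction hp with
  | nil h' => exact .nil (Relation.EqvGen.trans _ _ _ h' h)
  | cons h' _ ih => exact .cons h' (ih h)

private theorem Q7_app {a b c : D} {p q : List D} (hp : S.IsPath a p b) (hq : S.IsPath b q c) :
    S.IsPath a (p ++ q) c := by
  induction hp with
  | nil h => exact Q7_left h hq
  | cons h _ ih => exact .cons h (ih hq)

private theorem Q7_nil (a : D) : S.IsPath a [] a := .nil (.refl a)

private theorem Q7_one (d : D) : S.IsPath d [d] (S.nxt d) := .cons (.refl d) (Q7_nil _)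

private def Q7_rev (S : Surf G D) (p : List D) : List D := (p.map S.opp).reverse

private theorem Q7_rev_cons (d : D) (p : List D) : Q7_rev S (d :: p) = Q7_rev S p ++ [S.opp d] := by
  rw [Q7_rev, List.map_cons, List.reverse_cons, Q7_rev]

private theorem Q7_rev_rev (p : List D) : Q7_rev S (Q7_rev S p) = p := by
  rw [Q7_rev, Q7_rev, List.map_reverse, List.reverse_reverse, List.map_map]
  conv_rhs => rw [← List.map_id p]
  refine List.map_congr_left fun d _ => ?_
  exact S.opp2 d

private theorem Q7_rev_path {a b : D} {p : List D} (hp : S.IsPath a p b) :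
    S.IsPath b (Q7_rev S p) a := by
  induction hp with
  | nil h => exact .nil (.symm _ _ h)
  | @cons a b d p h hp ih =>
    rw [Q7_rev_cons]
    refine Q7_app ih (Q7_left (Q7_so1 S d) ?_)
    exact Q7_right (Q7_one (S.opp d)) (.trans _ _ _ (Q7_so2 S d) (.symm _ _ h))

private theorem Q7_lab_rev (p : List D) :
    ((Q7_rev S p).map S.lab).prod = ((p.map S.lab).prod)⁻¹ := by
  induction p with
  | nil => simp [Q7_rev]
  | cons d p ih =>
    rw [Q7_rev_cons, List.map_append, List.prod_append, ih]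
    simp [S.lab_opp]

private theorem Q7_move {p q : List D} (x y : List D) (h : S.Move p q) :
    S.Move (x ++ p ++ y) (x ++ q ++ y) := by
  cases h with
  | back p q d => simpa using Surf.Move.back (S := S) (x ++ p) (q ++ y) d
  | tri p q d => simpa using Surf.Move.tri (S := S) (x ++ p) (q ++ y) d
  | tau p q d => simpa using Surf.Move.tau (S := S) (x ++ p) (q ++ y) d

private theorem Q7_ctx {a b c d : D} {p q x y : List D} (h : S.Homotopic b c p q)
    (hx : S.IsPath a x b) (hy : S.IsPath c y d) : S.Homotopic a d (x ++ p ++ y) (x ++ q ++ y) := by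
  induction h with
  | rel p q h =>
    exact .rel _ _ ⟨Q7_app (Q7_app hx h.1) hy, Q7_app (Q7_app hx h.2.1) hy, Q7_move x y h.2.2⟩
  | refl p => exact .refl _
  | symm p q _ ih => exact .symm _ _ ih
  | trans p q r _ _ ih1 ih2 => exact .trans _ _ _ ih1 ih2

private theorem Q7_mul {a : D} {p q p' q' : List D} (hp : S.IsPath a p' a)
    (hq : S.IsPath a q a) (h : S.Homotopic a a p p') (h' : S.Homotopic a a q q') :
    S.Homotopic a a (p ++ q) (p' ++ q') := by
  have h1 : S.Homotopic a a (p ++ q) (p' ++ q) := by simpa using Q7_ctx h (Q7_nil a) hq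
  have h2 : S.Homotopic a a (p' ++ q) (p' ++ q') := by simpa using Q7_ctx h' hp (Q7_nil a)
  exact .trans _ _ _ h1 h2

private theorem Q7_cancel {a b : D} {p : List D} (hp : S.IsPath a p b) :
    S.Homotopic a a (p ++ Q7_rev S p) [] := by
  induction hp with
  | nil h => exact .refl _
  | @cons a b d p h hp ih =>
    have h1 : S.IsPath a [d] (S.nxt d) := Q7_left h (Q7_one d)
    have h2 : S.IsPath (S.nxt d) [S.opp d] a := Q7_left (Q7_so1 S d)
      (Q7_right (Q7_one (S.opp d)) (.trans _ _ _ (Q7_so2 S d) (.symm _ _ h)))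
    have h3 := Q7_ctx ih h1 h2
    rw [Q7_rev_cons]
    have h4 : S.Homotopic a a ((d :: p) ++ (Q7_rev S p ++ [S.opp d])) [d, S.opp d] := by
      simpa using h3
    refine .trans _ _ _ h4 (.symm _ _ (.rel _ _ ⟨Q7_nil a, ?_, ?_⟩))
    · simpa using Q7_app h1 h2
    · simpa using Surf.Move.back (S := S) [] [] d

private theorem Q7_cancel' {a b : D} {p : List D} (hp : S.IsPath a p b) :
    S.Homotopic b b (Q7_rev S p ++ p) [] := by
  have h := Q7_cancel (Q7_rev_path hp)
  rwa [Q7_rev_rev] at h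

/-- the substitution of closed paths for letters -/
private def Q7_th (S : Surf G D) (g : ℕ) (π : ℕ → List D) (w : Wd) : List D :=
  w.flatMap fun l => cond (decide (l.1 < 2 * g)) (cond l.2 (π l.1) (Q7_rev S (π l.1))) []

private theorem Q7_th_append (g : ℕ) (π : ℕ → List D) (u v : Wd) :
    Q7_th S g π (u ++ v) = Q7_th S g π u ++ Q7_th S g π v := by
  rw [Q7_th, List.flatMap_append, Q7_th, Q7_th]

private theorem Q7_th_cons (g : ℕ) (π : ℕ → List D) (l : ℕ × Bool) (v : Wd) :
    Q7_th S g π (l :: v) =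
      cond (decide (l.1 < 2 * g)) (cond l.2 (π l.1) (Q7_rev S (π l.1))) [] ++ Q7_th S g π v := by
  rw [Q7_th, List.flatMap_cons, Q7_th]

private theorem Q7_th_path {g : ℕ} {π : ℕ → List D} {a : D}
    (hπ : ∀ k < 2 * g, S.IsPath a (π k) a) (w : Wd) : S.IsPath a (Q7_th S g π w) a := by
  induction w with
  | nil => exact Q7_nil a
  | cons l w ih =>
    rw [Q7_th_cons]
    refine Q7_app ?_ ih
    by_cases h : l.1 < 2 * g
    · rw [decide_eq_true h, cond_true]
      cases l.2 with
      | true => exact hπ _ h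
      | false => exact Q7_rev_path (hπ _ h)
    · rw [decide_eq_false h, cond_false]
      exact Q7_nil a

/-! ### The action on the homotopy classes of closed paths -/

private def Q7_setoid (S : Surf G D) (a : D) : Setoid {p : List D // S.IsPath a p a} where
  r p q := S.Homotopic a a p.1 q.1
  iseqv := ⟨fun _ => .refl _, fun h => .symm _ _ h, fun h h' => .trans _ _ _ h h'⟩

private def Q7_Q (S : Surf G D) (a : D) : Type := Quotient (Q7_setoid S a)

private def Q7_mk (S : Surf G D) (a : D) (p : List D) (hp : S.IsPath a p a) : Q7_Q S a :=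
  Quotient.mk (Q7_setoid S a) ⟨p, hp⟩

private theorem Q7_mk_eq {a : D} {p q : List D} {hp : S.IsPath a p a} {hq : S.IsPath a q a} :
    Q7_mk S a p hp = Q7_mk S a q hq ↔ S.Homotopic a a p q :=
  ⟨fun h => Quotient.exact (s := Q7_setoid S a) h, fun h => Quotient.sound (s := Q7_setoid S a) h⟩

private def Q7_con (S : Surf G D) (a : D) (x : List D) (hx : S.IsPath a x a) :
    Q7_Q S a → Q7_Q S a :=
  Quotient.map (sa := Q7_setoid S a) (sb := Q7_setoid S a)
    (fun p => ⟨x ++ p.1, Q7_app hx p.2⟩) fun p _ h => Q7_mul hx p.2 (.refl _) h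

private theorem Q7_con_mk {a : D} {x p : List D} (hx : S.IsPath a x a) (hp : S.IsPath a p a) :
    Q7_con S a x hx (Q7_mk S a p hp) = Q7_mk S a (x ++ p) (Q7_app hx hp) := rfl

private def Q7_perm (S : Surf G D) (a : D) (x : List D) (hx : S.IsPath a x a) :
    Equiv.Perm (Q7_Q S a) where
  toFun := Q7_con S a x hx
  invFun := Q7_con S a (Q7_rev S x) (Q7_rev_path hx)
  left_inv q := by
    induction q using Quotient.inductionOn with
    | _ p =>
      obtain ⟨p, hp⟩ := p
      change Q7_con S a _ _ (Q7_con S a _ _ (Q7_mk S a p hp)) = Q7_mk S a p hp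
      rw [Q7_con_mk, Q7_con_mk, Q7_mk_eq]
      have h := Q7_ctx (Q7_cancel' hx) (Q7_nil a) hp
      simpa using h
  right_inv q := by
    induction q using Quotient.inductionOn with
    | _ p =>
      obtain ⟨p, hp⟩ := p
      change Q7_con S a _ _ (Q7_con S a _ _ (Q7_mk S a p hp)) = Q7_mk S a p hp
      rw [Q7_con_mk, Q7_con_mk, Q7_mk_eq]
      have h := Q7_ctx (Q7_cancel hx) (Q7_nil a) hp
      simpa using h

private theorem Q7_conn {a b : D} (h : S.Connected) : ∃ p, S.IsPath a p b := by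
  have h1 : ∀ x y, Relation.EqvGen (fun a b => b = S.nxt a ∨ b = S.opp a ∨ b = S.tau a) x y →
      ∃ p, S.IsPath x p y := by
    intro x y hxy
    induction hxy with
    | rel x y h =>
      rcases h with rfl | rfl | rfl
      · exact ⟨[x], Q7_one x⟩
      · exact ⟨[x], Q7_right (Q7_one x) (Q7_so1 S x)⟩
      · exact ⟨[], .nil (.rel _ _ (Or.inr rfl))⟩
    | refl x => exact ⟨[], Q7_nil x⟩
    | symm x y _ ih =>
      obtain ⟨p, hp⟩ := ih
      exact ⟨_, Q7_rev_path hp⟩
    | trans x y z _ _ ih1 ih2 =>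
      obtain ⟨p, hp⟩ := ih1
      obtain ⟨q, hq⟩ := ih2
      exact ⟨_, Q7_app hp hq⟩
  exact h1 a b (h a b)

/-- paths to all darts, which depend only on the origin -/
private theorem Q7_exists_tau (h : S.Connected) (a : D) : ∃ τ : D → List D,
    (∀ d, S.IsPath a (τ d) d) ∧ ∀ d d', S.SameOrigin d d' → τ d = τ d' := by
  classical
  let s : Setoid D := ⟨S.SameOrigin, ⟨fun _ => .refl _, fun h => .symm _ _ h,
    fun h h' => .trans _ _ _ h h'⟩⟩
  have hp : ∀ d : D, ∃ p, S.IsPath a p d := fun d => Q7_conn h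
  choose f hf using hp
  refine ⟨fun d => f (Quotient.mk s d).out, fun d => ?_, fun d d' hd => ?_⟩
  · exact Q7_right (hf _) (Quotient.exact (s := s) (Quotient.out_eq (Quotient.mk s d)))
  · have h1 : Quotient.mk s d = Quotient.mk s d' := Quotient.sound (s := s) hd
    change f (Quotient.mk s d).out = f (Quotient.mk s d').out
    rw [h1]

/-- homotopic by the marking -/
private theorem Q7_of_marking {a : D} {p q : List D} (h : S.IsMarking) (hp : S.IsPath a p a)
    (hq : S.IsPath a q a) (hl : (p.map S.lab).prod = (q.map S.lab).prod) :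
    S.Homotopic a a p q := by
  have h1 : S.Homotopic a a (p ++ Q7_rev S q) [] := by
    refine (h a).2 _ (Q7_app hp (Q7_rev_path hq)) ?_
    rw [List.map_append, List.prod_append, Q7_lab_rev, hl, mul_inv_cancel]
  have h2 := Q7_ctx h1 (Q7_nil a) hq
  have h3 := Q7_ctx (Q7_cancel' hq) hp (Q7_nil a)
  have h4 : S.Homotopic a a (p ++ (Q7_rev S q ++ q)) q := by simpa using h2
  have h5 : S.Homotopic a a (p ++ (Q7_rev S q ++ q)) p := by simpa using h3
  exact .trans _ _ _ (.symm _ _ h5) h4

end S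

/-! ### Words in the free group -/

private def Q7_fl (g : ℕ) (l : ℕ × Bool) : FreeGroup (Fin g × Bool) :=
  if h : l.1 / 2 < g then
    if l.2 then FreeGroup.of (⟨l.1 / 2, h⟩, decide (l.1 % 2 = 1))
    else (FreeGroup.of (⟨l.1 / 2, h⟩, decide (l.1 % 2 = 1)))⁻¹
  else 1

private def Q7_fw (g : ℕ) (w : Wd) : FreeGroup (Fin g × Bool) := (w.map (Q7_fl g)).prod

private theorem Q7_mk_fl (g : ℕ) (l : ℕ × Bool) :
    PresentedGroup.mk ({relator g} : Set (FreeGroup (Fin g × Bool))) (Q7_fl g l) = letter g l := by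
  rw [Q7_fl, letter]
  split_ifs
  · rfl
  · rfl
  · rfl

private theorem Q7_mk_fw (g : ℕ) (w : Wd) :
    PresentedGroup.mk ({relator g} : Set (FreeGroup (Fin g × Bool))) (Q7_fw g w) = word g w := by
  rw [Q7_fw, word, map_list_prod, List.map_map]
  congr 1
  refine List.map_congr_left fun l _ => ?_
  exact Q7_mk_fl g l

private def Q7_rel (g : ℕ) : Wd := (List.range g).flatMap fun i =>
  [(2 * i, true), (2 * i + 1, true), (2 * i, false), (2 * i + 1, false)]

private theorem Q7_fw_rel (g : ℕ) : Q7_fw g (Q7_rel g) = relator g := by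
  have h1 : ∀ l : List ℕ, ((l.flatMap fun i =>
      [((2 * i, true) : ℕ × Bool), (2 * i + 1, true), (2 * i, false), (2 * i + 1, false)]).map
        (Q7_fl g)).prod = (l.map fun i => Q7_fl g (2 * i, true) * Q7_fl g (2 * i + 1, true) *
          Q7_fl g (2 * i, false) * Q7_fl g (2 * i + 1, false)).prod := by
    intro l
    induction l with
    | nil => rfl
    | cons i l ih =>
      rw [List.flatMap_cons, List.map_append, List.prod_append, ih, List.map_cons, List.prod_cons]
      simp only [List.map_cons, List.map_nil, List.prod_cons, List.prod_nil, mul_one, mul_assoc]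
  rw [Q7_fw, Q7_rel, h1, relator, List.ofFn_eq_map, ← List.map_coe_finRange_eq_range, List.map_map]
  congr 1
  refine List.map_congr_left fun i _ => ?_
  have e1 : 2 * (i : ℕ) / 2 = i := by omega
  have e2 : (2 * (i : ℕ) + 1) / 2 = i := by omega
  have e3 : 2 * (i : ℕ) % 2 = 0 := by omega
  have e4 : (2 * (i : ℕ) + 1) % 2 = 1 := by omega
  simp [Q7_fl, e1, e2, e4]

section T

variable {D : Type} {g : ℕ} {S : Surf (SurfGroup g) D}

private theorem Q7_kill {π : ℕ → List D} {a : D} (hπ : ∀ k < 2 * g, S.IsPath a (π k) a)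
    (hr : S.Homotopic a a (Q7_th S g π (Q7_rel g)) []) {w : Wd} (hw : word g w = 1) :
    S.Homotopic a a (Q7_th S g π w) [] := by
  have hk : ∀ x : Fin g × Bool, 2 * (x.1 : ℕ) + (cond x.2 1 0) < 2 * g := by
    rintro ⟨⟨i, hi⟩, b⟩
    cases b
    · simp only [cond_false]
      omega
    · simp only [cond_true]
      omega
  let F : FreeGroup (Fin g × Bool) →* Equiv.Perm (Q7_Q S a) :=
    FreeGroup.lift fun x => Q7_perm S a (π (2 * (x.1 : ℕ) + (cond x.2 1 0))) (hπ _ (hk x))
  have hF : ∀ (w : Wd) (p : List D) (hp : S.IsPath a p a), F (Q7_fw g w) (Q7_mk S a p hp) =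
      Q7_mk S a (Q7_th S g π w ++ p) (Q7_app (Q7_th_path hπ w) hp) := by
    intro w
    induction w with
    | nil =>
      intro p hp
      have h1 : Q7_fw g [] = 1 := rfl
      rw [h1, map_one]
      rfl
    | cons l w ih =>
      intro p hp
      have h1 : Q7_fw g (l :: w) = Q7_fl g l * Q7_fw g w := by
        rw [Q7_fw, List.map_cons, List.prod_cons, Q7_fw]
      rw [h1, map_mul, Equiv.Perm.mul_apply, ih]
      have h2 : ∀ (q : List D) (hq : S.IsPath a q a), F (Q7_fl g l) (Q7_mk S a q hq) =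
          Q7_mk S a (Q7_th S g π [l] ++ q) (Q7_app (Q7_th_path hπ [l]) hq) := by
        intro q hq
        by_cases h : l.1 / 2 < g
        · have h3 : l.1 < 2 * g := by omega
          have h4 : 2 * (l.1 / 2) + (cond (decide (l.1 % 2 = 1)) 1 0) = l.1 := by
            by_cases h5 : l.1 % 2 = 1
            · rw [decide_eq_true h5, cond_true]
              omega
            · rw [decide_eq_false h5, cond_false]
              omega
          have h6 : Q7_th S g π [l] = cond l.2 (π l.1) (Q7_rev S (π l.1)) := by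
            rw [Q7_th_cons, decide_eq_true h3, cond_true]
            exact List.append_nil _
          have h7 : F (FreeGroup.of (⟨l.1 / 2, h⟩, decide (l.1 % 2 = 1))) =
              Q7_perm S a (π l.1) (hπ _ h3) := by
            rw [FreeGroup.lift_apply_of]
            congr 2
          cases hl : l.2 with
          | true =>
            have h8 : Q7_fl g l = FreeGroup.of (⟨l.1 / 2, h⟩, decide (l.1 % 2 = 1)) := by
              rw [Q7_fl, dif_pos h, hl, if_pos rfl]
            rw [h8, h7]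
            refine (Q7_con_mk (hπ _ h3) hq).trans ?_
            congr 1
            rw [h6, hl, cond_true]
          | false =>
            have h8 : Q7_fl g l = (FreeGroup.of (⟨l.1 / 2, h⟩, decide (l.1 % 2 = 1)))⁻¹ := by
              rw [Q7_fl, dif_pos h, hl, if_neg (by decide)]
            rw [h8, map_inv, h7]
            refine (Q7_con_mk (Q7_rev_path (hπ _ h3)) hq).trans ?_
            congr 1
            rw [h6, hl, cond_false]
        · have h3 : ¬ l.1 < 2 * g := by omega
          have h8 : Q7_fl g l = 1 := by rw [Q7_fl, dif_neg h]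
          have h6 : Q7_th S g π [l] = [] := by
            rw [Q7_th_cons, decide_eq_false h3, cond_false]
            rfl
          rw [h8, map_one]
          change Q7_mk S a q hq = _
          congr 1
          rw [h6, List.nil_append]
      rw [h2]
      congr 1
      rw [← List.append_assoc, ← Q7_th_append]
      rfl
  have hR : F (Q7_fw g (Q7_rel g)) = 1 := by
    ext q
    induction q using Quotient.inductionOn with
    | _ p =>
      obtain ⟨p, hp⟩ := p
      change F _ (Q7_mk S a p hp) = Q7_mk S a p hp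
      rw [hF, Q7_mk_eq]
      have h := Q7_ctx hr (Q7_nil a) hp
      simpa using h
  have h1 : F (Q7_fw g w) = 1 := by
    have h2 : Q7_fw g w ∈ Subgroup.normalClosure
        ({relator g} : Set (FreeGroup (Fin g × Bool))) := by
      rw [← QuotientGroup.eq_one_iff]
      exact (Q7_mk_fw g w).trans hw
    have h3 : Subgroup.normalClosure ({relator g} : Set (FreeGroup (Fin g × Bool))) ≤ F.ker := by
      refine Subgroup.normalClosure_le_normal ?_
      intro r hr'
      rw [Set.mem_singleton_iff] at hr'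
      rw [SetLike.mem_coe, MonoidHom.mem_ker, hr', ← hR]
      exact congrArg F (Q7_fw_rel g).symm
    exact MonoidHom.mem_ker.1 (h3 h2)
  have h2 := hF w [] (Q7_nil a)
  rw [h1] at h2
  change Q7_mk S a [] _ = _ at h2
  have h3 := Q7_mk_eq.1 h2
  rw [List.append_nil] at h3
  exact .symm _ _ h3

private theorem Q7_step {π : ℕ → List D} {τ : D → List D} {a : D}
    (hτ : ∀ d, S.IsPath a (τ d) d)
    (hτ' : ∀ d d', S.SameOrigin d d' → τ d = τ d') (hπ : ∀ k < 2 * g, S.IsPath a (π k) a)
    (he : ∀ d, ∃ w, word g w =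
        ((τ d).map S.lab).prod * S.lab d * (((τ (S.nxt d)).map S.lab).prod)⁻¹ ∧
      S.Homotopic a a (τ d ++ [d] ++ Q7_rev S (τ (S.nxt d))) (Q7_th S g π w))
    {x y : D} {p : List D} (hp : S.IsPath x p y) :
    ∃ w, word g w = ((τ x).map S.lab).prod * (p.map S.lab).prod *
        (((τ y).map S.lab).prod)⁻¹ ∧
      S.Homotopic a a (τ x ++ p ++ Q7_rev S (τ y)) (Q7_th S g π w) := by
  induction hp with
  | @nil x y h =>
    refine ⟨[], ?_, ?_⟩
    · rw [hτ' _ _ h, word_nil, List.map_nil, List.prod_nil, mul_one, mul_inv_cancel]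
    · rw [hτ' _ _ h, List.append_nil]
      exact Q7_cancel (hτ y)
  | @cons x y d p h hp ih =>
    obtain ⟨w1, h1, h2⟩ := he d
    obtain ⟨w2, h3, h4⟩ := ih
    refine ⟨w1 ++ w2, ?_, ?_⟩
    · rw [word_append, h1, h3, hτ' _ _ h, List.map_cons, List.prod_cons]
      group
    · rw [hτ' _ _ h, Q7_th_append]
      have p1 : S.IsPath a (τ d ++ [d]) (S.nxt d) := Q7_app (hτ d) (Q7_one d)
      have p2 : S.IsPath (S.nxt d) (p ++ Q7_rev S (τ y)) a := Q7_app hp (Q7_rev_path (hτ y))
      have p3 : S.IsPath a (τ (S.nxt d) ++ p ++ Q7_rev S (τ y)) a :=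
        Q7_app (Q7_app (hτ _) hp) (Q7_rev_path (hτ y))
      have h5 := Q7_mul (Q7_th_path hπ w1) p3 h2 h4
      have h6 := Q7_ctx (Q7_cancel' (hτ (S.nxt d))) p1 p2
      refine .trans _ _ _ (.symm _ _ ?_) h5
      have e1 : τ d ++ [d] ++ (Q7_rev S (τ (S.nxt d)) ++ τ (S.nxt d)) ++
          (p ++ Q7_rev S (τ y)) = τ d ++ [d] ++ Q7_rev S (τ (S.nxt d)) ++
            (τ (S.nxt d) ++ p ++ Q7_rev S (τ y)) := by
        simp only [List.append_assoc]
      have e2 : τ d ++ [d] ++ [] ++ (p ++ Q7_rev S (τ y)) =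
          τ d ++ d :: p ++ Q7_rev S (τ y) := by
        simp
      rw [e1, e2] at h6
      exact h6

private theorem Q7_lab_th {π : ℕ → List D}
    (hl : ∀ k < 2 * g, ((π k).map S.lab).prod = letter g (k, true)) (w : Wd) :
    ((Q7_th S g π w).map S.lab).prod = word g w := by
  induction w with
  | nil => rfl
  | cons l w ih =>
    rw [Q7_th_cons, List.map_append, List.prod_append, ih]
    have h1 : word g (l :: w) = letter g l * word g w := by
      rw [word, List.map_cons, List.prod_cons, word]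
    rw [h1]
    congr 1
    obtain ⟨k, b⟩ := l
    by_cases h : k < 2 * g
    · rw [decide_eq_true h, cond_true]
      cases b with
      | true => exact hl k h
      | false =>
        change ((Q7_rev S (π k)).map S.lab).prod = _
        have h2 : k / 2 < g := by omega
        rw [Q7_lab_rev, hl k h, letter, letter, dif_pos h2, dif_pos h2, if_pos rfl,
          if_neg Bool.false_ne_true]
    · have h2 : ¬ k / 2 < g := by omega
      rw [decide_eq_false h, cond_false, letter, dif_neg h2]
      rfl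

private theorem Q7_sound {π : ℕ → List D} {τ : D → List D} {a : D}
    (hτ : ∀ d, S.IsPath a (τ d) d)
    (hτ' : ∀ d d', S.SameOrigin d d' → τ d = τ d') (hπ : ∀ k < 2 * g, S.IsPath a (π k) a)
    (hl : ∀ k < 2 * g, ((π k).map S.lab).prod = letter g (k, true))
    (hr : S.Homotopic a a (Q7_th S g π (Q7_rel g)) [])
    (he : ∀ d, ∃ w, word g w =
        ((τ d).map S.lab).prod * S.lab d * (((τ (S.nxt d)).map S.lab).prod)⁻¹ ∧
      S.Homotopic a a (τ d ++ [d] ++ Q7_rev S (τ (S.nxt d))) (Q7_th S g π w)) :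
    S.IsMarking := by
  intro x
  constructor
  · intro y
    obtain ⟨w, hw⟩ := word_surj g (((τ x).map S.lab).prod * y * (((τ x).map S.lab).prod)⁻¹)
    refine ⟨Q7_rev S (τ x) ++ Q7_th S g π w ++ τ x,
      Q7_app (Q7_app (Q7_rev_path (hτ x)) (Q7_th_path hπ w)) (hτ x), ?_⟩
    rw [List.map_append, List.prod_append, List.map_append, List.prod_append, Q7_lab_rev,
      Q7_lab_th hl, hw]
    group
  · intro p hp h1
    obtain ⟨w, hw, h2⟩ := Q7_step hτ hτ' hπ he hp
    rw [h1, mul_one, mul_inv_cancel] at hw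
    have h3 := Q7_kill hπ hr hw
    have h4 : S.Homotopic a a (τ x ++ p ++ Q7_rev S (τ x)) [] := .trans _ _ _ h2 h3
    have h5 := Q7_ctx h4 (Q7_rev_path (hτ x)) (hτ x)
    have h8 := Q7_cancel' (hτ x)
    have p1 : S.IsPath x (Q7_rev S (τ x) ++ τ x) x := Q7_app (Q7_rev_path (hτ x)) (hτ x)
    have h6 := Q7_ctx h8 (Q7_nil x) (Q7_app hp p1)
    have h7 := Q7_ctx h8 hp (Q7_nil x)
    have e5 : S.Homotopic x x (Q7_rev S (τ x) ++ τ x ++ (p ++ (Q7_rev S (τ x) ++ τ x)))
        (Q7_rev S (τ x) ++ τ x) := by simpa using h5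
    have e6 : S.Homotopic x x (Q7_rev S (τ x) ++ τ x ++ (p ++ (Q7_rev S (τ x) ++ τ x)))
        (p ++ (Q7_rev S (τ x) ++ τ x)) := by simpa using h6
    have e7 : S.Homotopic x x (p ++ (Q7_rev S (τ x) ++ τ x)) p := by simpa using h7
    exact .trans _ _ _ (.symm _ _ e7) (.trans _ _ _ (.symm _ _ e6) (.trans _ _ _ e5 h8))

end T

/-! ### Codes -/

private def Q7_tn (c : Code) (d : ℕ) : ℕ := c.op (c.nx (c.nx d))

private def Q7_adj (c : Code) (x y : ℕ) : Bool :=
  decide (x < c.n) && decide (y < c.n) && (decide (y = Q7_tn c x) || decide (y = c.ta x) ||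
    decide (x = Q7_tn c y) || decide (x = c.ta y))

private def Q7_so (c : Code) (x y : ℕ) : Prop :=
  Relation.ReflTransGen (fun x y => Q7_adj c x y = true) x y

private def Q7_path (c : Code) (a : ℕ) (p : List ℕ) (b : ℕ) : Prop :=
  ∀ i < p.length + 1, Q7_so c ((a :: p.map c.nx).getD i 0) ((p ++ [b]).getD i 0)

private def Q7_ok (c : Code) (p : List ℕ) : Bool := p.all fun x => decide (x < c.n)

private def Q7_mvB (c : Code) (p q : List ℕ) (x : (List ℕ × List ℕ) × ℕ) : Bool :=
  decide (x.2 < c.n) && ((decide (p = x.1.1 ++ x.1.2) &&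
    (decide (q = x.1.1 ++ [x.2, c.op x.2] ++ x.1.2) ||
      decide (q = x.1.1 ++ [x.2, c.nx x.2, c.nx (c.nx x.2)] ++ x.1.2))) ||
    (decide (p = x.1.1 ++ [x.2] ++ x.1.2) && decide (q = x.1.1 ++ [c.ta x.2] ++ x.1.2)))

private def Q7_mv (c : Code) (p q : List ℕ) : Prop :=
  ∃ x : (List ℕ × List ℕ) × ℕ, Q7_mvB c p q x = true

private def Q7_hstep (c : Code) (a b : ℕ) (p q : List ℕ) : Prop :=
  (Q7_ok c p = true ∧ Q7_ok c q = true) ∧ (Q7_path c a p b ∧ Q7_path c a q b) ∧
    (Q7_mv c p q ∨ Q7_mv c q p)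

private def Q7_hom (c : Code) (a b : ℕ) (p q : List ℕ) : Prop :=
  Relation.ReflTransGen (Q7_hstep c a b) p q

private def Q7_lw (c : Code) (p : List ℕ) : Wd := p.flatMap c.lb

private def Q7_rv (c : Code) (p : List ℕ) : List ℕ := (p.map c.op).reverse

private def Q7_thc (g : ℕ) (c : Code) (π : List (List ℕ)) (w : Wd) : List ℕ :=
  w.flatMap fun l => cond (decide (l.1 < 2 * g))
    (cond l.2 (π.getD l.1 []) (Q7_rv c (π.getD l.1 []))) []

section P

variable {α : Type} [Primcodable α]

@[fun_prop] private theorem Q7_pr_tn {c : α → Code} {d : α → ℕ} (hc : Primrec c)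
    (hd : Primrec d) : Primrec fun a => Q7_tn (c a) (d a) := by
  unfold Q7_tn
  fun_prop

@[fun_prop] private theorem Q7_pr_adj {c : α → Code} {x y : α → ℕ} (hc : Primrec c)
    (hx : Primrec x) (hy : Primrec y) : Primrec fun a => Q7_adj (c a) (x a) (y a) := by
  unfold Q7_adj
  fun_prop

private theorem Q7_S1_so {c : α → Code} {x y : α → ℕ} (hc : Primrec c)
    (hx : Primrec x) (hy : Primrec y) : S1 fun a => Q7_so (c a) (x a) (y a) := by
  have h1 : S1 fun x : Code × ℕ × ℕ => Q7_adj x.1 x.2.1 x.2.2 = true :=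
    S1.of_bool (f := fun x : Code × ℕ × ℕ => Q7_adj x.1 x.2.1 x.2.2) (by fun_prop) fun _ => Iff.rfl
  have h2 := S1.rtc (r := fun (c : Code) x y => Q7_adj c x y = true) h1
  exact S1.comp (g := fun a => (c a, x a, y a)) h2 (by fun_prop)

private theorem Q7_S1_path {c : α → Code} {x y : α → ℕ} {p : α → List ℕ} (hc : Primrec c)
    (hx : Primrec x) (hp : Primrec p) (hy : Primrec y) :
    S1 fun a => Q7_path (c a) (x a) (p a) (y a) := by
  unfold Q7_path
  exact S1.bforall (p := fun a i => Q7_so (c a) ((x a :: (p a).map (c a).nx).getD i 0)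
    ((p a ++ [y a]).getD i 0)) (Q7_S1_so (by fun_prop) (by fun_prop) (by fun_prop)) (by fun_prop)

@[fun_prop] private theorem Q7_pr_ok {c : α → Code} {p : α → List ℕ} (hc : Primrec c)
    (hp : Primrec p) : Primrec fun a => Q7_ok (c a) (p a) := by
  unfold Q7_ok
  fun_prop

@[fun_prop] private theorem Q7_pr_mvB {c : α → Code} {p q : α → List ℕ}
    {x : α → (List ℕ × List ℕ) × ℕ} (hc : Primrec c) (hp : Primrec p) (hq : Primrec q)
    (hx : Primrec x) : Primrec fun a => Q7_mvB (c a) (p a) (q a) (x a) := by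
  unfold Q7_mvB
  fun_prop

private theorem Q7_S1_mv {c : α → Code} {p q : α → List ℕ} (hc : Primrec c)
    (hp : Primrec p) (hq : Primrec q) : S1 fun a => Q7_mv (c a) (p a) (q a) := by
  unfold Q7_mv
  exact S1.exists (p := fun a x => Q7_mvB (c a) (p a) (q a) x = true)
    (S1.of_bool (f := fun x : α × (List ℕ × List ℕ) × ℕ => Q7_mvB (c x.1) (p x.1) (q x.1) x.2)
      (by fun_prop) fun _ => Iff.rfl)

private theorem Q7_S1_hom {c : α → Code} {a b : α → ℕ} {p q : α → List ℕ} (hc : Primrec c)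
    (ha : Primrec a) (hb : Primrec b) (hp : Primrec p) (hq : Primrec q) :
    S1 fun x => Q7_hom (c x) (a x) (b x) (p x) (q x) := by
  have h1 : S1 fun x : (Code × ℕ × ℕ) × List ℕ × List ℕ =>
      Q7_hstep x.1.1 x.1.2.1 x.1.2.2 x.2.1 x.2.2 := by
    unfold Q7_hstep
    refine S1.and (S1.and (S1.of_bool (f := fun x : (Code × ℕ × ℕ) × List ℕ × List ℕ =>
      Q7_ok x.1.1 x.2.1) (by fun_prop) fun _ => Iff.rfl)
      (S1.of_bool (f := fun x : (Code × ℕ × ℕ) × List ℕ × List ℕ =>
      Q7_ok x.1.1 x.2.2) (by fun_prop) fun _ => Iff.rfl)) ?_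
    exact S1.and (S1.and (Q7_S1_path (by fun_prop) (by fun_prop) (by fun_prop) (by fun_prop))
      (Q7_S1_path (by fun_prop) (by fun_prop) (by fun_prop) (by fun_prop)))
      (S1.or (Q7_S1_mv (by fun_prop) (by fun_prop) (by fun_prop))
      (Q7_S1_mv (by fun_prop) (by fun_prop) (by fun_prop)))
  have h2 := S1.rtc (r := fun (c : Code × ℕ × ℕ) p q => Q7_hstep c.1 c.2.1 c.2.2 p q) h1
  exact S1.comp (g := fun x => ((c x, a x, b x), p x, q x)) h2 (by fun_prop)

@[fun_prop] private theorem Q7_pr_lw {c : α → Code} {p : α → List ℕ} (hc : Primrec c)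
    (hp : Primrec p) : Primrec fun a => Q7_lw (c a) (p a) := by
  unfold Q7_lw
  fun_prop

@[fun_prop] private theorem Q7_pr_rv {c : α → Code} {p : α → List ℕ} (hc : Primrec c)
    (hp : Primrec p) : Primrec fun a => Q7_rv (c a) (p a) := by
  unfold Q7_rv
  fun_prop

@[fun_prop] private theorem Q7_pr_thc {n : α → ℕ} {c : α → Code} {π : α → List (List ℕ)}
    {w : α → Wd} (hn : Primrec n) (hc : Primrec c) (hπ : Primrec π) (hw : Primrec w) :
    Primrec fun a => Q7_thc (n a) (c a) (π a) (w a) := by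
  unfold Q7_thc
  fun_prop

@[fun_prop] private theorem Q7_pr_rel {n : α → ℕ} (hn : Primrec n) :
    Primrec fun a => Q7_rel (n a) := by
  unfold Q7_rel
  fun_prop

end P

private def Q7_C (g : ℕ) (c : Code) : Prop :=
  ∃ x : List (List ℕ) × List (List ℕ),
    (∀ k < 2 * g, Q7_ok c (x.1.getD k []) = true ∧ Q7_path c 0 (x.1.getD k []) 0 ∧
      WEq g (Q7_lw c (x.1.getD k [])) [(k, true)]) ∧
    (∀ d < c.n, Q7_ok c (x.2.getD d []) = true ∧ Q7_path c 0 (x.2.getD d []) d ∧
      (decide (x.2.getD (Q7_tn c d) [] = x.2.getD d []) &&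
        decide (x.2.getD (c.ta d) [] = x.2.getD d [])) = true) ∧
    Q7_hom c 0 0 (Q7_thc g c x.1 (Q7_rel g)) [] ∧
    ∀ d < c.n, Q7_hom c 0 0 (x.2.getD d [] ++ [d] ++ Q7_rv c (x.2.getD (c.nx d) []))
      (Q7_thc g c x.1 (Q7_lw c (x.2.getD d []) ++ c.lb d ++
        winv (Q7_lw c (x.2.getD (c.nx d) []))))

private theorem Q7_S1 {α : Type} [Primcodable α] {n : α → ℕ} {c : α → Code} (hn : Primrec n)
    (hc : Primrec c) : S1 fun a => Q7_C (n a) (c a) := by
  unfold Q7_C
  refine S1.exists (p := fun a (x : List (List ℕ) × List (List ℕ)) =>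
    (∀ k < 2 * n a, Q7_ok (c a) (x.1.getD k []) = true ∧ Q7_path (c a) 0 (x.1.getD k []) 0 ∧
      WEq (n a) (Q7_lw (c a) (x.1.getD k [])) [(k, true)]) ∧
    (∀ d < (c a).n, Q7_ok (c a) (x.2.getD d []) = true ∧ Q7_path (c a) 0 (x.2.getD d []) d ∧
      (decide (x.2.getD (Q7_tn (c a) d) [] = x.2.getD d []) &&
        decide (x.2.getD ((c a).ta d) [] = x.2.getD d [])) = true) ∧
    Q7_hom (c a) 0 0 (Q7_thc (n a) (c a) x.1 (Q7_rel (n a))) [] ∧
    ∀ d < (c a).n, Q7_hom (c a) 0 0 (x.2.getD d [] ++ [d] ++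
      Q7_rv (c a) (x.2.getD ((c a).nx d) []))
      (Q7_thc (n a) (c a) x.1 (Q7_lw (c a) (x.2.getD d []) ++ (c a).lb d ++
        winv (Q7_lw (c a) (x.2.getD ((c a).nx d) []))))) ?_
  refine S1.and ?_ (S1.and ?_ (S1.and ?_ ?_))
  · refine S1.bforall (p := fun (y : α × List (List ℕ) × List (List ℕ)) k =>
      Q7_ok (c y.1) (y.2.1.getD k []) = true ∧ Q7_path (c y.1) 0 (y.2.1.getD k []) 0 ∧
      WEq (n y.1) (Q7_lw (c y.1) (y.2.1.getD k [])) [(k, true)]) ?_ (by fun_prop)
    refine S1.and (S1.of_bool (f := fun y : (α × List (List ℕ) × List (List ℕ)) × ℕ =>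
      Q7_ok (c y.1.1) (y.1.2.1.getD y.2 [])) (by fun_prop) fun _ => Iff.rfl) (S1.and
      (Q7_S1_path (by fun_prop) (by fun_prop) (by fun_prop) (by fun_prop))
      (S1_WEq (by fun_prop) (by fun_prop) (by fun_prop)))
  · refine S1.bforall (p := fun (y : α × List (List ℕ) × List (List ℕ)) d =>
      Q7_ok (c y.1) (y.2.2.getD d []) = true ∧ Q7_path (c y.1) 0 (y.2.2.getD d []) d ∧
      (decide (y.2.2.getD (Q7_tn (c y.1) d) [] = y.2.2.getD d []) &&
        decide (y.2.2.getD ((c y.1).ta d) [] = y.2.2.getD d [])) = true) ?_ (by fun_prop)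
    refine S1.and (S1.of_bool (f := fun y : (α × List (List ℕ) × List (List ℕ)) × ℕ =>
      Q7_ok (c y.1.1) (y.1.2.2.getD y.2 [])) (by fun_prop) fun _ => Iff.rfl) (S1.and
      (Q7_S1_path (by fun_prop) (by fun_prop) (by fun_prop) (by fun_prop))
      (S1.of_bool (f := fun y : (α × List (List ℕ) × List (List ℕ)) × ℕ =>
        (decide (y.1.2.2.getD (Q7_tn (c y.1.1) y.2) [] = y.1.2.2.getD y.2 []) &&
        decide (y.1.2.2.getD ((c y.1.1).ta y.2) [] = y.1.2.2.getD y.2 [])))
        (by fun_prop) fun _ => Iff.rfl))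
  · exact Q7_S1_hom (by fun_prop) (by fun_prop) (by fun_prop) (by fun_prop) (by fun_prop)
  · exact S1.bforall (p := fun (y : α × List (List ℕ) × List (List ℕ)) d =>
      Q7_hom (c y.1) 0 0 (y.2.2.getD d [] ++ [d] ++
      Q7_rv (c y.1) (y.2.2.getD ((c y.1).nx d) []))
      (Q7_thc (n y.1) (c y.1) y.2.1 (Q7_lw (c y.1) (y.2.2.getD d []) ++ (c y.1).lb d ++
        winv (Q7_lw (c y.1) (y.2.2.getD ((c y.1).nx d) [])))))
      (Q7_S1_hom (by fun_prop) (by fun_prop) (by fun_prop) (by fun_prop) (by fun_prop))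
      (by fun_prop)
section R

variable {g n : ℕ} {t : ℝ} {S : Surf (SurfGroup g) (Fin n)} {c : Code}

private theorem Q7_tn_eq (h : Repr g t c S) (d : Fin n) : Q7_tn c d = S.turn d := by
  rw [Q7_tn, h.nx, h.nx, h.op, Surf.turn]

private theorem Q7_rtc_symm {β : Type} {r : β → β → Prop} (hr : ∀ x y, r x y → r y x) {x y : β}
    (h : Relation.ReflTransGen r x y) : Relation.ReflTransGen r y x := by
  induction h with
  | refl => exact .refl
  | tail _ h ih => exact .head (hr _ _ h) ih

private theorem Q7_adj_symm {c : Code} {x y : ℕ} (h : Q7_adj c x y = true) :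
    Q7_adj c y x = true := by
  rw [Q7_adj] at h ⊢
  simp only [Bool.and_eq_true, Bool.or_eq_true, decide_eq_true_eq] at h ⊢
  tauto

private theorem Q7_so_iff (h : Repr g t c S) (d : Fin n) (y : ℕ) :
    Q7_so c d y ↔ ∃ d' : Fin n, y = d' ∧ S.SameOrigin d d' := by
  constructor
  · intro hy
    induction hy with
    | refl => exact ⟨d, rfl, .refl d⟩
    | @tail y z _ hz ih =>
      obtain ⟨e, rfl, he⟩ := ih
      rw [Q7_adj] at hz
      simp only [Bool.and_eq_true, Bool.or_eq_true, decide_eq_true_eq] at hz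
      obtain ⟨⟨_, h2⟩, h3⟩ := hz
      rw [h.n_eq] at h2
      refine ⟨⟨z, h2⟩, rfl, .trans _ _ _ he ?_⟩
      rcases h3 with ((h3 | h3) | h3) | h3
      · refine .rel _ _ (Or.inl (Fin.ext ?_))
        rw [← Q7_tn_eq h]
        exact h3
      · refine .rel _ _ (Or.inr (Fin.ext ?_))
        rw [← h.ta]
        exact h3
      · refine .symm _ _ (.rel _ _ (Or.inl (Fin.ext ?_)))
        rw [← Q7_tn_eq h]
        exact h3
      · refine .symm _ _ (.rel _ _ (Or.inr (Fin.ext ?_)))
        rw [← h.ta]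
        exact h3
  · rintro ⟨d', rfl, hd⟩
    have hlt : ∀ x : Fin n, decide ((x : ℕ) < c.n) = true := by
      intro x
      rw [h.n_eq]
      exact decide_eq_true x.2
    induction hd with
    | rel x y hxy =>
      refine Relation.ReflTransGen.single ?_
      rw [Q7_adj, hlt, hlt]
      rcases hxy with rfl | rfl
      · rw [Q7_tn_eq h, decide_eq_true rfl]
        rfl
      · rw [h.ta, decide_eq_true (p := ((S.tau x : Fin n) : ℕ) = (S.tau x : Fin n)) rfl]
        simp
    | refl x => exact Relation.ReflTransGen.refl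
    | symm x y _ ih =>
      exact Q7_rtc_symm (fun _ _ => Q7_adj_symm) ih
    | trans x y z _ _ ih1 ih2 => exact Relation.ReflTransGen.trans ih1 ih2

private theorem Q7_so_iff' (h : Repr g t c S) (d d' : Fin n) :
    Q7_so c d d' ↔ S.SameOrigin d d' := by
  rw [Q7_so_iff h]
  constructor
  · rintro ⟨e, he, hd⟩
    rwa [Fin.ext he]
  · intro hd
    exact ⟨d', rfl, hd⟩

private theorem Q7_path_nil {c : Code} {a b : ℕ} : Q7_path c a [] b ↔ Q7_so c a b := by
  constructor
  · intro h
    exact h 0 (by simp)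
  · intro h i hi
    have h0 : i = 0 := by simpa using hi
    subst h0
    exact h

private theorem Q7_path_cons {c : Code} {a b d : ℕ} {p : List ℕ} :
    Q7_path c a (d :: p) b ↔ Q7_so c a d ∧ Q7_path c (c.nx d) p b := by
  constructor
  · intro h
    refine ⟨h 0 (by simp), fun i hi => ?_⟩
    exact h (i + 1) (by rw [List.length_cons]; omega)
  · rintro ⟨h1, h2⟩ i hi
    rcases i with _ | i
    · exact h1
    · exact h2 i (by rw [List.length_cons] at hi; omega)

private theorem Q7_path_iff (h : Repr g t c S) (p : List (Fin n)) (a b : Fin n) :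
    Q7_path c a (p.map Fin.val) b ↔ S.IsPath a p b := by
  induction p generalizing a with
  | nil =>
    rw [List.map_nil, Q7_path_nil, Q7_so_iff' h]
    constructor
    · intro h1
      exact .nil h1
    · intro h1
      cases h1 with
      | nil h2 => exact h2
  | cons d p ih =>
    rw [List.map_cons, Q7_path_cons, Q7_so_iff' h, h.nx, ih]
    constructor
    · rintro ⟨h1, h2⟩
      exact .cons h1 h2
    · intro h1
      cases h1 with
      | cons h2 h3 => exact ⟨h2, h3⟩

private theorem Q7_inj : Function.Injective (Fin.val : Fin n → ℕ) := fun _ _ h => Fin.ext h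

private theorem Q7_map_inj {p q : List (Fin n)}
    (h : (p.map Fin.val) = q.map Fin.val) : p = q :=
  List.map_injective_iff.2 Q7_inj h

private theorem Q7_ok_iff (h : Repr g t c S) {p : List ℕ} :
    Q7_ok c p = true ↔ ∃ q : List (Fin n), p = q.map Fin.val := by
  rw [Q7_ok, List.all_eq_true]
  simp only [decide_eq_true_eq, h.n_eq]
  constructor
  · intro h1
    induction p with
    | nil => exact ⟨[], rfl⟩
    | cons d p ih =>
      obtain ⟨q, hq⟩ := ih fun x hx => h1 x (List.mem_cons_of_mem _ hx)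
      exact ⟨⟨d, h1 d List.mem_cons_self⟩ :: q, congrArg (fun r => d :: r) hq⟩
  · rintro ⟨q, rfl⟩ x hx
    obtain ⟨y, _, rfl⟩ := List.mem_map.1 hx
    exact y.2

private theorem Q7_mv_iff (h : Repr g t c S) (p q : List (Fin n)) :
    Q7_mv c (p.map Fin.val) (q.map Fin.val) ↔ S.Move p q := by
  constructor
  · rintro ⟨⟨⟨u, v⟩, d⟩, hx⟩
    rw [Q7_mvB] at hx
    simp only [Bool.and_eq_true, Bool.or_eq_true, decide_eq_true_eq] at hx
    obtain ⟨hd, ⟨h1, h2⟩ | ⟨h1, h2⟩⟩ := hx
    · rw [h.n_eq] at hd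
      obtain ⟨d, rfl⟩ : ∃ e : Fin n, d = e := ⟨⟨d, hd⟩, rfl⟩
      obtain ⟨u, v, rfl, rfl, rfl⟩ := List.map_eq_append_iff.1 h1
      rcases h2 with h2 | h2
      · have h3 : q = u ++ [d, S.opp d] ++ v := by
          refine Q7_map_inj ?_
          rw [h2, h.op]
          simp
        rw [h3]
        exact .back u v d
      · have h3 : q = u ++ [d, S.nxt d, S.nxt (S.nxt d)] ++ v := by
          refine Q7_map_inj ?_
          rw [h2, h.nx, h.nx]
          simp
        rw [h3]
        exact .tri u v d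
    · rw [h.n_eq] at hd
      obtain ⟨d, rfl⟩ : ∃ e : Fin n, d = e := ⟨⟨d, hd⟩, rfl⟩
      obtain ⟨w, v, rfl, h4, rfl⟩ := List.map_eq_append_iff.1 h1
      obtain ⟨u, e, rfl, rfl, h5⟩ := List.map_eq_append_iff.1 h4
      have h6 : e = [d] := Q7_map_inj (by rw [h5]; rfl)
      subst h6
      have h3 : q = u ++ [S.tau d] ++ v := by
        refine Q7_map_inj ?_
        rw [h2, h.ta]
        simp
      rw [h3]
      exact .tau u v d
  · intro hm
    cases hm with
    | back u v d =>
      refine ⟨((u.map Fin.val, v.map Fin.val), (d : ℕ)), ?_⟩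
      rw [Q7_mvB]
      simp only [Bool.and_eq_true, Bool.or_eq_true, decide_eq_true_eq]
      refine ⟨by rw [h.n_eq]; exact d.2, Or.inl ⟨by simp, Or.inl ?_⟩⟩
      rw [h.op]
      simp
    | tri u v d =>
      refine ⟨((u.map Fin.val, v.map Fin.val), (d : ℕ)), ?_⟩
      rw [Q7_mvB]
      simp only [Bool.and_eq_true, Bool.or_eq_true, decide_eq_true_eq]
      refine ⟨by rw [h.n_eq]; exact d.2, Or.inl ⟨by simp, Or.inr ?_⟩⟩
      rw [h.nx, h.nx]
      simp
    | tau u v d =>
      refine ⟨((u.map Fin.val, v.map Fin.val), (d : ℕ)), ?_⟩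
      rw [Q7_mvB]
      simp only [Bool.and_eq_true, Bool.or_eq_true, decide_eq_true_eq]
      refine ⟨by rw [h.n_eq]; exact d.2, Or.inr ⟨by simp, ?_⟩⟩
      rw [h.ta]
      simp

private theorem Q7_hom_iff (h : Repr g t c S) (a b : Fin n) (p : List (Fin n)) (q' : List ℕ) :
    Q7_hom c a b (p.map Fin.val) q' ↔
      ∃ q, q' = q.map Fin.val ∧ S.Homotopic a b p q := by
  constructor
  · intro hq
    induction hq with
    | refl => exact ⟨p, rfl, .refl p⟩
    | @tail y z _ hz ih =>
      obtain ⟨q, rfl, hq⟩ := ih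
      obtain ⟨⟨_, h1⟩, ⟨h2, h3⟩, h4⟩ := hz
      obtain ⟨r, rfl⟩ := (Q7_ok_iff h).1 h1
      rw [Q7_path_iff h] at h2 h3
      rw [Q7_mv_iff h, Q7_mv_iff h] at h4
      refine ⟨r, rfl, .trans _ _ _ hq ?_⟩
      rcases h4 with h4 | h4
      · exact .rel _ _ ⟨h2, h3, h4⟩
      · exact .symm _ _ (.rel _ _ ⟨h3, h2, h4⟩)
  · rintro ⟨q, rfl, hq⟩
    induction hq with
    | rel p q hpq =>
      refine Relation.ReflTransGen.single ⟨⟨(Q7_ok_iff h).2 ⟨p, rfl⟩, (Q7_ok_iff h).2 ⟨q, rfl⟩⟩,
        ⟨(Q7_path_iff h _ _ _).2 hpq.1, (Q7_path_iff h _ _ _).2 hpq.2.1⟩,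
        Or.inl ((Q7_mv_iff h _ _).2 hpq.2.2)⟩
    | refl p => exact Relation.ReflTransGen.refl
    | symm p q _ ih =>
      refine Q7_rtc_symm ?_ ih
      rintro u v ⟨⟨h1, h2⟩, ⟨h3, h4⟩, h5⟩
      exact ⟨⟨h2, h1⟩, ⟨h4, h3⟩, h5.symm⟩
    | trans p q r _ _ ih1 ih2 => exact Relation.ReflTransGen.trans ih1 ih2

private theorem Q7_hom_iff' (h : Repr g t c S) (a b : Fin n) (p q : List (Fin n)) :
    Q7_hom c a b (p.map Fin.val) (q.map Fin.val) ↔ S.Homotopic a b p q := by
  rw [Q7_hom_iff h]
  constructor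
  · rintro ⟨r, hr, hq⟩
    rwa [Q7_map_inj hr]
  · intro hq
    exact ⟨q, rfl, hq⟩

private theorem Q7_lw_eq (h : Repr g t c S) (p : List (Fin n)) :
    word g (Q7_lw c (p.map Fin.val)) = (p.map S.lab).prod := by
  induction p with
  | nil => exact word_nil g
  | cons d p ih =>
    rw [List.map_cons, Q7_lw, List.flatMap_cons, word_append, ← h.lb, List.map_cons,
      List.prod_cons, ← ih, Q7_lw]

private theorem Q7_rv_eq (h : Repr g t c S) (p : List (Fin n)) :
    Q7_rv c (p.map Fin.val) = (Q7_rev S p).map Fin.val := by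
  rw [Q7_rv, Q7_rev, List.map_reverse, List.map_map, List.map_map]
  congr 1
  refine List.map_congr_left fun d _ => ?_
  exact h.op d

private theorem Q7_thc_eq (h : Repr g t c S) {P : List (List ℕ)} {π : ℕ → List (Fin n)}
    (hπ : ∀ k < 2 * g, P.getD k [] = (π k).map Fin.val) (w : Wd) :
    Q7_thc g c P w = (Q7_th S g π w).map Fin.val := by
  induction w with
  | nil => rfl
  | cons l w ih =>
    have h1 : Q7_thc g c P (l :: w) = cond (decide (l.1 < 2 * g))
      (cond l.2 (P.getD l.1 []) (Q7_rv c (P.getD l.1 []))) [] ++ Q7_thc g c P w := by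
      rw [Q7_thc, List.flatMap_cons, Q7_thc]
    rw [h1, Q7_th_cons, List.map_append, ih]
    congr 1
    by_cases hl : l.1 < 2 * g
    · rw [decide_eq_true hl, cond_true, cond_true, hπ _ hl, Q7_rv_eq h]
      cases l.2 <;> rfl
    · rw [decide_eq_false hl]
      rfl

end R

/-- Find a predicate on codes with this property. Suggestion: a certificate consists of (for the
base dart `0`): closed edge paths `π k` at `0`, `k < 2 g`, with label `gen k`; edge paths `τ d` from `0`
to the origin of `d`; homotopies (lists of elementary moves): `θ(relator) ~ []`, where `θ` maps words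
to closed paths by `k ↦ π k`; `τ d ~ τ (turn d)`, `τ d ~ τ (tau d)` (as paths with the same ends);
`τ d · d · (τ (nxt d))⁻¹ ~ θ (word of the labels of this closed path)`. Soundness: each closed path
at `0` is homotopic to `θ w`, where `w` is the word of its labels; if `word g w = 1` then
`w` is a product of conjugates of relators in the free group, so `θ w ~ []`. Other base
darts: conjugate with `τ`. Completeness: the closed paths on both sides have the same label, so they
are homotopic by `IsMarking`. -/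
theorem exists_markC : ∃ MarkC : ℕ → Code → Prop,
    (∀ {α : Type} [Primcodable α] {n : α → ℕ} {c : α → Code}, Primrec n → Primrec c →
      S1 fun a => MarkC (n a) (c a)) ∧
    ∀ {g n : ℕ} {t : ℝ} {S : Surf (SurfGroup g) (Fin n)} {c : Code}, Repr g t c S → 0 < n →
      S.Connected → (MarkC g c ↔ S.IsMarking) := by
  refine ⟨Q7_C, fun hn hc => Q7_S1 hn hc, ?_⟩
  intro g n t S c h hn hcon
  have h0 : ((⟨0, hn⟩ : Fin n) : ℕ) = 0 := rfl
  constructor
  · rintro ⟨⟨P, T⟩, h1, h2, h3, h4⟩
    have hP : ∀ k : ℕ, ∃ p : List (Fin n), k < 2 * g →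
        P.getD k [] = p.map Fin.val := by
      intro k
      by_cases hk : k < 2 * g
      · obtain ⟨q, hq⟩ := (Q7_ok_iff h).1 (h1 k hk).1
        exact ⟨q, fun _ => hq⟩
      · exact ⟨[], fun h => absurd h hk⟩
    choose π hπ using hP
    have hT : ∀ d : Fin n, ∃ p : List (Fin n), T.getD d [] = p.map Fin.val := by
      intro d
      exact (Q7_ok_iff h).1 (h2 d (by rw [h.n_eq]; exact d.2)).1
    choose τ hτ using hT
    have hd : ∀ d : Fin n, (d : ℕ) < c.n := fun d => by rw [h.n_eq]; exact d.2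
    have hτ' : ∀ d d', S.SameOrigin d d' → τ d = τ d' := by
      intro d d' hdd
      induction hdd with
      | rel x y hxy =>
        have h5 := (h2 x (hd x)).2.2
        simp only [Bool.and_eq_true, decide_eq_true_eq] at h5
        rcases hxy with rfl | rfl
        · have h6 := h5.1
          rw [Q7_tn_eq h, hτ, hτ] at h6
          exact (Q7_map_inj h6).symm
        · have h6 := h5.2
          rw [h.ta, hτ, hτ] at h6
          exact (Q7_map_inj h6).symm
      | refl x => rfl
      | symm x y _ ih => exact ih.symm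
      | trans x y z _ _ ih1 ih2 => exact ih1.trans ih2
    refine Q7_sound (a := ⟨0, hn⟩) (π := π) (τ := τ) ?_ hτ' ?_ ?_ ?_ ?_
    · intro d
      have h5 := (h2 d (hd d)).2.1
      rw [← h0, hτ, Q7_path_iff h] at h5
      exact h5
    · intro k hk
      have h5 := (h1 k hk).2.1
      rw [← h0, hπ k hk, Q7_path_iff h] at h5
      exact h5
    · intro k hk
      have h5 := (h1 k hk).2.2
      rw [hπ k hk, WEq, Q7_lw_eq h] at h5
      rw [h5, word, List.map_cons, List.map_nil, List.prod_singleton]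
    · rw [← h0, Q7_thc_eq h hπ] at h3
      exact (Q7_hom_iff' h _ _ _ []).1 h3
    · intro d
      have h5 := h4 d (hd d)
      rw [← h0, h.nx, hτ, hτ, Q7_rv_eq h, Q7_thc_eq h hπ] at h5
      refine ⟨_, ?_, (Q7_hom_iff' h _ _ _ _).1 (by simpa using h5)⟩
      rw [word_append, word_append, word_winv, Q7_lw_eq h, Q7_lw_eq h, h.lb, mul_assoc]
  · intro hm
    obtain ⟨τ, hτ, hτ'⟩ := Q7_exists_tau hcon (⟨0, hn⟩ : Fin n)
    have hP : ∀ k : ℕ, ∃ p, S.IsPath (⟨0, hn⟩ : Fin n) p ⟨0, hn⟩ ∧
        (p.map S.lab).prod = letter g (k, true) := fun k => (hm _).1 _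
    choose π hπ hl using hP
    have e1 : ∀ k < 2 * g, ((List.range (2 * g)).map fun k =>
        (π k).map Fin.val).getD k [] = (π k).map Fin.val := by
      intro k hk
      rw [List.getD_eq_getElem?_getD, List.getElem?_map, List.getElem?_range hk]
      rfl
    have e2 : ∀ d : Fin n, ((List.finRange n).map fun d =>
        (τ d).map Fin.val).getD d [] = (τ d).map Fin.val := by
      intro d
      rw [List.getD_eq_getElem?_getD, List.getElem?_map, List.getElem?_eq_getElem
        (by rw [List.length_finRange]; exact d.2)]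
      simp
    refine ⟨⟨(List.range (2 * g)).map fun k => (π k).map Fin.val,
      (List.finRange n).map fun d => (τ d).map Fin.val⟩, ?_, ?_, ?_, ?_⟩
    · intro k hk
      rw [e1 k hk]
      refine ⟨(Q7_ok_iff h).2 ⟨_, rfl⟩, ?_, ?_⟩
      · rw [← h0, Q7_path_iff h]
        exact hπ k
      · rw [WEq, Q7_lw_eq h, hl, word, List.map_cons, List.map_nil, List.prod_singleton]
    · intro d hd
      rw [h.n_eq] at hd
      obtain ⟨d, rfl⟩ : ∃ e : Fin n, d = e := ⟨⟨d, hd⟩, rfl⟩
      rw [Q7_tn_eq h, h.ta, e2, e2, e2]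
      refine ⟨(Q7_ok_iff h).2 ⟨_, rfl⟩, ?_, ?_⟩
      · rw [← h0, Q7_path_iff h]
        exact hτ d
      · rw [hτ' d (S.turn d) (.rel _ _ (Or.inl rfl)), ← hτ' d (S.tau d) (.rel _ _ (Or.inr rfl)),
          hτ' d (S.turn d) (.rel _ _ (Or.inl rfl))]
        simp
    · rw [← h0, Q7_thc_eq h e1]
      refine (Q7_hom_iff' h _ _ _ []).2 (Q7_of_marking hm (Q7_th_path (fun k _ => hπ k) _)
        (Q7_nil _) ?_)
      rw [Q7_lab_th fun k _ => hl k, ← Q7_mk_fw, Q7_fw_rel]
      exact (QuotientGroup.eq_one_iff _).2 (Subgroup.subset_normalClosure rfl)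
    · intro d hd
      rw [h.n_eq] at hd
      obtain ⟨d, rfl⟩ : ∃ e : Fin n, d = e := ⟨⟨d, hd⟩, rfl⟩
      rw [h.nx, e2, e2, Q7_rv_eq h, Q7_thc_eq h e1, ← h0]
      have h5 := Q7_of_marking (p := τ d ++ [d] ++ Q7_rev S (τ (S.nxt d)))
        (q := Q7_th S g π (Q7_lw c ((τ d).map Fin.val) ++ c.lb d ++
          winv (Q7_lw c ((τ (S.nxt d)).map Fin.val)))) hm
        (Q7_app (Q7_app (hτ d) (Q7_one d)) (Q7_rev_path (hτ _)))
        (Q7_th_path (fun k _ => hπ k) _) ?_
      · have h6 := (Q7_hom_iff' h _ _ _ _).2 h5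
        simpa using h6
      · rw [Q7_lab_th fun k _ => hl k, word_append, word_append, word_winv, Q7_lw_eq h,
          Q7_lw_eq h, ← h.lb, List.map_append, List.prod_append, List.map_append,
          List.prod_append, Q7_lab_rev, List.map_cons, List.map_nil, List.prod_singleton]

end Pool.Veech
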