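import Pool.Agent.Lib.MP_fceebd_gt.Z1b

/-! # Row Z1, Z2: soundness and completeness of certificates, on the level of real numbers -/

set_option autoImplicit false

open Polynomial MeasureTheory
open scoped UpperHalfPlane MatrixGroups

namespace Pool.Veech

variable {g : ℕ} {f : SurfGroup g ≃* SurfGroup g} {Y : MS g} {p : ℤ[X]} {t : ℝ}
  {Z : Fin Y.n → Fin 2 → ℤ[X]} {σ : ℤ} {m : Matrix (Fin Y.n) (Fin Y.n) ℤ} {N : ℕ}

/-- the good directions: vectors whose coordinates are integral polynomials in `t` -/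
def goodVec (t : ℝ) : Set Vec := {v | ∀ j, ∃ q : ℤ[X], v j = aeval t q}

private theorem Z1c_good_neg {t : ℝ} {v : Vec} (hv : v ∈ goodVec t) : -v ∈ goodVec t := by
  intro j
  obtain ⟨q, hq⟩ := hv j
  exact ⟨-q, by rw [Pi.neg_apply, hq, map_neg]⟩

private theorem Z1c_good_edges {D : Type} [Fintype D] [DecidableEq D] {T : Tri D}
    {Z : D → Fin 2 → ℤ[X]} {t : ℝ} {v : Vec} (hv : v ∈ edges T (polyZ Z t)) :
    v ∈ goodVec t := by
  obtain ⟨T', m', e, hp, rfl⟩ := hv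
  intro j
  refine ⟨∑ d, m' e d • Z d j, ?_⟩
  rw [map_sum]
  simp only [app, Finset.sum_apply, Pi.smul_apply, polyZ, map_zsmul]

/-- the rays of the good directions -/
private def Z1cW (t : ℝ) : Set Vec := {v | ∃ r : ℝ, 0 < r ∧ ∃ w ∈ goodVec t, v = r • w}

private theorem Z1cW_dense (t : ℝ) : Dense (Z1cW t) := by
  intro v
  rw [Metric.mem_closure_iff]
  intro ε hε
  obtain ⟨n, hn⟩ := exists_nat_gt (1 / ε)
  have hn0 : 0 < (n : ℝ) := lt_trans (by positivity) hn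
  refine ⟨(n : ℝ)⁻¹ • (fun j => ((round (n * v j) : ℤ) : ℝ)), ⟨(n : ℝ)⁻¹, inv_pos.2 hn0, _, ?_, rfl⟩, ?_⟩
  · intro j
    exact ⟨C (round (n * v j)), by simp⟩
  · rw [dist_pi_lt_iff hε]
    intro j
    simp only [Pi.smul_apply, smul_eq_mul]
    rw [Real.dist_eq]
    have h1 := abs_sub_round ((n : ℝ) * v j)
    have h2 : v j - (n : ℝ)⁻¹ * (round (n * v j) : ℝ) =
        (n : ℝ)⁻¹ * (n * v j - (round (n * v j) : ℝ)) := by
      field_simp
    rw [h2, abs_mul, abs_of_pos (inv_pos.2 hn0)]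
    have h3 : (n : ℝ)⁻¹ < ε := by
      rw [inv_lt_comm₀ hn0 hε, ← one_div]
      exact hn
    have h4 : 0 < (n : ℝ)⁻¹ := inv_pos.2 hn0
    nlinarith [abs_nonneg ((n : ℝ) * v j - (round (n * v j) : ℝ))]

private theorem Z1c_arc {A : SL(2, ℝ)} {u v : Vec} {r r' : ℝ} (hr : 0 < r) (hr' : 0 < r')
    (h : ArcOK A (r • u) (r' • v)) : ArcOK A u v := by
  obtain ⟨h1, h2, h3, h4⟩ := h
  have hrr := mul_pos hr hr'
  refine ⟨?_, ?_, ?_, ?_⟩
  · have e : cr (r • u) (r' • v) = (r * r') * cr u v := by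
      simp only [cr, Pi.smul_apply, smul_eq_mul]; ring
    rw [e] at h1
    exact pos_of_mul_pos_right h1 hrr.le
  · have e : ip (r • u) (r' • v) - ip (A.1.mulVec (r • u)) (A.1.mulVec (r' • v)) =
        (r * r') * (ip u v - ip (A.1.mulVec u) (A.1.mulVec v)) := by
      rw [Matrix.mulVec_smul, Matrix.mulVec_smul]
      simp only [ip, Pi.smul_apply, smul_eq_mul]; ring
    rw [e] at h2
    exact pos_of_mul_pos_right h2 hrr.le
  · rcases h3 with h3 | ⟨h3, h3'⟩
    · left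
      have e : nq (r • u) - nq (A.1.mulVec (r • u)) = (r * r) * (nq u - nq (A.1.mulVec u)) := by
        rw [Matrix.mulVec_smul]
        simp only [nq, ip, Pi.smul_apply, smul_eq_mul]; ring
      rw [e] at h3
      exact pos_of_mul_pos_right h3 (by positivity)
    · right
      refine ⟨?_, h3'⟩
      rw [Matrix.mulVec_smul] at h3
      exact smul_right_injective Vec hr.ne' h3
  · rcases h4 with h4 | ⟨h4, h4'⟩
    · left
      have e : nq (r' • v) - nq (A.1.mulVec (r' • v)) =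
          (r' * r') * (nq v - nq (A.1.mulVec v)) := by
        rw [Matrix.mulVec_smul]
        simp only [nq, ip, Pi.smul_apply, smul_eq_mul]; ring
      rw [e] at h4
      exact pos_of_mul_pos_right h4 (by positivity)
    · right
      refine ⟨?_, h4'⟩
      rw [Matrix.mulVec_smul] at h4
      exact smul_right_injective Vec hr'.ne' h4

private theorem Z1c_cert {Γ : Subgroup SL(2, ℝ)} {t : ℝ}
    (h : ∀ u : Vec, u ≠ 0 → (∃ A ∈ Γ, nq (A.1.mulVec u) < nq u) ∨
      ∃ v ∈ goodVec t, v ≠ 0 ∧ cr v u = 0 ∧ ∃ P ∈ Γ, P ≠ 1 ∧ P.1.mulVec v = v) :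
    ∃ (k : ℕ) (u : ℕ → Vec) (A : ℕ → SL(2, ℝ)), 0 < k ∧ u k = -u 0 ∧
      (∀ j ≤ k, u j ∈ goodVec t) ∧ ∀ j < k, A j ∈ Γ ∧ ArcOK (A j) (u j) (u (j + 1)) := by
  obtain ⟨k, u, A, hk, huk, huW, hA⟩ := exists_cert (Γ := Γ) (Z1cW_dense t)
    (by
      rintro v ⟨r, hr, w, hw, rfl⟩
      exact ⟨r, hr, -w, Z1c_good_neg hw, by rw [smul_neg]⟩)
    (by
      intro u hu
      rcases h u hu with h1 | ⟨v, hv, hv0, hvu, P, hP⟩
      · exact Or.inl h1
      · exact Or.inr ⟨v, ⟨1, one_pos, v, hv, by rw [one_smul]⟩, hv0, hvu, P, hP⟩)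
  have hch : ∀ j, ∃ r : ℝ, ∃ w : Vec, j < k → 0 < r ∧ w ∈ goodVec t ∧ u j = r • w := by
    intro j
    by_cases hj : j < k
    · obtain ⟨r, hr, w, hw, e⟩ := huW j hj.le
      exact ⟨r, w, fun _ => ⟨hr, hw, e⟩⟩
    · exact ⟨0, 0, fun h => absurd h hj⟩
  choose r w hrw using hch
  let w' : ℕ → Vec := fun j => if j < k then w j else -w 0
  let r' : ℕ → ℝ := fun j => if j < k then r j else r 0
  have hw' : ∀ j ≤ k, 0 < r' j ∧ w' j ∈ goodVec t ∧ u j = r' j • w' j := by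
    intro j hj
    by_cases hjk : j < k
    · simp only [r', w', if_pos hjk]
      exact hrw j hjk
    · have hjk' : j = k := by omega
      subst hjk'
      simp only [r', w', lt_irrefl, if_false]
      obtain ⟨h1, h2, h3⟩ := hrw 0 hk
      refine ⟨h1, Z1c_good_neg h2, ?_⟩
      rw [huk, h3, smul_neg]
  refine ⟨k, w', A, hk, ?_, fun j hj => (hw' j hj).2.1, fun j hj => ⟨(hA j hj).1, ?_⟩⟩
  · simp only [w', lt_irrefl, if_false, if_pos hk]
  · obtain ⟨h1, -, h2⟩ := hw' j hj.le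
    obtain ⟨h3, -, h4⟩ := hw' (j + 1) hj
    have h5 := (hA j hj).2
    rw [h2, h4] at h5
    exact Z1c_arc h1 h3 h5

/-- Completeness: algebraic data exist, with the minimal polynomial of `t`, and one of the two
certificates exists. (If `NSVT` holds then by `exists_shorter` and `exists_cert`, with
`W = goodVec t`, which contains all edge vectors, there is a certificate with good
directions.) -/
theorem IsPseudoAnosov.exists_data (hf : IsPseudoAnosov f) :
    ∃ (Y : MS g) (p : ℤ[X]) (t : ℝ) (Z : Fin Y.n → Fin 2 → ℤ[X]) (σ : ℤ)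
      (m : Matrix (Fin Y.n) (Fin Y.n) ℤ) (N : ℕ), AxisData f Y p t Z σ m N ∧ p = minpoly ℤ t ∧
      IsIntegral ℤ t ∧
      (NSVT Y.S.tri Y.S.z (area Y.S.tri Y.S.z / Bc Y.n N p.natDegree) →
        ∃ (k : ℕ) (u : ℕ → Vec) (A : ℕ → SL(2, ℝ)), 0 < k ∧ u k = -u 0 ∧
          (∀ j ≤ k, u j ∈ goodVec t) ∧
          ∀ j < k, A j ∈ aff Y.S.tri Y.S.z Y.S.geo ∧ ArcOK (A j) (u j) (u (j + 1))) := by
  obtain ⟨X, hX⟩ := hf.1
  obtain ⟨s, hs, m, hm⟩ := hX.exists_path
  have hH : Hyp X.S.tri X.S.z m (flowSL s) := hf.hyp hs hm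
  have : Nonempty (Fin X.n) := ⟨⟨0, X.pos⟩⟩
  obtain ⟨p, t, Z, σ, N, B, hB, hZB, hp, ht, halg⟩ := hH.exists_alg X.S.geo
  have hdet : 0 < (Cmat σ t).det := by
    rcases halg.hσ with h1 | h1 <;> simp [Cmat, h1, Matrix.det_fin_two_of]
  have hz : (X.act B hB).S.z = polyZ Z t := by
    rw [hZB]
    rfl
  refine ⟨X.act B hB, p, t, Z, σ, m, N, ⟨hz, halg, hdet, ?_⟩, hp, ht, ?_⟩
  · have h1 := hm.act B hB
    have h2 : (X.S.act (flow s) (flow_det s)).act B hB =
        ((X.act B hB).S).act (Cmat σ t) hdet := by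
      refine Surf.ext' rfl rfl rfl ?_ rfl
      have h3 : app m (polyZ Z t) = lin B (lin (flow s) X.S.z) := by
        rw [hZB, app_lin, hH.der]
        rfl
      rw [halg.der, hZB] at h3
      exact h3.symm
    rw [h2] at h1
    exact h1
  · intro hN
    have hgeo : Geo (X.act B hB).S.tri (X.act B hB).S.z := (X.act B hB).S.geo
    obtain ⟨K, iK, iN, ι, zK, tK, hιt, hArith, hfr⟩ := halg.arith
    have hArith' : Arith (X.act B hB).S.tri (X.act B hB).S.z ι zK m tK N := by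
      rw [hz]
      exact hArith
    have hb : 0 < area (X.act B hB).S.tri (X.act B hB).S.z /
        (Bc (X.act B hB).n N p.natDegree : ℝ) := by
      have : Nonempty (Fin (X.act B hB).n) := ⟨⟨0, X.pos⟩⟩
      have h1 := hgeo.area_pos
      have h2 : 0 < Bc (X.act B hB).n N p.natDegree := by simp [Bc]
      have h3 : (0 : ℝ) < (Bc (X.act B hB).n N p.natDegree : ℝ) := by exact_mod_cast h2
      exact div_pos h1 h3
    refine Z1c_cert (fun u hu => ?_)
    have : Nonempty (Fin (X.act B hB).n) := ⟨⟨0, X.pos⟩⟩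
    rcases exists_shorter hgeo hArith' hb hN hu with h1 | ⟨v, hv, hvu, P, hP⟩
    · exact Or.inl h1
    · refine Or.inr ⟨v, ?_, edges_ne_zero hv, hvu, P, hP⟩
      rw [hz] at hv
      exact Z1c_good_edges hv

end Pool.Veech
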