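import Pool.Agent.Lib.MP_fceebd_gt.Q5c
import Pool.Agent.Lib.MP_fceebd_gt.Q6a
import Pool.Agent.Lib.MP_fceebd_gt.Q6b
import Pool.Agent.Lib.MP_fceebd_gt.Q6c
import Pool.Agent.Lib.MP_fceebd_gt.Q7
import Pool.Agent.Lib.MP_fceebd_gt.Q4b
import Pool.Agent.Lib.MP_fceebd_gt.Q4c
import Pool.Agent.Lib.MP_fceebd_gt.Z1c

/-! # Row Q8: codes of axis data -/

set_option autoImplicit false

open Polynomial

namespace Pool.Veech

open RE

/-- the predicate of row Q7 -/
noncomputable def MarkC : ℕ → Code → Prop := Classical.choose exists_markC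

/-- the code of `f X` -/
def relabC (g : ℕ) (L : List (List Wd)) (c : Code) : Code :=
  Code.mk' c.n c.nx c.op c.ta c.zz (fun d => substL g L (c.lb d))

/-- the sum of all cross products -/
def areaC (c : Code) : ZP := psum ((List.range c.n).map fun d => pcr (c.zz d) (c.zz (c.nx d)))

/-- `(p, J, σ, N)`, the code of the surface, and the moves of the path from `f X` to `C X` -/
abbrev Dt := (ZP × Jt × Bool × ℕ) × Code × List Mv

/-- the sign -/
def sg (b : Bool) : ℤ := cond b 1 (-1)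

/-- the data are valid for the mapping class given by `L` -/
def ValidD (g : ℕ) (L : List (List Wd)) (D : Dt) : Prop :=
  (0 < D.1.1.length ∧ cf D.1.1 (D.1.1.length - 1) = 1 ∧ rootJ D.1.2.1 D.1.1 = true ∧
    posJ D.1.2.1 [-2, 1] = true ∧ 0 < D.1.2.2.2) ∧
  (CodeOK g D.1.1 D.1.2.1 D.2.1 ∧ 0 < D.2.1.n ∧ ConnC D.2.1 ∧ SingC D.1.2.1 D.2.1 ∧
    MarkC g D.2.1 ∧ orientC g D.2.1 = true) ∧
  (∀ d < D.2.1.n, ∀ d' < D.2.1.n, ∃ U : ZP, EqM D.1.1
    (psub (pmul [(D.1.2.2.2 : ℤ)] (pcr (D.2.1.zz d) (D.2.1.zz d'))) (pmul U (areaC D.2.1)))) ∧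
  PathOK g D.1.2.1 (relabC g L D.2.1) D.2.2 ∧
  sameTri D.2.1 (run (relabC g L D.2.1) D.2.2) = true ∧
  lbRel g D.2.1 (run (relabC g L D.2.1) D.2.2) ∧
  zRel D.1.1 (([], [sg D.1.2.2.1]), ([-sg D.1.2.2.1], [0, 1])) [1] D.2.1
    (run (relabC g L D.2.1) D.2.2)

theorem S1_ValidD {α : Type} [Primcodable α] {n : α → ℕ} {L : α → List (List Wd)} {D : α → Dt}
    (hn : Primrec n) (hL : Primrec L) (hD : Primrec D) :
    S1 fun a => ValidD (n a) (L a) (D a) := by
  have hrel : Primrec fun a => relabC (n a) (L a) (D a).2.1 := by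
    unfold relabC
    fun_prop
  have harea : Primrec fun a => areaC (D a).2.1 := by
    unfold areaC
    fun_prop
  have hsg : Primrec fun a => sg (D a).1.2.2.1 := by
    unfold sg
    fun_prop
  have hmark : S1 fun a => MarkC (n a) (D a).2.1 :=
    (Classical.choose_spec exists_markC).1 hn (by fun_prop)
  unfold ValidD
  refine S1.and (S1.and ?_ (S1.and ?_ (S1.and ?_ (S1.and ?_ ?_)))) (S1.and (S1.and ?_ (S1.and ?_
    (S1.and ?_ (S1.and ?_ (S1.and ?_ ?_))))) (S1.and ?_ (S1.and ?_ (S1.and ?_ (S1.and ?_ ?_)))))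
  · exact S1.of_bool (f := fun a => decide (0 < (D a).1.1.length)) (by fun_prop)
      (fun a => by simp)
  · exact S1.of_bool (f := fun a => decide (cf (D a).1.1 ((D a).1.1.length - 1) = 1))
      (by fun_prop) (fun a => by simp)
  · exact S1.of_bool (f := fun a => rootJ (D a).1.2.1 (D a).1.1) (by fun_prop)
      (fun a => Iff.rfl)
  · exact S1.of_bool (f := fun a => posJ (D a).1.2.1 [-2, 1]) (by fun_prop)
      (fun a => Iff.rfl)
  · exact S1.of_bool (f := fun a => decide (0 < (D a).1.2.2.2)) (by fun_prop)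
      (fun a => by simp)
  · exact S1_CodeOK hn (by fun_prop) (by fun_prop) (by fun_prop)
  · exact S1.of_bool (f := fun a => decide (0 < (D a).2.1.n)) (by fun_prop)
      (fun a => by simp)
  · exact S1_ConnC (by fun_prop)
  · exact S1_SingC (by fun_prop) (by fun_prop)
  · exact hmark
  · exact S1_orientC hn (by fun_prop)
  · refine S1.bforall (p := fun a d => ∀ d' < (D a).2.1.n, ∃ U : ZP, EqM (D a).1.1
      (psub (pmul [((D a).1.2.2.2 : ℤ)] (pcr ((D a).2.1.zz d) ((D a).2.1.zz d')))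
        (pmul U (areaC (D a).2.1)))) ?_ (by fun_prop)
    refine S1.bforall (p := fun (x : α × ℕ) d' => ∃ U : ZP, EqM (D x.1).1.1
      (psub (pmul [((D x.1).1.2.2.2 : ℤ)] (pcr ((D x.1).2.1.zz x.2) ((D x.1).2.1.zz d')))
        (pmul U (areaC (D x.1).2.1)))) ?_ (by fun_prop)
    refine S1.exists (p := fun (x : (α × ℕ) × ℕ) (U : ZP) => EqM (D x.1.1).1.1
      (psub (pmul [((D x.1.1).1.2.2.2 : ℤ)]
        (pcr ((D x.1.1).2.1.zz x.1.2) ((D x.1.1).2.1.zz x.2)))
        (pmul U (areaC (D x.1.1).2.1)))) ?_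
    have harea' : Primrec fun x : ((α × ℕ) × ℕ) × ZP => areaC (D x.1.1.1).2.1 :=
      harea.comp (Primrec.fst.comp (Primrec.fst.comp Primrec.fst))
    exact S1_EqM (by fun_prop) (by fun_prop)
  · exact S1_PathOK hn (by fun_prop) hrel (by fun_prop)
  · exact S1_sameTri (by fun_prop) (by fun_prop)
  · exact S1_lbRel hn (by fun_prop) (by fun_prop)
  · exact S1_zRel (by fun_prop) (by fun_prop) (by fun_prop) (by fun_prop) (by fun_prop)

end Pool.Veech
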