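import Pool.Agent.Lib.MP_fceebd_gt.Q8a

/-! # Row Q8: codes of axis data -/

set_option autoImplicit false

open Polynomial

namespace Pool.Veech

open RE

theorem getD_map_range_q8b {β : Type*} (n : ℕ) (F : ℕ → β) (b : β) {d : ℕ} (hd : d < n) :
    ((List.range n).map F).getD d b = F d := by
  simp [List.getD_eq_getElem?_getD, hd]

theorem toPoly_nil_q8b : toPoly [] = 0 := by
  simp [toPoly]

theorem toPoly_one_q8b (a : ℤ) : toPoly [a] = C a := by
  simp [toPoly, cf]

theorem toPoly_two_q8b (a b : ℤ) : toPoly [a, b] = C a + C b * X := by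
  simp [toPoly, cf, Finset.sum_range_succ]

theorem Repr.n_code_q8b {g n : ℕ} {t : ℝ} {c : Code} {S : Surf (SurfGroup g) (Fin n)}
    (h : Repr g t c S) : c.1.1.length = n := h.n_eq

/-- the code of `f X` -/
theorem Repr.relabC_q8b {g n : ℕ} {t : ℝ} {c : Code} {S : Surf (SurfGroup g) (Fin n)}
    (h : Repr g t c S) {L : List (List Wd)} {f : SurfGroup g ≃* SurfGroup g}
    (hf : RepresentsList g L f) : Repr g t (relabC g L c) (S.relab f) := by
  have hn := h.n_eq
  constructor
  · simp [relabC, Code.mk', Code.n, h.n_code_q8b]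
  · simp [relabC, Code.mk', Code.n, h.n_code_q8b]
  · simp [relabC, Code.mk', Code.n, h.n_code_q8b]
  · simp [relabC, Code.mk', Code.n, h.n_code_q8b]
  · simp [relabC, Code.mk', Code.n, h.n_code_q8b]
  · intro d
    have hd : (d : ℕ) < c.n := hn ▸ d.2
    change ((List.range c.n).map c.nx).getD d 0 = _
    rw [getD_map_range_q8b _ _ _ hd]
    exact h.nx d
  · intro d
    have hd : (d : ℕ) < c.n := hn ▸ d.2
    change ((List.range c.n).map c.op).getD d 0 = _
    rw [getD_map_range_q8b _ _ _ hd]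
    exact h.op d
  · intro d
    have hd : (d : ℕ) < c.n := hn ▸ d.2
    change ((List.range c.n).map c.ta).getD d 0 = _
    rw [getD_map_range_q8b _ _ _ hd]
    exact h.ta d
  · intro d
    have hd : (d : ℕ) < c.n := hn ▸ d.2
    change _ = aeval t (toPoly (((List.range c.n).map c.zz).getD d ([], [])).1)
    rw [getD_map_range_q8b _ _ _ hd]
    exact h.z0 d
  · intro d
    have hd : (d : ℕ) < c.n := hn ▸ d.2
    change _ = aeval t (toPoly (((List.range c.n).map c.zz).getD d ([], [])).2)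
    rw [getD_map_range_q8b _ _ _ hd]
    exact h.z1 d
  · intro d
    have hd : (d : ℕ) < c.n := hn ▸ d.2
    change f (S.lab d) = word g (((List.range c.n).map fun d => substL g L (c.lb d)).getD d [])
    rw [getD_map_range_q8b _ _ _ hd, word_substL g hf, h.lb d]

theorem Repr.ev_q8b {g n : ℕ} {t : ℝ} {c : Code} {S : Surf (SurfGroup g) (Fin n)}
    (h : Repr g t c S) (d : Fin n) : ev t (c.zz d) = S.z d := by
  funext i
  fin_cases i
  · exact (h.z0 d).symm
  · exact (h.z1 d).symm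

theorem list_sum_range_q8b (n : ℕ) (F : ℕ → ℝ) :
    ((List.range n).map F).sum = ∑ d : Fin n, F d := by
  rw [Fin.sum_univ_eq_sum_range F n]
  rfl

/-- the area -/
theorem Repr.area_q8b {g n : ℕ} {t : ℝ} {c : Code} {S : Surf (SurfGroup g) (Fin n)}
    (h : Repr g t c S) : aeval t (toPoly (areaC c)) = area S.tri S.z := by
  have h1 : aeval t (toPoly (areaC c)) =
      ((List.range c.n).map fun d => cr (ev t (c.zz d)) (ev t (c.zz (c.nx d)))).sum := by
    rw [areaC, toPoly_psum, map_list_sum, List.map_map, List.map_map]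
    congr 1
    apply List.map_congr_left
    intro d _
    exact aeval_pcr t _ _
  rw [h1, h.n_eq, list_sum_range_q8b]
  apply Finset.sum_congr rfl
  intro d _
  rw [h.nx d, h.ev_q8b, h.ev_q8b]
  rfl

/-- soundness; `t` is any root of `p` in `J` -/
theorem ValidD.sound {g : ℕ} {L : List (List Wd)} {D : Dt} (h : ValidD g L D)
    {f : SurfGroup g ≃* SurfGroup g} (hf : RepresentsList g L f) {t : ℝ}
    (ht : |t * D.1.2.1.2 - D.1.2.1.1| ≤ 1) (hr : aeval t (toPoly D.1.1) = 0) :
    ∃ (Y : MS g) (Z : Fin Y.n → Fin 2 → ℤ[X]) (m : Matrix (Fin Y.n) (Fin Y.n) ℤ),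
      Repr g t D.2.1 Y.S ∧ AxisData f Y (toPoly D.1.1) t Z (sg D.1.2.2.1) m D.1.2.2.2 := by
  obtain ⟨⟨hp, hp1, -, hJ2, hN⟩, ⟨hC, hn0, hconn, hsing, hmark, hor⟩, hint, hpath, htri, hlb, hz⟩ := h
  obtain ⟨S, hS⟩ := hC.exists_surf ht hr
  have hconn' : S.Connected := (connC_iff hS hn0).1 hconn
  have hmark' : S.IsMarking := ((Classical.choose_spec exists_markC).2 hS hn0 hconn').1 hmark
  let Y : MS g := ⟨D.2.1.n, S, hn0, hconn', SingC.sound hS ht hsing, hmark', (orientC_iff hS).1 hor⟩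
  let Z : Fin Y.n → Fin 2 → ℤ[X] := fun d => ![toPoly (D.2.1.zz d).1, toPoly (D.2.1.zz d).2]
  have hZ : S.z = polyZ Z t := by
    funext d i
    fin_cases i
    · exact hS.z0 d
    · exact hS.z1 d
  obtain ⟨S', m, hS', hm⟩ := (hS.relabC_q8b hf).path ht hpath
  have htri' : S.tri = S'.tri := (sameTri_iff hS hS').1 htri
  have hlab' : S.lab = S'.lab := (lbRel_iff hS hS').1 hlb
  set σ : ℤ := sg D.1.2.2.1 with hσ
  have hσ1 : σ = 1 ∨ σ = -1 := by
    rw [hσ]
    unfold sg
    cases D.1.2.2.1 <;> simp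
  have hdet : (Cmat σ t).det = 1 := by
    rw [Cmat, Matrix.det_fin_two_of]
    rcases hσ1 with h | h <;> rw [h] <;> push_cast <;> ring
  have hdet0 : 0 < (Cmat σ t).det := by
    rw [hdet]
    exact one_pos
  have hz' : S'.z = lin (Cmat σ t) S.z := by
    funext d i
    have h1 := zRel_sound hS hS' hr hz d
    rw [toPoly_nil_q8b, toPoly_one_q8b, toPoly_one_q8b, toPoly_one_q8b, toPoly_two_q8b] at h1
    simp only [map_one, map_zero, zero_mul, one_mul, zero_add, aeval_X, eq_intCast] at h1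
    have h2 : lin (Cmat σ t) S.z d = ![(σ : ℝ) * S.z d 1, (-σ : ℝ) * S.z d 0 + t * S.z d 1] := by
      funext i
      fin_cases i <;>
      simp [lin, Cmat, Matrix.mulVec, dotProduct, Fin.sum_univ_two]
    rw [h2]
    fin_cases i
    · simpa using h1.1
    · have := h1.2
      push_cast at this
      simpa using this
  have hact : S' = S.act (Cmat σ t) hdet0 := by
    have e1 : S'.nxt = S.nxt := congrArg Tri.nxt htri'.symm
    have e2 : S'.opp = S.opp := congrArg Tri.opp htri'.symm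
    have e3 : S'.tau = S.tau := congrArg Tri.tau htri'.symm
    exact Surf.ext' e1 e2 e3 hz' hlab'.symm
  have hNum : ∀ d d', ∃ U : ℤ[X], (D.1.2.2.2 : ℝ) * cr (polyZ Z t d) (polyZ Z t d') =
      aeval t U * area Y.S.tri (polyZ Z t) := by
    intro d d'
    obtain ⟨U, hU⟩ := hint d d.2 d' d'.2
    refine ⟨toPoly U, ?_⟩
    have h1 := hU.eval hr
    rw [toPoly_psub, toPoly_pmul, toPoly_pmul, map_sub, map_mul, map_mul, aeval_pcr,
      hS.ev_q8b, hS.ev_q8b, hS.area_q8b, toPoly_one_q8b, sub_eq_zero, hZ] at h1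
    simp only [map_natCast] at h1
    exact h1
  obtain ⟨k, hk⟩ : ∃ k, D.1.1.length = k + 1 := ⟨D.1.1.length - 1, by omega⟩
  have hp1' : cf D.1.1 k = 1 := by
    have : D.1.1.length - 1 = k := by omega
    rwa [this] at hp1
  have ht2 : 2 < t := by
    have h1 := posJ_sound hJ2 ht
    rw [toPoly_two_q8b] at h1
    have h2 : aeval t (C (-2 : ℤ) + C (1 : ℤ) * X) = -2 + t := by
      rw [map_add, map_mul, aeval_C, aeval_C, aeval_X]
      simp
    rw [h2] at h1
    linarith
  refine ⟨Y, Z, m, hS, ⟨hZ, ⟨(toPoly_monic hk hp1').1, hr, ht2, hσ1, ?_, ?_, ?_, hN, hNum⟩, ?_⟩⟩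
  · rw [← hZ]
    exact S.geo
  · rw [← hZ]
    have h1 := hm.gpath
    rw [← htri'] at h1
    exact h1
  · rw [← hZ]
    have h1 := hm.z_eq
    rw [hz'] at h1
    exact h1.symm
  · refine ⟨hdet0, ?_⟩
    rw [hact] at hm
    exact hm

end Pool.Veech
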