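import Pool.Agent.Lib.MP_fceebd_gt.Q8a

/-! # Row Q8: codes of axis data -/

set_option autoImplicit false

open Polynomial

namespace Pool.Veech

open RE

private theorem Q8c_eps {t : ℝ} {n : ℕ} (P : Fin n → Jt → Prop)
    (h : ∀ d, ∃ ε : ℝ, 0 < ε ∧ ∀ J, Good t ε J → P d J) :
    ∃ ε : ℝ, 0 < ε ∧ ∀ J, Good t ε J → ∀ d, P d J := by
  have key : ∀ s : Finset (Fin n), ∃ ε : ℝ, 0 < ε ∧ ∀ J, Good t ε J → ∀ d ∈ s, P d J := by
    intro s
    induction s using Finset.induction_on with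
    | empty => exact ⟨1, one_pos, fun J _ d hd => absurd hd (Finset.notMem_empty d)⟩
    | insert a s _ ih =>
      obtain ⟨ε, hε, h1⟩ := ih
      obtain ⟨ε', hε', h2⟩ := h a
      refine ⟨min ε ε', lt_min hε hε', fun J hJ d hd => ?_⟩
      rcases Finset.mem_insert.1 hd with rfl | hd
      · exact h2 J (hJ.mono (min_le_right _ _))
      · exact h1 J (hJ.mono (min_le_left _ _)) d hd
  obtain ⟨ε, hε, h1⟩ := key Finset.univ
  exact ⟨ε, hε, fun J hJ d => h1 J hJ d (Finset.mem_univ d)⟩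

private theorem Q8c_ev {g n : ℕ} {t : ℝ} {S : Surf (SurfGroup g) (Fin n)} {c : Code}
    (h : Repr g t c S) (d : Fin n) : ev t (c.zz d) = S.z d := by
  funext i
  fin_cases i
  · exact (h.z0 d).symm
  · exact (h.z1 d).symm

private theorem Q8c_exists_code {g n : ℕ} {t : ℝ} (S : Surf (SurfGroup g) (Fin n))
    (Z : Fin n → Fin 2 → ℤ[X]) (hZ : S.z = polyZ Z t) : ∃ c : Code, Repr g t c S := by
  have h1 : ∀ d : Fin n, ∃ u : ZP × ZP, toPoly u.1 = Z d 0 ∧ toPoly u.2 = Z d 1 := by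
    intro d
    obtain ⟨a, ha⟩ := toPoly_surj (Z d 0)
    obtain ⟨b, hb⟩ := toPoly_surj (Z d 1)
    exact ⟨(a, b), ha, hb⟩
  choose u hu0 hu1 using h1
  have h2 : ∀ d : Fin n, ∃ w : Wd, word g w = S.lab d := fun d => word_surj g _
  choose w hw using h2
  refine ⟨Code.mk' n (fun d => if h : d < n then (S.nxt ⟨d, h⟩ : ℕ) else 0)
    (fun d => if h : d < n then (S.opp ⟨d, h⟩ : ℕ) else 0)
    (fun d => if h : d < n then (S.tau ⟨d, h⟩ : ℕ) else 0)
    (fun d => if h : d < n then u ⟨d, h⟩ else ([], []))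
    (fun d => if h : d < n then w ⟨d, h⟩ else []), ?_⟩
  have hget : ∀ {β : Type} (F : ℕ → β) (b : β) (d : Fin n),
      ((List.range n).map F).getD d b = F d := by
    intro β F b d
    rw [List.getD_eq_getElem?_getD, List.getElem?_map, List.getElem?_range d.2]
    rfl
  constructor
  · simp [Code.mk', Code.n]
  · simp [Code.mk']
  · simp [Code.mk']
  · simp [Code.mk']
  · simp [Code.mk']
  · intro d
    unfold Code.nx Code.mk'
    simp only [hget]
    rw [dif_pos d.2]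
  · intro d
    unfold Code.op Code.mk'
    simp only [hget]
    rw [dif_pos d.2]
  · intro d
    unfold Code.ta Code.mk'
    simp only [hget]
    rw [dif_pos d.2]
  · intro d
    unfold Code.zz Code.mk'
    simp only [hget]
    rw [dif_pos d.2, hu0, hZ]
    rfl
  · intro d
    unfold Code.zz Code.mk'
    simp only [hget]
    rw [dif_pos d.2, hu1, hZ]
    rfl
  · intro d
    unfold Code.lb Code.mk'
    simp only [hget]
    rw [dif_pos d.2, hw]

private theorem Q8c_relab {g n : ℕ} {t : ℝ} {S : Surf (SurfGroup g) (Fin n)} {c : Code}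
    {L : List (List Wd)} {f : SurfGroup g ≃* SurfGroup g} (hf : RepresentsList g L f)
    (h : Repr g t c S) : Repr g t (relabC g L c) (S.relab f) := by
  have hn := h.n_eq
  have hget : ∀ {β : Type} (F : ℕ → β) (b : β) (d : Fin n),
      ((List.range n).map F).getD d b = F d := by
    intro β F b d
    rw [List.getD_eq_getElem?_getD, List.getElem?_map, List.getElem?_range d.2]
    rfl
  constructor
  · simp [relabC, Code.mk', Code.n, ← hn]
  · simp [relabC, Code.mk', hn]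
  · simp [relabC, Code.mk', hn]
  · simp [relabC, Code.mk', hn]
  · simp [relabC, Code.mk', hn]
  · intro d
    have : (relabC g L c).nx d = c.nx d := by
      unfold relabC Code.mk'
      rw [hn]
      exact hget c.nx 0 d
    rw [this]
    exact h.nx d
  · intro d
    have : (relabC g L c).op d = c.op d := by
      unfold relabC Code.mk'
      rw [hn]
      exact hget c.op 0 d
    rw [this]
    exact h.op d
  · intro d
    have : (relabC g L c).ta d = c.ta d := by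
      unfold relabC Code.mk'
      rw [hn]
      exact hget c.ta 0 d
    rw [this]
    exact h.ta d
  · intro d
    have : (relabC g L c).zz d = c.zz d := by
      unfold relabC Code.mk'
      rw [hn]
      exact hget c.zz ([], []) d
    rw [this]
    exact h.z0 d
  · intro d
    have : (relabC g L c).zz d = c.zz d := by
      unfold relabC Code.mk'
      rw [hn]
      exact hget c.zz ([], []) d
    rw [this]
    exact h.z1 d
  · intro d
    have : (relabC g L c).lb d = substL g L (c.lb d) := by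
      unfold relabC Code.mk'
      rw [hn]
      exact hget (fun d => substL g L (c.lb d)) [] d
    rw [this, word_substL g hf, ← h.lb d]
    rfl

private theorem Q8c_poly1 (t : ℝ) (a : ℤ) : aeval t (toPoly [a]) = a := by
  unfold toPoly cf
  simp

private theorem Q8c_poly2 (t : ℝ) (a b : ℤ) : aeval t (toPoly [a, b]) = a + b * t := by
  unfold toPoly cf
  simp [Finset.sum_range_succ]

private theorem Q8c_poly0 (t : ℝ) : aeval t (toPoly []) = 0 := by
  unfold toPoly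
  simp

private theorem Q8c_codeOK {g n : ℕ} {t : ℝ} {S : Surf (SurfGroup g) (Fin n)} {c : Code}
    (h : Repr g t c S) {pc : ZP} (ht : IsIntegral ℤ t) (hp : toPoly pc = minpoly ℤ t) :
    ∃ ε : ℝ, 0 < ε ∧ ∀ J, Good t ε J → CodeOK g pc J c := by
  have hn := h.n_eq
  have hev := Q8c_ev h
  have hlt : ∀ d, d < c.n → d < n := fun d hd => hn ▸ hd
  have hE : ∀ u : ZP × ZP, ev t u = 0 → EqM pc u.1 ∧ EqM pc u.2 := by
    intro u hu
    have e0 : aeval t (toPoly u.1) = 0 := congrFun hu 0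
    have e1 : aeval t (toPoly u.2) = 0 := congrFun hu 1
    exact ⟨EqM.of_eval ht hp e0, EqM.of_eval ht hp e1⟩
  obtain ⟨ε, hε, hpos⟩ := Q8c_eps (t := t) (n := n)
    (fun d J => posJ J (pcr (c.zz d) (c.zz (c.nx d))) = true) (by
      intro d
      apply posJ_complete
      rw [aeval_pcr, h.nx d, hev, hev]
      exact S.pos d)
  refine ⟨ε, hε, fun J hJ => ⟨⟨?_, ?_, ?_, ?_⟩, ?_, ?_, ?_, ?_⟩⟩
  · rw [h.op_len, hn]
  · rw [h.ta_len, hn]
  · rw [h.z_len, hn]
  · rw [h.lb_len, hn]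
  · intro d hd
    obtain ⟨d, rfl⟩ : ∃ d' : Fin n, d = d' := ⟨⟨d, hlt d hd⟩, rfl⟩
    have n1 := h.nx d
    have n2 := h.op d
    have n3 := h.ta d
    refine ⟨⟨?_, ?_, ?_⟩, ?_, ?_, ?_, ?_, ?_, ?_⟩
    · rw [n1, hn]; exact (S.nxt d).2
    · rw [n2, hn]; exact (S.opp d).2
    · rw [n3, hn]; exact (S.tau d).2
    · rw [n1, h.nx, h.nx, S.nxt3]
    · rw [n2, h.op, S.opp2]
    · rw [n3, h.ta, S.tau2]
    · rw [n1, n3, h.ta, h.nx, S.tau_nxt]
    · rw [n2, n3, h.ta, h.op, S.tau_opp]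
    · rw [n2, n3]
      intro he
      exact S.opp_ne d (Fin.ext he)
  · intro d hd
    obtain ⟨d, rfl⟩ : ∃ d' : Fin n, d = d' := ⟨⟨d, hlt d hd⟩, rfl⟩
    have a1 := hE (vadd (vadd (c.zz d) (c.zz (c.nx d))) (c.zz (c.nx (c.nx d)))) (by
      rw [ev_vadd, ev_vadd, h.nx d, h.nx, hev, hev, hev]
      exact S.closed d)
    have a2 := hE (vadd (c.zz (c.op d)) (c.zz d)) (by
      rw [ev_vadd, h.op d, hev, hev, S.glue]
      exact neg_add_cancel _)
    have a3 := hE (vadd (c.zz (c.ta d)) (c.zz d)) (by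
      rw [ev_vadd, h.ta d, hev, hev, S.anti]
      exact neg_add_cancel _)
    exact ⟨a1.1, a1.2, a2.1, a2.2, a3.1, a3.2⟩
  · unfold posCode
    rw [List.all_eq_true]
    intro d hd
    have hd' := hlt d (List.mem_range.1 hd)
    exact hpos J hJ ⟨d, hd'⟩
  · intro d hd
    obtain ⟨d, rfl⟩ : ∃ d' : Fin n, d = d' := ⟨⟨d, hlt d hd⟩, rfl⟩
    unfold WEq
    refine ⟨?_, ?_, ?_⟩
    · rw [word_append, word_append, word_nil, h.nx d, h.nx, ← h.lb, ← h.lb, ← h.lb]
      exact S.lab_closed d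
    · rw [word_winv, h.op d, ← h.lb, ← h.lb]
      exact S.lab_opp d
    · rw [h.ta d, ← h.lb, ← h.lb]
      exact S.lab_tau d

private theorem Q8c_sum (n : ℕ) (F : ℕ → ℝ) :
    ((List.range n).map F).sum = ∑ d : Fin n, F d := by
  rw [Fin.sum_univ_eq_sum_range F n]
  induction n with
  | zero => rfl
  | succ m ih => rw [List.range_succ, List.map_append, List.sum_append, ih,
      Finset.sum_range_succ]; simp

private theorem Q8c_area {g n : ℕ} {t : ℝ} {S : Surf (SurfGroup g) (Fin n)} {c : Code}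
    (h : Repr g t c S) : aeval t (toPoly (areaC c)) = area S.tri S.z := by
  unfold areaC
  rw [toPoly_psum, List.map_map, h.n_eq, map_list_sum, List.map_map]
  rw [Q8c_sum]
  unfold area
  refine Finset.sum_congr rfl fun d _ => ?_
  simp only [Function.comp_apply]
  rw [aeval_pcr, h.nx d, Q8c_ev h, Q8c_ev h]
  rfl

/-- completeness -/
theorem ValidD.complete {g : ℕ} {L : List (List Wd)} {f : SurfGroup g ≃* SurfGroup g}
    (hf : RepresentsList g L f) {Y : MS g} {p : ℤ[X]} {t : ℝ} {Z : Fin Y.n → Fin 2 → ℤ[X]} {σ : ℤ}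
    {m : Matrix (Fin Y.n) (Fin Y.n) ℤ} {N : ℕ} (h : AxisData f Y p t Z σ m N)
    (hp : p = minpoly ℤ t) (ht : IsIntegral ℤ t) :
    ∃ (pc : ZP) (s : Bool) (c : Code) (l : List Mv), toPoly pc = p ∧
      pc.length = p.natDegree + 1 ∧ Repr g t c Y.S ∧
      ∃ ε : ℝ, 0 < ε ∧ ∀ J, Good t ε J → rootJ J pc = true → ValidD g L ((pc, J, s, N), c, l) := by
  obtain ⟨pc, hpc, hlen, hcf⟩ := exists_monic h.alg.monic
  have hpm : toPoly pc = minpoly ℤ t := hpc.trans hp
  obtain ⟨s, hs⟩ : ∃ s : Bool, sg s = σ := by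
    rcases h.alg.hσ with h1 | h1
    · exact ⟨true, h1.symm⟩
    · exact ⟨false, h1.symm⟩
  obtain ⟨c, hc⟩ := Q8c_exists_code Y.S Z h.z_eq
  have hcr := Q8c_relab hf hc
  obtain ⟨hC, hlp⟩ := h.lpath
  obtain ⟨l, hl, ε1, hε1, hpath⟩ := Repr.exists_moves hcr hlp
  obtain ⟨ε2, hε2, hcode⟩ := Q8c_codeOK hc ht hpm
  obtain ⟨ε3, hε3, hsing⟩ := SingC.complete hc Y.sing
  obtain ⟨ε4, hε4, hpos⟩ := posJ_complete (f := [-2, 1]) (t := t) (by
    rw [Q8c_poly2]
    have := h.alg.ht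
    push_cast
    linarith)
  refine ⟨pc, s, c, l, hpc, hlen, hc, min (min ε1 ε2) (min ε3 ε4),
    lt_min (lt_min hε1 hε2) (lt_min hε3 hε4), fun J hJ hroot => ?_⟩
  have hJ1 : Good t ε1 J := hJ.mono ((min_le_left _ _).trans (min_le_left _ _))
  have hJ2 : Good t ε2 J := hJ.mono ((min_le_left _ _).trans (min_le_right _ _))
  have hJ3 : Good t ε3 J := hJ.mono ((min_le_right _ _).trans (min_le_left _ _))
  have hJ4 : Good t ε4 J := hJ.mono ((min_le_right _ _).trans (min_le_right _ _))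
  have hlt : ∀ d, d < c.n → d < Y.n := fun d hd => hc.n_eq ▸ hd
  unfold ValidD
  refine ⟨⟨?_, ?_, hroot, hpos J hJ4, h.alg.Npos⟩, ⟨hcode J hJ2, ?_, ?_, hsing J hJ3, ?_, ?_⟩,
    ?_, hpath J hJ1, ?_, ?_, ?_⟩
  · show 0 < pc.length
    rw [hlen]
    omega
  · show cf pc (pc.length - 1) = 1
    rw [hlen, Nat.add_sub_cancel]
    exact hcf
  · show 0 < c.n
    rw [hc.n_eq]
    exact Y.pos
  · exact (connC_iff hc Y.pos).2 Y.conn
  · exact ((Classical.choose_spec exists_markC).2 hc Y.pos Y.conn).2 Y.mark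
  · exact (orientC_iff hc).2 Y.orient
  · intro d hd d' hd'
    obtain ⟨d, rfl⟩ : ∃ d'' : Fin Y.n, d = d'' := ⟨⟨d, hlt d hd⟩, rfl⟩
    obtain ⟨d', rfl⟩ : ∃ d'' : Fin Y.n, d' = d'' := ⟨⟨d', hlt d' hd'⟩, rfl⟩
    obtain ⟨U, hU⟩ := h.alg.int d d'
    obtain ⟨U', hU'⟩ := toPoly_surj U
    refine ⟨U', EqM.of_eval ht hpm ?_⟩
    show aeval t (toPoly (psub (pmul [(N : ℤ)] (pcr (c.zz d) (c.zz d'))) (pmul U' (areaC c)))) = 0
    rw [toPoly_psub, toPoly_pmul, toPoly_pmul, map_sub, map_mul, map_mul, Q8c_poly1, aeval_pcr,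
      Q8c_ev hc, Q8c_ev hc, Q8c_area hc, hU', h.z_eq]
    push_cast
    rw [hU, sub_self]
  · show sameTri c (run (relabC g L c) l) = true
    unfold sameTri
    rw [Bool.and_eq_true, decide_eq_true_eq, List.all_eq_true]
    refine ⟨by rw [hc.n_eq, hl.n_eq], fun d hd => ?_⟩
    obtain ⟨d, rfl⟩ : ∃ d'' : Fin Y.n, d = d'' := ⟨⟨d, hlt d (List.mem_range.1 hd)⟩, rfl⟩
    rw [Bool.and_eq_true, Bool.and_eq_true, decide_eq_true_eq, decide_eq_true_eq,
      decide_eq_true_eq, hc.nx, hc.op, hc.ta, hl.nx, hl.op, hl.ta]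
    exact ⟨⟨rfl, rfl⟩, rfl⟩
  · intro d hd
    obtain ⟨d, rfl⟩ : ∃ d'' : Fin Y.n, d = d'' := ⟨⟨d, hlt d hd⟩, rfl⟩
    show word g (c.lb d) = word g ((run (relabC g L c) l).lb d)
    rw [← hc.lb, ← hl.lb]
    rfl
  · intro d hd
    obtain ⟨d, rfl⟩ : ∃ d'' : Fin Y.n, d = d'' := ⟨⟨d, hlt d hd⟩, rfl⟩
    have z0 := hl.z0 d
    have z1 := hl.z1 d
    have y0 := hc.z0 d
    have y1 := hc.z1 d
    have w0 : (Y.S.act (Cmat σ t) hC).z d 0 = σ * Y.S.z d 1 := by
      show ((Cmat σ t).mulVec (Y.S.z d)) 0 = _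
      simp [Cmat, Matrix.mulVec, dotProduct, Fin.sum_univ_two]
    have w1 : (Y.S.act (Cmat σ t) hC).z d 1 = -σ * Y.S.z d 0 + t * Y.S.z d 1 := by
      show ((Cmat σ t).mulVec (Y.S.z d)) 1 = _
      simp [Cmat, Matrix.mulVec, dotProduct, Fin.sum_univ_two]
    refine ⟨EqM.of_eval ht hpm ?_, EqM.of_eval ht hpm ?_⟩
    · show aeval t (toPoly (psub (pmul [1] ((run (relabC g L c) l).zz d).1)
        (padd (pmul [] (c.zz d).1) (pmul [sg s] (c.zz d).2)))) = 0
      rw [toPoly_psub, toPoly_padd, toPoly_pmul, toPoly_pmul, toPoly_pmul, map_sub, map_add,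
        map_mul, map_mul, map_mul, Q8c_poly1, Q8c_poly1, Q8c_poly0, ← z0, ← y1, w0, hs]
      push_cast
      ring
    · show aeval t (toPoly (psub (pmul [1] ((run (relabC g L c) l).zz d).2)
        (padd (pmul [-sg s] (c.zz d).1) (pmul [0, 1] (c.zz d).2)))) = 0
      rw [toPoly_psub, toPoly_padd, toPoly_pmul, toPoly_pmul, toPoly_pmul, map_sub, map_add,
        map_mul, map_mul, map_mul, Q8c_poly1, Q8c_poly1, Q8c_poly2, ← z1, ← y1, ← y0, w1, hs]
      push_cast
      ring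

end Pool.Veech
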