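import Pool.Agent.Lib.MP_fceebd_gt.Q8a

/-! # Row Q9: codes of certificates -/

set_option autoImplicit false

open Polynomial
open scoped MatrixGroups

namespace Pool.Veech

open RE

/-- `(u, a, N, l)`: the direction, the matrix `a / N`, and the moves of the loop -/
abbrev Arc := (ZP × ZP) × ((ZP × ZP) × (ZP × ZP)) × ℕ × List Mv

/-- `a u` -/
def aU (a : (ZP × ZP) × (ZP × ZP)) (u : ZP × ZP) : ZP × ZP :=
  (padd (pmul a.1.1 u.1) (pmul a.1.2 u.2), padd (pmul a.2.1 u.1) (pmul a.2.2 u.2))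

/-- `N² ip u v - ip (a u) (a v)` -/
def dif (a : (ZP × ZP) × (ZP × ZP)) (N : ℕ) (u v : ZP × ZP) : ZP :=
  psub (pmul [((N * N : ℕ) : ℤ)] (pip u v)) (pip (aU a u) (aU a v))

/-- `f` is positive or negative on `J` -/
def nzJ (J : Jt) (f : ZP) : Bool := posJ J f || posJ J (pneg f)

/-- `a / N` makes `u` shorter, or it fixes `u` and it is not the identity -/
def endOK (p : ZP) (J : Jt) (a : (ZP × ZP) × (ZP × ZP)) (N : ℕ) (u : ZP × ZP) : Prop :=
  posJ J (dif a N u u) = true ∨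
    (EqM p (psub (aU a u).1 (pmul [(N : ℤ)] u.1)) ∧ EqM p (psub (aU a u).2 (pmul [(N : ℤ)] u.2)) ∧
      (nzJ J (psub a.1.1 [(N : ℤ)]) || nzJ J a.1.2 || nzJ J a.2.1 ||
        nzJ J (psub a.2.2 [(N : ℤ)])) = true)

/-- the arc from `x.1` to `v` is valid -/
def ArcC (g : ℕ) (p : ZP) (J : Jt) (c : Code) (x : Arc) (v : ZP × ZP) : Prop :=
  0 < x.2.2.1 ∧ PathOK g J c x.2.2.2 ∧ sameTri c (run c x.2.2.2) = true ∧
  zRel p x.2.1 [(x.2.2.1 : ℤ)] c (run c x.2.2.2) ∧
  EqM p (psub (psub (pmul x.2.1.1.1 x.2.1.2.2) (pmul x.2.1.1.2 x.2.1.2.1))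
    [((x.2.2.1 * x.2.2.1 : ℕ) : ℤ)]) ∧
  posJ J (pcr x.1 v) = true ∧ posJ J (dif x.2.1 x.2.2.1 x.1 v) = true ∧
  endOK p J x.2.1 x.2.2.1 x.1 ∧ endOK p J x.2.1 x.2.2.1 v

/-- the certificate for YES -/
def YesC (g : ℕ) (p : ZP) (J : Jt) (c : Code) : Prop :=
  ∃ l : List Arc, 0 < l.length ∧ ∀ j < l.length, ArcC g p J c (l.getD j default)
    (cond (decide (j + 1 < l.length)) (l.getD (j + 1) default).1 (vneg (l.getD 0 default).1))

/-- the certificate for NO -/
def NoC (g : ℕ) (p : ZP) (J : Jt) (N : ℕ) (c : Code) : Prop :=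
  ∃ x : (List Mv × List Mv) × (ℕ × ℕ), x.2.1 < c.n ∧ x.2.2 < c.n ∧ PathOK g J c x.1.1 ∧
    PathOK g J c x.1.2 ∧
    posJ J (pcr ((run c x.1.1).zz x.2.1) ((run c x.1.2).zz x.2.2)) = true ∧
    posJ J (psub (areaC c) (pmul [(Bc c.n N (p.length - 1) : ℤ)]
      (pcr ((run c x.1.1).zz x.2.1) ((run c x.1.2).zz x.2.2)))) = true

@[fun_prop] private theorem Q9a_aU {α : Type} [Primcodable α] {a : α → (ZP × ZP) × (ZP × ZP)}
    {u : α → ZP × ZP} (ha : Primrec a) (hu : Primrec u) : Primrec fun x => aU (a x) (u x) := by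
  unfold aU
  fun_prop

@[fun_prop] private theorem Q9a_dif {α : Type} [Primcodable α] {a : α → (ZP × ZP) × (ZP × ZP)}
    {N : α → ℕ} {u v : α → ZP × ZP} (ha : Primrec a) (hN : Primrec N) (hu : Primrec u)
    (hv : Primrec v) : Primrec fun x => dif (a x) (N x) (u x) (v x) := by
  unfold dif
  fun_prop

@[fun_prop] private theorem Q9a_nzJ {α : Type} [Primcodable α] {J : α → Jt} {f : α → ZP}
    (hJ : Primrec J) (hf : Primrec f) : Primrec fun x => nzJ (J x) (f x) := by
  unfold nzJ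
  fun_prop

private theorem Q9a_endOK {α : Type} [Primcodable α] {p : α → ZP} {J : α → Jt}
    {a : α → (ZP × ZP) × (ZP × ZP)} {N : α → ℕ} {u : α → ZP × ZP} (hp : Primrec p)
    (hJ : Primrec J) (ha : Primrec a) (hN : Primrec N) (hu : Primrec u) :
    S1 fun x => endOK (p x) (J x) (a x) (N x) (u x) := by
  unfold endOK
  refine S1.or (S1.of_bool (f := fun x => posJ (J x) (dif (a x) (N x) (u x) (u x)))
    (by fun_prop) fun _ => Iff.rfl) (S1.and (S1_EqM hp (by fun_prop)) (S1.and (S1_EqM hp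
    (by fun_prop)) (S1.of_bool (f := fun x => (nzJ (J x) (psub (a x).1.1 [(N x : ℤ)]) ||
      nzJ (J x) (a x).1.2 || nzJ (J x) (a x).2.1 || nzJ (J x) (psub (a x).2.2 [(N x : ℤ)])))
      (by fun_prop) fun _ => Iff.rfl)))

private theorem Q9a_ArcC {α : Type} [Primcodable α] {n : α → ℕ} {p : α → ZP} {J : α → Jt}
    {c : α → Code} {x : α → Arc} {v : α → ZP × ZP} (hn : Primrec n) (hp : Primrec p)
    (hJ : Primrec J) (hc : Primrec c) (hx : Primrec x) (hv : Primrec v) :
    S1 fun a => ArcC (n a) (p a) (J a) (c a) (x a) (v a) := by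
  unfold ArcC
  refine S1.and (S1.of_bool (f := fun a => decide (0 < (x a).2.2.1)) (by fun_prop) fun _ => by
    rw [decide_eq_true_eq]) ?_
  refine S1.and (S1_PathOK hn hJ hc (by fun_prop)) ?_
  refine S1.and (S1_sameTri hc (by fun_prop)) ?_
  refine S1.and (S1_zRel hp (by fun_prop) (by fun_prop) hc (by fun_prop)) ?_
  refine S1.and (S1_EqM hp (by fun_prop)) ?_
  refine S1.and (S1.of_bool (f := fun a => posJ (J a) (pcr (x a).1 (v a))) (by fun_prop)
    fun _ => Iff.rfl) ?_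
  refine S1.and (S1.of_bool (f := fun a => posJ (J a) (dif (x a).2.1 (x a).2.2.1 (x a).1 (v a)))
    (by fun_prop) fun _ => Iff.rfl) ?_
  exact S1.and (Q9a_endOK hp hJ (by fun_prop) (by fun_prop) (by fun_prop))
    (Q9a_endOK hp hJ (by fun_prop) (by fun_prop) hv)

theorem S1_YesC {α : Type} [Primcodable α] {n : α → ℕ} {p : α → ZP} {J : α → Jt} {c : α → Code}
    (hn : Primrec n) (hp : Primrec p) (hJ : Primrec J) (hc : Primrec c) :
    S1 fun a => YesC (n a) (p a) (J a) (c a) := by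
  unfold YesC
  refine S1.exists (p := fun a (l : List Arc) => 0 < l.length ∧ ∀ j < l.length,
    ArcC (n a) (p a) (J a) (c a) (l.getD j default)
      (cond (decide (j + 1 < l.length)) (l.getD (j + 1) default).1 (vneg (l.getD 0 default).1))) ?_
  refine S1.and (S1.of_bool (f := fun x : α × List Arc => decide (0 < x.2.length)) (by fun_prop)
    fun _ => by rw [decide_eq_true_eq]) ?_
  exact S1.bforall (p := fun (x : α × List Arc) j =>
    ArcC (n x.1) (p x.1) (J x.1) (c x.1) (x.2.getD j default)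
      (cond (decide (j + 1 < x.2.length)) (x.2.getD (j + 1) default).1
        (vneg (x.2.getD 0 default).1)))
    (Q9a_ArcC (by fun_prop) (by fun_prop) (by fun_prop) (by fun_prop) (by fun_prop)
      (by fun_prop)) (by fun_prop)

@[fun_prop] private theorem Q9a_fact {α : Type} [Primcodable α] {n : α → ℕ} (hn : Primrec n) :
    Primrec fun a => (n a).factorial := by
  refine (Primrec.nat_rec' (f := n) (g := fun _ => 1) (h := fun _ q => (q.1 + 1) * q.2) hn
    (by fun_prop) (Primrec₂.mk (by fun_prop))).of_eq fun a => ?_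
  induction n a with
  | zero => rfl
  | succ k ih => rw [Nat.factorial_succ, ← ih]

@[fun_prop] private theorem Q9a_Cc {α : Type} [Primcodable α] {n : α → ℕ} (hn : Primrec n) :
    Primrec fun a => Cc (n a) := by
  unfold Cc
  fun_prop

@[fun_prop] private theorem Q9a_Lc {α : Type} [Primcodable α] {n : α → ℕ} (hn : Primrec n) :
    Primrec fun a => Lc (n a) := by
  unfold Lc Lc0
  fun_prop

@[fun_prop] private theorem Q9a_Fc {α : Type} [Primcodable α] {n k : α → ℕ} (hn : Primrec n)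
    (hk : Primrec k) : Primrec fun a => Fc (n a) (k a) := by
  refine (Primrec.nat_rec' (f := k) (g := fun a => 2 * n a * Cc (n a) ^ 2 + 2)
    (h := fun a q => q.2 ^ 2 * Lc (n a)) hk
    (by fun_prop) (Primrec₂.mk (by fun_prop))).of_eq fun a => ?_
  induction k a with
  | zero => rfl
  | succ k ih => rw [Fc, ← ih]

@[fun_prop] private theorem Q9a_Rc {α : Type} [Primcodable α] {n : α → ℕ} (hn : Primrec n) :
    Primrec fun a => Rc (n a) := by
  refine (Primrec.nat_rec' (f := fun a => n a + 1) (g := fun _ => 1)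
    (h := fun a q => q.2 * (2 * Lc (n a) * Fc (n a) q.1)) (by fun_prop)
    (by fun_prop) (Primrec₂.mk (by fun_prop))).of_eq fun a => ?_
  rw [Rc]
  induction n a + 1 with
  | zero => rfl
  | succ k ih => rw [Finset.prod_range_succ, ← ih]

/-- `Bc` is primitive recursive -/
theorem pr_Bc {α : Type} [Primcodable α] {n N k : α → ℕ} (hn : Primrec n) (hN : Primrec N)
    (hk : Primrec k) : Primrec fun a => Bc (n a) (N a) (k a) := by
  unfold Bc
  fun_prop

theorem S1_NoC {α : Type} [Primcodable α] {n N : α → ℕ} {p : α → ZP} {J : α → Jt} {c : α → Code}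
    (hn : Primrec n) (hp : Primrec p) (hJ : Primrec J) (hN : Primrec N) (hc : Primrec c) :
    S1 fun a => NoC (n a) (p a) (J a) (N a) (c a) := by
  unfold NoC
  refine S1.exists (p := fun a (x : (List Mv × List Mv) × (ℕ × ℕ)) =>
    x.2.1 < (c a).n ∧ x.2.2 < (c a).n ∧ PathOK (n a) (J a) (c a) x.1.1 ∧
    PathOK (n a) (J a) (c a) x.1.2 ∧
    posJ (J a) (pcr ((run (c a) x.1.1).zz x.2.1) ((run (c a) x.1.2).zz x.2.2)) = true ∧
    posJ (J a) (psub (areaC (c a)) (pmul [(Bc (c a).n (N a) ((p a).length - 1) : ℤ)]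
      (pcr ((run (c a) x.1.1).zz x.2.1) ((run (c a) x.1.2).zz x.2.2)))) = true) ?_
  have hB : Primrec fun x : α × (List Mv × List Mv) × (ℕ × ℕ) =>
      Bc (c x.1).n (N x.1) ((p x.1).length - 1) :=
    pr_Bc (by fun_prop) (by fun_prop) (by fun_prop)
  have hA : Primrec fun x : α × (List Mv × List Mv) × (ℕ × ℕ) => areaC (c x.1) := by
    unfold areaC
    fun_prop
  refine S1.and (S1.of_bool (f := fun x : α × (List Mv × List Mv) × (ℕ × ℕ) =>
    decide (x.2.2.1 < (c x.1).n)) (by fun_prop) fun _ => by rw [decide_eq_true_eq]) ?_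
  refine S1.and (S1.of_bool (f := fun x : α × (List Mv × List Mv) × (ℕ × ℕ) =>
    decide (x.2.2.2 < (c x.1).n)) (by fun_prop) fun _ => by rw [decide_eq_true_eq]) ?_
  refine S1.and (S1_PathOK (by fun_prop) (by fun_prop) (by fun_prop) (by fun_prop)) ?_
  refine S1.and (S1_PathOK (by fun_prop) (by fun_prop) (by fun_prop) (by fun_prop)) ?_
  refine S1.and (S1.of_bool (f := fun x : α × (List Mv × List Mv) × (ℕ × ℕ) =>
    posJ (J x.1) (pcr ((run (c x.1) x.2.1.1).zz x.2.2.1) ((run (c x.1) x.2.1.2).zz x.2.2.2)))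
    (by fun_prop) fun _ => Iff.rfl) ?_
  exact S1.of_bool (f := fun x : α × (List Mv × List Mv) × (ℕ × ℕ) =>
    posJ (J x.1) (psub (areaC (c x.1)) (pmul [(Bc (c x.1).n (N x.1) ((p x.1).length - 1) : ℤ)]
      (pcr ((run (c x.1) x.2.1.1).zz x.2.2.1) ((run (c x.1) x.2.1.2).zz x.2.2.2)))))
    (by fun_prop) fun _ => Iff.rfl

variable {g : ℕ} {Y : MS g} {t : ℝ} {p : ZP} {J : Jt} {c : Code} {N : ℕ}

end Pool.Veech
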