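import Pool.Agent.Lib.MP_fceebd_gt.Q9a

/-! # Row Q9: codes of certificates -/

set_option autoImplicit false

open Polynomial
open scoped MatrixGroups

namespace Pool.Veech

open RE

variable {g : ℕ} {Y : MS g} {t : ℝ} {p : ZP} {J : Jt} {c : Code} {N : ℕ}

private theorem Q9b_const (t : ℝ) (b : ℤ) : aeval t (toPoly [b]) = (b : ℝ) := by
  simp [toPoly, cf]

private theorem Q9b_z {n : ℕ} {c : Code} {S : Surf (SurfGroup g) (Fin n)} (h : Repr g t c S)
    (d : Fin n) : ev t (c.zz d) = S.z d := by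
  ext j
  fin_cases j
  · exact (h.z0 d).symm
  · exact (h.z1 d).symm

private theorem Q9b_sum (f : ℕ → ℝ) (n : ℕ) :
    ((List.range n).map f).sum = ∑ i : Fin n, f i := by
  rw [← Finset.sum_range]
  induction n with
  | zero => simp
  | succ n ih =>
    rw [List.range_succ, List.map_append, List.sum_append, ih, Finset.sum_range_succ]
    simp

private theorem Q9b_area {n : ℕ} {c : Code} {S : Surf (SurfGroup g) (Fin n)}
    (h : Repr g t c S) : aeval t (toPoly (areaC c)) = area S.tri S.z := by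
  have h1 : aeval t (toPoly (areaC c)) =
      ((List.range c.n).map fun d => cr (ev t (c.zz d)) (ev t (c.zz (c.nx d)))).sum := by
    rw [areaC, toPoly_psum, map_list_sum, List.map_map, List.map_map]
    congr 1
    refine List.map_congr_left fun d _ => ?_
    exact aeval_pcr t _ _
  rw [h1, h.n_eq, area, Q9b_sum]
  refine Finset.sum_congr rfl fun d _ => ?_
  rw [Q9b_z h, h.nx d, Q9b_z h]
  rfl

/-- the matrix of an arc -/
private noncomputable def Q9b_mat (t : ℝ) (a : (ZP × ZP) × (ZP × ZP)) (N : ℕ) :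
    Matrix (Fin 2) (Fin 2) ℝ :=
  !![aeval t (toPoly a.1.1) / N, aeval t (toPoly a.1.2) / N;
    aeval t (toPoly a.2.1) / N, aeval t (toPoly a.2.2) / N]

private theorem Q9b_aU (t : ℝ) (a : (ZP × ZP) × (ZP × ZP)) {N : ℕ} (hN : 0 < N) (u : ZP × ZP) :
    ev t (aU a u) = (N : ℝ) • (Q9b_mat t a N).mulVec (ev t u) := by
  have hN' : (N : ℝ) ≠ 0 := by exact_mod_cast hN.ne'
  ext j
  fin_cases j
  · simp [ev, aU, Q9b_mat, toPoly_padd, toPoly_pmul]
    field_simp
  · simp [ev, aU, Q9b_mat, toPoly_padd, toPoly_pmul]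
    field_simp

private theorem Q9b_dif (t : ℝ) (a : (ZP × ZP) × (ZP × ZP)) {N : ℕ} (hN : 0 < N)
    (u v : ZP × ZP) : aeval t (toPoly (dif a N u v)) =
      (N : ℝ) ^ 2 * (ip (ev t u) (ev t v) - ip ((Q9b_mat t a N).mulVec (ev t u))
        ((Q9b_mat t a N).mulVec (ev t v))) := by
  rw [dif, toPoly_psub, toPoly_pmul, map_sub, map_mul, aeval_pip, aeval_pip, Q9b_const,
    Q9b_aU t a hN, Q9b_aU t a hN]
  simp only [ip, Pi.smul_apply, smul_eq_mul]
  push_cast
  ring

private theorem Q9b_dif_pos {a : (ZP × ZP) × (ZP × ZP)} {N : ℕ} (hN : 0 < N)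
    {u v : ZP × ZP} (ht : |t * J.2 - J.1| ≤ 1) (h : posJ J (dif a N u v) = true) :
    0 < ip (ev t u) (ev t v) - ip ((Q9b_mat t a N).mulVec (ev t u))
        ((Q9b_mat t a N).mulVec (ev t v)) := by
  have h1 := posJ_sound h ht
  rw [Q9b_dif t a hN] at h1
  have h2 : (0 : ℝ) < (N : ℝ) ^ 2 := by positivity
  exact (mul_pos_iff_of_pos_left h2).1 h1

private theorem Q9b_nz {f : ZP} (ht : |t * J.2 - J.1| ≤ 1) (h : nzJ J f = true) :
    aeval t (toPoly f) ≠ 0 := by
  rw [nzJ, Bool.or_eq_true] at h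
  rcases h with h | h
  · exact (posJ_sound h ht).ne'
  · have h1 := posJ_sound h ht
    rw [toPoly_pneg, map_neg] at h1
    intro h3
    rw [h3, neg_zero] at h1
    exact lt_irrefl _ h1

private theorem Q9b_end {a : (ZP × ZP) × (ZP × ZP)} {N : ℕ} (hN : 0 < N) {A : SL(2, ℝ)}
    (hA : A.1 = Q9b_mat t a N) {u : ZP × ZP} (ht : |t * J.2 - J.1| ≤ 1)
    (hr : aeval t (toPoly p) = 0) (h : endOK p J a N u) :
    0 < nq (ev t u) - nq (A.1.mulVec (ev t u)) ∨ (A.1.mulVec (ev t u) = ev t u ∧ A ≠ 1) := by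
  have hN' : (N : ℝ) ≠ 0 := by exact_mod_cast hN.ne'
  rcases h with h | ⟨h1, h2, h3⟩
  · left
    rw [hA]
    exact Q9b_dif_pos hN ht h
  · right
    have e1 := h1.eval hr
    have e2 := h2.eval hr
    rw [toPoly_psub, toPoly_pmul, map_sub, map_mul, Q9b_const] at e1 e2
    have e3 := Q9b_aU t a hN u
    have e4 : aeval t (toPoly (aU a u).1) = (N : ℝ) * (A.1.mulVec (ev t u)) 0 := by
      rw [hA]
      exact congrFun e3 0
    have e5 : aeval t (toPoly (aU a u).2) = (N : ℝ) * (A.1.mulVec (ev t u)) 1 := by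
      rw [hA]
      exact congrFun e3 1
    rw [e4] at e1
    rw [e5] at e2
    refine ⟨?_, ?_⟩
    · ext j
      fin_cases j
      · change (A.1.mulVec (ev t u)) 0 = aeval t (toPoly u.1)
        apply mul_left_cancel₀ hN'
        push_cast at e1
        linarith
      · change (A.1.mulVec (ev t u)) 1 = aeval t (toPoly u.2)
        apply mul_left_cancel₀ hN'
        push_cast at e2
        linarith
    · intro hA1
      have hA2 : Q9b_mat t a N = 1 := by
        rw [← hA, hA1]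
        rfl
      have a00 : aeval t (toPoly a.1.1) = N := by
        have := congrFun (congrFun hA2 0) 0
        simp [Q9b_mat] at this
        field_simp at this
        exact this
      have a01 : aeval t (toPoly a.1.2) = 0 := by
        have := congrFun (congrFun hA2 0) 1
        simp only [Q9b_mat, Matrix.of_apply, Matrix.cons_val', Matrix.cons_val_zero,
          Matrix.cons_val_one, Matrix.cons_val_fin_one, Matrix.one_apply, if_false, div_eq_zero_iff,
          hN', or_false, Fin.isValue, zero_ne_one, one_ne_zero] at this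
        exact this
      have a10 : aeval t (toPoly a.2.1) = 0 := by
        have := congrFun (congrFun hA2 1) 0
        simp only [Q9b_mat, Matrix.of_apply, Matrix.cons_val', Matrix.cons_val_zero,
          Matrix.cons_val_one, Matrix.cons_val_fin_one, Matrix.one_apply, if_false, div_eq_zero_iff,
          hN', or_false, Fin.isValue, zero_ne_one, one_ne_zero] at this
        exact this
      have a11 : aeval t (toPoly a.2.2) = N := by
        have := congrFun (congrFun hA2 1) 1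
        simp [Q9b_mat] at this
        field_simp at this
        exact this
      simp only [Bool.or_eq_true] at h3
      rcases h3 with ((h3 | h3) | h3) | h3
      · apply Q9b_nz ht h3
        rw [toPoly_psub, map_sub, Q9b_const, a00]
        push_cast
        ring
      · exact Q9b_nz ht h3 a01
      · exact Q9b_nz ht h3 a10
      · apply Q9b_nz ht h3
        rw [toPoly_psub, map_sub, Q9b_const, a11]
        push_cast
        ring

private theorem Q9b_arc (h : Repr g t c Y.S) (ht : |t * J.2 - J.1| ≤ 1)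
    (hr : aeval t (toPoly p) = 0) {x : Arc} {v : ZP × ZP} (hx : ArcC g p J c x v) :
    ∃ A : SL(2, ℝ), A ∈ aff Y.S.tri Y.S.z Y.S.geo ∧ ArcOK A (ev t x.1) (ev t v) := by
  obtain ⟨hN, hpath, htri, hz, hdet, hcr, hdif, he1, he2⟩ := hx
  have hN' : (x.2.2.1 : ℝ) ≠ 0 := by exact_mod_cast hN.ne'
  obtain ⟨S', m, hS', hL⟩ := h.path ht hpath
  have hdet' := hdet.eval hr
  rw [toPoly_psub, toPoly_psub, toPoly_pmul, toPoly_pmul, map_sub, map_sub, map_mul, map_mul,
    Q9b_const] at hdet'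
  push_cast at hdet'
  have hdet2 : (Q9b_mat t x.2.1 x.2.2.1).det = 1 := by
    rw [Matrix.det_fin_two]
    simp only [Q9b_mat, Matrix.of_apply, Matrix.cons_val', Matrix.cons_val_zero,
      Matrix.cons_val_one, Matrix.cons_val_fin_one]
    field_simp
    linarith
  refine ⟨(⟨Q9b_mat t x.2.1 x.2.2.1, hdet2⟩ : SL(2, ℝ)), ?_, ?_, ?_, ?_, ?_⟩
  · refine (mem_aff Y.S.geo _).2 ⟨m, ?_, ?_⟩
    · have h1 := hL.gpath
      rw [← (sameTri_iff h hS').1 htri] at h1
      exact h1
    · rw [← hL.z_eq]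
      funext d
      obtain ⟨h1, h2⟩ := zRel_sound h hS' hr hz d
      rw [Q9b_const] at h1 h2
      push_cast at h1 h2
      ext j
      fin_cases j
      · change S'.z d 0 = ((Q9b_mat t x.2.1 x.2.2.1).mulVec (Y.S.z d)) 0
        simp only [Q9b_mat, Matrix.mulVec, dotProduct, Fin.sum_univ_two, Matrix.of_apply,
          Matrix.cons_val', Matrix.cons_val_zero, Matrix.cons_val_one, Matrix.cons_val_fin_one]
        field_simp
        linarith
      · change S'.z d 1 = ((Q9b_mat t x.2.1 x.2.2.1).mulVec (Y.S.z d)) 1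
        simp only [Q9b_mat, Matrix.mulVec, dotProduct, Fin.sum_univ_two, Matrix.of_apply,
          Matrix.cons_val', Matrix.cons_val_zero, Matrix.cons_val_one, Matrix.cons_val_fin_one]
        field_simp
        linarith
  · have h1 := posJ_sound hcr ht
    rwa [aeval_pcr] at h1
  · exact Q9b_dif_pos hN ht hdif
  · exact Q9b_end hN rfl ht hr he1
  · exact Q9b_end hN rfl ht hr he2

theorem YesC.sound (h : Repr g t c Y.S) (ht : |t * J.2 - J.1| ≤ 1)
    (hr : aeval t (toPoly p) = 0) (hy : YesC g p J c) : Cert (aff Y.S.tri Y.S.z Y.S.geo) := by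
  obtain ⟨l, hl, hl2⟩ := hy
  have h1 : ∀ j, ∃ A : SL(2, ℝ), j < l.length → A ∈ aff Y.S.tri Y.S.z Y.S.geo ∧
      ArcOK A (ev t (l.getD j default).1) (ev t (cond (decide (j + 1 < l.length))
        (l.getD (j + 1) default).1 (vneg (l.getD 0 default).1))) := by
    intro j
    by_cases hj : j < l.length
    · obtain ⟨A, hA⟩ := Q9b_arc h ht hr (hl2 j hj)
      exact ⟨A, fun _ => hA⟩
    · exact ⟨1, fun h => absurd h hj⟩
  choose A hA using h1
  refine ⟨l.length, fun j => if j < l.length then ev t (l.getD j default).1 else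
    -ev t (l.getD 0 default).1, A, hl, ?_, ?_⟩
  · simp only [lt_irrefl, if_false, if_pos hl]
  · intro j hj
    obtain ⟨h2, h3⟩ := hA j hj
    refine ⟨h2, ?_⟩
    beta_reduce
    rw [if_pos hj]
    by_cases hj1 : j + 1 < l.length
    · rw [decide_eq_true hj1] at h3
      rw [if_pos hj1]
      exact h3
    · rw [decide_eq_false hj1] at h3
      rw [if_neg hj1, ← ev_vneg]
      exact h3

/-- the difference in the certificate for NO -/
private theorem Q9b_no {n : ℕ} {S : Surf (SurfGroup g) (Fin n)} (h : Repr g t c S) (B : ℕ)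
    (u v : ZP × ZP) : aeval t (toPoly (psub (areaC c) (pmul [(B : ℤ)] (pcr u v)))) =
      area S.tri S.z - B * cr (ev t u) (ev t v) := by
  rw [toPoly_psub, toPoly_pmul, map_sub, map_mul, Q9b_area h, Q9b_const, aeval_pcr]
  push_cast
  ring

private theorem Q9b_edge {S S' : Surf (SurfGroup g) (Fin Y.n)} {m : Matrix (Fin Y.n) (Fin Y.n) ℤ}
    (hL : LPath S S' m) (d : Fin Y.n) : S'.z d ∈ edges S.tri S.z :=
  ⟨S'.tri, m, d, hL.gpath, by rw [hL.z_eq]⟩

theorem NoC.sound (h : Repr g t c Y.S) (ht : |t * J.2 - J.1| ≤ 1)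
    (hy : NoC g p J N c) :
    ¬ NSVT Y.S.tri Y.S.z (area Y.S.tri Y.S.z / Bc Y.n N (p.length - 1)) := by
  obtain ⟨x, hx1, hx2, hp1, hp2, hc1, hc2⟩ := hy
  obtain ⟨S1, m1, hS1, hL1⟩ := h.path ht hp1
  obtain ⟨S2, m2, hS2, hL2⟩ := h.path ht hp2
  have h1 := posJ_sound hc1 ht
  have h2 := posJ_sound hc2 ht
  rw [aeval_pcr] at h1
  rw [Q9b_no h] at h2
  rw [h.n_eq] at hx1 hx2 h2
  have e1 := Q9b_z hS1 ⟨x.2.1, hx1⟩
  have e2 := Q9b_z hS2 ⟨x.2.2, hx2⟩
  simp only at e1 e2
  rw [e1, e2] at h1 h2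
  intro hN
  have hB : (0 : ℝ) < Bc Y.n N (p.length - 1) := by
    rw [Bc]
    positivity
  rcases hN _ (Q9b_edge hL1 ⟨x.2.1, hx1⟩) _ (Q9b_edge hL2 ⟨x.2.2, hx2⟩) with h3 | h3
  · rw [h3] at h1
    exact lt_irrefl _ h1
  · rw [abs_of_pos h1, div_le_iff₀ hB] at h3
    linarith

theorem NoC.complete (h : Repr g t c Y.S)
    (hy : ¬ NSVT Y.S.tri Y.S.z (area Y.S.tri Y.S.z / Bc Y.n N (p.length - 1))) :
    ∃ ε : ℝ, 0 < ε ∧ ∀ J, Good t ε J → NoC g p J N c := by
  have hB : (0 : ℝ) < Bc Y.n N (p.length - 1) := by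
    rw [Bc]
    positivity
  obtain ⟨v, hv, e, he, hpos, hlt⟩ : ∃ v ∈ edges Y.S.tri Y.S.z, ∃ e ∈ edges Y.S.tri Y.S.z,
      0 < cr v e ∧ cr v e < area Y.S.tri Y.S.z / Bc Y.n N (p.length - 1) := by
    rw [NSVT] at hy
    push Not at hy
    obtain ⟨v, hv, e, he, h1, h2⟩ := hy
    rcases lt_or_gt_of_ne h1 with h3 | h3
    · refine ⟨e, he, v, hv, ?_, ?_⟩
      · have h4 : cr e v = -cr v e := by
          simp only [cr]
          ring
        rw [h4]
        linarith
      · have h4 : cr e v = -cr v e := by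
          simp only [cr]
          ring
        rw [h4, ← abs_of_neg h3]
        exact h2
    · refine ⟨v, hv, e, he, h3, ?_⟩
      rwa [abs_of_pos h3] at h2
  obtain ⟨T1, m1, d1, hp1, rfl⟩ := hv
  obtain ⟨T2, m2, d2, hp2, rfl⟩ := he
  obtain ⟨S1, -, hz1, hL1⟩ := GPath.lift Y.S hp1
  obtain ⟨S2, -, hz2, hL2⟩ := GPath.lift Y.S hp2
  obtain ⟨l1, hR1, ε1, hε1, hk1⟩ := h.exists_moves hL1
  obtain ⟨l2, hR2, ε2, hε2, hk2⟩ := h.exists_moves hL2
  rw [← hz1, ← hz2, ← Q9b_z hR1, ← Q9b_z hR2] at hpos hlt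
  obtain ⟨ε3, hε3, hk3⟩ := posJ_complete
    (f := pcr ((run c l1).zz (d1 : ℕ)) ((run c l2).zz (d2 : ℕ))) (t := t)
    (by rw [aeval_pcr]; exact hpos)
  obtain ⟨ε4, hε4, hk4⟩ := posJ_complete
    (f := psub (areaC c) (pmul [(Bc c.n N (p.length - 1) : ℤ)]
      (pcr ((run c l1).zz (d1 : ℕ)) ((run c l2).zz (d2 : ℕ))))) (t := t)
    (by
      rw [Q9b_no h, h.n_eq]
      rw [lt_div_iff₀ hB] at hlt
      linarith)
  refine ⟨min (min ε1 ε2) (min ε3 ε4), by positivity, fun J hJ => ?_⟩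
  refine ⟨((l1, l2), ((d1 : ℕ), (d2 : ℕ))), ?_, ?_, hk1 J (hJ.mono ?_), hk2 J (hJ.mono ?_),
    hk3 J (hJ.mono ?_), hk4 J (hJ.mono ?_)⟩
  · rw [h.n_eq]
    exact d1.2
  · rw [h.n_eq]
    exact d2.2
  · exact (min_le_left _ _).trans (min_le_left _ _)
  · exact (min_le_left _ _).trans (min_le_right _ _)
  · exact (min_le_right _ _).trans (min_le_left _ _)
  · exact (min_le_right _ _).trans (min_le_right _ _)

end Pool.Veech
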