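import Pool.Agent.Lib.MP_fceebd_gt.Q9a

/-! # Row Q9: codes of certificates -/

set_option autoImplicit false

open Polynomial
open scoped MatrixGroups

namespace Pool.Veech

open RE

variable {g : ℕ} {Y : MS g} {t : ℝ} {p : ZP} {J : Jt} {c : Code} {N : ℕ}

/-- for all sufficiently small intervals around `t` -/
private def Evt (t : ℝ) (P : Jt → Prop) : Prop := ∃ ε : ℝ, 0 < ε ∧ ∀ J, Good t ε J → P J

private theorem Evt.and {P Q : Jt → Prop} (hP : Evt t P) (hQ : Evt t Q) :
    Evt t fun J => P J ∧ Q J := by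
  obtain ⟨ε, h0, h⟩ := hP
  obtain ⟨ε', h0', h'⟩ := hQ
  exact ⟨min ε ε', lt_min h0 h0', fun J hJ =>
    ⟨h J (hJ.mono (min_le_left _ _)), h' J (hJ.mono (min_le_right _ _))⟩⟩

private theorem Evt.of {P : Jt → Prop} (h : ∀ J, P J) : Evt t P := ⟨1, one_pos, fun J _ => h J⟩

private theorem Evt.mono {P Q : Jt → Prop} (h : Evt t P) (hPQ : ∀ J, P J → Q J) : Evt t Q := by
  obtain ⟨ε, h0, h⟩ := h
  exact ⟨ε, h0, fun J hJ => hPQ J (h J hJ)⟩

private theorem Evt.all {P : ℕ → Jt → Prop} {k : ℕ} (h : ∀ j < k, Evt t (P j)) :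
    Evt t fun J => ∀ j < k, P j J := by
  induction k with
  | zero => exact Evt.of fun J j hj => absurd hj (Nat.not_lt_zero j)
  | succ k ih =>
    refine ((ih fun j hj => h j (Nat.lt_succ_of_lt hj)).and (h k (Nat.lt_succ_self k))).mono ?_
    rintro J ⟨h1, h2⟩ j hj
    rcases Nat.lt_succ_iff_lt_or_eq.1 hj with hj | rfl
    · exact h1 j hj
    · exact h2

private theorem Evt.pos {f : ZP} (h : 0 < aeval t (toPoly f)) :
    Evt t fun J => posJ J f = true := posJ_complete h

private theorem ev_singleton (z : ℤ) : aeval t (toPoly [z]) = (z : ℝ) := by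
  simp [toPoly, cf]

private theorem Evt.nz {f : ZP} (h : aeval t (toPoly f) ≠ 0) :
    Evt t fun J => nzJ J f = true := by
  rcases lt_or_gt_of_ne h with h | h
  · have h' : 0 < aeval t (toPoly (pneg f)) := by
      rw [toPoly_pneg, map_neg]
      linarith
    exact (Evt.pos h').mono fun J hJ => by simp [nzJ, hJ]
  · exact (Evt.pos h).mono fun J hJ => by simp [nzJ, hJ]

private theorem exists_den (ht : IsIntegral ℤ t) {δ : ℝ} {D : ℤ[X]} (hD : δ = aeval t D)
    (h0 : δ ≠ 0) : ∃ (N : ℕ) (q : ZP), 0 < N ∧ δ * aeval t (toPoly q) = N := by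
  have hint : IsIntegral ℤ δ := by
    rw [hD]
    have h1 : aeval t D ∈ Algebra.adjoin ℤ {t} := by
      rw [Algebra.adjoin_singleton_eq_range_aeval]
      exact ⟨D, rfl⟩
    exact IsIntegral.of_mem_of_fg (Algebra.adjoin ℤ {t}) ht.fg_adjoin_singleton _ h1
  obtain ⟨f, hf0, hf⟩ := hint.isAlgebraic.exists_nonzero_coeff_and_aeval_eq_zero
    (mem_nonZeroDivisors_of_ne_zero h0)
  have h1 : δ * aeval δ f.divX = -(f.coeff 0 : ℝ) := by
    have h2 : aeval δ (f.divX * X + C (f.coeff 0)) = 0 := by
      rw [divX_mul_X_add]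
      exact hf
    rw [map_add, map_mul, aeval_X, aeval_C] at h2
    have h3 : (algebraMap ℤ ℝ) (f.coeff 0) = (f.coeff 0 : ℝ) := rfl
    rw [h3] at h2
    linarith
  have h4 : aeval δ f.divX = aeval t (f.divX.comp D) := by
    rw [aeval_comp, ← hD]
  rcases lt_or_gt_of_ne hf0 with hneg | hpos
  · obtain ⟨q, hq⟩ := toPoly_surj (f.divX.comp D)
    refine ⟨(-(f.coeff 0)).toNat, q, by omega, ?_⟩
    rw [hq, ← h4, h1]
    have : (((-(f.coeff 0)).toNat : ℤ) : ℝ) = ((-(f.coeff 0) : ℤ) : ℝ) := by
      rw [Int.toNat_of_nonneg (by omega)]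
    push_cast at this
    exact this.symm
  · obtain ⟨q, hq⟩ := toPoly_surj (-(f.divX.comp D))
    refine ⟨(f.coeff 0).toNat, q, by omega, ?_⟩
    rw [hq, map_neg, ← h4, mul_neg, h1, neg_neg]
    have : (((f.coeff 0).toNat : ℤ) : ℝ) = ((f.coeff 0 : ℤ) : ℝ) := by
      rw [Int.toNat_of_nonneg (by omega)]
    push_cast at this
    exact this.symm

private theorem arc_complete (h : Repr g t c Y.S) (hp : toPoly p = minpoly ℤ t)
    (ht : IsIntegral ℤ t) {U V : ZP × ZP} {A : SL(2, ℝ)} (hA : A ∈ aff Y.S.tri Y.S.z Y.S.geo)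
    (hok : ArcOK A (ev t U) (ev t V)) :
    ∃ x : Arc, x.1 = U ∧ Evt t fun J => ArcC g p J c x V := by
  obtain ⟨m, hm, hmz⟩ := hA
  obtain ⟨S', hS't, hS'z, hlp⟩ := GPath.lift Y.S hm
  obtain ⟨l, hl, hl2⟩ := h.exists_moves hlp
  have hz' : ∀ d, S'.z d = A.1.mulVec (Y.S.z d) := fun d => by rw [hS'z, hmz]; rfl
  -- the matrix
  let d0 : Fin Y.n := ⟨0, Y.pos⟩
  let u := c.zz d0
  let v := c.zz (Y.S.nxt d0 : Fin Y.n)
  let x := (run c l).zz d0
  let y := (run c l).zz (Y.S.nxt d0 : Fin Y.n)
  have hu0 := h.z0 d0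
  have hu1 := h.z1 d0
  have hv0 := h.z0 (Y.S.nxt d0)
  have hv1 := h.z1 (Y.S.nxt d0)
  have hx0 := hl.z0 d0
  have hx1 := hl.z1 d0
  have hy0 := hl.z0 (Y.S.nxt d0)
  have hy1 := hl.z1 (Y.S.nxt d0)
  have hpos := Y.S.pos d0
  rw [cr, hu0, hu1, hv0, hv1] at hpos
  rw [hz'] at hx0 hx1 hy0 hy1
  simp only [Matrix.mulVec, dotProduct, Fin.sum_univ_two] at hx0 hx1 hy0 hy1
  rw [hu0, hu1] at hx0 hx1
  rw [hv0, hv1] at hy0 hy1
  obtain ⟨N, q, hN, hq⟩ := exists_den ht (D := toPoly u.1 * toPoly v.2 - toPoly u.2 * toPoly v.1)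
    (δ := aeval t (toPoly u.1) * aeval t (toPoly v.2) -
      aeval t (toPoly u.2) * aeval t (toPoly v.1))
    (by rw [map_sub, map_mul, map_mul]) hpos.ne'
  let a : (ZP × ZP) × (ZP × ZP) :=
    ((pmul q (psub (pmul x.1 v.2) (pmul y.1 u.2)), pmul q (psub (pmul y.1 u.1) (pmul x.1 v.1))),
      (pmul q (psub (pmul x.2 v.2) (pmul y.2 u.2)), pmul q (psub (pmul y.2 u.1) (pmul x.2 v.1))))
  have ha00 : aeval t (toPoly a.1.1) = N * A.1 0 0 := by
    change aeval t (toPoly (pmul q (psub (pmul x.1 v.2) (pmul y.1 u.2)))) = _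
    simp only [toPoly_pmul, toPoly_psub, map_mul, map_sub]
    rw [← hq]
    linear_combination (-aeval t (toPoly q) * aeval t (toPoly v.2)) * hx0 +
      (aeval t (toPoly q) * aeval t (toPoly u.2)) * hy0
  have ha01 : aeval t (toPoly a.1.2) = N * A.1 0 1 := by
    change aeval t (toPoly (pmul q (psub (pmul y.1 u.1) (pmul x.1 v.1)))) = _
    simp only [toPoly_pmul, toPoly_psub, map_mul, map_sub]
    rw [← hq]
    linear_combination (aeval t (toPoly q) * aeval t (toPoly v.1)) * hx0 -
      (aeval t (toPoly q) * aeval t (toPoly u.1)) * hy0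
  have ha10 : aeval t (toPoly a.2.1) = N * A.1 1 0 := by
    change aeval t (toPoly (pmul q (psub (pmul x.2 v.2) (pmul y.2 u.2)))) = _
    simp only [toPoly_pmul, toPoly_psub, map_mul, map_sub]
    rw [← hq]
    linear_combination (-aeval t (toPoly q) * aeval t (toPoly v.2)) * hx1 +
      (aeval t (toPoly q) * aeval t (toPoly u.2)) * hy1
  have ha11 : aeval t (toPoly a.2.2) = N * A.1 1 1 := by
    change aeval t (toPoly (pmul q (psub (pmul y.2 u.1) (pmul x.2 v.1)))) = _
    simp only [toPoly_pmul, toPoly_psub, map_mul, map_sub]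
    rw [← hq]
    linear_combination (aeval t (toPoly q) * aeval t (toPoly v.1)) * hx1 -
      (aeval t (toPoly q) * aeval t (toPoly u.1)) * hy1
  have hNr : (0 : ℝ) < N := by exact_mod_cast hN
  have hdet : A.1 0 0 * A.1 1 1 - A.1 0 1 * A.1 1 0 = 1 := by
    rw [← Matrix.det_fin_two]
    exact A.2
  have haU : ∀ w : ZP × ZP, aeval t (toPoly (aU a w).1) = N * A.1.mulVec (ev t w) 0 ∧
      aeval t (toPoly (aU a w).2) = N * A.1.mulVec (ev t w) 1 := by
    intro w
    constructor
    · simp only [aU, toPoly_padd, toPoly_pmul, map_add, map_mul, ha00, ha01, Matrix.mulVec,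
        dotProduct, Fin.sum_univ_two, ev, Matrix.cons_val_zero, Matrix.cons_val_one]
      ring
    · simp only [aU, toPoly_padd, toPoly_pmul, map_add, map_mul, ha10, ha11, Matrix.mulVec,
        dotProduct, Fin.sum_univ_two, ev, Matrix.cons_val_zero, Matrix.cons_val_one]
      ring
  have hdif : ∀ w w' : ZP × ZP, aeval t (toPoly (dif a N w w')) =
      (N : ℝ) * N * (ip (ev t w) (ev t w') -
        ip (A.1.mulVec (ev t w)) (A.1.mulVec (ev t w'))) := by
    intro w w'
    simp only [dif, pip, toPoly_psub, toPoly_pmul, toPoly_padd, map_sub, map_mul, map_add,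
      ev_singleton, (haU w).1, (haU w).2, (haU w').1, (haU w').2]
    simp only [ip, ev, Matrix.cons_val_zero, Matrix.cons_val_one]
    push_cast
    ring
  have hend : ∀ w : ZP × ZP, (0 < nq (ev t w) - nq (A.1.mulVec (ev t w)) ∨
      (A.1.mulVec (ev t w) = ev t w ∧ A ≠ 1)) → Evt t fun J => endOK p J a N w := by
    rintro w (hw | ⟨hw, hA1⟩)
    · have h1 : 0 < aeval t (toPoly (dif a N w w)) := by
        rw [hdif]
        exact mul_pos (mul_pos hNr hNr) hw
      exact (Evt.pos h1).mono fun J hJ => Or.inl hJ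
    · have hw0 := congrFun hw 0
      have hw1 := congrFun hw 1
      have h1 : EqM p (psub (aU a w).1 (pmul [(N : ℤ)] w.1)) := by
        refine EqM.of_eval ht hp ?_
        rw [toPoly_psub, toPoly_pmul, map_sub, map_mul, ev_singleton, (haU w).1, hw0]
        simp [ev]
      have h2 : EqM p (psub (aU a w).2 (pmul [(N : ℤ)] w.2)) := by
        refine EqM.of_eval ht hp ?_
        rw [toPoly_psub, toPoly_pmul, map_sub, map_mul, ev_singleton, (haU w).2, hw1]
        simp [ev]
      have h3 : Evt t fun J => (nzJ J (psub a.1.1 [(N : ℤ)]) || nzJ J a.1.2 || nzJ J a.2.1 ||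
          nzJ J (psub a.2.2 [(N : ℤ)])) = true := by
        by_cases e00 : A.1 0 0 = 1
        · by_cases e01 : A.1 0 1 = 0
          · by_cases e10 : A.1 1 0 = 0
            · have e11 : A.1 1 1 ≠ 1 := by
                intro e11
                apply hA1
                ext i j
                fin_cases i <;> fin_cases j
                · exact e00
                · exact e01
                · exact e10
                · exact e11
              have h4 : aeval t (toPoly (psub a.2.2 [(N : ℤ)])) ≠ 0 := by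
                rw [toPoly_psub, map_sub, ha11, ev_singleton]
                intro h5
                apply e11
                have h6 : (N : ℝ) * (A.1 1 1 - 1) = 0 := by
                  push_cast at h5
                  linarith
                rcases mul_eq_zero.1 h6 with h6 | h6
                · exact absurd h6 hNr.ne'
                · linarith
              exact (Evt.nz h4).mono fun J hJ => by simp [hJ]
            · have h4 : aeval t (toPoly a.2.1) ≠ 0 := by
                rw [ha10]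
                exact mul_ne_zero hNr.ne' e10
              exact (Evt.nz h4).mono fun J hJ => by simp [hJ]
          · have h4 : aeval t (toPoly a.1.2) ≠ 0 := by
              rw [ha01]
              exact mul_ne_zero hNr.ne' e01
            exact (Evt.nz h4).mono fun J hJ => by simp [hJ]
        · have h4 : aeval t (toPoly (psub a.1.1 [(N : ℤ)])) ≠ 0 := by
            rw [toPoly_psub, map_sub, ha00, ev_singleton]
            intro h5
            apply e00
            have h6 : (N : ℝ) * (A.1 0 0 - 1) = 0 := by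
              push_cast at h5
              linarith
            rcases mul_eq_zero.1 h6 with h6 | h6
            · exact absurd h6 hNr.ne'
            · linarith
          exact (Evt.nz h4).mono fun J hJ => by simp [hJ]
      exact h3.mono fun J hJ => Or.inr ⟨h1, h2, hJ⟩
  obtain ⟨hok1, hok2, hok3, hok4⟩ := hok
  refine ⟨(U, a, N, l), rfl, ?_⟩
  have hpath : Evt t fun J => PathOK g J c l := hl2
  have hcr : Evt t fun J => posJ J (pcr U V) = true :=
    Evt.pos (by rw [aeval_pcr]; exact hok1)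
  have hdf : Evt t fun J => posJ J (dif a N U V) = true :=
    Evt.pos (by rw [hdif]; exact mul_pos (mul_pos hNr hNr) hok2)
  have hst : sameTri c (run c l) = true := (sameTri_iff h hl).2 hS't.symm
  have hzr : zRel p a [(N : ℤ)] c (run c l) := by
    refine zRel_complete h hl hp ht fun d => ?_
    rw [ha00, ha01, ha10, ha11, ev_singleton, hz' d]
    simp only [Matrix.mulVec, dotProduct, Fin.sum_univ_two]
    push_cast
    constructor <;> ring
  have hdt : EqM p (psub (psub (pmul a.1.1 a.2.2) (pmul a.1.2 a.2.1))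
      [((N * N : ℕ) : ℤ)]) := by
    refine EqM.of_eval ht hp ?_
    simp only [toPoly_psub, toPoly_pmul, map_sub, map_mul, ha00, ha01, ha10, ha11, ev_singleton]
    push_cast
    linear_combination ((N : ℝ) * N) * hdet
  refine ((((hpath.and hcr).and hdf).and (hend U hok3)).and (hend V hok4)).mono ?_
  rintro J ⟨⟨⟨⟨g1, g2⟩, g3⟩, g4⟩, g5⟩
  exact ⟨hN, g1, hst, hzr, hdt, g2, g3, g4, g5⟩

theorem YesC.complete (h : Repr g t c Y.S) (hp : toPoly p = minpoly ℤ t) (ht : IsIntegral ℤ t)
    (hy : ∃ (k : ℕ) (u : ℕ → Vec) (A : ℕ → SL(2, ℝ)), 0 < k ∧ u k = -u 0 ∧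
      (∀ j ≤ k, u j ∈ goodVec t) ∧
      ∀ j < k, A j ∈ aff Y.S.tri Y.S.z Y.S.geo ∧ ArcOK (A j) (u j) (u (j + 1))) :
    ∃ ε : ℝ, 0 < ε ∧ ∀ J, Good t ε J → YesC g p J c := by
  obtain ⟨k, u, A, hk, huk, hgood, hA⟩ := hy
  have hU : ∀ j, ∃ U : ZP × ZP, j ≤ k → ev t U = u j := by
    intro j
    by_cases hj : j ≤ k
    · obtain ⟨q0, hq0⟩ := hgood j hj 0
      obtain ⟨q1, hq1⟩ := hgood j hj 1
      obtain ⟨f0, hf0⟩ := toPoly_surj q0
      obtain ⟨f1, hf1⟩ := toPoly_surj q1
      refine ⟨(f0, f1), fun _ => ?_⟩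
      ext i
      fin_cases i
      · simp [ev, hf0, hq0]
      · simp [ev, hf1, hq1]
    · exact ⟨([], []), fun h => absurd h hj⟩
  choose U hU using hU
  let V : ℕ → ZP × ZP := fun j => cond (decide (j + 1 < k)) (U (j + 1)) (vneg (U 0))
  have hV : ∀ j < k, ev t (V j) = u (j + 1) := by
    intro j hj
    by_cases hj1 : j + 1 < k
    · have : V j = U (j + 1) := by simp [V, hj1]
      rw [this, hU _ hj1.le]
    · have : V j = vneg (U 0) := by simp [V, hj1]
      have hjk : j + 1 = k := by omega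
      rw [this, ev_vneg, hU 0 (Nat.zero_le k), hjk, huk]
  have hX : ∀ j, ∃ x : Arc, j < k → (x.1 = U j ∧ Evt t fun J => ArcC g p J c x (V j)) := by
    intro j
    by_cases hj : j < k
    · obtain ⟨hA1, hA2⟩ := hA j hj
      rw [← hU j hj.le, ← hV j hj] at hA2
      obtain ⟨x, hx⟩ := arc_complete h hp ht hA1 hA2
      exact ⟨x, fun _ => hx⟩
    · exact ⟨default, fun h => absurd h hj⟩
  choose X hX using hX
  have hall : Evt t fun J => ∀ j < k, ArcC g p J c (X j) (V j) :=
    Evt.all fun j hj => (hX j hj).2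
  refine hall.mono fun J hJ => ⟨(List.range k).map X, by simpa using hk, ?_⟩
  intro j hj
  have hj' : j < k := by simpa using hj
  have hget : ∀ i < k, ((List.range k).map X).getD i default = X i := by
    intro i hi
    simp [List.getD, hi]
  have hlen : ((List.range k).map X).length = k := by simp
  rw [hget j hj', hlen]
  have hVj : (cond (decide (j + 1 < k)) (((List.range k).map X).getD (j + 1) default).1
      (vneg (((List.range k).map X).getD 0 default).1)) = V j := by
    rw [hget 0 hk, (hX 0 hk).1]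
    by_cases hj1 : j + 1 < k
    · rw [hget _ hj1, (hX _ hj1).1]
    · simp [V, hj1]
  rw [hVj]
  exact hJ j hj'

end Pool.Veech
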