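import Pool.Agent.Lib.MP_fceebd_gt.Q8b
import Pool.Agent.Lib.MP_fceebd_gt.Q8c
import Pool.Agent.Lib.MP_fceebd_gt.Q9b
import Pool.Agent.Lib.MP_fceebd_gt.Q9c

/-! # Row QF: the final theorem -/

set_option autoImplicit false

open Polynomial

namespace Pool.Veech

open RE

/-- two disjoint semi-decidable predicates give a partial recursive function -/
theorem exists_partrec {α : Type} [Primcodable α] {P Q : α → Prop} (hP : S1 P) (hQ : S1 Q) :
    ∃ F : α →. Bool, Partrec F ∧ ∀ a, (P a ∧ ¬ Q a → F a = Part.some true) ∧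
      (Q a ∧ ¬ P a → F a = Part.some false) := by
  obtain ⟨f, hf, hfP⟩ := hP
  obtain ⟨g, hg, hgQ⟩ := hQ
  have h1 : Partrec fun a => Nat.rfind fun n => Part.some (f (a, n) || g (a, n)) :=
    Partrec.rfind (Computable.to₂ (f := fun x : α × ℕ => (f x || g x))
      (Primrec.or.comp hf hg).to_comp).partrec₂
  refine ⟨_, Partrec.map h1 (Computable.to₂ (f := fun x : α × ℕ => f x) hf.to_comp), fun a => ?_⟩
  have key : ∀ b : Bool, (∃ n, (f (a, n) || g (a, n)) = true) →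
      (∀ n, (f (a, n) || g (a, n)) = true → f (a, n) = b) →
      (Part.map (fun n => f (a, n)) (Nat.rfind fun n => Part.some (f (a, n) || g (a, n)))) =
        Part.some b := by
    rintro b ⟨n, hn⟩ hb
    have hdom : (Nat.rfind fun n => Part.some (f (a, n) || g (a, n))).Dom := by
      refine Nat.rfind_dom.2 ⟨n, ?_, fun _ => trivial⟩
      exact Part.mem_some_iff.2 hn.symm
    obtain ⟨m, hm⟩ := Part.dom_iff_mem.1 hdom
    have hm1 := Nat.rfind_spec hm
    have hm2 : (f (a, m) || g (a, m)) = true := by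
      have := Part.mem_some_iff.1 hm1
      exact this.symm
    rw [Part.eq_some_iff]
    rw [Part.mem_map_iff]
    exact ⟨m, hm, hb m hm2⟩
  constructor
  · rintro ⟨hp, hq⟩
    obtain ⟨n, hn⟩ := (hfP a).1 hp
    refine key true ⟨n, by rw [hn]; rfl⟩ fun k hk => ?_
    cases hfk : f (a, k)
    · rw [hfk, Bool.false_or] at hk
      exact absurd ((hgQ a).2 ⟨k, hk⟩) hq
    · rfl
  · rintro ⟨hq, hp⟩
    obtain ⟨n, hn⟩ := (hgQ a).1 hq
    refine key false ⟨n, by rw [hn, Bool.or_true]⟩ fun k _ => ?_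
    cases hfk : f (a, k)
    · rfl
    · exact absurd ((hfP a).2 ⟨k, hfk⟩) hp

/-- the input gives YES -/
def Yes (x : ℕ × List (List Wd)) : Prop :=
  ∃ D : Dt, ValidD x.1 x.2 D ∧ YesC x.1 D.1.1 D.1.2.1 D.2.1

/-- the input gives NO -/
def No (x : ℕ × List (List Wd)) : Prop :=
  ∃ D : Dt, ValidD x.1 x.2 D ∧ NoC x.1 D.1.1 D.1.2.1 D.1.2.2.2 D.2.1

theorem S1_Yes : S1 Yes :=
  S1.exists (p := fun (x : ℕ × List (List Wd)) (D : Dt) =>
      ValidD x.1 x.2 D ∧ YesC x.1 D.1.1 D.1.2.1 D.2.1)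
    (S1.and (S1_ValidD (by fun_prop) (by fun_prop) (by fun_prop))
      (S1_YesC (by fun_prop) (by fun_prop) (by fun_prop) (by fun_prop)))

theorem S1_No : S1 No :=
  S1.exists (p := fun (x : ℕ × List (List Wd)) (D : Dt) =>
      ValidD x.1 x.2 D ∧ NoC x.1 D.1.1 D.1.2.1 D.1.2.2.2 D.2.1)
    (S1.and (S1_ValidD (by fun_prop) (by fun_prop) (by fun_prop))
      (S1_NoC (by fun_prop) (by fun_prop) (by fun_prop) (by fun_prop) (by fun_prop)))

theorem yes_sound {g : ℕ} {L : List (List Wd)} {f : SurfGroup g ≃* SurfGroup g}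
    (hf : IsPseudoAnosov f) (hL : RepresentsList g L f) (h : Yes (g, L)) : OnVeechCurve f := by
  obtain ⟨D, hD, hy⟩ := h
  obtain ⟨t, ht, hr⟩ := exists_root hD.1.2.2.1
  obtain ⟨Y, Z, m, hR, hA⟩ := hD.sound hL ht hr
  exact hA.yes hf (YesC.sound hR ht hr hy)

theorem no_sound {g : ℕ} {L : List (List Wd)} {f : SurfGroup g ≃* SurfGroup g}
    (hf : IsPseudoAnosov f) (hL : RepresentsList g L f) (h : No (g, L)) : ¬ OnVeechCurve f := by
  obtain ⟨D, hD, hy⟩ := h
  obtain ⟨t, ht, hr⟩ := exists_root hD.1.2.2.1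
  obtain ⟨Y, Z, m, hR, hA⟩ := hD.sound hL ht hr
  have hn := NoC.sound hR ht hy
  have hd : (toPoly D.1.1).natDegree = D.1.1.length - 1 :=
    (toPoly_monic (k := D.1.1.length - 1) (by have := hD.1.1; omega) hD.1.2.1).2
  rw [← hd] at hn
  exact hA.no hf hn

theorem yes_or_no {g : ℕ} {L : List (List Wd)} {f : SurfGroup g ≃* SurfGroup g}
    (hf : IsPseudoAnosov f) (hL : RepresentsList g L f) : Yes (g, L) ∨ No (g, L) := by
  obtain ⟨Y, p, t, Z, σ, m, N, hA, hp, ht, hcert⟩ := hf.exists_data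
  obtain ⟨pc, s, c, l, hpc, hlen, hR, ε, hε, hV⟩ := ValidD.complete hL hA hp ht
  have hpm : toPoly pc = minpoly ℤ t := hpc.trans hp
  by_cases hN : NSVT Y.S.tri Y.S.z (area Y.S.tri Y.S.z / Bc Y.n N p.natDegree)
  · left
    obtain ⟨ε', hε', hY⟩ := YesC.complete hR hpm ht (hcert hN)
    obtain ⟨J, hJ, hroot⟩ := exists_good ht hpm (lt_min hε hε')
    exact ⟨((pc, J, s, N), c, l), hV J (hJ.mono (min_le_left _ _)) hroot,
      hY J (hJ.mono (min_le_right _ _))⟩
  · right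
    have hd : p.natDegree = pc.length - 1 := by omega
    rw [hd] at hN
    obtain ⟨ε', hε', hY⟩ := NoC.complete hR hN
    obtain ⟨J, hJ, hroot⟩ := exists_good ht hpm (lt_min hε hε')
    exact ⟨((pc, J, s, N), c, l), hV J (hJ.mono (min_le_left _ _)) hroot,
      hY J (hJ.mono (min_le_right _ _))⟩

theorem main : Statement := by
  obtain ⟨F, hF, hPQ⟩ := exists_partrec S1_Yes S1_No
  refine ⟨F, hF, fun g _ f hf L hL => ?_⟩
  rcases yes_or_no hf hL with hy | hn
  · have hv := yes_sound hf hL hy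
    refine ⟨true, ?_, by simp [hv]⟩
    rw [(hPQ (g, L)).1 ⟨hy, fun hn => no_sound hf hL hn hv⟩]
    exact Part.mem_some _
  · have hv := no_sound hf hL hn
    refine ⟨false, ?_, by simp [hv]⟩
    rw [(hPQ (g, L)).2 ⟨hn, fun hy => hv (yes_sound hf hL hy)⟩]
    exact Part.mem_some _

end Pool.Veech
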