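import Mathlib

/-!
A toolkit for primitive recursive functions and existential quantification over them.
-/

set_option autoImplicit false

namespace Pool.Veech.RE

attribute [fun_prop] Primrec

section
variable {α β γ δ σ : Type*} [Primcodable α] [Primcodable β] [Primcodable γ] [Primcodable δ]
  [Primcodable σ]

@[fun_prop] theorem p_id : Primrec fun a : α => a := Primrec.id
@[fun_prop] theorem p_const (b : β) : Primrec fun _ : α => b := Primrec.const b
@[fun_prop] theorem p_comp {f : β → γ} {g : α → β} (hf : Primrec f) (hg : Primrec g) :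
    Primrec fun a => f (g a) := hf.comp hg
@[fun_prop] theorem p_pair {f : α → β} {g : α → γ} (hf : Primrec f) (hg : Primrec g) :
    Primrec fun a => (f a, g a) := hf.pair hg
@[fun_prop] theorem p_fst {f : α → β × γ} (hf : Primrec f) : Primrec fun a => (f a).1 :=
  Primrec.fst.comp hf
@[fun_prop] theorem p_snd {f : α → β × γ} (hf : Primrec f) : Primrec fun a => (f a).2 :=
  Primrec.snd.comp hf
@[fun_prop] theorem p_add {f g : α → ℕ} (hf : Primrec f) (hg : Primrec g) :
    Primrec fun a => f a + g a := Primrec.nat_add.comp hf hg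
@[fun_prop] theorem p_sub {f g : α → ℕ} (hf : Primrec f) (hg : Primrec g) :
    Primrec fun a => f a - g a := Primrec.nat_sub.comp hf hg
@[fun_prop] theorem p_mul {f g : α → ℕ} (hf : Primrec f) (hg : Primrec g) :
    Primrec fun a => f a * g a := Primrec.nat_mul.comp hf hg
@[fun_prop] theorem p_div {f g : α → ℕ} (hf : Primrec f) (hg : Primrec g) :
    Primrec fun a => f a / g a := Primrec.nat_div.comp hf hg
@[fun_prop] theorem p_mod {f g : α → ℕ} (hf : Primrec f) (hg : Primrec g) :
    Primrec fun a => f a % g a := Primrec.nat_mod.comp hf hg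
@[fun_prop] theorem p_map {f : α → List β} {g : α → β → γ} (hf : Primrec f)
    (hg : Primrec fun p : α × β => g p.1 p.2) :
    Primrec fun a => (f a).map (g a) := Primrec.list_map hf hg
@[fun_prop] theorem p_flatMap {f : α → List β} {g : α → β → List γ} (hf : Primrec f)
    (hg : Primrec fun p : α × β => g p.1 p.2) :
    Primrec fun a => (f a).flatMap (g a) := Primrec.list_flatMap hf hg
@[fun_prop] theorem p_cons {f : α → β} {g : α → List β} (hf : Primrec f) (hg : Primrec g) :
    Primrec fun a => f a :: g a := Primrec.list_cons.comp hf hg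
@[fun_prop] theorem p_append {f g : α → List β} (hf : Primrec f) (hg : Primrec g) :
    Primrec fun a => f a ++ g a := Primrec.list_append.comp hf hg
@[fun_prop] theorem p_flatten {f : α → List (List β)} (hf : Primrec f) :
    Primrec fun a => (f a).flatten := Primrec.list_flatten.comp hf
@[fun_prop] theorem p_length {f : α → List β} (hf : Primrec f) :
    Primrec fun a => (f a).length := Primrec.list_length.comp hf
@[fun_prop] theorem p_range {f : α → ℕ} (hf : Primrec f) :
    Primrec fun a => List.range (f a) := Primrec.list_range.comp hf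
@[fun_prop] theorem p_decide_eq [DecidableEq β] {f g : α → β} (hf : Primrec f) (hg : Primrec g) :
    Primrec fun a => decide (f a = g a) := (Primrec.eq.comp hf hg).decide
@[fun_prop] theorem p_decide_lt {f g : α → ℕ} (hf : Primrec f) (hg : Primrec g) :
    Primrec fun a => decide (f a < g a) := (Primrec.nat_lt.comp hf hg).decide
@[fun_prop] theorem p_decide_le {f g : α → ℕ} (hf : Primrec f) (hg : Primrec g) :
    Primrec fun a => decide (f a ≤ g a) := (Primrec.nat_le.comp hf hg).decide
@[fun_prop] theorem p_and {f g : α → Bool} (hf : Primrec f) (hg : Primrec g) :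
    Primrec fun a => (f a && g a) := Primrec.and.comp hf hg
@[fun_prop] theorem p_or {f g : α → Bool} (hf : Primrec f) (hg : Primrec g) :
    Primrec fun a => (f a || g a) := Primrec.or.comp hf hg
@[fun_prop] theorem p_not {f : α → Bool} (hf : Primrec f) :
    Primrec fun a => !(f a) := Primrec.not.comp hf
@[fun_prop] theorem p_cond {c : α → Bool} {f g : α → β} (hc : Primrec c) (hf : Primrec f)
    (hg : Primrec g) : Primrec fun a => cond (c a) (f a) (g a) := Primrec.cond hc hf hg

@[fun_prop] theorem p_foldr {f : α → List β} {g : α → σ} {h : α → β → σ → σ} (hf : Primrec f)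
    (hg : Primrec g) (hh : Primrec fun p : α × β × σ => h p.1 p.2.1 p.2.2) :
    Primrec fun a => (f a).foldr (h a) (g a) :=
  Primrec.list_foldr (h := fun a p => h a p.1 p.2) hf hg hh

@[fun_prop] theorem p_filter {f : α → List β} {g : α → β → Bool} (hf : Primrec f)
    (hg : Primrec fun p : α × β => g p.1 p.2) :
    Primrec fun a => (f a).filter (g a) := by
  have h : Primrec fun a => (f a).flatMap (fun b => cond (g a b) [b] []) := by fun_prop
  refine h.of_eq fun a => ?_
  induction f a with
  | nil => rfl
  | cons b l ih =>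
    rw [List.flatMap_cons, ih, List.filter_cons]
    cases g a b <;> simp

@[fun_prop] theorem p_all {f : α → List β} {g : α → β → Bool} (hf : Primrec f)
    (hg : Primrec fun p : α × β => g p.1 p.2) :
    Primrec fun a => (f a).all (g a) := by
  have h : Primrec fun a => (f a).foldr (fun b r => g a b && r) true := by fun_prop
  refine h.of_eq fun a => ?_
  induction f a with
  | nil => rfl
  | cons b l ih => rw [List.foldr_cons, ih, List.all_cons]

@[fun_prop] theorem p_any {f : α → List β} {g : α → β → Bool} (hf : Primrec f)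
    (hg : Primrec fun p : α × β => g p.1 p.2) :
    Primrec fun a => (f a).any (g a) := by
  have h : Primrec fun a => (f a).foldr (fun b r => g a b || r) false := by fun_prop
  refine h.of_eq fun a => ?_
  induction f a with
  | nil => rfl
  | cons b l ih => rw [List.foldr_cons, ih, List.any_cons]

@[fun_prop] theorem p_replicate {f : α → ℕ} {g : α → β} (hf : Primrec f) (hg : Primrec g) :
    Primrec fun a => List.replicate (f a) (g a) := by
  have h : Primrec fun a => (List.range (f a)).map (fun _ => g a) := by fun_prop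
  refine h.of_eq fun a => ?_
  rw [List.map_const', List.length_range]

@[fun_prop] theorem p_lookup [i : BEq β] [LawfulBEq β] {f : α → β} {g : α → List (β × γ)}
    (hf : Primrec f) (hg : Primrec g) : Primrec fun a => List.lookup (f a) (g a) := by
  letI : DecidableEq β := instDecidableEqOfLawfulBEq
  have h := Primrec.listLookup.comp hf hg
  have e : (instBEqOfDecidableEq : BEq β) = i := lawful_beq_subsingleton _ _
  rw [e] at h
  exact h

@[fun_prop] theorem p_getD {f : α → Option β} {g : α → β} (hf : Primrec f)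
    (hg : Primrec g) : Primrec fun a => (f a).getD (g a) :=
  Primrec.option_getD.comp hf hg

@[fun_prop] theorem p_omap {f : α → Option β} {g : α → β → γ} (hf : Primrec f)
    (hg : Primrec fun p : α × β => g p.1 p.2) : Primrec fun a => (f a).map (g a) :=
  Primrec.option_map hf hg

@[fun_prop] theorem p_decode {f : α → ℕ} (hf : Primrec f) :
    Primrec fun a => (Encodable.decode (f a) : Option β) := Primrec.decode.comp hf

@[fun_prop] theorem p_getElem {f : α → List β} {g : α → ℕ} (hf : Primrec f)
    (hg : Primrec g) : Primrec fun a => (f a)[g a]? :=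
  Primrec.list_getElem?.comp hf hg

/-- Existential quantification over primitive recursive predicates. -/
def S1 (p : α → Prop) : Prop := ∃ f : α × ℕ → Bool, Primrec f ∧ ∀ a, p a ↔ ∃ n, f (a, n) = true

theorem S1.of_bool {p : α → Prop} {f : α → Bool} (hf : Primrec f) (h : ∀ a, p a ↔ f a = true) :
    S1 p := ⟨fun x => f x.1, by fun_prop, fun a => by simp [h a]⟩

theorem S1.of_eq {p q : α → Prop} (h : S1 p) (he : ∀ a, p a ↔ q a) : S1 q := by
  obtain ⟨f, hf, h⟩ := h
  exact ⟨f, hf, fun a => (he a).symm.trans (h a)⟩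

theorem S1.comp {p : β → Prop} {g : α → β} (h : S1 p) (hg : Primrec g) :
    S1 fun a => p (g a) := by
  obtain ⟨f, hf, h⟩ := h
  exact ⟨fun x => f (g x.1, x.2), by fun_prop, fun a => h (g a)⟩

theorem S1.exists {p : α → β → Prop} (h : S1 fun x : α × β => p x.1 x.2) :
    S1 fun a => ∃ b, p a b := by
  obtain ⟨f, hf, h⟩ := h
  refine ⟨fun x => ((Encodable.decode x.2.unpair.1 : Option β).map
    fun b => f ((x.1, b), x.2.unpair.2)).getD false, ?_, fun a => ?_⟩
  · have h1 : Primrec Nat.unpair := Primrec.unpair
    fun_prop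
  · constructor
    · rintro ⟨b, hb⟩
      obtain ⟨n, hn⟩ := (h (a, b)).1 hb
      refine ⟨Nat.pair (Encodable.encode b) n, ?_⟩
      simp [Encodable.encodek, hn]
    · rintro ⟨n, hn⟩
      cases hd : (Encodable.decode n.unpair.1 : Option β) with
      | none => simp [hd] at hn
      | some b =>
        simp only [hd, Option.map_some, Option.getD_some] at hn
        exact ⟨b, (h (a, b)).2 ⟨_, hn⟩⟩

theorem S1.and {p q : α → Prop} (hp : S1 p) (hq : S1 q) : S1 fun a => p a ∧ q a := by
  obtain ⟨f, hf, hf'⟩ := hp
  obtain ⟨g, hg, hg'⟩ := hq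
  refine S1.of_eq (S1.exists (p := fun a (n : ℕ × ℕ) => f (a, n.1) = true ∧ g (a, n.2) = true)
    (S1.of_bool (f := fun x => f (x.1, x.2.1) && g (x.1, x.2.2)) (by fun_prop) ?_)) ?_
  · intro x; simp
  · intro a
    rw [hf', hg']
    constructor
    · rintro ⟨n, h1, h2⟩; exact ⟨⟨_, h1⟩, ⟨_, h2⟩⟩
    · rintro ⟨⟨_, h1⟩, ⟨_, h2⟩⟩; exact ⟨(_, _), h1, h2⟩

theorem S1.or {p q : α → Prop} (hp : S1 p) (hq : S1 q) : S1 fun a => p a ∨ q a := by
  obtain ⟨f, hf, hf'⟩ := hp
  obtain ⟨g, hg, hg'⟩ := hq
  refine ⟨fun x => f x || g x, by fun_prop, fun a => ?_⟩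
  show p a ∨ q a ↔ ∃ n, (f (a, n) || g (a, n)) = true
  rw [hf', hg']
  constructor
  · rintro (⟨n, h1⟩ | ⟨n, h1⟩)
    · exact ⟨n, by simp [h1]⟩
    · exact ⟨n, by simp [h1]⟩
  · rintro ⟨n, h⟩
    rcases Bool.or_eq_true_iff.1 h with h | h
    · exact Or.inl ⟨_, h⟩
    · exact Or.inr ⟨_, h⟩

theorem S1.ball {p : α → β → Prop} (h : S1 fun x : α × β => p x.1 x.2) {l : α → List β}
    (hl : Primrec l) : S1 fun a => ∀ b ∈ l a, p a b := by
  obtain ⟨f, hf, h⟩ := h
  refine ⟨fun x => (l x.1).all fun b => (List.range x.2).any fun n => f ((x.1, b), n), by fun_prop,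
    fun a => ?_⟩
  simp only [List.all_eq_true, List.any_eq_true, List.mem_range]
  have h1 : ∀ b, p a b ↔ ∃ n, f ((a, b), n) = true := fun b => h (a, b)
  simp only [h1]
  generalize l a = L
  constructor
  · intro H
    induction L with
    | nil => exact ⟨0, by simp⟩
    | cons b L ih =>
      obtain ⟨N, hN⟩ := ih fun b hb => H b (by simp [hb])
      obtain ⟨n, hn⟩ := H b (by simp)
      refine ⟨max N (n + 1), ?_⟩
      intro b' hb'
      rcases List.mem_cons.1 hb' with rfl | hb'
      · exact ⟨n, by omega, hn⟩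
      · obtain ⟨n', hn', h2⟩ := hN b' hb'
        exact ⟨n', by omega, h2⟩
  · rintro ⟨N, hN⟩ b hb
    obtain ⟨n, _, h2⟩ := hN b hb
    exact ⟨n, h2⟩

theorem S1.bforall {p : α → ℕ → Prop} (h : S1 fun x : α × ℕ => p x.1 x.2) {l : α → ℕ}
    (hl : Primrec l) : S1 fun a => ∀ b < l a, p a b :=
  (S1.ball h (Primrec.list_range.comp hl)).of_eq fun a => by simp

theorem S1.re {p : α → Prop} (h : S1 p) : REPred p := by
  obtain ⟨f, hf, h⟩ := h
  have h1 : Partrec fun a => Nat.rfind fun n => Part.some (f (a, n)) :=
    Partrec.rfind (Computable.to₂ (f := fun x : α × ℕ => f x) hf.to_comp).partrec₂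
  refine (Partrec.map h1 (Computable.to₂ (Computable.const ()))).of_eq fun a => ?_
  apply Part.ext'
  · rw [Part.assert]
    simp only [Part.map_Dom, Nat.rfind_dom, h a]
    constructor
    · rintro ⟨n, hn, _⟩
      exact ⟨⟨n, by simpa using hn⟩, trivial⟩
    · rintro ⟨⟨n, hn⟩, _⟩
      exact ⟨n, by simpa using hn, fun _ => trivial⟩
  · intro _ _; rfl

theorem computable_of_S1 {p : α → Prop} (h1 : S1 p) (h2 : S1 fun a => ¬ p a) : ComputablePred p :=
  ComputablePred.computable_iff_re_compl_re'.2 ⟨h1.re, h2.re⟩

end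

end Pool.Veech.RE
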