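import Pool.Agent.Lib.MP_fceebd_gt.Defs

/-!
# MP_fceebd_gt: combinatorial triangulations, cocycles, flips, flip paths (definitions)
-/

set_option autoImplicit false

open scoped MatrixGroups

namespace Pool.Veech

variable {D : Type}

/-- The combinatorial part of `Surf`. -/
@[ext] structure Tri (D : Type) where
  nxt : Equiv.Perm D
  opp : Equiv.Perm D
  tau : Equiv.Perm D
  nxt3 : ∀ d, nxt (nxt (nxt d)) = d
  opp2 : ∀ d, opp (opp d) = d
  tau2 : ∀ d, tau (tau d) = d
  tau_nxt : ∀ d, tau (nxt d) = nxt (tau d)
  tau_opp : ∀ d, tau (opp d) = opp (tau d)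
  opp_ne : ∀ d, opp d ≠ tau d

/-- The combinatorial part of a surface. -/
def Surf.tri {G : Type} [Group G] (S : Surf G D) : Tri D :=
  ⟨S.nxt, S.opp, S.tau, S.nxt3, S.opp2, S.tau2, S.tau_nxt, S.tau_opp, S.opp_ne⟩

/-- Cocycles with values in `M`. -/
structure IsCoc {M : Type*} [AddCommGroup M] (T : Tri D) (f : D → M) : Prop where
  closed : ∀ d, f d + f (T.nxt d) + f (T.nxt (T.nxt d)) = 0
  glue : ∀ d, f (T.opp d) = -f d

/-- `f` is anti-invariant under the deck transformation. -/
def IsAnti {M : Type*} [AddCommGroup M] (T : Tri D) (f : D → M) : Prop := ∀ d, f (T.tau d) = -f d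

/-- `z` is the vector of holonomies of a flat structure on `T`. -/
structure Geo (T : Tri D) (z : D → Vec) : Prop where
  coc : IsCoc T z
  anti : IsAnti T z
  pos : ∀ d, 0 < cr (z d) (z (T.nxt d))

/-- The inner product. -/
def ip (u v : Vec) : ℝ := u 0 * v 0 + u 1 * v 1

/-- The square of the length. -/
def nq (u : Vec) : ℝ := ip u u

/-- The bilinear form. For a cocycle `f` and a geometric `z`, this is `6` times the integral of
`f ∪ g` over the double cover. -/
def form {R : Type*} [CommRing R] [Fintype D] (T : Tri D) (f g : D → R) : R :=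
  ∑ d, (f d * g (T.nxt d) - g d * f (T.nxt d))

/-- The sum of all cross products: `6` times the area of the double cover. -/
def area [Fintype D] (T : Tri D) (z : D → Vec) : ℝ := ∑ d, cr (z d) (z (T.nxt d))

/-- The action of an integer matrix on functions on `D`. -/
def app {M : Type*} [AddCommGroup M] [Fintype D] (m : Matrix D D ℤ) (f : D → M) : D → M :=
  fun d => ∑ e, m d e • f e

/-- The action of a real matrix on the vectors. -/
def lin (A : Matrix (Fin 2) (Fin 2) ℝ) (z : D → Vec) : D → Vec := fun d => A.mulVec (z d)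

/-- The twelve darts of the four triangles at `a`, `opp a`, `tau a`, `tau (opp a)`. -/
def Tri.Near (T : Tri D) (a d : D) : Prop :=
  ∃ b ∈ ({a, T.opp a, T.tau a, T.tau (T.opp a)} : Set D),
    d = b ∨ d = T.nxt b ∨ d = T.nxt (T.nxt b)

/-- The four darts which are changed by the flip at `a`. -/
def Tri.Diag (T : Tri D) (a d : D) : Prop :=
  d = a ∨ d = T.opp a ∨ d = T.tau a ∨ d = T.tau (T.opp a)

/-- `T'` is the flip of `T` at `a` (and at `tau a`). -/
structure Tri.IsFlip (T T' : Tri D) (a : D) : Prop where
  opp : T'.opp = T.opp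
  tau : T'.tau = T.tau
  nxt1 : ∀ b, T.Diag a b → T'.nxt b = T.nxt (T.nxt b)
  nxt2 : ∀ b, T.Diag a b → T'.nxt (T.nxt (T.nxt b)) = T.nxt (T.opp b)
  nxt3 : ∀ b, T.Diag a b → T'.nxt (T.nxt b) = T.opp b
  rest : ∀ d, ¬ T.Near a d → T'.nxt d = T.nxt d

instance [DecidableEq D] (T : Tri D) (a d : D) : Decidable (T.Diag a d) :=
  inferInstanceAs (Decidable (_ ∨ _ ∨ _ ∨ _))

/-- The new values of a cocycle after the flip at `a`. -/
def Tri.flipF [DecidableEq D] {M : Type*} [AddCommGroup M] (T : Tri D) (a : D) (f : D → M) :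
    D → M :=
  fun d => if T.Diag a d then -f (T.nxt (T.nxt d)) - f (T.nxt (T.opp d)) else f d

/-- The integer matrix of `flipF`. -/
def Tri.flipM [DecidableEq D] (T : Tri D) (a : D) : Matrix D D ℤ := fun d e =>
  T.flipF a (fun d' => if d' = e then (1 : ℤ) else 0) d

/-- The triangulation with other names of the darts. -/
def Tri.relab (T : Tri D) (e : Equiv.Perm D) : Tri D where
  nxt := (e.symm.trans T.nxt).trans e
  opp := (e.symm.trans T.opp).trans e
  tau := (e.symm.trans T.tau).trans e
  nxt3 d := by simp [T.nxt3]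
  opp2 d := by simp [T.opp2]
  tau2 d := by simp [T.tau2]
  tau_nxt d := by simp [T.tau_nxt]
  tau_opp d := by simp [T.tau_opp]
  opp_ne d := by simpa using T.opp_ne (e.symm d)

/-- The integer matrix of a relabelling: `app (permM e) f = f ∘ e.symm`. -/
def permM [DecidableEq D] (e : Equiv.Perm D) : Matrix D D ℤ := fun d d' =>
  if d' = e.symm d then 1 else 0

/-- `GPath T z T' m`: there is a sequence of flips and relabellings from `T` to `T'`, whose action
on cocycles is the matrix `m`, and which is geometric for `z` (that is, all triangulations of the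
sequence are positively oriented). -/
inductive GPath [Fintype D] [DecidableEq D] (T : Tri D) (z : D → Vec) :
    Tri D → Matrix D D ℤ → Prop
  | refl (h : Geo T z) : GPath T z T 1
  | flip {T' T'' : Tri D} {m : Matrix D D ℤ} {a : D} (h : GPath T z T' m)
      (hf : T'.IsFlip T'' a) (hg : Geo T'' (T'.flipF a (app m z))) :
      GPath T z T'' (T'.flipM a * m)
  | relabel {T' : Tri D} {m : Matrix D D ℤ} (e : Equiv.Perm D) (h : GPath T z T' m) :
      GPath T z (T'.relab e) (permM e * m)

/-- The edge vectors of all triangulations (the saddle connections). -/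
def edges [Fintype D] [DecidableEq D] (T : Tri D) (z : D → Vec) : Set Vec :=
  {v | ∃ T' m d, GPath T z T' m ∧ v = app m z d}

end Pool.Veech
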