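import Pool.Agent.Lib.MP_fceebd_gt.P2b
import Pool.Agent.Lib.MP_fceebd_gt.M4b
import Pool.Agent.Lib.MP_fceebd_gt.N2

/-! # Row Z1, Z2: soundness and completeness of certificates, on the level of real numbers -/

set_option autoImplicit false

open Polynomial MeasureTheory
open scoped UpperHalfPlane MatrixGroups

namespace Pool.Veech

/-- An axis surface of `f` with algebraic data. (`Y` is a marked surface; `f Y` is isometric to `C Y`
with the hyperbolic matrix `C = Cmat σ t`.) -/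
structure AxisData {g : ℕ} (f : SurfGroup g ≃* SurfGroup g) (Y : MS g) (p : ℤ[X]) (t : ℝ)
    (Z : Fin Y.n → Fin 2 → ℤ[X]) (σ : ℤ) (m : Matrix (Fin Y.n) (Fin Y.n) ℤ) (N : ℕ) : Prop where
  z_eq : Y.S.z = polyZ Z t
  alg : AlgData Y.S.tri p t Z σ m N
  lpath : ∃ h : 0 < (Cmat σ t).det, LPath (Y.S.relab f) (Y.S.act (Cmat σ t) h) m

variable {g : ℕ} {f : SurfGroup g ≃* SurfGroup g} {Y : MS g} {p : ℤ[X]} {t : ℝ}
  {Z : Fin Y.n → Fin 2 → ℤ[X]} {σ : ℤ} {m : Matrix (Fin Y.n) (Fin Y.n) ℤ} {N : ℕ}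

/-- a linear image of `Y` is an axis surface (diagonalise `Cmat σ t`, `t > 2`, by a matrix with
positive determinant: `P C P⁻¹ = flow s`) -/
theorem AxisData.isAxis (h : AxisData f Y p t Z σ m N) :
    ∃ (P : Matrix (Fin 2) (Fin 2) ℝ) (hP : 0 < P.det), IsAxis f (Y.act P hP) := by
  have ht := h.alg.ht
  have hσ2 : (σ : ℝ) * σ = 1 := by
    rcases h.alg.hσ with h1 | h1 <;> simp [h1]
  obtain ⟨s, hs, hst⟩ : ∃ s : ℝ, 0 < s ∧ Real.exp s + Real.exp (-s) = t := by
    have hq : Real.sqrt (t ^ 2 - 4) ^ 2 = t ^ 2 - 4 := Real.sq_sqrt (by nlinarith)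
    have hq0 := Real.sqrt_nonneg (t ^ 2 - 4)
    have h1 : 1 < (t + Real.sqrt (t ^ 2 - 4)) / 2 := by linarith
    refine ⟨Real.log ((t + Real.sqrt (t ^ 2 - 4)) / 2), Real.log_pos h1, ?_⟩
    have h2 : 0 < (t + Real.sqrt (t ^ 2 - 4)) / 2 := by linarith
    rw [Real.exp_neg, Real.exp_log h2]
    field_simp
    linear_combination hq
  set a := Real.exp s with ha
  set b := Real.exp (-s) with hb
  have hab : a * b = 1 := by
    rw [ha, hb, ← Real.exp_add, add_neg_cancel, Real.exp_zero]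
  have hlt : b < a := Real.exp_lt_exp.2 (by linarith)
  let P : Matrix (Fin 2) (Fin 2) ℝ := !![-(σ : ℝ), a; -1, σ * b]
  have hPdet : P.det = a - b := by
    simp only [P, Matrix.det_fin_two_of]
    linear_combination -b * hσ2
  have hP : 0 < P.det := by rw [hPdet]; linarith
  have hcomm : P * Cmat σ t = flow s * P := by
    rw [← hst]
    ext i j
    fin_cases i <;> fin_cases j <;>
      simp [P, Cmat, flow, Matrix.mul_apply, Fin.sum_univ_two, ← ha, ← hb]
    · linear_combination -hσ2 + hab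
    · linear_combination b * hσ2
    · linear_combination (σ : ℝ) * hab
  obtain ⟨hC, hpath⟩ := h.lpath
  refine ⟨P, hP, s, hs, ?_⟩
  refine (sameSurf_iff _ _).2 ⟨m, ?_⟩
  have h1 := hpath.act P hP
  have h2 : (Y.S.act (Cmat σ t) hC).act P hP = (Y.S.act P hP).act (flow s) (flow_det s) := by
    refine Surf.ext' rfl rfl rfl ?_ rfl
    funext d
    change P.mulVec ((Cmat σ t).mulVec (Y.S.z d)) = (flow s).mulVec (P.mulVec (Y.S.z d))
    rw [Matrix.mulVec_mulVec, Matrix.mulVec_mulVec, hcomm]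
  rw [h2] at h1
  exact h1

private theorem Z1a_lattice_act (X : MS g) (A : Matrix (Fin 2) (Fin 2) ℝ) (hA : 0 < A.det) :
    IsLattice (veechGroup (X.act A hA)) ↔ IsLattice (veechGroup X) := by
  obtain ⟨B, hB⟩ := veechGroup_act X A hA
  constructor
  · intro h
    refine h.conj B⁻¹ (fun M => ?_)
    rw [hB]
    simp [mul_assoc]
  · intro h
    exact h.conj B hB

/-- The Veech group of each axis surface of `f` is conjugate to `aff Y` (uniqueness of the axis,
`veechGroup_same`, `veechGroup_act`). -/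
theorem AxisData.onVeechCurve_iff (h : AxisData f Y p t Z σ m N) (hf : IsPseudoAnosov f) :
    OnVeechCurve f ↔ IsLattice (aff Y.S.tri Y.S.z Y.S.geo) := by
  obtain ⟨P, hP, hax⟩ := h.isAxis
  rw [← veechGroup_eq]
  constructor
  · rintro ⟨X, hX, hlat⟩
    obtain ⟨a, b, ha, hb, hab⟩ := hf.2 (Y.act P hP) X hax hX
    have hd : 0 < (!![a, 0; 0, b] : Matrix (Fin 2) (Fin 2) ℝ).det := by
      rw [Matrix.det_fin_two_of]; simpa using mul_pos ha hb
    have h1 : SameSurf X.toSigma ((Y.act P hP).act !![a, 0; 0, b] hd).toSigma := hab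
    rw [veechGroup_same h1, Z1a_lattice_act, Z1a_lattice_act] at hlat
    exact hlat
  · intro hlat
    exact ⟨Y.act P hP, hax, (Z1a_lattice_act Y P hP).2 hlat⟩

end Pool.Veech
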