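import Pool.Agent.Lib.MP_fceebd_gt.Z1a

/-! # Row Z1, Z2: soundness and completeness of certificates, on the level of real numbers -/

set_option autoImplicit false

open Polynomial MeasureTheory
open scoped UpperHalfPlane MatrixGroups

namespace Pool.Veech

variable {g : ℕ} {f : SurfGroup g ≃* SurfGroup g} {Y : MS g} {p : ℤ[X]} {t : ℝ}
  {Z : Fin Y.n → Fin 2 → ℤ[X]} {σ : ℤ} {m : Matrix (Fin Y.n) (Fin Y.n) ℤ} {N : ℕ}

private theorem Z1b_root {t : ℝ} (ht : 2 < t) : ∃ s : ℝ, 0 < s ∧ Real.exp s + Real.exp (-s) = t := by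
  obtain ⟨r, hr⟩ : ∃ r, r = Real.sqrt (t ^ 2 - 4) := ⟨_, rfl⟩
  have hr0 : 0 ≤ r := hr ▸ Real.sqrt_nonneg _
  have hr2 : r * r = t ^ 2 - 4 := by
    rw [hr]
    exact Real.mul_self_sqrt (by nlinarith)
  have hl : 1 < (t + r) / 2 := by linarith
  refine ⟨Real.log ((t + r) / 2), Real.log_pos hl, ?_⟩
  rw [Real.exp_neg, Real.exp_log (by linarith)]
  have : ((t + r) / 2)⁻¹ = (t - r) / 2 :=
    inv_eq_of_mul_eq_one_right (by linear_combination (-1 / 4 : ℝ) * hr2)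
  rw [this]
  ring

theorem AxisData.hyp (h : AxisData f Y p t Z σ m N) (hf : IsPseudoAnosov f) :
    ∃ C : SL(2, ℝ), Hyp Y.S.tri Y.S.z m C := by
  have hσ : (σ : ℝ) * σ = 1 := by
    rcases h.alg.hσ with h1 | h1 <;> rw [h1] <;> norm_num
  have hdet : (Cmat σ t).det = 1 := by
    unfold Cmat
    rw [Matrix.det_fin_two_of]
    linarith
  obtain ⟨s, hs, hst⟩ := Z1b_root h.alg.ht
  obtain ⟨l, hl⟩ : ∃ l, l = Real.exp s := ⟨_, rfl⟩
  obtain ⟨l', hl'⟩ : ∃ l', l' = Real.exp (-s) := ⟨_, rfl⟩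
  have hll : l * l' = 1 := by rw [hl, hl', ← Real.exp_add, add_neg_cancel, Real.exp_zero]
  have hlt : l + l' = t := by rw [hl, hl', hst]
  have hl1 : l' < l := by
    rw [hl, hl']
    exact Real.exp_lt_exp.2 (by linarith)
  obtain ⟨P, hP⟩ : ∃ P : Matrix (Fin 2) (Fin 2) ℝ, P = !![-l', (σ : ℝ); -σ * l, 1] := ⟨_, rfl⟩
  have hPdet : 0 < P.det := by
    rw [hP, Matrix.det_fin_two_of]
    have : (σ : ℝ) * (-σ * l) = -l := by linear_combination (-l) * hσ
    rw [this]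
    linarith
  have hPC : P * Cmat σ t = flow s * P := by
    rw [hP]
    unfold Cmat flow
    rw [← hl, ← hl']
    ext i j
    fin_cases i <;> fin_cases j
    · simp [Matrix.mul_apply, Fin.sum_univ_two]
      linear_combination hσ - hll
    · simp [Matrix.mul_apply, Fin.sum_univ_two]
      linear_combination (-σ : ℝ) * hlt
    · simp [Matrix.mul_apply, Fin.sum_univ_two]
      linear_combination (-σ : ℝ) * hll
    · simp [Matrix.mul_apply, Fin.sum_univ_two]
      linear_combination (-l : ℝ) * hσ - hlt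
  obtain ⟨hC, hlp⟩ := h.lpath
  have hm : LPath ((Y.act P hPdet).S.relab f) ((Y.act P hPdet).S.act (flow s) (flow_det s)) m := by
    have h1 := hlp.act P hPdet
    have e1 : (Y.S.relab f).act P hPdet = (Y.act P hPdet).S.relab f := rfl
    have e2 : (Y.S.act (Cmat σ t) hC).act P hPdet =
        (Y.act P hPdet).S.act (flow s) (flow_det s) := by
      refine Surf.ext' rfl rfl rfl ?_ rfl
      funext d
      show P.mulVec ((Cmat σ t).mulVec (Y.S.z d)) = (flow s).mulVec (P.mulVec (Y.S.z d))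
      rw [Matrix.mulVec_mulVec, Matrix.mulVec_mulVec, hPC]
    rw [e1, e2] at h1
    exact h1
  have hH := IsPseudoAnosov.hyp hf hs hm
  have htr : (flowSL s).1.trace = t := by
    show (flow s).trace = t
    unfold flow
    rw [Matrix.trace_fin_two_of, hst]
  refine ⟨⟨Cmat σ t, hdet⟩, ?_, ?_, ?_, ?_⟩
  · rw [h.z_eq]
    exact h.alg.path
  · rw [h.z_eq]
    exact h.alg.der
  · show 2 < (Cmat σ t).trace
    unfold Cmat
    rw [Matrix.trace_fin_two_of, zero_add]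
    exact h.alg.ht
  · intro f₀ h1 h2 h3
    have h4 : (⟨Cmat σ t, hdet⟩ : SL(2, ℝ)).1.trace = t := by
      show (Cmat σ t).trace = t
      unfold Cmat
      rw [Matrix.trace_fin_two_of, zero_add]
    rw [h4] at h3
    obtain ⟨a, b, hab⟩ := hH.simple f₀ h1 h2 (by rw [htr]; exact h3)
    refine ⟨a * P 0 0 + b * P 1 0, a * P 0 1 + b * P 1 1, ?_⟩
    rw [hab]
    funext d
    have e0 : (Y.act P hPdet).S.z d 0 = P 0 0 * Y.S.z d 0 + P 0 1 * Y.S.z d 1 := by
      show (P.mulVec (Y.S.z d)) 0 = _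
      simp [Matrix.mulVec, dotProduct, Fin.sum_univ_two]
    have e1 : (Y.act P hPdet).S.z d 1 = P 1 0 * Y.S.z d 0 + P 1 1 * Y.S.z d 1 := by
      show (P.mulVec (Y.S.z d)) 1 = _
      simp [Matrix.mulVec, dotProduct, Fin.sum_univ_two]
    rw [e0, e1]
    ring

/-- finite covolume implies that there are no small virtual triangles -/
theorem AxisData.nsvt (h : AxisData f Y p t Z σ m N) (hf : IsPseudoAnosov f) (F : Set ℍ)
    (hF : MeasurableSet F) (hvol : volume F < ⊤)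
    (hcov : ∀ τ : ℍ, ∃ A ∈ aff Y.S.tri Y.S.z Y.S.geo, A • τ ∈ F) :
    NSVT Y.S.tri Y.S.z (area Y.S.tri Y.S.z / Bc Y.n N p.natDegree) := by
  have : Nonempty (Fin Y.n) := ⟨⟨0, Y.pos⟩⟩
  obtain ⟨C, hC⟩ := h.hyp hf
  obtain ⟨K, _, _, ι, zK, tK, -, hA, hk⟩ := h.alg.arith
  rw [← h.z_eq] at hA
  have := nsvt_of_covolume Y.S.geo hA hC F hF hvol hcov hk
  rw [Fintype.card_fin] at this
  exact this

private theorem Z1b_pos (Y : MS g) (N k : ℕ) : 0 < area Y.S.tri Y.S.z / Bc Y.n N k := by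
  have : Nonempty (Fin Y.n) := ⟨⟨0, Y.pos⟩⟩
  have hB : 0 < Bc Y.n N k := by
    unfold Bc
    omega
  exact div_pos Y.S.geo.area_pos (by exact_mod_cast hB)

/-- soundness of YES -/
theorem AxisData.yes (h : AxisData f Y p t Z σ m N) (hf : IsPseudoAnosov f)
    (hc : Cert (aff Y.S.tri Y.S.z Y.S.geo)) : OnVeechCurve f := by
  have : Nonempty (Fin Y.n) := ⟨⟨0, Y.pos⟩⟩
  rw [h.onVeechCurve_iff hf]
  obtain ⟨F, hF, hvol, hcov⟩ := hc.covolume
  have hN := h.nsvt hf F hF hvol hcov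
  exact ⟨NSVT.discrete Y.S.geo (Z1b_pos Y N p.natDegree) hN, F, hF, hvol, hcov⟩

/-- soundness of NO -/
theorem AxisData.no (h : AxisData f Y p t Z σ m N) (hf : IsPseudoAnosov f)
    (hc : ¬ NSVT Y.S.tri Y.S.z (area Y.S.tri Y.S.z / Bc Y.n N p.natDegree)) :
    ¬ OnVeechCurve f := by
  intro ho
  rw [h.onVeechCurve_iff hf] at ho
  obtain ⟨-, F, hF, hvol, hcov⟩ := ho
  exact hc (h.nsvt hf F hF hvol hcov)

end Pool.Veech
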